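import Pool.Agent.H2.TI.PDefs

/-!
# The logarithmic integral (module AngA, Mathlib only)

`Wn c φ a b z = ∫_a^b γ' / (γ - ζ) ds` with `γ s = cx (c s)`, `γ' s = exp (i φ s)`, `ζ = cx z`.

PROOFS.
* `cx_inj`, `cx_hasDeriv`: real and imaginary parts; `exp (i φ) = cos φ + i sin φ`.
* `wn_exp`: the function `E b = (γ b - ζ) exp (- Wn c φ a b z)` has derivative `0` on `[a, b]` (the integrand is
  continuous at points where `γ ≠ ζ`), so it is constant `= γ a - ζ`.
* `wn_cont`: at `z₀` off the compact arc `c '' [a, b]`, the distance of `z` to the arc is at least `d > 0` for `z` near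
  `z₀`; the integrand is jointly continuous on `[a, b] × ball`, so the integral is continuous
  (`intervalIntegral.continuousAt_of_dominated_interval` with the bound `1 / d`, or the difference of the
  integrands is at most `|ζ - ζ₀| / d²`).
* `wn_adj`: additivity of interval integrals (integrable by continuity; the points of `[a, d]` are off `z`).
* `wn_slit`: on `[a, b]` the function `log (u (γ s - ζ))` is differentiable (slit plane) with derivative
  `u γ' / (u (γ - ζ)) = γ' / (γ - ζ)` (`u ≠ 0` since `0 ∉ slitPlane`): fundamental theorem of calculus.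
* `wn_above`: `u = 1`: `Im (γ s - ζ) < 0` so it is in the slit plane; imaginary parts (`Complex.log_im`).
  `wn_below`: the same.
* `wn_contS`: `S ↦ Wn c φ (-S) S z` is continuous if `z` is not on the curve.
-/

set_option autoImplicit false

open scoped Topology
open Set

namespace Pool.Agent.H2.TI

variable {c : ℝ → ℝ × ℝ} {φ : ℝ → ℝ} {a b d : ℝ} {z : ℝ × ℝ}

private lemma aa_re (w : ℝ × ℝ) : (cx w).re = w.1 := by simp [cx]

private lemma aa_im (w : ℝ × ℝ) : (cx w).im = w.2 := by simp [cx]

private lemma aa_sub (w w' : ℝ × ℝ) : cx w - cx w' = cx (w - w') := by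
  apply Complex.ext
  · simp [cx]
  · simp [cx]

private lemma aa_norm (w : ℝ × ℝ) : ‖w‖ ≤ ‖cx w‖ := by
  rw [Prod.norm_def]
  refine max_le ?_ ?_
  · rw [Real.norm_eq_abs, ← aa_re w]
    exact Complex.abs_re_le_norm _
  · rw [Real.norm_eq_abs, ← aa_im w]
    exact Complex.abs_im_le_norm _

theorem cx_inj : Function.Injective cx := by
  intro w w' h
  refine Prod.ext ?_ ?_
  · rw [← aa_re w, ← aa_re w', h]
  · rw [← aa_im w, ← aa_im w', h]

theorem cx_continuous : Continuous cx := by
  unfold cx
  fun_prop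

theorem cx_hasDeriv (hc : PC c φ) (s : ℝ) :
    HasDerivAt (fun s => cx (c s)) (Complex.exp (φ s * Complex.I)) s := by
  have h1 : HasDerivAt (fun s => (c s).1) (Real.cos (φ s)) s := by
    simpa using (hc.deriv s).hasFDerivAt.fst.hasDerivAt
  have h2 : HasDerivAt (fun s => (c s).2) (Real.sin (φ s)) s := by
    simpa using (hc.deriv s).hasFDerivAt.snd.hasDerivAt
  have h3 := h1.ofReal_comp.add (h2.ofReal_comp.mul_const Complex.I)
  refine h3.congr_deriv ?_
  rw [Complex.exp_mul_I, Complex.ofReal_cos, Complex.ofReal_sin]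

private lemma aa_cc (hc : PC c φ) : Continuous c :=
  continuous_iff_continuousAt.2 fun s => (hc.deriv s).continuousAt

private lemma aa_meas (hc : PC c φ) (z : ℝ × ℝ) :
    Measurable fun s => Complex.exp (φ s * Complex.I) / (cx (c s) - cx z) := by
  have h1 : Continuous fun s => Complex.exp (φ s * Complex.I) := by
    have := hc.cont
    fun_prop
  have h2 : Continuous fun s => cx (c s) - cx z :=
    (cx_continuous.comp (aa_cc hc)).sub continuous_const
  exact h1.measurable.div h2.measurable

private lemma aa_cont (hc : PC c φ) {s : ℝ} (hs : c s ≠ z) :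
    ContinuousAt (fun s => Complex.exp (φ s * Complex.I) / (cx (c s) - cx z)) s := by
  have h1 : Continuous fun s => Complex.exp (φ s * Complex.I) := by
    have := hc.cont
    fun_prop
  have h2 : Continuous fun s => cx (c s) - cx z :=
    (cx_continuous.comp (aa_cc hc)).sub continuous_const
  exact h1.continuousAt.div h2.continuousAt (sub_ne_zero.2 fun h => hs (cx_inj h))

private lemma aa_int (hc : PC c φ) (hab : a ≤ b) (hz : ∀ s ∈ Icc a b, c s ≠ z) :
    IntervalIntegrable (fun s => Complex.exp (φ s * Complex.I) / (cx (c s) - cx z))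
      MeasureTheory.volume a b := by
  apply ContinuousOn.intervalIntegrable
  rw [uIcc_of_le hab]
  exact fun s hs => (aa_cont hc (hz s hs)).continuousWithinAt

theorem wn_exp (hc : PC c φ) (hab : a ≤ b) (hz : ∀ s ∈ Icc a b, c s ≠ z) :
    Complex.exp (Wn c φ a b z) = (cx (c b) - cx z) / (cx (c a) - cx z) := by
  have hE : ∀ x ∈ Icc a b, HasDerivAt
      (fun x => (cx (c x) - cx z) * Complex.exp (-Wn c φ a x z)) 0 x := by
    intro x hx
    have h1 : HasDerivAt (fun x => Wn c φ a x z)
        (Complex.exp (φ x * Complex.I) / (cx (c x) - cx z)) x :=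
      intervalIntegral.integral_hasDerivAt_right
        (aa_int hc hx.1 fun s hs => hz s ⟨hs.1, hs.2.trans hx.2⟩)
        (aa_meas hc z).stronglyMeasurable.stronglyMeasurableAtFilter (aa_cont hc (hz x hx))
    have h2 : HasDerivAt (fun x => cx (c x) - cx z) (Complex.exp (φ x * Complex.I)) x :=
      (cx_hasDeriv hc x).sub_const _
    have h3 := h2.mul h1.neg.cexp
    refine h3.congr_deriv ?_
    have h4 : cx (c x) - cx z ≠ 0 := sub_ne_zero.2 fun h => hz x hx (cx_inj h)
    field_simp
    ring
  have h1 := constant_of_has_deriv_right_zero (fun x hx => (hE x hx).continuousAt.continuousWithinAt)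
    (fun x hx => (hE x (Ico_subset_Icc_self hx)).hasDerivWithinAt) b (right_mem_Icc.2 hab)
  have h2 : Wn c φ a a z = 0 := by simp [Wn]
  simp only [h2, neg_zero, Complex.exp_zero, mul_one] at h1
  have h4 : cx (c a) - cx z ≠ 0 :=
    sub_ne_zero.2 fun h => hz a (left_mem_Icc.2 hab) (cx_inj h)
  rw [eq_div_iff h4, ← h1, Complex.exp_neg]
  have h5 := Complex.exp_ne_zero (Wn c φ a b z)
  field_simp

theorem wn_cont (hc : PC c φ) (hab : a ≤ b) :
    ContinuousOn (fun z => Wn c φ a b z) {z | ∀ s ∈ Icc a b, c s ≠ z} := by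
  intro z₀ hz₀
  apply ContinuousAt.continuousWithinAt
  have hK : IsCompact (c '' Icc a b) := isCompact_Icc.image (aa_cc hc)
  have hne : (c '' Icc a b).Nonempty := ⟨c a, a, left_mem_Icc.2 hab, rfl⟩
  have hnot : z₀ ∉ c '' Icc a b := by
    rintro ⟨s, hs, hsz⟩
    exact hz₀ s hs hsz
  have hd : 0 < Metric.infDist z₀ (c '' Icc a b) :=
    (hK.isClosed.notMem_iff_infDist_pos hne).1 hnot
  set δ := Metric.infDist z₀ (c '' Icc a b) with hδ
  refine intervalIntegral.continuousAt_of_dominated_interval (bound := fun _ => (δ / 2)⁻¹)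
    ?_ ?_ ?_ ?_
  · exact Filter.Eventually.of_forall fun z => (aa_meas hc z).aestronglyMeasurable
  · filter_upwards [Metric.ball_mem_nhds z₀ (half_pos hd)] with z hz
    refine Filter.Eventually.of_forall fun t ht => ?_
    rw [uIoc_of_le hab] at ht
    have ht' : t ∈ Icc a b := ⟨ht.1.le, ht.2⟩
    have h1 : δ ≤ dist z₀ (c t) := Metric.infDist_le_dist_of_mem ⟨t, ht', rfl⟩
    rw [Metric.mem_ball] at hz
    have h2 : δ / 2 ≤ ‖cx (c t) - cx z‖ := by
      rw [aa_sub]
      refine le_trans ?_ (aa_norm _)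
      rw [← dist_eq_norm]
      have h3 := dist_triangle z₀ z (c t)
      rw [dist_comm z₀ z, dist_comm z (c t)] at h3
      linarith
    rw [norm_div, Complex.norm_exp_ofReal_mul_I, one_div]
    exact inv_anti₀ (half_pos hd) h2
  · exact intervalIntegrable_const
  · refine Filter.Eventually.of_forall fun t ht => ?_
    rw [uIoc_of_le hab] at ht
    have ht' : t ∈ Icc a b := ⟨ht.1.le, ht.2⟩
    exact continuousAt_const.div (continuous_const.sub cx_continuous).continuousAt
      (sub_ne_zero.2 fun h => hz₀ t ht' (cx_inj h))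

theorem wn_adj (hc : PC c φ) (hab : a ≤ b) (hbd : b ≤ d) (hz : ∀ s ∈ Icc a d, c s ≠ z) :
    Wn c φ a b z + Wn c φ b d z = Wn c φ a d z :=
  intervalIntegral.integral_add_adjacent_intervals
    (aa_int hc hab fun s hs => hz s ⟨hs.1, hs.2.trans hbd⟩)
    (aa_int hc hbd fun s hs => hz s ⟨hab.trans hs.1, hs.2⟩)

theorem wn_slit (hc : PC c φ) (hab : a ≤ b) {u : ℂ}
    (hz : ∀ s ∈ Icc a b, u * (cx (c s) - cx z) ∈ Complex.slitPlane) :
    Wn c φ a b z = Complex.log (u * (cx (c b) - cx z)) - Complex.log (u * (cx (c a) - cx z)) := by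
  have hne : ∀ s ∈ Icc a b, u * (cx (c s) - cx z) ≠ 0 := by
    intro s hs h0
    have := hz s hs
    rw [h0] at this
    simp at this
  have hne2 : ∀ s ∈ Icc a b, c s ≠ z := by
    intro s hs h0
    apply hne s hs
    rw [h0, sub_self, mul_zero]
  refine intervalIntegral.integral_eq_sub_of_hasDerivAt
    (f := fun s => Complex.log (u * (cx (c s) - cx z))) ?_ (aa_int hc hab hne2)
  intro x hx
  rw [uIcc_of_le hab] at hx
  have h2 : HasDerivAt (fun x => u * (cx (c x) - cx z)) (u * Complex.exp (φ x * Complex.I)) x :=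
    ((cx_hasDeriv hc x).sub_const _).const_mul u
  refine (h2.clog_real (hz x hx)).congr_deriv ?_
  have h3 := hne x hx
  have hu : u ≠ 0 := fun h => h3 (by rw [h, zero_mul])
  rw [mul_div_mul_left _ _ hu]

theorem wn_above (hc : PC c φ) (hab : a ≤ b) (hz : ∀ s ∈ Icc a b, (c s).2 < z.2) :
    (Wn c φ a b z).im = Complex.arg (cx (c b) - cx z) - Complex.arg (cx (c a) - cx z) := by
  rw [wn_slit hc hab (u := 1) (z := z) ?_, one_mul, one_mul, Complex.sub_im, Complex.log_im,
    Complex.log_im]
  intro s hs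
  rw [one_mul, Complex.mem_slitPlane_iff]
  right
  rw [Complex.sub_im, aa_im, aa_im]
  have := hz s hs
  exact ne_of_lt (by linarith)

theorem wn_below (hc : PC c φ) (hab : a ≤ b) (hz : ∀ s ∈ Icc a b, z.2 < (c s).2) :
    (Wn c φ a b z).im = Complex.arg (cx (c b) - cx z) - Complex.arg (cx (c a) - cx z) := by
  rw [wn_slit hc hab (u := 1) (z := z) ?_, one_mul, one_mul, Complex.sub_im, Complex.log_im,
    Complex.log_im]
  intro s hs
  rw [one_mul, Complex.mem_slitPlane_iff]
  right
  rw [Complex.sub_im, aa_im, aa_im]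
  have := hz s hs
  exact ne_of_gt (by linarith)

theorem wn_contS (hc : PC c φ) (hz : ∀ s, c s ≠ z) :
    Continuous fun S : ℝ => Wn c φ (-S) S z := by
  have hint : ∀ x y : ℝ, IntervalIntegrable
      (fun s => Complex.exp (φ s * Complex.I) / (cx (c s) - cx z)) MeasureTheory.volume x y := by
    intro x y
    refine (ContinuousOn.intervalIntegrable ?_)
    exact fun s _ => (aa_cont hc (hz s)).continuousWithinAt
  have h1 := intervalIntegral.continuous_primitive hint 0
  have h2 : (fun S : ℝ => Wn c φ (-S) S z) = fun S : ℝ =>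
      (∫ s in (0 : ℝ)..S, Complex.exp (φ s * Complex.I) / (cx (c s) - cx z)) -
      ∫ s in (0 : ℝ)..(-S), Complex.exp (φ s * Complex.I) / (cx (c s) - cx z) := by
    funext S
    rw [intervalIntegral.integral_interval_sub_left (hint _ _) (hint _ _)]
    rfl
  rw [h2]
  exact h1.sub (h1.comp continuous_neg)

end Pool.Agent.H2.TI
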