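import Pool.Agent.H2.TI.AngA

/-!
# The jump (module AngB)

PROOF of `wn_jump`. Let `γ = cx ∘ c`, `p = γ s₀`, `v = exp (i φ s₀)`, `z± = side (± ε)`, i.e. `cx z± = p ± ε i v`.
Let `0 < κ ≤ 1/2` be small (to be chosen from `μ`). There is `h > 0`, `[s₀ - h, s₀ + h] ⊆ (a, b)`, with
`(γ s - p) / v = (s - s₀) (1 + ε₁ s)`, `|ε₁ s| ≤ κ` for `|s - s₀| ≤ h` (definition of the derivative).
NEAR PART: `w± s = (γ s - cx z±) / v = (s - s₀)(1 + ε₁ s) ∓ i ε`. If `Re (w± s) = 0` then `s = s₀` (`|Re ε₁| < 1`) and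
`w± s = ∓ i ε`. So `i w₊ s` is in the slit plane (its imaginary part is `Re w₊`, and when this is zero, `i w₊ = ε > 0`),
and `-i w₋ s` as well. `wn_slit` on `[s₀ - h, s₀ + h]` with `u = i / v` resp. `u = - i / v`:
`Im Wn(z₊) = arg (i w₊ (s₀ + h)) - arg (i w₊ (s₀ - h))`, as `ε → 0+` this tends to
`arg (i h (1 + ε₁)) - arg (- i h (1 + ε₁'))`, which is within `4 κ` (say) of `π/2 - (-π/2) = π`; similarly
`Im Wn(z₋) = arg (-i w₋ (s₀ + h)) - arg (-i w₋ (s₀ - h))` tends to a number within `4 κ` of `-π/2 - π/2 = -π`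
(`|arg (x (1 + e)) - arg x| ≤ 2 κ` for `x = ± i`: e.g. `arg` is continuous at `± i`; choose `κ` from this continuity).
FAR PARTS: on `[a, s₀ - h]` and `[s₀ + h, b]` the curve does not meet `c s₀` (injectivity), so `z ↦ Wn` is
continuous at `c s₀` (`wn_cont`) and the difference of the values at `z₊` and `z₋` tends to `0`.
Sum up with `wn_adj`.
-/

set_option autoImplicit false

open scoped Topology
open Set

namespace Pool.Agent.H2.TI

variable {c : ℝ → ℝ × ℝ} {φ : ℝ → ℝ} {a b s₀ : ℝ}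

/-- The point at signed distance `e` to the left of the curve at the parameter `s`. -/
noncomputable def side (c : ℝ → ℝ × ℝ) (φ : ℝ → ℝ) (s e : ℝ) : ℝ × ℝ :=
  ((c s).1 - e * Real.sin (φ s), (c s).2 + e * Real.cos (φ s))

private theorem angB_arg {μ : ℝ} (hμ : 0 < μ) : ∃ κ : ℝ, 0 < κ ∧ ∀ (y : ℂ) (h : ℝ), 0 < h →
    (‖y - h * Complex.I‖ < κ * h → |y.arg - Real.pi / 2| < μ) ∧
    (‖y + h * Complex.I‖ < κ * h → |y.arg + Real.pi / 2| < μ) := by
  have h1 : ContinuousAt Complex.arg Complex.I :=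
    Complex.continuousAt_arg (by simp [Complex.mem_slitPlane_iff])
  have h2 : ContinuousAt Complex.arg (-Complex.I) :=
    Complex.continuousAt_arg (by simp [Complex.mem_slitPlane_iff])
  obtain ⟨κ1, hκ1, H1⟩ := Metric.continuousAt_iff.mp h1 μ hμ
  obtain ⟨κ2, hκ2, H2⟩ := Metric.continuousAt_iff.mp h2 μ hμ
  have hκ : 0 < min κ1 κ2 := lt_min hκ1 hκ2
  refine ⟨min κ1 κ2, hκ, fun y h hh => ⟨fun hy => ?_, fun hy => ?_⟩⟩
  · have hh0 : (h : ℂ) ≠ 0 := by exact_mod_cast hh.ne'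
    have hy' : dist (((h⁻¹ : ℝ) : ℂ) * y) Complex.I < κ1 := by
      rw [dist_eq_norm]
      have : (((h⁻¹ : ℝ) : ℂ) * y - Complex.I) = ((h⁻¹ : ℝ) : ℂ) * (y - h * Complex.I) := by
        push_cast
        field_simp
      rw [this, norm_mul, Complex.norm_real, Real.norm_of_nonneg (inv_nonneg.mpr hh.le)]
      calc h⁻¹ * ‖y - h * Complex.I‖ < h⁻¹ * (min κ1 κ2 * h) := by gcongr
        _ = min κ1 κ2 := by field_simp
        _ ≤ κ1 := min_le_left _ _
    have := H1 hy'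
    rw [Real.dist_eq, Complex.arg_real_mul y (inv_pos.mpr hh), Complex.arg_I] at this
    exact this
  · have hh0 : (h : ℂ) ≠ 0 := by exact_mod_cast hh.ne'
    have hy' : dist (((h⁻¹ : ℝ) : ℂ) * y) (-Complex.I) < κ2 := by
      rw [dist_eq_norm]
      have : (((h⁻¹ : ℝ) : ℂ) * y - -Complex.I) = ((h⁻¹ : ℝ) : ℂ) * (y + h * Complex.I) := by
        push_cast
        field_simp
        ring
      rw [this, norm_mul, Complex.norm_real, Real.norm_of_nonneg (inv_nonneg.mpr hh.le)]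
      calc h⁻¹ * ‖y + h * Complex.I‖ < h⁻¹ * (min κ1 κ2 * h) := by gcongr
        _ = min κ1 κ2 := by field_simp
        _ ≤ κ2 := min_le_right _ _
    have := H2 hy'
    rw [Real.dist_eq, Complex.arg_real_mul y (inv_pos.mpr hh), Complex.arg_neg_I, sub_neg_eq_add]
      at this
    exact this

private theorem angB_cont (hc : PC c φ) : Continuous c :=
  continuous_iff_continuousAt.mpr fun s => (hc.deriv s).continuousAt

private theorem angB_far (hc : PC c φ) {α β : ℝ} (hαβ : α ≤ β)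
    (hn : ∀ s ∈ Icc α β, c s ≠ c s₀) {ν : ℝ} (hν : 0 < ν) :
    ∃ e₁ : ℝ, 0 < e₁ ∧ ∀ e, |e| < e₁ → (∀ s ∈ Icc α β, c s ≠ side c φ s₀ e) ∧
      |(Wn c φ α β (side c φ s₀ e)).im - (Wn c φ α β (c s₀)).im| < ν := by
  have hU : {z | ∀ s ∈ Icc α β, c s ≠ z} = (c '' Icc α β)ᶜ := by
    ext z
    simp only [mem_ofPred_eq, mem_compl_iff, mem_image, not_exists, not_and, ne_eq]
  have hUo : IsOpen {z | ∀ s ∈ Icc α β, c s ≠ z} := by
    rw [hU]
    exact (isCompact_Icc.image (angB_cont hc)).isClosed.isOpen_compl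
  have hmem : c s₀ ∈ {z | ∀ s ∈ Icc α β, c s ≠ z} := hn
  have hc1 : ContinuousAt (fun z => (Wn c φ α β z).im) (c s₀) :=
    Complex.continuous_im.continuousAt.comp ((wn_cont hc hαβ).continuousAt (hUo.mem_nhds hmem))
  have hsc : Continuous (fun e : ℝ => side c φ s₀ e) := by
    unfold side
    fun_prop
  have hs0 : side c φ s₀ 0 = c s₀ := by
    simp [side]
  have h1 : ∀ᶠ z in 𝓝 (c s₀), |(Wn c φ α β z).im - (Wn c φ α β (c s₀)).im| < ν := by
    have := Metric.continuousAt_iff'.mp hc1 ν hν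
    simpa [Real.dist_eq] using this
  have h2 : ∀ᶠ z in 𝓝 (c s₀), z ∈ {z | ∀ s ∈ Icc α β, c s ≠ z} := hUo.mem_nhds hmem
  have h3 : ∀ᶠ e in 𝓝 (0 : ℝ), (∀ s ∈ Icc α β, c s ≠ side c φ s₀ e) ∧
      |(Wn c φ α β (side c φ s₀ e)).im - (Wn c φ α β (c s₀)).im| < ν := by
    have ht : Filter.Tendsto (fun e : ℝ => side c φ s₀ e) (𝓝 0) (𝓝 (c s₀)) := by
      have := hsc.tendsto 0
      rwa [hs0] at this
    exact ht.eventually (h2.and h1)
  obtain ⟨e₁, he₁, H⟩ := Metric.eventually_nhds_iff.mp h3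
  refine ⟨e₁, he₁, fun e he => H ?_⟩
  rw [Real.dist_eq, sub_zero]
  exact he

theorem wn_jump (hc : PC c φ) (ha : a < s₀) (hb : s₀ < b)
    (hinj : ∀ s ∈ Icc a b, c s = c s₀ → s = s₀) {μ : ℝ} (hμ : 0 < μ) :
    ∃ e₀ : ℝ, 0 < e₀ ∧ ∀ e, 0 < e → e < e₀ →
      |(Wn c φ a b (side c φ s₀ e)).im - (Wn c φ a b (side c φ s₀ (-e))).im - 2 * Real.pi| < μ := by
  obtain ⟨κ₀, hκ₀, HA⟩ := angB_arg (μ := μ / 8) (by positivity)
  set κ : ℝ := min (κ₀ / 2) (1 / 2) with hκ
  have hκpos : 0 < κ := lt_min (by positivity) (by norm_num)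
  set E : ℂ := Complex.exp ((φ s₀ : ℂ) * Complex.I) with hE
  set E' : ℂ := Complex.exp (-((φ s₀ : ℂ) * Complex.I)) with hE'
  have hEE : E' * E = 1 := by
    rw [hE, hE', ← Complex.exp_add]
    simp
  have hside : ∀ e : ℝ, cx (side c φ s₀ e) = cx (c s₀) + e * (Complex.I * E) := by
    intro e
    rw [hE, Complex.exp_mul_I]
    simp only [cx, side]
    push_cast
    linear_combination (-(e : ℂ) * Complex.sin (φ s₀)) * Complex.I_sq
  set q : ℝ → ℂ := fun s => E' * (cx (c s) - cx (c s₀)) with hq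
  have hqe : ∀ᶠ s in 𝓝 s₀, ‖q s - ((s - s₀ : ℝ) : ℂ)‖ ≤ κ * |s - s₀| := by
    have h1 : HasDerivAt (fun s => E' * cx (c s)) (E' * E) s₀ :=
      (cx_hasDeriv hc s₀).const_mul E'
    rw [hEE] at h1
    have h2 := h1.isLittleO.def hκpos
    filter_upwards [h2] with s hs
    have h3 : q s - ((s - s₀ : ℝ) : ℂ) = E' * cx (c s) - E' * cx (c s₀) - (s - s₀) • (1 : ℂ) := by
      rw [hq]
      simp only [Complex.real_smul, mul_one]
      ring
    rw [h3, ← Real.norm_eq_abs]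
    exact hs
  obtain ⟨δ, hδ, Hδ⟩ := Metric.eventually_nhds_iff.mp hqe
  set h : ℝ := min (δ / 2) (min (s₀ - a) (b - s₀)) with hh
  have hh0 : 0 < h := lt_min (by positivity) (lt_min (by linarith) (by linarith))
  have hh1 : h < δ := lt_of_le_of_lt (min_le_left _ _) (by linarith)
  have hh2 : a ≤ s₀ - h := by
    have : h ≤ s₀ - a := (min_le_right _ _).trans (min_le_left _ _)
    linarith
  have hh3 : s₀ + h ≤ b := by
    have : h ≤ b - s₀ := (min_le_right _ _).trans (min_le_right _ _)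
    linarith
  have Hq : ∀ s, |s - s₀| ≤ h → ‖q s - ((s - s₀ : ℝ) : ℂ)‖ ≤ κ * |s - s₀| := by
    intro s hs
    refine Hδ ?_
    rw [Real.dist_eq]
    exact lt_of_le_of_lt hs hh1
  -- far parts
  obtain ⟨e₁, he₁, H1⟩ := angB_far (s₀ := s₀) hc hh2 (ν := μ / 8) (by
    intro s hs heq
    have := hinj s ⟨hs.1, by linarith [hs.2]⟩ heq
    linarith [hs.2]) (by positivity)
  obtain ⟨e₂, he₂, H2⟩ := angB_far (s₀ := s₀) hc hh3 (ν := μ / 8) (by
    intro s hs heq
    have := hinj s ⟨by linarith [hs.1], hs.2⟩ heq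
    linarith [hs.1]) (by positivity)
  refine ⟨min (κ₀ * h / 2) (min e₁ e₂), lt_min (by positivity) (lt_min he₁ he₂), ?_⟩
  intro e he hee
  have he3 : e < κ₀ * h / 2 := lt_of_lt_of_le hee (min_le_left _ _)
  have he4 : e < e₁ := lt_of_lt_of_le hee ((min_le_right _ _).trans (min_le_left _ _))
  have he5 : e < e₂ := lt_of_lt_of_le hee ((min_le_right _ _).trans (min_le_right _ _))
  have habs : |e| = e := abs_of_pos he
  have habs' : |-e| = e := by rw [abs_neg, habs]
  obtain ⟨n1p, f1p⟩ := H1 e (by rw [habs]; exact he4)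
  obtain ⟨n1m, f1m⟩ := H1 (-e) (by rw [habs']; exact he4)
  obtain ⟨n2p, f2p⟩ := H2 e (by rw [habs]; exact he5)
  obtain ⟨n2m, f2m⟩ := H2 (-e) (by rw [habs']; exact he5)
  -- near part
  have hzp : ∀ s, (Complex.I * E') * (cx (c s) - cx (side c φ s₀ e)) = Complex.I * q s + e := by
    intro s
    rw [hside, hq]
    linear_combination (-(e : ℂ) * Complex.I ^ 2) * hEE - (e : ℂ) * Complex.I_sq
  have hzm : ∀ s, (-Complex.I * E') * (cx (c s) - cx (side c φ s₀ (-e)))
      = -Complex.I * q s + e := by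
    intro s
    rw [hside, hq]
    push_cast
    linear_combination (-(e : ℂ) * Complex.I ^ 2) * hEE - (e : ℂ) * Complex.I_sq
  have hqre : ∀ s, |s - s₀| ≤ h → s ≠ s₀ → (q s).re ≠ 0 := by
    intro s hs hne h0
    have h1 := Hq s hs
    have h2 : |(q s - ((s - s₀ : ℝ) : ℂ)).re| ≤ κ * |s - s₀| :=
      (Complex.abs_re_le_norm _).trans h1
    rw [Complex.sub_re, h0, Complex.ofReal_re, zero_sub, abs_neg] at h2
    have h3 : 0 < |s - s₀| := abs_pos.mpr (sub_ne_zero.mpr hne)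
    have h4 : κ ≤ 1 / 2 := min_le_right _ _
    nlinarith
  have hqs₀ : q s₀ = 0 := by
    rw [hq]
    simp
  have hin : ∀ s ∈ Icc (s₀ - h) (s₀ + h), |s - s₀| ≤ h := by
    intro s hs
    rw [abs_le]
    exact ⟨by linarith [hs.1], by linarith [hs.2]⟩
  have slp : ∀ s ∈ Icc (s₀ - h) (s₀ + h),
      (Complex.I * E') * (cx (c s) - cx (side c φ s₀ e)) ∈ Complex.slitPlane := by
    intro s hs
    rw [hzp, Complex.mem_slitPlane_iff]
    by_cases hne : s = s₀
    · left
      rw [hne, hqs₀]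
      simpa using he
    · right
      have := hqre s (hin s hs) hne
      simpa using this
  have slm : ∀ s ∈ Icc (s₀ - h) (s₀ + h),
      (-Complex.I * E') * (cx (c s) - cx (side c φ s₀ (-e))) ∈ Complex.slitPlane := by
    intro s hs
    rw [hzm, Complex.mem_slitPlane_iff]
    by_cases hne : s = s₀
    · left
      rw [hne, hqs₀]
      simpa using he
    · right
      have := hqre s (hin s hs) hne
      simpa using this
  have hle : s₀ - h ≤ s₀ + h := by linarith
  have Wp := congrArg Complex.im (wn_slit hc hle slp)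
  have Wm := congrArg Complex.im (wn_slit hc hle slm)
  rw [hzp, hzp, Complex.sub_im, Complex.log_im, Complex.log_im] at Wp
  rw [hzm, hzm, Complex.sub_im, Complex.log_im, Complex.log_im] at Wm
  -- arguments
  have hκh : κ * h + e < κ₀ * h := by
    have : κ ≤ κ₀ / 2 := min_le_left _ _
    nlinarith
  have qp : ‖q (s₀ + h) - h‖ ≤ κ * h := by
    have := Hq (s₀ + h) (by rw [add_sub_cancel_left, abs_of_pos hh0])
    rwa [add_sub_cancel_left, abs_of_pos hh0] at this
  have qm : ‖q (s₀ - h) + h‖ ≤ κ * h := by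
    have := Hq (s₀ - h) (by rw [sub_sub_cancel_left, abs_neg, abs_of_pos hh0])
    rw [sub_sub_cancel_left, abs_neg, abs_of_pos hh0] at this
    have h2 : q (s₀ - h) - ((-h : ℝ) : ℂ) = q (s₀ - h) + h := by
      push_cast
      ring
    rwa [h2] at this
  have hne : ‖(e : ℂ)‖ = e := by
    rw [Complex.norm_real, Real.norm_of_nonneg he.le]
  have g1 : |(Complex.I * q (s₀ + h) + e).arg - Real.pi / 2| < μ / 8 := by
    refine (HA _ h hh0).1 ?_
    have h1 : Complex.I * q (s₀ + h) + e - h * Complex.I = Complex.I * (q (s₀ + h) - h) + e := by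
      ring
    rw [h1]
    refine lt_of_le_of_lt (norm_add_le _ _) ?_
    rw [norm_mul, Complex.norm_I, one_mul, hne]
    linarith
  have g2 : |(Complex.I * q (s₀ - h) + e).arg + Real.pi / 2| < μ / 8 := by
    refine (HA _ h hh0).2 ?_
    have h1 : Complex.I * q (s₀ - h) + e + h * Complex.I = Complex.I * (q (s₀ - h) + h) + e := by
      ring
    rw [h1]
    refine lt_of_le_of_lt (norm_add_le _ _) ?_
    rw [norm_mul, Complex.norm_I, one_mul, hne]
    linarith
  have g3 : |(-Complex.I * q (s₀ + h) + e).arg + Real.pi / 2| < μ / 8 := by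
    refine (HA _ h hh0).2 ?_
    have h1 : -Complex.I * q (s₀ + h) + e + h * Complex.I = -Complex.I * (q (s₀ + h) - h) + e := by
      ring
    rw [h1]
    refine lt_of_le_of_lt (norm_add_le _ _) ?_
    rw [norm_mul, norm_neg, Complex.norm_I, one_mul, hne]
    linarith
  have g4 : |(-Complex.I * q (s₀ - h) + e).arg - Real.pi / 2| < μ / 8 := by
    refine (HA _ h hh0).1 ?_
    have h1 : -Complex.I * q (s₀ - h) + e - h * Complex.I = -Complex.I * (q (s₀ - h) + h) + e := by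
      ring
    rw [h1]
    refine lt_of_le_of_lt (norm_add_le _ _) ?_
    rw [norm_mul, norm_neg, Complex.norm_I, one_mul, hne]
    linarith
  -- sum
  have npos : ∀ s ∈ Icc (s₀ - h) (s₀ + h), c s ≠ side c φ s₀ e := by
    intro s hs heq
    have := slp s hs
    rw [heq, sub_self, mul_zero] at this
    exact Complex.zero_notMem_slitPlane this
  have nneg : ∀ s ∈ Icc (s₀ - h) (s₀ + h), c s ≠ side c φ s₀ (-e) := by
    intro s hs heq
    have := slm s hs
    rw [heq, sub_self, mul_zero] at this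
    exact Complex.zero_notMem_slitPlane this
  have split : ∀ z, (∀ s ∈ Icc a (s₀ - h), c s ≠ z) → (∀ s ∈ Icc (s₀ - h) (s₀ + h), c s ≠ z) →
      (∀ s ∈ Icc (s₀ + h) b, c s ≠ z) →
      (Wn c φ a b z).im = (Wn c φ a (s₀ - h) z).im + (Wn c φ (s₀ - h) (s₀ + h) z).im
        + (Wn c φ (s₀ + h) b z).im := by
    intro z h1 h2 h3
    have h12 : ∀ s ∈ Icc a (s₀ + h), c s ≠ z := by
      intro s hs
      rcases le_total s (s₀ - h) with hs' | hs'
      · exact h1 s ⟨hs.1, hs'⟩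
      · exact h2 s ⟨hs', hs.2⟩
    have h123 : ∀ s ∈ Icc a b, c s ≠ z := by
      intro s hs
      rcases le_total s (s₀ + h) with hs' | hs'
      · exact h12 s ⟨hs.1, hs'⟩
      · exact h3 s ⟨hs', hs.2⟩
    rw [← wn_adj hc (by linarith : a ≤ s₀ + h) hh3 h123, ← wn_adj hc hh2 hle h12]
    simp
  rw [split _ n1p npos n2p, split _ n1m nneg n2m, Wp, Wm]
  rw [abs_lt] at *
  constructor <;> linarith [f1p.1, f1p.2, f1m.1, f1m.2, f2p.1, f2p.2, f2m.1, f2m.2, g1.1, g1.2,
    g2.1, g2.2, g3.1, g3.2, g4.1, g4.2]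

end Pool.Agent.H2.TI
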