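import Pool.Agent.H2.TI.StkC

/-!
# The area lemma (module Area)

PROOF. Let `χ₀ (t) = 1 / cosh (t / (2 K))`, smooth, positive, integrable (`≤ 2 exp (-|t| / (2 K))`), and
`|χ₀'| ≤ χ₀ / (2 K)` (`χ₀' = - (1 / (2 K)) tanh (t / (2 K)) χ₀`). Let `ζ : ℝ → ℝ` be smooth with compact support, `0 ≤ ζ ≤ 1`,
`ζ = 1` on `[-1, 1]`, `|ζ'| ≤ C`; and `ζ₁ : ℝ → ℝ` smooth with compact support, `ζ₁ = 1` on a neighbourhood of `[-M, M]`.
For `R ≥ 1` put `ψ_R (t, r) = χ₀ t ζ (t / R) ζ₁ r`. On `Ω` (`|r| ≤ M`): `ψ_R = χ₀ ζ (t / R)`, derivative in `r` zero,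
`|∂_t ψ_R| ≤ (χ₀ / (2 K)) ζ (t / R) + χ₀ C / R`. `stokes` gives
`∫_Ω ψ_R = - ∫_Ω ∂_t ψ_R F_r ≤ ∫_Ω (χ₀ / 2) ζ (t / R) + (K C / R) ∫_Ω χ₀`, so
`(1/2) ∫_Ω χ₀ ζ (t / R) ≤ (K C / R) ∫_Ω χ₀`; `χ₀ (w.1)` is integrable on the strip `|w.2| ≤ M`. Let `R → ∞`
(monotone or dominated convergence, or: for fixed `R₀ ≤ R` the left side is at least
`(1/2) ∫_{Ω ∩ |t| ≤ R₀} χ₀`, so this is `≤ const / R` for all `R`, so zero): `∫_{Ω ∩ |t| ≤ R₀} χ₀ = 0`, `χ₀ > 0`, so
`Ω ∩ {|t| < R₀}` is a null open set, so empty.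
-/

set_option autoImplicit false

open scoped ContDiff Topology
open Set MeasureTheory

namespace Pool.Agent.H2.TI

variable {Z : Set (ℝ × ℝ)} {M K δ : ℝ} {F : ℝ × ℝ → ℝ}

/-- the weight `1 / (1 + (t / (2 K))^2)` -/
private noncomputable def chi (K t : ℝ) : ℝ := (1 + (t / (2 * K)) ^ 2)⁻¹

private lemma chi_pos (K t : ℝ) : 0 < chi K t := by
  unfold chi
  positivity

private lemma chi_smooth (K : ℝ) : ContDiff ℝ ∞ (chi K) := by
  unfold chi
  refine ContDiff.inv ?_ fun t => ?_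
  · fun_prop
  · positivity

private lemma chi_deriv {K : ℝ} (hK : 0 < K) (t : ℝ) : |deriv (chi K) t| ≤ chi K t / (2 * K) := by
  have h0 : (0 : ℝ) < 1 + (t / (2 * K)) ^ 2 := by positivity
  have h1 : HasDerivAt (fun s : ℝ => 1 + (s / (2 * K)) ^ 2)
      (2 * (t / (2 * K)) * (1 / (2 * K))) t := by
    have h := (((hasDerivAt_id t).div_const (2 * K)).pow 2).const_add 1
    simpa using h
  have h2 : HasDerivAt (chi K)
      (-(2 * (t / (2 * K)) * (1 / (2 * K))) / (1 + (t / (2 * K)) ^ 2) ^ 2) t := h1.inv h0.ne'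
  rw [h2.deriv, abs_div, abs_neg, abs_of_pos (pow_pos h0 2)]
  unfold chi
  rw [div_le_div_iff₀ (pow_pos h0 2) (by positivity)]
  set x : ℝ := t / (2 * K) with hx
  have h3 : |2 * x * (1 / (2 * K))| * (2 * K) = 2 * |x| := by
    rw [abs_mul, abs_mul, abs_of_pos (show (0 : ℝ) < 1 / (2 * K) by positivity), abs_two]
    field_simp
  rw [h3]
  have h4 : (1 + x ^ 2)⁻¹ * (1 + x ^ 2) ^ 2 = 1 + x ^ 2 := by
    field_simp
  rw [h4]
  nlinarith [sq_nonneg (|x| - 1), sq_abs x]

private lemma chi_int {K : ℝ} (hK : 0 < K) : Integrable (chi K) := by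
  have h : Integrable (fun x : ℝ => (1 + x ^ 2)⁻¹) := integrable_inv_one_add_sq
  exact h.comp_div (by positivity)

private lemma chi_strip {K M : ℝ} (hK : 0 < K) {Ω : Set (ℝ × ℝ)}
    (hb : ∀ w ∈ Ω, |w.2| ≤ M) : IntegrableOn (fun w : ℝ × ℝ => chi K w.1) Ω := by
  have h1 : Integrable (fun w : ℝ × ℝ => chi K w.1 * (Icc (-M) M).indicator (fun _ => (1 : ℝ)) w.2) :=
    (chi_int hK).mul_prod
      ((integrable_indicator_iff measurableSet_Icc).2 (integrableOn_const (by simp)))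
  have h2 : IntegrableOn (fun w : ℝ × ℝ => chi K w.1) (univ ×ˢ Icc (-M) M) := by
    have h3 := h1.integrableOn (s := univ ×ˢ Icc (-M) M)
    refine h3.congr_fun ?_ (MeasurableSet.univ.prod measurableSet_Icc)
    rintro ⟨t, r⟩ ⟨-, hr⟩
    simp only
    rw [indicator_of_mem hr, mul_one]
  refine h2.mono_set ?_
  intro w hw
  exact ⟨mem_univ _, abs_le.1 (hb w hw)⟩

private lemma aI_int {F ψ : ℝ × ℝ → ℝ} (hF : ContDiff ℝ ∞ F) (hψ : ContDiff ℝ ∞ ψ)
    (hc : HasCompactSupport ψ) : Integrable (aI F ψ) := by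
  have h1 : Continuous (fun w => fderiv ℝ ψ w) := hψ.continuous_fderiv (by simp)
  have h2 : Continuous (fun w => fderiv ℝ F w) := hF.continuous_fderiv (by simp)
  have h3 : Continuous (aI F ψ) := by
    unfold aI
    have := hψ.continuous
    fun_prop
  refine h3.integrable_of_hasCompactSupport ?_
  refine HasCompactSupport.intro hc fun w hw => ?_
  have h4 : ψ w = 0 := image_eq_zero_of_notMem_tsupport hw
  have h5 : fderiv ℝ ψ w = 0 := by
    by_contra h
    exact hw (support_fderiv_subset ℝ h)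
  unfold aI
  rw [h4, h5]
  simp

theorem area_empty (hZ : PSet Z M K δ F) {Ω : Set (ℝ × ℝ)} (hΩ : IsOpen Ω)
    (hb : ∀ w ∈ Ω, |w.2| ≤ M) (hf : frontier Ω ⊆ Z) : Ω = ∅ := by
  have hK := hZ.hK
  have hM := hZ.hM
  by_contra hne
  obtain ⟨w₀, hw₀⟩ := nonempty_iff_ne_empty.2 hne
  -- cut-off functions
  let ζ : ContDiffBump (0 : ℝ) := ⟨1, 2, by norm_num, by norm_num⟩
  let ζ₁ : ContDiffBump (0 : ℝ) := ⟨M + 1, M + 2, by linarith, by linarith⟩
  have hζs : ContDiff ℝ ∞ (ζ : ℝ → ℝ) := ζ.contDiff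
  have hζ₁s : ContDiff ℝ ∞ (ζ₁ : ℝ → ℝ) := ζ₁.contDiff
  obtain ⟨C, hC⟩ : ∃ C, ∀ x, ‖deriv (ζ : ℝ → ℝ) x‖ ≤ C :=
    (hζs.continuous_deriv (by simp)).bounded_above_of_compact_support ζ.hasCompactSupport.deriv
  have hC0 : 0 ≤ C := (norm_nonneg _).trans (hC 0)
  set R₀ : ℝ := |w₀.1| + 1 with hR₀
  have hR₀1 : 1 ≤ R₀ := by
    have := abs_nonneg w₀.1
    linarith
  set J : ℝ := ∫ w in Ω, chi K w.1 with hJ
  set g : ℝ × ℝ → ℝ := fun w => {w : ℝ × ℝ | |w.1| ≤ R₀}.indicator (fun w => chi K w.1) w with hg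
  have hmeas : MeasurableSet {w : ℝ × ℝ | |w.1| ≤ R₀} :=
    (isClosed_le (by fun_prop) continuous_const).measurableSet
  have hgi : IntegrableOn g Ω := (chi_strip hK hb).indicator hmeas
  -- the main estimate
  have key : ∀ R : ℝ, R₀ ≤ R → (1 / 2) * ∫ w in Ω, g w ≤ K * C / R * J := by
    intro R hR
    have hR0 : 0 < R := by linarith
    set α : ℝ → ℝ := fun t => chi K t * ζ (t / R) with hα
    have hαs : ContDiff ℝ ∞ α := by
      have := chi_smooth K
      fun_prop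
    have hαd : ∀ t, HasDerivAt α (deriv (chi K) t * ζ (t / R)
        + chi K t * (deriv (ζ : ℝ → ℝ) (t / R) * (1 / R))) t := by
      intro t
      have h1 : HasDerivAt (chi K) (deriv (chi K) t) t :=
        ((chi_smooth K).differentiable (by simp) t).hasDerivAt
      have h2 : HasDerivAt (fun t => (ζ : ℝ → ℝ) (t / R)) (deriv (ζ : ℝ → ℝ) (t / R) * (1 / R)) t := by
        have h3 : HasDerivAt (ζ : ℝ → ℝ) (deriv (ζ : ℝ → ℝ) (t / R)) (t / R) :=
          (hζs.differentiable (by simp) _).hasDerivAt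
        have h4 : HasDerivAt (fun t : ℝ => t / R) (1 / R) t := (hasDerivAt_id t).div_const R
        exact HasDerivAt.comp (h₂ := (ζ : ℝ → ℝ)) t h3 h4
      exact h1.mul h2
    set ψ : ℝ × ℝ → ℝ := fun w => α w.1 * ζ₁ w.2 with hψ
    have hψs : ContDiff ℝ ∞ ψ := by
      have h1 : ContDiff ℝ ∞ (fun w : ℝ × ℝ => α w.1) := hαs.comp contDiff_fst
      have h2 : ContDiff ℝ ∞ (fun w : ℝ × ℝ => ζ₁ w.2) := hζ₁s.comp contDiff_snd
      exact h1.mul h2
    have hψc : HasCompactSupport ψ := by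
      refine HasCompactSupport.intro
        (K := Icc (-(2 * R)) (2 * R) ×ˢ Icc (-(M + 2)) (M + 2)) (isCompact_Icc.prod isCompact_Icc) ?_
      intro w hw
      rw [mem_prod, mem_Icc, mem_Icc, ← abs_le, ← abs_le] at hw
      by_cases h : |w.1| ≤ 2 * R
      · have h2 : ζ₁ w.2 = 0 := by
          apply ζ₁.zero_of_le_dist
          rw [dist_zero_right, Real.norm_eq_abs]
          have : ¬ |w.2| ≤ M + 2 := fun h3 => hw ⟨h, h3⟩
          change M + 2 ≤ |w.2|
          linarith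
        simp only [hψ, h2, mul_zero]
      · have h2 : ζ (w.1 / R) = 0 := by
          apply ζ.zero_of_le_dist
          rw [dist_zero_right, Real.norm_eq_abs, abs_div, abs_of_pos hR0]
          change 2 ≤ |w.1| / R
          rw [le_div_iff₀ hR0]
          linarith
        simp only [hψ, hα, h2, mul_zero, zero_mul]
    have hst := stokes hZ hΩ hf hψs hψc
    -- pointwise lower bound
    have hlow : ∀ w ∈ Ω, (1 / 2) * g w - K * C / R * chi K w.1 ≤ aI F ψ w := by
      intro w hw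
      have hw2 : |w.2| ≤ M := hb w hw
      have hz1 : ζ₁ w.2 = 1 := by
        apply ζ₁.one_of_mem_closedBall
        rw [Metric.mem_closedBall, dist_zero_right, Real.norm_eq_abs]
        change |w.2| ≤ M + 1
        linarith
      have hz2 : deriv (ζ₁ : ℝ → ℝ) w.2 = 0 := by
        have h1 : (ζ₁ : ℝ → ℝ) =ᶠ[𝓝 w.2] fun _ => 1 := by
          apply ζ₁.eventuallyEq_one_of_mem_ball
          rw [Metric.mem_ball, dist_zero_right, Real.norm_eq_abs]
          change |w.2| < M + 1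
          linarith
        rw [h1.deriv_eq, deriv_const]
      have hfd : HasFDerivAt ψ (α w.1 • (deriv (ζ₁ : ℝ → ℝ) w.2 • ContinuousLinearMap.snd ℝ ℝ ℝ)
          + ζ₁ w.2 • ((deriv (chi K) w.1 * ζ (w.1 / R)
            + chi K w.1 * (deriv (ζ : ℝ → ℝ) (w.1 / R) * (1 / R))) •
              ContinuousLinearMap.fst ℝ ℝ ℝ)) w := by
        have h1 : HasFDerivAt (fun w : ℝ × ℝ => α w.1) ((deriv (chi K) w.1 * ζ (w.1 / R)
            + chi K w.1 * (deriv (ζ : ℝ → ℝ) (w.1 / R) * (1 / R))) •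
              ContinuousLinearMap.fst ℝ ℝ ℝ) w :=
          (hαd w.1).comp_hasFDerivAt w hasFDerivAt_fst
        have h2 : HasFDerivAt (fun w : ℝ × ℝ => ζ₁ w.2)
            (deriv (ζ₁ : ℝ → ℝ) w.2 • ContinuousLinearMap.snd ℝ ℝ ℝ) w := by
          have h3 : HasDerivAt (ζ₁ : ℝ → ℝ) (deriv (ζ₁ : ℝ → ℝ) w.2) w.2 :=
            (hζ₁s.differentiable (by simp) _).hasDerivAt
          exact h3.comp_hasFDerivAt w hasFDerivAt_snd
        exact h1.mul h2
      have hval : aI F ψ w = α w.1 + (deriv (chi K) w.1 * ζ (w.1 / R)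
            + chi K w.1 * (deriv (ζ : ℝ → ℝ) (w.1 / R) * (1 / R))) * fderiv ℝ F w (0, 1) := by
        unfold aI
        rw [hfd.fderiv, hz2, hz1]
        simp [hψ, hz1]
      have hFr : |fderiv ℝ F w (0, 1)| ≤ K := hZ.lip w hw2
      have hz : 0 ≤ ζ (w.1 / R) := ζ.nonneg
      have hz' : ζ (w.1 / R) ≤ 1 := ζ.le_one
      have hχ := chi_pos K w.1
      have hb1 : |deriv (chi K) w.1 * ζ (w.1 / R) * fderiv ℝ F w (0, 1)|
          ≤ 1 / 2 * (chi K w.1 * ζ (w.1 / R)) := by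
        rw [abs_mul, abs_mul, abs_of_nonneg hz]
        calc |deriv (chi K) w.1| * ζ (w.1 / R) * |fderiv ℝ F w (0, 1)|
            ≤ (chi K w.1 / (2 * K)) * ζ (w.1 / R) * K := by
              gcongr
              exact chi_deriv hK w.1
          _ = 1 / 2 * (chi K w.1 * ζ (w.1 / R)) := by field_simp
      have hb2 : |chi K w.1 * (deriv (ζ : ℝ → ℝ) (w.1 / R) * (1 / R)) * fderiv ℝ F w (0, 1)|
          ≤ K * C / R * chi K w.1 := by
        rw [abs_mul, abs_mul, abs_mul, abs_of_pos hχ, abs_of_pos (show (0 : ℝ) < 1 / R by positivity)]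
        calc chi K w.1 * (|deriv (ζ : ℝ → ℝ) (w.1 / R)| * (1 / R)) * |fderiv ℝ F w (0, 1)|
            ≤ chi K w.1 * (C * (1 / R)) * K := by
              gcongr
              exact hC _
          _ = K * C / R * chi K w.1 := by field_simp
      have hgw : g w ≤ chi K w.1 * ζ (w.1 / R) := by
        by_cases h : |w.1| ≤ R₀
        · have h2 : ζ (w.1 / R) = 1 := by
            apply ζ.one_of_mem_closedBall
            rw [Metric.mem_closedBall, dist_zero_right, Real.norm_eq_abs, abs_div, abs_of_pos hR0]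
            change |w.1| / R ≤ 1
            rw [div_le_one hR0]
            linarith
          rw [h2, mul_one]
          simp only [hg]
          rw [indicator_of_mem (show w ∈ {w : ℝ × ℝ | |w.1| ≤ R₀} from h)]
        · simp only [hg]
          rw [indicator_of_notMem (show w ∉ {w : ℝ × ℝ | |w.1| ≤ R₀} from h)]
          positivity
      rw [hval, add_mul]
      have h5 := (abs_le.1 hb1).1
      have h6 := (abs_le.1 hb2).1
      simp only [hα]
      linarith
    have hint : IntegrableOn (aI F ψ) Ω := (aI_int hZ.smooth hψs hψc).integrableOn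
    have hmono := setIntegral_mono_on ((hgi.const_mul (1 / 2)).sub
      ((chi_strip hK hb).const_mul (K * C / R))) hint hΩ.measurableSet hlow
    rw [hst] at hmono
    have hsub : ∫ w in Ω, ((1 / 2) * g w - K * C / R * chi K w.1)
        = (1 / 2) * (∫ w in Ω, g w) - K * C / R * J := by
      rw [integral_sub (hgi.const_mul (1 / 2)) ((chi_strip hK hb).const_mul (K * C / R)),
        integral_const_mul, integral_const_mul]
    have hmono' : ∫ w in Ω, ((1 / 2) * g w - K * C / R * chi K w.1) ≤ 0 := hmono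
    rw [hsub] at hmono'
    linarith
  -- positivity
  have hpos : 0 < ∫ w in Ω, g w := by
    have hg0 : ∀ w, 0 ≤ g w := fun w => indicator_nonneg (fun w _ => (chi_pos K w.1).le) w
    rw [setIntegral_pos_iff_support_of_nonneg_ae (Filter.Eventually.of_forall hg0) hgi]
    have hopen : IsOpen (Ω ∩ {w : ℝ × ℝ | |w.1| < R₀}) :=
      hΩ.inter (isOpen_lt (by fun_prop) continuous_const)
    have hne' : (Ω ∩ {w : ℝ × ℝ | |w.1| < R₀}).Nonempty := by
      refine ⟨w₀, hw₀, ?_⟩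
      change |w₀.1| < R₀
      linarith
    refine (hopen.measure_pos volume hne').trans_le (measure_mono ?_)
    rintro w ⟨hw1, hw2⟩
    refine ⟨?_, hw1⟩
    have hw4 : |w.1| < R₀ := hw2
    have hw3 : w ∈ {w : ℝ × ℝ | |w.1| ≤ R₀} := by
      change |w.1| ≤ R₀
      exact hw4.le
    rw [Function.mem_support]
    simp only [hg]
    rw [indicator_of_mem hw3]
    exact (chi_pos K w.1).ne'
  -- conclusion
  have hJ0 : 0 ≤ J := setIntegral_nonneg hΩ.measurableSet fun w _ => (chi_pos K w.1).le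
  set c₀ : ℝ := ∫ w in Ω, g w with hc₀
  set R : ℝ := R₀ + 2 * (K * C * J) / c₀ with hRdef
  have hq : 0 ≤ 2 * (K * C * J) / c₀ := by positivity
  have hR1 : R₀ ≤ R := by linarith
  have hRpos : 0 < R := by linarith
  have h7 := key R hR1
  have h8 : K * C / R * J * R = K * C * J := by field_simp
  have h9 : (1 / 2) * c₀ * R ≤ K * C * J := by
    rw [← h8]
    exact mul_le_mul_of_nonneg_right h7 hRpos.le
  have h10 : c₀ * R = c₀ * R₀ + 2 * (K * C * J) := by
    rw [hRdef]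
    field_simp
  have h11 : 0 < c₀ * R₀ := mul_pos hpos (by linarith)
  linarith

end Pool.Agent.H2.TI
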