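import Pool.Agent.H2.TI.AngA
import Pool.Agent.H2.TG.Pigeon

/-!
# The ends of an injective leaf (module Ends)

PROOFS.
* `leaf_speed`: `‖c t - c s‖ ≤ |t - s|` (sup norm; both components are `1`-Lipschitz by the mean value inequality).
* `leaf_far`: pigeonhole (`TG.pigeon` in `H2/TG/Pigeon.lean`, rectangle `|a| ≤ R + 1`, `|b| ≤ M`, distance `δ`) gives `N`
  such that among any `N + 1` points of the rectangle two are at distance `< δ`. Suppose that more than `N` different
  integers `k` satisfy `|(c k).1| ≤ R + 1`; then there are such integers `j < k` with `‖c k - c j‖ < δ`, so by `sep`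
  (`w = c k`, `s = j`) `c (j + s') = c k` with `|s'| < 1`, and injectivity gives `k = j + s'`, `k - j ≥ 1`:
  contradiction. So the set of these integers is finite, bounded by `S`; for `|s| ≥ S + 1` with `|(c s).1| ≤ R` the
  nearest integer `k` (between `|s| - 1` and `|s| + 1`) has `|(c k).1| ≤ R + 1`: contradiction for `S` large.
* `leaf_ends`: for `s ≥ S(0)`: `(c s).1 ≠ 0`, continuous, so of constant sign `e` on `[S(0), ∞)`; with `leaf_far`,
  `e (c s).1 = |(c s).1| → ∞`. The same for `s → -∞`.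
-/

set_option autoImplicit false

open scoped Topology
open Set Filter

namespace Pool.Agent.H2.TI

open Pool.Agent.H2.TG

variable {Z : Set (ℝ × ℝ)} {M K δ : ℝ} {F : ℝ × ℝ → ℝ} {c : ℝ → ℝ × ℝ} {φ : ℝ → ℝ}

theorem leaf_speed (hc : PC c φ) (s t : ℝ) : ‖c t - c s‖ ≤ |t - s| := by
  have h := Convex.norm_image_sub_le_of_norm_hasDerivWithin_le (f := c) (C := 1) (s := Set.univ)
    (f' := fun s => (Real.cos (φ s), Real.sin (φ s))) (x := s) (y := t)
    (fun x _ => (hc.deriv x).hasDerivWithinAt)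
    (fun x _ => by
      rw [Prod.norm_mk, max_le_iff]
      exact ⟨by rw [Real.norm_eq_abs]; exact Real.abs_cos_le_one _,
        by rw [Real.norm_eq_abs]; exact Real.abs_sin_le_one _⟩)
    convex_univ (mem_univ s) (mem_univ t)
  rwa [one_mul, Real.norm_eq_abs] at h

private theorem Ends_cont (hc : PC c φ) : Continuous c :=
  continuous_iff_continuousAt.2 fun s => (hc.deriv s).continuousAt

theorem leaf_far (hZ : PSet Z M K δ F) (hc : PLeaf Z δ c φ) (hi : Function.Injective c) (R : ℝ) :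
    ∃ S : ℝ, 0 < S ∧ ∀ s, S ≤ |s| → R < |(c s).1| := by
  by_contra hcon
  have hcon' : ∀ S : ℝ, 0 < S → ∃ s, S ≤ |s| ∧ |(c s).1| ≤ R := by
    intro S hS
    by_contra h
    apply hcon
    refine ⟨S, hS, fun s hs => ?_⟩
    by_contra h2
    exact h ⟨s, hs, not_lt.1 h2⟩
  choose! f hf1 hf2 using hcon'
  obtain ⟨N, hN, hp⟩ := pigeon R M hZ.hδ
  let q : ℕ → ℝ := fun k => Nat.rec (f 1) (fun _ x => f (|x| + 1)) k
  have hq0 : q 0 = f 1 := rfl
  have hqs : ∀ k, q (k + 1) = f (|q k| + 1) := fun k => rfl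
  have hpos : ∀ x : ℝ, 0 < |x| + 1 := fun x => by positivity
  have hq1 : ∀ k, |q k| + 1 ≤ |q (k + 1)| := fun k => by
    rw [hqs]; exact hf1 _ (hpos _)
  have hq2 : ∀ k, |(c (q k)).1| ≤ R := by
    intro k
    cases k with
    | zero => rw [hq0]; exact hf2 1 one_pos
    | succ k => rw [hqs]; exact hf2 _ (hpos _)
  have hmono : ∀ j k, j ≤ k → |q j| ≤ |q k| := by
    intro j k hjk
    induction k, hjk using Nat.le_induction with
    | base => exact le_refl _
    | succ k _ ih => linarith [hq1 k]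
  have hlt : ∀ j k, j < k → |q j| + 1 ≤ |q k| := by
    intro j k hjk
    exact (hq1 j).trans (hmono (j + 1) k hjk)
  obtain ⟨j, k, hjk, _, h1, h2⟩ := hp (fun k => c (q k)) (fun k _ =>
    ⟨hq2 k, (hZ.bdd _ (hc.mem _)).le⟩)
  have hn : ‖c (q k) - c (q j)‖ < δ := by
    rw [Prod.norm_def, max_lt_iff]
    exact ⟨by rw [Real.norm_eq_abs]; exact h1, by rw [Real.norm_eq_abs]; exact h2⟩
  obtain ⟨s', hs', he⟩ := hc.sep (q j) (c (q k)) (hc.mem _) hn
  have he' := hi he
  have h3 := hlt j k hjk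
  have h4 : |q k| ≤ |q j| + |s'| := by rw [← he']; exact abs_add_le _ _
  linarith

private theorem Ends_sign (hcc : Continuous c) {I : Set ℝ} (hI : IsPreconnected I)
    (h0 : ∀ s ∈ I, (c s).1 ≠ 0) :
    ∃ e : ℝ, (e = 1 ∨ e = -1) ∧ ∀ s ∈ I, e * (c s).1 = |(c s).1| := by
  rcases I.eq_empty_or_nonempty with hE | ⟨s0, hs0⟩
  · exact ⟨1, Or.inl rfl, fun s hs => by rw [hE] at hs; exact hs.elim⟩
  have hc1 : ContinuousOn (fun s => (c s).1) I := (continuous_fst.comp hcc).continuousOn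
  rcases lt_or_gt_of_ne (h0 s0 hs0) with h | h
  · refine ⟨-1, Or.inr rfl, fun s hs => ?_⟩
    have hneg : (c s).1 < 0 := by
      by_contra hn
      obtain ⟨x, hx, hx0⟩ := hI.intermediate_value hs0 hs hc1 ⟨h.le, not_lt.1 hn⟩
      exact h0 x hx hx0
    rw [abs_of_neg hneg]; ring
  · refine ⟨1, Or.inl rfl, fun s hs => ?_⟩
    have hpos : 0 < (c s).1 := by
      by_contra hn
      obtain ⟨x, hx, hx0⟩ := hI.intermediate_value hs hs0 hc1 ⟨not_lt.1 hn, h.le⟩
      exact h0 x hx hx0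
    rw [abs_of_pos hpos]; ring

theorem leaf_ends (hZ : PSet Z M K δ F) (hc : PLeaf Z δ c φ) (hi : Function.Injective c) :
    ∃ e e' : ℝ, (e = 1 ∨ e = -1) ∧ (e' = 1 ∨ e' = -1) ∧ EndR c e ∧ EndL c e' := by
  have hcc := Ends_cont hc.pc
  obtain ⟨S, hS, hS0⟩ := leaf_far hZ hc hi 0
  obtain ⟨e, he, heq⟩ := Ends_sign hcc (I := Ici S) isPreconnected_Ici (fun s hs => by
    have := hS0 s ((mem_Ici.1 hs).trans (le_abs_self s))
    exact abs_pos.1 this)
  obtain ⟨e', he', heq'⟩ := Ends_sign hcc (I := Iic (-S)) isPreconnected_Iic (fun s hs => by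
    have := hS0 s ((le_neg.1 (mem_Iic.1 hs)).trans (neg_le_abs s))
    exact abs_pos.1 this)
  refine ⟨e, e', he, he', ?_, ?_⟩
  · refine tendsto_atTop.2 fun R => ?_
    obtain ⟨T, hT, hTR⟩ := leaf_far hZ hc hi R
    filter_upwards [eventually_ge_atTop (max S T)] with s hs
    rw [heq s (mem_Ici.2 ((le_max_left _ _).trans hs))]
    exact (hTR s (((le_max_right _ _).trans hs).trans (le_abs_self s))).le
  · refine tendsto_atTop.2 fun R => ?_
    obtain ⟨T, hT, hTR⟩ := leaf_far hZ hc hi R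
    filter_upwards [eventually_le_atBot (-(max S T))] with s hs
    have hs' : max S T ≤ -s := le_neg.1 hs
    rw [heq' s (mem_Iic.2 (le_neg.1 ((le_max_left _ _).trans hs')))]
    exact (hTR s (((le_max_right _ _).trans hs').trans (neg_le_abs s))).le

end Pool.Agent.H2.TI
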