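import Pool.Agent.H2.TI.Area

/-!
# Every point off `Z` is joined to a high or a low point (module Far)

PROOF. Let `Ω = pathComponentIn Zᶜ z` (see the statement: `JoinedIn Zᶜ z w` iff `w ∈ Ω`). It is open (`Zᶜ` is open and the
plane is locally path connected: `IsOpen.pathComponentIn`), contains `z`, and its frontier is contained in
`Z`: a point `w ∉ Z` of the closure of `Ω` has a ball contained in `Zᶜ` which meets `Ω`, so `w ∈ Ω`, and `Ω` is
open. If all points of `Ω` satisfied `|w.2| ≤ M` then `Ω = ∅` by `area_empty`: contradiction. So there is `w ∈ Ω`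
with `|w.2| > M`, say `w.2 > M`; the segment from `w` to `(0, M)` is in `{r ≥ M}`, which is disjoint from `Z`
(`PSet.bdd`). The same for `w.2 < -M`.
-/

set_option autoImplicit false

open scoped ContDiff Topology
open Set

namespace Pool.Agent.H2.TI

variable {Z : Set (ℝ × ℝ)} {M K δ : ℝ} {F : ℝ × ℝ → ℝ}

private theorem far_seg {x y : ℝ × ℝ} {S : Set (ℝ × ℝ)} (hS : Convex ℝ S) (hx : x ∈ S)
    (hy : y ∈ S) (hZ : S ⊆ Zᶜ) : JoinedIn Zᶜ x y :=
  JoinedIn.of_segment_subset ((hS.segment_subset hx hy).trans hZ)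

theorem exists_far (hZ : PSet Z M K δ F) {z : ℝ × ℝ} (hz : z ∉ Z) :
    JoinedIn Zᶜ z (0, M) ∨ JoinedIn Zᶜ z (0, -M) := by
  set Ω := pathComponentIn Zᶜ z with hΩdef
  have hopen : IsOpen (Zᶜ) := hZ.closed.isOpen_compl
  have hΩ : IsOpen Ω := hopen.pathComponentIn z
  have hzΩ : z ∈ Ω := mem_pathComponentIn_self hz
  have hfr : frontier Ω ⊆ Z := by
    intro w hw
    by_contra hwZ
    obtain ⟨ε, hε, hball⟩ := Metric.isOpen_iff.1 hopen w hwZ
    have hcl : w ∈ closure Ω := frontier_subset_closure hw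
    obtain ⟨y, hy, hyd⟩ := Metric.mem_closure_iff.1 hcl ε hε
    have hyb : y ∈ Metric.ball w ε := by rw [Metric.mem_ball, dist_comm]; exact hyd
    have h1 : JoinedIn Zᶜ y w :=
      far_seg (convex_ball w ε) hyb (Metric.mem_ball_self hε) hball
    have h2 : w ∈ Ω := JoinedIn.trans hy h1
    rw [hΩ.frontier_eq] at hw
    exact hw.2 h2
  have hex : ∃ w ∈ Ω, M < |w.2| := by
    by_contra hcon
    push Not at hcon
    have := area_empty hZ hΩ hcon hfr
    rw [this] at hzΩ
    exact hzΩ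
  obtain ⟨w, hw, hwM⟩ := hex
  have hup : {y : ℝ × ℝ | M ≤ y.2} ⊆ Zᶜ := by
    intro y hy hyZ
    have h1 := hZ.bdd y hyZ
    have h2 : M ≤ y.2 := hy
    have := le_abs_self y.2
    linarith
  have hdn : {y : ℝ × ℝ | y.2 ≤ -M} ⊆ Zᶜ := by
    intro y hy hyZ
    have h1 := hZ.bdd y hyZ
    have h2 : y.2 ≤ -M := hy
    have := neg_le_abs y.2
    linarith
  rcases lt_abs.1 hwM with h | h
  · left
    refine JoinedIn.trans hw (far_seg (S := {y : ℝ × ℝ | M ≤ y.2}) ?_ h.le (le_refl M) hup)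
    exact convex_halfSpace_ge (IsLinearMap.mk (fun _ _ => rfl) (fun _ _ => rfl)) M
  · right
    refine JoinedIn.trans hw (far_seg (S := {y : ℝ × ℝ | y.2 ≤ -M}) ?_ ?_ (le_refl (-M)) hdn)
    · exact convex_halfSpace_le (IsLinearMap.mk (fun _ _ => rfl) (fun _ _ => rfl)) (-M)
    · show w.2 ≤ -M
      linarith

end Pool.Agent.H2.TI
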