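import Pool.Agent.H57.NL.Defs

/-!
# Compactly supported Hamiltonian isotopies of the cotangent bundle
-/

set_option autoImplicit false

open scoped ContDiff Topology RealInnerProductSpace
open Set

namespace Pool.Agent.H2.TI

open Pool.Agent.H57.NL

variable {m : ℕ}

/-- `Ψ` is a compactly supported Hamiltonian isotopy of `T*N`: the flow, starting at time `0`, of the
time dependent Hamiltonian `H s`, which vanishes outside a compact set (`ι_X (dp ∧ dq) = -dH`, i.e.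
`q' = ∂H/∂p`, `p' = -∂H/∂q`). -/
structure HamIso (N : Set (E m)) (Ψ Ψ' : ℝ → E m × E m → E m × E m) (H : ℝ → E m × E m → ℝ) :
    Prop where
  smooth : ContDiff ℝ ∞ fun x : ℝ × (E m × E m) => Ψ x.1 x.2
  smooth' : ContDiff ℝ ∞ fun x : ℝ × (E m × E m) => Ψ' x.1 x.2
  smoothH : ContDiff ℝ ∞ fun x : ℝ × (E m × E m) => H x.1 x.2
  diffeo : ∀ s, SympDiffeo N ⊥ (Ψ s) (Ψ' s)
  zero : ∀ z ∈ TN N, Ψ 0 z = z
  ham : ∀ s, ∀ z ∈ TN N, ∃ X ∈ Tan (TN N) (Ψ s z), HasDerivAt (fun s => Ψ s z) X s ∧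
    ∀ v ∈ Tan (TN N) (Ψ s z), om X v = -fderiv ℝ (H s) (Ψ s z) v
  supp : ∃ r : ℝ, ∀ s, ∀ z ∈ TN N, r < ‖z‖ → H s z = 0 ∧ Ψ s z = z

end Pool.Agent.H2.TI
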