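import Pool.Agent.H2.TI.NDefs
import Pool.Agent.H57.NL.Slice

/-!
# The cotangent bundle as a submanifold (module STN)

PROOFS.
* `TN_submfd`: at `z = (q, p) ∈ TN N` let `e, A` be a slice chart of `N` at `q`. The map
  `ê (q', p') = (e q', De(q') p')` is a diffeomorphism of `e.source × E m` onto `e.target × E m` with inverse
  `(y, α) ↦ (e.symm y, D(e.symm)(y) α)` (`Slice.left`, `Slice.right`), smooth in both directions
  (`ContDiffOn.fderiv_of_isOpen`, `clm_apply`). `(q', p') ∈ TN N ↔ e q' ∈ A ∧ De(q') p' ∈ A` (`Slice.mem_tan`), i.e.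
  `ê (q', p') ∈ A × A`, a subspace of dimension `2 n` (`Submodule.prod`, `finrank`).
* `TN_closed`: `IsSubmfd.isClosed_tan`.
* `tan_fst`: if `ζ ∈ Tan (TN N) z` then `ζ.1 ∈ Tan N z.1` (first components of the curve).
* `om_pres`: let `e, A` be a slice chart of `T` at `z`, `c a = e.symm (e z + a)`, `a ∈ A`, smooth near `0`, `c a ∈ T`,
  `Dc(0) : A → Tan T z` onto (`Slice.mem_tan`). More generally `Dc(a) u ∈ Tan T (c a)` for `a` near `0`. For `a` near `0`
  and `u ∈ A` the hypothesis gives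
  `⟪(ψ (c a)).2, D((ψ ∘ c).1)(a) u⟫ = ⟪(c a).2, D(c.1)(a) u⟫ + D(G ∘ c)(a) u`. Differentiate in the direction `u'` at
  `a = 0`, subtract the same with `u, u'` exchanged (second derivatives are symmetric):
  `om (D(ψ ∘ c) u') (D(ψ ∘ c) u)`-type identity: `⟪(DΨ u').2, (DΨ u).1⟫ - ⟪(DΨ u).2, (DΨ u').1⟫ = ⟪(Dc u').2, (Dc u).1⟫ -
  ⟪(Dc u).2, (Dc u').1⟫` with `Ψ = ψ ∘ c`, i.e. `om (Dψ v') (Dψ v) = om v' v` for `v = Dc(0) u`, `v' = Dc(0) u'`. Compare the
  proof of `straight_om` in `H2/TG/Lag.lean`.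
-/

set_option autoImplicit false

open scoped ContDiff Topology RealInnerProductSpace
open Set Filter

namespace Pool.Agent.H2.TI

open Pool.Agent.H57.NL Pool.Agent.H2.TG

variable {m n : ℕ} {N : Set (E m)}

private noncomputable def stnEq {V : Type} [NormedAddCommGroup V] [NormedSpace ℝ V]
    (A : Submodule ℝ V) : (A.prod A) ≃ₗ[ℝ] A × A where
  toFun x := (⟨x.1.1, x.2.1⟩, ⟨x.1.2, x.2.2⟩)
  invFun x := ⟨(x.1.1, x.2.1), ⟨x.1.2, x.2.2⟩⟩
  map_add' _ _ := rfl
  map_smul' _ _ := rfl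
  left_inv _ := rfl
  right_inv _ := rfl

/-- the chart of the tangent bundle -/
private noncomputable def stnChart {S : Set (E m)} {e : OpenPartialHomeomorph (E m) (E m)}
    {A : Submodule ℝ (E m)} (h : Slice n S e A) :
    OpenPartialHomeomorph (E m × E m) (E m × E m) where
  toFun z := (e z.1, fderiv ℝ e z.1 z.2)
  invFun z := (e.symm z.1, fderiv ℝ e.symm z.1 z.2)
  source := e.source ×ˢ univ
  target := e.target ×ˢ univ
  map_source' z hz := ⟨e.map_source hz.1, mem_univ _⟩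
  map_target' z hz := ⟨e.map_target hz.1, mem_univ _⟩
  left_inv' z hz := by
    refine Prod.ext (e.left_inv hz.1) ?_
    exact h.left hz.1 z.2
  right_inv' z hz := by
    refine Prod.ext (e.right_inv hz.1) ?_
    have h1 := h.right (e.map_target hz.1) z.2
    rw [e.right_inv hz.1] at h1
    exact h1
  open_source := e.open_source.prod isOpen_univ
  open_target := e.open_target.prod isOpen_univ
  continuousOn_toFun := by
    have h1 : ContinuousOn (fderiv ℝ e) e.source :=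
      (h.s1.fderiv_of_isOpen (m := 0) e.open_source (by simp)).continuousOn
    have h2 : ContinuousOn (fun z : E m × E m => fderiv ℝ e z.1) (e.source ×ˢ univ) :=
      h1.comp continuousOn_fst fun z hz => hz.1
    exact (h.s1.continuousOn.comp continuousOn_fst fun z hz => hz.1).prodMk
      (h2.clm_apply continuousOn_snd)
  continuousOn_invFun := by
    have h1 : ContinuousOn (fderiv ℝ e.symm) e.target :=
      (h.s2.fderiv_of_isOpen (m := 0) e.open_target (by simp)).continuousOn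
    have h2 : ContinuousOn (fun z : E m × E m => fderiv ℝ e.symm z.1) (e.target ×ˢ univ) :=
      h1.comp continuousOn_fst fun z hz => hz.1
    exact (h.s2.continuousOn.comp continuousOn_fst fun z hz => hz.1).prodMk
      (h2.clm_apply continuousOn_snd)

theorem TN_submfd (hN : IsSubmfd n N) : IsSubmfd (2 * n) (TN N) := by
  intro z hz
  obtain ⟨e, A, hx, hs⟩ := hN.slice hz.1
  refine ⟨stnChart hs, A.prod A, ⟨hx, mem_univ _⟩, ?_, ?_, ?_, ?_⟩
  · have h1 : ContDiffOn ℝ ∞ (fderiv ℝ e) e.source :=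
      hs.s1.fderiv_of_isOpen e.open_source (by simp)
    have h2 : ContDiffOn ℝ ∞ (fun z : E m × E m => fderiv ℝ e z.1) (e.source ×ˢ univ) :=
      h1.comp contDiff_fst.contDiffOn fun z hz => hz.1
    have h3 : ContDiffOn ℝ ∞ (fun z : E m × E m => e z.1) (e.source ×ˢ univ) :=
      hs.s1.comp contDiff_fst.contDiffOn fun z hz => hz.1
    exact h3.prodMk (h2.clm_apply contDiff_snd.contDiffOn)
  · have h1 : ContDiffOn ℝ ∞ (fderiv ℝ e.symm) e.target :=
      hs.s2.fderiv_of_isOpen e.open_target (by simp)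
    have h2 : ContDiffOn ℝ ∞ (fun z : E m × E m => fderiv ℝ e.symm z.1) (e.target ×ˢ univ) :=
      h1.comp contDiff_fst.contDiffOn fun z hz => hz.1
    have h3 : ContDiffOn ℝ ∞ (fun z : E m × E m => e.symm z.1) (e.target ×ˢ univ) :=
      hs.s2.comp contDiff_fst.contDiffOn fun z hz => hz.1
    exact h3.prodMk (h2.clm_apply contDiff_snd.contDiffOn)
  · rw [(stnEq A).finrank_eq, Module.finrank_prod, hs.fr, two_mul]
  · intro y hy
    have hy1 : y.1 ∈ e.source := hy.1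
    show y ∈ TN N ↔ (e y.1, fderiv ℝ e y.1 y.2) ∈ A.prod A
    rw [Submodule.mem_prod]
    constructor
    · intro h
      exact ⟨(hs.iff _ hy1).1 h.1, (hs.mem_tan hy1 h.1 _).1 h.2⟩
    · intro h
      have h1 : y.1 ∈ N := (hs.iff _ hy1).2 h.1
      exact ⟨h1, (hs.mem_tan hy1 h1 _).2 h.2⟩

theorem TN_closed (hN : IsSubmfd n N) (hc : IsClosed N) : IsClosed (TN N) :=
  hN.isClosed_tan hc

theorem tan_fst {z ζ : E m × E m} (hζ : ζ ∈ Tan (TN N) z) : ζ.1 ∈ Tan N z.1 := by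
  have h := Tan.map (T := N) (g := Prod.fst) hζ (hasFDerivAt_fst (𝕜 := ℝ) (p := z))
    (Eventually.of_forall fun y hy => hy.1)
  exact h

section Curl

variable {V : Type} [NormedAddCommGroup V] [NormedSpace ℝ V]

private theorem stn_second {W : Type} [NormedAddCommGroup W] [NormedSpace ℝ W] {g : V → W}
    {x : V} (hg : ContDiffAt ℝ ∞ g x) (h : V) : HasFDerivAt (fun y => fderiv ℝ g y h)
      ((ContinuousLinearMap.apply ℝ W h).comp (fderiv ℝ (fderiv ℝ g) x)) x := by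
  have h1 : ContDiffAt ℝ ∞ (fderiv ℝ g) x := hg.fderiv_right (by simp)
  have h2 : HasFDerivAt (fderiv ℝ g) (fderiv ℝ (fderiv ℝ g) x) x :=
    (h1.differentiableAt (by simp)).hasFDerivAt
  exact (ContinuousLinearMap.apply ℝ W h).hasFDerivAt.comp x h2

private theorem stn_sym {W : Type} [NormedAddCommGroup W] [NormedSpace ℝ W] {g : V → W}
    {x : V} (hg : ContDiffAt ℝ ∞ g x) (a b : V) :
    fderiv ℝ (fderiv ℝ g) x a b = fderiv ℝ (fderiv ℝ g) x b a := by
  have h6 : ContDiffAt ℝ 2 g x := contDiffAt_infty.1 hg 2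
  exact (h6.isSymmSndFDerivAt (by simp)) a b

private theorem stn_line {F : V → ℝ} {L : V →L[ℝ] ℝ} (hF : HasFDerivAt F L 0) {k : V}
    (h : ∀ᶠ s in 𝓝 (0 : ℝ), F (s • k) = 0) : L k = 0 := by
  have h1 : HasDerivAt (fun s : ℝ => s • k) k 0 := by
    simpa using (hasDerivAt_id (0 : ℝ)).smul_const k
  have h2 : HasFDerivAt F L ((fun s : ℝ => s • k) 0) := by
    simpa using hF
  have h3 := h2.comp_hasDerivAt (0 : ℝ) h1
  have h4 : (F ∘ fun s : ℝ => s • k) =ᶠ[𝓝 0] fun _ => (0 : ℝ) := h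
  exact (h4.hasDerivAt_iff.1 h3).unique (hasDerivAt_const _ _)

/-- the identity of one forms along `A` gives the identity of the differentials -/
private theorem stn_curl {m' : ℕ} {P1 Q1 P0 Q0 : V → E m'} {g : V → ℝ}
    (hP1 : ContDiffAt ℝ ∞ P1 0) (hQ1 : ContDiffAt ℝ ∞ Q1 0) (hP0 : ContDiffAt ℝ ∞ P0 0)
    (hQ0 : ContDiffAt ℝ ∞ Q0 0) (hg : ContDiffAt ℝ ∞ g 0) (A : Submodule ℝ V)
    (h : ∀ᶠ y in 𝓝 (0 : V), y ∈ A → ∀ a ∈ A,
      ⟪P1 y, fderiv ℝ Q1 y a⟫ = ⟪P0 y, fderiv ℝ Q0 y a⟫ + fderiv ℝ g y a) {a b : V}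
    (ha : a ∈ A) (hb : b ∈ A) :
    ⟪fderiv ℝ P1 0 b, fderiv ℝ Q1 0 a⟫ - ⟪fderiv ℝ P1 0 a, fderiv ℝ Q1 0 b⟫ =
      ⟪fderiv ℝ P0 0 b, fderiv ℝ Q0 0 a⟫ - ⟪fderiv ℝ P0 0 a, fderiv ℝ Q0 0 b⟫ := by
  have key : ∀ a ∈ A, ∀ b ∈ A,
      ⟪P1 0, fderiv ℝ (fderiv ℝ Q1) 0 b a⟫ + ⟪fderiv ℝ P1 0 b, fderiv ℝ Q1 0 a⟫ =
        (⟪P0 0, fderiv ℝ (fderiv ℝ Q0) 0 b a⟫ + ⟪fderiv ℝ P0 0 b, fderiv ℝ Q0 0 a⟫) +
          fderiv ℝ (fderiv ℝ g) 0 b a := by
    intro a ha b hb
    have d1 := ((hP1.differentiableAt (by simp)).hasFDerivAt).inner ℝ (stn_second hQ1 a)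
    have d0 := ((hP0.differentiableAt (by simp)).hasFDerivAt).inner ℝ (stn_second hQ0 a)
    have dg := stn_second hg a
    have hL := (d1.sub (d0.add dg))
    have h2 : ∀ᶠ s in 𝓝 (0 : ℝ), ((fun y => ⟪P1 y, fderiv ℝ Q1 y a⟫) -
        ((fun y => ⟪P0 y, fderiv ℝ Q0 y a⟫) + fun y => fderiv ℝ g y a)) (s • b) = 0 := by
      have h3 : Tendsto (fun s : ℝ => s • b) (𝓝 0) (𝓝 0) := by
        have : Continuous fun s : ℝ => s • b := by fun_prop
        simpa using this.tendsto 0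
      filter_upwards [h3.eventually h] with s hs
      have h4 := hs (A.smul_mem s hb) a ha
      simp only [Pi.sub_apply, Pi.add_apply]
      rw [h4, sub_self]
    have h5 := stn_line hL h2
    simp only [sub_apply, add_apply,
      ContinuousLinearMap.comp_apply, fderivInnerCLM_apply, ContinuousLinearMap.prod_apply,
      ContinuousLinearMap.apply_apply] at h5
    linarith
  have k1 := key a ha b hb
  have k2 := key b hb a ha
  rw [stn_sym hQ1 b a, stn_sym hQ0 b a, stn_sym hg b a] at k1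
  linarith

end Curl

theorem om_pres {k : ℕ} {T : Set (E m × E m)} (hT : IsSubmfd k T) {ψ : E m × E m → E m × E m}
    {G : E m × E m → ℝ} (hψ : ContDiff ℝ ∞ ψ) (hG : ContDiff ℝ ∞ G)
    (hex : ∀ z ∈ T, ∀ ζ ∈ Tan T z,
      ⟪(ψ z).2, (fderiv ℝ ψ z ζ).1⟫ = ⟪z.2, ζ.1⟫ + fderiv ℝ G z ζ)
    {z v w : E m × E m} (hz : z ∈ T) (hv : v ∈ Tan T z) (hw : w ∈ Tan T z) :
    om (fderiv ℝ ψ z v) (fderiv ℝ ψ z w) = om v w := by
  obtain ⟨e, A, hx, hs⟩ := hT.slice hz
  obtain ⟨c, hc⟩ : ∃ c : E m × E m → E m × E m, c = fun y => e.symm (e z + y) := ⟨_, rfl⟩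
  have hc0 : c 0 = z := by rw [hc]; simp only [add_zero]; exact e.left_inv hx
  have hO : ∀ᶠ y in 𝓝 (0 : E m × E m), e z + y ∈ e.target := by
    have h1 : Tendsto (fun y : E m × E m => e z + y) (𝓝 0) (𝓝 (e z)) := by
      have : Continuous fun y : E m × E m => e z + y := by fun_prop
      simpa using this.tendsto 0
    exact h1.eventually (e.open_target.mem_nhds (e.map_source hx))
  have hcs : ∀ y, e z + y ∈ e.target → ContDiffAt ℝ ∞ c y := by
    intro y hy
    rw [hc]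
    exact (hs.cd' hy).comp y (contDiff_const.add contDiff_id).contDiffAt
  have hcd : ∀ y, e z + y ∈ e.target → ∀ a, fderiv ℝ c y a = fderiv ℝ e.symm (e z + y) a := by
    intro y hy a
    have h1 : HasFDerivAt (fun y : E m × E m => e z + y) (ContinuousLinearMap.id ℝ _) y :=
      (hasFDerivAt_id y).const_add (e z)
    have h2 := (hs.hd' hy).comp y h1
    rw [ContinuousLinearMap.comp_id] at h2
    have h3 : (e.symm ∘ fun y : E m × E m => e z + y) = c := by
      rw [hc]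
      rfl
    rw [h3] at h2
    rw [h2.fderiv]
  have heA : e z ∈ A := (hs.iff _ hx).1 hz
  have hcT : ∀ y, e z + y ∈ e.target → y ∈ A → c y ∈ T := by
    intro y hy hyA
    have h1 : c y ∈ e.source := by rw [hc]; exact e.map_target hy
    rw [hs.iff _ h1, hc]
    simp only
    rw [e.right_inv hy]
    exact A.add_mem heA hyA
  have hct : ∀ y, e z + y ∈ e.target → y ∈ A → ∀ a ∈ A, fderiv ℝ c y a ∈ Tan T (c y) := by
    intro y hy hyA a ha
    have h1 : c y ∈ e.source := by rw [hc]; exact e.map_target hy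
    have h2 : e (c y) = e z + y := by rw [hc]; exact e.right_inv hy
    rw [hs.mem_tan h1 (hcT y hy hyA), hcd y hy, ← h2, hs.right h1]
    exact ha
  have ht0 : e z + 0 ∈ e.target := by rw [add_zero]; exact e.map_source hx
  have c0 := hcs 0 ht0
  have hψc : ContDiffAt ℝ ∞ (fun y => ψ (c y)) 0 := hψ.contDiffAt.comp 0 c0
  have hGc : ContDiffAt ℝ ∞ (fun y => G (c y)) 0 := hG.contDiffAt.comp 0 c0
  have dc : ∀ y, e z + y ∈ e.target → HasFDerivAt c (fderiv ℝ c y) y := fun y hy =>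
    ((hcs y hy).differentiableAt (by simp)).hasFDerivAt
  have dψ : ∀ x, HasFDerivAt ψ (fderiv ℝ ψ x) x := fun x =>
    (hψ.differentiable (by simp) x).hasFDerivAt
  have dG : ∀ x, HasFDerivAt G (fderiv ℝ G x) x := fun x =>
    (hG.differentiable (by simp) x).hasFDerivAt
  have e1 : ∀ y, e z + y ∈ e.target → ∀ a,
      fderiv ℝ (fun y => (ψ (c y)).1) y a = (fderiv ℝ ψ (c y) (fderiv ℝ c y a)).1 := by
    intro y hy a
    have h1 : HasFDerivAt (fun y => ψ (c y)) ((fderiv ℝ ψ (c y)).comp (fderiv ℝ c y)) y :=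
      (dψ (c y)).comp y (dc y hy)
    rw [h1.fst.fderiv]
    rfl
  have e2 : ∀ y, e z + y ∈ e.target → ∀ a,
      fderiv ℝ (fun y => (ψ (c y)).2) y a = (fderiv ℝ ψ (c y) (fderiv ℝ c y a)).2 := by
    intro y hy a
    have h1 : HasFDerivAt (fun y => ψ (c y)) ((fderiv ℝ ψ (c y)).comp (fderiv ℝ c y)) y :=
      (dψ (c y)).comp y (dc y hy)
    rw [h1.snd.fderiv]
    rfl
  have e3 : ∀ y, e z + y ∈ e.target → ∀ a,
      fderiv ℝ (fun y => (c y).1) y a = (fderiv ℝ c y a).1 := by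
    intro y hy a
    rw [(dc y hy).fst.fderiv]
    rfl
  have e4 : ∀ y, e z + y ∈ e.target → ∀ a,
      fderiv ℝ (fun y => (c y).2) y a = (fderiv ℝ c y a).2 := by
    intro y hy a
    rw [(dc y hy).snd.fderiv]
    rfl
  have e5 : ∀ y, e z + y ∈ e.target → ∀ a,
      fderiv ℝ (fun y => G (c y)) y a = fderiv ℝ G (c y) (fderiv ℝ c y a) := by
    intro y hy a
    have h1 : HasFDerivAt (fun y => G (c y)) ((fderiv ℝ G (c y)).comp (fderiv ℝ c y)) y :=
      (dG (c y)).comp y (dc y hy)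
    rw [h1.fderiv]
    rfl
  have hcurl := stn_curl (P1 := fun y => (ψ (c y)).2) (Q1 := fun y => (ψ (c y)).1)
    (P0 := fun y => (c y).2) (Q0 := fun y => (c y).1) (g := fun y => G (c y)) hψc.snd hψc.fst
    c0.snd c0.fst hGc A (by
      filter_upwards [hO] with y hy hyA a ha
      rw [e1 y hy, e3 y hy, e5 y hy]
      exact hex (c y) (hcT y hy hyA) _ (hct y hy hyA a ha))
    ((hs.mem_tan hx hz v).1 hv) ((hs.mem_tan hx hz w).1 hw)
  have hcv : ∀ u, fderiv ℝ c 0 (fderiv ℝ e z u) = u := by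
    intro u
    rw [hcd 0 ht0, add_zero, hs.left hx]
  rw [e1 0 ht0, e1 0 ht0, e2 0 ht0, e2 0 ht0, e3 0 ht0, e3 0 ht0, e4 0 ht0, e4 0 ht0, hcv, hcv,
    hc0] at hcurl
  unfold om
  linarith

end Pool.Agent.H2.TI
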