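import Pool.Agent.H2.TI.IDefs
import Pool.Agent.H2.TI.STN

/-!
# Composition of families (module IComp)

PROOFS. Smoothness of `(s, z) ↦ Ψ₂ s (Ψ₁ s z)`: composition of `(s, z) ↦ (s, Ψ₁ s z)` and `(s, y) ↦ Ψ₂ s y`. Every `Ψ s` is smooth
(fix `s`), so differentiable. `exiso_comp`, `exact`: `D(Ψ₂ s ∘ Ψ₁ s)(z) ζ = DΨ₂(Ψ₁ z)(DΨ₁(z) ζ)`, `DΨ₁(z) ζ ∈ Tan (TN N) (Ψ₁ s z)`
(`Tan.map` with `maps`), add the two identities. `exiso_time`: compose with `(s, z) ↦ (α s, z)`.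
-/

set_option autoImplicit false

open scoped ContDiff Topology RealInnerProductSpace
open Set Filter

namespace Pool.Agent.H2.TI

open Pool.Agent.H57.NL Pool.Agent.H2.TG

variable {m : ℕ} {N : Set (E m)} {Ψ Ψ' Ψ₁ Ψ₁' Ψ₂ Ψ₂' : ℝ → E m × E m → E m × E m}
  {G G₁ G₂ : ℝ → E m × E m → ℝ}

theorem exiso_contDiff (h : ExIso N Ψ Ψ' G) (s : ℝ) :
    ContDiff ℝ ∞ (Ψ s) ∧ ContDiff ℝ ∞ (Ψ' s) ∧ ContDiff ℝ ∞ (G s) := by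
  have h1 : ContDiff ℝ ∞ fun z : E m × E m => (s, z) := contDiff_const.prodMk contDiff_id
  exact ⟨h.smooth.comp h1, h.smooth'.comp h1, h.smoothG.comp h1⟩

theorem exiso_comp (h₁ : ExIso N Ψ₁ Ψ₁' G₁) (h₂ : ExIso N Ψ₂ Ψ₂' G₂) :
    ExIso N (fun s z => Ψ₂ s (Ψ₁ s z)) (fun s z => Ψ₁' s (Ψ₂' s z))
      (fun s z => G₁ s z + G₂ s (Ψ₁ s z)) := by
  have k1 : ContDiff ℝ ∞ fun x : ℝ × (E m × E m) => (x.1, Ψ₁ x.1 x.2) :=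
    contDiff_fst.prodMk h₁.smooth
  have k2 : ContDiff ℝ ∞ fun x : ℝ × (E m × E m) => (x.1, Ψ₂' x.1 x.2) :=
    contDiff_fst.prodMk h₂.smooth'
  have k3 : ContDiff ℝ ∞ fun x : ℝ × (E m × E m) => G₂ x.1 (Ψ₁ x.1 x.2) := h₂.smoothG.comp k1
  refine ⟨h₂.smooth.comp k1, h₁.smooth'.comp k2, h₁.smoothG.add k3, ?_, ?_, ?_, ?_, ?_⟩
  · intro s z hz
    exact h₂.maps s _ (h₁.maps s z hz)
  · intro s z hz
    exact h₁.maps' s _ (h₂.maps' s z hz)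
  · intro s z hz
    show Ψ₁' s (Ψ₂' s (Ψ₂ s (Ψ₁ s z))) = z
    rw [h₂.left s _ (h₁.maps s z hz), h₁.left s z hz]
  · intro s z hz
    show Ψ₂ s (Ψ₁ s (Ψ₁' s (Ψ₂' s z))) = z
    rw [h₁.right s _ (h₂.maps' s z hz), h₂.right s z hz]
  · intro s z hz ζ hζ
    obtain ⟨c1, -, c3⟩ := exiso_contDiff h₁ s
    obtain ⟨d1, -, d3⟩ := exiso_contDiff h₂ s
    have e1 : HasFDerivAt (Ψ₁ s) (fderiv ℝ (Ψ₁ s) z) z :=
      ((c1.differentiable (by simp)) z).hasFDerivAt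
    have e3 : HasFDerivAt (G₁ s) (fderiv ℝ (G₁ s) z) z :=
      ((c3.differentiable (by simp)) z).hasFDerivAt
    have f1 : HasFDerivAt (Ψ₂ s) (fderiv ℝ (Ψ₂ s) (Ψ₁ s z)) (Ψ₁ s z) :=
      ((d1.differentiable (by simp)) _).hasFDerivAt
    have f3 : HasFDerivAt (G₂ s) (fderiv ℝ (G₂ s) (Ψ₁ s z)) (Ψ₁ s z) :=
      ((d3.differentiable (by simp)) _).hasFDerivAt
    have g1 : HasFDerivAt (fun z => Ψ₂ s (Ψ₁ s z))
        ((fderiv ℝ (Ψ₂ s) (Ψ₁ s z)).comp (fderiv ℝ (Ψ₁ s) z)) z := f1.comp z e1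
    have g3 : HasFDerivAt (fun z => G₁ s z + G₂ s (Ψ₁ s z))
        (fderiv ℝ (G₁ s) z + (fderiv ℝ (G₂ s) (Ψ₁ s z)).comp (fderiv ℝ (Ψ₁ s) z)) z :=
      e3.add (f3.comp z e1)
    have t1 : fderiv ℝ (Ψ₁ s) z ζ ∈ Tan (TN N) (Ψ₁ s z) :=
      Tan.map hζ e1 (Eventually.of_forall fun y hy => h₁.maps s y hy)
    have a1 := h₁.exact s z hz ζ hζ
    have a2 := h₂.exact s (Ψ₁ s z) (h₁.maps s z hz) _ t1
    have b1 : fderiv ℝ (fun z => Ψ₂ s (Ψ₁ s z)) z ζ =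
        fderiv ℝ (Ψ₂ s) (Ψ₁ s z) (fderiv ℝ (Ψ₁ s) z ζ) := by
      rw [g1.fderiv]
      rfl
    have b3 : fderiv ℝ (fun z => G₁ s z + G₂ s (Ψ₁ s z)) z ζ =
        fderiv ℝ (G₁ s) z ζ + fderiv ℝ (G₂ s) (Ψ₁ s z) (fderiv ℝ (Ψ₁ s) z ζ) := by
      rw [g3.fderiv]
      rfl
    rw [b1, b3]
    show ⟪(Ψ₂ s (Ψ₁ s z)).2, _⟫ = _
    linarith

theorem exiso_time (h : ExIso N Ψ Ψ' G) {α : ℝ → ℝ} (hα : ContDiff ℝ ∞ α) :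
    ExIso N (fun s => Ψ (α s)) (fun s => Ψ' (α s)) (fun s => G (α s)) := by
  have k : ContDiff ℝ ∞ fun x : ℝ × (E m × E m) => (α x.1, x.2) :=
    (hα.comp contDiff_fst).prodMk contDiff_snd
  exact ⟨h.smooth.comp k, h.smooth'.comp k, h.smoothG.comp k, fun s => h.maps (α s),
    fun s => h.maps' (α s), fun s => h.left (α s), fun s => h.right (α s), fun s => h.exact (α s)⟩

end Pool.Agent.H2.TI
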