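import Pool.Agent.H2.TI.IDefs

/-!
# The basic identity (module ICore)

PROOF. Let `Ψ`, `G` be jointly smooth, `Ẏ s z = ∂_s Ψ s z` (`deriv`), `Ġ s z = ∂_s G s z`; both are jointly smooth (apply `fderiv` of the joint
map to the constant vector `(1, 0)`; `icore_smooth`). For fixed `ζ`, `s ↦ D(Ψ s)(z) ζ` has the derivative `D(Ẏ s)(z) ζ`, and
`s ↦ D(G s)(z) ζ` has the derivative `D(Ġ s)(z) ζ`: symmetry of the second derivative of the joint map `f (s, z)`: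
`D(Ψ s)(z) ζ = Df(s, z)(0, ζ)`, its `s`-derivative is `D²f(s, z)(1, 0)(0, ζ) = D²f(s, z)(0, ζ)(1, 0)`, the derivative of
`z ↦ Df(s, z)(1, 0) = Ẏ s z` in the direction `ζ` (`ContDiffAt.isSymmSndFDerivAt`; compare `wedge` in `SPos.lean`, `stn_curl` in `STN.lean`).
So `s ↦ ⟪(Ψ s z).2, (D(Ψ s)(z) ζ).1⟫ - D(G s)(z) ζ` has the derivative `⟪Ẏ.2, (DΨ ζ).1⟫ + ⟪Ψ.2, (DẎ ζ).1⟫ - DĠ ζ`, and
`D(z ↦ ⟪(Ψ s z).2, (Ẏ s z).1⟫ - Ġ s z)(z) ζ = ⟪(DΨ ζ).2, Ẏ.1⟫ + ⟪Ψ.2, (DẎ ζ).1⟫ - DĠ ζ`. The difference is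
`⟪Ẏ.2, (DΨ ζ).1⟫ - ⟪(DΨ ζ).2, Ẏ.1⟫ = om Ẏ (DΨ ζ)`.
-/

set_option autoImplicit false

open scoped ContDiff Topology RealInnerProductSpace
open Set Filter

namespace Pool.Agent.H2.TI

open Pool.Agent.H57.NL Pool.Agent.H2.TG

variable {m : ℕ} {Ψ : ℝ → E m × E m → E m × E m} {G : ℝ → E m × E m → ℝ}

private theorem ICore_fd {F : Type} [NormedAddCommGroup F] [NormedSpace ℝ F]
    {f : ℝ → E m × E m → F} (hf : ContDiff ℝ ∞ fun x : ℝ × (E m × E m) => f x.1 x.2)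
    (s : ℝ) (z : E m × E m) :
    HasFDerivAt (f s) ((fderiv ℝ (fun x : ℝ × (E m × E m) => f x.1 x.2) (s, z)).comp
      (ContinuousLinearMap.inr ℝ ℝ (E m × E m))) z := by
  have h1 : HasFDerivAt (fun x : ℝ × (E m × E m) => f x.1 x.2)
      (fderiv ℝ (fun x : ℝ × (E m × E m) => f x.1 x.2) (s, z)) (s, z) :=
    (hf.differentiable (by simp) _).hasFDerivAt
  have h2 : HasFDerivAt (fun z : E m × E m => (s, z))
      (ContinuousLinearMap.inr ℝ ℝ (E m × E m)) z := hasFDerivAt_prodMk_right s z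
  exact h1.comp z h2

private theorem ICore_dd {F : Type} [NormedAddCommGroup F] [NormedSpace ℝ F]
    {f : ℝ → E m × E m → F} (hf : ContDiff ℝ ∞ fun x : ℝ × (E m × E m) => f x.1 x.2)
    (s : ℝ) (z : E m × E m) :
    HasDerivAt (fun s => f s z)
      (fderiv ℝ (fun x : ℝ × (E m × E m) => f x.1 x.2) (s, z) (1, 0)) s := by
  have h1 : HasFDerivAt (fun x : ℝ × (E m × E m) => f x.1 x.2)
      (fderiv ℝ (fun x : ℝ × (E m × E m) => f x.1 x.2) (s, z)) (s, z) :=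
    (hf.differentiable (by simp) _).hasFDerivAt
  have h2 : HasDerivAt (fun s : ℝ => (s, z)) ((1 : ℝ), (0 : E m × E m)) s :=
    (hasDerivAt_id s).prodMk (hasDerivAt_const s z)
  exact h1.comp_hasDerivAt s h2

private theorem ICore_sym {F : Type} [NormedAddCommGroup F] [NormedSpace ℝ F]
    {f : ℝ → E m × E m → F} (hf : ContDiff ℝ ∞ fun x : ℝ × (E m × E m) => f x.1 x.2)
    (s : ℝ) (z ζ : E m × E m) :
    HasDerivAt (fun s => fderiv ℝ (f s) z ζ)
      (fderiv ℝ (fun z => deriv (fun s => f s z) s) z ζ) s := by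
  obtain ⟨J, hJ⟩ : ∃ J : ℝ × (E m × E m) → F, J = fun x => f x.1 x.2 := ⟨_, rfl⟩
  have hJc : ContDiff ℝ ∞ J := by rw [hJ]; exact hf
  have e1 : (fun s => fderiv ℝ (f s) z ζ) = fun s => fderiv ℝ J (s, z) (0, ζ) := by
    funext s
    rw [(ICore_fd hf s z).fderiv, hJ]
    rfl
  have e2 : (fun z => deriv (fun s => f s z) s) = fun z => fderiv ℝ J (s, z) (1, 0) := by
    funext z
    rw [(ICore_dd hf s z).deriv, hJ]
  have hJ2 : HasFDerivAt (fderiv ℝ J) (fderiv ℝ (fderiv ℝ J) (s, z)) (s, z) :=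
    ((hJc.fderiv_right (m := ∞) (by simp)).differentiable (by simp) _).hasFDerivAt
  have h2 : HasDerivAt (fun s : ℝ => (s, z)) ((1 : ℝ), (0 : E m × E m)) s :=
    (hasDerivAt_id s).prodMk (hasDerivAt_const s z)
  have h3 : HasFDerivAt (fun z : E m × E m => (s, z))
      (ContinuousLinearMap.inr ℝ ℝ (E m × E m)) z := hasFDerivAt_prodMk_right s z
  have d1 : HasDerivAt (fun s => fderiv ℝ J (s, z) (0, ζ))
      (fderiv ℝ (fderiv ℝ J) (s, z) (1, 0) (0, ζ)) s :=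
    ((ContinuousLinearMap.apply ℝ F ((0 : ℝ), ζ)).hasFDerivAt.comp_hasDerivAt s
      (hJ2.comp_hasDerivAt s h2))
  have d2 : HasFDerivAt (fun z => fderiv ℝ J (s, z) (1, 0))
      ((ContinuousLinearMap.apply ℝ F ((1 : ℝ), (0 : E m × E m))).comp
        ((fderiv ℝ (fderiv ℝ J) (s, z)).comp (ContinuousLinearMap.inr ℝ ℝ (E m × E m)))) z :=
    (ContinuousLinearMap.apply ℝ F ((1 : ℝ), (0 : E m × E m))).hasFDerivAt.comp z
      (hJ2.comp z h3)
  have hs : fderiv ℝ (fderiv ℝ J) (s, z) (1, 0) (0, ζ)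
      = fderiv ℝ (fderiv ℝ J) (s, z) (0, ζ) (1, 0) :=
    ((contDiffAt_infty.1 hJc.contDiffAt 2).isSymmSndFDerivAt (by simp)).eq _ _
  rw [e1, e2, d2.fderiv]
  have hz : ((ContinuousLinearMap.apply ℝ F ((1 : ℝ), (0 : E m × E m))).comp
        ((fderiv ℝ (fderiv ℝ J) (s, z)).comp (ContinuousLinearMap.inr ℝ ℝ (E m × E m)))) ζ
      = fderiv ℝ (fderiv ℝ J) (s, z) (0, ζ) (1, 0) := rfl
  rw [hz, ← hs]
  exact d1

theorem icore_smooth {F : Type} [NormedAddCommGroup F] [NormedSpace ℝ F]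
    {f : ℝ → E m × E m → F} (hf : ContDiff ℝ ∞ fun x : ℝ × (E m × E m) => f x.1 x.2) :
    ContDiff ℝ ∞ fun x : ℝ × (E m × E m) => deriv (fun s => f s x.2) x.1 := by
  have e : (fun x : ℝ × (E m × E m) => deriv (fun s => f s x.2) x.1)
      = fun x => fderiv ℝ (fun x : ℝ × (E m × E m) => f x.1 x.2) x (1, 0) := by
    funext x
    exact (ICore_dd hf x.1 x.2).deriv
  rw [e]
  exact (hf.fderiv_right (m := ∞) (by simp)).clm_apply contDiff_const

theorem icore (hΨ : ContDiff ℝ ∞ fun x : ℝ × (E m × E m) => Ψ x.1 x.2)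
    (hG : ContDiff ℝ ∞ fun x : ℝ × (E m × E m) => G x.1 x.2) (s : ℝ) (z ζ : E m × E m) :
    HasDerivAt (fun s => ⟪(Ψ s z).2, (fderiv ℝ (Ψ s) z ζ).1⟫ - fderiv ℝ (G s) z ζ)
      (om (deriv (fun s => Ψ s z) s) (fderiv ℝ (Ψ s) z ζ)
        + fderiv ℝ (fun z => ⟪(Ψ s z).2, (deriv (fun s => Ψ s z) s).1⟫
          - deriv (fun s => G s z) s) z ζ) s := by
  have y1 : HasDerivAt (fun s => (Ψ s z).2) (deriv (fun s => Ψ s z) s).2 s := by
    have h := ICore_dd hΨ s z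
    rw [h.deriv]
    exact (ContinuousLinearMap.snd ℝ (E m) (E m)).hasFDerivAt.comp_hasDerivAt s h
  have y2 : HasDerivAt (fun s => (fderiv ℝ (Ψ s) z ζ).1)
      (fderiv ℝ (fun z => deriv (fun s => Ψ s z) s) z ζ).1 s :=
    (ContinuousLinearMap.fst ℝ (E m) (E m)).hasFDerivAt.comp_hasDerivAt s (ICore_sym hΨ s z ζ)
  have y3 := ICore_sym hG s z ζ
  have h := (y1.inner ℝ y2).sub y3
  have z0 : HasFDerivAt (Ψ s) (fderiv ℝ (Ψ s) z) z := by
    have := ICore_fd hΨ s z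
    rw [this.fderiv]
    exact this
  have z1 : HasFDerivAt (fun z => (Ψ s z).2)
      ((ContinuousLinearMap.snd ℝ (E m) (E m)).comp (fderiv ℝ (Ψ s) z)) z :=
    (ContinuousLinearMap.snd ℝ (E m) (E m)).hasFDerivAt.comp z z0
  have w0 : HasFDerivAt (fun z => deriv (fun s => Ψ s z) s)
      (fderiv ℝ (fun z => deriv (fun s => Ψ s z) s) z) z := by
    have h1 : ContDiff ℝ ∞ fun z : E m × E m => deriv (fun s => Ψ s z) s :=
      (icore_smooth hΨ).comp (contDiff_const.prodMk contDiff_id)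
    exact (h1.differentiable (by simp) z).hasFDerivAt
  have z2 : HasFDerivAt (fun z => (deriv (fun s => Ψ s z) s).1)
      ((ContinuousLinearMap.fst ℝ (E m) (E m)).comp
        (fderiv ℝ (fun z => deriv (fun s => Ψ s z) s) z)) z :=
    (ContinuousLinearMap.fst ℝ (E m) (E m)).hasFDerivAt.comp z w0
  have z3 : HasFDerivAt (fun z => deriv (fun s => G s z) s)
      (fderiv ℝ (fun z => deriv (fun s => G s z) s) z) z := by
    have h1 : ContDiff ℝ ∞ fun z : E m × E m => deriv (fun s => G s z) s :=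
      (icore_smooth hG).comp (contDiff_const.prodMk contDiff_id)
    exact (h1.differentiable (by simp) z).hasFDerivAt
  have k := (z1.inner ℝ z2).sub z3
  have k' : fderiv ℝ (fun z => ⟪(Ψ s z).2, (deriv (fun s => Ψ s z) s).1⟫
      - deriv (fun s => G s z) s) z ζ
      = ⟪(Ψ s z).2, (fderiv ℝ (fun z => deriv (fun s => Ψ s z) s) z ζ).1⟫
        + ⟪(fderiv ℝ (Ψ s) z ζ).2, (deriv (fun s => Ψ s z) s).1⟫
        - fderiv ℝ (fun z => deriv (fun s => G s z) s) z ζ := by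
    rw [show (fun z => ⟪(Ψ s z).2, (deriv (fun s => Ψ s z) s).1⟫
      - deriv (fun s => G s z) s) = ((fun z => ⟪(Ψ s z).2, (deriv (fun s => Ψ s z) s).1⟫)
        - fun z => deriv (fun s => G s z) s) from rfl, k.fderiv]
    simp only [sub_apply, ContinuousLinearMap.comp_apply, fderivInnerCLM_apply,
      ContinuousLinearMap.prod_apply, ContinuousLinearMap.coe_snd', ContinuousLinearMap.coe_fst']
  rw [k']
  refine h.congr_deriv ?_
  unfold om
  have c1 := real_inner_comm ((fderiv ℝ (Ψ s) z) ζ).2 (deriv (fun s => Ψ s z) s).1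
  have c2 := real_inner_comm ((fderiv ℝ (Ψ s) z) ζ).1 (deriv (fun s => Ψ s z) s).2
  linarith

end Pool.Agent.H2.TI
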