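import Pool.Agent.H2.TI.IComp

/-!
# The inverse family (module ISymm)

PROOFS. `exiso_chain`: let `γ` be a curve in `TN N` with velocity `ζ` at `z`; `Ψ s ∘ Ψ' s ∘ γ = γ` near `0` (`right`), unique
derivatives; `Tan.map` (compare `slag_chain` in `SLag.lean`). `exiso_symm`, `exact`: at `z ∈ TN N`, `ζ`: apply `exact` of `h` at
`y = Ψ' s z`, `ζ' = DΨ'(z) ζ` (tangent to `TN N` at `y`): `⟪z.2, ζ.1⟫ = ⟪y.2, ζ'.1⟫ + DG(y) ζ'` by `exiso_chain` and `right`, and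
`D(fun z => -G s (Ψ' s z))(z) ζ = -DG(y) ζ'`. `symp_of_ex`: `SmoothOn` from smoothness (`O = univ`), `equiv` trivial (`g = 0`), `symp`
from `om_pres` (module STN, with `TN_submfd`) as in `str_symp` (`SLag.lean`).
-/

set_option autoImplicit false

open scoped ContDiff Topology RealInnerProductSpace
open Set Filter

namespace Pool.Agent.H2.TI

open Pool.Agent.H57.NL Pool.Agent.H2.TG

variable {m n : ℕ} {N : Set (E m)} {Ψ Ψ' : ℝ → E m × E m → E m × E m} {G : ℝ → E m × E m → ℝ}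

theorem exiso_chain (h : ExIso N Ψ Ψ' G) (s : ℝ) {z ζ : E m × E m} (hζ : ζ ∈ Tan (TN N) z)
    (hz : z ∈ TN N) :
    fderiv ℝ (Ψ s) (Ψ' s z) (fderiv ℝ (Ψ' s) z ζ) = ζ ∧
      fderiv ℝ (Ψ' s) z ζ ∈ Tan (TN N) (Ψ' s z) := by
  obtain ⟨c1, c2, -⟩ := exiso_contDiff h s
  have h6 : HasFDerivAt (Ψ' s) (fderiv ℝ (Ψ' s) z) z :=
    ((c2.differentiable (by simp)) z).hasFDerivAt
  have h7 : HasFDerivAt (Ψ s) (fderiv ℝ (Ψ s) (Ψ' s z)) (Ψ' s z) :=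
    ((c1.differentiable (by simp)) (Ψ' s z)).hasFDerivAt
  refine ⟨?_, Tan.map hζ h6 (Eventually.of_forall fun y hy => h.maps' s y hy)⟩
  obtain ⟨γ, h0, hS, hd⟩ := hζ
  subst h0
  have h8 : HasDerivAt ((Ψ s ∘ Ψ' s) ∘ γ)
      ((fderiv ℝ (Ψ s) (Ψ' s (γ 0)) ∘L fderiv ℝ (Ψ' s) (γ 0)) ζ) 0 :=
    (h7.comp (γ 0) h6).comp_hasDerivAt (0 : ℝ) hd
  have h9 : HasDerivAt ((Ψ s ∘ Ψ' s) ∘ γ) ζ 0 := by
    refine hd.congr_of_eventuallyEq ?_
    filter_upwards [hS] with t ht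
    exact h.right s _ ht
  exact h8.unique h9

theorem exiso_symm (h : ExIso N Ψ Ψ' G) : ExIso N Ψ' Ψ (fun s z => -G s (Ψ' s z)) := by
  refine ⟨h.smooth', h.smooth, ?_, h.maps', h.maps, h.right, h.left, ?_⟩
  · have h1 : ContDiff ℝ ∞ fun x : ℝ × (E m × E m) => (x.1, Ψ' x.1 x.2) :=
      contDiff_fst.prodMk h.smooth'
    have h2 : ContDiff ℝ ∞ fun x : ℝ × (E m × E m) => G x.1 (Ψ' x.1 x.2) := h.smoothG.comp h1
    exact h2.neg
  · intro s z hz ζ hζ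
    obtain ⟨-, c2, c3⟩ := exiso_contDiff h s
    obtain ⟨h1, h2⟩ := exiso_chain h s hζ hz
    have h3 := h.exact s (Ψ' s z) (h.maps' s z hz) _ h2
    rw [h.right s z hz, h1] at h3
    have h4 : HasFDerivAt (Ψ' s) (fderiv ℝ (Ψ' s) z) z :=
      ((c2.differentiable (by simp)) z).hasFDerivAt
    have h5 : HasFDerivAt (G s) (fderiv ℝ (G s) (Ψ' s z)) (Ψ' s z) :=
      ((c3.differentiable (by simp)) (Ψ' s z)).hasFDerivAt
    have h6 : HasFDerivAt (fun z => -G s (Ψ' s z))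
        (-((fderiv ℝ (G s) (Ψ' s z)).comp (fderiv ℝ (Ψ' s) z))) z := (h5.comp z h4).neg
    have h7 : fderiv ℝ (fun z => -G s (Ψ' s z)) z ζ =
        -(fderiv ℝ (G s) (Ψ' s z) (fderiv ℝ (Ψ' s) z ζ)) := by
      rw [h6.fderiv]
      rfl
    rw [h7]
    linarith

theorem symp_of_ex (hN : IsSubmfd n N) (h : ExIso N Ψ Ψ' G) (s : ℝ) :
    SympDiffeo N ⊥ (Ψ s) (Ψ' s) := by
  have htr : ∀ g ∈ (⊥ : AddSubgroup (E m)), ∀ z : E m × E m, tr g z = z := by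
    intro g hg z
    rw [AddSubgroup.mem_bot.1 hg]
    unfold tr
    rw [add_zero]
  obtain ⟨c1, c2, c3⟩ := exiso_contDiff h s
  refine ⟨h.maps s, h.maps' s, h.left s, h.right s, ?_, ?_, ?_, ?_⟩
  · intro x _
    exact ⟨Ψ s, univ, isOpen_univ, mem_univ _, c1.contDiffOn, fun y _ => rfl⟩
  · intro x _
    exact ⟨Ψ' s, univ, isOpen_univ, mem_univ _, c2.contDiffOn, fun y _ => rfl⟩
  · intro g hg z _
    rw [htr g hg, htr g hg]
  · intro z hz v hv w hw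
    have h6 : HasFDerivAt (Ψ s) (fderiv ℝ (Ψ s) z) z :=
      ((c1.differentiable (by simp)) z).hasFDerivAt
    refine ⟨fderiv ℝ (Ψ s) z v, fderiv ℝ (Ψ s) z w, ?_, ?_, ?_⟩
    · intro γ h0 _ hd
      subst h0
      exact h6.comp_hasDerivAt (0 : ℝ) hd
    · intro γ h0 _ hd
      subst h0
      exact h6.comp_hasDerivAt (0 : ℝ) hd
    · exact om_pres (TN_submfd hN) c1 c3 (h.exact s) hz hv hw

end Pool.Agent.H2.TI
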