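import Pool.Agent.H2.TI.ICore
import Pool.Agent.H2.TI.ISymm

/-!
# The Hamiltonian of an exact family (module IHam)

PROOF. `Ẏ s z = deriv (fun s => Ψ s z) s`, `Ġ` in the same way, `L s z = ⟪(Ψ s z).2, (Ẏ s z).1⟫ - Ġ s z`, `H s y = L s (Ψ' s y)`: smooth
(`icore_smooth`, compositions). Let `z ∈ TN N`. `Ẏ s z ∈ Tan (TN N) (Ψ s z)`: the curve `t ↦ Ψ (s + t) z`. Let `v ∈ Tan (TN N) (Ψ s z)`,
`ζ = D(Ψ' s)(Ψ s z) v`; by `exiso_chain` at the point `Ψ s z` (and `left`): `D(Ψ s)(z) ζ = v`, `ζ ∈ Tan (TN N) z`. By `exact` the function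
`s ↦ ⟪(Ψ s z).2, (D(Ψ s)(z) ζ).1⟫ - D(G s)(z) ζ` is the constant `⟪z.2, ζ.1⟫`, so by `icore` its derivative
`om (Ẏ s z) v + D(L s)(z) ζ` is `0`. Finally `D(L s)(z) ζ = D(H s)(Ψ s z) v`: along a curve `γ` in `TN N` with velocity `ζ` at `z`,
`L s (γ t) = H s (Ψ s (γ t))` (`left`), and `Ψ s ∘ γ` has velocity `D(Ψ s)(z) ζ = v`.
-/

set_option autoImplicit false

open scoped ContDiff Topology RealInnerProductSpace
open Set Filter

namespace Pool.Agent.H2.TI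

open Pool.Agent.H57.NL Pool.Agent.H2.TG

variable {m : ℕ} {N : Set (E m)} {Ψ Ψ' : ℝ → E m × E m → E m × E m} {G : ℝ → E m × E m → ℝ}

theorem ham_of_ex (h : ExIso N Ψ Ψ' G) : ∃ H : ℝ → E m × E m → ℝ,
    (ContDiff ℝ ∞ fun x : ℝ × (E m × E m) => H x.1 x.2) ∧ ∀ s, ∀ z ∈ TN N,
      deriv (fun s => Ψ s z) s ∈ Tan (TN N) (Ψ s z) ∧ ∀ v ∈ Tan (TN N) (Ψ s z),
        om (deriv (fun s => Ψ s z) s) v = -fderiv ℝ (H s) (Ψ s z) v := by
  have k1 : ContDiff ℝ ∞ fun x : ℝ × (E m × E m) => deriv (fun s => Ψ s x.2) x.1 :=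
    icore_smooth h.smooth
  have k2 : ContDiff ℝ ∞ fun x : ℝ × (E m × E m) => deriv (fun s => G s x.2) x.1 :=
    icore_smooth h.smoothG
  have k3 : ContDiff ℝ ∞ fun x : ℝ × (E m × E m) =>
      ⟪(Ψ x.1 x.2).2, (deriv (fun s => Ψ s x.2) x.1).1⟫ - deriv (fun s => G s x.2) x.1 :=
    ((h.smooth.snd).inner ℝ (k1.fst)).sub k2
  have k4 : ContDiff ℝ ∞ fun x : ℝ × (E m × E m) => (x.1, Ψ' x.1 x.2) :=
    contDiff_fst.prodMk h.smooth'
  have k5 : ContDiff ℝ ∞ fun x : ℝ × (E m × E m) =>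
      ⟪(Ψ x.1 (Ψ' x.1 x.2)).2, (deriv (fun r => Ψ r (Ψ' x.1 x.2)) x.1).1⟫
        - deriv (fun r => G r (Ψ' x.1 x.2)) x.1 := k3.comp k4
  refine ⟨fun s y => ⟪(Ψ s (Ψ' s y)).2, (deriv (fun r => Ψ r (Ψ' s y)) s).1⟫
        - deriv (fun r => G r (Ψ' s y)) s, k5, ?_⟩
  intro s z hz
  have hd1 : HasDerivAt (fun s => Ψ s z) (deriv (fun s => Ψ s z) s) s := by
    have h1 : ContDiff ℝ ∞ fun t : ℝ => (t, z) := contDiff_id.prodMk contDiff_const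
    have h2 : ContDiff ℝ ∞ fun t : ℝ => Ψ t z := h.smooth.comp h1
    exact ((h2.differentiable (by simp)) s).hasDerivAt
  obtain ⟨c1, c2, -⟩ := exiso_contDiff h s
  refine ⟨?_, ?_⟩
  · have hsh : HasDerivAt (fun t : ℝ => s + t) 1 0 := by
      simpa using (hasDerivAt_id (0 : ℝ)).const_add s
    refine ⟨fun t => Ψ (s + t) z, by simp, Eventually.of_forall fun t => h.maps _ z hz, ?_⟩
    have hd' : HasDerivAt (fun s => Ψ s z) (deriv (fun s => Ψ s z) s) ((fun t : ℝ => s + t) 0) := by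
      simpa using hd1
    have := hd'.scomp (0 : ℝ) hsh
    rw [one_smul] at this
    exact this
  · intro v hv
    have hΨz : Ψ s z ∈ TN N := h.maps s z hz
    have hl : Ψ' s (Ψ s z) = z := h.left s z hz
    have ch : fderiv ℝ (Ψ s) (Ψ' s (Ψ s z)) (fderiv ℝ (Ψ' s) (Ψ s z) v) = v ∧
        fderiv ℝ (Ψ' s) (Ψ s z) v ∈ Tan (TN N) (Ψ' s (Ψ s z)) := exiso_chain h s hv hΨz
    obtain ⟨ch1, ch2⟩ := ch
    rw [hl] at ch1 ch2
    obtain ⟨ζ, hζ⟩ : ∃ ζ, ζ = fderiv ℝ (Ψ' s) (Ψ s z) v := ⟨_, rfl⟩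
    rw [← hζ] at ch1 ch2
    -- the constant
    have hc : (fun s => ⟪(Ψ s z).2, (fderiv ℝ (Ψ s) z ζ).1⟫ - fderiv ℝ (G s) z ζ) =
        fun _ => ⟪z.2, ζ.1⟫ := by
      funext t
      have := h.exact t z hz ζ ch2
      rw [this]
      ring
    have hi := icore h.smooth h.smoothG s z ζ
    rw [hc] at hi
    have h0 := hi.unique (hasDerivAt_const s _)
    rw [ch1] at h0
    -- chain rule
    obtain ⟨γ, g0, gS, gd⟩ := ch2
    have L1 : ContDiff ℝ ∞ fun z : E m × E m =>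
        ⟪(Ψ s z).2, (deriv (fun s => Ψ s z) s).1⟫ - deriv (fun s => G s z) s := by
      have h1 : ContDiff ℝ ∞ fun z : E m × E m => (s, z) := contDiff_const.prodMk contDiff_id
      exact k3.comp h1
    have L2 : ContDiff ℝ ∞ fun y : E m × E m =>
        ⟪(Ψ s (Ψ' s y)).2, (deriv (fun r => Ψ r (Ψ' s y)) s).1⟫
          - deriv (fun r => G r (Ψ' s y)) s := by
      have h1 : ContDiff ℝ ∞ fun z : E m × E m => (s, z) := contDiff_const.prodMk contDiff_id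
      exact k5.comp h1
    have M1 := ((L1.differentiable (by simp)) (γ 0)).hasFDerivAt
    have M2 := ((L2.differentiable (by simp)) (Ψ s (γ 0))).hasFDerivAt
    have M3 : HasFDerivAt (Ψ s) (fderiv ℝ (Ψ s) (γ 0)) (γ 0) :=
      ((c1.differentiable (by simp)) (γ 0)).hasFDerivAt
    have N1 := M1.comp_hasDerivAt (0 : ℝ) gd
    have N3 : HasDerivAt (fun t => Ψ s (γ t)) (fderiv ℝ (Ψ s) (γ 0) ζ) 0 :=
      M3.comp_hasDerivAt (0 : ℝ) gd
    have N2 := M2.comp_hasDerivAt (0 : ℝ) N3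
    have N4 : (fun y : E m × E m =>
        ⟪(Ψ s (Ψ' s y)).2, (deriv (fun r => Ψ r (Ψ' s y)) s).1⟫
          - deriv (fun r => G r (Ψ' s y)) s) ∘ (fun t => Ψ s (γ t)) =ᶠ[𝓝 0]
        (fun z : E m × E m =>
        ⟪(Ψ s z).2, (deriv (fun s => Ψ s z) s).1⟫ - deriv (fun s => G s z) s) ∘ γ := by
      filter_upwards [gS] with t ht
      show ⟪(Ψ s (Ψ' s (Ψ s (γ t)))).2, (deriv (fun s' => Ψ s' (Ψ' s (Ψ s (γ t)))) s).1⟫
          - deriv (fun s' => G s' (Ψ' s (Ψ s (γ t)))) s = _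
      rw [h.left s _ ht]
      rfl
    have N5 := (N1.congr_of_eventuallyEq N4).unique N2
    rw [g0] at N5
    rw [ch1] at N5
    rw [N5] at h0
    linarith

end Pool.Agent.H2.TI
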