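import Pool.Agent.H2.TI.IEx
import Pool.Agent.H2.TI.IHam

/-!
# Compactly supported isotopies (module ICpt)

PROOF. `H` from `ham_of_ex`. `Z₁ = {Ψ s z | |s| ≤ 1, z ∈ Z}` is compact (image of `Icc (-1) 1 ×ˢ Z`), contained in a ball `‖y‖ < r₀`. Smooth
cut-off functions: `χ : E m × E m → ℝ`, `χ = 1` on the ball `‖y‖ < r₀`, `χ = 0` for `r₀ + 1 ≤ ‖y‖` (`ContDiffBump` needs an inner product
structure or use `exists_cut` of `H2/TG/Glue.lean` with the closed sets `{r₀ + 1 ≤ ‖y‖}`, `closedBall 0 r₀`; take `r = r₀ + 1`), `η : ℝ → ℝ`,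
`η = 1` for `|s| ≤ 1`, `η = 0` for `2 ≤ |s|`. `K s y = η s * χ y * H s y`: smooth. `Φ, Φ'` from `exists_cflow`, `ExIso` from `ex_of_cflow`.
Agreement: for `z ∈ Z`, `γ s = Ψ s z` satisfies `γ' = XH Pr (K s) (γ s)` for `|s| ≤ 1`: both sides are in `Tan (TN N) (Ψ s z)` (`ham_of_ex`,
`xh_tan`), and their `om` with `v ∈ Tan (TN N) (Ψ s z)` is `-D(H s)(Ψ s z) v` and `-D(K s)(Ψ s z) v`, equal since `K s = H s` near `Ψ s z`
(`‖Ψ s z‖ < r₀`, an open condition). `om_nondeg` for the difference (`om` is linear in the first argument; `Tan (TN N)` is closed under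
subtraction: `TN_submfd`, `IsSubmfd.tan_sub`). So by `CFlow.uniq`: `Ψ s z = Φ s (Ψ 0 z) = Φ s z`.
`HamIso N Φ Φ' K`: `smooth`, `smooth'` (`CFlow`), `smoothH`, `diffeo` (`symp_of_ex`), `zero`, `ham` (`X = XH Pr (K s) (Φ s z)`, `CFlow.deriv`, `xh_tan`,
`xh_om`), `supp` (`r`).
-/

set_option autoImplicit false

open scoped ContDiff Topology RealInnerProductSpace
open Set Filter

namespace Pool.Agent.H2.TI

open Pool.Agent.H57.NL Pool.Agent.H2.TG

variable {m n : ℕ} {N : Set (E m)} {Ψ Ψ' : ℝ → E m × E m → E m × E m} {G : ℝ → E m × E m → ℝ}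

theorem exists_cpt (hN : IsSubmfd n N) (hc : IsClosed N) (h : ExIso N Ψ Ψ' G)
    (h0 : ∀ z ∈ TN N, Ψ 0 z = z) {Z : Set (E m × E m)} (hZ : IsCompact Z) (hZN : Z ⊆ TN N) :
    ∃ Φ Φ' H, HamIso N Φ Φ' H ∧ ∀ s, |s| ≤ 1 → ∀ z ∈ Z, Φ s z = Ψ s z := by
  obtain ⟨Pr, hPr⟩ := exists_proj hN hc
  obtain ⟨H, hH, hH2⟩ := ham_of_ex h
  have hcomp : IsCompact ((fun x : ℝ × (E m × E m) => Ψ x.1 x.2) '' (Icc (-1 : ℝ) 1 ×ˢ Z)) :=
    (isCompact_Icc.prod hZ).image h.smooth.continuous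
  obtain ⟨r₁, hr₁⟩ := hcomp.isBounded.subset_closedBall (0 : E m × E m)
  obtain ⟨r₀, hr₀⟩ : ∃ r₀ : ℝ, r₀ = r₁ + 1 := ⟨_, rfl⟩
  have hball : ∀ s, |s| ≤ 1 → ∀ z ∈ Z, ‖Ψ s z‖ < r₀ := by
    intro s hs z hz
    have h1 : Ψ s z ∈ Metric.closedBall (0 : E m × E m) r₁ :=
      hr₁ ⟨(s, z), ⟨abs_le.1 hs, hz⟩, rfl⟩
    rw [Metric.mem_closedBall, dist_zero_right] at h1
    linarith
  obtain ⟨χ, c1, c2, c3, -⟩ := exists_cut (V := E m × E m)
    (s := {y : E m × E m | r₀ + 1 ≤ ‖y‖}) (t := Metric.closedBall 0 r₀)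
    (isClosed_le continuous_const continuous_norm) Metric.isClosed_closedBall (by
      rw [Set.disjoint_left]
      intro y hy hy'
      rw [Metric.mem_closedBall, dist_zero_right] at hy'
      have : r₀ + 1 ≤ ‖y‖ := hy
      linarith)
  obtain ⟨η, d1', d2', d3', -⟩ := exists_cut (V := ℝ)
    (s := {s : ℝ | 2 ≤ |s|}) (t := {s : ℝ | |s| ≤ 1})
    (isClosed_le continuous_const continuous_abs) (isClosed_le continuous_abs continuous_const) (by
      rw [Set.disjoint_left]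
      intro y hy hy'
      have h1 : 2 ≤ |y| := hy
      have h2 : |y| ≤ 1 := hy'
      linarith)
  obtain ⟨K, hKdef⟩ : ∃ K : ℝ → E m × E m → ℝ, K = fun s y => η s * χ y * H s y := ⟨_, rfl⟩
  have hK : ContDiff ℝ ∞ fun x : ℝ × (E m × E m) => K x.1 x.2 := by
    rw [hKdef]
    exact ((d1'.comp contDiff_fst).mul (c1.comp contDiff_snd)).mul hH
  have hs : ∀ s z, 2 ≤ |s| ∨ r₀ + 1 ≤ ‖z‖ → K s z = 0 := by
    intro s z hsz
    rw [hKdef]
    show η s * χ z * H s z = 0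
    rcases hsz with h1 | h1
    · rw [d2' s h1]
      ring
    · rw [c2 z h1]
      ring
  obtain ⟨Φ, Φ', hΦ⟩ := exists_cflow hN hc hPr hK hs
  obtain ⟨G', hex⟩ := ex_of_cflow hN hPr hK hs hΦ
  refine ⟨Φ, Φ', K, ⟨hΦ.smooth, hΦ.smooth', hK, fun s => symp_of_ex hN hex s,
    fun z _ => hΦ.zero z, ?_, ?_⟩, ?_⟩
  · intro s z hz
    exact ⟨XH Pr (K s) (Φ s z), xh_tan hN hPr (K s) (hΦ.maps s z hz), hΦ.deriv s z,
      fun v hv => xh_om hN hPr (K s) (hΦ.maps s z hz) hv⟩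
  · exact ⟨r₀ + 1, fun s z _ hr => ⟨hs s z (Or.inr hr.le), hΦ.supp s z hr⟩⟩
  · intro s hs1 z hz
    have hzN := hZN hz
    have hu := hΦ.uniq (fun s => Ψ s z) ?_ s hs1
    · have hu' : Ψ s z = Φ s (Ψ 0 z) := hu
      rw [hu', h0 z hzN]
    · intro t ht
      have hd : HasDerivAt (fun s => Ψ s z) (deriv (fun s => Ψ s z) t) t := by
        have h1 : ContDiff ℝ ∞ fun t : ℝ => (t, z) := contDiff_id.prodMk contDiff_const
        have h2 : ContDiff ℝ ∞ fun t : ℝ => Ψ t z := h.smooth.comp h1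
        exact ((h2.differentiable (by simp)) t).hasDerivAt
      obtain ⟨t1, t2⟩ := hH2 t z hzN
      have hΨz : Ψ t z ∈ TN N := h.maps t z hzN
      have t3 := xh_tan hN hPr (K t) hΨz
      have e1 : fderiv ℝ (K t) (Ψ t z) = fderiv ℝ (H t) (Ψ t z) := by
        have e2 : K t =ᶠ[𝓝 (Ψ t z)] H t := by
          have e3 : ∀ᶠ y : E m × E m in 𝓝 (Ψ t z), ‖y‖ < r₀ :=
            (isOpen_lt continuous_norm continuous_const).mem_nhds (hball t ht z hz)
          filter_upwards [e3] with y hy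
          rw [hKdef]
          show η t * χ y * H t y = H t y
          rw [d3' t ht, c3 y (by
            rw [Metric.mem_closedBall, dist_zero_right]
            exact hy.le)]
          ring
        exact e2.fderiv_eq
      have key : deriv (fun s => Ψ s z) t - XH Pr (K t) (Ψ t z) = 0 := by
        refine om_nondeg hN hPr hΨz ((TN_submfd hN).tan_sub hΨz t1 t3) ?_
        intro v hv
        have q1 := t2 v hv
        have q2 := xh_om hN hPr (K t) hΨz hv
        rw [e1] at q2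
        unfold om at q1 q2 ⊢
        simp only [Prod.fst_sub, Prod.snd_sub, inner_sub_left, inner_sub_right]
        linarith
      rw [sub_eq_zero] at key
      rw [key] at hd
      exact hd

end Pool.Agent.H2.TI
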