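import Pool.Agent.H2.TI.SDefs
import Pool.Agent.H2.TI.HDefs
import Pool.Agent.H57.NL.Graph

/-!
# Hamiltonian isotopies: definitions

The last part of Theorem I: the Lagrangian `S` is Hamiltonian isotopic to the zero section, through
Lagrangians of the same class. The phase `Θ` is shifted in the last coordinate by `a`; for `a` large the
straightening with the shifted phase is the identity near the graph.
-/

set_option autoImplicit false

open scoped ContDiff Topology RealInnerProductSpace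
open Set Filter

namespace Pool.Agent.H2.TI

open Pool.Agent.H57.NL Pool.Agent.H2.TG

variable {m : ℕ}

/-- A smooth family of diffeomorphisms `Ψ s` of `T*N` with smooth primitives `G s` of the one form
`(Ψ s)*λ - λ`. -/
structure ExIso (N : Set (E m)) (Ψ Ψ' : ℝ → E m × E m → E m × E m) (G : ℝ → E m × E m → ℝ) :
    Prop where
  smooth : ContDiff ℝ ∞ fun x : ℝ × (E m × E m) => Ψ x.1 x.2
  smooth' : ContDiff ℝ ∞ fun x : ℝ × (E m × E m) => Ψ' x.1 x.2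
  smoothG : ContDiff ℝ ∞ fun x : ℝ × (E m × E m) => G x.1 x.2
  maps : ∀ s, ∀ z ∈ TN N, Ψ s z ∈ TN N
  maps' : ∀ s, ∀ z ∈ TN N, Ψ' s z ∈ TN N
  left : ∀ s, ∀ z ∈ TN N, Ψ' s (Ψ s z) = z
  right : ∀ s, ∀ z ∈ TN N, Ψ s (Ψ' s z) = z
  exact : ∀ s, ∀ z ∈ TN N, ∀ ζ ∈ Tan (TN N) z,
    ⟪(Ψ s z).2, (fderiv ℝ (Ψ s) z ζ).1⟫ = ⟪z.2, ζ.1⟫ + fderiv ℝ (G s) z ζ

/-- All data of the straightening. -/
structure Str0 (n : ℕ) (N : Set (E m)) (V : E m → E m) (R : ℝ → E m → E m) (Θ : E m × ℝ → ℝ)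
    (M' : ℝ) (Ψ : ℝ → E m × ℝ → E m × ℝ) (b A ρ : E m × ℝ → ℝ) (Ri : E m × ℝ → E m × ℝ)
    (Pr : E m → (E m →L[ℝ] E m)) : Prop where
  base : Base n N V R
  rho : RhoN N V Θ M' Ψ b A ρ
  rinv : RinvN N R b ρ Ri
  proj : ProjN N Pr

/-- Translation by `-a` in the last variable. -/
def sh (a : ℝ) (x : E m × ℝ) : E m × ℝ := (x.1, x.2 - a)

/-- The data of the shifted phase `Θ ∘ sh a`. -/
def shb (a : ℝ) (b : E m × ℝ → ℝ) (x : E m × ℝ) : ℝ := b (sh a x)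

/-- The action of the shifted phase. -/
def shA (a : ℝ) (b A : E m × ℝ → ℝ) (x : E m × ℝ) : ℝ := A (sh a x) + a * b (sh a x)

/-- The second coordinate of the shifted reduced map. -/
def shr (a : ℝ) (ρ : E m × ℝ → ℝ) (x : E m × ℝ) : ℝ := ρ (sh a x) + a

/-- The inverse of the shifted reduced map. -/
def shRi (a : ℝ) (Ri : E m × ℝ → E m × ℝ) (y : E m × ℝ) : E m × ℝ :=
  ((Ri (sh a y)).1, (Ri (sh a y)).2 + a)

/-- The flow of the shifted phase. -/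
def shF (a : ℝ) (Ψ : ℝ → E m × ℝ → E m × ℝ) (t : ℝ) (x : E m × ℝ) : E m × ℝ :=
  ((Ψ t (sh a x)).1, (Ψ t (sh a x)).2 + a)

/-- The straightening of the shifted phase. -/
noncomputable def FA (V : E m → E m) (R : ℝ → E m → E m) (Pr : E m → (E m →L[ℝ] E m))
    (b A ρ : E m × ℝ → ℝ) (a : ℝ) : E m × E m → E m × E m :=
  FN V R Pr (shb a b) (shA a b A) (shr a ρ)

/-- The inverse of the straightening of the shifted phase. -/
noncomputable def FA' (V : E m → E m) (R : ℝ → E m → E m) (Pr : E m → (E m →L[ℝ] E m))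
    (b A : E m × ℝ → ℝ) (Ri : E m × ℝ → E m × ℝ) (a : ℝ) : E m × E m → E m × E m :=
  FN' V R Pr (shb a b) (shA a b A) (shRi a Ri)

/-- The gradient of `w` on `N`. -/
noncomputable def gr (Pr : E m → (E m →L[ℝ] E m)) (w : E m → ℝ) (q : E m) : E m :=
  Pr q (vec (fderiv ℝ w q))

/-- The translation by `s dw` in the fibres. -/
noncomputable def TW (Pr : E m → (E m →L[ℝ] E m)) (w : E m → ℝ) (s : ℝ) (z : E m × E m) :
    E m × E m := (z.1, z.2 + s • gr Pr w z.1)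

/-- The inverse of `TW`. -/
noncomputable def TW' (Pr : E m → (E m →L[ℝ] E m)) (w : E m → ℝ) (s : ℝ) (z : E m × E m) :
    E m × E m := (z.1, z.2 - s • gr Pr w z.1)

/-- The Hamiltonian vector field of `K` on `T*N`, extended smoothly. -/
noncomputable def XH (Pr : E m → (E m →L[ℝ] E m)) (K : E m × E m → ℝ) (z : E m × E m) :
    E m × E m :=
  (Pr z.1 (vec ((fderiv ℝ K z).comp (ContinuousLinearMap.inr ℝ (E m) (E m)))),
    fderiv ℝ Pr z.1 (Pr z.1 (vec ((fderiv ℝ K z).comp (ContinuousLinearMap.inr ℝ (E m) (E m))))) z.2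
      - Pr z.1 (vec ((fderiv ℝ K z).comp (ContinuousLinearMap.inl ℝ (E m) (E m))
        + ((fderiv ℝ K z).comp (ContinuousLinearMap.inr ℝ (E m) (E m))).comp
          ((fderiv ℝ Pr z.1).flip z.2))))

/-- The flow of the time dependent vector field `XH Pr (K s)`, `K s z = 0` for `2 ≤ |s|` or
`r ≤ ‖z‖`. -/
structure CFlow (N : Set (E m)) (Pr : E m → (E m →L[ℝ] E m)) (K : ℝ → E m × E m → ℝ) (r : ℝ)
    (Φ Φ' : ℝ → E m × E m → E m × E m) : Prop where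
  smooth : ContDiff ℝ ∞ fun x : ℝ × (E m × E m) => Φ x.1 x.2
  smooth' : ContDiff ℝ ∞ fun x : ℝ × (E m × E m) => Φ' x.1 x.2
  zero : ∀ z, Φ 0 z = z
  deriv : ∀ s z, HasDerivAt (fun s => Φ s z) (XH Pr (K s) (Φ s z)) s
  maps : ∀ s, ∀ z ∈ TN N, Φ s z ∈ TN N
  maps' : ∀ s, ∀ z ∈ TN N, Φ' s z ∈ TN N
  left : ∀ s z, Φ' s (Φ s z) = z
  right : ∀ s z, Φ s (Φ' s z) = z
  supp : ∀ s z, r < ‖z‖ → Φ s z = z
  uniq : ∀ γ : ℝ → E m × E m, (∀ s, |s| ≤ 1 → HasDerivAt γ (XH Pr (K s) (γ s)) s) →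
    ∀ s, |s| ≤ 1 → γ s = Φ s (γ 0)

end Pool.Agent.H2.TI
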