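import Pool.Agent.H2.TI.SDefs
import Pool.Agent.H57.NL.Slice
import Pool.Agent.H2.TG.Glue

/-!
# The orthogonal projection to the tangent spaces (module SProj)

PROOF. `Tan N q` is a linear subspace for `q ∈ N` (`IsSubmfd.tan_add`, `Tan.smul`, `tan_zero`). For `q ∈ N`, `w ∈ E m` there is
exactly one `v ∈ Tan N q` with `⟪v, τ⟫ = ⟪w, τ⟫` for all `τ ∈ Tan N q` (orthogonal projection of Mathlib for the submodule;
uniqueness: `⟪v - v', v - v'⟫ = 0`).
Local smooth choice at `q₀ ∈ N`: slice chart `e, A`, basis `a_1, …, a_n` of `A`, `t_i q = D(e.symm)(e q) a_i`, smooth on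
`e.source`, a basis of `Tan N q` for `q ∈ N ∩ e.source` (`Slice.mem_tan`, `Slice.left`, `Slice.right`). Gram matrix
`G_ij = ⟪t_i, t_j⟫`, smooth, invertible near `q₀` (determinant not zero at `q₀`, linearly independent vectors);
`Pr q w = ∑_ij (G⁻¹)_ij ⟪t_j q, w⟫ t_i q`: smooth near `q₀` (`Matrix.inv` by the adjugate, or `Ring.inverse` of continuous
linear maps is smooth). Alternatively: the map `L q : ℝ^n → E m`, `L q x = ∑ x_i t_i q`, is injective, `L* L` is invertible
and `Pr = L (L* L)⁻¹ L*` (`contDiffAt_ringInverse` or `contDiffAt_map_inverse`).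
Gluing: `exists_glue` is for real valued functions; apply it to the `m²` matrix entries `⟪Pr q e_i, e_j⟫` for the
standard basis of `E m`, with the constraint `t q = {k | q ∈ N → k = the entry of the orthogonal projection}`
(a single value, so convex), and reassemble a linear map; or use the vector valued theorem of
Mathlib quoted in `H2/TG/Glue.lean` directly with the target space `E m →L[ℝ] E m` and the constraint
`{P | q ∈ N → (∀ w, P w ∈ Tan N q) ∧ ∀ w, ∀ τ ∈ Tan N q, ⟪P w, τ⟫ = ⟪w, τ⟫}` (convex).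
-/

set_option autoImplicit false

open scoped ContDiff Topology RealInnerProductSpace
open Set Filter

namespace Pool.Agent.H2.TI

open Pool.Agent.H57.NL Pool.Agent.H2.TG

variable {m n : ℕ} {N : Set (E m)}

private theorem spj_adj : ContDiff ℝ ∞
    (fun L : E m →L[ℝ] E m => ContinuousLinearMap.adjoint L) := by
  apply IsBoundedLinearMap.contDiff
  exact
    { map_add := fun x y => map_add _ x y
      map_smul := fun c x => by
        rw [map_smulₛₗ]
        rfl
      bound := ⟨1, one_pos, fun x => by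
        rw [one_mul]
        exact le_of_eq (LinearIsometryEquiv.norm_map _ _)⟩ }

private theorem spj_local (hN : IsSubmfd n N) {q₀ : E m} (hq : q₀ ∈ N) :
    ∃ W : Set (E m), IsOpen W ∧ q₀ ∈ W ∧ ∃ g : E m → (E m →L[ℝ] E m), ContDiffOn ℝ ∞ g W ∧
      ∀ y ∈ W, y ∈ N → (∀ w, g y w ∈ Tan N y) ∧ ∀ w, ∀ τ ∈ Tan N y, ⟪g y w, τ⟫ = ⟪w, τ⟫ := by
  obtain ⟨e, A, hqe, hs⟩ := hN.slice hq
  set P : E m →L[ℝ] E m := A.starProjection with hP
  have hPmem : ∀ v, P v ∈ A := fun v => Submodule.starProjection_apply_mem A v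
  have hPself : ∀ v ∈ A, P v = v := fun v hv => Submodule.starProjection_eq_self_iff.mpr hv
  have hPsym : ∀ u v, ⟪P u, v⟫ = ⟪u, P v⟫ := fun u v =>
    Submodule.inner_starProjection_left_eq_right A u v
  have hPorth : ∀ u, ∀ v ∈ A, ⟪u - P u, v⟫ = 0 := fun u v hv =>
    Submodule.starProjection_inner_eq_zero u v hv
  set T : E m → (E m →L[ℝ] E m) := fun q => fderiv ℝ e.symm (e q) with hT
  have hTs : ContDiffOn ℝ ∞ T e.source := by
    have h1 : ContDiffOn ℝ ∞ (fderiv ℝ e.symm) e.target :=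
      hs.s2.fderiv_of_isOpen e.open_target (by simp)
    exact h1.comp hs.s1 (fun x hx => e.map_source hx)
  set Ts : E m → (E m →L[ℝ] E m) := fun q => ContinuousLinearMap.adjoint (T q) with hTsdef
  have hTss : ContDiffOn ℝ ∞ Ts e.source := spj_adj.comp_contDiffOn hTs
  set B : E m → (E m →L[ℝ] E m) := fun q =>
    (P.comp ((Ts q).comp ((T q).comp P))) + (ContinuousLinearMap.id ℝ (E m) - P) with hB
  have hBs : ContDiffOn ℝ ∞ B e.source :=
    (contDiffOn_const.clm_comp (hTss.clm_comp (hTs.clm_comp contDiffOn_const))).add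
      contDiffOn_const
  have hBapp : ∀ q v, B q v = P (Ts q (T q (P v))) + (v - P v) := fun q v => rfl
  have hunit : ∀ q ∈ e.source, IsUnit (B q) := by
    intro q hqs
    rw [ContinuousLinearMap.isUnit_iff_bijective]
    have hinj : Function.Injective (B q) := by
      rw [injective_iff_map_eq_zero]
      intro v hv
      have h1 : ⟪B q v, v⟫ = ⟪T q (P v), T q (P v)⟫ + ⟪v - P v, v - P v⟫ := by
        rw [hBapp, inner_add_left, hPsym, ContinuousLinearMap.adjoint_inner_left]
        congr 1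
        rw [inner_sub_right, hPorth v (P v) (hPmem v), sub_zero]
      rw [hv, inner_zero_left] at h1
      have h2 : 0 ≤ ⟪T q (P v), T q (P v)⟫ := real_inner_self_nonneg
      have h3 : 0 ≤ ⟪v - P v, v - P v⟫ := real_inner_self_nonneg
      have h4 : T q (P v) = 0 := inner_self_eq_zero.mp (le_antisymm (by linarith) h2)
      have h5 : v - P v = 0 := inner_self_eq_zero.mp (le_antisymm (by linarith) h3)
      rw [← sub_eq_zero.mp h5] at h4
      have h6 := hs.right hqs v
      have h7 : fderiv ℝ e.symm (e q) v = 0 := h4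
      rw [h7, map_zero] at h6
      exact h6.symm
    exact ⟨hinj, (LinearMap.injective_iff_surjective (f := (B q : E m →ₗ[ℝ] E m))).mp hinj⟩
  set Bi : E m → (E m →L[ℝ] E m) := fun q => Ring.inverse (B q) with hBi
  have hBis : ContDiffOn ℝ ∞ Bi e.source := by
    intro q hqs
    obtain ⟨u, hu⟩ := hunit q hqs
    have h1 : ContDiffAt ℝ ∞ Ring.inverse (B q) := by
      rw [← hu]
      exact contDiffAt_ringInverse ℝ u
    exact h1.comp_contDiffWithinAt q (hBs q hqs)
  have hBinv : ∀ q ∈ e.source, ∀ v, B q (Bi q v) = v := by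
    intro q hqs v
    have h1 := Ring.mul_inverse_cancel (B q) (hunit q hqs)
    exact congrArg (fun L : E m →L[ℝ] E m => L v) h1
  refine ⟨e.source, e.open_source, hqe, fun q =>
    (T q).comp (P.comp ((Bi q).comp (P.comp (Ts q)))), ?_, ?_⟩
  · exact hTs.clm_comp (contDiffOn_const.clm_comp (hBis.clm_comp
      (contDiffOn_const.clm_comp hTss)))
  · intro y hy hyN
    refine ⟨fun w => ?_, fun w τ hτ => ?_⟩
    · rw [hs.mem_tan hy hyN]
      have h1 : fderiv ℝ e y (T y (P (Bi y (P (Ts y w))))) = P (Bi y (P (Ts y w))) :=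
        hs.right hy _
      show fderiv ℝ e y (T y (P (Bi y (P (Ts y w))))) ∈ A
      rw [h1]
      exact hPmem _
    · have ha : fderiv ℝ e y τ ∈ A := (hs.mem_tan hy hyN τ).mp hτ
      set a := fderiv ℝ e y τ with hadef
      have hτa : T y a = τ := hs.left hy τ
      show ⟪T y (P (Bi y (P (Ts y w)))), τ⟫ = ⟪w, τ⟫
      rw [← hτa]
      set c := P (Ts y w) with hc
      have h1 : ⟪T y (P (Bi y c)), T y a⟫ = ⟪P (Ts y (T y (P (Bi y c)))), a⟫ := by
        rw [hPsym, hPself a ha, ContinuousLinearMap.adjoint_inner_left]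
      have h2 : P (Ts y (T y (P (Bi y c)))) = B y (Bi y c) - (Bi y c - P (Bi y c)) := by
        rw [hBapp]
        abel
      rw [h1, h2, hBinv y hy, inner_sub_left, hPorth _ a ha, sub_zero, hc, hPsym, hPself a ha,
        ContinuousLinearMap.adjoint_inner_left]

theorem exists_proj (hN : IsSubmfd n N) (hc : IsClosed N) : ∃ Pr, ProjN N Pr := by
  obtain ⟨g, hg⟩ := exists_contMDiffMap_forall_mem_convex_of_local (n := (⊤ : ℕ∞))
    (modelWithCornersSelf ℝ (E m)) (F := E m →L[ℝ] E m) (M := E m)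
    (t := fun q => {L | q ∈ N → (∀ w, L w ∈ Tan N q) ∧ ∀ w, ∀ τ ∈ Tan N q, ⟪L w, τ⟫ = ⟪w, τ⟫})
    (by
      intro q L hL L' hL' a c _ _ hac hq
      obtain ⟨h1, h2⟩ := hL hq
      obtain ⟨h3, h4⟩ := hL' hq
      refine ⟨fun w => ?_, fun w τ hτ => ?_⟩
      · show a • L w + c • L' w ∈ Tan N q
        exact hN.tan_add hq (Tan.smul (h1 w) a) (Tan.smul (h3 w) c)
      · show ⟪a • L w + c • L' w, τ⟫ = ⟪w, τ⟫
        rw [inner_add_left, real_inner_smul_left, real_inner_smul_left, h2 w τ hτ, h4 w τ hτ,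
          ← add_mul, hac, one_mul])
    (fun x => by
      by_cases hx : x ∈ N
      · obtain ⟨W, hW, hxW, g, hg, hgt⟩ := spj_local hN hx
        exact ⟨W, hW.mem_nhds hxW, g, contMDiffOn_iff_contDiffOn.2 hg, fun y hy hyN =>
          hgt y hy hyN⟩
      · exact ⟨Nᶜ, hc.isOpen_compl.mem_nhds hx, fun _ => 0, contMDiffOn_const,
          fun y hy hyN => absurd hyN hy⟩)
  exact ⟨g, contMDiff_iff_contDiff.1 g.contMDiff, fun q hq => (hg q hq).1,
    fun q hq => (hg q hq).2⟩

/-- A tangent vector is determined by its products with tangent vectors. -/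
theorem tan_unique (hN : IsSubmfd n N) {q : E m} (hq : q ∈ N) {v v' : E m} (hv : v ∈ Tan N q)
    (hv' : v' ∈ Tan N q) (h : ∀ τ ∈ Tan N q, ⟪v, τ⟫ = ⟪v', τ⟫) : v = v' := by
  have h1 : v - v' ∈ Tan N q := hN.tan_sub hq hv hv'
  have h2 : ⟪v - v', v - v'⟫ = 0 := by
    rw [inner_sub_left, h _ h1, sub_self]
  exact sub_eq_zero.1 (inner_self_eq_zero.1 h2)

end Pool.Agent.H2.TI
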