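import Pool.Agent.H2.TI.SAct
import Pool.Agent.H2.TG.Glue

/-!
# The inverse of the reduced map (module SInv)

PROOF. For `y.1 ∈ N` let `G u = ρ (Ψ u (y.1, -M'))`. `G` is strictly increasing (`RhoN.pos`, derivative
`Dρ(Ψ u …)(XFN V Θ 1 (Ψ u …))`, `XN_mem`), `G u = -M' + u` for `u ≤ 0` (`XN_down`, `RhoN.bot`), `G → ∞` (`RhoN.top`). So for
every real `y.2` there is exactly one `u` with `G u = y.2`.
Smooth choice: `exists_glue` on `E m × ℝ` with `t y = {k | y.1 ∈ N → ρ (Ψ k (y.1, -M')) = y.2}` (convex: at most one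
value). Local solutions: `y₀.1 ∉ N` (closed): `0`. `y₀.1 ∈ N`, `u₀` the solution: the function
`H (y, k) = ρ (Ψ k (y.1, -M')) - y.2` is smooth on `(E m × ℝ) × ℝ`, `H (y₀, u₀) = 0`, `∂_k H (y₀, u₀) > 0`: the implicit function
theorem (or the inverse function theorem for `(y, k) ↦ (y, H (y, k))`, `ContDiffAt.toOpenPartialHomeomorph`) gives a
smooth `k y` near `y₀` with `H (y, k y) = 0`. This gives a smooth `U` on `E m × ℝ`; `Ri y = Ψ (U y) (y.1, -M')`.
`mem`: `XN_mem`. `rho`: definition. `base`: `x₀ = (y.1, -M')`, `b x₀ = 0`, `flow_base`: `(Ψ u x₀).1 = R (0 - b (Ψ u x₀)) y.1`, so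
`R (b (Ψ u x₀)) (Ψ u x₀).1 = y.1` (`R_add`, `R_zero`).
`inv`: let `x.1 ∈ N`. There is `t` with `(Ψ (-t) x).2 = -M'`: for large `t`, `(Ψ (-t) x).2 ≤ -M'` (`XN_low`); if `x.2 ≥ -M'` use the
intermediate value theorem; if `x.2 < -M'` the orbit forward reaches `-M'` (`XN_high`, `M' > 0 > -M'`, intermediate
value theorem). `x' = Ψ (-t) x = (x'.1, -M')`, `b x' = 0` (`bot`), `flow_base`: `x'.1 = R (b x - 0) x.1`. So `x = Ψ t (R (b x) x.1, -M')` and
`ρ x = G t` for `y = (R (b x) x.1, ρ x)`: `U y = t` by uniqueness.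
-/

set_option autoImplicit false

open scoped ContDiff Topology RealInnerProductSpace
open Set Filter

namespace Pool.Agent.H2.TI

open Pool.Agent.H57.NL Pool.Agent.H2.TG

variable {m n : ℕ} {N : Set (E m)} {V : E m → E m} {R : ℝ → E m → E m} {Θ : E m × ℝ → ℝ}
  {M' τ : ℝ} {Ψ : ℝ → E m × ℝ → E m × ℝ} {b A ρ : E m × ℝ → ℝ}

/-- The implicit function theorem with a smooth solution on a neighbourhood. -/
private theorem sinv_implicit {X : Type} [NormedAddCommGroup X] [NormedSpace ℝ X] [CompleteSpace X]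
    {H : X × ℝ → ℝ} (hH : ContDiff ℝ ∞ H) {y₀ : X} {u₀ : ℝ} (h0 : H (y₀, u₀) = 0)
    (hpos : fderiv ℝ H (y₀, u₀) (0, 1) ≠ 0) :
    ∃ W : Set X, IsOpen W ∧ y₀ ∈ W ∧ ∃ g : X → ℝ, ContDiffOn ℝ ∞ g W ∧
      ∀ y ∈ W, H (y, g y) = 0 := by
  have hinv : ∀ z : X × ℝ, fderiv ℝ H z (0, 1) ≠ 0 →
      (fderiv ℝ H z ∘L .inr ℝ X ℝ).IsInvertible := by
    intro z hz
    refine ⟨ContinuousLinearEquiv.unitsEquivAut ℝ (Units.mk0 _ hz), ?_⟩
    ext
    simp
  have hne : (∞ : ℕ∞ω) ≠ 0 := by simp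
  set g : X → ℝ := (hH.contDiffAt (x := (y₀, u₀))).implicitFunction hne (hinv _ hpos) with hg
  have hg0 : g y₀ = u₀ :=
    ContDiffAt.implicitFunction_apply_self (hH.contDiffAt (x := (y₀, u₀))) hne (hinv _ hpos)
  have hgs : ContDiffAt ℝ ∞ g y₀ :=
    ContDiffAt.contDiffAt_implicitFunction (hH.contDiffAt (x := (y₀, u₀))) hne (hinv _ hpos)
  have e1 : ∀ᶠ y in 𝓝 y₀, H (y, g y) = 0 := by
    have := ContDiffAt.eventually_apply_implicitFunction (hH.contDiffAt (x := (y₀, u₀))) hne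
      (hinv _ hpos)
    rw [h0] at this
    exact this
  have e2 : ∀ᶠ y in 𝓝 y₀, ContinuousAt g y := by
    have h1 : ContDiffAt ℝ 1 g y₀ := hgs.of_le (by simp)
    exact (h1.eventually (by simp)).mono fun y hy => hy.continuousAt
  have hcf : Continuous fun z : X × ℝ => fderiv ℝ H z (0, 1) :=
    (hH.continuous_fderiv (by simp)).clm_apply continuous_const
  have e3 : ∀ᶠ y in 𝓝 y₀, fderiv ℝ H (y, g y) (0, 1) ≠ 0 := by
    have h1 : ContinuousAt (fun y => fderiv ℝ H (y, g y) (0, 1)) y₀ :=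
      hcf.continuousAt.comp (f := fun y => (y, g y)) (continuousAt_id.prodMk hgs.continuousAt)
    have h2 : fderiv ℝ H (y₀, g y₀) (0, 1) ≠ 0 := by rw [hg0]; exact hpos
    exact h1.eventually_ne h2
  have e4 := ((e1.and e2).and e3).eventually_nhds
  obtain ⟨W, hW, hWo, hyW⟩ := eventually_nhds_iff.1 e4
  refine ⟨W, hWo, hyW, g, ?_, fun y hy => ((hW y hy).self_of_nhds).1.1⟩
  intro y hy
  have hy1 := hW y hy
  obtain ⟨⟨hy2, hy3⟩, hy4⟩ := hy1.self_of_nhds
  have hgy := ContDiffAt.contDiffAt_implicitFunction (hH.contDiffAt (x := (y, g y))) hne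
    (hinv _ hy4)
  have hiff := ContDiffAt.eventually_apply_eq_iff_implicitFunction
    (hH.contDiffAt (x := (y, g y))) hne (hinv _ hy4)
  have hc : Tendsto (fun z => (z, g z)) (𝓝 y) (𝓝 (y, g y)) :=
    continuousAt_id.prodMk hy3
  have hev : g =ᶠ[𝓝 y] (hH.contDiffAt (x := (y, g y))).implicitFunction hne (hinv _ hy4) := by
    filter_upwards [hc.eventually hiff, hy1] with z hz hz1
    exact (hz.1 (by rw [hz1.1.1, hy2])).symm
  exact (hgy.congr_of_eventuallyEq hev).contDiffWithinAt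

theorem exists_rinv (hB : Base n N V R) (hΘ : PhaseI Θ M') (hΨ : IsFlow (XFN V Θ 1) Ψ)
    (hτ : 0 < τ) (hG : GoodN N M' τ Ψ) (hρ : RhoN N V Θ M' Ψ b A ρ) :
    ∃ Ri, RinvN N R b ρ Ri := by
  have hX := XFN_contDiff hB hΘ 1
  have hρd : Differentiable ℝ ρ := hρ.smooth.differentiable (by simp)
  have hder : ∀ (x : E m × ℝ) (u : ℝ), HasDerivAt (fun u => ρ (Ψ u x))
      (fderiv ℝ ρ (Ψ u x) (XFN V Θ 1 (Ψ u x))) u := fun x u =>
    (hρd (Ψ u x)).hasFDerivAt.comp_hasDerivAt u (hΨ.deriv x u)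
  have hpos : ∀ (x : E m × ℝ), x.1 ∈ N → ∀ u : ℝ,
      0 < fderiv ℝ ρ (Ψ u x) (XFN V Θ 1 (Ψ u x)) := fun x hx u =>
    hρ.pos _ (XN_mem hB hΘ hΨ hx u)
  have hmono : ∀ x : E m × ℝ, x.1 ∈ N → StrictMono fun u => ρ (Ψ u x) := fun x hx =>
    strictMono_of_hasDerivAt_pos (hder x) (hpos x hx)
  have hcont : ∀ x : E m × ℝ, Continuous fun u => ρ (Ψ u x) := fun x =>
    continuous_iff_continuousAt.2 fun u => (hder x u).continuousAt
  have hdown : ∀ q : E m, q ∈ N → ∀ u : ℝ, u ≤ 0 → ρ (Ψ u (q, -M')) = -M' + u := by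
    intro q hq u hu
    rw [XN_down hB hΘ hΨ (x := (q, -M')) le_rfl hu]
    exact hρ.bot (q, -M' + u) hq (by simp; linarith)
  have hsurj : ∀ q : E m, q ∈ N → Function.Surjective fun u => ρ (Ψ u (q, -M')) := by
    intro q hq
    refine (hcont (q, -M')).surjective (hρ.top (q, -M') hq) ?_
    have h1 : Tendsto (fun u : ℝ => -M' + u) atBot atBot :=
      tendsto_atBot_add_const_left _ _ tendsto_id
    refine h1.congr' ?_
    filter_upwards [eventually_le_atBot (0 : ℝ)] with u hu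
    exact (hdown q hq u hu).symm
  obtain ⟨U, hUs, hU⟩ := exists_glue
    (t := fun y : E m × ℝ => {k : ℝ | y.1 ∈ N → ρ (Ψ k (y.1, -M')) = y.2})
    (by
      intro y
      by_cases hy : y.1 ∈ N
      · refine Set.Subsingleton.convex ?_
        intro k hk l hl
        exact (hmono (y.1, -M') hy).injective ((hk hy).trans (hl hy).symm)
      · have : {k : ℝ | y.1 ∈ N → ρ (Ψ k (y.1, -M')) = y.2} = univ := by
          ext k
          simp [hy]
        rw [this]
        exact convex_univ)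
    (by
      intro y₀
      by_cases hy : y₀.1 ∈ N
      · obtain ⟨u₀, hu₀⟩ := hsurj y₀.1 hy y₀.2
        have hH : ContDiff ℝ ∞ fun z : (E m × ℝ) × ℝ => ρ (Ψ z.2 (z.1.1, -M')) - z.1.2 := by
          have h1 : ContDiff ℝ ∞ fun z : (E m × ℝ) × ℝ => Ψ z.2 (z.1.1, -M') :=
            hΨ.smooth.comp (contDiff_snd.prodMk ((contDiff_fst.comp contDiff_fst).prodMk
              contDiff_const))
          exact (hρ.smooth.comp h1).sub (contDiff_snd.comp contDiff_fst)
        obtain ⟨W, hW, hyW, g, hg, hgW⟩ := sinv_implicit hH (y₀ := y₀) (u₀ := u₀)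
          (by
            simp only
            exact sub_eq_zero.2 hu₀)
          (by
            have hd := ((hH.differentiable (by simp)) (y₀, u₀)).hasFDerivAt
            have hl : HasDerivAt (fun u : ℝ => (y₀, u)) ((0 : E m × ℝ), (1 : ℝ)) u₀ :=
              (hasDerivAt_const u₀ y₀).prodMk (hasDerivAt_id u₀)
            have h1 := hd.comp_hasDerivAt u₀ hl
            have h2 : HasDerivAt (fun u : ℝ => ρ (Ψ u (y₀.1, -M')) - y₀.2)
                (fderiv ℝ ρ (Ψ u₀ (y₀.1, -M')) (XFN V Θ 1 (Ψ u₀ (y₀.1, -M')))) u₀ :=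
              (hder (y₀.1, -M') u₀).sub_const _
            have h3 := h1.unique h2
            rw [h3]
            exact (hpos (y₀.1, -M') hy u₀).ne')
        refine ⟨W, hW, hyW, g, hg, fun y hyy _ => ?_⟩
        exact sub_eq_zero.1 (hgW y hyy)
      · refine ⟨{y | y.1 ∉ N}, ?_, hy, fun _ => 0, contDiffOn_const, fun y hyy h => ?_⟩
        · exact (hB.cpt.isClosed.preimage continuous_fst).isOpen_compl
        · exact absurd h hyy)
  have hbot : ∀ q : E m, q ∈ N → b (q, -M') = 0 := fun q hq =>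
    (hρ.act.bot (q, -M') hq le_rfl).1
  refine ⟨fun y => Ψ (U y) (y.1, -M'), ?_, ?_, ?_, ?_, ?_⟩
  · exact hΨ.smooth.comp (hUs.prodMk (contDiff_fst.prodMk contDiff_const))
  · intro y hy
    exact XN_mem hB hΘ hΨ (x := (y.1, -M')) hy _
  · intro y hy
    have h1 := flow_base hB hΘ hΨ hρ.act (x := (y.1, -M')) hy (U y)
    rw [h1, hbot _ hy, R_add hB]
    have : b (Ψ (U y) (y.1, -M')) + (0 - b (Ψ (U y) (y.1, -M'))) = 0 := by ring
    rw [this, R_zero hB]
  · intro y hy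
    exact hU y hy
  · intro x hx
    have hlow := XN_low hB hΘ hΨ hτ hG hx (t := τ + 1 + M' + x.2 ^ 2) le_rfl
    have hhigh := XN_high hB hΘ hΨ hτ hG hx (t := τ + 1 + M' + x.2 ^ 2) le_rfl
    have hM := hΘ.hM
    have hc : Continuous fun s => (Ψ s x).2 :=
      continuous_iff_continuousAt.2 fun s => ((hΨ.deriv x s).continuousAt).snd
    have h0 : -(τ + 1 + M' + x.2 ^ 2) ≤ τ + 1 + M' + x.2 ^ 2 := by
      nlinarith [sq_nonneg x.2]
    obtain ⟨s, -, hs⟩ := intermediate_value_Icc h0 hc.continuousOn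
      (show -M' ∈ Icc _ _ from ⟨hlow, by linarith⟩)
    have h1 := flow_base hB hΘ hΨ hρ.act hx s
    have hx' : Ψ s x = ((Ψ s x).1, -M') := Prod.ext rfl hs
    have hN := XN_mem hB hΘ hΨ hx s
    have hb0 : b (Ψ s x) = 0 := by
      rw [hx']
      exact hbot _ hN
    rw [hb0, sub_zero] at h1
    have hxs : Ψ (-s) (Ψ s x) = x := by
      rw [hΨ.add hX, neg_add_cancel, hΨ.zero]
    have hyN : R (b x) x.1 ∈ N := by
      rw [← h1]
      exact hN
    have h2 := hU (R (b x) x.1, ρ x) hyN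
    have h3 : Ψ (-s) (R (b x) x.1, -M') = x := by
      rw [← h1, ← hx']
      exact hxs
    have h4 : U (R (b x) x.1, ρ x) = -s := by
      refine (hmono (R (b x) x.1, -M') hyN).injective ?_
      simp only at h2 ⊢
      rw [h2, h3]
    simp only
    rw [h4, h3]

end Pool.Agent.H2.TI
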