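import Pool.Agent.H2.TI.SRho
import Pool.Agent.H2.TI.SInv
import Pool.Agent.H2.TI.SProj
import Pool.Agent.H2.TI.STN
import Pool.Agent.H2.TI.NHyp

/-!
# The straightening (module SStr)

Notation: `z = (q, p) ∈ TN N`, `x = sigN V z`, `β = b x`, `B = R β q`, `ℓ u = ⟪p, u⟫ + DA(x)(u, 0) - ρ x Db(x)(u, 0)`
(`= (innerSL ℝ p + d1 A x - ρ x • d1 b x) u`), so `(FN z).2 = Pr B (vec (ℓ ∘ DR_{-β}(B)))`, `⟪vec l, w⟫ = l w`.
Facts on the flow `R` (`IsFlow` for `V`): `DR_{-β}(B) (DR_β(q) u) = u` (`IsFlow.fderiv_inv`), `DR_t(q) (V q) = V (R t q)`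
(`IsFlow.fderiv_X`), `DR_t(q)` maps `Tan N q` to `Tan N (R t q)` (`Tan.map`, `Base.maps`).
(1) For `u ∈ Tan N q`: `⟪(FN z).2, DR_β(q) u⟫ = ℓ u` (`ProjN.orth`, `DR_β u ∈ Tan N B`).
(2) `ℓ (V q) = ρ x`: `RhoN.id` with `(a, r) = (1, 0)`: `x.2 + DA(x)(V q, 0) = ρ (1 + Db(x)(V q, 0))` and `x.2 = ⟪p, V q⟫`. So
`⟪(FN z).2, V B⟫ = ρ x` and `sigN V (FN z) = (R (b x) x.1, ρ x)` (`fn_sig`).
* `fn_smooth`, `fn'_smooth`: compositions of smooth maps (`vec` is linear continuous; `t, q ↦ DR_t(q)` is smooth: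
  `ContDiff.fderiv` of the jointly smooth flow with respect to the second variable).
* `fn_maps`, `fn'_maps`: `ProjN.mem`, `Base.maps`, `RinvN.mem`.
* `fn_left`: by (2) and `RinvN.inv`, `Ri (sigN V (FN z)) = x`, so the first component of `FN' (FN z)` is `q` and the second is
  the tangent vector `v` with `⟪v, u⟫ = ⟪(FN z).2, DR_β(q) u⟫ - DA(x)(u, 0) + ρ x Db(x)(u, 0) = ⟪p, u⟫` for `u ∈ Tan N q` (by (1)), so
  `v = p` (`tan_unique`; `(sigN V (FN z)).2 = ρ x`).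
* `fn_right`: `z ∈ TN N`, `y = sigN V z`, `x = Ri y`, `z' = FN' z = (x.1, p')` with `⟪p', u⟫ = ⟪z.2, DR_{b x}(x.1) u⟫ - DA(x)(u, 0) +
  y.2 Db(x)(u, 0)` for `u ∈ Tan N x.1`. First: `sigN V z' = x`, i.e. `⟪p', V x.1⟫ = x.2`: `DR (V x.1) = V (R (b x) x.1) = V y.1 = V z.1`, so
  `⟪p', V x.1⟫ = y.2 - DA(x)(V, 0) + y.2 Db(x)(V, 0) = y.2 (1 + Db(V, 0)) - DA(V, 0) = x.2` by `RhoN.id` and `ρ x = y.2`. Then
  `FN z' = (R (b x) x.1, …) = (z.1, v)` with `⟪v, DR u⟫ = ⟪p', u⟫ + DA(u, 0) - ρ x Db(u, 0) = ⟪z.2, DR u⟫` for `u ∈ Tan N x.1`; `DR_{b x}(x.1)`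
  maps `Tan N x.1` onto `Tan N z.1` (inverse `DR_{-b x}`), so `v = z.2`.
* `fn_exact`: `ζ ∈ Tan (TN N) z`, `ζ.1 ∈ Tan N q` (`tan_fst`), `Dσ ζ = (ζ.1, s)` (`sigN_fderiv`), `k = Db(x)(ζ.1, s)`.
  `(D(FN) ζ).1 = DR_β(q) ζ.1 + k V B = DR_β(q) (ζ.1 + k V q)` (chain rule for `(t, q) ↦ R t q`). By (1), (2):
  `⟪(FN z).2, …⟫ = ℓ ζ.1 + k ρ = ⟪p, ζ.1⟫ + DA(ζ.1, 0) - ρ Db(ζ.1, 0) + ρ (Db(ζ.1, 0) + Db(0, s)) = ⟪p, ζ.1⟫ + DA(ζ.1, 0) + ρ Db(0, s)`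
  and `ρ Db(0, s) = DA(0, s)` by `RhoN.id` with `a = 0`.
* `fn_vert`: if `(D(FN) ζ).1 = 0` then `ζ.1 = -k V q`; put `a = -k`: `ζ.1 = a • V q`, `k = Db(x)(a • V q, s)`, so
  `a + Db(x)(a • V q, s) = 0`; `RhoN.ker`: `a = -(c sin Θ)`, `s = c cos Θ`, i.e. `Dσ ζ = (a • V q, s) = c • XFN V Θ 1 x`.
-/

set_option autoImplicit false

open scoped ContDiff Topology RealInnerProductSpace
open Set Filter

namespace Pool.Agent.H2.TI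

open Pool.Agent.H57.NL Pool.Agent.H2.TG

variable {m n : ℕ} {N : Set (E m)} {V : E m → E m} {R : ℝ → E m → E m} {Θ : E m × ℝ → ℝ}
  {M' : ℝ} {Ψ : ℝ → E m × ℝ → E m × ℝ} {b A ρ : E m × ℝ → ℝ} {Ri : E m × ℝ → E m × ℝ}
  {Pr : E m → (E m →L[ℝ] E m)}

theorem vec_inner (l : E m →L[ℝ] ℝ) (w : E m) : ⟪vec l, w⟫ = l w := by
  exact InnerProductSpace.toDual_symm_apply

theorem fn_inner (hB : Base n N V R) (hPr : ProjN N Pr) {z : E m × E m} (hz : z ∈ TN N) {u : E m}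
    (hu : u ∈ Tan N z.1) :
    ⟪(FN V R Pr b A ρ z).2, fderiv ℝ (R (b (sigN V z))) z.1 u⟫ = ⟪z.2, u⟫
      + fderiv ℝ A (sigN V z) (u, 0) - ρ (sigN V z) * fderiv ℝ b (sigN V z) (u, 0) := by
  set x := sigN V z with hx
  have hdiff : HasFDerivAt (R (b x)) (fderiv ℝ (R (b x)) z.1) z.1 :=
    (hB.flow.differentiable (b x) z.1).hasFDerivAt
  have htan : fderiv ℝ (R (b x)) z.1 u ∈ Tan N (R (b x) z.1) :=
    Pool.Agent.H57.NL.Tan.map hu hdiff (Eventually.of_forall fun y hy => hB.maps y hy (b x))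
  change ⟪Pr (R (b x) z.1) (vec ((innerSL ℝ z.2 + d1 A x
      - ρ x • d1 b x).comp (fderiv ℝ (R (-(b x))) (R (b x) z.1)))), _⟫ = _
  rw [hPr.orth _ (hB.maps _ hz.1 _) _ _ htan, vec_inner, ContinuousLinearMap.comp_apply,
    hB.flow.fderiv_inv hB.smooth]
  simp only [d1, _root_.sub_apply, _root_.add_apply, _root_.smul_apply, innerSL_apply_apply,
    ContinuousLinearMap.comp_apply, ContinuousLinearMap.inl_apply, smul_eq_mul]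

theorem fn_sig (hB : Base n N V R) (hρ : RhoN N V Θ M' Ψ b A ρ) (hPr : ProjN N Pr)
    {z : E m × E m} (hz : z ∈ TN N) :
    sigN V (FN V R Pr b A ρ z) = (R (b (sigN V z)) z.1, ρ (sigN V z)) := by
  have h1 := fn_inner (A := A) (ρ := ρ) hB hPr (b := b) hz (hB.tan z.1 hz.1)
  rw [hB.flow.fderiv_X hB.smooth] at h1
  have h2 := hρ.id (sigN V z) hz.1 1 0
  rw [one_smul, mul_one] at h2
  refine Prod.ext rfl ?_
  change ⟪(FN V R Pr b A ρ z).2, V (R (b (sigN V z)) z.1)⟫ = ρ (sigN V z)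
  rw [h1]
  have e1 : (sigN V z).1 = z.1 := rfl
  have e2 : (sigN V z).2 = ⟪z.2, V z.1⟫ := rfl
  rw [e1, e2] at h2
  linarith

theorem fn_maps (hB : Base n N V R) (hPr : ProjN N Pr) {z : E m × E m} (hz : z ∈ TN N) :
    FN V R Pr b A ρ z ∈ TN N := by
  exact ⟨hB.maps _ hz.1 _, hPr.mem _ (hB.maps _ hz.1 _) _⟩

theorem fn'_maps (hPr : ProjN N Pr) (hRi : RinvN N R b ρ Ri) {z : E m × E m} (hz : z ∈ TN N) :
    FN' V R Pr b A Ri z ∈ TN N := by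
  exact ⟨hRi.mem _ hz.1, hPr.mem _ (hRi.mem _ hz.1) _⟩

end Pool.Agent.H2.TI
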