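import Pool.Agent.H2.TI.IDefs
import Pool.Agent.H2.TI.SProj
import Pool.Agent.H2.TI.STN
import Pool.Agent.H2.TI.SStr

/-!
# Translation in the fibres (module ITw)

PROOFS. `gr Pr w` is smooth (`ProjN.smooth`, `ContDiff.fderiv_right`, `vec` is a continuous linear map: see `ssm_vec` in
`SSmooth.lean`, private, to be copied), so `TW`, `TW'` are smooth in `(s, z)`. `gr Pr w q ∈ Tan N q` for `q ∈ N` (`ProjN.mem`); `maps`:
`IsSubmfd.tan_add`, `tan_sub`, `Tan.smul`. `exact`: `(D(TW s)(z) ζ).1 = ζ.1` (the first component of `TW s` is `Prod.fst`), `ζ.1 ∈ Tan N z.1`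
(`tan_fst`), `⟪gr Pr w z.1, ζ.1⟫ = fderiv ℝ w z.1 ζ.1` (`ProjN.orth`, `vec_inner`), `D(s * w z.1) ζ = s * Dw(z.1) ζ.1`.
`gr_eq`: if `s q ∈ Tan N q` and `Dw(q) v = ⟪s q, v⟫` on `Tan N q`, then `s q = gr Pr w q` (`tan_unique`).
-/

set_option autoImplicit false

open scoped ContDiff Topology RealInnerProductSpace
open Set Filter

namespace Pool.Agent.H2.TI

open Pool.Agent.H57.NL Pool.Agent.H2.TG

variable {m n : ℕ} {N : Set (E m)} {Pr : E m → (E m →L[ℝ] E m)} {w : E m → ℝ}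

private theorem itw_vec : ContDiff ℝ ∞ (fun l : E m →L[ℝ] ℝ => vec l) := by
  let L : (E m →L[ℝ] ℝ) →ₗ[ℝ] E m :=
    { toFun := fun l => vec l
      map_add' := fun l l' => by simp [vec]
      map_smul' := fun c l => by simp [vec] }
  exact (LinearMap.toContinuousLinearMap L).contDiff

theorem gr_smooth (hPr : ProjN N Pr) (hw : ContDiff ℝ ∞ w) : ContDiff ℝ ∞ (gr Pr w) := by
  unfold gr
  exact hPr.smooth.clm_apply (itw_vec.comp (hw.fderiv_right (m := ∞) (by simp)))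

theorem tw_iso (hN : IsSubmfd n N) (hPr : ProjN N Pr) (hw : ContDiff ℝ ∞ w) :
    ExIso N (TW Pr w) (TW' Pr w) (fun s z => s * w z.1) := by
  have hg : ContDiff ℝ ∞ (gr Pr w) := gr_smooth hPr hw
  have h1 : ContDiff ℝ ∞ fun x : ℝ × (E m × E m) => x.2.1 := contDiff_fst.comp contDiff_snd
  have h2 : ContDiff ℝ ∞ fun x : ℝ × (E m × E m) => x.2.2 := contDiff_snd.comp contDiff_snd
  have h3 : ContDiff ℝ ∞ fun x : ℝ × (E m × E m) => x.1 • gr Pr w x.2.1 :=
    contDiff_fst.smul (hg.comp h1)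
  have h4 : ContDiff ℝ ∞ fun x : ℝ × (E m × E m) => TW Pr w x.1 x.2 := h1.prodMk (h2.add h3)
  have hmem : ∀ q ∈ N, gr Pr w q ∈ Tan N q := fun q hq => hPr.mem q hq _
  refine ⟨h4, h1.prodMk (h2.sub h3), contDiff_fst.mul (hw.comp h1), ?_, ?_, ?_, ?_, ?_⟩
  · intro s z hz
    exact ⟨hz.1, hN.tan_add hz.1 hz.2 (Tan.smul (hmem z.1 hz.1) s)⟩
  · intro s z hz
    exact ⟨hz.1, hN.tan_sub hz.1 hz.2 (Tan.smul (hmem z.1 hz.1) s)⟩
  · intro s z _
    refine Prod.ext rfl ?_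
    show z.2 + s • gr Pr w z.1 - s • gr Pr w z.1 = z.2
    abel
  · intro s z _
    refine Prod.ext rfl ?_
    show z.2 - s • gr Pr w z.1 + s • gr Pr w z.1 = z.2
    abel
  · intro s z hz ζ hζ
    have hs : ContDiff ℝ ∞ (TW Pr w s) := h4.comp (contDiff_const.prodMk contDiff_id)
    have hd : HasFDerivAt (TW Pr w s) (fderiv ℝ (TW Pr w s) z) z :=
      (hs.differentiable (by simp) z).hasFDerivAt
    have e1 : (fderiv ℝ (TW Pr w s) z ζ).1 = ζ.1 := by
      have h5 : HasFDerivAt (fun y => (TW Pr w s y).1)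
          ((ContinuousLinearMap.fst ℝ (E m) (E m)).comp (fderiv ℝ (TW Pr w s) z)) z := hd.fst
      have h6 : HasFDerivAt (fun y : E m × E m => (TW Pr w s y).1)
          (ContinuousLinearMap.fst ℝ (E m) (E m)) z := hasFDerivAt_fst
      have h7 := h5.unique h6
      have h8 := congrArg (fun L : E m × E m →L[ℝ] E m => L ζ) h7
      exact h8
    have e2 : fderiv ℝ (fun y : E m × E m => s * w y.1) z ζ = s * fderiv ℝ w z.1 ζ.1 := by
      have h5 : HasFDerivAt (fun y : E m × E m => w y.1)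
          ((fderiv ℝ w z.1).comp (ContinuousLinearMap.fst ℝ (E m) (E m))) z :=
        HasFDerivAt.comp z (hw.differentiable (by simp) z.1).hasFDerivAt hasFDerivAt_fst
      have h6 := h5.const_mul s
      rw [h6.fderiv]
      simp
    have e3 : ⟪gr Pr w z.1, ζ.1⟫ = fderiv ℝ w z.1 ζ.1 := by
      unfold gr
      rw [hPr.orth z.1 hz.1 _ _ (tan_fst hζ), vec_inner]
    show ⟪z.2 + s • gr Pr w z.1, (fderiv ℝ (TW Pr w s) z ζ).1⟫ = _
    rw [e1, e2, inner_add_left, real_inner_smul_left, e3]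

theorem gr_eq (hN : IsSubmfd n N) (hPr : ProjN N Pr) {q p : E m} (hq : q ∈ N)
    (hp : p ∈ Tan N q) (h : ∀ v ∈ Tan N q, fderiv ℝ w q v = ⟪p, v⟫) : gr Pr w q = p := by
  refine tan_unique hN hq (hPr.mem q hq _) hp fun τ hτ => ?_
  rw [← h τ hτ]
  unfold gr
  rw [hPr.orth q hq _ τ hτ, vec_inner]

end Pool.Agent.H2.TI
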