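import Pool.Agent.H2.TI.IShift
import Pool.Agent.H2.TI.ITw
import Pool.Agent.H2.TI.NHyp

/-!
# The embedded reduction along the isotopy (module IEmb)

PROOFS.
* `fa'_sig`: this is proved inside `fn_right` (`SStrB.lean`): `sigN V (FN' V R Pr b A Ri z) = Ri (sigN V z)`, for the shifted data
  (`str0_shift`): copy the computation of `hsig` with the private lemma `SStrB_inner`. Or: apply `fn_sig` to `FA' a z`:
  `sigN V (FA a (FA' a z)) = (R (b^a (σ (FA' a z))) (FA' a z).1, ρ^a (σ (FA' a z)))`, the left side is `sigN V z` (`right`), and `RinvN.inv` at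
  `σ (FA' a z)` gives `σ (FA' a z) = Ri^a (sigN V z)`.
* `emb_fa'`: let `T = {z | z.1 ∈ N ∧ z.2 = s • g z.1}`, `g = gr Pr w` smooth, `T ⊆ TN N`, `b^a, ρ^a, Ri^a` the shifted data,
  `κ x = (R (b^a x) x.1, ρ^a x)`, smooth, `κ (Ri^a y) = y` for `y.1 ∈ N` (`RinvN.base`, `RinvN.rho`).
  `inj`: `z = FA' a y`, `z' = FA' a y'`, `y, y' ∈ T`, `z.1 = z'.1` and equal second coordinates: `sigN V z = sigN V z'`, so (apply `κ`, `fa'_sig`)
  `sigN V y = sigN V y'`, `y.1 = y'.1`, `y = y'`.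
  `imm`: let `γ` be a curve in `FA' a '' T`, `γ 0 = FA' a y₀`, velocity `(0, β)`, `⟪β, V (γ 0).1⟫ = 0`. `sigN V ∘ γ` has velocity
  `(0, ⟪β, V⟫ + ⟪(γ 0).2, DV 0⟫) = 0` (`sigN_fderiv` in NHyp). For small `t` (and `t = 0`), `γ t = FA' a y`, `y ∈ T`,
  `y = (y.1, s • g y.1)`, `y.1 = (κ (sigN V (γ t))).1`. So `γ t = FA' a ((κ (sigN V (γ t))).1, s • g (κ (sigN V (γ t))).1)` near `0`: a smooth
  function of `sigN V (γ t)`, so its velocity is `0`: `β = 0`.
-/

set_option autoImplicit false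

open scoped ContDiff Topology RealInnerProductSpace
open Set Filter

namespace Pool.Agent.H2.TI

open Pool.Agent.H57.NL Pool.Agent.H2.TG

variable {m n : ℕ} {N : Set (E m)} {V : E m → E m} {R : ℝ → E m → E m} {Θ : E m × ℝ → ℝ}
  {M' : ℝ} {Ψ : ℝ → E m × ℝ → E m × ℝ} {b A ρ : E m × ℝ → ℝ} {Ri : E m × ℝ → E m × ℝ}
  {Pr : E m → (E m →L[ℝ] E m)}

theorem fa'_sig (h : Str0 n N V R Θ M' Ψ b A ρ Ri Pr) (a : ℝ) {z : E m × E m} (hz : z ∈ TN N) :
    sigN V (FA' V R Pr b A Ri a z) = shRi a Ri (sigN V z) := by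
  have h' := str0_shift h a
  have hF' : FA' V R Pr b A Ri a z ∈ TN N := fn'_maps h'.proj h'.rinv hz
  have hr : FA V R Pr b A ρ a (FA' V R Pr b A Ri a z) = z :=
    fn_right h'.base h'.rho h'.proj h'.rinv hz
  have h1 : sigN V (FA V R Pr b A ρ a (FA' V R Pr b A Ri a z)) =
      (R (shb a b (sigN V (FA' V R Pr b A Ri a z))) (FA' V R Pr b A Ri a z).1,
        shr a ρ (sigN V (FA' V R Pr b A Ri a z))) :=
    fn_sig h'.base h'.rho h'.proj hF'
  rw [hr] at h1
  have h2 := h'.rinv.inv (sigN V (FA' V R Pr b A Ri a z)) hF'.1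
  have h3 : (sigN V (FA' V R Pr b A Ri a z)).1 = (FA' V R Pr b A Ri a z).1 := rfl
  rw [h3, ← h1] at h2
  exact h2.symm

/-- The reduced map of the shifted data. -/
private noncomputable def iek (R : ℝ → E m → E m) (b ρ : E m × ℝ → ℝ) (a : ℝ) (x : E m × ℝ) :
    E m × ℝ := (R (shb a b x) x.1, shr a ρ x)

private theorem iek_smooth (h : Str0 n N V R Θ M' Ψ b A ρ Ri Pr) (a : ℝ) :
    ContDiff ℝ ∞ (iek R b ρ a) := by
  have h' := str0_shift h a
  have h1 : ContDiff ℝ ∞ (fun x : E m × ℝ => R (shb a b x) x.1) :=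
    h'.base.flow.smooth.comp (h'.rho.act.smoothb.prodMk contDiff_fst)
  exact h1.prodMk h'.rho.smooth

private theorem iek_inv (h : Str0 n N V R Θ M' Ψ b A ρ Ri Pr) (a : ℝ) {z : E m × E m}
    (hz : z ∈ TN N) : iek R b ρ a (sigN V (FA' V R Pr b A Ri a z)) = sigN V z := by
  have h' := str0_shift h a
  rw [fa'_sig h a hz]
  exact Prod.ext (h'.rinv.base (sigN V z) hz.1) (h'.rinv.rho (sigN V z) hz.1)

theorem emb_fa' (h : Str0 n N V R Θ M' Ψ b A ρ Ri Pr) {w : E m → ℝ} (hw : ContDiff ℝ ∞ w)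
    (a s : ℝ) :
    EmbN V (FA' V R Pr b A Ri a '' {z | z.1 ∈ N ∧ z.2 = s • gr Pr w z.1}) := by
  have h' := str0_shift h a
  have hTN : ∀ z : E m × E m, z.1 ∈ N → z.2 = s • gr Pr w z.1 → z ∈ TN N := by
    intro z h1 h2
    refine ⟨h1, ?_⟩
    rw [h2]
    exact Tan.smul (h.proj.mem z.1 h1 _) s
  constructor
  · rintro z ⟨y, ⟨hy1, hy2⟩, rfl⟩ z' ⟨y', ⟨hy1', hy2'⟩, rfl⟩ he1 he2
    have h1 : sigN V (FA' V R Pr b A Ri a y) = sigN V (FA' V R Pr b A Ri a y') :=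
      Prod.ext he1 he2
    have h2 := iek_inv h a (hTN y hy1 hy2)
    rw [h1, iek_inv h a (hTN y' hy1' hy2')] at h2
    have h3 : y'.1 = y.1 := congrArg (Prod.fst : E m × ℝ → E m) h2
    have h4 : y = y' := by
      refine Prod.ext h3.symm ?_
      rw [hy2, hy2', h3]
    rw [h4]
  · rintro z - β ⟨γ, hγ0, hγS, hγd⟩ hβ
    have hs : ContDiff ℝ ∞ (FA' V R Pr b A Ri a) := (fa_str h a).smooth'
    have hk : ContDiff ℝ ∞ (fun x : E m × ℝ => (iek R b ρ a x).1) := (iek_smooth h a).fst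
    have hg : ContDiff ℝ ∞ (fun x : E m × ℝ => gr Pr w (iek R b ρ a x).1) :=
      (gr_smooth h.proj hw).comp hk
    have hsg : ContDiff ℝ ∞ (fun x : E m × ℝ => s • gr Pr w (iek R b ρ a x).1) := hg.const_smul s
    have hG : ContDiff ℝ ∞ (fun x : E m × ℝ =>
        FA' V R Pr b A Ri a ((iek R b ρ a x).1, s • gr Pr w (iek R b ρ a x).1)) :=
      hs.comp (hk.prodMk hsg)
    have hσ : HasDerivAt (fun t => sigN V (γ t)) 0 0 := by
      have h1 : HasFDerivAt (sigN V) (fderiv ℝ (sigN V) (γ 0)) (γ 0) :=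
        (((sigN_contDiff h.base.smooth).differentiable (by simp)) _).hasFDerivAt
      have h2 := h1.comp_hasDerivAt (0 : ℝ) hγd
      rw [sigN_fderiv h.base.smooth, hγ0] at h2
      simp only [map_zero, inner_zero_right, add_zero] at h2
      rw [hβ] at h2
      exact h2
    have hGd : HasDerivAt (fun t => FA' V R Pr b A Ri a ((iek R b ρ a (sigN V (γ t))).1,
        s • gr Pr w (iek R b ρ a (sigN V (γ t))).1)) 0 0 := by
      have h1 := ((hG.differentiable (by simp)) (sigN V (γ 0))).hasFDerivAt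
      have h2 := h1.comp_hasDerivAt (0 : ℝ) hσ
      rw [map_zero] at h2
      exact h2
    have heq : γ =ᶠ[𝓝 (0 : ℝ)] (fun t => FA' V R Pr b A Ri a ((iek R b ρ a (sigN V (γ t))).1,
        s • gr Pr w (iek R b ρ a (sigN V (γ t))).1)) := by
      filter_upwards [hγS] with t ht
      obtain ⟨y, ⟨hy1, hy2⟩, hyt⟩ := ht
      have h2 := iek_inv h a (hTN y hy1 hy2)
      rw [hyt] at h2
      have h3 : (iek R b ρ a (sigN V (γ t))).1 = y.1 := congrArg Prod.fst h2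
      rw [h3, ← hyt]
      have h4 : (y.1, s • gr Pr w y.1) = y := Prod.ext rfl hy2.symm
      rw [h4]
    have h5 := hGd.congr_of_eventuallyEq heq
    have h6 := hγd.unique h5
    exact congrArg Prod.snd h6

end Pool.Agent.H2.TI
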