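import Pool.Agent.H2.TI.NDefs
import Pool.Agent.H2.TG.Flow
import Pool.Agent.H57.NL.Slice

/-!
# The flow of a tangent vector field preserves `N` (module NBase)

PROOFS.
* `exists_base`. Let `χ : ℝ^m → [0, 1]` be a smooth bump function with compact support, `χ = 1` on a ball containing
  `N` (`ContDiffBump`), `V' = χ • V`: smooth, compact support, so bounded; `V' = V` on `N`. Flow `R`: `exists_isFlow`.
  `maps`: fix `q ∈ N`. The set `T = {t | R t q ∈ N}` is closed (`N` is closed), contains `0`. Open: let `R t₀ q = q₁ ∈ N`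
  and let `e`, `A` be a slice chart at `q₁` (`IsSubmfd.slice`). Choose a continuous linear map `π : E m → E m` with
  kernel `A` (projection along a complement; finite dimension). On a small closed ball `B` around `e q₁` inside
  `e.target` the field `Y y = De (V' (e.symm y))` (pushed forward field, `De` at `e.symm y`) is Lipschitz (it is
  `C^1` on a neighbourhood) and for `y ∈ A ∩ B` it is in `A` (`V' ∈ Tan N`, `Slice.mem_tan`). Let `π_A : E m → A` be a
  projection; for `y ∈ B` (choose the norm or shrink `B` so that `π_A y ∈ B'`, a bigger ball with the same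
  properties): `‖π (Y y)‖ = ‖π (Y y - Y (π_A y))‖ ≤ K ‖y - π_A y‖ ≤ K' ‖π y‖`. So `g t = π (e (R t q))` satisfies
  `‖g'‖ ≤ K' ‖g‖` near `t₀` and `g t₀ = 0`: `g = 0` near `t₀` (Gronwall, `norm_le_gronwallBound_of_norm_deriv_right_le`,
  in both time directions), i.e. `e (R t q) ∈ A`, `R t q ∈ N`. So `T` is clopen, `T = ℝ`.
  (Alternative: solve `y' = Y y` inside `A` by Picard-Lindelöf and use uniqueness.)
* `reparam`: both `γ` and `t ↦ R (∫_0^t k) (γ 0)` solve `y' = k t • V y`, with the same value at `0`; `k` is bounded and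
  `V` Lipschitz on compact balls: `ODE_solution_unique_of_mem_Icc` (or `..._Ioo`) on every `[-t₁, t₁]`, `t₁ < ε`.
* `R_add`, `R_deriv`: `IsFlow.add`, `IsFlow.deriv`.
-/

set_option autoImplicit false

open scoped ContDiff Topology RealInnerProductSpace
open Set Filter

namespace Pool.Agent.H2.TI

open Pool.Agent.H57.NL Pool.Agent.H2.TG

variable {m n : ℕ} {N : Set (E m)} {V : E m → E m} {R : ℝ → E m → E m}

private theorem nbase_local (hN : IsSubmfd n N) (hX : ContDiff ℝ ∞ V) (hΦ : IsFlow V R)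
    (ht : ∀ q ∈ N, V q ∈ Tan N q) {q : E m} (hq : q ∈ N) :
    ∃ ε : ℝ, 0 < ε ∧ ∀ t, |t| < ε → R t q ∈ N := by
  obtain ⟨e, A, hqe, hs⟩ := hN.slice hq
  let P : E m →L[ℝ] A := A.orthogonalProjectionOnto
  have hP : ∀ x : E m, x ∈ A → (P x : E m) = x := by
    intro x hx
    exact congrArg Subtype.val
      (Submodule.orthogonalProjectionOnto_mem_subspace_eq_self (K := A) ⟨x, hx⟩)
  have ha0 : e q ∈ A := (hs.iff _ hqe).1 hq
  set a0 : A := ⟨e q, ha0⟩ with ha0d
  have ha0v : (a0 : E m) = e q := rfl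
  have hsymm0 : e.symm (a0 : E m) = q := e.left_inv hqe
  let Y : A → A := fun a => P (fderiv ℝ e (e.symm (a : E m)) (V (e.symm (a : E m))))
  have hYs : ContDiffAt ℝ 1 Y a0 := by
    have h3 : ContDiffAt ℝ ∞ (fun a : A => (a : E m)) a0 := A.subtypeL.contDiff.contDiffAt
    have h4 : ContDiffAt ℝ ∞ (fun a : A => e.symm (a : E m)) a0 :=
      (hs.cd' (e.map_source hqe)).comp a0 h3
    have h5 : ContDiffAt ℝ ∞ (fderiv ℝ e) (e.symm (a0 : E m)) := by
      rw [hsymm0]
      exact (hs.cd hqe).fderiv_right (m := ∞) (by simp)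
    have h6 : ContDiffAt ℝ ∞ (fun a : A => fderiv ℝ e (e.symm (a : E m))) a0 := h5.comp a0 h4
    have h7 : ContDiffAt ℝ ∞ (fun a : A => V (e.symm (a : E m))) a0 :=
      hX.contDiffAt.comp a0 h4
    have h8 := h6.clm_apply h7
    exact (P.contDiff.contDiffAt.comp a0 h8).of_le (by exact_mod_cast le_top)
  obtain ⟨α, hα0, ε, hε, hα⟩ :=
    hYs.exists_forall_mem_closedBall_exists_eq_forall_mem_Ioo_hasDerivAt₀ 0
  simp only [zero_sub, zero_add] at hα
  have hcont : ContinuousAt α 0 := (hα 0 ⟨by linarith, hε⟩).continuousAt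
  have hcont' : ContinuousAt (fun t => (α t : E m)) 0 :=
    continuous_subtype_val.continuousAt.comp hcont
  have hev : ∀ᶠ t in 𝓝 (0 : ℝ), (α t : E m) ∈ e.target := by
    refine hcont'.eventually_mem ?_
    rw [hα0]
    exact e.open_target.mem_nhds (e.map_source hqe)
  obtain ⟨δ, hδ, hW⟩ := Metric.eventually_nhds_iff.mp hev
  have htar : ∀ t, |t| < min ε δ → (α t : E m) ∈ e.target := fun t ht =>
    hW (by simpa [Real.dist_eq] using lt_of_lt_of_le ht (min_le_right _ _))
  have hmem : ∀ t, |t| < min ε δ → e.symm (α t : E m) ∈ N := by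
    intro t ht
    rw [hs.iff _ (e.map_target (htar t ht)), e.right_inv (htar t ht)]
    exact (α t).2
  have hder : ∀ t, |t| < min ε δ →
      HasDerivAt (fun t => e.symm (α t : E m)) (V (e.symm (α t : E m))) t := by
    intro t ht'
    have h1 : HasDerivAt α (Y (α t)) t := hα t (abs_lt.mp (lt_of_lt_of_le ht' (min_le_left _ _)))
    have h2 : HasDerivAt (fun t => (α t : E m)) (Y (α t) : E m) t :=
      A.subtypeL.hasFDerivAt.comp_hasDerivAt t h1
    have h3 := (hs.hd' (htar t ht')).comp_hasDerivAt t h2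
    set x := e.symm (α t : E m) with hx
    have hxs : x ∈ e.source := e.map_target (htar t ht')
    have hex : e x = (α t : E m) := e.right_inv (htar t ht')
    have h4 : fderiv ℝ e x (V x) ∈ A := (hs.mem_tan hxs (hmem t ht') _).1 (ht _ (hmem t ht'))
    have h5 : (Y (α t) : E m) = fderiv ℝ e x (V x) := hP _ h4
    rw [h5, ← hex, hs.left hxs] at h3
    exact h3
  refine ⟨min ε δ, lt_min hε hδ, fun t ht' => ?_⟩
  have h1 := hΦ.unique_on hX (γ := fun t => e.symm (α t : E m)) (ε := |t|)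
    (fun s hs' => hder s (lt_of_le_of_lt hs' ht')) t le_rfl
  simp only [hα0, hsymm0] at h1
  rw [← h1]
  exact hmem t ht'

private theorem nbase_maps (hN : IsSubmfd n N) (hc : IsClosed N) (hX : ContDiff ℝ ∞ V)
    (hΦ : IsFlow V R) (ht : ∀ q ∈ N, V q ∈ Tan N q) {q : E m} (hq : q ∈ N) (t : ℝ) :
    R t q ∈ N := by
  have hcont : Continuous (fun t => R t q) :=
    continuous_iff_continuousAt.mpr fun t => (hΦ.deriv q t).continuousAt
  have hclopen : IsClopen {t | R t q ∈ N} := by
    refine ⟨hc.preimage hcont, ?_⟩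
    rw [Metric.isOpen_iff]
    intro t₀ ht₀
    obtain ⟨ε, hε, H⟩ := nbase_local hN hX hΦ ht ht₀
    refine ⟨ε, hε, fun t ht' => ?_⟩
    have h1 := H (t - t₀) (by rwa [Metric.mem_ball, Real.dist_eq] at ht')
    rw [hΦ.add hX, sub_add_cancel] at h1
    exact h1
  have huniv := hclopen.eq_univ ⟨0, by
    change R 0 q ∈ N
    rw [hΦ.zero]
    exact hq⟩
  have : t ∈ {t | R t q ∈ N} := by
    rw [huniv]
    trivial
  exact this

theorem exists_base (hN : IsSubmfd n N) (hc : IsCompact N) (hn : IsConnected N)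
    (hV : ContDiff ℝ ∞ V) (ht : ∀ q ∈ N, V q ∈ Tan N q) :
    ∃ (V' : E m → E m) (R : ℝ → E m → E m), Base n N V' R ∧ ∀ q ∈ N, V' q = V q := by
  obtain ⟨r, hr⟩ := hc.isBounded.subset_closedBall 0
  let χ : ContDiffBump (0 : E m) := ⟨max r 1, max r 1 + 1, by positivity, by linarith⟩
  have heq : ∀ q ∈ N, χ q • V q = V q := by
    intro q hq
    have h1 : q ∈ Metric.closedBall (0 : E m) (max r 1) :=
      Metric.closedBall_subset_closedBall (le_max_left r 1) (hr hq)
    rw [χ.one_of_mem_closedBall h1, one_smul]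
  have hV' : ContDiff ℝ ∞ (fun x => χ x • V x) := χ.contDiff.smul hV
  have hcs : HasCompactSupport (fun x => χ x • V x) := χ.hasCompactSupport.smul_right
  obtain ⟨K, hK⟩ := hcs.exists_bound_of_continuous hV'.continuous
  obtain ⟨R, hR⟩ := exists_isFlow hV' hK
  have ht' : ∀ q ∈ N, χ q • V q ∈ Tan N q := fun q hq => by
    rw [heq q hq]
    exact ht q hq
  exact ⟨fun x => χ x • V x, R, ⟨hN, hc, hn, hV', ⟨K, hK⟩, ht', hR,
    fun q hq t => nbase_maps hN hc.isClosed hV' hR ht' hq t⟩, heq⟩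

theorem reparam (hB : Base n N V R) {γ : ℝ → E m} {k : ℝ → ℝ} {ε : ℝ}
    (hk : ContinuousOn k (Ioo (-ε) ε)) (hγ : ∀ t, |t| < ε → HasDerivAt γ (k t • V (γ t)) t) {t : ℝ}
    (ht : |t| < ε) : γ t = R (∫ u in (0 : ℝ)..t, k u) (γ 0) := by
  have hε : 0 < ε := lt_of_le_of_lt (abs_nonneg t) ht
  set κ : ℝ → ℝ := fun s => ∫ u in (0 : ℝ)..s, k u with hκ
  have hκd : ∀ s, |s| < ε → HasDerivAt κ (k s) s := by
    intro s hs
    have hs' : s ∈ Ioo (-ε) ε := abs_lt.mp hs
    have hsub : uIcc 0 s ⊆ Ioo (-ε) ε := by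
      intro x hx
      rw [mem_uIcc] at hx
      rcases hx with ⟨h1, h2⟩ | ⟨h1, h2⟩
      · exact ⟨by linarith, by linarith [hs'.2]⟩
      · exact ⟨by linarith [hs'.1], by linarith⟩
    refine intervalIntegral.integral_hasDerivAt_right ((hk.mono hsub).intervalIntegrable) ?_
      (hk.continuousAt (isOpen_Ioo.mem_nhds hs'))
    exact hk.stronglyMeasurableAtFilter isOpen_Ioo s hs'
  have hd : ∀ s, |s| < ε → HasDerivAt (fun s => R (-κ s) (γ s)) 0 s := by
    intro s hs
    have h1 : HasDerivAt (fun s => ((-κ s, γ s) : ℝ × E m)) (-k s, k s • V (γ s)) s :=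
      (hκd s hs).neg.prodMk (hγ s hs)
    have hdiff : DifferentiableAt ℝ (fun y : ℝ × E m => R y.1 y.2) (-κ s, γ s) :=
      (hB.flow.smooth.differentiable (by simp)) _
    have h2 := hdiff.hasFDerivAt.comp_hasDerivAt s h1
    have h3 : fderiv ℝ (fun y : ℝ × E m => R y.1 y.2) (-κ s, γ s) (1, 0)
        = V (R (-κ s) (γ s)) := by
      have h4 : HasDerivAt (fun u : ℝ => ((u, γ s) : ℝ × E m)) (1, 0) (-κ s) :=
        (hasDerivAt_id _).prodMk (hasDerivAt_const _ _)
      have h5 := HasFDerivAt.comp_hasDerivAt (-κ s) (f := fun u : ℝ => ((u, γ s) : ℝ × E m))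
        hdiff.hasFDerivAt h4
      exact h5.unique (hB.flow.deriv (γ s) (-κ s))
    have h6 : fderiv ℝ (fun y : ℝ × E m => R y.1 y.2) (-κ s, γ s) (0, V (γ s))
        = V (R (-κ s) (γ s)) := by
      have h4 : HasFDerivAt (fun y : E m => ((-κ s, y) : ℝ × E m))
          (ContinuousLinearMap.inr ℝ ℝ (E m)) (γ s) := hasFDerivAt_prodMk_right _ _
      have h5 := HasFDerivAt.comp (γ s) (f := fun y : E m => ((-κ s, y) : ℝ × E m))
        hdiff.hasFDerivAt h4
      have h7 := congrArg (fun L : E m →L[ℝ] E m => L (V (γ s))) h5.fderiv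
      simp only [ContinuousLinearMap.comp_apply, ContinuousLinearMap.inr_apply] at h7
      rw [← h7]
      exact hB.flow.fderiv_X hB.smooth (-κ s) (γ s)
    have h8 : ((-k s, k s • V (γ s)) : ℝ × E m)
        = (-k s) • ((1, 0) : ℝ × E m) + k s • ((0, V (γ s)) : ℝ × E m) := by
      ext i <;> simp
    rw [h8, map_add, map_smul, map_smul, h3, h6] at h2
    have h9 : -k s • V (R (-κ s) (γ s)) + k s • V (R (-κ s) (γ s)) = 0 := by
      rw [neg_smul, neg_add_cancel]
    rw [h9] at h2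
    exact h2
  have hconst := isOpen_Ioo.is_const_of_deriv_eq_zero (f := fun s => R (-κ s) (γ s))
    (isPreconnected_Ioo (a := -ε) (b := ε))
    (fun s hs => (hd s (abs_lt.mpr hs)).differentiableAt.differentiableWithinAt)
    (fun s hs => (hd s (abs_lt.mpr hs)).deriv) (abs_lt.mp ht)
    (show (0 : ℝ) ∈ Ioo (-ε) ε from ⟨by linarith, hε⟩)
  have hκ0 : κ 0 = 0 := by
    rw [hκ]
    simp
  simp only [hκ0, neg_zero, hB.flow.zero] at hconst
  rw [← hconst, hB.flow.add hB.smooth, add_neg_cancel, hB.flow.zero]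

theorem R_add (hB : Base n N V R) (s t : ℝ) (q : E m) : R s (R t q) = R (s + t) q :=
  hB.flow.add hB.smooth s t q

theorem R_zero (hB : Base n N V R) (q : E m) : R 0 q = q := hB.flow.zero q

theorem R_mem_iff (hB : Base n N V R) (t : ℝ) (q : E m) : R t q ∈ N ↔ q ∈ N := by
  refine ⟨fun h => ?_, fun h => hB.maps q h t⟩
  have h1 := hB.maps _ h (-t)
  rwa [R_add hB, neg_add_cancel, R_zero hB] at h1

end Pool.Agent.H2.TI
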