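import Pool.Agent.H2.TI.IDefs
import Pool.Agent.H2.TI.NBase

/-!
# Integrals with parameters (module IInt)

PROOF. As `sact_int` in `SAct.lean`: the field `(s, x, g) ↦ (1, 0, f (s, x))` on `(ℝ × X) × ℝ` is smooth and bounded; flow by
`exists_isFlow`; its first two components are `(s + t, x)`; `I t x` is the last component at time `t`, starting at `((0, x), 0)`.
-/

set_option autoImplicit false

open scoped ContDiff Topology RealInnerProductSpace
open Set Filter

namespace Pool.Agent.H2.TI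

open Pool.Agent.H57.NL Pool.Agent.H2.TG

theorem exists_int {X : Type} [NormedAddCommGroup X] [NormedSpace ℝ X] [FiniteDimensional ℝ X]
    {f : ℝ × X → ℝ} (hf : ContDiff ℝ ∞ f) {C : ℝ} (hC : ∀ x, |f x| ≤ C) :
    ∃ I : ℝ → X → ℝ, (ContDiff ℝ ∞ fun y : ℝ × X => I y.1 y.2) ∧ (∀ x, I 0 x = 0) ∧
      ∀ t x, HasDerivAt (fun t => I t x) (f (t, x)) t := by
  set Y : (ℝ × X) × ℝ → (ℝ × X) × ℝ := fun y => ((1, 0), f y.1) with hY
  have hYs : ContDiff ℝ ∞ Y := contDiff_const.prodMk (hf.comp contDiff_fst)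
  obtain ⟨Φ, hΦ⟩ := exists_isFlow hYs (K := max 1 C) (by
    intro y
    rw [Prod.norm_def]
    refine max_le_max ?_ ?_
    · show ‖((1 : ℝ), (0 : X))‖ ≤ 1
      rw [Prod.norm_def]
      simp
    · show ‖f y.1‖ ≤ C
      rw [Real.norm_eq_abs]
      exact hC _)
  have hfst : ∀ (x : X) (t : ℝ), (Φ t ((0, x), 0)).1 = (t, x) := by
    intro x t
    have h1 : ∀ t, HasDerivAt (fun t => (Φ t ((0, x), 0)).1 - ((t, x) : ℝ × X)) 0 t := by
      intro t
      have h2 : HasDerivAt (fun t => (Φ t ((0, x), 0)).1) (Y (Φ t ((0, x), 0))).1 t :=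
        (ContinuousLinearMap.fst ℝ (ℝ × X) ℝ).hasFDerivAt.comp_hasDerivAt t (hΦ.deriv _ t)
      have h3 : HasDerivAt (fun t : ℝ => ((t, x) : ℝ × X)) ((1, 0) : ℝ × X) t :=
        (hasDerivAt_id t).prodMk (hasDerivAt_const t x)
      have h4 := h2.sub h3
      have h5 : (Y (Φ t ((0, x), 0))).1 - ((1, 0) : ℝ × X) = 0 := by
        rw [hY]
        simp
      rw [h5] at h4
      exact h4
    have h2 := is_const_of_deriv_eq_zero (fun t => (h1 t).differentiableAt)
      (fun t => (h1 t).deriv) t 0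
    simp only [hΦ.zero, sub_self] at h2
    exact sub_eq_zero.mp h2
  refine ⟨fun t x => (Φ t ((0, x), 0)).2, ?_, ?_, ?_⟩
  · exact contDiff_snd.comp (hΦ.smooth.comp
      (contDiff_fst.prodMk ((contDiff_const.prodMk contDiff_snd).prodMk contDiff_const)))
  · intro x
    simp only [hΦ.zero]
  · intro t x
    have h1 : HasDerivAt (fun t => (Φ t ((0, x), 0)).2) (Y (Φ t ((0, x), 0))).2 t :=
      (ContinuousLinearMap.snd ℝ (ℝ × X) ℝ).hasFDerivAt.comp_hasDerivAt t (hΦ.deriv _ t)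
    have h2 : (Y (Φ t ((0, x), 0))).2 = f (t, x) := by
      rw [hY]
      simp only
      rw [hfst]
    rw [h2] at h1
    exact h1

end Pool.Agent.H2.TI
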