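import Pool.Agent.H2.TI.IFlow
import Pool.Agent.H2.TI.IInt
import Pool.Agent.H2.TI.ICore

/-!
# The flow of a Hamiltonian is exact (module IEx)

PROOF. `Ẏ s z = deriv (fun s => Φ s z) s = XH Pr (K s) (Φ s z)` (`CFlow.deriv`). Let
`L (s, z) = ⟪(Φ s z).2, (XH Pr (K s) (Φ s z)).1⟫ - K s (Φ s z)`: smooth, and bounded: the function
`(s, y) ↦ ⟪y.2, (XH Pr (K s) y).1⟫ - K s y` is continuous and vanishes unless `|s| ≤ 2` and `‖y‖ ≤ r` (`xh_zero`, as in `exists_cflow`).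
`G` from `exists_int`: `Ġ s z = L (s, z)`, `G 0 z = 0`. Then `fun z => ⟪(Φ s z).2, (Ẏ s z).1⟫ - Ġ s z` is `fun z => K s (Φ s z)`, so by `icore` the
function `E s = ⟪(Φ s z).2, (D(Φ s)(z) ζ).1⟫ - D(G s)(z) ζ` has the derivative `om (XH …) (DΦ ζ) + D(K s)(Φ s z)(DΦ ζ)`, which is `0` by
`xh_om` for `z ∈ TN N`, `ζ ∈ Tan (TN N) z` (`DΦ ζ ∈ Tan (TN N) (Φ s z)` by `Tan.map` and `maps`). So `E s = E 0 = ⟪z.2, ζ.1⟫` (`Φ 0 = id`, so
`fderiv = id`; `G 0 = 0`).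
-/

set_option autoImplicit false

open scoped ContDiff Topology RealInnerProductSpace
open Set Filter

namespace Pool.Agent.H2.TI

open Pool.Agent.H57.NL Pool.Agent.H2.TG

variable {m n : ℕ} {N : Set (E m)} {Pr : E m → (E m →L[ℝ] E m)} {K : ℝ → E m × E m → ℝ} {r : ℝ}
  {Φ Φ' : ℝ → E m × E m → E m × E m}

private noncomputable def iex_f (Pr : E m → (E m →L[ℝ] E m)) (K : ℝ → E m × E m → ℝ)
    (x : ℝ × (E m × E m)) : ℝ :=
  ⟪x.2.2, (XH Pr (K x.1) x.2).1⟫ - K x.1 x.2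

private theorem iex_smooth (hPr : ProjN N Pr)
    (hK : ContDiff ℝ ∞ fun x : ℝ × (E m × E m) => K x.1 x.2) : ContDiff ℝ ∞ (iex_f Pr K) := by
  have h1 := xh_smooth hPr hK
  have h2 : ContDiff ℝ ∞ fun x : ℝ × (E m × E m) => (XH Pr (K x.1) x.2).1 := contDiff_fst.comp h1
  have h3 : ContDiff ℝ ∞ fun x : ℝ × (E m × E m) => x.2.2 := contDiff_snd.comp contDiff_snd
  exact (h3.inner ℝ h2).sub hK

private theorem iex_zero (hs : ∀ s z, 2 ≤ |s| ∨ r ≤ ‖z‖ → K s z = 0) (s : ℝ) (z : E m × E m)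
    (h : 2 ≤ |s| ∨ r < ‖z‖) : iex_f Pr K (s, z) = 0 := by
  have h0 : K s z = 0 := hs s z (h.imp id le_of_lt)
  have h1 : fderiv ℝ (K s) z = 0 := by
    have h2 : K s =ᶠ[𝓝 z] fun _ => (0 : ℝ) := by
      rcases h with h | h
      · exact Eventually.of_forall fun y => hs s y (Or.inl h)
      · have h3 : ∀ᶠ y in 𝓝 z, r < ‖y‖ := continuous_norm.continuousAt.eventually (lt_mem_nhds h)
        filter_upwards [h3] with y hy
        exact hs s y (Or.inr hy.le)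
    rw [h2.fderiv_eq]
    simp
  show ⟪z.2, (XH Pr (K s) z).1⟫ - K s z = 0
  rw [xh_zero h1, h0]
  simp

private theorem iex_bdd (hPr : ProjN N Pr)
    (hK : ContDiff ℝ ∞ fun x : ℝ × (E m × E m) => K x.1 x.2)
    (hs : ∀ s z, 2 ≤ |s| ∨ r ≤ ‖z‖ → K s z = 0) : ∃ C : ℝ, ∀ x, |iex_f Pr K x| ≤ C := by
  have hc : HasCompactSupport (iex_f Pr K) := by
    refine HasCompactSupport.intro
      (K := Icc (-2 : ℝ) 2 ×ˢ Metric.closedBall (0 : E m × E m) r)
      (isCompact_Icc.prod (isCompact_closedBall _ _)) ?_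
    rintro ⟨s, z⟩ hx
    apply iex_zero hs
    by_contra hcon
    push Not at hcon
    apply hx
    refine ⟨?_, ?_⟩
    · exact abs_le.1 hcon.1.le
    · rw [mem_closedBall_zero_iff]
      exact hcon.2
  obtain ⟨C, hC⟩ := hc.exists_bound_of_continuous (iex_smooth hPr hK).continuous
  exact ⟨C, fun x => hC x⟩

theorem ex_of_cflow (hN : IsSubmfd n N) (hPr : ProjN N Pr)
    (hK : ContDiff ℝ ∞ fun x : ℝ × (E m × E m) => K x.1 x.2)
    (hs : ∀ s z, 2 ≤ |s| ∨ r ≤ ‖z‖ → K s z = 0) (h : CFlow N Pr K r Φ Φ') :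
    ∃ G, ExIso N Φ Φ' G := by
  obtain ⟨C, hC⟩ := iex_bdd hPr hK hs
  have hFs := iex_smooth hPr hK
  have hfs : ContDiff ℝ ∞ fun x : ℝ × (E m × E m) => iex_f Pr K (x.1, Φ x.1 x.2) :=
    hFs.comp (contDiff_fst.prodMk h.smooth)
  obtain ⟨G, hGs, hG0, hGd⟩ := exists_int (X := E m × E m)
    (f := fun x : ℝ × (E m × E m) => iex_f Pr K (x.1, Φ x.1 x.2)) hfs (C := C) (fun x => hC _)
  refine ⟨G, ⟨h.smooth, h.smooth', hGs, h.maps, h.maps', fun s z _ => h.left s z,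
    fun s z _ => h.right s z, ?_⟩⟩
  intro s z hz ζ hζ
  have hdΦ : ∀ s, Differentiable ℝ (Φ s) := by
    intro s
    have h1 : ContDiff ℝ ∞ (Φ s) := h.smooth.comp (contDiff_const.prodMk contDiff_id)
    exact h1.differentiable (by simp)
  have hdK : ∀ s, Differentiable ℝ (K s) := by
    intro s
    have h1 : ContDiff ℝ ∞ (K s) := hK.comp (contDiff_const.prodMk contDiff_id)
    exact h1.differentiable (by simp)
  have key : ∀ s, HasDerivAt (fun s => ⟪(Φ s z).2, (fderiv ℝ (Φ s) z ζ).1⟫ - fderiv ℝ (G s) z ζ)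
      0 s := by
    intro s
    have h1 := icore h.smooth hGs s z ζ
    have h2 : (fun z => ⟪(Φ s z).2, (deriv (fun s => Φ s z) s).1⟫ - deriv (fun s => G s z) s)
        = fun z => K s (Φ s z) := by
      funext y
      rw [(h.deriv s y).deriv, (hGd s y).deriv]
      show ⟪(Φ s y).2, (XH Pr (K s) (Φ s y)).1⟫
        - (⟪(Φ s y).2, (XH Pr (K s) (Φ s y)).1⟫ - K s (Φ s y)) = K s (Φ s y)
      ring
    have h3 : fderiv ℝ (fun z => K s (Φ s z)) z ζ
        = fderiv ℝ (K s) (Φ s z) (fderiv ℝ (Φ s) z ζ) := by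
      have h4 : HasFDerivAt (fun z => K s (Φ s z))
          ((fderiv ℝ (K s) (Φ s z)).comp (fderiv ℝ (Φ s) z)) z :=
        ((hdK s (Φ s z)).hasFDerivAt).comp z ((hdΦ s z).hasFDerivAt)
      rw [h4.fderiv]
      rfl
    have h5 : fderiv ℝ (Φ s) z ζ ∈ Tan (TN N) (Φ s z) :=
      Tan.map hζ (hdΦ s z).hasFDerivAt (Eventually.of_forall fun y hy => h.maps s y hy)
    have h6 := xh_om hN hPr (K s) (h.maps s z hz) h5
    rw [h2, h3, (h.deriv s z).deriv, h6, neg_add_cancel] at h1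
    exact h1
  have hconst := is_const_of_deriv_eq_zero (fun s => (key s).differentiableAt)
    (fun s => (key s).deriv) s 0
  have hΦ0 : Φ 0 = fun z => z := funext h.zero
  have hG0' : G 0 = fun _ => 0 := funext hG0
  have h7 : fderiv ℝ (Φ 0) z ζ = ζ := by
    rw [hΦ0]
    have h8 : HasFDerivAt (fun z : E m × E m => z) (ContinuousLinearMap.id ℝ (E m × E m)) z :=
      hasFDerivAt_id z
    rw [h8.fderiv]
    rfl
  have h8 : fderiv ℝ (G 0) z ζ = 0 := by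
    rw [hG0']
    simp
  simp only [h7, h8, h.zero z, sub_zero] at hconst
  linarith

end Pool.Agent.H2.TI
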