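import Pool.Agent.H2.TI.SStr

/-!
# Smoothness of the straightening (module SSmooth)

PROOFS. Compositions of smooth maps. `vec` is a continuous linear map (`InnerProductSpace.toDual` is a linear isometry
equivalence, for real scalars it is linear; finite dimensional). `sigN V` is smooth (`NHyp`), `d1 g` is smooth for smooth `g`
(`ContDiff.fderiv_right`, composition with `inl`). `z ↦ R (b (sigN V z)) z.1` is smooth (the flow is jointly smooth).
`(t, q) ↦ fderiv ℝ (R t) q` is smooth as a map to `E m →L[ℝ] E m`: `ContDiff.fderiv` for the jointly smooth `(t, q) ↦ R t q`. Operator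
composition and evaluation: `ContDiff.clm_comp`, `ContDiff.clm_apply`. `innerSL ℝ` is a continuous linear map.
-/

set_option autoImplicit false

open scoped ContDiff Topology RealInnerProductSpace
open Set Filter

namespace Pool.Agent.H2.TI

open Pool.Agent.H57.NL Pool.Agent.H2.TG

variable {m n : ℕ} {N : Set (E m)} {V : E m → E m} {R : ℝ → E m → E m} {Θ : E m × ℝ → ℝ}
  {M' : ℝ} {Ψ : ℝ → E m × ℝ → E m × ℝ} {b A ρ : E m × ℝ → ℝ} {Ri : E m × ℝ → E m × ℝ}
  {Pr : E m → (E m →L[ℝ] E m)}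

private theorem ssm_vec : ContDiff ℝ ∞ (fun l : E m →L[ℝ] ℝ => vec l) := by
  let L : (E m →L[ℝ] ℝ) →ₗ[ℝ] E m :=
    { toFun := fun l => vec l
      map_add' := fun l l' => by simp [vec]
      map_smul' := fun c l => by simp [vec] }
  exact (LinearMap.toContinuousLinearMap L).contDiff

private theorem ssm_d1 {g : E m × ℝ → ℝ} (hg : ContDiff ℝ ∞ g) : ContDiff ℝ ∞ (fun x => d1 g x) := by
  unfold d1
  exact (hg.fderiv_right (m := ∞) (by simp)).clm_comp contDiff_const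

private theorem ssm_fl (hB : Base n N V R) {X : Type} [NormedAddCommGroup X] [NormedSpace ℝ X]
    {τ : X → ℝ} {q : X → E m} (hτ : ContDiff ℝ ∞ τ) (hq : ContDiff ℝ ∞ q) :
    ContDiff ℝ ∞ (fun z => R (τ z) (q z)) :=
  hB.flow.smooth.comp (hτ.prodMk hq)

private theorem ssm_dfl (hB : Base n N V R) {X : Type} [NormedAddCommGroup X] [NormedSpace ℝ X]
    {τ : X → ℝ} {q : X → E m} (hτ : ContDiff ℝ ∞ τ) (hq : ContDiff ℝ ∞ q) :
    ContDiff ℝ ∞ (fun z => fderiv ℝ (R (τ z)) (q z)) := by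
  have h : ContDiff ℝ ∞ (Function.uncurry (fun z : X => R (τ z))) :=
    hB.flow.smooth.comp ((hτ.comp contDiff_fst).prodMk contDiff_snd)
  exact ContDiff.fderiv h hq (by simp)

private theorem ssm_inner {X : Type} [NormedAddCommGroup X] [NormedSpace ℝ X] {p : X → E m}
    (hp : ContDiff ℝ ∞ p) : ContDiff ℝ ∞ (fun z => innerSL ℝ (p z)) :=
  (innerSL ℝ (E := E m)).contDiff.comp hp

theorem fn_smooth (hB : Base n N V R) (hρ : RhoN N V Θ M' Ψ b A ρ) (hPr : ProjN N Pr) :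
    ContDiff ℝ ∞ (FN V R Pr b A ρ) := by
  have hσ : ContDiff ℝ ∞ (sigN V) := sigN_contDiff hB.smooth
  have hb : ContDiff ℝ ∞ (fun z => b (sigN V z)) := hρ.act.smoothb.comp hσ
  have hR : ContDiff ℝ ∞ (fun z : E m × E m => R (b (sigN V z)) z.1) := ssm_fl hB hb contDiff_fst
  have hD : ContDiff ℝ ∞ (fun z : E m × E m =>
      fderiv ℝ (R (-(b (sigN V z)))) (R (b (sigN V z)) z.1)) := ssm_dfl hB hb.neg hR
  have h1 : ContDiff ℝ ∞ (fun z : E m × E m => innerSL ℝ z.2 + d1 A (sigN V z)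
      - ρ (sigN V z) • d1 b (sigN V z)) :=
    ((ssm_inner contDiff_snd).add ((ssm_d1 hρ.act.smoothA).comp hσ)).sub
      ((hρ.smooth.comp hσ).smul ((ssm_d1 hρ.act.smoothb).comp hσ))
  unfold FN
  exact hR.prodMk ((hPr.smooth.comp hR).clm_apply (ssm_vec.comp (h1.clm_comp hD)))

theorem fn'_smooth (hB : Base n N V R) (hρ : RhoN N V Θ M' Ψ b A ρ) (hPr : ProjN N Pr)
    (hRi : RinvN N R b ρ Ri) : ContDiff ℝ ∞ (FN' V R Pr b A Ri) := by
  have hσ : ContDiff ℝ ∞ (sigN V) := sigN_contDiff hB.smooth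
  have hr : ContDiff ℝ ∞ (fun z => Ri (sigN V z)) := hRi.smooth.comp hσ
  have hr1 : ContDiff ℝ ∞ (fun z => (Ri (sigN V z)).1) := contDiff_fst.comp hr
  have hb : ContDiff ℝ ∞ (fun z => b (Ri (sigN V z))) := hρ.act.smoothb.comp hr
  have hD : ContDiff ℝ ∞ (fun z : E m × E m =>
      fderiv ℝ (R (b (Ri (sigN V z)))) (Ri (sigN V z)).1) := ssm_dfl hB hb hr1
  have h1 : ContDiff ℝ ∞ (fun z : E m × E m => (innerSL ℝ z.2).comp
        (fderiv ℝ (R (b (Ri (sigN V z)))) (Ri (sigN V z)).1)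
      - d1 A (Ri (sigN V z)) + (sigN V z).2 • d1 b (Ri (sigN V z))) :=
    (((ssm_inner contDiff_snd).clm_comp hD).sub ((ssm_d1 hρ.act.smoothA).comp hr)).add
      ((contDiff_snd.comp hσ).smul ((ssm_d1 hρ.act.smoothb).comp hr))
  unfold FN'
  exact hr1.prodMk ((hPr.smooth.comp hr1).clm_apply (ssm_vec.comp h1))

end Pool.Agent.H2.TI
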