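import Pool.Agent.H2.TI.SStrB
import Pool.Agent.H2.TI.SSmooth

/-!
# Exactness of the straightening (module SEx)

PROOFS of `fn_exact` and `fn_vert`: see the header of `SStr` (last two items). `exists_str`: collect.
-/

set_option autoImplicit false

open scoped ContDiff Topology RealInnerProductSpace
open Set Filter

namespace Pool.Agent.H2.TI

open Pool.Agent.H57.NL Pool.Agent.H2.TG

variable {m n : ℕ} {N : Set (E m)} {V : E m → E m} {R : ℝ → E m → E m} {Θ : E m × ℝ → ℝ}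
  {M' τ : ℝ} {Ψ : ℝ → E m × ℝ → E m × ℝ} {b A ρ : E m × ℝ → ℝ} {Pr : E m → (E m →L[ℝ] E m)}

private theorem sex_flow (hB : Base n N V R) (y : ℝ × E m) (τ : ℝ) (u : E m) :
    fderiv ℝ (fun y : ℝ × E m => R y.1 y.2) y (τ, u) = τ • V (R y.1 y.2) +
      fderiv ℝ (R y.1) y.2 u := by
  have hd : HasFDerivAt (fun y : ℝ × E m => R y.1 y.2)
      (fderiv ℝ (fun y : ℝ × E m => R y.1 y.2) y) y :=
    ((hB.flow.smooth.differentiable (by simp)) y).hasFDerivAt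
  have h1 : fderiv ℝ (fun y : ℝ × E m => R y.1 y.2) y (1, 0) = V (R y.1 y.2) := by
    have hc : HasDerivAt (fun t : ℝ => ((t, y.2) : ℝ × E m)) (1, 0) y.1 :=
      (hasDerivAt_id y.1).prodMk (hasDerivAt_const y.1 y.2)
    have h2 := HasFDerivAt.comp_hasDerivAt y.1 (f := fun t : ℝ => ((t, y.2) : ℝ × E m))
      (l := fun y : ℝ × E m => R y.1 y.2) hd hc
    exact h2.unique (hB.flow.deriv y.2 y.1)
  have h3 : fderiv ℝ (fun y : ℝ × E m => R y.1 y.2) y (0, u) = fderiv ℝ (R y.1) y.2 u := by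
    have hc : HasFDerivAt (fun q : E m => ((y.1, q) : ℝ × E m))
        (ContinuousLinearMap.inr ℝ ℝ (E m)) y.2 :=
      hasFDerivAt_prodMk_right y.1 y.2
    have h2 := HasFDerivAt.comp y.2 (f := fun q : E m => ((y.1, q) : ℝ × E m))
      (g := fun y : ℝ × E m => R y.1 y.2) hd hc
    have h4 : HasFDerivAt (R y.1) ((fderiv ℝ (fun y : ℝ × E m => R y.1 y.2) y).comp
      (ContinuousLinearMap.inr ℝ ℝ (E m))) y.2 := h2
    rw [h4.fderiv]
    rfl
  have h5 : ((τ, u) : ℝ × E m) = τ • ((1, 0) : ℝ × E m) + (0, u) := by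
    simp
  rw [h5, map_add, map_smul, h1, h3]

/-- The differential of the first component. -/
theorem fn_fst (hB : Base n N V R) (hρ : RhoN N V Θ M' Ψ b A ρ) (hPr : ProjN N Pr)
    (z ζ : E m × E m) : (fderiv ℝ (FN V R Pr b A ρ) z ζ).1 = fderiv ℝ (R (b (sigN V z))) z.1
      (ζ.1 + fderiv ℝ b (sigN V z) (fderiv ℝ (sigN V) z ζ) • V z.1) := by
  have hF : HasFDerivAt (FN V R Pr b A ρ) (fderiv ℝ (FN V R Pr b A ρ) z) z :=
    (((fn_smooth hB hρ hPr).differentiable (by simp)) z).hasFDerivAt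
  have h1 : HasFDerivAt (fun z => (FN V R Pr b A ρ z).1)
      ((ContinuousLinearMap.fst ℝ (E m) (E m)).comp (fderiv ℝ (FN V R Pr b A ρ) z)) z := hF.fst
  have hb : HasFDerivAt b (fderiv ℝ b (sigN V z)) (sigN V z) :=
    ((hρ.act.smoothb.differentiable (by simp)) _).hasFDerivAt
  have hs : HasFDerivAt (sigN V) (fderiv ℝ (sigN V) z) z :=
    (((sigN_contDiff hB.smooth).differentiable (by simp)) z).hasFDerivAt
  have hg : HasFDerivAt (fun z : E m × E m => ((b (sigN V z), z.1) : ℝ × E m))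
      (((fderiv ℝ b (sigN V z)).comp (fderiv ℝ (sigN V) z)).prod
        (ContinuousLinearMap.fst ℝ (E m) (E m))) z := (hb.comp z hs).prodMk hasFDerivAt_fst
  have hfl : HasFDerivAt (fun y : ℝ × E m => R y.1 y.2)
      (fderiv ℝ (fun y : ℝ × E m => R y.1 y.2) (b (sigN V z), z.1)) (b (sigN V z), z.1) :=
    ((hB.flow.smooth.differentiable (by simp)) _).hasFDerivAt
  have h2 := HasFDerivAt.comp z (f := fun z : E m × E m => ((b (sigN V z), z.1) : ℝ × E m))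
    (g := fun y : ℝ × E m => R y.1 y.2) hfl hg
  have h3 := h1.unique h2
  have h4 : (fderiv ℝ (FN V R Pr b A ρ) z ζ).1 =
      fderiv ℝ (fun y : ℝ × E m => R y.1 y.2) (b (sigN V z), z.1)
        (fderiv ℝ b (sigN V z) (fderiv ℝ (sigN V) z ζ), ζ.1) :=
    congrArg (fun L : (E m × E m) →L[ℝ] E m => L ζ) h3
  rw [h4, sex_flow hB, map_add, map_smul, hB.flow.fderiv_X hB.smooth, add_comm]

theorem fn_exact (hB : Base n N V R) (hρ : RhoN N V Θ M' Ψ b A ρ) (hPr : ProjN N Pr)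
    {z : E m × E m} (hz : z ∈ TN N) {ζ : E m × E m} (hζ : ζ ∈ Tan (TN N) z) :
    ⟪(FN V R Pr b A ρ z).2, (fderiv ℝ (FN V R Pr b A ρ) z ζ).1⟫
      = ⟪z.2, ζ.1⟫ + fderiv ℝ A (sigN V z) (fderiv ℝ (sigN V) z ζ) := by
  have hζ1 : ζ.1 ∈ Tan N z.1 := tan_fst hζ
  have hV : V z.1 ∈ Tan N z.1 := hB.tan _ hz.1
  have hx : (sigN V z).1 ∈ N := hz.1
  set k : ℝ := fderiv ℝ b (sigN V z) (fderiv ℝ (sigN V) z ζ) with hk
  have hu : ζ.1 + k • V z.1 ∈ Tan N z.1 := hB.sub.tan_add hz.1 hζ1 (Tan.smul hV k)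
  rw [fn_fst hB hρ hPr, fn_inner hB hPr hz hu]
  have hs : fderiv ℝ (sigN V) z ζ = (ζ.1, (fderiv ℝ (sigN V) z ζ).2) := by
    rw [sigN_fderiv hB.smooth]
  set s : ℝ := (fderiv ℝ (sigN V) z ζ).2 with hsdef
  have h1 := hρ.id (sigN V z) hx k 0
  have h2 := hρ.id (sigN V z) hx 0 s
  have hx2 : (sigN V z).2 = ⟪z.2, V z.1⟫ := rfl
  have hx1 : (sigN V z).1 = z.1 := rfl
  rw [hx1] at h1 h2
  rw [hx2] at h1
  rw [zero_smul, mul_zero, zero_add, zero_add] at h2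
  have e1 : ((ζ.1 + k • V z.1, 0) : E m × ℝ) = (ζ.1, 0) + (k • V z.1, 0) := by simp
  have e2 : ((ζ.1, s) : E m × ℝ) = (ζ.1, 0) + (0, s) := by simp
  have hk2 : k = fderiv ℝ b (sigN V z) (ζ.1, 0) + fderiv ℝ b (sigN V z) (0, s) := by
    rw [hk, hs, e2, map_add]
  rw [hs, e1, e2, map_add, map_add, map_add, inner_add_right, inner_smul_right, h2]
  have h3 : ρ (sigN V z) * k = ρ (sigN V z) * fderiv ℝ b (sigN V z) (ζ.1, 0) +
      ρ (sigN V z) * fderiv ℝ b (sigN V z) (0, s) := by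
    rw [← mul_add, ← hk2]
  rw [mul_add] at h1 ⊢
  linarith

theorem fn_vert (hB : Base n N V R) (hρ : RhoN N V Θ M' Ψ b A ρ) (hPr : ProjN N Pr)
    {z : E m × E m} (hz : z ∈ TN N) {ζ : E m × E m} (hζ : ζ ∈ Tan (TN N) z)
    (h : (fderiv ℝ (FN V R Pr b A ρ) z ζ).1 = 0) :
    ∃ c : ℝ, fderiv ℝ (sigN V) z ζ = c • XFN V Θ 1 (sigN V z) := by
  have hx : (sigN V z).1 ∈ N := hz.1
  set k : ℝ := fderiv ℝ b (sigN V z) (fderiv ℝ (sigN V) z ζ) with hk
  rw [fn_fst hB hρ hPr] at h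
  have h1 := hB.flow.fderiv_inv hB.smooth (b (sigN V z)) z.1 (ζ.1 + k • V z.1)
  rw [h, map_zero] at h1
  have h2 : ζ.1 = (-k) • V z.1 := by
    rw [neg_smul]
    exact eq_neg_of_add_eq_zero_left h1.symm
  have hs : fderiv ℝ (sigN V) z ζ = (ζ.1, (fderiv ℝ (sigN V) z ζ).2) := by
    rw [sigN_fderiv hB.smooth]
  set s : ℝ := (fderiv ℝ (sigN V) z ζ).2 with hsdef
  have hx1 : (sigN V z).1 = z.1 := rfl
  obtain ⟨c, hc1, hc2⟩ := hρ.ker (sigN V z) hx (-k) s (by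
    rw [hx1, ← h2, ← hs, ← hk]
    ring)
  refine ⟨c, ?_⟩
  rw [hs, h2]
  unfold XFN
  rw [one_mul, hx1]
  refine Prod.ext ?_ ?_
  · show (-k) • V z.1 = c • ((-Real.sin (Θ (sigN V z))) • V z.1)
    rw [hc1, smul_smul]
    congr 1
    ring
  · show s = c • Real.cos (Θ (sigN V z))
    rw [hc2, smul_eq_mul]

theorem exists_str (hB : Base n N V R) (hΘ : PhaseI Θ M') (hΨ : IsFlow (XFN V Θ 1) Ψ)
    (hτ : 0 < τ) (hG : GoodN N M' τ Ψ) : ∃ F F' A, StrN N V Θ F F' A := by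
  obtain ⟨b, A, hA⟩ := exists_act hB hΘ hΨ hτ hG
  obtain ⟨ρ, hρ⟩ := exists_rho hB hΘ hΨ hτ hG hA
  obtain ⟨Ri, hRi⟩ := exists_rinv hB hΘ hΨ hτ hG hρ
  obtain ⟨Pr, hPr⟩ := exists_proj hB.sub hB.cpt.isClosed
  exact ⟨FN V R Pr b A ρ, FN' V R Pr b A Ri, A,
    { smooth := fn_smooth hB hρ hPr
      smooth' := fn'_smooth hB hρ hPr hRi
      smoothA := hA.smoothA
      smoothV := hB.smooth
      maps := fun z hz => fn_maps hB hPr hz
      maps' := fun z hz => fn'_maps hPr hRi hz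
      left := fun z hz => fn_left hB hρ hPr hRi hz
      right := fun z hz => fn_right hB hρ hPr hRi hz
      exact := fun z hz ζ hζ => fn_exact hB hρ hPr hz hζ
      vert := fun z hz ζ hζ h => fn_vert hB hρ hPr hz hζ h }⟩

end Pool.Agent.H2.TI
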