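import Pool.Agent.H2.TI.IDefs
import Pool.Agent.H2.TI.SEx

/-!
# Joint smoothness in the shift (module IJoint)

PROOFS. Copy `SSmooth.lean` (its private lemmas `ssm_vec`, `ssm_d1`, `ssm_fl`, `ssm_dfl`, `ssm_inner` have to be copied, the last
three are already stated for a general parameter space `X`), with the parameter space `X = ℝ × (E m × E m)`, `x = (a, z)`:
`sh x.1 (sigN V x.2)` is smooth in `x`; `d1 (shb a b) y = d1 b (sh a y)`, `d1 (shA a b A) y = d1 A (sh a y) + a • d1 b (sh a y)` (`sh a` has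
derivative the identity), so all the ingredients of `FN`, `FN'` are smooth in `(a, z)`.
-/

set_option autoImplicit false

open scoped ContDiff Topology RealInnerProductSpace
open Set Filter

namespace Pool.Agent.H2.TI

open Pool.Agent.H57.NL Pool.Agent.H2.TG

variable {m n : ℕ} {N : Set (E m)} {V : E m → E m} {R : ℝ → E m → E m} {Θ : E m × ℝ → ℝ}
  {M' : ℝ} {Ψ : ℝ → E m × ℝ → E m × ℝ} {b A ρ : E m × ℝ → ℝ} {Ri : E m × ℝ → E m × ℝ}
  {Pr : E m → (E m →L[ℝ] E m)}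

private theorem ij_vec : ContDiff ℝ ∞ (fun l : E m →L[ℝ] ℝ => vec l) := by
  let L : (E m →L[ℝ] ℝ) →ₗ[ℝ] E m :=
    { toFun := fun l => vec l
      map_add' := fun l l' => by simp [vec]
      map_smul' := fun c l => by simp [vec] }
  exact (LinearMap.toContinuousLinearMap L).contDiff

private theorem ij_d1 {g : E m × ℝ → ℝ} (hg : ContDiff ℝ ∞ g) : ContDiff ℝ ∞ (fun x => d1 g x) := by
  unfold d1
  exact (hg.fderiv_right (m := ∞) (by simp)).clm_comp contDiff_const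

private theorem ij_fl (hB : Base n N V R) {X : Type} [NormedAddCommGroup X] [NormedSpace ℝ X]
    {τ : X → ℝ} {q : X → E m} (hτ : ContDiff ℝ ∞ τ) (hq : ContDiff ℝ ∞ q) :
    ContDiff ℝ ∞ (fun z => R (τ z) (q z)) :=
  hB.flow.smooth.comp (hτ.prodMk hq)

private theorem ij_dfl (hB : Base n N V R) {X : Type} [NormedAddCommGroup X] [NormedSpace ℝ X]
    {τ : X → ℝ} {q : X → E m} (hτ : ContDiff ℝ ∞ τ) (hq : ContDiff ℝ ∞ q) :
    ContDiff ℝ ∞ (fun z => fderiv ℝ (R (τ z)) (q z)) := by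
  have h : ContDiff ℝ ∞ (Function.uncurry (fun z : X => R (τ z))) :=
    hB.flow.smooth.comp ((hτ.comp contDiff_fst).prodMk contDiff_snd)
  exact ContDiff.fderiv h hq (by simp)

private theorem ij_inner {X : Type} [NormedAddCommGroup X] [NormedSpace ℝ X] {p : X → E m}
    (hp : ContDiff ℝ ∞ p) : ContDiff ℝ ∞ (fun z => innerSL ℝ (p z)) :=
  (innerSL ℝ (E := E m)).contDiff.comp hp

private theorem ij_sh {X : Type} [NormedAddCommGroup X] [NormedSpace ℝ X] {a : X → ℝ}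
    {w : X → E m × ℝ} (ha : ContDiff ℝ ∞ a) (hw : ContDiff ℝ ∞ w) :
    ContDiff ℝ ∞ (fun x => sh (a x) (w x)) := by
  unfold sh
  exact (contDiff_fst.comp hw).prodMk ((contDiff_snd.comp hw).sub ha)

private theorem ij_fd (g : E m × ℝ → ℝ) (a : ℝ) (y : E m × ℝ) :
    fderiv ℝ (fun x => g (sh a x)) y = fderiv ℝ g (sh a y) := by
  have e : ∀ x : E m × ℝ, sh a x = x - (0, a) := fun x => by
    unfold sh
    refine Prod.ext ?_ ?_
    · simp
    · simp
  simp only [e]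
  exact fderiv_comp_sub ((0, a) : E m × ℝ)

private theorem ij_d1b (a : ℝ) (b : E m × ℝ → ℝ) (y : E m × ℝ) :
    d1 (shb a b) y = d1 b (sh a y) := by
  unfold d1
  show (fderiv ℝ (fun x => b (sh a x)) y).comp _ = _
  rw [ij_fd]

private theorem ij_d1A {b A : E m × ℝ → ℝ} (hb : ContDiff ℝ ∞ b) (hA : ContDiff ℝ ∞ A) (a : ℝ)
    (y : E m × ℝ) : d1 (shA a b A) y = d1 A (sh a y) + a • d1 b (sh a y) := by
  have hs : ContDiff ℝ ∞ (fun x : E m × ℝ => sh a x) := ij_sh contDiff_const contDiff_id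
  have h1 : DifferentiableAt ℝ (fun x => A (sh a x)) y :=
    ((hA.comp hs).differentiable (by simp)) y
  have h2 : DifferentiableAt ℝ (fun x => b (sh a x)) y :=
    ((hb.comp hs).differentiable (by simp)) y
  unfold d1
  have h3 : fderiv ℝ (shA a b A) y = fderiv ℝ A (sh a y) + a • fderiv ℝ b (sh a y) := by
    show fderiv ℝ (fun x => A (sh a x) + a * b (sh a x)) y = _
    rw [fderiv_fun_add h1 (h2.const_mul a), fderiv_const_mul h2, ij_fd, ij_fd]
  rw [h3, ContinuousLinearMap.add_comp, ContinuousLinearMap.smul_comp]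

theorem fa_smooth (h : Str0 n N V R Θ M' Ψ b A ρ Ri Pr) :
    ContDiff ℝ ∞ fun x : ℝ × (E m × E m) => FA V R Pr b A ρ x.1 x.2 := by
  have hB := h.base
  have hσ : ContDiff ℝ ∞ (fun x : ℝ × (E m × E m) => sigN V x.2) :=
    (sigN_contDiff hB.smooth).comp contDiff_snd
  have hs : ContDiff ℝ ∞ (fun x : ℝ × (E m × E m) => sh x.1 (sigN V x.2)) :=
    ij_sh contDiff_fst hσ
  have hb : ContDiff ℝ ∞ (fun x : ℝ × (E m × E m) => b (sh x.1 (sigN V x.2))) :=
    h.rho.act.smoothb.comp hs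
  have hz1 : ContDiff ℝ ∞ (fun x : ℝ × (E m × E m) => x.2.1) := contDiff_fst.comp contDiff_snd
  have hz2 : ContDiff ℝ ∞ (fun x : ℝ × (E m × E m) => x.2.2) := contDiff_snd.comp contDiff_snd
  have hR : ContDiff ℝ ∞ (fun x : ℝ × (E m × E m) => R (b (sh x.1 (sigN V x.2))) x.2.1) :=
    ij_fl hB hb hz1
  have hD : ContDiff ℝ ∞ (fun x : ℝ × (E m × E m) =>
      fderiv ℝ (R (-(b (sh x.1 (sigN V x.2))))) (R (b (sh x.1 (sigN V x.2))) x.2.1)) :=
    ij_dfl hB hb.neg hR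
  have hdb : ContDiff ℝ ∞ (fun x : ℝ × (E m × E m) => d1 b (sh x.1 (sigN V x.2))) :=
    (ij_d1 h.rho.act.smoothb).comp hs
  have hdA : ContDiff ℝ ∞ (fun x : ℝ × (E m × E m) => d1 A (sh x.1 (sigN V x.2))) :=
    (ij_d1 h.rho.act.smoothA).comp hs
  have hr : ContDiff ℝ ∞ (fun x : ℝ × (E m × E m) => ρ (sh x.1 (sigN V x.2)) + x.1) :=
    (h.rho.smooth.comp hs).add contDiff_fst
  have h1 : ContDiff ℝ ∞ (fun x : ℝ × (E m × E m) => innerSL ℝ x.2.2
      + (d1 A (sh x.1 (sigN V x.2)) + x.1 • d1 b (sh x.1 (sigN V x.2)))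
      - (ρ (sh x.1 (sigN V x.2)) + x.1) • d1 b (sh x.1 (sigN V x.2))) :=
    ((ij_inner hz2).add (hdA.add (contDiff_fst.smul hdb))).sub (hr.smul hdb)
  have h2 := hR.prodMk ((h.proj.smooth.comp hR).clm_apply (ij_vec.comp (h1.clm_comp hD)))
  refine (congrArg (ContDiff ℝ ∞) (funext (fun x => ?_))).mpr h2
  unfold FA FN
  rw [ij_d1b, ij_d1A h.rho.act.smoothb h.rho.act.smoothA]
  rfl

theorem fa'_smooth (h : Str0 n N V R Θ M' Ψ b A ρ Ri Pr) :
    ContDiff ℝ ∞ fun x : ℝ × (E m × E m) => FA' V R Pr b A Ri x.1 x.2 := by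
  have hB := h.base
  have hσ : ContDiff ℝ ∞ (fun x : ℝ × (E m × E m) => sigN V x.2) :=
    (sigN_contDiff hB.smooth).comp contDiff_snd
  have hs : ContDiff ℝ ∞ (fun x : ℝ × (E m × E m) => sh x.1 (sigN V x.2)) :=
    ij_sh contDiff_fst hσ
  have hz2 : ContDiff ℝ ∞ (fun x : ℝ × (E m × E m) => x.2.2) := contDiff_snd.comp contDiff_snd
  have hr : ContDiff ℝ ∞ (fun x : ℝ × (E m × E m) => shRi x.1 Ri (sigN V x.2)) := by
    unfold shRi
    exact (contDiff_fst.comp (h.rinv.smooth.comp hs)).prodMk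
      ((contDiff_snd.comp (h.rinv.smooth.comp hs)).add contDiff_fst)
  have hr1 : ContDiff ℝ ∞ (fun x : ℝ × (E m × E m) => (shRi x.1 Ri (sigN V x.2)).1) :=
    contDiff_fst.comp hr
  have hq : ContDiff ℝ ∞ (fun x : ℝ × (E m × E m) => sh x.1 (shRi x.1 Ri (sigN V x.2))) :=
    ij_sh contDiff_fst hr
  have hb : ContDiff ℝ ∞ (fun x : ℝ × (E m × E m) => b (sh x.1 (shRi x.1 Ri (sigN V x.2)))) :=
    h.rho.act.smoothb.comp hq
  have hD : ContDiff ℝ ∞ (fun x : ℝ × (E m × E m) =>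
      fderiv ℝ (R (b (sh x.1 (shRi x.1 Ri (sigN V x.2))))) (shRi x.1 Ri (sigN V x.2)).1) :=
    ij_dfl hB hb hr1
  have hdb : ContDiff ℝ ∞ (fun x : ℝ × (E m × E m) =>
      d1 b (sh x.1 (shRi x.1 Ri (sigN V x.2)))) := (ij_d1 h.rho.act.smoothb).comp hq
  have hdA : ContDiff ℝ ∞ (fun x : ℝ × (E m × E m) =>
      d1 A (sh x.1 (shRi x.1 Ri (sigN V x.2)))) := (ij_d1 h.rho.act.smoothA).comp hq
  have h1 : ContDiff ℝ ∞ (fun x : ℝ × (E m × E m) => (innerSL ℝ x.2.2).comp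
        (fderiv ℝ (R (b (sh x.1 (shRi x.1 Ri (sigN V x.2))))) (shRi x.1 Ri (sigN V x.2)).1)
      - (d1 A (sh x.1 (shRi x.1 Ri (sigN V x.2)))
        + x.1 • d1 b (sh x.1 (shRi x.1 Ri (sigN V x.2))))
      + (sigN V x.2).2 • d1 b (sh x.1 (shRi x.1 Ri (sigN V x.2)))) :=
    (((ij_inner hz2).clm_comp hD).sub (hdA.add (contDiff_fst.smul hdb))).add
      ((contDiff_snd.comp hσ).smul hdb)
  have h2 := hr1.prodMk ((h.proj.smooth.comp hr1).clm_apply (ij_vec.comp h1))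
  refine (congrArg (ContDiff ℝ ∞) (funext (fun x => ?_))).mpr h2
  unfold FA' FN'
  rw [ij_d1b, ij_d1A h.rho.act.smoothb h.rho.act.smoothA]
  rfl

theorem shA_smooth (h : Str0 n N V R Θ M' Ψ b A ρ Ri Pr) :
    ContDiff ℝ ∞ fun x : ℝ × (E m × E m) => shA x.1 b A (sigN V x.2) := by
  have hσ : ContDiff ℝ ∞ (fun x : ℝ × (E m × E m) => sigN V x.2) :=
    (sigN_contDiff h.base.smooth).comp contDiff_snd
  have hs : ContDiff ℝ ∞ (fun x : ℝ × (E m × E m) => sh x.1 (sigN V x.2)) :=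
    ij_sh contDiff_fst hσ
  unfold shA
  exact (h.rho.act.smoothA.comp hs).add (contDiff_fst.mul (h.rho.act.smoothb.comp hs))

end Pool.Agent.H2.TI
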