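import Pool.Agent.H2.TI.IShift
import Pool.Agent.H2.TI.IJoint

/-!
# The family of straightenings (module IFa)

PROOF. `fa_iso`: `fa_str` for each `a` (`StrN.maps`, …), `IJoint` for the smoothness; `exact`: `StrN.exact` and the chain rule
`fderiv ℝ (fun z => shA a b A (sigN V z)) z ζ = fderiv ℝ (shA a b A) (sigN V z) (fderiv ℝ (sigN V) z ζ)` (see the private lemmas
`slag_sig`, `slag_dG` in `SLag.lean`; `StrN.smoothA`, `StrN.smoothV`).
-/

set_option autoImplicit false

open scoped ContDiff Topology RealInnerProductSpace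
open Set Filter

namespace Pool.Agent.H2.TI

open Pool.Agent.H57.NL Pool.Agent.H2.TG

variable {m n : ℕ} {N : Set (E m)} {V : E m → E m} {R : ℝ → E m → E m} {Θ : E m × ℝ → ℝ}
  {M' : ℝ} {Ψ : ℝ → E m × ℝ → E m × ℝ} {b A ρ : E m × ℝ → ℝ} {Ri : E m × ℝ → E m × ℝ}
  {Pr : E m → (E m →L[ℝ] E m)}

private theorem ifa_sig {V : E m → E m} (hV : ContDiff ℝ ∞ V) : ContDiff ℝ ∞ (sigN V) := by
  have h1 : ContDiff ℝ ∞ (fun z : E m × E m => V z.1) := hV.comp contDiff_fst
  have h2 : ContDiff ℝ ∞ (fun z : E m × E m => (⟪z.2, V z.1⟫ : ℝ)) := contDiff_snd.inner ℝ h1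
  exact contDiff_fst.prodMk h2

private theorem ifa_dG {N : Set (E m)} {V : E m → E m} {Θ' : E m × ℝ → ℝ}
    {F F' : E m × E m → E m × E m} {B : E m × ℝ → ℝ} (hF : StrN N V Θ' F F' B)
    (z ζ : E m × E m) :
    fderiv ℝ (fun z : E m × E m => B (sigN V z)) z ζ =
      fderiv ℝ B (sigN V z) (fderiv ℝ (sigN V) z ζ) := by
  have h1 : HasFDerivAt B (fderiv ℝ B (sigN V z)) (sigN V z) :=
    ((hF.smoothA.differentiable (by norm_num)) _).hasFDerivAt
  have h2 : HasFDerivAt (sigN V) (fderiv ℝ (sigN V) z) z :=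
    (((ifa_sig hF.smoothV).differentiable (by norm_num)) _).hasFDerivAt
  have h3 : HasFDerivAt (fun z : E m × E m => B (sigN V z))
      ((fderiv ℝ B (sigN V z)).comp (fderiv ℝ (sigN V) z)) z := h1.comp z h2
  rw [h3.fderiv]
  rfl

theorem fa_iso (h : Str0 n N V R Θ M' Ψ b A ρ Ri Pr) :
    ExIso N (FA V R Pr b A ρ) (FA' V R Pr b A Ri) (fun a z => shA a b A (sigN V z)) where
  smooth := fa_smooth h
  smooth' := fa'_smooth h
  smoothG := shA_smooth h
  maps s z hz := (fa_str h s).maps z hz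
  maps' s z hz := (fa_str h s).maps' z hz
  left s z hz := (fa_str h s).left z hz
  right s z hz := (fa_str h s).right z hz
  exact s z hz ζ hζ := by
    rw [(fa_str h s).exact z hz ζ hζ, ifa_dG (fa_str h s)]

end Pool.Agent.H2.TI
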