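import Pool.Agent.H2.TI.IDefs
import Pool.Agent.H2.TI.NBase

/-!
# Time dependent tangent vector fields preserve a closed submanifold (module IInv)

PROOF. As `nbase_local`, `nbase_maps` in `NBase.lean` (private, copy), for the autonomous field `Y (s, z) = (1, X (s, z))` on
`ℝ × W`, `W = E m × E m`. `(Φ t (s, z)).1 = s + t` (derivative `1`). Local step at `(s₀, z₀)`, `z₀ ∈ T`: slice chart `e, A` of `T` at `z₀`;
`P : W → A` a continuous linear projection (`W` is finite dimensional: `Submodule.ClosedComplemented`, or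
`A.exists_isCompl` and `Submodule.linearProjOfIsCompl`, continuous by finite dimension; in `NBase` it was the orthogonal
projection). Solve `α' = (1, P (De(e.symm α₂) X(α₁, e.symm α₂)))` in `ℝ × A` with `α 0 = (s₀, e z₀)` (Picard-Lindelöf, the same Mathlib
theorem as in `nbase_local`); `t ↦ (α₁ t, e.symm (α₂ t))` is an integral curve of `Y` in `ℝ × T`; uniqueness (`IsFlow.unique_on`). Then the
set `{t | (Φ t (s, z)).2 ∈ T}` is closed, open, contains `0`.
-/

set_option autoImplicit false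

open scoped ContDiff Topology RealInnerProductSpace
open Set Filter

namespace Pool.Agent.H2.TI

open Pool.Agent.H57.NL Pool.Agent.H2.TG

section General

variable {V : Type} [NormedAddCommGroup V] [NormedSpace ℝ V] [FiniteDimensional ℝ V]
  {n : ℕ} {S : Set V} {Y : V → V} {R : ℝ → V → V}

private theorem inv_local (hN : IsSubmfd n S) (hX : ContDiff ℝ ∞ Y) (hΦ : IsFlow Y R)
    (ht : ∀ q ∈ S, Y q ∈ Tan S q) {q : V} (hq : q ∈ S) :
    ∃ ε : ℝ, 0 < ε ∧ ∀ t, |t| < ε → R t q ∈ S := by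
  obtain ⟨e, A, hqe, hs⟩ := hN.slice hq
  obtain ⟨P₀, hP₀⟩ := LinearMap.exists_leftInverse_of_injective A.subtype
    (LinearMap.ker_eq_bot.2 A.subtype_injective)
  let P : V →L[ℝ] A := LinearMap.toContinuousLinearMap P₀
  have hP : ∀ x : V, x ∈ A → (P x : V) = x := by
    intro x hx
    have h := LinearMap.congr_fun hP₀ ⟨x, hx⟩
    exact congrArg Subtype.val h
  have ha0 : e q ∈ A := (hs.iff _ hqe).1 hq
  set a0 : A := ⟨e q, ha0⟩ with ha0d
  have ha0v : (a0 : V) = e q := rfl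
  have hsymm0 : e.symm (a0 : V) = q := e.left_inv hqe
  let Z : A → A := fun a => P (fderiv ℝ e (e.symm (a : V)) (Y (e.symm (a : V))))
  have hYs : ContDiffAt ℝ 1 Z a0 := by
    have h3 : ContDiffAt ℝ ∞ (fun a : A => (a : V)) a0 := A.subtypeL.contDiff.contDiffAt
    have h4 : ContDiffAt ℝ ∞ (fun a : A => e.symm (a : V)) a0 :=
      (hs.cd' (e.map_source hqe)).comp a0 h3
    have h5 : ContDiffAt ℝ ∞ (fderiv ℝ e) (e.symm (a0 : V)) := by
      rw [hsymm0]
      exact (hs.cd hqe).fderiv_right (m := ∞) (by simp)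
    have h6 : ContDiffAt ℝ ∞ (fun a : A => fderiv ℝ e (e.symm (a : V))) a0 := h5.comp a0 h4
    have h7 : ContDiffAt ℝ ∞ (fun a : A => Y (e.symm (a : V))) a0 :=
      hX.contDiffAt.comp a0 h4
    have h8 := h6.clm_apply h7
    exact (P.contDiff.contDiffAt.comp a0 h8).of_le (by exact_mod_cast le_top)
  obtain ⟨α, hα0, ε, hε, hα⟩ :=
    hYs.exists_forall_mem_closedBall_exists_eq_forall_mem_Ioo_hasDerivAt₀ 0
  simp only [zero_sub, zero_add] at hα
  have hcont : ContinuousAt α 0 := (hα 0 ⟨by linarith, hε⟩).continuousAt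
  have hcont' : ContinuousAt (fun t => (α t : V)) 0 :=
    continuous_subtype_val.continuousAt.comp hcont
  have hev : ∀ᶠ t in 𝓝 (0 : ℝ), (α t : V) ∈ e.target := by
    refine hcont'.eventually_mem ?_
    rw [hα0]
    exact e.open_target.mem_nhds (e.map_source hqe)
  obtain ⟨δ, hδ, hW⟩ := Metric.eventually_nhds_iff.mp hev
  have htar : ∀ t, |t| < min ε δ → (α t : V) ∈ e.target := fun t ht =>
    hW (by simpa [Real.dist_eq] using lt_of_lt_of_le ht (min_le_right _ _))
  have hmem : ∀ t, |t| < min ε δ → e.symm (α t : V) ∈ S := by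
    intro t ht
    rw [hs.iff _ (e.map_target (htar t ht)), e.right_inv (htar t ht)]
    exact (α t).2
  have hder : ∀ t, |t| < min ε δ →
      HasDerivAt (fun t => e.symm (α t : V)) (Y (e.symm (α t : V))) t := by
    intro t ht'
    have h1 : HasDerivAt α (Z (α t)) t := hα t (abs_lt.mp (lt_of_lt_of_le ht' (min_le_left _ _)))
    have h2 : HasDerivAt (fun t => (α t : V)) (Z (α t) : V) t :=
      A.subtypeL.hasFDerivAt.comp_hasDerivAt t h1
    have h3 := (hs.hd' (htar t ht')).comp_hasDerivAt t h2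
    set x := e.symm (α t : V) with hx
    have hxs : x ∈ e.source := e.map_target (htar t ht')
    have hex : e x = (α t : V) := e.right_inv (htar t ht')
    have h4 : fderiv ℝ e x (Y x) ∈ A := (hs.mem_tan hxs (hmem t ht') _).1 (ht _ (hmem t ht'))
    have h5 : (Z (α t) : V) = fderiv ℝ e x (Y x) := hP _ h4
    rw [h5, ← hex, hs.left hxs] at h3
    exact h3
  refine ⟨min ε δ, lt_min hε hδ, fun t ht' => ?_⟩
  have h1 := hΦ.unique_on hX (γ := fun t => e.symm (α t : V)) (ε := |t|)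
    (fun s hs' => hder s (lt_of_le_of_lt hs' ht')) t le_rfl
  simp only [hα0, hsymm0] at h1
  rw [← h1]
  exact hmem t ht'

private theorem inv_maps (hN : IsSubmfd n S) (hc : IsClosed S) (hX : ContDiff ℝ ∞ Y)
    (hΦ : IsFlow Y R) (ht : ∀ q ∈ S, Y q ∈ Tan S q) {q : V} (hq : q ∈ S) (t : ℝ) :
    R t q ∈ S := by
  have hcont : Continuous (fun t => R t q) :=
    continuous_iff_continuousAt.mpr fun t => (hΦ.deriv q t).continuousAt
  have hclopen : IsClopen {t | R t q ∈ S} := by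
    refine ⟨hc.preimage hcont, ?_⟩
    rw [Metric.isOpen_iff]
    intro t₀ ht₀
    obtain ⟨ε, hε, H⟩ := inv_local hN hX hΦ ht ht₀
    refine ⟨ε, hε, fun t ht' => ?_⟩
    have h1 := H (t - t₀) (by rwa [Metric.mem_ball, Real.dist_eq] at ht')
    rw [hΦ.add hX, sub_add_cancel] at h1
    exact h1
  have huniv := hclopen.eq_univ ⟨0, by
    change R 0 q ∈ S
    rw [hΦ.zero]
    exact hq⟩
  have : t ∈ {t | R t q ∈ S} := by
    rw [huniv]
    trivial
  exact this

private theorem submfd_prod {k : ℕ} {T : Set V} (hT : IsSubmfd k T) :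
    IsSubmfd (1 + k) {y : ℝ × V | y.2 ∈ T} := by
  rintro ⟨s, z⟩ hz
  obtain ⟨e, A, hze, h1, h2, h3, h4⟩ := hT z hz
  refine ⟨(OpenPartialHomeomorph.refl ℝ).prod e, (⊤ : Submodule ℝ ℝ).prod A, ⟨trivial, hze⟩,
    ?_, ?_, ?_, ?_⟩
  · have h5 : ContDiffOn ℝ ∞ (fun y : ℝ × V => (y.1, e y.2))
        ((OpenPartialHomeomorph.refl ℝ).prod e).source := by
      refine contDiffOn_fst.prodMk (h1.comp contDiffOn_snd ?_)
      rintro ⟨a, b⟩ hab
      exact hab.2
    exact h5
  · have h5 : ContDiffOn ℝ ∞ (fun y : ℝ × V => (y.1, e.symm y.2))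
        ((OpenPartialHomeomorph.refl ℝ).prod e).target := by
      refine contDiffOn_fst.prodMk (h2.comp contDiffOn_snd ?_)
      rintro ⟨a, b⟩ hab
      exact hab.2
    exact h5
  · let f : ((⊤ : Submodule ℝ ℝ).prod A) ≃ₗ[ℝ] (ℝ × A) :=
      { toFun := fun x => (x.1.1, ⟨x.1.2, x.2.2⟩)
        invFun := fun y => ⟨(y.1, y.2), ⟨trivial, y.2.2⟩⟩
        left_inv := fun _ => rfl
        right_inv := fun _ => rfl
        map_add' := fun _ _ => rfl
        map_smul' := fun _ _ => rfl }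
    rw [f.finrank_eq, Module.finrank_prod, Module.finrank_self, h3]
  · rintro ⟨a, b⟩ hab
    have h5 := h4 b hab.2
    constructor
    · intro h6
      exact ⟨trivial, h5.1 h6⟩
    · intro h6
      exact h5.2 h6.2

end General

variable {m k : ℕ} {T : Set (E m × E m)} {X : ℝ × (E m × E m) → E m × E m}
  {Φ : ℝ → ℝ × (E m × E m) → ℝ × (E m × E m)}

theorem tflow_fst (hX : ContDiff ℝ ∞ X)
    (hΦ : IsFlow (fun y : ℝ × (E m × E m) => ((1 : ℝ), X y)) Φ) (t : ℝ)
    (x : ℝ × (E m × E m)) : (Φ t x).1 = x.1 + t := by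
  have h1 : ∀ t, HasDerivAt (fun t => (Φ t x).1 - t) 0 t := by
    intro t
    have h2 : HasDerivAt (fun t => (Φ t x).1) 1 t :=
      (ContinuousLinearMap.fst ℝ ℝ (E m × E m)).hasFDerivAt.comp_hasDerivAt t (hΦ.deriv x t)
    have h3 := h2.sub (hasDerivAt_id t)
    rw [sub_self] at h3
    exact h3
  have h3 := is_const_of_deriv_eq_zero (fun t => (h1 t).differentiableAt)
    (fun t => (h1 t).deriv) t 0
  rw [hΦ.zero, sub_zero] at h3
  linarith

theorem tflow_maps (hT : IsSubmfd k T) (hc : IsClosed T) (hX : ContDiff ℝ ∞ X)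
    (hΦ : IsFlow (fun y : ℝ × (E m × E m) => ((1 : ℝ), X y)) Φ)
    (ht : ∀ s, ∀ z ∈ T, X (s, z) ∈ Tan T z) (t s : ℝ) {z : E m × E m} (hz : z ∈ T) :
    (Φ t (s, z)).2 ∈ T := by
  have hY : ContDiff ℝ ∞ (fun y : ℝ × (E m × E m) => ((1 : ℝ), X y)) := contDiff_const.prodMk hX
  have htan : ∀ q ∈ {y : ℝ × (E m × E m) | y.2 ∈ T},
      ((1 : ℝ), X q) ∈ Tan {y : ℝ × (E m × E m) | y.2 ∈ T} q := by
    rintro ⟨a, b⟩ hb
    obtain ⟨γ, h0, hS, hd⟩ := ht a b hb
    refine ⟨fun u => (a + u, γ u), ?_, ?_, ?_⟩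
    · change (a + 0, γ 0) = (a, b)
      rw [h0, add_zero]
    · filter_upwards [hS] with u hu
      exact hu
    · exact ((hasDerivAt_id (0 : ℝ)).const_add a).prodMk hd
  exact inv_maps (submfd_prod hT) (hc.preimage continuous_snd) hY hΦ htan (q := (s, z)) hz t

end Pool.Agent.H2.TI
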