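import Pool.Agent.H2.TI.IXH
import Pool.Agent.H2.TI.IInv

/-!
# The flow of a compactly supported Hamiltonian (module IFlow)

PROOF. `X (s, z) = XH Pr (K s) z` is smooth (`xh_smooth`) and `0` for `2 ≤ |s|` (`K s = 0` as a function) and for `r < ‖z‖` (`K s = 0` near `z`,
`xh_zero`). So it is bounded: continuous on the compact set `Icc (-2) 2 ×ˢ closedBall 0 r`, zero outside. `Y y = (1, X y)` has a flow
`Φ̂` (`exists_isFlow`). `Φ s z = (Φ̂ s (0, z)).2`, `Φ' s z = (Φ̂ (-s) (s, z)).2`: jointly smooth. With `tflow_fst`: `Φ̂ s (0, z) = (s, Φ s z)`,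
`Φ̂ (-s) (s, z) = (0, Φ' s z)`, so `left`, `right` by `IsFlow.add`; `deriv`: second component of `IsFlow.deriv`. `maps`, `maps'`: `tflow_maps` with
`T = TN N` (`TN_submfd`, `TN_closed`, `xh_tan`). `supp`: for `r < ‖z‖` the curve `t ↦ (t, z)` is an integral curve (`IsFlow.unique`).
`uniq`: `t ↦ (t, γ t)` is an integral curve for `|t| ≤ 1` (`IsFlow.unique_on`).
-/

set_option autoImplicit false

open scoped ContDiff Topology RealInnerProductSpace
open Set Filter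

namespace Pool.Agent.H2.TI

open Pool.Agent.H57.NL Pool.Agent.H2.TG

variable {m n : ℕ} {N : Set (E m)} {Pr : E m → (E m →L[ℝ] E m)} {K : ℝ → E m × E m → ℝ} {r : ℝ}

private lemma ifl_zero (hs : ∀ s z, 2 ≤ |s| ∨ r ≤ ‖z‖ → K s z = 0) (s : ℝ) (z : E m × E m)
    (h : 2 ≤ |s| ∨ r < ‖z‖) : XH Pr (K s) z = 0 := by
  refine xh_zero ?_
  have h1 : K s =ᶠ[𝓝 z] fun _ => (0 : ℝ) := by
    rcases h with h | h
    · exact Eventually.of_forall fun y => hs s y (Or.inl h)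
    · have h2 : ∀ᶠ y : E m × E m in 𝓝 z, r < ‖y‖ := by
        have : IsOpen {y : E m × E m | r < ‖y‖} := isOpen_lt continuous_const continuous_norm
        exact this.mem_nhds h
      exact h2.mono fun y hy => hs s y (Or.inr hy.le)
  rw [h1.fderiv_eq]
  simp

private lemma ifl_bdd (hPr : ProjN N Pr)
    (hK : ContDiff ℝ ∞ fun x : ℝ × (E m × E m) => K x.1 x.2)
    (hs : ∀ s z, 2 ≤ |s| ∨ r ≤ ‖z‖ → K s z = 0) :
    ∃ C : ℝ, ∀ y : ℝ × (E m × E m), ‖((1 : ℝ), XH Pr (K y.1) y.2)‖ ≤ C := by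
  have hc : IsCompact (Icc (-2 : ℝ) 2 ×ˢ Metric.closedBall (0 : E m × E m) r) :=
    isCompact_Icc.prod (isCompact_closedBall _ _)
  obtain ⟨C, hC⟩ := hc.exists_bound_of_continuousOn (xh_smooth hPr hK).continuous.continuousOn
  refine ⟨max 1 (max C 0), fun y => ?_⟩
  rw [Prod.norm_def]
  refine max_le ?_ ?_
  · simp
  · refine le_trans ?_ (le_max_right _ _)
    by_cases h : 2 ≤ |y.1| ∨ r < ‖y.2‖
    · change ‖XH Pr (K y.1) y.2‖ ≤ _
      rw [ifl_zero hs y.1 y.2 h, norm_zero]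
      exact le_max_right _ _
    · push Not at h
      refine le_trans (hC y ⟨abs_le.1 h.1.le, ?_⟩) (le_max_left _ _)
      rw [Metric.mem_closedBall, dist_zero_right]
      exact h.2

theorem exists_cflow (hN : IsSubmfd n N) (hc : IsClosed N) (hPr : ProjN N Pr)
    (hK : ContDiff ℝ ∞ fun x : ℝ × (E m × E m) => K x.1 x.2)
    (hs : ∀ s z, 2 ≤ |s| ∨ r ≤ ‖z‖ → K s z = 0) : ∃ Φ Φ', CFlow N Pr K r Φ Φ' := by
  set X : ℝ × (E m × E m) → E m × E m := fun x => XH Pr (K x.1) x.2 with hXdef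
  have hX : ContDiff ℝ ∞ X := xh_smooth hPr hK
  have hY : ContDiff ℝ ∞ (fun y : ℝ × (E m × E m) => ((1 : ℝ), X y)) :=
    contDiff_const.prodMk hX
  obtain ⟨C, hC⟩ := ifl_bdd (N := N) (Pr := Pr) hPr hK hs
  obtain ⟨Ψ, hΨ⟩ := exists_isFlow hY (K := C) hC
  have hf : ∀ t x, (Ψ t x).1 = x.1 + t := fun t x => tflow_fst hX hΨ t x
  have ht : ∀ s, ∀ z ∈ TN N, X (s, z) ∈ Tan (TN N) z := fun s z hz => xh_tan hN hPr (K s) hz
  have hm := fun t s {z : E m × E m} (hz : z ∈ TN N) =>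
    tflow_maps (TN_submfd hN) (TN_closed hN hc) hX hΨ ht t s hz
  refine ⟨fun s z => (Ψ s (0, z)).2, fun s z => (Ψ (-s) (s, z)).2, ?_, ?_, ?_, ?_, ?_, ?_, ?_, ?_,
    ?_, ?_⟩
  · exact contDiff_snd.comp (hΨ.smooth.comp
      (contDiff_fst.prodMk (contDiff_const.prodMk contDiff_snd)))
  · exact contDiff_snd.comp (hΨ.smooth.comp
      (contDiff_fst.neg.prodMk (contDiff_fst.prodMk contDiff_snd)))
  · intro z
    change (Ψ 0 (0, z)).2 = z
    rw [hΨ.zero]
  · intro s z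
    have h1 := (hΨ.deriv (0, z) s).snd
    have h2 : X (Ψ s (0, z)) = XH Pr (K s) (Ψ s (0, z)).2 := by
      change XH Pr (K (Ψ s (0, z)).1) (Ψ s (0, z)).2 = _
      rw [hf, zero_add]
    change HasDerivAt (fun s => (Ψ s (0, z)).2) (XH Pr (K s) (Ψ s (0, z)).2) s
    rw [← h2]
    exact h1
  · intro s z hz
    exact hm s 0 hz
  · intro s z hz
    exact hm (-s) s hz
  · intro s z
    change (Ψ (-s) (s, (Ψ s (0, z)).2)).2 = z
    have h1 : (s, (Ψ s (0, z)).2) = Ψ s (0, z) := Prod.ext (by rw [hf, zero_add]) rfl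
    rw [h1, hΨ.add hY, neg_add_cancel, hΨ.zero]
  · intro s z
    change (Ψ s (0, (Ψ (-s) (s, z)).2)).2 = z
    have h1 : ((0 : ℝ), (Ψ (-s) (s, z)).2) = Ψ (-s) (s, z) :=
      Prod.ext (by rw [hf, add_neg_cancel]) rfl
    rw [h1, hΨ.add hY, add_neg_cancel, hΨ.zero]
  · intro s z hz
    change (Ψ s (0, z)).2 = z
    have h1 := hΨ.unique hY (γ := fun t => (t, z)) (fun t => by
      have h2 : X (t, z) = 0 := ifl_zero hs t z (Or.inr hz)
      change HasDerivAt (fun t : ℝ => (t, z)) ((1 : ℝ), X (t, z)) t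
      rw [h2]
      exact (hasDerivAt_id t).prodMk (hasDerivAt_const t z)) s
    rw [← h1]
  · intro γ hγ s hs1
    change γ s = (Ψ s (0, γ 0)).2
    have h1 := hΨ.unique_on hY (γ := fun t => (t, γ t)) (ε := 1)
      (fun t h => (hasDerivAt_id t).prodMk (hγ t h)) s hs1
    rw [← h1]

end Pool.Agent.H2.TI
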