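import Pool.Agent.H2.TI.IShift

/-!
# The straightening is the identity in the low part (module ILow)

PROOF. Let `z ∈ TN N`, `x = sigN V z`, `x.2 < a - M'`. Near `x`, for `y` with `y.1 ∈ N` (and `y.2 < a - M'`): `(sh a y).2 ≤ -M'`, so
`shb a b y = 0`, `shA a b A y = 0` (`ActN.bot`). In particular `shb a b x = 0`, and the first component of `FA … a z` is `R 0 z.1 = z.1`
(`R_zero`). For `u ∈ Tan N z.1`: `fderiv ℝ (shb a b) x (u, 0) = 0` and `fderiv ℝ (shA a b A) x (u, 0) = 0`: take a curve `c` in `N` with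
`c 0 = z.1`, `c' 0 = u`; `t ↦ (c t, x.2)` has velocity `(u, 0)` and `shb a b (c t, x.2) = 0` for small `t`. By `fn_inner`
(`SStr.lean`; with the shifted data, `str0_shift`), `R 0 = id` so `fderiv ℝ (R 0) z.1 u = u`:
`⟪(FA … a z).2, u⟫ = ⟪z.2, u⟫ + 0 - ρ * 0`. Both `(FA … a z).2` and `z.2` are in `Tan N z.1` (`fa_str`, `maps`), so they are equal
(`tan_unique`, module SProj). `fa'_low`: `FA' a z = FA' a (FA a z) = z` (`left`).
-/

set_option autoImplicit false

open scoped ContDiff Topology RealInnerProductSpace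
open Set Filter

namespace Pool.Agent.H2.TI

open Pool.Agent.H57.NL Pool.Agent.H2.TG

variable {m n : ℕ} {N : Set (E m)} {V : E m → E m} {R : ℝ → E m → E m} {Θ : E m × ℝ → ℝ}
  {M' : ℝ} {Ψ : ℝ → E m × ℝ → E m × ℝ} {b A ρ : E m × ℝ → ℝ} {Ri : E m × ℝ → E m × ℝ}
  {Pr : E m → (E m →L[ℝ] E m)}

private theorem ilow_fd {g : E m × ℝ → ℝ} (hg : Differentiable ℝ g) {x : E m × ℝ} {u : E m}
    (hu : u ∈ Tan N x.1) (h0 : ∀ y ∈ N, g (y, x.2) = 0) : fderiv ℝ g x (u, 0) = 0 := by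
  obtain ⟨γ, h1, h2, h3⟩ := hu
  have h4 : HasDerivAt (fun s : ℝ => (γ s, x.2)) (u, (0 : ℝ)) 0 :=
    h3.prodMk (hasDerivAt_const _ _)
  have h5 : HasFDerivAt g (fderiv ℝ g x) ((fun s : ℝ => (γ s, x.2)) 0) := by
    have e : (fun s : ℝ => (γ s, x.2)) 0 = x := Prod.ext h1 rfl
    rw [e]
    exact (hg x).hasFDerivAt
  have h6 := h5.comp_hasDerivAt 0 h4
  have h7 : (fun _ : ℝ => (0 : ℝ)) =ᶠ[𝓝 0] (g ∘ fun s : ℝ => (γ s, x.2)) := by
    filter_upwards [h2] with s hs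
    exact (h0 _ hs).symm
  have h8 : HasDerivAt (fun _ : ℝ => (0 : ℝ)) (fderiv ℝ g x (u, 0)) 0 :=
    h6.congr_of_eventuallyEq h7
  exact h8.unique (hasDerivAt_const _ _)

theorem fa_low (h : Str0 n N V R Θ M' Ψ b A ρ Ri Pr) {a : ℝ} {z : E m × E m} (hz : z ∈ TN N)
    (hl : (sigN V z).2 < a - M') : FA V R Pr b A ρ a z = z := by
  have hs := str0_shift h a
  have key : ∀ y ∈ N, shb a b (y, (sigN V z).2) = 0 ∧ shA a b A (y, (sigN V z).2) = 0 := by
    intro y hy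
    have hb := h.rho.act.bot (sh a (y, (sigN V z).2)) hy (by
      change (sigN V z).2 - a ≤ -M'
      linarith)
    refine ⟨hb.1, ?_⟩
    change A (sh a (y, (sigN V z).2)) + a * b (sh a (y, (sigN V z).2)) = 0
    rw [hb.1, hb.2]
    ring
  have hb0 : shb a b (sigN V z) = 0 := (key z.1 hz.1).1
  have hR0 : R 0 = fun q => q := funext fun q => R_zero h.base q
  have h1 : (FA V R Pr b A ρ a z).1 = z.1 := by
    change R (shb a b (sigN V z)) z.1 = z.1
    rw [hb0, hR0]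
  have hm := (fa_str h a).maps z hz
  have hm2 : (FA V R Pr b A ρ a z).2 ∈ Tan N z.1 := by
    have h2 := hm.2
    rw [h1] at h2
    exact h2
  refine Prod.ext h1 ?_
  refine tan_unique h.base.sub hz.1 hm2 hz.2 ?_
  intro u hu
  have h3 := fn_inner (A := shA a b A) (ρ := shr a ρ) (b := shb a b) h.base h.proj hz hu
  have hdb : fderiv ℝ (shb a b) (sigN V z) (u, 0) = 0 :=
    ilow_fd (hs.rho.act.smoothb.differentiable (by simp)) hu fun y hy => (key y hy).1
  have hdA : fderiv ℝ (shA a b A) (sigN V z) (u, 0) = 0 :=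
    ilow_fd (hs.rho.act.smoothA.differentiable (by simp)) hu fun y hy => (key y hy).2
  have hid : fderiv ℝ (fun q : E m => q) z.1 u = u := by
    rw [fderiv_fun_id]
    rfl
  rw [hb0, hR0, hid, hdb, hdA] at h3
  simpa [FA] using h3

theorem fa'_low (h : Str0 n N V R Θ M' Ψ b A ρ Ri Pr) {a : ℝ} {z : E m × E m} (hz : z ∈ TN N)
    (hl : (sigN V z).2 < a - M') : FA' V R Pr b A Ri a z = z := by
  have h1 := (fa_str h a).left z hz
  rw [fa_low h hz hl] at h1
  exact h1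

end Pool.Agent.H2.TI
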