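import Pool.Agent.H2.TI.IDefs
import Pool.Agent.H2.TI.SProj

/-!
# A smooth extension of the primitive of a graph (module IW)

PROOF. (1) `s` is locally the restriction of a smooth map: at `q₀ ∈ N`, `h.diffeo.smooth` at `(q₀, 0) ∈ TN N` gives `G, O` with
`ψ z = G z` on `O ∩ TN N`; `ψ (q, 0) = (q, 0 + s q)` (`h.form`), so `s q = (G (q, 0)).2` for `q ∈ N` near `q₀`.
(2) `u` has the derivative `⟪s q, ·⟫` within `N`: `h.graph.du` is `HasFDerivWithinAt u (innerSL ℝ (s q)) N q`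
(`hasFDerivWithinAt_iff_isLittleO`).
(3) Let `e, A` be a slice chart of `N` at `q₀`, `g : A → ℝ`, `g a = u (e.symm a)`, defined near `a₀ = e q₀`. By (2), `g` has the Fréchet
derivative `v ↦ ⟪s (e.symm a), D(e.symm)(a) v⟫` at `a ∈ A` near `a₀` (`HasFDerivWithinAt.comp_hasFDerivAt` style: `a ↦ e.symm a` maps a
neighbourhood in `A` to `N`), which by (1) is smooth in `a`; so `g` is smooth near `a₀` (`contDiffOn_infty_iff_fderiv_of_isOpen`
or `contDiffOn_succ_iff_fderiv_of_isOpen`, `contDiffOn_infty`). With the orthogonal projection `P : E m → A`, the function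
`q ↦ g (P (e q))` is smooth near `q₀` and equal to `u` on `N` near `q₀`.
(4) Glue: `exists_glue` (`H2/TG/Glue.lean`) with `t q = {k | q ∈ N → k = u q}` (off `N`, closed: `0`): a smooth `w` with `w = u` on
`N`. (5) For `v ∈ Tan N q`, a curve `γ` in `N`: `w ∘ γ = u ∘ γ` near `0` has the derivatives `Dw(q) v` and `⟪s q, v⟫` (`hasDerivAt_along`).
-/

set_option autoImplicit false

open scoped ContDiff Topology RealInnerProductSpace
open Set Filter

namespace Pool.Agent.H2.TI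

open Pool.Agent.H57.NL Pool.Agent.H2.TG

variable {m n : ℕ} {N : Set (E m)} {S : Set (E m × E m)} {u : E m → ℝ} {s : E m → E m}
  {ψ ψ' : E m × E m → E m × E m}

private theorem iw_s (hN : IsSubmfd n N) (h : IsGraph N ⊥ S u s ψ ψ') {q₀ : E m} (hq : q₀ ∈ N) :
    ∃ (σ : E m → E m) (O : Set (E m)), IsOpen O ∧ q₀ ∈ O ∧ ContDiffOn ℝ ∞ σ O ∧
      ∀ q ∈ O, q ∈ N → s q = σ q := by
  obtain ⟨G, O, hO, hmem, hG, heq⟩ := h.diffeo.smooth (q₀, 0) ⟨hq, hN.tan_zero hq⟩
  have hι : ContDiff ℝ ∞ fun q : E m => (q, (0 : E m)) := contDiff_id.prodMk contDiff_const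
  refine ⟨fun q => (G (q, 0)).2, (fun q : E m => (q, (0 : E m))) ⁻¹' O, hO.preimage hι.continuous,
    hmem, ?_, ?_⟩
  · have h1 : ContDiffOn ℝ ∞ (fun q : E m => G (q, 0)) ((fun q : E m => (q, (0 : E m))) ⁻¹' O) :=
      hG.comp hι.contDiffOn fun q hq => hq
    exact h1.snd
  · intro q hqO hqN
    have h1 := heq (q, 0) ⟨hqO, hqN, hN.tan_zero hqN⟩
    rw [h.form] at h1
    have h2 := congrArg Prod.snd h1
    simp only [zero_add] at h2
    exact h2

private theorem iw_du (h : IsGraph N ⊥ S u s ψ ψ') {q : E m} (hq : q ∈ N) :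
    HasFDerivWithinAt u (innerSL ℝ (s q)) N q :=
  hasFDerivWithinAt_iff_isLittleO.2 (h.graph.du q hq)

private theorem iw_local (hN : IsSubmfd n N) (h : IsGraph N ⊥ S u s ψ ψ') {q₀ : E m}
    (hq : q₀ ∈ N) : ∃ W : Set (E m), IsOpen W ∧ q₀ ∈ W ∧ ∃ g : E m → ℝ, ContDiffOn ℝ ∞ g W ∧
      ∀ y ∈ W, y ∈ N → g y = u y := by
  obtain ⟨σ, O, hO, hqO, hσ, hsσ⟩ := iw_s hN h hq
  obtain ⟨e, A, hqe, hs⟩ := hN.slice hq
  obtain ⟨P, hPmem, hPself⟩ : ∃ P : E m →L[ℝ] E m, (∀ v, P v ∈ A) ∧ ∀ v ∈ A, P v = v :=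
    ⟨A.starProjection, fun v => Submodule.starProjection_apply_mem A v,
      fun v hv => Submodule.starProjection_eq_self_iff.mpr hv⟩
  have hU : IsOpen (e.target ∩ e.symm ⁻¹' O) := e.isOpen_inter_preimage_symm hO
  obtain ⟨U, hUdef⟩ : ∃ U : Set (E m), U = P ⁻¹' (e.target ∩ e.symm ⁻¹' O) := ⟨_, rfl⟩
  have hUo : IsOpen U := by
    rw [hUdef]
    exact hU.preimage P.continuous
  have hUt : ∀ y ∈ U, P y ∈ e.target := fun y hy => by
    rw [hUdef] at hy
    exact hy.1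
  have hUO : ∀ y ∈ U, e.symm (P y) ∈ O := fun y hy => by
    rw [hUdef] at hy
    exact hy.2
  have hUN : ∀ y ∈ U, e.symm (P y) ∈ N := by
    intro y hy
    rw [hs.iff _ (e.map_target (hUt y hy)), e.right_inv (hUt y hy)]
    exact hPmem y
  -- the section in the chart
  have hc : ContDiffOn ℝ ∞ (fun y => e.symm (P y)) U := hs.s2.comp P.contDiff.contDiffOn hUt
  have hcd : ∀ y ∈ U, HasFDerivAt (fun y => e.symm (P y)) ((fderiv ℝ e.symm (P y)).comp P) y :=
    fun y hy => (hs.hd' (hUt y hy)).comp y P.hasFDerivAt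
  have hf : ∀ y ∈ U, HasFDerivAt (fun y => u (e.symm (P y)))
      ((innerSL ℝ (σ (e.symm (P y)))).comp ((fderiv ℝ e.symm (P y)).comp P)) y := by
    intro y hy
    have h1 := iw_du h (hUN y hy)
    rw [hsσ _ (hUO y hy) (hUN y hy)] at h1
    exact h1.comp_hasFDerivAt y (hcd y hy) (by
      filter_upwards [hUo.mem_nhds hy] with y' hy'
      exact hUN y' hy')
  have hfs : ContDiffOn ℝ ∞ (fun y => u (e.symm (P y))) U := by
    rw [contDiffOn_infty_iff_fderiv_of_isOpen hUo]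
    refine ⟨fun y hy => (hf y hy).differentiableAt.differentiableWithinAt, ?_⟩
    have h1 : ContDiffOn ℝ ∞ (fun y => (innerSL ℝ (σ (e.symm (P y)))).comp
        ((fderiv ℝ e.symm (P y)).comp P)) U := by
      have h2 : ContDiffOn ℝ ∞ (fun y => innerSL ℝ (σ (e.symm (P y)))) U :=
        (innerSL ℝ (E := E m)).contDiff.comp_contDiffOn (hσ.comp hc hUO)
      have h3 : ContDiffOn ℝ ∞ (fderiv ℝ e.symm) e.target :=
        hs.s2.fderiv_of_isOpen e.open_target (by simp)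
      have h4 : ContDiffOn ℝ ∞ (fun y => fderiv ℝ e.symm (P y)) U :=
        h3.comp P.contDiff.contDiffOn hUt
      exact h2.clm_comp (h4.clm_comp contDiffOn_const)
    exact h1.congr fun y hy => (hf y hy).fderiv
  -- back to the original coordinates
  refine ⟨e.source ∩ e ⁻¹' U, e.isOpen_inter_preimage hUo, ⟨hqe, ?_⟩,
    fun x => u (e.symm (P (e x))), ?_, ?_⟩
  · have h1 : P (e q₀) = e q₀ := hPself _ ((hs.iff _ hqe).1 hq)
    show e q₀ ∈ U
    rw [hUdef]
    show P (e q₀) ∈ e.target ∩ e.symm ⁻¹' O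
    rw [h1]
    refine ⟨e.map_source hqe, ?_⟩
    show e.symm (e q₀) ∈ O
    rw [e.left_inv hqe]
    exact hqO
  · exact hfs.comp (hs.s1.mono inter_subset_left) fun x hx => hx.2
  · intro y hy hyN
    have h1 : P (e y) = e y := hPself _ ((hs.iff _ hy.1).1 hyN)
    show u (e.symm (P (e y))) = u y
    rw [h1, e.left_inv hy.1]

theorem exists_w (hN : IsSubmfd n N) (hc : IsClosed N) (h : IsGraph N ⊥ S u s ψ ψ') :
    ∃ w : E m → ℝ, ContDiff ℝ ∞ w ∧ ∀ q ∈ N, ∀ v ∈ Tan N q, fderiv ℝ w q v = ⟪s q, v⟫ := by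
  obtain ⟨w, hw, hwt⟩ := exists_glue (V := E m) (fun q => {k : ℝ | q ∈ N → k = u q})
    (by
      intro q k hk k' hk' a c _ _ hac hq
      have h1 : k = u q := hk hq
      have h2 : k' = u q := hk' hq
      show a • k + c • k' = u q
      rw [h1, h2, ← add_smul, hac, one_smul])
    (by
      intro q
      by_cases hq : q ∈ N
      · obtain ⟨W, hW, hqW, g, hg, hgt⟩ := iw_local hN h hq
        exact ⟨W, hW, hqW, g, hg, fun y hy hyN => hgt y hy hyN⟩
      · exact ⟨Nᶜ, hc.isOpen_compl, hq, fun _ => 0, contDiffOn_const,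
          fun y hy hyN => absurd hyN hy⟩)
  refine ⟨w, hw, ?_⟩
  rintro q hq v ⟨γ, h0, hS, hd⟩
  subst h0
  have h1 : HasDerivAt (u ∘ γ) (innerSL ℝ (s (γ 0)) v) 0 := hasDerivAt_along hS hd (iw_du h hq)
  have h2 : HasFDerivAt w (fderiv ℝ w (γ 0)) (γ 0) :=
    ((hw.differentiable (by simp)) (γ 0)).hasFDerivAt
  have h3 : HasDerivAt (w ∘ γ) (fderiv ℝ w (γ 0) v) 0 := h2.comp_hasDerivAt (0 : ℝ) hd
  have h4 : HasDerivAt (w ∘ γ) (innerSL ℝ (s (γ 0)) v) 0 := by
    refine h1.congr_of_eventuallyEq ?_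
    filter_upwards [hS] with t ht
    exact hwt (γ t) ht
  exact h3.unique h4

end Pool.Agent.H2.TI
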