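import Pool.Agent.H2.TI.Main
import Pool.Agent.H2.TI.IFa
import Pool.Agent.H2.TI.ILow
import Pool.Agent.H2.TI.IW
import Pool.Agent.H2.TI.ICpt
import Pool.Agent.H2.TI.IEmb

/-!
# Theorem I with the Hamiltonian isotopy (module IMain)

PROOF. As `main_base` in `Main.lean`: `Θ, M'', Ψ, b, A, ρ, Ri, Pr` give `Str0`; `F = FA … 0`, `F' = FA' … 0` (`fa_str`, `sh_zero`); `no_causN`,
`str_lag`, `graph_of_injective`: `F '' S` is the graph of `s` with primitive `u`; `w` from `exists_w`, `s q = gr Pr w q` on `N` (`gr_eq`).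
`M₀` a bound of `|⟪gr Pr w q, V q⟫|` on `N` (compact), `a₀ = M' + M₀ + 1`. The family
`Ψ s = FA' (a₀ (1 - s)) ∘ TW s ∘ FA a₀` is an `ExIso` (`fa_iso`, `tw_iso`, `exiso_symm`, `exiso_time`, `exiso_comp`), `Ψ 0 = id` on `TN N`. On the
zero section `FA a₀ = id` (`fa_low`, `0 < a₀ - M'`), so `Ψ s '' 0_N = FA' (a₀ (1 - s)) '' {z.2 = s • gr Pr w z.1}`: `EmbN` by `emb_fa'`; for
`s = 1`: `F' '' (F '' S) = S`. Then `exists_cpt` with `Z = 0_N` (compact).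
-/

set_option autoImplicit false

open scoped ContDiff Topology RealInnerProductSpace
open Set Filter

namespace Pool.Agent.H2.TI

open Pool.Agent.H57.NL Pool.Agent.H2.TG

variable {m n : ℕ} {N : Set (E m)} {V : E m → E m} {R : ℝ → E m → E m}
  {S : Set (E m × E m)} {f : E m × E m → ℝ}

/-- The family of diffeomorphisms. -/
theorem iso_fam {Θ : E m × ℝ → ℝ} {M' : ℝ} {Ψ : ℝ → E m × ℝ → E m × ℝ} {b A ρ : E m × ℝ → ℝ}
    {Ri : E m × ℝ → E m × ℝ} {Pr : E m → (E m →L[ℝ] E m)}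
    (h : Str0 n N V R Θ M' Ψ b A ρ Ri Pr) {w : E m → ℝ} (hw : ContDiff ℝ ∞ w) {a : ℝ}
    (ha : M' < a) :
    ∃ (P P' : ℝ → E m × E m → E m × E m) (G : ℝ → E m × E m → ℝ), ExIso N P P' G ∧
      (∀ z ∈ TN N, P 0 z = z) ∧
      (∀ s, P s '' {z | z.1 ∈ N ∧ z.2 = 0} =
        FA' V R Pr b A Ri (a * (1 - s)) '' {z | z.1 ∈ N ∧ z.2 = s • gr Pr w z.1}) := by
  have e1 := fa_iso h
  have e2 := exiso_time e1 (α := fun _ => a) contDiff_const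
  have e3 := tw_iso h.base.sub h.proj hw
  have hα : ContDiff ℝ ∞ fun s : ℝ => a * (1 - s) :=
    contDiff_const.mul (contDiff_const.sub contDiff_id)
  have e4 := exiso_time (exiso_symm e1) hα
  have e5 := exiso_comp (exiso_comp e2 e3) e4
  refine ⟨_, _, _, e5, ?_, ?_⟩
  · intro z hz
    have h1 : TW Pr w 0 (FA V R Pr b A ρ a z) = FA V R Pr b A ρ a z := by
      unfold TW
      rw [zero_smul, add_zero]
    show FA' V R Pr b A Ri (a * (1 - 0)) (TW Pr w 0 (FA V R Pr b A ρ a z)) = z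
    rw [h1, sub_zero, mul_one]
    exact e1.left a z hz
  · intro s
    have h0 : ∀ z ∈ {z : E m × E m | z.1 ∈ N ∧ z.2 = 0}, FA V R Pr b A ρ a z = z := by
      rintro z ⟨hz1, hz2⟩
      have hz : z ∈ TN N := ⟨hz1, by rw [hz2]; exact h.base.sub.tan_zero hz1⟩
      refine fa_low h hz ?_
      show ⟪z.2, V z.1⟫ < a - M'
      rw [hz2, inner_zero_left]
      linarith
    ext y
    constructor
    · rintro ⟨z, hz, rfl⟩
      refine ⟨TW Pr w s z, ?_, ?_⟩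
      · refine ⟨hz.1, ?_⟩
        show z.2 + s • gr Pr w z.1 = s • gr Pr w z.1
        rw [hz.2, zero_add]
      · show _ = FA' V R Pr b A Ri (a * (1 - s)) (TW Pr w s (FA V R Pr b A ρ a z))
        rw [h0 z hz]
    · rintro ⟨z, hz, rfl⟩
      refine ⟨(z.1, 0), ⟨hz.1, rfl⟩, ?_⟩
      show FA' V R Pr b A Ri (a * (1 - s)) (TW Pr w s (FA V R Pr b A ρ a (z.1, 0))) = _
      rw [h0 (z.1, 0) ⟨hz.1, rfl⟩]
      have h1 : TW Pr w s (z.1, 0) = z := by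
        refine Prod.ext rfl ?_
        show (0 : E m) + s • gr Pr w z.1 = z.2
        rw [zero_add, hz.2]
      rw [h1]

/-- The case of a vector field with a flow. -/
theorem iso_base (hN : ClosedMfd n N ⊥) (hB : Base n N V R) (hL : ExactLag n N ⊥ S f)
    (hE : EmbN V S) :
    ∃ Ψ Ψ' H, HamIso N Ψ Ψ' H ∧ Ψ 1 '' {z | z.1 ∈ N ∧ z.2 = 0} = S ∧
      ∀ s ∈ Icc (0 : ℝ) 1, EmbN V (Ψ s '' {z | z.1 ∈ N ∧ z.2 = 0}) := by
  obtain ⟨M, hR⟩ := red_ofN hB hL hE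
  obtain ⟨κ, hκ⟩ := exists_curvN hB hR
  obtain ⟨Λ, hΛ⟩ := exists_leafFlowN hB hκ
  obtain ⟨G, hG⟩ := exists_primN hB hL hE
  have h : LeafN n N V R (sigN V '' S) M κ Λ G := ⟨hB, hR, hκ, hΛ, hG⟩
  obtain ⟨Θ, hΘ, hC, hZ⟩ := exists_Theta h
  obtain ⟨Ψ, hΨ⟩ := exists_XFlowN hB hΘ
  obtain ⟨τ, hτ, hGood⟩ := goodN h hΘ hC hZ hΨ
  obtain ⟨b, A, hA⟩ := exists_act hB hΘ hΨ hτ hGood
  obtain ⟨ρ, hρ⟩ := exists_rho hB hΘ hΨ hτ hGood hA
  obtain ⟨Ri, hRi⟩ := exists_rinv hB hΘ hΨ hτ hGood hρ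
  obtain ⟨Pr, hPr⟩ := exists_proj hB.sub hB.cpt.isClosed
  have hS0 : Str0 n N V R Θ _ Ψ b A ρ Ri Pr := ⟨hB, hρ, hRi, hPr⟩
  have hF := fa_str hS0 0
  rw [sh_zero] at hF
  have hPS : ∀ y ∈ sigN V '' S, (y, Θ y) ∈ PSN N V (sigN V '' S) := by
    intro y hy
    obtain ⟨φ, hφ⟩ := RP_exists h hy
    have h1 : Θ y = φ := hC _ hφ
    rw [h1]
    exact hφ.1
  have hno := no_causN hB hL hE hPS hF
  obtain ⟨f', hL'⟩ := str_lag hF hB.sub hB.cpt hL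
  obtain ⟨hinj, hno'⟩ := injective_of_no_extremal hN hL' (fun z hz hc => (hno z hz hc).elim)
  obtain ⟨u, s, ψ, ψ', hg⟩ := graph_of_injective hN hL' hinj hno'
  obtain ⟨w, hw, hwd⟩ := exists_w hB.sub hB.cpt.isClosed hg
  have hgr : ∀ q ∈ N, gr Pr w q = s q := fun q hq =>
    gr_eq hB.sub hPr hq (hg.graph.sTan q hq) (hwd q hq)
  obtain ⟨P, P', G', hP, hP0, hPi⟩ := iso_fam hS0 hw (lt_add_one _)
  have hZ : IsCompact {z : E m × E m | z.1 ∈ N ∧ z.2 = 0} := by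
    have : {z : E m × E m | z.1 ∈ N ∧ z.2 = 0} = N ×ˢ {(0 : E m)} := by
      ext z
      simp
    rw [this]
    exact hB.cpt.prod isCompact_singleton
  have hZN : {z : E m × E m | z.1 ∈ N ∧ z.2 = 0} ⊆ TN N := by
    rintro z ⟨hz1, hz2⟩
    exact ⟨hz1, by rw [hz2]; exact hB.sub.tan_zero hz1⟩
  obtain ⟨Φ, Φ', H, hΦ, hag⟩ := exists_cpt hB.sub hB.cpt.isClosed hP hP0 hZ hZN
  have him : ∀ s, |s| ≤ 1 → Φ s '' {z | z.1 ∈ N ∧ z.2 = 0} = P s '' {z | z.1 ∈ N ∧ z.2 = 0} :=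
    fun s hs => image_congr (hag s hs)
  refine ⟨Φ, Φ', H, hΦ, ?_, ?_⟩
  · rw [him 1 (by rw [abs_one]), hPi 1, sub_self, mul_zero]
    have h1 : {z : E m × E m | z.1 ∈ N ∧ z.2 = (1 : ℝ) • gr Pr w z.1} =
        FA V R Pr b A ρ 0 '' S := by
      rw [hg.graph.graph]
      ext z
      constructor
      · rintro ⟨h1, h2⟩
        refine ⟨h1, ?_⟩
        rw [h2, one_smul, hgr _ h1]
      · rintro ⟨h1, h2⟩
        refine ⟨h1, ?_⟩
        rw [h2, one_smul, hgr _ h1]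
    rw [h1, ← image_comp]
    have h2 : ∀ z ∈ S, (FA' V R Pr b A Ri 0 ∘ FA V R Pr b A ρ 0) z = z :=
      fun z hz => hF.left z (hL.subTN hz)
    rw [image_congr h2, image_id']
  · intro s hs
    rw [him s (abs_le.2 ⟨by linarith [hs.1], hs.2⟩), hPi s]
    exact emb_fa' hS0 hw _ s

/-- **Theorem I.** -/
theorem iso_main (hN : ClosedMfd n N ⊥) (hV : ContDiff ℝ ∞ V) (hT : ∀ q ∈ N, V q ∈ Tan N q)
    (hL : ExactLag n N ⊥ S f) (hE : EmbN V S) :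
    ∃ Ψ Ψ' H, HamIso N Ψ Ψ' H ∧ Ψ 1 '' {z | z.1 ∈ N ∧ z.2 = 0} = S ∧
      ∀ s ∈ Icc (0 : ℝ) 1, EmbN V (Ψ s '' {z | z.1 ∈ N ∧ z.2 = 0}) := by
  obtain ⟨V', R, hB, hVV⟩ := exists_base hN.sub (closedMfd_compact hN) hN.conn hV hT
  have key : ∀ {V₁ V₂ : E m → E m}, (∀ q ∈ N, V₁ q = V₂ q) → ∀ {T : Set (E m × E m)},
      (∀ z ∈ T, z.1 ∈ N) → EmbN V₁ T → EmbN V₂ T := by
    intro V₁ V₂ h12 T hTN hE
    refine ⟨?_, ?_⟩
    · intro z hz z' hz' h1 h2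
      rw [← h12 _ (hTN z hz), ← h12 _ (hTN z' hz')] at h2
      exact hE.inj z hz z' hz' h1 h2
    · intro z hz b hb h
      rw [← h12 _ (hTN z hz)] at h
      exact hE.imm z hz b hb h
  obtain ⟨Ψ, Ψ', H, h1, h2, h3⟩ := iso_base hN hB hL
    (key (fun q hq => (hVV q hq).symm) (fun z hz => (hL.subTN hz).1) hE)
  refine ⟨Ψ, Ψ', H, h1, h2, fun s hs => key hVV ?_ (h3 s hs)⟩
  rintro _ ⟨z, hz, rfl⟩
  exact ((h1.diffeo s).maps z ⟨hz.1, by rw [hz.2]; exact hB.sub.tan_zero hz.1⟩).1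

end Pool.Agent.H2.TI
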