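import Pool.Agent.H2.TI.IDefs
import Pool.Agent.H2.TI.SEx

/-!
# The shifted data (module IShift)

PROOFS. `sh a x = (x.1, x.2 - a)` is an affine map with derivative the identity: for smooth `g`,
`fderiv ℝ (fun x => g (sh a x)) x = fderiv ℝ g (sh a x)` (`HasFDerivAt.comp` with `HasFDerivAt (sh a) (id) x`, or `fderiv_comp_sub`).
So `D(shb a b)(x) = Db(sh a x)`, `D(shA a b A)(x) = DA(sh a x) + a • Db(sh a x)`, `D(shr a ρ)(x) = Dρ(sh a x)`. Also
`XFN V (fun x => Θ (sh a x)) 1 x = XFN V Θ 1 (sh a x)` (`(sh a x).1 = x.1`), `sh a (shF a Ψ t x) = Ψ t (sh a x)`,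
`sh a (shRi a Ri y) = Ri (sh a y)`.
* `act`: `smoothb`, `smoothA`: compositions. `db`: `shb a b (shF a Ψ t x) = b (Ψ t (sh a x))`, use `ActN.db` at `sh a x`. `dA`:
  `shA a b A (shF a Ψ t x) = A (Ψ t (sh a x)) + a * b (Ψ t (sh a x))`, derivative
  `(Ψ t (sh a x)).2 * sin + a * sin = (shF a Ψ t x).2 * sin`. `bot`: `x.2 ≤ -(M' + |a|)` implies `x.2 - a ≤ -M'`.
* `id`: `x.2 * c + DA^a (c V, r) = (x.2 - a) * c + DA(c V, r) + a * (c + Db(c V, r)) = (ρ (sh a x) + a) * (c + Db(c V, r))`.
* `ker`, `pos`, `bot` (`ρ (sh a x) + a = x.2 - a + a`), `top` (`tendsto_atTop_add_const_right`): immediate.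
* `rinv`: `shb a b (shRi a Ri y) = b (Ri (sh a y))`; `base`, `rho`, `inv`, `mem` from the unshifted ones at `sh a y`, `sh a x`.
* `fa_str`: the fields are `fn_smooth`, `fn'_smooth`, `fn_maps`, `fn'_maps`, `fn_left`, `fn_right`, `fn_exact`, `fn_vert` for the shifted
  data (exactly as in `exists_str` in `SEx.lean`; unfold `FA`, `FA'`).
-/

set_option autoImplicit false

open scoped ContDiff Topology RealInnerProductSpace
open Set Filter

namespace Pool.Agent.H2.TI

open Pool.Agent.H57.NL Pool.Agent.H2.TG

variable {m n : ℕ} {N : Set (E m)} {V : E m → E m} {R : ℝ → E m → E m} {Θ : E m × ℝ → ℝ}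
  {M' : ℝ} {Ψ : ℝ → E m × ℝ → E m × ℝ} {b A ρ : E m × ℝ → ℝ} {Ri : E m × ℝ → E m × ℝ}
  {Pr : E m → (E m →L[ℝ] E m)}

private theorem ish_smooth (a : ℝ) : ContDiff ℝ ∞ (sh a : E m × ℝ → E m × ℝ) := by
  unfold sh
  fun_prop

private theorem ish_fderiv (a : ℝ) {g : E m × ℝ → ℝ} (hg : ContDiff ℝ ∞ g) (x : E m × ℝ) :
    HasFDerivAt (fun x => g (sh a x)) (fderiv ℝ g (sh a x)) x := by
  have h1 : HasFDerivAt (sh a : E m × ℝ → E m × ℝ) (ContinuousLinearMap.id ℝ (E m × ℝ)) x := by
    have h2 : HasFDerivAt (fun x : E m × ℝ => (x.1, x.2 - a))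
        ((ContinuousLinearMap.fst ℝ (E m) ℝ).prod (ContinuousLinearMap.snd ℝ (E m) ℝ)) x :=
      hasFDerivAt_fst.prodMk (hasFDerivAt_snd.sub_const a)
    have h3 : (ContinuousLinearMap.fst ℝ (E m) ℝ).prod (ContinuousLinearMap.snd ℝ (E m) ℝ) =
        ContinuousLinearMap.id ℝ (E m × ℝ) := by
      ext x <;> rfl
    rw [h3] at h2
    exact h2
  have h4 : HasFDerivAt g (fderiv ℝ g (sh a x)) (sh a x) :=
    ((hg.differentiable (by simp)) _).hasFDerivAt
  have h5 := h4.comp x h1
  rw [ContinuousLinearMap.comp_id] at h5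
  exact h5

private theorem ish_F (a : ℝ) (Ψ : ℝ → E m × ℝ → E m × ℝ) (t : ℝ) (x : E m × ℝ) :
    sh a (shF a Ψ t x) = Ψ t (sh a x) := by
  show ((Ψ t (sh a x)).1, (Ψ t (sh a x)).2 + a - a) = _
  rw [add_sub_cancel_right]

private theorem ish_b (a : ℝ) (hb : ContDiff ℝ ∞ b) (x : E m × ℝ) :
    fderiv ℝ (shb a b) x = fderiv ℝ b (sh a x) :=
  (ish_fderiv a hb x).fderiv

private theorem ish_A (a : ℝ) (hb : ContDiff ℝ ∞ b) (hA : ContDiff ℝ ∞ A) (x : E m × ℝ) :
    fderiv ℝ (shA a b A) x = fderiv ℝ A (sh a x) + a • fderiv ℝ b (sh a x) :=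
  ((ish_fderiv a hA x).add ((ish_fderiv a hb x).const_mul a)).fderiv

private theorem ish_r (a : ℝ) (hρ : ContDiff ℝ ∞ ρ) (x : E m × ℝ) :
    fderiv ℝ (shr a ρ) x = fderiv ℝ ρ (sh a x) :=
  ((ish_fderiv a hρ x).add_const a).fderiv

private theorem ish_X (a : ℝ) (x : E m × ℝ) :
    XFN V (fun x => Θ (sh a x)) 1 x = XFN V Θ 1 (sh a x) := rfl

theorem str0_shift (h : Str0 n N V R Θ M' Ψ b A ρ Ri Pr) (a : ℝ) :
    Str0 n N V R (fun x => Θ (sh a x)) (M' + |a|) (shF a Ψ) (shb a b) (shA a b A) (shr a ρ)
      (shRi a Ri) Pr where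
  base := h.base
  rho :=
    { act :=
        { smoothb := h.rho.act.smoothb.comp (ish_smooth a)
          smoothA := (h.rho.act.smoothA.comp (ish_smooth a)).add
            (contDiff_const.mul (h.rho.act.smoothb.comp (ish_smooth a)))
          db := by
            intro x hx t
            have h1 := h.rho.act.db (sh a x) hx t
            have h2 : (fun t => shb a b (shF a Ψ t x)) = fun t => b (Ψ t (sh a x)) := by
              funext t
              unfold shb
              rw [ish_F]
            rw [h2]
            show HasDerivAt _ (Real.sin (Θ (sh a (shF a Ψ t x)))) t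
            rw [ish_F]
            exact h1
          dA := by
            intro x hx t
            have h1 := (h.rho.act.dA (sh a x) hx t).add ((h.rho.act.db (sh a x) hx t).const_mul a)
            have h2 : (fun t => shA a b A (shF a Ψ t x)) =
                fun t => A (Ψ t (sh a x)) + a * b (Ψ t (sh a x)) := by
              funext t
              unfold shA
              rw [ish_F]
            rw [h2]
            show HasDerivAt _ ((shF a Ψ t x).2 * Real.sin (Θ (sh a (shF a Ψ t x)))) t
            rw [ish_F]
            have h3 : (shF a Ψ t x).2 = (Ψ t (sh a x)).2 + a := rfl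
            rw [h3, add_mul]
            exact h1
          bot := by
            intro x hx hx2
            have h1 : (sh a x).2 ≤ -M' := by
              show x.2 - a ≤ -M'
              have := neg_abs_le a
              linarith
            obtain ⟨h2, h3⟩ := h.rho.act.bot (sh a x) hx h1
            unfold shb shA
            rw [h2, h3]
            simp }
      smooth := (h.rho.smooth.comp (ish_smooth a)).add contDiff_const
      id := by
        intro x hx c r
        rw [ish_b a h.rho.act.smoothb, ish_A a h.rho.act.smoothb h.rho.act.smoothA]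
        have h1 := h.rho.id (sh a x) hx c r
        have h2 : (sh a x).2 = x.2 - a := rfl
        have h3 : (sh a x).1 = x.1 := rfl
        rw [h2, h3] at h1
        have h4 : (fderiv ℝ A (sh a x) + a • fderiv ℝ b (sh a x)) (c • V x.1, r) =
            fderiv ℝ A (sh a x) (c • V x.1, r) + a * fderiv ℝ b (sh a x) (c • V x.1, r) := rfl
        rw [h4]
        unfold shr
        linear_combination h1
      ker := by
        intro x hx c r hc
        rw [ish_b a h.rho.act.smoothb] at hc
        exact h.rho.ker (sh a x) hx c r hc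
      pos := by
        intro x hx
        rw [ish_r a h.rho.smooth, ish_X]
        exact h.rho.pos (sh a x) hx
      bot := by
        intro x hx hx2
        have h1 : (sh a x).2 ≤ -M' := by
          show x.2 - a ≤ -M'
          have := neg_abs_le a
          linarith
        have h2 := h.rho.bot (sh a x) hx h1
        unfold shr
        rw [h2]
        show x.2 - a + a = x.2
        ring
      top := by
        intro x hx
        have h1 := h.rho.top (sh a x) hx
        have h2 : (fun t => shr a ρ (shF a Ψ t x)) = fun t => ρ (Ψ t (sh a x)) + a := by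
          funext t
          unfold shr
          rw [ish_F]
        rw [h2]
        exact tendsto_atTop_add_const_right _ _ h1 }
  rinv :=
    { smooth := by
        have h1 := h.rinv.smooth.comp (ish_smooth (m := m) a)
        exact h1.fst.prodMk (h1.snd.add contDiff_const)
      mem := fun y hy => h.rinv.mem (sh a y) hy
      base := by
        intro y hy
        have h1 := h.rinv.base (sh a y) hy
        have h2 : sh a (shRi a Ri y) = Ri (sh a y) := by
          unfold shRi sh
          simp
        unfold shb
        rw [h2]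
        exact h1
      rho := by
        intro y hy
        have h1 := h.rinv.rho (sh a y) hy
        have h2 : sh a (shRi a Ri y) = Ri (sh a y) := by
          unfold shRi sh
          simp
        unfold shr
        rw [h2, h1]
        show y.2 - a + a = y.2
        ring
      inv := by
        intro x hx
        have h1 := h.rinv.inv (sh a x) hx
        have h2 : sh a ((R (shb a b x) x.1, shr a ρ x) : E m × ℝ) =
            (R (b (sh a x)) (sh a x).1, ρ (sh a x)) := by
          unfold sh shb shr sh
          simp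
        unfold shRi
        rw [h2, h1]
        unfold sh
        simp }
  proj := h.proj

theorem fa_str (h : Str0 n N V R Θ M' Ψ b A ρ Ri Pr) (a : ℝ) :
    StrN N V (fun x => Θ (sh a x)) (FA V R Pr b A ρ a) (FA' V R Pr b A Ri a) (shA a b A) := by
  have h' := str0_shift h a
  exact
    { smooth := fn_smooth h'.base h'.rho h'.proj
      smooth' := fn'_smooth h'.base h'.rho h'.proj h'.rinv
      smoothA := h'.rho.act.smoothA
      smoothV := h'.base.smooth
      maps := fun z hz => fn_maps h'.base h'.proj hz
      maps' := fun z hz => fn'_maps h'.proj h'.rinv hz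
      left := fun z hz => fn_left h'.base h'.rho h'.proj h'.rinv hz
      right := fun z hz => fn_right h'.base h'.rho h'.proj h'.rinv hz
      exact := fun z hz ζ hζ => fn_exact h'.base h'.rho h'.proj hz hζ
      vert := fun z hz ζ hζ h => fn_vert h'.base h'.rho h'.proj hz hζ h }

theorem sh_zero (g : E m × ℝ → ℝ) : (fun x => g (sh 0 x)) = g := by
  funext x
  unfold sh
  rw [sub_zero]

end Pool.Agent.H2.TI
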