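import Pool.Agent.H2.TI.IDefs
import Pool.Agent.H2.TI.SProj
import Pool.Agent.H2.TI.STN

/-!
# Tangent vectors of the cotangent bundle (module ITan)

PROOFS. `Pr` is smooth and `Pr q w ∈ Tan N q`, `⟪Pr q w, τ⟫ = ⟪w, τ⟫` for `τ ∈ Tan N q`; so `Pr q τ = τ` for `τ ∈ Tan N q` (`pr_self`, by
`tan_unique`) and `Pr q (Pr q w) = Pr q w`.
* `tan_mk`: `c` a curve in `N`, `c 0 = z.1`, `c' 0 = a`. `γ t = (c t, Pr (c t) (z.2 + t • b))` is in `TN N` for small `t`, `γ 0 = z`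
  (`pr_self`), velocity `(a, (DPr(z.1) a) z.2 + Pr z.1 b)`, `Pr z.1 b = b`.
* `tan_snd`: a curve `γ` in `TN N` with velocity `v`: `(γ t).2 = Pr (γ t).1 (γ t).2`, differentiate at `0`.
* `dpr_orth`: `c` a curve in `N` with velocity `a` at `q`: `Pr (c t) (Pr (c t) p) = Pr (c t) p`; differentiate:
  `(DPr a)(Pr q p) + Pr q ((DPr a) p) = (DPr a) p`, `Pr q p = p`, so `Pr q ((DPr a) p) = 0` and `⟪(DPr a) p, v⟫ = ⟪Pr q (…), v⟫ = 0`.
* `om_nondeg`: `u = (a, (DPr a) z.2 + b)` with `a = u.1`, `b = Pr z.1 u.2 ∈ Tan N z.1` (`tan_snd`). Test vectors `v = (0, τ)` and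
  `v = (τ, (DPr τ) z.2)`, `τ ∈ Tan N z.1` (`tan_mk`): `om u (0, τ) = -⟪τ, a⟫`, so (τ = a, `tan_fst`) `a = 0`; then `u.2 = b` and
  `om u (τ, …) = ⟪b, τ⟫`, so `b = 0`.
-/

set_option autoImplicit false

open scoped ContDiff Topology RealInnerProductSpace
open Set Filter

namespace Pool.Agent.H2.TI

open Pool.Agent.H57.NL Pool.Agent.H2.TG

variable {m n : ℕ} {N : Set (E m)} {Pr : E m → (E m →L[ℝ] E m)}

theorem pr_self (hN : IsSubmfd n N) (hPr : ProjN N Pr) {q τ : E m} (hq : q ∈ N)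
    (hτ : τ ∈ Tan N q) : Pr q τ = τ :=
  tan_unique hN hq (hPr.mem q hq τ) hτ fun v hv => hPr.orth q hq τ v hv

private theorem itan_pr (hPr : ProjN N Pr) {c : ℝ → E m} {a : E m} (hc : HasDerivAt c a 0) :
    HasDerivAt (fun t => Pr (c t)) (fderiv ℝ Pr (c 0) a) 0 :=
  ((hPr.smooth.differentiable (by simp) (c 0)).hasFDerivAt).comp_hasDerivAt (0 : ℝ) hc

theorem tan_mk (hN : IsSubmfd n N) (hPr : ProjN N Pr) {z : E m × E m} (hz : z ∈ TN N) {a b : E m}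
    (ha : a ∈ Tan N z.1) (hb : b ∈ Tan N z.1) :
    (a, fderiv ℝ Pr z.1 a z.2 + b) ∈ Tan (TN N) z := by
  obtain ⟨c, h0, hS, hd⟩ := ha
  have hb' : Pr z.1 b = b := pr_self hN hPr hz.1 hb
  refine ⟨fun t => (c t, Pr (c t) (z.2 + t • b)), ?_, ?_, ?_⟩
  · refine Prod.ext h0 ?_
    show Pr (c 0) (z.2 + (0 : ℝ) • b) = z.2
    rw [h0, zero_smul, add_zero]
    exact pr_self hN hPr hz.1 hz.2
  · filter_upwards [hS] with t ht
    exact ⟨ht, hPr.mem _ ht _⟩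
  · have h1 := itan_pr hPr hd
    have h2 : HasDerivAt (fun t : ℝ => z.2 + t • b) b 0 := by
      simpa using ((hasDerivAt_id (0 : ℝ)).smul_const b).const_add z.2
    have h3 := h1.clm_apply h2
    simp only [zero_smul, add_zero, h0, hb'] at h3
    exact hd.prodMk h3

theorem tan_snd (hN : IsSubmfd n N) (hPr : ProjN N Pr) {z v : E m × E m} (hz : z ∈ TN N)
    (hv : v ∈ Tan (TN N) z) : v.2 = fderiv ℝ Pr z.1 v.1 z.2 + Pr z.1 v.2 := by
  obtain ⟨γ, h0, hS, hd⟩ := hv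
  subst h0
  have d1 : HasDerivAt (fun t => (γ t).1) v.1 0 := hd.fst
  have d2 : HasDerivAt (fun t => (γ t).2) v.2 0 := hd.snd
  have h1 := (itan_pr hPr d1).clm_apply d2
  have h2 : (fun t => (γ t).2) =ᶠ[𝓝 0] fun t => Pr (γ t).1 (γ t).2 := by
    filter_upwards [hS] with t ht
    exact (pr_self hN hPr ht.1 ht.2).symm
  exact d2.unique (h1.congr_of_eventuallyEq h2)

theorem dpr_orth (hN : IsSubmfd n N) (hPr : ProjN N Pr) {q a p v : E m} (hq : q ∈ N)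
    (ha : a ∈ Tan N q) (hp : p ∈ Tan N q) (hv : v ∈ Tan N q) : ⟪fderiv ℝ Pr q a p, v⟫ = 0 := by
  obtain ⟨c, h0, hS, hd⟩ := ha
  subst h0
  have h1 := itan_pr hPr hd
  have h2 : HasDerivAt (fun t => Pr (c t) p) (fderiv ℝ Pr (c 0) a p) 0 := by
    have := h1.clm_apply (hasDerivAt_const (0 : ℝ) p)
    simpa using this
  have h3 := h1.clm_apply h2
  have h4 : (fun t => Pr (c t) p) =ᶠ[𝓝 0] fun t => Pr (c t) (Pr (c t) p) := by
    filter_upwards [hS] with t ht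
    exact (pr_self hN hPr ht (hPr.mem _ ht p)).symm
  have h5 := h2.unique (h3.congr_of_eventuallyEq h4)
  rw [pr_self hN hPr hq hp] at h5
  have h6 : Pr (c 0) (fderiv ℝ Pr (c 0) a p) = 0 := by
    have : fderiv ℝ Pr (c 0) a p + 0
        = fderiv ℝ Pr (c 0) a p + Pr (c 0) (fderiv ℝ Pr (c 0) a p) := by
      rw [add_zero]; exact h5
    exact (add_left_cancel this).symm
  rw [← hPr.orth (c 0) hq _ v hv, h6, inner_zero_left]

theorem om_nondeg (hN : IsSubmfd n N) (hPr : ProjN N Pr) {z u : E m × E m} (hz : z ∈ TN N)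
    (hu : u ∈ Tan (TN N) z) (h : ∀ v ∈ Tan (TN N) z, om u v = 0) : u = 0 := by
  have h0 : (0 : E m) ∈ Tan N z.1 := hN.tan_zero hz.1
  have hu1 : u.1 ∈ Tan N z.1 := tan_fst hu
  have e1 : u.1 = 0 := by
    have h1 := h _ (tan_mk hN hPr hz h0 hu1)
    unfold om at h1
    simp only [map_zero, _root_.zero_apply, zero_add, inner_zero_right,
      zero_sub, neg_eq_zero] at h1
    exact inner_self_eq_zero.1 h1
  have h2 := tan_snd hN hPr hz hu
  rw [e1] at h2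
  simp only [map_zero, _root_.zero_apply, zero_add] at h2
  have hu2 : u.2 ∈ Tan N z.1 := by
    rw [h2]; exact hPr.mem _ hz.1 _
  have e2 : u.2 = 0 := by
    have h1 := h _ (tan_mk hN hPr hz hu2 h0)
    unfold om at h1
    rw [e1, inner_zero_right, sub_zero] at h1
    exact inner_self_eq_zero.1 h1
  exact Prod.ext e1 e2

end Pool.Agent.H2.TI
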