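import Pool.Agent.H2.TI.ITan
import Pool.Agent.H2.TI.SStr

/-!
# The Hamiltonian vector field (module IXH)

PROOFS. `a = Pr z.1 (vec ∂_pK)`, `c = Pr z.1 (vec (∂_qK + ∂_pK ∘ (DPr ·) z.2))`, `XH = (a, (DPr a) z.2 - c)`.
* `xh_tan`: `tan_mk` with `b = -c` (`Tan.smul` with `-1`, `sub_eq_add_neg`).
* `xh_om`: `v ∈ Tan (TN N) z`, `v.1 ∈ Tan N z.1` (`tan_fst`), `v.2 = (DPr v.1) z.2 + Pr z.1 v.2` (`tan_snd`), `z.2 ∈ Tan N z.1`.
  `⟪XH.2, v.1⟫ = 0 - ⟪c, v.1⟫ = -(∂_qK v.1 + ∂_pK ((DPr v.1) z.2))` (`dpr_orth`, `ProjN.orth`, `vec_inner`, `ContinuousLinearMap.flip_apply`),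
  `⟪v.2, XH.1⟫ = ⟪(DPr v.1) z.2, a⟫ + ⟪Pr z.1 v.2, a⟫ = 0 + ⟪vec ∂_pK, Pr z.1 v.2⟫ = ∂_pK (Pr z.1 v.2)`. So
  `om XH v = -(∂_qK v.1 + ∂_pK v.2) = -DK(z) v`.
* `xh_smooth`: `(s, z) ↦ fderiv ℝ (K s) z` is smooth (`ContDiff.fderiv` for the jointly smooth `K`), `vec` is a continuous linear map
  (`ssm_vec` in `SSmooth.lean`, private, to be copied), `ContinuousLinearMap.flip` is (bounded) linear and so smooth
  (`ContinuousLinearMap.flipₗᵢ`), `ContDiff.clm_comp`, `ContDiff.clm_apply`, `ContDiff.fderiv_right`.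
* `xh_zero`: `vec 0 = 0`.
-/

set_option autoImplicit false

open scoped ContDiff Topology RealInnerProductSpace
open Set Filter

namespace Pool.Agent.H2.TI

open Pool.Agent.H57.NL Pool.Agent.H2.TG

variable {m n : ℕ} {N : Set (E m)} {Pr : E m → (E m →L[ℝ] E m)}

private theorem ixh_vec : ContDiff ℝ ∞ (fun l : E m →L[ℝ] ℝ => vec l) := by
  let L : (E m →L[ℝ] ℝ) →ₗ[ℝ] E m :=
    { toFun := fun l => vec l
      map_add' := fun l l' => by simp [vec]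
      map_smul' := fun c l => by simp [vec] }
  exact (LinearMap.toContinuousLinearMap L).contDiff

private theorem ixh_flip : ContDiff ℝ ∞ (fun l : E m →L[ℝ] E m →L[ℝ] E m => l.flip) := by
  have h : ContDiff ℝ ∞ (ContinuousLinearMap.flipₗᵢ ℝ (E m) (E m) (E m)) :=
    LinearIsometryEquiv.contDiff _
  exact h

private theorem ixh_inr (K : E m × E m → ℝ) (z : E m × E m) (w : E m) :
    ((fderiv ℝ K z).comp (ContinuousLinearMap.inr ℝ (E m) (E m))) w = fderiv ℝ K z (0, w) := by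
  simp

theorem xh_tan (hN : IsSubmfd n N) (hPr : ProjN N Pr) (K : E m × E m → ℝ) {z : E m × E m}
    (hz : z ∈ TN N) : XH Pr K z ∈ Tan (TN N) z := by
  have h1 := tan_mk hN hPr hz
    (a := Pr z.1 (vec ((fderiv ℝ K z).comp (ContinuousLinearMap.inr ℝ (E m) (E m)))))
    (b := (-1 : ℝ) • Pr z.1 (vec ((fderiv ℝ K z).comp (ContinuousLinearMap.inl ℝ (E m) (E m))
        + ((fderiv ℝ K z).comp (ContinuousLinearMap.inr ℝ (E m) (E m))).comp
          ((fderiv ℝ Pr z.1).flip z.2)))) (hPr.mem _ hz.1 _) (Tan.smul (hPr.mem _ hz.1 _) _)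
  rw [neg_one_smul, ← sub_eq_add_neg] at h1
  exact h1

theorem xh_om (hN : IsSubmfd n N) (hPr : ProjN N Pr) (K : E m × E m → ℝ) {z v : E m × E m}
    (hz : z ∈ TN N) (hv : v ∈ Tan (TN N) z) : om (XH Pr K z) v = -fderiv ℝ K z v := by
  have hv1 : v.1 ∈ Tan N z.1 := tan_fst hv
  have hv2 := tan_snd hN hPr hz hv
  have ha : Pr z.1 (vec ((fderiv ℝ K z).comp (ContinuousLinearMap.inr ℝ (E m) (E m)))) ∈
      Tan N z.1 := hPr.mem _ hz.1 _
  have h1 : ⟪(XH Pr K z).2, v.1⟫ = -(fderiv ℝ K z (v.1, 0)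
      + fderiv ℝ K z (0, fderiv ℝ Pr z.1 v.1 z.2)) := by
    unfold XH
    rw [inner_sub_left, dpr_orth hN hPr hz.1 ha hz.2 hv1, hPr.orth _ hz.1 _ _ hv1, vec_inner]
    simp
  have h2 : ⟪v.2, (XH Pr K z).1⟫ = fderiv ℝ K z (0, Pr z.1 v.2) := by
    unfold XH
    rw [hv2, inner_add_left, dpr_orth hN hPr hz.1 hv1 hz.2 ha]
    rw [← hv2, zero_add, real_inner_comm, hPr.orth _ hz.1 _ _ (hPr.mem _ hz.1 _), vec_inner]
    simp
  have h3 : v = (v.1, 0) + (0, fderiv ℝ Pr z.1 v.1 z.2) + (0, Pr z.1 v.2) := by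
    refine Prod.ext ?_ ?_
    · simp
    · simpa using hv2
  unfold om
  rw [h1, h2]
  conv_rhs => rw [h3]
  rw [map_add, map_add]
  ring

theorem xh_smooth (hPr : ProjN N Pr) {K : ℝ → E m × E m → ℝ}
    (hK : ContDiff ℝ ∞ fun x : ℝ × (E m × E m) => K x.1 x.2) :
    ContDiff ℝ ∞ fun x : ℝ × (E m × E m) => XH Pr (K x.1) x.2 := by
  have hD : ContDiff ℝ ∞ (fun x : ℝ × (E m × E m) => fderiv ℝ (K x.1) x.2) := by
    have h : ContDiff ℝ ∞ (Function.uncurry (fun x : ℝ × (E m × E m) => K x.1)) :=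
      hK.comp ((contDiff_fst.comp contDiff_fst).prodMk contDiff_snd)
    exact ContDiff.fderiv h contDiff_snd (by simp)
  have hr : ContDiff ℝ ∞ (fun x : ℝ × (E m × E m) =>
      (fderiv ℝ (K x.1) x.2).comp (ContinuousLinearMap.inr ℝ (E m) (E m))) :=
    hD.clm_comp contDiff_const
  have hl : ContDiff ℝ ∞ (fun x : ℝ × (E m × E m) =>
      (fderiv ℝ (K x.1) x.2).comp (ContinuousLinearMap.inl ℝ (E m) (E m))) :=
    hD.clm_comp contDiff_const
  have hq : ContDiff ℝ ∞ (fun x : ℝ × (E m × E m) => x.2.1) := contDiff_fst.comp contDiff_snd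
  have hp : ContDiff ℝ ∞ (fun x : ℝ × (E m × E m) => x.2.2) := contDiff_snd.comp contDiff_snd
  have hP : ContDiff ℝ ∞ (fun x : ℝ × (E m × E m) => Pr x.2.1) := hPr.smooth.comp hq
  have hDP : ContDiff ℝ ∞ (fun x : ℝ × (E m × E m) => fderiv ℝ Pr x.2.1) :=
    (hPr.smooth.fderiv_right (m := ∞) (by simp)).comp hq
  have ha : ContDiff ℝ ∞ (fun x : ℝ × (E m × E m) => Pr x.2.1 (vec
      ((fderiv ℝ (K x.1) x.2).comp (ContinuousLinearMap.inr ℝ (E m) (E m))))) :=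
    hP.clm_apply (ixh_vec.comp hr)
  unfold XH
  exact ha.prodMk (((hDP.clm_apply ha).clm_apply hp).sub
    (hP.clm_apply (ixh_vec.comp (hl.add (hr.clm_comp ((ixh_flip.comp hDP).clm_apply hp))))))

theorem xh_zero {K : E m × E m → ℝ} {z : E m × E m} (h : fderiv ℝ K z = 0) : XH Pr K z = 0 := by
  have hv : vec (0 : E m →L[ℝ] ℝ) = 0 := by simp [vec]
  unfold XH
  rw [h]
  simp only [ContinuousLinearMap.zero_comp, add_zero, hv, map_zero, _root_.zero_apply, sub_self]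
  rfl

end Pool.Agent.H2.TI
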