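import Pool.Agent.H2.TI.SideOff
import Pool.Agent.H2.TI.Far

/-!
# Leaves are injective (module LeafInj)

PROOF. `PLeaf.dich`; suppose `c` is closed with period `P`, embedded. Let `s₀ = 0`, `s₁ = -P/2`,
`W z = (Wn c φ s₁ (P/2) z).im`. For `z ∉ Z`, by `wn_exp` and `c (P/2) = c (-P/2)`, `exp (Wn) = 1`, so `W z ∈ 2 π ℤ`;
`W` is continuous on `Zᶜ` (`wn_cont`), so constant along paths in `Zᶜ` (a continuous function on `[0, 1]` with
values in `2 π ℤ` is constant); at `(0, M)` it is zero by `wn_above` (`PSet.bdd`), at `(0, -M)` by `wn_below`. By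
`exists_far`, `W = 0` on `Zᶜ`, in particular at `side c φ 0 e` and `side c φ 0 (-e)` for small `e > 0` (`side_off`):
contradiction to `wn_jump` with `μ = 1` (hypothesis `hinj`: if `c s = c 0`, `|s| ≤ P/2 < P` then `s = 0`).
-/

set_option autoImplicit false

open scoped ContDiff Topology
open Set

namespace Pool.Agent.H2.TI

variable {Z : Set (ℝ × ℝ)} {M K δ : ℝ} {F : ℝ × ℝ → ℝ} {c : ℝ → ℝ × ℝ} {φ : ℝ → ℝ}

theorem leaf_inj (hZ : PSet Z M K δ F) (hc : PLeaf Z δ c φ) : Function.Injective c := by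
  rcases hc.dich with h | ⟨P, hP, hper, hemb⟩
  · exact h
  exfalso
  have hπ := Real.pi_pos
  have hab : -P / 2 ≤ P / 2 := by linarith
  have hcab : c (P / 2) = c (-P / 2) := by
    rw [← hper (-P / 2)]
    congr 1
    ring
  have hne : ∀ z, z ∉ Z → ∀ s ∈ Icc (-P / 2) (P / 2), c s ≠ z := fun z hz s _ h =>
    hz (h ▸ hc.mem s)
  have hval : ∀ z, z ∉ Z → (Wn c φ (-P / 2) (P / 2) z).im ∈
      (AddSubgroup.zmultiples (2 * Real.pi) : Set ℝ) := by
    intro z hz
    have h1 := wn_exp hc.pc hab (hne z hz)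
    have h2 : cx (c (-P / 2)) - cx z ≠ 0 := fun h3 =>
      hne z hz (-P / 2) ⟨le_rfl, hab⟩ (cx_inj (sub_eq_zero.1 h3))
    rw [hcab, div_self h2, Complex.exp_eq_one_iff] at h1
    obtain ⟨n, hn⟩ := h1
    rw [SetLike.mem_coe, AddSubgroup.mem_zmultiples_iff]
    refine ⟨n, ?_⟩
    rw [hn, zsmul_eq_mul]
    simp
  have hpath : ∀ z w, JoinedIn Zᶜ z w → (Wn c φ (-P / 2) (P / 2) z).im =
      (Wn c φ (-P / 2) (P / 2) w).im := by
    intro z w h
    have hr : IsPreconnected (range h.somePath) := isPreconnected_range h.somePath.continuous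
    have hsub : range h.somePath ⊆ Zᶜ := by
      rintro _ ⟨t, rfl⟩
      exact h.somePath_mem t
    have hco : ContinuousOn (fun z => (Wn c φ (-P / 2) (P / 2) z).im) (range h.somePath) :=
      Complex.continuous_im.comp_continuousOn ((wn_cont hc.pc hab).mono fun z hz =>
        hne z (hsub hz))
    have hdis : IsDiscrete (AddSubgroup.zmultiples (2 * Real.pi) : Set ℝ) := ⟨by
      change DiscreteTopology (AddSubgroup.zmultiples (2 * Real.pi))
      infer_instance⟩
    exact hr.constant_of_mapsTo hdis hco (fun z hz => hval z (hsub hz)) ⟨0, h.somePath.source⟩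
      ⟨1, h.somePath.target⟩
  have hzero : ∀ z, z ∉ Z → (Wn c φ (-P / 2) (P / 2) z).im = 0 := by
    intro z hz
    rcases exists_far hZ hz with h | h
    · rw [hpath _ _ h, wn_above hc.pc hab fun s _ => (abs_lt.1 (hZ.bdd _ (hc.mem s))).2, hcab,
        sub_self]
    · rw [hpath _ _ h, wn_below hc.pc hab fun s _ => (abs_lt.1 (hZ.bdd _ (hc.mem s))).1, hcab,
        sub_self]
  obtain ⟨e₀, he₀, hj⟩ := wn_jump hc.pc (a := -P / 2) (b := P / 2) (s₀ := 0) (by linarith)
    (by linarith) (fun s hs h => by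
      rcases lt_trichotomy s 0 with h1 | h1 | h1
      · exact absurd h (hemb s 0 h1 (by linarith [hs.1]))
      · exact h1
      · exact absurd h.symm (hemb 0 s h1 (by linarith [hs.2]))) (μ := 1) one_pos
  obtain ⟨e₁, he₁, hs⟩ := side_off hZ hc 0
  have he : 0 < min e₀ e₁ / 2 := by positivity
  have h1 : min e₀ e₁ / 2 < e₀ := by linarith [min_le_left e₀ e₁, lt_min he₀ he₁]
  have h2 : min e₀ e₁ / 2 < e₁ := by linarith [min_le_right e₀ e₁, lt_min he₀ he₁]
  have h3 := hj _ he h1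
  rw [hzero _ (hs _ he.ne' (by rw [abs_of_pos he]; exact h2)),
    hzero _ (hs _ (neg_ne_zero.2 he.ne') (by rw [abs_neg, abs_of_pos he]; exact h2)), sub_zero,
    zero_sub, abs_neg, abs_of_pos (by positivity)] at h3
  linarith [Real.pi_gt_three]

end Pool.Agent.H2.TI
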