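import Pool.Agent.H2.TI.PConf

/-!
# Planar flows with a curve with gates have no trapped orbits (module PAll)

PROOF of `on_orbit`. Choose (`right`, `left`) parameters `s₋ < s₊` with `(c s₊).1 > x.1 + P + w` and
`(c s₋).1 < x.1 - P - w`. Let `D₁` be a bound of `|(c s).1|` on `[s₋, s₊]` (compact, continuous) and
`D₀ = |x.1| + D₁ + P + w`; cut off (`exists_pcut`): `θ'`, `D`, flow `Ψ'`, `b, T` (`pbot`). `g s = b (c s)` is strictly
increasing on `[s₋, s₊]` (`bc_mono`) and for `s` in this interval `Ψ' t (c s) = Ψ t (c s)` (`conf_agree`) stays within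
`P + w` of `(c s).1` for all `t` (`conf_fwd`, `conf_bwd`).
Claim `b x ≤ g s₊`: otherwise, moving to the left, `b (x.1 - λ, x.2)` is continuous, `> g s₊` at `λ = 0` and
`= x.1 - λ → -∞` for large `λ` (`PBot.lat`), so it is equal to `g s₊` for some `λ ≥ 0`; the point
`(x.1 - λ, x.2)` has the same bottom coordinate as `c s₊`, so (`PBot.eq` for both, `IsFlow.add`) it is `Ψ' t (c s₊)` for
some `t`; its first coordinate is `≥ (c s₊).1 - P - w > x.1`: contradiction. In the same way (move to the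
right) `g s₋ ≤ b x`. By the intermediate value theorem there is `s ∈ [s₋, s₊]` with `g s = b x`, so
`x = Ψ' t (c s) = Ψ t (c s)` with `t = T x - T (c s)`.
PROOF of `pgood_curve`. `ε = 1 / (100 (K + 2))` (`pnoret_all`), `N` from `putime M (2 (P + w)) ε`, `τ = N + 1`. Let
`|x.2| ≤ M`, `x = Ψ t₀ (c s)`. For all `t`: `|(Ψ t x).1 - x.1| ≤ |(Ψ (t + t₀) (c s)).1 - (c s).1| +
|(Ψ t₀ (c s)).1 - (c s).1| ≤ 2 (P + w)` (`conf_fwd`, `conf_bwd`, `IsFlow.add`). So `putime` applies in both directions.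
-/

set_option autoImplicit false

open scoped ContDiff Topology
open Set

namespace Pool.Agent.H2.TI

open Pool.Agent.H2.TG

variable {θ : ℝ × ℝ → ℝ} {M K w P : ℝ} {c : ℝ → ℝ × ℝ} {Ψ : ℝ → ℝ × ℝ → ℝ × ℝ}

private theorem pall_eq {θ' : ℝ × ℝ → ℝ} {M' D' : ℝ} {Ψ' : ℝ → ℝ × ℝ → ℝ × ℝ} {b T : ℝ × ℝ → ℝ}
    (hX : ContDiff ℝ ∞ (PX θ' 1)) (hF : IsFlow (PX θ' 1) Ψ') (hB : PBot θ' 1 M' D' Ψ' b T)
    {p q : ℝ × ℝ} (h : b p = b q) : Ψ' (T p - T q) q = p := by
  have h1 := hB.eq p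
  have h2 := hB.eq q
  rw [← h] at h2
  have h3 := hF.add hX (T p - T q) (T q) (b p, -M')
  rw [h2, sub_add_cancel, h1] at h3
  exact h3

private theorem pall_conf (hP : PPhase θ M K) (hF : IsFlow (PX θ 1) Ψ)
    (hc : PCurve θ M w P c Ψ) (s t : ℝ) : |(Ψ t (c s)).1 - (c s).1| ≤ P + w := by
  rcases le_total 0 t with h | h
  · exact conf_fwd hP hF hc s h
  · exact conf_bwd hP hF hc s h

theorem on_orbit (hP : PPhase θ M K) (hF : IsFlow (PX θ 1) Ψ) (hc : PCurve θ M w P c Ψ)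
    (x : ℝ × ℝ) : ∃ s t, Ψ t (c s) = x := by
  obtain ⟨s₂, hs₂⟩ := (hc.right.eventually_gt_atTop (x.1 + P + w)).exists
  obtain ⟨s₁, hs₁, hs₁₂⟩ := ((hc.left.eventually_lt_atBot (x.1 - P - w)).and
    (Filter.eventually_le_atBot s₂)).exists
  set D₀ : ℝ := |(c s₁).1| + (s₂ - s₁) + P + w with hD₀
  have hI0 : ∀ s ∈ Icc s₁ s₂, |(c s).1| + P + w ≤ D₀ := by
    intro s hs
    have h1 := c_speed hc s₁ s
    have h2 : |(c s).1| ≤ |(c s₁).1| + |(c s).1 - (c s₁).1| := by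
      have h3 := abs_add_le (c s₁).1 ((c s).1 - (c s₁).1)
      rwa [add_sub_cancel] at h3
    rw [abs_of_nonneg (sub_nonneg.2 hs.1)] at h1
    have h3 := hs.2
    linarith
  have hPw : 0 ≤ P + w := add_nonneg hc.hP.le hc.hw
  have hI : ∀ s ∈ Icc s₁ s₂, |(c s).1| ≤ D₀ := fun s hs => by
    have h1 := hI0 s hs
    linarith
  obtain ⟨θ', D, hP', hD', heq, -⟩ := exists_pcut hP D₀
  obtain ⟨Ψ₀, hΨ₀, -⟩ := exists_PFlow hP'
  have hF' := hΨ₀ 1
  have hX' := PX_contDiff hP' 1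
  set Ψ' := Ψ₀ 1 with hΨ'
  obtain ⟨b, T, hB⟩ := pbot hP' hD' hF'
  have hbc : Continuous b := hB.smooth.continuous
  have hmono := bc_mono hc hP' hB heq hI
  have hag : ∀ s ∈ Icc s₁ s₂, ∀ t, Ψ' t (c s) = Ψ t (c s) := fun s hs t =>
    conf_agree hP hF hc hP' hF' heq (hI0 s hs) t
  have hm1 : s₁ ∈ Icc s₁ s₂ := ⟨le_rfl, hs₁₂⟩
  have hm2 : s₂ ∈ Icc s₁ s₂ := ⟨hs₁₂, le_rfl⟩
  -- upper bound
  have hup : b x ≤ b (c s₂) := by
    by_contra hcon
    push Not at hcon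
    have hD0 := hD'.1
    set L : ℝ := |x.1| + D + |b (c s₂)| with hL
    have hL0 : 0 ≤ L := by positivity
    have hβ : ContinuousOn (fun l : ℝ => b (x.1 - l, x.2)) (Icc 0 L) := by
      have h1 : Continuous fun l : ℝ => b (x.1 - l, x.2) :=
        hbc.comp (by fun_prop)
      exact h1.continuousOn
    have hLe : b (x.1 - L, x.2) ≤ b (c s₂) := by
      have h1 : b (x.1 - L, x.2) = x.1 - L := by
        refine hB.lat _ ?_
        show D ≤ |x.1 - L|
        have h2 := neg_abs_le (x.1 - L)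
        have h3 := le_abs_self x.1
        have h4 := abs_nonneg (b (c s₂))
        linarith
      rw [h1]
      have h3 := le_abs_self x.1
      have h4 := neg_abs_le (b (c s₂))
      linarith
    obtain ⟨l, hl, hl'⟩ := intermediate_value_Icc' hL0 hβ
      (show b (c s₂) ∈ Icc (b (x.1 - L, x.2)) (b (x.1 - 0, x.2)) from ⟨hLe, by
        rw [sub_zero]
        exact hcon.le⟩)
    have h1 := pall_eq hX' hF' hB (p := (x.1 - l, x.2)) (q := c s₂) hl'
    rw [hag s₂ hm2] at h1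
    have h2 := pall_conf hP hF hc s₂ (T (x.1 - l, x.2) - T (c s₂))
    rw [h1] at h2
    have h3 := (abs_le.1 h2).1
    simp only at h3
    have h4 := hl.1
    linarith
  have hdn : b (c s₁) ≤ b x := by
    by_contra hcon
    push Not at hcon
    have hD0 := hD'.1
    set L : ℝ := |x.1| + D + |b (c s₁)| with hL
    have hL0 : 0 ≤ L := by positivity
    have hβ : ContinuousOn (fun l : ℝ => b (x.1 + l, x.2)) (Icc 0 L) := by
      have h1 : Continuous fun l : ℝ => b (x.1 + l, x.2) :=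
        hbc.comp (by fun_prop)
      exact h1.continuousOn
    have hLe : b (c s₁) ≤ b (x.1 + L, x.2) := by
      have h1 : b (x.1 + L, x.2) = x.1 + L := by
        refine hB.lat _ ?_
        show D ≤ |x.1 + L|
        have h2 := le_abs_self (x.1 + L)
        have h3 := neg_abs_le x.1
        have h4 := abs_nonneg (b (c s₁))
        linarith
      rw [h1]
      have h3 := neg_abs_le x.1
      have h4 := le_abs_self (b (c s₁))
      linarith
    obtain ⟨l, hl, hl'⟩ := intermediate_value_Icc hL0 hβ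
      (show b (c s₁) ∈ Icc (b (x.1 + 0, x.2)) (b (x.1 + L, x.2)) from ⟨by
        rw [add_zero]
        exact hcon.le, hLe⟩)
    have h1 := pall_eq hX' hF' hB (p := (x.1 + l, x.2)) (q := c s₁) hl'
    rw [hag s₁ hm1] at h1
    have h2 := pall_conf hP hF hc s₁ (T (x.1 + l, x.2) - T (c s₁))
    rw [h1] at h2
    have h3 := (abs_le.1 h2).2
    simp only at h3
    have h4 := hl.1
    linarith
  have hcc : Continuous c := continuous_iff_continuousAt.2 fun s => (hc.deriv s).continuousAt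
  obtain ⟨s, hs, hs'⟩ := intermediate_value_Icc hs₁₂
    (f := fun s => b (c s)) (hbc.comp hcc).continuousOn
    (show b x ∈ Icc (b (c s₁)) (b (c s₂)) from ⟨hdn, hup⟩)
  have h1 := pall_eq hX' hF' hB (p := x) (q := c s) (show b x = b (c s) from hs'.symm)
  rw [hag s hs] at h1
  exact ⟨s, _, h1⟩

theorem pgood_curve (M w P : ℝ) {K : ℝ} (hK : 0 < K) : ∃ τ : ℝ, 0 < τ ∧
    ∀ (θ : ℝ × ℝ → ℝ) (c : ℝ → ℝ × ℝ) (Ψ : ℝ → ℝ × ℝ → ℝ × ℝ), PPhase θ M K →
      IsFlow (PX θ 1) Ψ → PCurve θ M w P c Ψ → GoodP M τ Ψ := by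
  have hε : 0 < 1 / (100 * (K + 2)) := by positivity
  obtain ⟨N, hN0, hN⟩ := putime M (2 * (P + w)) hε
  refine ⟨(N : ℝ) + 1, by positivity, fun θ c Ψ hP hF hc x hx => ?_⟩
  have hX := PX_contDiff hP 1
  have hret : ∀ x t, 1 ≤ |t| → 1 / (100 * (K + 2)) ≤ ‖Ψ t x - x‖ :=
    fun x t ht => pnoret_all hP hF x t ht
  obtain ⟨s, t₀, hs⟩ := on_orbit hP hF hc x
  have hcf : ∀ t, |(Ψ t x).1 - x.1| ≤ 2 * (P + w) := by
    intro t
    rw [← hs, hF.add hX]
    have h1 := pall_conf hP hF hc s (t + t₀)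
    have h2 := pall_conf hP hF hc s t₀
    have h3 := abs_le.1 h1
    have h4 := abs_le.1 h2
    rw [abs_le]
    constructor <;> linarith [h3.1, h3.2, h4.1, h4.2]
  have h1 := hN θ K 1 Ψ hP hF hret x hx
  exact ⟨h1.1 fun t _ => hcf t, h1.2 fun t _ => hcf t⟩

end Pool.Agent.H2.TI
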