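import Pool.Agent.H2.TI.NCurve
import Pool.Agent.H2.TI.PAll

/-!
# No trapped orbits over `N` (module NGood)
-/

set_option autoImplicit false

open scoped ContDiff Topology RealInnerProductSpace
open Set Filter

namespace Pool.Agent.H2.TI

open Pool.Agent.H57.NL Pool.Agent.H2.TG

variable {m n : ℕ} {N : Set (E m)} {V : E m → E m} {R : ℝ → E m → E m} {C : Set (E m × ℝ)}
  {M : ℝ} {κ : (E m × ℝ) × ℝ → ℝ} {Λ : ℝ → (E m × ℝ) × ℝ → (E m × ℝ) × ℝ} {F : E m × ℝ → ℝ}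
  {Θ : E m × ℝ → ℝ} {Ψ : ℝ → E m × ℝ → E m × ℝ}

theorem goodN (h : LeafN n N V R C M κ Λ F) (hΘ : PhaseI Θ (M + 1))
    (hC : ∀ x ∈ RPN N V C Λ, Θ x.1 = x.2) (hZ : ∀ y ∈ ZUp R C M ∪ ZDn R C M, |Θ y| ≤ 1 / 5)
    (hΨ : IsFlow (XFN V Θ 1) Ψ) : ∃ τ : ℝ, 0 < τ ∧ GoodN N (M + 1) τ Ψ := by
  obtain ⟨K, hK, hPP⟩ := pphaseN h.base hΘ
  obtain ⟨P', hP'⟩ := exists_pcurveN h hΘ hC hZ
  obtain ⟨τ, hτ, hG⟩ := pgood_curve (M + 1) (2 * (M + 1)) P' hK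
  refine ⟨τ, hτ, fun x hx hx2 => ?_⟩
  obtain ⟨Φ, hΦ, -⟩ := exists_PFlow (hPP x.1 hx)
  obtain ⟨c, hc⟩ := hP' x.1 hx K (Φ 1) (hPP x.1 hx) (hΦ 1)
  have h1 := hG _ c (Φ 1) (hPP x.1 hx) (hΦ 1) hc (0, x.2) hx2
  have h2 : ∀ t, (Ψ t x).2 = (Φ 1 t (0, x.2)).2 := by
    intro t
    have h3 := plane_flow h.base hΘ hΨ (hΦ 1) t (0, x.2)
    simp only [R_zero h.base] at h3
    have h4 : ((x.1, x.2) : E m × ℝ) = x := rfl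
    rw [h4] at h3
    rw [h3]
  rw [h2, h2]
  exact h1

end Pool.Agent.H2.TI
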