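import Pool.Agent.H2.TI.NLine

/-!
# The phase set (module NPS)

PROOFS: copy the proved file `H2/TG/PSb.lean` (`PS_closed`, `PS_pi`, `PS_unique`, `PS_exists`).
* `PSN_compact`: closed, and bounded: `x.1.1 ∈ N` (compact), `|x.1.2| < M`, `|x.2| ≤ B`.
-/

set_option autoImplicit false

open scoped ContDiff Topology RealInnerProductSpace
open Set

namespace Pool.Agent.H2.TI

open Pool.Agent.H57.NL Pool.Agent.H2.TG

variable {m n : ℕ} {N : Set (E m)} {V : E m → E m} {R : ℝ → E m → E m} {C : Set (E m × ℝ)}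
  {M : ℝ}

private theorem NPS_cont {W : Set (E m × ℝ)} {u : E m × ℝ → ℝ} (hV : ContDiff ℝ ∞ V)
    (hC : LocN N V C W u) {x : (E m × ℝ) × ℝ} (hx : x.1 ∈ W) :
    ContinuousAt (fun x : (E m × ℝ) × ℝ => dpl V u x.1 (Real.cos x.2) (Real.sin x.2)) x := by
  have h1 : ContinuousOn (fderiv ℝ u) W :=
    hC.smooth.continuousOn_fderiv_of_isOpen hC.isOpen (by simp)
  have h2 : ContinuousAt (fderiv ℝ u) x.1 := h1.continuousAt (hC.isOpen.mem_nhds hx)
  have h3 : ContinuousAt (fun x : (E m × ℝ) × ℝ => fderiv ℝ u x.1) x :=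
    ContinuousAt.comp (f := fun x : (E m × ℝ) × ℝ => x.1) h2 continuousAt_fst
  have h4 : Continuous V := hV.continuous
  unfold dpl
  refine h3.clm_apply ?_
  fun_prop

private theorem NPS_angle (hB : Base n N V R) (hR : RedN N V C M) {W : Set (E m × ℝ)}
    {u : E m × ℝ → ℝ} (hC : LocN N V C W u)
    {y : E m × ℝ} (hy : y ∈ C) (hyW : y ∈ W) (φ : ℝ) :
    (y, φ) ∈ PSN N V C ↔ dpl V u y 1 0 * Real.cos φ + dpl V u y 0 1 * Real.sin φ = 0 := by
  rw [mem_PSN hB hR.sub hC (x := (y, φ)) hy hyW, dpl_lin]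
  simp only
  rw [mul_comm (Real.cos φ), mul_comm (Real.sin φ)]

theorem PSN_closed (hB : Base n N V R) (hR : RedN N V C M) : IsClosed (PSN N V C) := by
  rw [isClosed_iff_frequently]
  intro x hx
  have h1 : x.1 ∈ C := by
    refine isClosed_iff_frequently.1 hR.closed x.1 ?_
    refine (continuous_fst.tendsto x).frequently (hx.mono fun y hy => ?_)
    exact hy.1
  obtain ⟨W, u, hxW, hC⟩ := hR.loc x.1 h1
  rw [mem_PSN hB hR.sub hC h1 hxW]
  by_contra hne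
  have h2 := (NPS_cont hB.smooth hC hxW).eventually_ne hne
  have h3 : ∀ᶠ y : (E m × ℝ) × ℝ in 𝓝 x, y.1 ∈ W :=
    (continuous_fst.tendsto x).eventually (hC.isOpen.mem_nhds hxW)
  obtain ⟨y, hy, hy2, hy3⟩ := (hx.and_eventually (h2.and h3)).exists
  exact hy2 ((mem_PSN hB hR.sub hC hy.1 hy3).1 hy)

theorem PSN_pi (hB : Base n N V R) (hR : RedN N V C M) {x : (E m × ℝ) × ℝ} (hx : x ∈ PSN N V C)
    (k : ℤ) : (x.1, x.2 + k * Real.pi) ∈ PSN N V C := by
  obtain ⟨W, u, hxW, hC⟩ := hR.loc x.1 hx.1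
  have h1 := (NPS_angle hB hR hC hx.1 hxW x.2).1 hx
  rw [NPS_angle hB hR hC hx.1 hxW, Real.cos_add_int_mul_pi, Real.sin_add_int_mul_pi]
  linear_combination (-1 : ℝ) ^ k * h1

theorem PSN_unique (hB : Base n N V R) (hR : RedN N V C M) {y : E m × ℝ} {φ ψ : ℝ}
    (h1 : (y, φ) ∈ PSN N V C) (h2 : (y, ψ) ∈ PSN N V C) : ∃ k : ℤ, φ = ψ + k * Real.pi := by
  obtain ⟨W, u, hyW, hC⟩ := hR.loc y h1.1
  exact angle_unique (hC.reg y hyW) ((NPS_angle hB hR hC h1.1 hyW φ).1 h1)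
    ((NPS_angle hB hR hC h1.1 hyW ψ).1 h2)

theorem PSN_exists (hB : Base n N V R) (hR : RedN N V C M) {y : E m × ℝ} (hy : y ∈ C) :
    ∃ φ : ℝ, (y, φ) ∈ PSN N V C := by
  obtain ⟨W, u, hyW, hC⟩ := hR.loc y hy
  obtain ⟨φ, hφ⟩ := angle_exists (dpl V u y 1 0) (dpl V u y 0 1)
  exact ⟨φ, (NPS_angle hB hR hC hy hyW φ).2 hφ⟩

/-- The part of the phase set with bounded phases is compact. -/
theorem PSN_compact (hB : Base n N V R) (hR : RedN N V C M) (B : ℝ) :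
    IsCompact (PSN N V C ∩ {x | |x.2| ≤ B}) := by
  have hcl : IsClosed (PSN N V C ∩ {x : (E m × ℝ) × ℝ | |x.2| ≤ B}) :=
    (PSN_closed hB hR).inter (isClosed_le (continuous_abs.comp continuous_snd) continuous_const)
  have hK : IsCompact ((N ×ˢ Metric.closedBall (0 : ℝ) M) ×ˢ Metric.closedBall (0 : ℝ) B) :=
    (hB.cpt.prod (isCompact_closedBall _ _)).prod (isCompact_closedBall _ _)
  refine hK.of_isClosed_subset hcl ?_
  intro x hx
  have h1 : x.1 ∈ C := hx.1.1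
  have h2 : |x.2| ≤ B := hx.2
  refine ⟨⟨hR.sub x.1 h1, ?_⟩, ?_⟩
  · rw [mem_closedBall_zero_iff, Real.norm_eq_abs]
    exact (hR.bdd x.1 h1).le
  · rw [mem_closedBall_zero_iff, Real.norm_eq_abs]
    exact h2

end Pool.Agent.H2.TI
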