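import Pool.Agent.H2.TI.NHyp

/-!
# The reduced hypersurface (module NReg)

PROOFS (compare `H2/TG/RegP.lean`, `H2/TG/RedOf.lean`).
* `local_regN`: `O, W, u` from `local_hyperN`. At `y = σ z0`: not both `dpl V u y 1 0 = 0` and `dpl V u y 0 1 = 0`
  (`dpl V u y a b = Du(y)(a • V y.1, b)`). Otherwise (kernel clause with `(a, b) = (1, 0)` and `(0, 1)`) there are
  `ξ, η ∈ Tan S z0` with `ξ.1 = V z0.1` and `η.1 = 0`, `⟪η.2, V z0.1⟫ = 1`; then
  `om ξ η = ⟪ξ.2, η.1⟫ - ⟪η.2, ξ.1⟫ = - ⟪η.2, V z0.1⟫ = -1`, contradiction with `hL.lag`. (This includes the zeros of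
  `V`.) The condition is open in `y ∈ W` (`Du` and `V` are continuous): shrink `W`.
* `compactS`: `S` is closed and bounded (`S ⊆ TN N`, `N` compact, `hL.bdd`).
* `exists_locN`: as `exists_locEq` there: near `σ z0` every point of `σ '' S` is in `σ '' (S ∩ O)`, because
  `σ '' (S \ O)` is compact and does not contain `σ z0` (`hE.inj`). Shrink `W`. For `y ∈ W`, `y.1 ∈ N`:
  `y ∈ σ '' S ↔ y ∈ σ '' (S ∩ O) ↔ u y = 0`.
* `red_ofN`: closed: compact image. `M`: `|⟪z.2, V z.1⟫| ≤ ‖z.2‖ ‖V z.1‖` is bounded; take `M` one larger.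
-/

set_option autoImplicit false

open scoped ContDiff Topology RealInnerProductSpace
open Set

namespace Pool.Agent.H2.TI

open Pool.Agent.H57.NL Pool.Agent.H2.TG

variable {m n : ℕ} {N : Set (E m)} {V : E m → E m} {R : ℝ → E m → E m}
  {S : Set (E m × E m)} {f : E m × E m → ℝ}

theorem local_regN (hB : Base n N V R) (hL : ExactLag n N ⊥ S f) (hE : EmbN V S)
    {z0 : E m × E m} (hz : z0 ∈ S) :
    ∃ (O : Set (E m × E m)) (W : Set (E m × ℝ)) (u : E m × ℝ → ℝ),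
      IsOpen O ∧ IsOpen W ∧ z0 ∈ O ∧ sigN V z0 ∈ W ∧ ContDiffOn ℝ ∞ u W ∧
      (∀ y ∈ W, y.1 ∈ N → (u y = 0 ↔ y ∈ sigN V '' (S ∩ O))) ∧
      ∀ y ∈ W, ¬ (dpl V u y 1 0 = 0 ∧ dpl V u y 0 1 = 0) := by
  obtain ⟨O, W, u, hO, hW, hzO, hyW, hu, heq, hker⟩ := local_hyperN hB hL hE hz
  have hcf : ContinuousOn (fderiv ℝ u) W := hu.continuousOn_fderiv_of_isOpen hW (by simp)
  have hV : Continuous V := hB.smooth.continuous
  have hdir : ∀ a b : ℝ, Continuous fun y : E m × ℝ => (a • V y.1, b) := fun a b =>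
    ((hV.comp continuous_fst).const_smul a).prodMk continuous_const
  have hc : ContinuousOn (fun y => (dpl V u y 1 0, dpl V u y 0 1)) W := by
    unfold dpl
    exact (hcf.clm_apply (hdir 1 0).continuousOn).prodMk
      (hcf.clm_apply (hdir 0 1).continuousOn)
  have hopen : IsOpen (W ∩ (fun y => (dpl V u y 1 0, dpl V u y 0 1)) ⁻¹' {(0 : ℝ × ℝ)}ᶜ) :=
    hc.isOpen_inter_preimage hW isOpen_compl_singleton
  have h0 : ¬ (dpl V u (sigN V z0) 1 0 = 0 ∧ dpl V u (sigN V z0) 0 1 = 0) := by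
    rintro ⟨h1, h2⟩
    obtain ⟨ξ, hξ, h3, -⟩ := hker 1 0 h1
    obtain ⟨η, hη, h4, h5⟩ := hker 0 1 h2
    rw [one_smul] at h3
    rw [zero_smul] at h4
    rw [h4, map_zero, inner_zero_right, add_zero] at h5
    have h8 := hL.lag z0 hz ξ hξ η hη
    unfold om at h8
    rw [h3, h4, inner_zero_right, h5] at h8
    norm_num at h8
  refine ⟨O, _, u, hO, hopen, hzO, ⟨hyW, ?_⟩, hu.mono inter_subset_left,
    fun y hy => heq y hy.1, ?_⟩
  · intro h1
    have h2 : (dpl V u (sigN V z0) 1 0, dpl V u (sigN V z0) 0 1) = (0 : ℝ × ℝ) := h1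
    exact h0 ⟨congrArg Prod.fst h2, congrArg Prod.snd h2⟩
  · rintro y ⟨-, hy⟩ ⟨h1, h2⟩
    refine hy ?_
    change (dpl V u y 1 0, dpl V u y 0 1) = (0 : ℝ × ℝ)
    rw [h1, h2]
    rfl

theorem compactS (hc : IsCompact N) (hL : ExactLag n N ⊥ S f) : IsCompact S := by
  obtain ⟨K, hK⟩ := hL.bdd
  refine (hc.prod (isCompact_closedBall (0 : E m) K)).of_isClosed_subset hL.closed ?_
  intro z hz
  exact ⟨(hL.subTN hz).1, mem_closedBall_zero_iff.2 (hK z hz)⟩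

theorem exists_locN (hB : Base n N V R) (hL : ExactLag n N ⊥ S f) (hE : EmbN V S)
    {x : E m × ℝ} (hx : x ∈ sigN V '' S) : ∃ W u, x ∈ W ∧ LocN N V (sigN V '' S) W u := by
  obtain ⟨z0, hz, rfl⟩ := hx
  obtain ⟨O, W, u, hO, hW, hzO, hyW, hu, heq, hreg⟩ := local_regN hB hL hE hz
  have hcont : Continuous (sigN V) := (sigN_contDiff hB.smooth).continuous
  have hTc : IsCompact (S ∩ Oᶜ) := (compactS hB.cpt hL).inter_right hO.isClosed_compl
  have hCT : IsClosed (sigN V '' (S ∩ Oᶜ)) := (hTc.image hcont).isClosed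
  have hxC : sigN V z0 ∉ sigN V '' (S ∩ Oᶜ) := by
    rintro ⟨z, ⟨hzS, hzO'⟩, hzz⟩
    have h1 : (sigN V z).1 = (sigN V z0).1 := by rw [hzz]
    have h2 : (sigN V z).2 = (sigN V z0).2 := by rw [hzz]
    have h3 : z = z0 := hE.inj z hzS z0 hz h1 h2
    exact hzO' (h3 ▸ hzO)
  refine ⟨W ∩ (sigN V '' (S ∩ Oᶜ))ᶜ, u, ⟨hyW, hxC⟩, ?_⟩
  refine ⟨hW.inter hCT.isOpen_compl, hu.mono inter_subset_left, ?_, fun y hy => hreg y hy.1⟩
  rintro y ⟨hy1, hy2⟩ hyN
  rw [heq y hy1 hyN]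
  constructor
  · rintro ⟨z, hzS, rfl⟩
    refine ⟨z, ⟨hzS, ?_⟩, rfl⟩
    by_contra hne
    exact hy2 ⟨z, ⟨hzS, hne⟩, rfl⟩
  · rintro ⟨z, ⟨hzS, -⟩, rfl⟩
    exact ⟨z, hzS, rfl⟩

theorem red_ofN (hB : Base n N V R) (hL : ExactLag n N ⊥ S f) (hE : EmbN V S) :
    ∃ M, RedN N V (sigN V '' S) M := by
  have hcont : Continuous (sigN V) := (sigN_contDiff hB.smooth).continuous
  have hcomp : IsCompact (sigN V '' S) := (compactS hB.cpt hL).image hcont
  obtain ⟨K, hK⟩ := hcomp.isBounded.exists_norm_le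
  refine ⟨max K 0 + 1, hL.ne.image _, hcomp.isClosed, ?_, ?_, ?_,
    fun x hx => exists_locN hB hL hE hx⟩
  · rintro _ ⟨z, hz, rfl⟩
    exact (hL.subTN hz).1
  · have := le_max_right K 0
    linarith
  · intro x hx
    have h1 := hK x hx
    have h2 : ‖x.2‖ ≤ ‖x‖ := norm_snd_le x
    have h3 := le_max_left K 0
    rw [Real.norm_eq_abs] at h2
    linarith

end Pool.Agent.H2.TI
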