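import Pool.Agent.H2.TI.NLeft
import Pool.Agent.H2.TI.NReg
import Pool.Agent.H2.TI.NPS
import Pool.Agent.H2.TG.Glue

/-!
# The primitive on the reduced hypersurface (module NPrim)

PROOFS. `C = sigN V '' S`, `σ = sigN V`.
* `exists_primF`: glue (`exists_glue`, file `H2/TG/Glue.lean`) with the constraints
  `t y = {k | ∀ z ∈ S, σ z = y → k = f z}` (convex; at most one value). Local solutions: off `C` (closed): `0`. At
  `y0 = σ z0`: `O, W, π` from `exists_leftN`; near `y0` every point of `C` is `σ z` with `z ∈ S ∩ O` (`σ '' (S \ O)` is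
  compact and does not contain `y0`, as in `exists_locN`), so `f (π y) = f z` for `y = σ z` near `y0` (`z` is the only
  point of `S` over `y`: `hE.inj`). The function `f ∘ π` is smooth near `y0`.
* `exists_primN`: `F` from `exists_primF`. Let `x ∈ PSN`, `x.1 = σ z0`, `φ = x.2`. Local equation, phase with
  `ϑ x.1 = φ` (`exists_phaseN`), curve `y` in `C` with `y 0 = x.1`, `y' 0 = (cos φ • V x.1.1, sin φ)` (`exists_curveN`). For
  small `t`: `z t = π (y t) ∈ S`, `σ (z t) = y t` (`y t = σ z` with `z ∈ S ∩ O`, so `π (y t) = z`), and `F (y t) = f (z t)`. `z` is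
  differentiable at `0` (`π` smooth), `z' 0 = ζ`, and `ζ.1 = cos φ • V x.1.1` because `(z t).1 = (y t).1`. By
  `ExactLag.exact` and `hasDerivAt_along` (`H57/NL/Slice.lean`): `d/dt f (z t) = ⟪z0.2, ζ.1⟫ = cos φ ⟪z0.2, V x.1.1⟫ =
  cos φ x.1.2`. On the other side `d/dt F (y t) = DF(x.1)(cos φ • V x.1.1, sin φ)`.
-/

set_option autoImplicit false

open scoped ContDiff Topology RealInnerProductSpace
open Set

namespace Pool.Agent.H2.TI

open Pool.Agent.H57.NL Pool.Agent.H2.TG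

variable {m n : ℕ} {N : Set (E m)} {V : E m → E m} {R : ℝ → E m → E m}
  {S : Set (E m × E m)} {f : E m × E m → ℝ}

private theorem nprim_cont (hB : Base n N V R) : Continuous (sigN V) := by
  have h1 : Continuous V := hB.smooth.continuous
  have h2 : Continuous fun z : E m × E m => ⟪z.2, V z.1⟫ :=
    continuous_snd.inner (h1.comp continuous_fst)
  exact continuous_fst.prodMk h2

private theorem nprim_far (hB : Base n N V R) (hL : ExactLag n N ⊥ S f) (hE : EmbN V S)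
    {O : Set (E m × E m)} (hO : IsOpen O) {z0 : E m × E m} (hz : z0 ∈ S) (hzO : z0 ∈ O) :
    IsOpen (sigN V '' (S \ O))ᶜ ∧ sigN V z0 ∈ (sigN V '' (S \ O))ᶜ ∧
      ∀ z ∈ S, sigN V z ∈ (sigN V '' (S \ O))ᶜ → z ∈ S ∩ O := by
  have hc : IsCompact (S \ O) := (compactS hB.cpt hL).diff hO
  refine ⟨(hc.image (nprim_cont hB)).isClosed.isOpen_compl, ?_, ?_⟩
  · rintro ⟨z, hz1, hz2⟩
    have e1 : z.1 = z0.1 := congrArg (Prod.fst : E m × ℝ → E m) hz2
    have e2 : ⟪z.2, V z.1⟫ = ⟪z0.2, V z0.1⟫ := congrArg (Prod.snd : E m × ℝ → ℝ) hz2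
    have e3 := hE.inj z hz1.1 z0 hz e1 e2
    exact hz1.2 (e3 ▸ hzO)
  · intro z hzS hz1
    refine ⟨hzS, ?_⟩
    by_contra hc
    exact hz1 ⟨z, ⟨hzS, hc⟩, rfl⟩

theorem exists_primF (hB : Base n N V R) (hL : ExactLag n N ⊥ S f) (hE : EmbN V S) :
    ∃ F : E m × ℝ → ℝ, ContDiff ℝ ∞ F ∧ ∀ z ∈ S, F (sigN V z) = f z := by
  obtain ⟨F, hF1, hF2⟩ := exists_glue (V := E m × ℝ)
    (fun y => {k : ℝ | ∀ z ∈ S, sigN V z = y → k = f z}) (by
      intro y k hk k' hk' a b _ _ hab z hz e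
      rw [hk z hz e, hk' z hz e, ← add_smul, hab, one_smul]) (by
      intro y0
      by_cases hy0 : y0 ∈ sigN V '' S
      · obtain ⟨z0, hz0, rfl⟩ := hy0
        obtain ⟨O, W, π, hO, hW, hzO, hzW, hπ, hfπ, _, hπ2⟩ := exists_leftN hB.smooth hL hE hz0
        obtain ⟨h1, h2, h3⟩ := nprim_far hB hL hE hO hz0 hzO
        refine ⟨W ∩ (sigN V '' (S \ O))ᶜ, hW.inter h1, ⟨hzW, h2⟩, fun y => f (π y),
          hfπ.mono inter_subset_left, ?_⟩
        intro y hy z hz e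
        subst e
        show f (π (sigN V z)) = f z
        rw [hπ2 z (h3 z hz hy.2) hy.1]
      · have hc : IsClosed (sigN V '' S) :=
          ((compactS hB.cpt hL).image (nprim_cont hB)).isClosed
        refine ⟨(sigN V '' S)ᶜ, hc.isOpen_compl, hy0, fun _ => 0, contDiffOn_const, ?_⟩
        intro y hy z hz e
        exact absurd ⟨z, hz, e⟩ hy)
  exact ⟨F, hF1, fun z hz => hF2 (sigN V z) z hz rfl⟩

theorem exists_primN (hB : Base n N V R) (hL : ExactLag n N ⊥ S f) (hE : EmbN V S) :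
    ∃ F, PrimN N V (sigN V '' S) F := by
  obtain ⟨F, hF1, hF2⟩ := exists_primF hB hL hE
  refine ⟨F, hF1, ?_⟩
  intro x hx
  have hs : ∀ y ∈ sigN V '' S, y.1 ∈ N := by
    rintro y ⟨z, hz, rfl⟩
    exact (hL.subTN hz).1
  obtain ⟨W, u, hxW, hC⟩ := exists_locN hB hL hE hx.1
  obtain ⟨W₁, ϑ, _, hxW₁, hC₁, hϑ, hϑx⟩ := exists_phaseN hB.smooth hC hxW (hx.2 W u hxW hC)
  obtain ⟨ε, y, hε, hy0, hy⟩ := exists_curveN hB hs hC₁ hϑ hx.1 hxW₁
  obtain ⟨z0, hz0, hz0x⟩ := hx.1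
  obtain ⟨O, W₂, π, hO, hW₂, hzO, hzW, hπ, _, hπS, hπ2⟩ := exists_leftN hB.smooth hL hE hz0
  obtain ⟨h1, h2, h3⟩ := nprim_far hB hL hE hO hz0 hzO
  have hd0 := (hy 0 (by rw [abs_zero]; exact hε)).2.2
  have hcy : ContinuousAt y 0 := hd0.continuousAt
  have hy0' : y 0 = sigN V z0 := by rw [hy0, hz0x]
  have hev : ∀ᶠ t in 𝓝 (0 : ℝ), π (y t) ∈ S ∧ sigN V (π (y t)) = y t := by
    have e1 : ∀ᶠ t in 𝓝 (0 : ℝ), y t ∈ W₂ ∩ (sigN V '' (S \ O))ᶜ := by
      refine hcy.eventually_mem ((hW₂.inter h1).mem_nhds ?_)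
      rw [hy0']
      exact ⟨hzW, h2⟩
    have e2 : ∀ᶠ t in 𝓝 (0 : ℝ), |t| < ε := by
      have : ContinuousAt (fun t : ℝ => |t|) 0 := continuous_abs.continuousAt
      have h4 := this.tendsto.eventually_lt_const (show |(0 : ℝ)| < ε by rw [abs_zero]; exact hε)
      exact h4
    filter_upwards [e1, e2] with t ht1 ht2
    obtain ⟨z, hz, hzy⟩ := (hy t ht2).1
    rw [← hzy] at ht1 ⊢
    have h5 := h3 z hz ht1.2
    have h6 := hπ2 z h5 ht1.1
    rw [h6]
    exact ⟨hz, rfl⟩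
  have hπd : DifferentiableAt ℝ π (y 0) := by
    rw [hy0']
    exact (hπ.differentiableOn (by simp)).differentiableAt (hW₂.mem_nhds hzW)
  have hzd := hπd.hasFDerivAt.comp_hasDerivAt (0 : ℝ) hd0
  set ζ := fderiv ℝ π (y 0) (Real.cos (ϑ (y 0)) • V (y 0).1, Real.sin (ϑ (y 0))) with hζ
  have hz00 : π (y 0) = z0 := by
    rw [hy0']
    exact hπ2 z0 ⟨hz0, hzO⟩ hzW
  have hϑ0 : ϑ (y 0) = x.2 := by rw [hy0, hϑx]
  have hζ1 : ζ.1 = Real.cos x.2 • V x.1.1 := by
    have e1 : HasDerivAt (fun t => (π (y t)).1) ζ.1 0 := by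
      have := (hasFDerivAt_fst (𝕜 := ℝ) (p := π (y 0))).comp_hasDerivAt (0 : ℝ) hzd
      exact this
    have e2 : HasDerivAt (fun t => (y t).1) (Real.cos (ϑ (y 0)) • V (y 0).1) 0 := by
      have := (hasFDerivAt_fst (𝕜 := ℝ) (p := y 0)).comp_hasDerivAt (0 : ℝ) hd0
      exact this
    have e3 : (fun t => (y t).1) =ᶠ[𝓝 0] fun t => (π (y t)).1 := by
      filter_upwards [hev] with t ht
      exact (congrArg Prod.fst ht.2).symm
    have e4 := e1.congr_of_eventuallyEq e3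
    have e5 := e4.unique e2
    rw [e5, hϑ0, hy0]
  have hF' : HasDerivAt (fun t => F (y t)) (liou z0 ζ) 0 := by
    have e1 : HasFDerivWithinAt f (liou z0) S ((π ∘ y) 0) := by
      show HasFDerivWithinAt f (liou z0) S (π (y 0))
      rw [hz00]
      exact hL.exact z0 hz0
    have e2 := hasDerivAt_along (S := S) (γ := π ∘ y) (hev.mono fun t ht => ht.1) hzd e1
    refine e2.congr_of_eventuallyEq ?_
    filter_upwards [hev] with t ht
    show F (y t) = f (π (y t))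
    rw [← hF2 _ ht.1, ht.2]
  have hF'' : HasDerivAt (fun t => F (y t))
      (fderiv ℝ F (y 0) (Real.cos (ϑ (y 0)) • V (y 0).1, Real.sin (ϑ (y 0)))) 0 :=
    ((hF1.differentiable (by simp)).differentiableAt.hasFDerivAt).comp_hasDerivAt (0 : ℝ) hd0
  have h7 := hF''.unique hF'
  rw [hy0, hϑx] at h7
  rw [h7, liou_apply, hζ1, inner_smul_right, mul_comm]
  have h8 : x.1.2 = ⟪z0.2, V z0.1⟫ := by rw [← hz0x]; rfl
  have h9 : x.1.1 = z0.1 := by rw [← hz0x]; rfl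
  rw [h8, h9]

end Pool.Agent.H2.TI
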