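import Pool.Agent.H57.NL.Defs

/-!
# Composition of symplectic diffeomorphisms (module SComp)

Compare `H2/TG/Comp.lean` (the case `N = univ`).
PROOF. `smooth`: at `x ∈ TN N`, `ψ₁ = G₁` on `O₁ ∩ TN N`, `ψ₁ x ∈ TN N`, `ψ₂ = G₂` on `O₂ ∩ TN N`, `ψ₁ x ∈ O₂`; take
`O = O₁ ∩ G₁ ⁻¹' O₂` (open: `ContinuousOn.isOpen_inter_preimage`), `G = G₂ ∘ G₁` (`ContDiffOn.comp`). `symp`: from `PresOm` of `ψ₁` at
`z` get `v', w'` with `om v' w' = om v w`; `v', w'` are in `Tan (TN N) (ψ₁ z)` (apply `Push` to a curve of `v`; `ψ₁ ∘ γ` stays in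
`TN N`); `PresOm` of `ψ₂` at `ψ₁ z` gives `v'', w''`; `Push` for the composition: if `γ` is a curve in `TN N` with velocity `v` at
`z`, then `ψ₁ ∘ γ` is a curve in `TN N` with velocity `v'` at `ψ₁ z`, then apply the second `Push`.
-/

set_option autoImplicit false

open scoped ContDiff Topology RealInnerProductSpace
open Set Filter

namespace Pool.Agent.H2.TI

open Pool.Agent.H57.NL

variable {m : ℕ} {N : Set (E m)}

private lemma scomp_smooth {V : Type*} [NormedAddCommGroup V] [NormedSpace ℝ V] {S : Set V}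
    {ψ₁ ψ₂ : V → V} (hm : ∀ z ∈ S, ψ₁ z ∈ S)
    (h1 : SmoothOn S ψ₁) (h2 : SmoothOn S ψ₂) : SmoothOn S (ψ₂ ∘ ψ₁) := by
  intro x hx
  obtain ⟨G₁, O₁, hO₁, hx₁, hG₁, he₁⟩ := h1 x hx
  obtain ⟨G₂, O₂, hO₂, hx₂, hG₂, he₂⟩ := h2 (ψ₁ x) (hm x hx)
  have hopen : IsOpen (O₁ ∩ G₁ ⁻¹' O₂) := hG₁.continuousOn.isOpen_inter_preimage hO₁ hO₂
  refine ⟨G₂ ∘ G₁, O₁ ∩ G₁ ⁻¹' O₂, hopen, ⟨hx₁, ?_⟩, ?_, ?_⟩
  · rw [mem_preimage, ← he₁ x ⟨hx₁, hx⟩]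
    exact hx₂
  · exact hG₂.comp (hG₁.mono inter_subset_left) fun y hy => hy.2
  · rintro y ⟨⟨hy1, hy2⟩, hyS⟩
    have e1 := he₁ y ⟨hy1, hyS⟩
    simp only [Function.comp_apply]
    rw [e1]
    exact he₂ _ ⟨hy2, by rw [← e1]; exact hm y hyS⟩

theorem sympDiffeo_compN {ψ₁ ψ₁' ψ₂ ψ₂' : E m × E m → E m × E m}
    (h1 : SympDiffeo N ⊥ ψ₁ ψ₁') (h2 : SympDiffeo N ⊥ ψ₂ ψ₂') :
    SympDiffeo N ⊥ (ψ₂ ∘ ψ₁) (ψ₁' ∘ ψ₂') := by
  refine ⟨fun z hz => h2.maps _ (h1.maps z hz), fun z hz => h1.maps' _ (h2.maps' z hz),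
    fun z hz => ?_, fun z hz => ?_, scomp_smooth h1.maps h1.smooth h2.smooth,
    scomp_smooth h2.maps' h2.smooth' h1.smooth', ?_, ?_⟩
  · simp only [Function.comp_apply]
    rw [h2.left _ (h1.maps z hz), h1.left _ hz]
  · simp only [Function.comp_apply]
    rw [h1.right _ (h2.maps' z hz), h2.right _ hz]
  · intro g hg z hz
    simp only [Function.comp_apply]
    rw [h1.equiv g hg z hz, h2.equiv g hg _ (h1.maps z hz)]
  · intro z hz v hv w hw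
    obtain ⟨v', w', pv, pw, hom⟩ := h1.symp z hz v hv w hw
    have tan : ∀ u u' : E m × E m, u ∈ Tan (TN N) z → Push (TN N) ψ₁ z u u' →
        u' ∈ Tan (TN N) (ψ₁ z) := by
      rintro u u' ⟨γ, h0, hγ, hd⟩ pu
      exact ⟨ψ₁ ∘ γ, by simp [h0], hγ.mono fun s hs => h1.maps _ hs, pu γ h0 hγ hd⟩
    obtain ⟨v'', w'', pv', pw', hom'⟩ :=
      h2.symp (ψ₁ z) (h1.maps z hz) v' (tan v v' hv pv) w' (tan w w' hw pw)
    refine ⟨v'', w'', ?_, ?_, hom'.trans hom⟩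
    · intro γ h0 hγ hd
      exact pv' (ψ₁ ∘ γ) (by simp [h0]) (hγ.mono fun s hs => h1.maps _ hs) (pv γ h0 hγ hd)
    · intro γ h0 hγ hd
      exact pw' (ψ₁ ∘ γ) (by simp [h0]) (hγ.mono fun s hs => h1.maps _ hs) (pw γ h0 hγ hd)

end Pool.Agent.H2.TI
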