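import Pool.Agent.H2.TI.NDefs
import Mathlib.Analysis.InnerProductSpace.Dual

/-!
# The straightening of `T*N`: definitions
-/

set_option autoImplicit false

open scoped ContDiff Topology RealInnerProductSpace
open Set Filter

namespace Pool.Agent.H2.TI

open Pool.Agent.H57.NL Pool.Agent.H2.TG

variable {m : ℕ}

/-- `b x` is the displacement (in the coordinate along `V`) from `x` to the bottom point of its orbit,
`A x` the action of the orbit from the bottom to `x`. -/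
structure ActN (N : Set (E m)) (Θ : E m × ℝ → ℝ) (M' : ℝ) (Ψ : ℝ → E m × ℝ → E m × ℝ)
    (b A : E m × ℝ → ℝ) : Prop where
  smoothb : ContDiff ℝ ∞ b
  smoothA : ContDiff ℝ ∞ A
  db : ∀ x : E m × ℝ, x.1 ∈ N → ∀ t, HasDerivAt (fun t => b (Ψ t x)) (Real.sin (Θ (Ψ t x))) t
  dA : ∀ x : E m × ℝ, x.1 ∈ N → ∀ t,
    HasDerivAt (fun t => A (Ψ t x)) ((Ψ t x).2 * Real.sin (Θ (Ψ t x))) t
  bot : ∀ x : E m × ℝ, x.1 ∈ N → x.2 ≤ -M' → b x = 0 ∧ A x = 0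

/-- The second coordinate `ρ` of the reduced straightening. -/
structure RhoN (N : Set (E m)) (V : E m → E m) (Θ : E m × ℝ → ℝ) (M' : ℝ)
    (Ψ : ℝ → E m × ℝ → E m × ℝ) (b A ρ : E m × ℝ → ℝ) : Prop where
  act : ActN N Θ M' Ψ b A
  smooth : ContDiff ℝ ∞ ρ
  id : ∀ x : E m × ℝ, x.1 ∈ N → ∀ a r : ℝ,
    x.2 * a + fderiv ℝ A x (a • V x.1, r) = ρ x * (a + fderiv ℝ b x (a • V x.1, r))
  ker : ∀ x : E m × ℝ, x.1 ∈ N → ∀ a r : ℝ, a + fderiv ℝ b x (a • V x.1, r) = 0 →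
    ∃ k : ℝ, a = -(k * Real.sin (Θ x)) ∧ r = k * Real.cos (Θ x)
  pos : ∀ x : E m × ℝ, x.1 ∈ N → 0 < fderiv ℝ ρ x (XFN V Θ 1 x)
  bot : ∀ x : E m × ℝ, x.1 ∈ N → x.2 ≤ -M' → ρ x = x.2
  top : ∀ x : E m × ℝ, x.1 ∈ N → Tendsto (fun t => ρ (Ψ t x)) atTop atTop

/-- `Ri` is the inverse of the reduced map `x ↦ (R (b x) x.1, ρ x)` on `N × ℝ`. -/
structure RinvN (N : Set (E m)) (R : ℝ → E m → E m) (b ρ : E m × ℝ → ℝ)
    (Ri : E m × ℝ → E m × ℝ) : Prop where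
  smooth : ContDiff ℝ ∞ Ri
  mem : ∀ y : E m × ℝ, y.1 ∈ N → (Ri y).1 ∈ N
  base : ∀ y : E m × ℝ, y.1 ∈ N → R (b (Ri y)) (Ri y).1 = y.1
  rho : ∀ y : E m × ℝ, y.1 ∈ N → ρ (Ri y) = y.2
  inv : ∀ x : E m × ℝ, x.1 ∈ N → Ri (R (b x) x.1, ρ x) = x

/-- `Pr q` is the orthogonal projection to the tangent space of `N` at `q ∈ N`. -/
structure ProjN (N : Set (E m)) (Pr : E m → (E m →L[ℝ] E m)) : Prop where
  smooth : ContDiff ℝ ∞ Pr
  mem : ∀ q ∈ N, ∀ w, Pr q w ∈ Tan N q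
  orth : ∀ q ∈ N, ∀ w, ∀ τ ∈ Tan N q, ⟪Pr q w, τ⟫ = ⟪w, τ⟫

/-- The vector representing a linear form. -/
noncomputable def vec (l : E m →L[ℝ] ℝ) : E m := (InnerProductSpace.toDual ℝ (E m)).symm l

/-- The derivative with respect to the first variable. -/
noncomputable def d1 (g : E m × ℝ → ℝ) (x : E m × ℝ) : E m →L[ℝ] ℝ :=
  (fderiv ℝ g x).comp (ContinuousLinearMap.inl ℝ (E m) ℝ)

/-- The straightening. -/
noncomputable def FN (V : E m → E m) (R : ℝ → E m → E m) (Pr : E m → (E m →L[ℝ] E m))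
    (b A ρ : E m × ℝ → ℝ) (z : E m × E m) : E m × E m :=
  (R (b (sigN V z)) z.1,
    Pr (R (b (sigN V z)) z.1) (vec ((innerSL ℝ z.2 + d1 A (sigN V z)
      - ρ (sigN V z) • d1 b (sigN V z)).comp
        (fderiv ℝ (R (-(b (sigN V z)))) (R (b (sigN V z)) z.1)))))

/-- The inverse of the straightening. -/
noncomputable def FN' (V : E m → E m) (R : ℝ → E m → E m) (Pr : E m → (E m →L[ℝ] E m))
    (b A : E m × ℝ → ℝ) (Ri : E m × ℝ → E m × ℝ) (z : E m × E m) : E m × E m :=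
  ((Ri (sigN V z)).1,
    Pr (Ri (sigN V z)).1 (vec ((innerSL ℝ z.2).comp
        (fderiv ℝ (R (b (Ri (sigN V z)))) (Ri (sigN V z)).1)
      - d1 A (Ri (sigN V z)) + (sigN V z).2 • d1 b (Ri (sigN V z)))))

/-- `F` is a diffeomorphism of `T*N` with inverse `F'`, `F*λ = λ + d(A ∘ sigN V)`; the kernel of the
differential of the first component of `F` is mapped by `sigN V` to multiples of `XFN V Θ 1`. -/
structure StrN (N : Set (E m)) (V : E m → E m) (Θ : E m × ℝ → ℝ)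
    (F F' : E m × E m → E m × E m) (A : E m × ℝ → ℝ) : Prop where
  smooth : ContDiff ℝ ∞ F
  smooth' : ContDiff ℝ ∞ F'
  smoothA : ContDiff ℝ ∞ A
  smoothV : ContDiff ℝ ∞ V
  maps : ∀ z ∈ TN N, F z ∈ TN N
  maps' : ∀ z ∈ TN N, F' z ∈ TN N
  left : ∀ z ∈ TN N, F' (F z) = z
  right : ∀ z ∈ TN N, F (F' z) = z
  exact : ∀ z ∈ TN N, ∀ ζ ∈ Tan (TN N) z, ⟪(F z).2, (fderiv ℝ F z ζ).1⟫
    = ⟪z.2, ζ.1⟫ + fderiv ℝ A (sigN V z) (fderiv ℝ (sigN V) z ζ)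
  vert : ∀ z ∈ TN N, ∀ ζ ∈ Tan (TN N) z, (fderiv ℝ F z ζ).1 = 0 →
    ∃ c : ℝ, fderiv ℝ (sigN V) z ζ = c • XFN V Θ 1 (sigN V z)

end Pool.Agent.H2.TI
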