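import Pool.Agent.H2.TI.SImg
import Pool.Agent.H2.TI.STN
import Pool.Agent.H2.TI.SDefs
import Pool.Agent.H2.TI.NReg

/-!
# The straightening is symplectic and maps exact Lagrangians to exact Lagrangians (module SLag)

Compare `H2/TG/Lag.lean` (`straight_symp`, `straight_lag`).
PROOFS.
* `str_om`: `om_pres` (module STN) with `T = TN N`, `ψ = F`, `G = A ∘ sigN V` (smooth; chain rule
  `D(A ∘ sigN V)(z) ζ = DA(sigN V z)(D(sigN V)(z) ζ)`), `TN_submfd`.
* `str_chain`: for `z ∈ TN N`, `ζ ∈ Tan (TN N) z`: `DF(F' z)(DF'(z) ζ) = ζ` and `DF'(z) ζ ∈ Tan (TN N) (F' z)`: take the curve `γ` of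
  `ζ`; `F' ∘ γ` is in `TN N` (`maps'`), `F ∘ F' ∘ γ = γ` near `0` (`right`), unique derivatives. In the same way
  `DF'(F z)(DF(z) ζ) = ζ` and `DF(z) ζ ∈ Tan (TN N) (F z)`.
* `str_symp`: `SmoothOn` from global smoothness (`O = univ`); `equiv`: `g ∈ ⊥` is `0` and `tr 0 = id`; `PresOm N F'`: `v' = DF'(z) v`,
  `w' = DF'(z) w`, `Push` by the chain rule, `om v' w' = om (DF(F' z) v') (DF(F' z) w') = om v w` (`str_om` at `F' z`, `str_chain`).
* `str_lag`: `f' y = f (F' y) + A (sigN V (F' y))`. `S` is compact (`compactS` in NReg), so `F '' S` is compact: closed and bounded.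
  `sub`: `image_submfd` (`S ⊆ TN N`, `left`). `subTN`: `maps`. `inv`, `finv`: `g = 0`. `lag`: `tan_imageN`, `str_om` (`Tan S z ⊆ Tan (TN N) z`).
  `prim`: at `y₀ = F z₀`, `y = F z`, `z, z₀ ∈ S`:
  `f' y - f' y₀ - ⟪y₀.2, y.1 - y₀.1⟫ = [f z - f z₀ - ⟪z₀.2, z.1 - z₀.1⟫] + [h z - h z₀]`, with the smooth function
  `h z = ⟪z₀.2, z.1⟫ + A (sigN V z) - ⟪(F z₀).2, (F z).1⟫`. First bracket: `o(z - z₀)` on `S` (`hL.prim`). Second: by `StrN.exact`
  `Dh(z₀) ζ = 0` for all `ζ ∈ Tan (TN N) z₀`, in particular for `ζ ∈ Tan S z₀`; in a slice chart `e, A'` of `S` at `z₀`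
  (`z = e.symm (e z₀ + a)`, `a = e z - e z₀ ∈ A'` for `z ∈ S`) the function `a ↦ h (e.symm (e z₀ + a))` on `A'` has derivative `0` at
  `0`, so `h z - h z₀ = o(a) = o(z - z₀)` on `S`. Finally `z - z₀ = F' y - F' y₀ = O(y - y₀)` and `z → z₀` in `S` as `y → y₀` in `F '' S`.
-/

set_option autoImplicit false

open scoped ContDiff Topology RealInnerProductSpace
open Set Filter

namespace Pool.Agent.H2.TI

open Pool.Agent.H57.NL Pool.Agent.H2.TG

variable {m n : ℕ} {N : Set (E m)} {V : E m → E m} {Θ : E m × ℝ → ℝ} {S : Set (E m × E m)}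
  {f : E m × E m → ℝ} {F F' : E m × E m → E m × E m} {A : E m × ℝ → ℝ}

private theorem slag_sig (hV : ContDiff ℝ ∞ V) : ContDiff ℝ ∞ (sigN V) := by
  have h1 : ContDiff ℝ ∞ (fun z : E m × E m => V z.1) := hV.comp contDiff_fst
  have h2 : ContDiff ℝ ∞ (fun z : E m × E m => (⟪z.2, V z.1⟫ : ℝ)) := contDiff_snd.inner ℝ h1
  exact contDiff_fst.prodMk h2

private theorem slag_G (hF : StrN N V Θ F F' A) :
    ContDiff ℝ ∞ (fun z : E m × E m => A (sigN V z)) :=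
  hF.smoothA.comp (slag_sig hF.smoothV)

private theorem slag_dG (hF : StrN N V Θ F F' A) (z ζ : E m × E m) :
    fderiv ℝ (fun z : E m × E m => A (sigN V z)) z ζ =
      fderiv ℝ A (sigN V z) (fderiv ℝ (sigN V) z ζ) := by
  have h1 : HasFDerivAt A (fderiv ℝ A (sigN V z)) (sigN V z) :=
    ((hF.smoothA.differentiable (by norm_num)) _).hasFDerivAt
  have h2 : HasFDerivAt (sigN V) (fderiv ℝ (sigN V) z) z :=
    (((slag_sig hF.smoothV).differentiable (by norm_num)) _).hasFDerivAt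
  have h3 : HasFDerivAt (fun z : E m × E m => A (sigN V z))
      ((fderiv ℝ A (sigN V z)).comp (fderiv ℝ (sigN V) z)) z := h1.comp z h2
  rw [h3.fderiv]
  rfl

private theorem slag_mono {S T : Set (E m × E m)} (hST : S ⊆ T) {z ζ : E m × E m}
    (hζ : ζ ∈ Tan S z) : ζ ∈ Tan T z := by
  obtain ⟨γ, h0, hS, hd⟩ := hζ
  exact ⟨γ, h0, hS.mono fun s hs => hST hs, hd⟩

private theorem slag_chain (hF : StrN N V Θ F F' A) {z ζ : E m × E m}
    (hζ : ζ ∈ Tan (TN N) z) : fderiv ℝ F (F' z) (fderiv ℝ F' z ζ) = ζ ∧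
      fderiv ℝ F' z ζ ∈ Tan (TN N) (F' z) := by
  have h6 : HasFDerivAt F' (fderiv ℝ F' z) z :=
    ((hF.smooth'.differentiable (by norm_num)) z).hasFDerivAt
  have h7 : HasFDerivAt F (fderiv ℝ F (F' z)) (F' z) :=
    ((hF.smooth.differentiable (by norm_num)) (F' z)).hasFDerivAt
  refine ⟨?_, Tan.map hζ h6 (Eventually.of_forall fun y hy => hF.maps' y hy)⟩
  obtain ⟨γ, h0, hS, hd⟩ := hζ
  subst h0
  have h8 : HasDerivAt ((F ∘ F') ∘ γ) ((fderiv ℝ F (F' (γ 0)) ∘L fderiv ℝ F' (γ 0)) ζ) 0 :=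
    (h7.comp (γ 0) h6).comp_hasDerivAt (0 : ℝ) hd
  have h9 : HasDerivAt ((F ∘ F') ∘ γ) ζ 0 := by
    refine hd.congr_of_eventuallyEq ?_
    filter_upwards [hS] with s hs
    exact hF.right _ hs
  exact h8.unique h9

private theorem slag_o {k : ℕ} {S : Set (E m × E m)} (hS : IsSubmfd k S) {z₀ : E m × E m}
    (hz : z₀ ∈ S) {h : E m × E m → ℝ} {L : (E m × E m) →L[ℝ] ℝ} (hh : HasFDerivAt h L z₀)
    (h0 : ∀ ζ ∈ Tan S z₀, L ζ = 0) :
    (fun z => h z - h z₀) =o[𝓝[S] z₀] (fun z => z - z₀) := by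
  obtain ⟨e, B, hxe, hs⟩ := hS.slice hz
  have h1 : (fun z => h z - h z₀ - L (z - z₀)) =o[𝓝[S] z₀] (fun z => z - z₀) :=
    (hasFDerivAt_iff_isLittleO.1 hh).mono nhdsWithin_le_nhds
  -- `z - z₀ - D (e z - e z₀) = o (z - z₀)`
  have h2 : HasFDerivAt e (fderiv ℝ e z₀) z₀ := hs.hd hxe
  have h3 : (fun z => e z - e z₀ - fderiv ℝ e z₀ (z - z₀)) =o[𝓝[S] z₀] (fun z => z - z₀) :=
    (hasFDerivAt_iff_isLittleO.1 h2).mono nhdsWithin_le_nhds
  have h4 : (fun z => L (fderiv ℝ e.symm (e z₀) (e z - e z₀ - fderiv ℝ e z₀ (z - z₀))))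
      =o[𝓝[S] z₀] (fun z => z - z₀) := by
    have h5 : (fun z => (L ∘L fderiv ℝ e.symm (e z₀)) (e z - e z₀ - fderiv ℝ e z₀ (z - z₀)))
      =O[𝓝[S] z₀] (fun z => e z - e z₀ - fderiv ℝ e z₀ (z - z₀)) :=
      (L ∘L fderiv ℝ e.symm (e z₀)).isBigO_comp _ _
    exact h5.trans_isLittleO h3
  have h6 : ∀ᶠ z in 𝓝[S] z₀, L (fderiv ℝ e.symm (e z₀) (e z - e z₀ - fderiv ℝ e z₀ (z - z₀))) =
      - L (z - z₀) := by
    have hsrc : ∀ᶠ z in 𝓝[S] z₀, z ∈ e.source :=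
      nhdsWithin_le_nhds (e.open_source.mem_nhds hxe)
    filter_upwards [hsrc, self_mem_nhdsWithin] with z hz1 hz2
    have h7 : e z - e z₀ ∈ B := B.sub_mem ((hs.iff _ hz1).1 hz2) ((hs.iff _ hxe).1 hz)
    have h8 : fderiv ℝ e.symm (e z₀) (e z - e z₀) ∈ Tan S z₀ := by
      rw [hs.mem_tan hxe hz, hs.right hxe]
      exact h7
    rw [map_sub, map_sub, h0 _ h8, hs.left hxe, zero_sub]
  have h9 : (fun z => - L (z - z₀)) =o[𝓝[S] z₀] (fun z => z - z₀) :=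
    h4.congr' h6 (Eventually.of_forall fun _ => rfl)
  refine (h1.sub h9).congr_left fun z => ?_
  ring

private theorem slag_prim (hF : StrN N V Θ F F' A) (hL : ExactLag n N ⊥ S f)
    {z₀ : E m × E m} (hz : z₀ ∈ S) :
    (fun z => (⟪z₀.2, z.1⟫ + A (sigN V z) - ⟪(F z₀).2, (F z).1⟫) -
      (⟪z₀.2, z₀.1⟫ + A (sigN V z₀) - ⟪(F z₀).2, (F z₀).1⟫)) =o[𝓝[S] z₀] (fun z => z - z₀) := by
  have hzT := hL.subTN hz
  have h1 : HasFDerivAt (fun z : E m × E m => A (sigN V z))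
      (fderiv ℝ (fun z : E m × E m => A (sigN V z)) z₀) z₀ :=
    (((slag_G hF).differentiable (by norm_num)) z₀).hasFDerivAt
  have h2 : HasFDerivAt (fun z : E m × E m => (⟪z₀.2, z.1⟫ : ℝ))
      ((innerSL ℝ z₀.2).comp (ContinuousLinearMap.fst ℝ (E m) (E m))) z₀ := by
    exact (innerSL ℝ z₀.2).hasFDerivAt.comp z₀ hasFDerivAt_fst
  have h3 : HasFDerivAt (fun z : E m × E m => (⟪(F z₀).2, (F z).1⟫ : ℝ))
      ((innerSL ℝ (F z₀).2).comp ((ContinuousLinearMap.fst ℝ (E m) (E m)).comp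
        (fderiv ℝ F z₀))) z₀ := by
    have h4 : HasFDerivAt F (fderiv ℝ F z₀) z₀ :=
      ((hF.smooth.differentiable (by norm_num)) z₀).hasFDerivAt
    exact (innerSL ℝ (F z₀).2).hasFDerivAt.comp z₀ h4.fst
  have h5 := (h2.add h1).sub h3
  refine slag_o (h := fun z => ⟪z₀.2, z.1⟫ + A (sigN V z) - ⟪(F z₀).2, (F z).1⟫)
    hL.sub hz h5 ?_
  intro ζ hζ
  have h6 := hF.exact z₀ hzT ζ (slag_mono hL.subTN hζ)
  rw [← slag_dG hF] at h6
  simp only [sub_apply, add_apply, ContinuousLinearMap.comp_apply, innerSL_apply_apply,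
    ContinuousLinearMap.coe_fst']
  linarith

theorem str_om (hF : StrN N V Θ F F' A) (hN : IsSubmfd n N) {z v w : E m × E m}
    (hz : z ∈ TN N) (hv : v ∈ Tan (TN N) z) (hw : w ∈ Tan (TN N) z) :
    om (fderiv ℝ F z v) (fderiv ℝ F z w) = om v w := by
  refine om_pres (TN_submfd hN) hF.smooth (slag_G hF) ?_ hz hv hw
  intro z hz ζ hζ
  rw [slag_dG hF]
  exact hF.exact z hz ζ hζ

theorem str_symp (hF : StrN N V Θ F F' A) (hN : IsSubmfd n N) : SympDiffeo N ⊥ F' F := by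
  have htr : ∀ g ∈ (⊥ : AddSubgroup (E m)), ∀ z : E m × E m, tr g z = z := by
    intro g hg z
    rw [AddSubgroup.mem_bot.1 hg]
    unfold tr
    rw [add_zero]
  refine ⟨hF.maps', hF.maps, hF.right, hF.left, ?_, ?_, ?_, ?_⟩
  · intro x _
    exact ⟨F', univ, isOpen_univ, mem_univ _, hF.smooth'.contDiffOn, fun y _ => rfl⟩
  · intro x _
    exact ⟨F, univ, isOpen_univ, mem_univ _, hF.smooth.contDiffOn, fun y _ => rfl⟩
  · intro g hg z _
    rw [htr g hg, htr g hg]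
  · intro z hz v hv w hw
    have h6 : HasFDerivAt F' (fderiv ℝ F' z) z :=
      ((hF.smooth'.differentiable (by norm_num)) z).hasFDerivAt
    refine ⟨fderiv ℝ F' z v, fderiv ℝ F' z w, ?_, ?_, ?_⟩
    · intro γ h0 _ hd
      subst h0
      exact h6.comp_hasDerivAt (0 : ℝ) hd
    · intro γ h0 _ hd
      subst h0
      exact h6.comp_hasDerivAt (0 : ℝ) hd
    · obtain ⟨h1, h2⟩ := slag_chain hF hv
      obtain ⟨h3, h4⟩ := slag_chain hF hw
      rw [← str_om hF hN (hF.maps' z hz) h2 h4, h1, h3]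

theorem str_lag (hF : StrN N V Θ F F' A) (hN : IsSubmfd n N) (hc : IsCompact N)
    (hL : ExactLag n N ⊥ S f) : ∃ f', ExactLag n N ⊥ (F '' S) f' := by
  have htr : ∀ g ∈ (⊥ : AddSubgroup (E m)), ∀ z : E m × E m, tr g z = z := by
    intro g hg z
    rw [AddSubgroup.mem_bot.1 hg]
    unfold tr
    rw [add_zero]
  have hleft : ∀ z ∈ S, F' (F z) = z := fun z hz => hF.left z (hL.subTN hz)
  have hSc : IsCompact (F '' S) := (compactS hc hL).image hF.smooth.continuous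
  refine ⟨fun y => f (F' y) + A (sigN V (F' y)), ?_⟩
  refine ⟨hL.ne.image _, image_submfd hL.sub hF.smooth hF.smooth' hleft, hSc.isClosed,
    ?_, ?_, ?_, ?_, ?_, ?_⟩
  · rintro _ ⟨z, hz, rfl⟩
    exact hF.maps z (hL.subTN hz)
  · intro g hg z hz
    rw [htr g hg]
    exact hz
  · obtain ⟨K, hK⟩ := hSc.exists_bound_of_continuousOn
      (f := fun z : E m × E m => z.2) continuous_snd.continuousOn
    exact ⟨K, hK⟩
  · rintro _ ⟨z, hz, rfl⟩ u hu w hw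
    obtain ⟨u', hu', rfl⟩ := (tan_imageN hF.smooth hF.smooth' hleft hz).1 hu
    obtain ⟨w', hw', rfl⟩ := (tan_imageN hF.smooth hF.smooth' hleft hz).1 hw
    rw [str_om hF hN (hL.subTN hz) (slag_mono hL.subTN hu') (slag_mono hL.subTN hw')]
    exact hL.lag z hz u' hu' w' hw'
  · rintro _ ⟨z₀, hz₀, rfl⟩
    have hd' : HasFDerivAt F' (fderiv ℝ F' (F z₀)) (F z₀) :=
      ((hF.smooth'.differentiable (by norm_num)) _).hasFDerivAt
    have hT : Tendsto F' (𝓝[F '' S] (F z₀)) (𝓝[S] z₀) := by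
      have h1 : Tendsto F' (𝓝[F '' S] (F z₀)) (𝓝[S] (F' (F z₀))) := by
        refine (hF.smooth'.continuous.continuousWithinAt).tendsto_nhdsWithin ?_
        rintro _ ⟨z, hz, rfl⟩
        rw [hleft z hz]
        exact hz
      rwa [hleft z₀ hz₀] at h1
    have h2 := ((hL.prim z₀ hz₀).add (slag_prim hF hL hz₀)).comp_tendsto hT
    have h3 : (fun y => F' y - z₀) =O[𝓝[F '' S] (F z₀)] (fun y => y - F z₀) := by
      have h4 := (hd'.isBigO_sub).mono (nhdsWithin_le_nhds (s := F '' S))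
      rwa [hleft z₀ hz₀] at h4
    have h5 := h2.trans_isBigO h3
    refine h5.congr' ?_ (Eventually.of_forall fun _ => rfl)
    filter_upwards [self_mem_nhdsWithin] with y hy
    obtain ⟨z, hz, rfl⟩ := hy
    simp only [Function.comp_apply, hleft z hz, hleft z₀ hz₀, inner_sub_right]
    ring
  · intro g hg z _
    rw [htr g hg]

end Pool.Agent.H2.TI
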