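import Pool.Agent.H2.TI.SImg
import Pool.Agent.H2.TI.SDefs
import Pool.Agent.H2.TI.NReg

/-!
# No caustics after the straightening (module SNoC)

Copy of `H2/TG/NoCaus.lean` with small changes.
PROOF. Let `F z ∈ F '' S`, `z ∈ S`, `b ≠ 0`, `(0, b) ∈ Tan (F '' S) (F z)`. By `tan_imageN` (`left` on `S ⊆ TN N`) there is
`ζ ∈ Tan S z` with `DF(z) ζ = (0, b)`; `ζ ∈ Tan (TN N) z`. By `StrN.vert`: `D(sigN V)(z) ζ = c • XFN V Θ 1 x`, `x = sigN V z ∈ C = sigN V '' S`.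
Let `W, u` be a local equation at `x` (`exists_locN`). A curve `γ` in `S` with velocity `ζ` at `z` is mapped by `sigN V`
(smooth, `sigN_contDiff` in NHyp) to a curve in `C` with velocity `D(sigN V)(z) ζ`, so `Du(x)(D(sigN V)(z) ζ) = 0` (`u = 0` along the
curve: `LocN.eqn`, first component in `N`). So `c * dpl V u x (-sin Θ) (cos Θ) = 0` (`XFN V Θ 1 x = ((-sin (1 * Θ x)) • V x.1, cos (1 * Θ x))`).
By hypothesis `(x, Θ x) ∈ PSN`, so `dpl V u x (cos Θ) (sin Θ) = 0`. If also `dpl V u x (-sin Θ) (cos Θ) = 0`, then `dpl V u x 1 0 = 0` and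
`dpl V u x 0 1 = 0` (linearity, rotation), contradicting `LocN.reg`. So `c = 0`: by `sigN_fderiv` (NHyp) `ζ.1 = 0` and
`⟪ζ.2, V z.1⟫ = 0` (the other term is `⟪z.2, DV(z.1) 0⟫ = 0`); by `hE.imm`, `ζ.2 = 0`, so `ζ = 0`, `b = 0`: contradiction.
-/

set_option autoImplicit false

open scoped ContDiff Topology RealInnerProductSpace
open Set Filter

namespace Pool.Agent.H2.TI

open Pool.Agent.H57.NL Pool.Agent.H2.TG

variable {m n : ℕ} {N : Set (E m)} {V : E m → E m} {R : ℝ → E m → E m} {Θ : E m × ℝ → ℝ}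
  {S : Set (E m × E m)} {f : E m × E m → ℝ} {F F' : E m × E m → E m × E m} {A : E m × ℝ → ℝ}

private theorem snoc_lin (V : E m → E m) (u : E m × ℝ → ℝ) (y : E m × ℝ) (a b : ℝ) :
    dpl V u y a b = a * dpl V u y 1 0 + b * dpl V u y 0 1 := by
  unfold dpl
  have h : (a • V y.1, b) = a • ((1 : ℝ) • V y.1, (0 : ℝ)) + b • ((0 : ℝ) • V y.1, (1 : ℝ)) := by
    refine Prod.ext ?_ ?_
    · simp
    · simp
  rw [h, map_add, map_smul, map_smul, smul_eq_mul, smul_eq_mul]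

theorem no_causN (hB : Base n N V R) (hL : ExactLag n N ⊥ S f) (hE : EmbN V S)
    (hΘ : ∀ y ∈ sigN V '' S, (y, Θ y) ∈ PSN N V (sigN V '' S)) (hF : StrN N V Θ F F' A) :
    ∀ z ∈ F '' S, ¬ Caustic (F '' S) z := by
  rintro _ ⟨z, hz, rfl⟩ ⟨b, hb, ht⟩
  obtain ⟨ζ, hζ, hζb⟩ := (tan_imageN hF.smooth hF.smooth'
    (fun z hz => hF.left z (hL.subTN hz)) hz).1 ht
  have hζN : ζ ∈ Tan (TN N) z := by
    obtain ⟨γ, hγ0, hγS, hγ⟩ := hζ
    exact ⟨γ, hγ0, hγS.mono fun s hs => hL.subTN hs, hγ⟩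
  obtain ⟨c, hc⟩ := hF.vert z (hL.subTN hz) ζ hζN (by rw [hζb])
  have hx : sigN V z ∈ sigN V '' S := mem_image_of_mem _ hz
  obtain ⟨W, u, hxW, hW⟩ := exists_locN hB hL hE hx
  have hV : ContDiff ℝ ∞ V := hB.smooth
  -- the derivative of `u` along the image of `ζ`
  have hD : fderiv ℝ u (sigN V z) (fderiv ℝ (sigN V) z ζ) = 0 := by
    obtain ⟨γ, hγ0, hγS, hγ⟩ := hζ
    have hs : HasFDerivAt (sigN V) (fderiv ℝ (sigN V) z) (γ 0) := by
      rw [hγ0]
      exact (((sigN_contDiff hV).differentiable (by simp)) z).hasFDerivAt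
    have h1 : HasDerivAt (fun s => sigN V (γ s)) (fderiv ℝ (sigN V) z ζ) 0 :=
      hs.comp_hasDerivAt 0 hγ
    have hx0 : sigN V (γ 0) = sigN V z := by rw [hγ0]
    have h2 : HasFDerivAt u (fderiv ℝ u (sigN V z)) (sigN V (γ 0)) := by
      rw [hx0]
      exact ((hW.smooth.contDiffAt (hW.isOpen.mem_nhds hxW)).differentiableAt
        (by simp)).hasFDerivAt
    have h3 : HasDerivAt (fun s => u (sigN V (γ s)))
        (fderiv ℝ u (sigN V z) (fderiv ℝ (sigN V) z ζ)) 0 := h2.comp_hasDerivAt 0 h1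
    have h4 : ∀ᶠ s in 𝓝 (0 : ℝ), sigN V (γ s) ∈ W := by
      have h5 : ContinuousAt (fun s => sigN V (γ s)) 0 := h1.continuousAt
      have h8 : sigN V (γ 0) ∈ W := by
        rw [hx0]
        exact hxW
      exact h5 (hW.isOpen.mem_nhds h8)
    have h6 : (fun s => u (sigN V (γ s))) =ᶠ[𝓝 0] fun _ => (0 : ℝ) := by
      filter_upwards [h4, hγS] with s hs1 hs2
      exact (hW.eqn _ hs1 (hL.subTN hs2).1).1 ⟨γ s, hs2, rfl⟩
    exact h3.unique ((hasDerivAt_const (0 : ℝ) (0 : ℝ)).congr_of_eventuallyEq h6)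
  have hP : dpl V u (sigN V z) (Real.cos (Θ (sigN V z))) (Real.sin (Θ (sigN V z))) = 0 :=
    (hΘ _ hx).2 W u hxW hW
  have hc0 : c = 0 := by
    by_contra hc0
    have h1 : dpl V u (sigN V z) (-Real.sin (Θ (sigN V z))) (Real.cos (Θ (sigN V z))) = 0 := by
      rw [hc, map_smul, smul_eq_mul] at hD
      have h2 := (mul_eq_zero.1 hD).resolve_left hc0
      unfold XFN at h2
      rw [one_mul] at h2
      exact h2
    rw [snoc_lin] at h1 hP
    have h3 := Real.sin_sq_add_cos_sq (Θ (sigN V z))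
    refine hW.reg _ hxW ⟨?_, ?_⟩
    · linear_combination Real.cos (Θ (sigN V z)) * hP - Real.sin (Θ (sigN V z)) * h1 -
        dpl V u (sigN V z) 1 0 * h3
    · linear_combination Real.sin (Θ (sigN V z)) * hP + Real.cos (Θ (sigN V z)) * h1 -
        dpl V u (sigN V z) 0 1 * h3
  rw [hc0, zero_smul, sigN_fderiv hV] at hc
  have h1 : ζ.1 = 0 := congrArg Prod.fst hc
  have h2 : ⟪ζ.2, V z.1⟫ + ⟪z.2, fderiv ℝ V z.1 ζ.1⟫ = 0 := congrArg Prod.snd hc
  rw [h1, map_zero, inner_zero_right, add_zero] at h2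
  have h3 : ζ.2 = 0 := hE.imm z hz ζ.2 (by rw [← h1]; exact hζ) h2
  have h4 : ζ = 0 := Prod.ext h1 h3
  rw [h4, map_zero] at hζb
  exact hb (congrArg Prod.snd hζb).symm

end Pool.Agent.H2.TI
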