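import Pool.Agent.H2.TI.NBase
import Pool.Agent.H2.TI.NReg
import Pool.Agent.H2.TI.NPrim
import Pool.Agent.H2.TI.NCurvB
import Pool.Agent.H2.TI.NLeafA
import Pool.Agent.H2.TI.NTheta
import Pool.Agent.H2.TI.NGood
import Pool.Agent.H2.TI.SEx
import Pool.Agent.H2.TI.SLag
import Pool.Agent.H2.TI.SNoC
import Pool.Agent.H2.TI.SComp
import Pool.Agent.H57.NL.Graph

/-!
# The main theorem
-/

set_option autoImplicit false

open scoped ContDiff Topology RealInnerProductSpace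
open Set Filter

namespace Pool.Agent.H2.TI

open Pool.Agent.H57.NL Pool.Agent.H2.TG

variable {m n : ℕ} {N : Set (E m)} {V : E m → E m} {R : ℝ → E m → E m}
  {S : Set (E m × E m)} {f : E m × E m → ℝ}

theorem closedMfd_compact (hN : ClosedMfd n N ⊥) : IsCompact N := by
  obtain ⟨R, hR⟩ := hN.cocpt
  refine Metric.isCompact_of_isClosed_isBounded hN.closed ?_
  refine (Metric.isBounded_closedBall (x := (0 : E m)) (r := R)).subset ?_
  intro q hq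
  obtain ⟨g, hg, h⟩ := hR q hq
  rw [AddSubgroup.mem_bot] at hg
  rw [hg, add_zero] at h
  rwa [mem_closedBall_zero_iff]

/-- The case of a vector field with a flow. -/
theorem main_base (hN : ClosedMfd n N ⊥) (hB : Base n N V R) (hL : ExactLag n N ⊥ S f)
    (hE : EmbN V S) :
    ∃ ψ ψ', SympDiffeo N ⊥ ψ ψ' ∧ ψ '' {z | z.1 ∈ N ∧ z.2 = 0} = S := by
  obtain ⟨M, hR⟩ := red_ofN hB hL hE
  obtain ⟨κ, hκ⟩ := exists_curvN hB hR
  obtain ⟨Λ, hΛ⟩ := exists_leafFlowN hB hκ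
  obtain ⟨G, hG⟩ := exists_primN hB hL hE
  have h : LeafN n N V R (sigN V '' S) M κ Λ G := ⟨hB, hR, hκ, hΛ, hG⟩
  obtain ⟨Θ, hΘ, hC, hZ⟩ := exists_Theta h
  obtain ⟨Ψ, hΨ⟩ := exists_XFlowN hB hΘ
  obtain ⟨τ, hτ, hGood⟩ := goodN h hΘ hC hZ hΨ
  obtain ⟨F, F', A, hF⟩ := exists_str hB hΘ hΨ hτ hGood
  have hPS : ∀ y ∈ sigN V '' S, (y, Θ y) ∈ PSN N V (sigN V '' S) := by
    intro y hy
    obtain ⟨φ, hφ⟩ := RP_exists h hy
    have h1 : Θ y = φ := hC _ hφ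
    rw [h1]
    exact hφ.1
  have hno := no_causN hB hL hE hPS hF
  obtain ⟨f', hL'⟩ := str_lag hF hB.sub hB.cpt hL
  obtain ⟨hinj, hno'⟩ := injective_of_no_extremal hN hL' (fun z hz hc => (hno z hz hc).elim)
  obtain ⟨u, s, ψ, ψ', hg⟩ := graph_of_injective hN hL' hinj hno'
  refine ⟨F' ∘ ψ, ψ' ∘ F, sympDiffeo_compN hg.diffeo (str_symp hF hB.sub), ?_⟩
  rw [image_comp, hg.image, ← image_comp]
  have h2 : ∀ z ∈ S, (F' ∘ F) z = z := fun z hz => hF.left z (hL.subTN hz)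
  rw [image_congr h2, image_id']

/-- **Theorem I.** -/
theorem main (hN : ClosedMfd n N ⊥) (hV : ContDiff ℝ ∞ V) (hT : ∀ q ∈ N, V q ∈ Tan N q)
    (hL : ExactLag n N ⊥ S f) (hE : EmbN V S) :
    ∃ ψ ψ', SympDiffeo N ⊥ ψ ψ' ∧ ψ '' {z | z.1 ∈ N ∧ z.2 = 0} = S := by
  obtain ⟨V', R, hB, hVV⟩ := exists_base hN.sub (closedMfd_compact hN) hN.conn hV hT
  have hV' : ∀ z ∈ S, V' z.1 = V z.1 := fun z hz => hVV z.1 (hL.subTN hz).1
  refine main_base hN hB hL ⟨?_, ?_⟩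
  · intro z hz z' hz' h1 h2
    rw [hV' z hz, hV' z' hz'] at h2
    exact hE.inj z hz z' hz' h1 h2
  · intro z hz b hb h
    rw [hV' z hz] at h
    exact hE.imm z hz b hb h

end Pool.Agent.H2.TI
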