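import Pool.Agent.H2.TI.Ends

/-!
# The total angle of a leaf with ends at infinity (module WnFar)

`c` has ends `e` (for `s → +∞`) and `e'` (for `s → -∞`), `|(c s).2| < M`.

PROOFS.
* (arg) If `u : ℂ`, `e = ± 1`, `e Re u ≥ 20 |Im u|`, `u ≠ 0`, then: `e = 1`: `|arg u| ≤ 1/10`; `e = -1` and `Im u < 0`:
  `|arg u + π| ≤ 1/10`; `e = -1` and `Im u ≥ 0`: `|arg u - π| ≤ 1/10` (`|sin| ≤ 1/20` and `arcsin`, or `|arg| ≤ |tan|`).
* `wn_near`: given `R`, take `S₀` with `e (c s).1 ≥ R + 20 (R + M)` for `s ≥ S₀` and `e' (c s).1 ≥ R + 20 (R + M)` for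
  `s ≤ -S₀`. For `S ≥ S₀` and `z` in the square: `u = cx (c S) - cx z` has `|Im u| ≤ R + M`, `e Re u ≥ 20 (R + M)`, so `arg u` is
  within `1/10` of `π ℤ`; the same for `u' = cx (c (-S)) - cx z`. `wn_exp`: `exp (Wn) = u / u'`, so
  `Im Wn = arg u - arg u' + 2 π k`.
* `wn_high`: `wn_above` on `[-S, S]` with `z = (0, M)` (all `Im < 0`) and (arg): `arg u` is within `1/10` of
  `0` (`e = 1`) or `-π` (`e = -1`), i.e. of `π (e - 1) / 2`, and `arg u'` of `π (e' - 1) / 2`. `wn_low`: `z = (0, -M)`, `arg u`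
  is within `1/10` of `- π (e - 1) / 2`.
* `near_const`: a continuous function on a preconnected set all of whose values are within `1/5` of `π ℤ` varies
  by at most `2/5` (the sets `{|x - k π| < 1/2}` are open and disjoint).
* `wn_join`: the path is compact, in a square of size `R`; `wn_near`, continuity (`wn_cont`) and `near_const`
  on `[0, 1]` for `u ↦ (Wn c φ (-S) S (path u)).im`, for every `S ≥ S₀`.
* `wn_stab`: `near_const` on `[S₀, ∞)` for `S ↦ (Wn c φ (-S) S z).im` (`wn_contS`).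
-/

set_option autoImplicit false

open scoped Topology
open Set Filter

namespace Pool.Agent.H2.TI

variable {c : ℝ → ℝ × ℝ} {φ : ℝ → ℝ} {M e e' : ℝ}

theorem near_const {X : Type*} [TopologicalSpace X] {Y : Set X} (hY : IsPreconnected Y) {f : X → ℝ}
    (hf : ContinuousOn f Y) (h : ∀ y ∈ Y, ∃ k : ℤ, |f y - k * Real.pi| ≤ 1 / 5) {y y' : X}
    (hy : y ∈ Y) (hy' : y' ∈ Y) : |f y - f y'| ≤ 2 / 5 := by
  have hpi := Real.pi_gt_three
  have himg : IsPreconnected (f '' Y) := hY.image f hf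
  have hno : ∀ k : ℤ, k * Real.pi + Real.pi / 2 ∉ f '' Y := by
    rintro k ⟨x, hx, hfx⟩
    obtain ⟨j, hj⟩ := h x hx
    rw [hfx, show (k : ℝ) * Real.pi + Real.pi / 2 - j * Real.pi = ((k - j : ℤ) + 1 / 2) * Real.pi by
      push_cast; ring, abs_mul, abs_of_pos Real.pi_pos] at hj
    have h1 : (1 / 2 : ℝ) ≤ |((k - j : ℤ) : ℝ) + 1 / 2| := by
      rcases le_or_gt 0 (k - j) with h2 | h2
      · have h3 : (0 : ℝ) ≤ ((k - j : ℤ) : ℝ) := by exact_mod_cast h2
        exact le_trans (by linarith) (le_abs_self _)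
      · have h3 : ((k - j : ℤ) : ℝ) ≤ -1 := by exact_mod_cast (by omega : k - j ≤ -1)
        exact le_trans (by linarith) (neg_le_abs _)
    nlinarith
  have key : ∀ x ∈ Y, ∀ x' ∈ Y, ∀ k k' : ℤ, |f x - k * Real.pi| ≤ 1 / 5 →
      |f x' - k' * Real.pi| ≤ 1 / 5 → k' ≤ k := by
    intro x hx x' hx' k k' hk hk'
    by_contra hlt
    rw [not_le] at hlt
    have h1 : (k : ℝ) + 1 ≤ k' := by exact_mod_cast hlt
    have h2 := abs_le.1 hk
    have h3 := abs_le.1 hk'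
    have h4 : ((k : ℝ) + 1) * Real.pi ≤ k' * Real.pi :=
      mul_le_mul_of_nonneg_right h1 Real.pi_pos.le
    refine hno k (himg.Icc_subset (mem_image_of_mem f hx) (mem_image_of_mem f hx') ⟨?_, ?_⟩)
    · linarith [h2.2]
    · linarith [h3.1]
  obtain ⟨k, hk⟩ := h y hy
  obtain ⟨k', hk'⟩ := h y' hy'
  have e : k = k' := le_antisymm (key y' hy' y hy k' k hk' hk) (key y hy y' hy' k k' hk hk')
  subst e
  have h2 := abs_le.1 hk
  have h3 := abs_le.1 hk'
  rw [abs_le]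
  constructor <;> linarith [h2.1, h2.2, h3.1, h3.2]

private lemma wf_re (w : ℝ × ℝ) : (cx w).re = w.1 := by simp [cx]

private lemma wf_im (w : ℝ × ℝ) : (cx w).im = w.2 := by simp [cx]

/-- arguments near the positive real axis -/
private lemma wf_argp {u : ℂ} (hu : u ≠ 0) (h : 20 * |u.im| ≤ u.re) : |Complex.arg u| ≤ 1 / 10 := by
  have h0 : 0 ≤ u.re := le_trans (by positivity) h
  have hn : 0 < ‖u‖ := norm_pos_iff.2 hu
  have h1 : |Complex.arg u| ≤ Real.pi / 2 := Complex.abs_arg_le_pi_div_two_iff.2 h0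
  have h2 := Real.mul_le_sin (abs_nonneg (Complex.arg u)) h1
  have h3 : Real.sin |Complex.arg u| ≤ 1 / 20 := by
    have h4 : Real.sin |Complex.arg u| ≤ |Real.sin (Complex.arg u)| := by
      rcases le_total 0 (Complex.arg u) with h5 | h5
      · rw [abs_of_nonneg h5]
        exact le_abs_self _
      · rw [abs_of_nonpos h5, Real.sin_neg]
        exact neg_le_abs _
    refine h4.trans ?_
    rw [Complex.sin_arg, abs_div, abs_of_pos hn, div_le_iff₀ hn]
    have h6 := Complex.re_le_norm u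
    linarith
  have h4 := Real.pi_lt_d2
  have h5 := Real.pi_pos
  have h6 : 2 / Real.pi * |Complex.arg u| ≤ 1 / 20 := h2.trans h3
  rw [div_mul_eq_mul_div, div_le_iff₀ h5] at h6
  linarith

private lemma wf_argn {u : ℂ} (hu : u ≠ 0) (h : 20 * |u.im| ≤ -u.re) (hi : u.im < 0) :
    |Complex.arg u + Real.pi| ≤ 1 / 10 := by
  rw [← Complex.arg_neg_eq_arg_add_pi_of_im_neg hi]
  refine wf_argp (neg_ne_zero.2 hu) ?_
  rw [Complex.neg_im, Complex.neg_re, abs_neg]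
  exact h

private lemma wf_argn' {u : ℂ} (hu : u ≠ 0) (h : 20 * |u.im| ≤ -u.re) (hi : 0 ≤ u.im) :
    |Complex.arg u - Real.pi| ≤ 1 / 10 := by
  have h1 : Complex.arg (-u) = Complex.arg u - Real.pi := by
    rw [Complex.arg_neg_eq_arg_sub_pi_iff]
    rcases hi.eq_or_lt with h2 | h2
    · right
      refine ⟨h2.symm, ?_⟩
      rw [← h2, abs_zero, mul_zero] at h
      refine lt_of_le_of_ne (by linarith) fun h3 => hu (Complex.ext h3 h2.symm)
    · exact Or.inl h2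
  rw [← h1]
  refine wf_argp (neg_ne_zero.2 hu) ?_
  rw [Complex.neg_im, Complex.neg_re, abs_neg]
  exact h

private lemma wf_arg {u : ℂ} (hu : u ≠ 0) (he : e = 1 ∨ e = -1) (h : 20 * |u.im| ≤ e * u.re) :
    ∃ k : ℤ, |Complex.arg u - k * Real.pi| ≤ 1 / 10 := by
  rcases he with rfl | rfl
  · refine ⟨0, ?_⟩
    rw [Int.cast_zero, zero_mul, sub_zero]
    exact wf_argp hu (by linarith)
  · rcases lt_or_ge u.im 0 with hi | hi
    · refine ⟨-1, ?_⟩
      have := wf_argn hu (by linarith) hi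
      rw [show Complex.arg u - ((-1 : ℤ) : ℝ) * Real.pi = Complex.arg u + Real.pi by push_cast; ring]
      exact this
    · refine ⟨1, ?_⟩
      have := wf_argn' hu (by linarith) hi
      rw [show Complex.arg u - ((1 : ℤ) : ℝ) * Real.pi = Complex.arg u - Real.pi by push_cast; ring]
      exact this

private lemma wf_pos (hM : ∀ s, |(c s).2| < M) : 0 < M := lt_of_le_of_lt (abs_nonneg _) (hM 0)

/-- both ends are far for large parameters -/
private lemma wf_ends (hR : EndR c e) (hL : EndL c e') (B : ℝ) :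
    ∃ S₀ : ℝ, 0 < S₀ ∧ ∀ S, S₀ ≤ S → B ≤ e * (c S).1 ∧ B ≤ e' * (c (-S)).1 := by
  obtain ⟨S1, h1⟩ := Filter.eventually_atTop.1 (hR.eventually_ge_atTop B)
  obtain ⟨S2, h2⟩ := Filter.eventually_atBot.1 (hL.eventually_ge_atTop B)
  refine ⟨max 1 (max S1 (-S2)), lt_of_lt_of_le one_pos (le_max_left _ _), fun S hS => ?_⟩
  have h3 : S1 ≤ S := ((le_max_left _ _).trans (le_max_right _ _)).trans hS
  have h4 : -S2 ≤ S := ((le_max_right _ _).trans (le_max_right _ _)).trans hS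
  exact ⟨h1 S h3, h2 (-S) (by linarith)⟩

/-- the difference to a point of the square -/
private lemma wf_diff {R : ℝ} {w z : ℝ × ℝ} (he : e = 1 ∨ e = -1) (hw : |w.2| < M)
    (hwz : w ≠ z) (hB : R + 20 * (R + M) ≤ e * w.1) (hz1 : |z.1| ≤ R) (hz2 : |z.2| ≤ R) :
    cx w - cx z ≠ 0 ∧ 20 * |(cx w - cx z).im| ≤ e * (cx w - cx z).re := by
  refine ⟨sub_ne_zero.2 fun h => hwz (cx_inj h), ?_⟩
  rw [Complex.sub_im, Complex.sub_re, wf_im, wf_im, wf_re, wf_re]
  have h1 : |w.2 - z.2| ≤ M + R := (abs_sub _ _).trans (add_le_add hw.le hz2)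
  have h2 : e * z.1 ≤ R := by
    rcases he with rfl | rfl
    · linarith [le_abs_self z.1]
    · linarith [neg_le_abs z.1]
  rw [mul_sub]
  linarith

theorem wn_near (hc : PC c φ) (hM : ∀ s, |(c s).2| < M) (he : e = 1 ∨ e = -1)
    (he' : e' = 1 ∨ e' = -1) (hR : EndR c e) (hL : EndL c e') (R : ℝ) :
    ∃ S₀ : ℝ, 0 < S₀ ∧ ∀ S, S₀ ≤ S → ∀ z : ℝ × ℝ, |z.1| ≤ R → |z.2| ≤ R → (∀ s, c s ≠ z) →
      ∃ k : ℤ, |(Wn c φ (-S) S z).im - k * Real.pi| ≤ 1 / 5 := by
  obtain ⟨S₀, hS₀, h⟩ := wf_ends hR hL (R + 20 * (R + M))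
  refine ⟨S₀, hS₀, fun S hS z hz1 hz2 hz => ?_⟩
  obtain ⟨hB, hB'⟩ := h S hS
  obtain ⟨hu, hui⟩ := wf_diff he (hM S) (hz S) hB hz1 hz2
  obtain ⟨hu', hui'⟩ := wf_diff he' (hM (-S)) (hz (-S)) hB' hz1 hz2
  obtain ⟨k, hk⟩ := wf_arg hu he hui
  obtain ⟨k', hk'⟩ := wf_arg hu' he' hui'
  have h1 := wn_exp hc (show -S ≤ S by linarith) (fun s _ => hz s)
  rw [← Complex.exp_log hu, ← Complex.exp_log hu', ← Complex.exp_sub,
    Complex.exp_eq_exp_iff_exists_int] at h1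
  obtain ⟨m, hm⟩ := h1
  have h2 : (Wn c φ (-S) S z).im = Complex.arg (cx (c S) - cx z) -
      Complex.arg (cx (c (-S)) - cx z) + m * (2 * Real.pi) := by
    rw [hm, Complex.add_im, Complex.sub_im, Complex.log_im, Complex.log_im]
    congr 1
    simp [Complex.mul_im, Complex.mul_re]
  refine ⟨k - k' + 2 * m, ?_⟩
  rw [h2]
  have h3 := abs_le.1 hk
  have h4 := abs_le.1 hk'
  rw [abs_le]
  push_cast
  constructor <;> linarith [h3.1, h3.2, h4.1, h4.2]

private lemma wf_side {w : ℝ × ℝ} {η : ℝ} (he : e = 1 ∨ e = -1) (hw : |w.2| < M)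
    (hη : η = M ∨ η = -M) (hB : 40 * M ≤ e * w.1) :
    |Complex.arg (cx w - cx (0, η)) - η / M * (Real.pi * (e - 1) / 2)| ≤ 1 / 10 := by
  have hM0 : 0 < M := lt_of_le_of_lt (abs_nonneg _) hw
  have hw' := abs_lt.1 hw
  have hre : (cx w - cx (0, η)).re = w.1 := by
    rw [Complex.sub_re, wf_re, wf_re, sub_zero]
  have him : (cx w - cx (0, η)).im = w.2 - η := by
    rw [Complex.sub_im, wf_im, wf_im]
  have hi : |w.2 - η| ≤ 2 * M := by
    rw [abs_le]
    rcases hη with rfl | rfl <;> constructor <;> linarith [hw'.1, hw'.2]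
  have hne : cx w - cx (0, η) ≠ 0 := by
    intro h0
    have h1 := congrArg Complex.im h0
    rw [him, Complex.zero_im] at h1
    rcases hη with rfl | rfl <;> linarith [hw'.1, hw'.2]
  rcases he with rfl | rfl
  · have h1 := wf_argp hne (by rw [hre, him]; linarith)
    rw [show η / M * (Real.pi * (1 - 1) / 2) = 0 by ring, sub_zero]
    exact h1
  · rcases hη with rfl | rfl
    · have h1 := wf_argn hne (by rw [hre, him]; linarith) (by rw [him]; linarith [hw'.2])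
      rw [show η / η * (Real.pi * (-1 - 1) / 2) = -Real.pi by
        rw [div_self hM0.ne']; ring, sub_neg_eq_add]
      exact h1
    · have h1 := wf_argn' hne (by rw [hre, him]; linarith) (by rw [him]; linarith [hw'.1])
      rw [show -M / M * (Real.pi * (-1 - 1) / 2) = Real.pi by
        rw [neg_div, div_self hM0.ne']; ring]
      exact h1

theorem wn_high (hc : PC c φ) (hM : ∀ s, |(c s).2| < M) (he : e = 1 ∨ e = -1)
    (he' : e' = 1 ∨ e' = -1) (hR : EndR c e) (hL : EndL c e') :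
    ∃ S₀ : ℝ, 0 < S₀ ∧ ∀ S, S₀ ≤ S →
      |(Wn c φ (-S) S (0, M)).im - Real.pi * (e - e') / 2| ≤ 1 / 5 := by
  have hM0 := wf_pos hM
  obtain ⟨S₀, hS₀, h⟩ := wf_ends hR hL (40 * M)
  refine ⟨S₀, hS₀, fun S hS => ?_⟩
  obtain ⟨hB, hB'⟩ := h S hS
  have h1 := wf_side he (hM S) (Or.inl rfl) hB
  have h2 := wf_side he' (hM (-S)) (Or.inl rfl) hB'
  rw [wn_above hc (show -S ≤ S by linarith) (fun s _ => (abs_lt.1 (hM s)).2)]
  rw [div_self hM0.ne', one_mul] at h1 h2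
  have h3 := abs_le.1 h1
  have h4 := abs_le.1 h2
  rw [abs_le]
  constructor <;> linarith [h3.1, h3.2, h4.1, h4.2]

theorem wn_low (hc : PC c φ) (hM : ∀ s, |(c s).2| < M) (he : e = 1 ∨ e = -1)
    (he' : e' = 1 ∨ e' = -1) (hR : EndR c e) (hL : EndL c e') :
    ∃ S₀ : ℝ, 0 < S₀ ∧ ∀ S, S₀ ≤ S →
      |(Wn c φ (-S) S (0, -M)).im + Real.pi * (e - e') / 2| ≤ 1 / 5 := by
  have hM0 := wf_pos hM
  obtain ⟨S₀, hS₀, h⟩ := wf_ends hR hL (40 * M)
  refine ⟨S₀, hS₀, fun S hS => ?_⟩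
  obtain ⟨hB, hB'⟩ := h S hS
  have h1 := wf_side he (hM S) (Or.inr rfl) hB
  have h2 := wf_side he' (hM (-S)) (Or.inr rfl) hB'
  rw [wn_below hc (show -S ≤ S by linarith) (fun s _ => (abs_lt.1 (hM s)).1)]
  rw [neg_div, div_self hM0.ne', neg_one_mul, sub_neg_eq_add] at h1 h2
  have h3 := abs_le.1 h1
  have h4 := abs_le.1 h2
  rw [abs_le]
  constructor <;> linarith [h3.1, h3.2, h4.1, h4.2]

theorem wn_join (hc : PC c φ) (hM : ∀ s, |(c s).2| < M) (he : e = 1 ∨ e = -1)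
    (he' : e' = 1 ∨ e' = -1) (hR : EndR c e) (hL : EndL c e') {z z' : ℝ × ℝ}
    (hj : JoinedIn (range c)ᶜ z z') :
    ∃ S₀ : ℝ, 0 < S₀ ∧ ∀ S, S₀ ≤ S →
      |(Wn c φ (-S) S z).im - (Wn c φ (-S) S z').im| ≤ 2 / 5 := by
  obtain ⟨γ, hγ⟩ := hj
  obtain ⟨R, hRb⟩ := (isCompact_range γ.continuous).isBounded.exists_norm_le
  obtain ⟨S₀, hS₀, h⟩ := wn_near hc hM he he' hR hL R
  refine ⟨S₀, hS₀, fun S hS => ?_⟩
  have hoff : ∀ w ∈ range γ, ∀ s, c s ≠ w := by
    rintro w ⟨t, rfl⟩ s hs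
    exact hγ t ⟨s, hs⟩
  refine near_const (isPreconnected_range γ.continuous)
    (f := fun w => (Wn c φ (-S) S w).im) ?_ ?_ ⟨0, γ.source⟩ ⟨1, γ.target⟩
  · refine Complex.continuous_im.comp_continuousOn ?_
    exact (wn_cont hc (show -S ≤ S by linarith)).mono fun w hw s _ => hoff w hw s
  · intro w hw
    have hn := hRb w hw
    exact h S hS w ((norm_fst_le w).trans hn) ((norm_snd_le w).trans hn) (hoff w hw)

theorem wn_stab (hc : PC c φ) (hM : ∀ s, |(c s).2| < M) (he : e = 1 ∨ e = -1)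
    (he' : e' = 1 ∨ e' = -1) (hR : EndR c e) (hL : EndL c e') (R : ℝ) :
    ∃ S₀ : ℝ, 0 < S₀ ∧ ∀ z : ℝ × ℝ, |z.1| ≤ R → |z.2| ≤ R → (∀ s, c s ≠ z) → ∀ S S', S₀ ≤ S →
      S₀ ≤ S' → |(Wn c φ (-S) S z).im - (Wn c φ (-S') S' z).im| ≤ 2 / 5 := by
  obtain ⟨S₀, hS₀, h⟩ := wn_near hc hM he he' hR hL R
  refine ⟨S₀, hS₀, fun z hz1 hz2 hz S S' hS hS' => ?_⟩
  refine near_const (isPreconnected_Ici (a := S₀))
    (f := fun S => (Wn c φ (-S) S z).im) ?_ ?_ hS hS'
  · exact (Complex.continuous_im.comp (wn_contS hc hz)).continuousOn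
  · intro T hT
    exact h T hT z hz1 hz2 hz

end Pool.Agent.H2.TI
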