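import Pool.Agent.H2.TI.LeafInj
import Pool.Agent.H2.TI.WnFar

/-!
# There is only one leaf (module OneLeaf)

PROOFS. `c` is injective (`leaf_inj`), ends `e, e'` (`leaf_ends`), `h = π (e - e') / 2 ∈ {0, π, -π}`.
* `leaf_sides` (all claims at once). Fix `s₀`, `R = |(c s₀).1| + |(c s₀).2| + 1`, `S₁` from `wn_stab` for `R`, also with
  `|s₀| < S₁`. `wn_jump` on `[-S₁, S₁]` with `μ = 1/5` gives `e₀ ≤ 1`; `side_off`. For `0 < ε < e₀`, `z± = side c φ s₀ (± ε)`
  (in the square of size `R`, off `Z`): for all `S ≥ S₁`,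
  `|W_S z₊ - W_S z₋ - 2 π| ≤ 1/5 + 2/5 + 2/5 = 1`, where `W_S = Im Wn (-S) S`. By `exists_far` each of `z±` is joined in
  `Zᶜ ⊆ (range c)ᶜ` to `(0, M)` or to `(0, -M)`; by `wn_join`, `wn_high`, `wn_low`, for `S` large `W_S z` is within
  `3/5` of `h` (high) or `-h` (low). Both high or both low: `2 π ≤ 1 + 6/5`, false. `z₊` high, `z₋` low:
  `|2 h - 2 π| ≤ 1 + 6/5`, so `h = π`: `e = 1`, `e' = -1`. `z₊` low, `z₋` high: `|-2 h - 2 π| ≤ 11/5`: `h = -π`: `e = -1`,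
  `e' = 1`.
* `one_leaf`. Suppose `w ∈ Z` is not on `c`. By `PLeaf.sep`, `‖w - c s‖ ≥ δ` for all `s`: the ball `B` of radius `δ`
  around `w` does not meet `range c`. Let `c₁` be a leaf with `c₁ 0 = w` (`PSet.leaf`). By `leaf_sides` for `c₁` (and small
  `ε < δ`) the two points `side c₁ φ₁ 0 (± ε) ∈ B` are: one high, one low (joined in `Zᶜ ⊆ (range c)ᶜ`). They are
  joined by a segment in `B ⊆ (range c)ᶜ`. So `(0, M)` and `(0, -M)` are joined in `(range c)ᶜ`; `wn_join`, `wn_high`,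
  `wn_low` for `c`: `|2 h| ≤ 2/5 + 2/5 < 2 π`, but `h = ± π` by `leaf_sides` for `c`: contradiction.
* `leaf_line`: `leaf_sides` (ends) and the intermediate value theorem. `PLeaf.rev`: the reversed leaf.
-/

set_option autoImplicit false

open scoped ContDiff Topology
open Set

namespace Pool.Agent.H2.TI

variable {Z : Set (ℝ × ℝ)} {M K δ : ℝ} {F : ℝ × ℝ → ℝ} {c : ℝ → ℝ × ℝ} {φ : ℝ → ℝ}

/-- The points beside the leaf at `c s₀`, with the signs of the ends. -/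
private theorem oneLeaf_key (hZ : PSet Z M K δ F) (hc : PLeaf Z δ c φ) {e e' : ℝ}
    (he : e = 1 ∨ e = -1) (he' : e' = 1 ∨ e' = -1) (hR : EndR c e) (hL : EndL c e') (s₀ : ℝ) :
    ∃ e₀ : ℝ, 0 < e₀ ∧ ∀ ε, 0 < ε → ε < e₀ →
      ((e = 1 ∧ e' = -1) ∧ JoinedIn Zᶜ (side c φ s₀ ε) (0, M) ∧
        JoinedIn Zᶜ (side c φ s₀ (-ε)) (0, -M)) ∨
      ((e = -1 ∧ e' = 1) ∧ JoinedIn Zᶜ (side c φ s₀ ε) (0, -M) ∧
        JoinedIn Zᶜ (side c φ s₀ (-ε)) (0, M)) := by
  have hi := leaf_inj hZ hc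
  have hM : ∀ s, |(c s).2| < M := fun s => hZ.bdd _ (hc.mem s)
  obtain ⟨S₁, hS₁, hst⟩ := wn_stab hc.pc hM he he' hR hL (|(c s₀).1| + |(c s₀).2| + 1)
  set S₂ : ℝ := max S₁ (|s₀| + 1) with hS₂
  have hS₂1 : S₁ ≤ S₂ := le_max_left _ _
  have hS₂2 : |s₀| + 1 ≤ S₂ := le_max_right _ _
  have ha : -S₂ < s₀ := by have := neg_abs_le s₀; linarith
  have hb : s₀ < S₂ := by have := le_abs_self s₀; linarith
  obtain ⟨ej, hej, hjump⟩ := wn_jump hc.pc ha hb (fun s _ h => hi h) (by norm_num : (0:ℝ) < 1 / 5)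
  obtain ⟨es, hes, hoff⟩ := side_off hZ hc s₀
  obtain ⟨Sh, hSh, hhigh⟩ := wn_high hc.pc hM he he' hR hL
  obtain ⟨Sl, hSl, hlow⟩ := wn_low hc.pc hM he he' hR hL
  refine ⟨min (min ej es) 1, by positivity, ?_⟩
  intro ε hε hεlt
  have h1 : ε < ej := lt_of_lt_of_le hεlt ((min_le_left _ _).trans (min_le_left _ _))
  have h2 : ε < es := lt_of_lt_of_le hεlt ((min_le_left _ _).trans (min_le_right _ _))
  have h3 : ε < 1 := lt_of_lt_of_le hεlt (min_le_right _ _)
  have hJ := hjump ε hε h1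
  have hzp : side c φ s₀ ε ∉ Z := hoff ε hε.ne' (by rwa [abs_of_pos hε])
  have hzm : side c φ s₀ (-ε) ∉ Z :=
    hoff (-ε) (neg_ne_zero.mpr hε.ne') (by rwa [abs_neg, abs_of_pos hε])
  have hsq : ∀ ε' : ℝ, |ε'| < 1 → |(side c φ s₀ ε').1| ≤ |(c s₀).1| + |(c s₀).2| + 1 ∧
      |(side c φ s₀ ε').2| ≤ |(c s₀).1| + |(c s₀).2| + 1 := by
    intro ε' h
    have hs : |ε' * Real.sin (φ s₀)| ≤ 1 := by
      rw [abs_mul]
      exact mul_le_one₀ h.le (abs_nonneg _) (Real.abs_sin_le_one _)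
    have hcs : |ε' * Real.cos (φ s₀)| ≤ 1 := by
      rw [abs_mul]
      exact mul_le_one₀ h.le (abs_nonneg _) (Real.abs_cos_le_one _)
    constructor
    · have := abs_sub (c s₀).1 (ε' * Real.sin (φ s₀))
      have h0 := abs_nonneg (c s₀).2
      simp only [side]
      linarith
    · have := abs_add_le (c s₀).2 (ε' * Real.cos (φ s₀))
      have h0 := abs_nonneg (c s₀).1
      simp only [side]
      linarith
  have hsp := hsq ε (by rwa [abs_of_pos hε])
  have hsm := hsq (-ε) (by rwa [abs_neg, abs_of_pos hε])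
  have hnp : ∀ s, c s ≠ side c φ s₀ ε := fun s h => hzp (h ▸ hc.mem s)
  have hnm : ∀ s, c s ≠ side c φ s₀ (-ε) := fun s h => hzm (h ▸ hc.mem s)
  have hsub : Zᶜ ⊆ (range c)ᶜ := by
    intro x hx hx'
    obtain ⟨s, rfl⟩ := hx'
    exact hx (hc.mem s)
  have hpi := Real.pi_gt_three
  rcases exists_far hZ hzp with hp | hp <;> rcases exists_far hZ hzm with hm | hm
  all_goals
    obtain ⟨Sp, hSp, hjp⟩ := wn_join hc.pc hM he he' hR hL (hp.mono hsub)
    obtain ⟨Sm, hSm, hjm⟩ := wn_join hc.pc hM he he' hR hL (hm.mono hsub)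
    obtain ⟨S, hS2, hSh', hSl', hSp', hSm'⟩ : ∃ S, S₂ ≤ S ∧ Sh ≤ S ∧ Sl ≤ S ∧ Sp ≤ S ∧ Sm ≤ S :=
      ⟨max (max (max S₂ Sh) (max Sl Sp)) Sm, by simp, by simp, by simp, by simp, by simp⟩
    have q1 := abs_le.mp (hst _ hsp.1 hsp.2 hnp S S₂ (hS₂1.trans hS2) hS₂1)
    have q2 := abs_le.mp (hst _ hsm.1 hsm.2 hnm S S₂ (hS₂1.trans hS2) hS₂1)
    have q3 := abs_lt.mp hJ
    have q4 := abs_le.mp (hhigh S hSh')
    have q5 := abs_le.mp (hlow S hSl')
    have q6 := abs_le.mp (hjp S hSp')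
    have q7 := abs_le.mp (hjm S hSm')
    obtain ⟨q1a, q1b⟩ := q1
    obtain ⟨q2a, q2b⟩ := q2
    obtain ⟨q3a, q3b⟩ := q3
    obtain ⟨q4a, q4b⟩ := q4
    obtain ⟨q5a, q5b⟩ := q5
    obtain ⟨q6a, q6b⟩ := q6
    obtain ⟨q7a, q7b⟩ := q7
  · exfalso
    rcases he with rfl | rfl <;> rcases he' with rfl | rfl <;> linarith
  · left
    refine ⟨?_, hp, hm⟩
    rcases he with rfl | rfl <;> rcases he' with rfl | rfl
    · exfalso; linarith
    · exact ⟨rfl, rfl⟩
    · exfalso; linarith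
    · exfalso; linarith
  · right
    refine ⟨?_, hp, hm⟩
    rcases he with rfl | rfl <;> rcases he' with rfl | rfl
    · exfalso; linarith
    · exfalso; linarith
    · exact ⟨rfl, rfl⟩
    · exfalso; linarith
  · exfalso
    rcases he with rfl | rfl <;> rcases he' with rfl | rfl <;> linarith

/-- Either the leaf goes from left to right and its left side is high, or it goes from right to left
and its left side is low. -/
theorem leaf_sides (hZ : PSet Z M K δ F) (hc : PLeaf Z δ c φ) :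
    (EndR c 1 ∧ EndL c (-1) ∧ ∀ s₀, ∃ e₀ : ℝ, 0 < e₀ ∧ ∀ e, 0 < e → e < e₀ →
      JoinedIn Zᶜ (side c φ s₀ e) (0, M) ∧ JoinedIn Zᶜ (side c φ s₀ (-e)) (0, -M)) ∨
    (EndR c (-1) ∧ EndL c 1 ∧ ∀ s₀, ∃ e₀ : ℝ, 0 < e₀ ∧ ∀ e, 0 < e → e < e₀ →
      JoinedIn Zᶜ (side c φ s₀ e) (0, -M) ∧ JoinedIn Zᶜ (side c φ s₀ (-e)) (0, M)) := by
  obtain ⟨e, e', he, he', hR, hL⟩ := leaf_ends hZ hc (leaf_inj hZ hc)
  have key := oneLeaf_key hZ hc he he' hR hL
  obtain ⟨e₀, he₀, h0⟩ := key 0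
  rcases h0 (e₀ / 2) (by linarith) (by linarith) with ⟨⟨h1, h2⟩, _⟩ | ⟨⟨h1, h2⟩, _⟩
  · left
    subst h1; subst h2
    refine ⟨hR, hL, fun s₀ => ?_⟩
    obtain ⟨e₁, he₁, h3⟩ := key s₀
    refine ⟨e₁, he₁, fun ε hε hε' => ?_⟩
    rcases h3 ε hε hε' with ⟨_, h⟩ | ⟨⟨h, _⟩, _⟩
    · exact h
    · norm_num at h
  · right
    subst h1; subst h2
    refine ⟨hR, hL, fun s₀ => ?_⟩
    obtain ⟨e₁, he₁, h3⟩ := key s₀
    refine ⟨e₁, he₁, fun ε hε hε' => ?_⟩
    rcases h3 ε hε hε' with ⟨⟨h, _⟩, _⟩ | ⟨_, h⟩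
    · norm_num at h
    · exact h

theorem one_leaf (hZ : PSet Z M K δ F) (hc : PLeaf Z δ c φ) {w : ℝ × ℝ} (hw : w ∈ Z) :
    ∃ s, c s = w := by
  by_contra hne
  push Not at hne
  have hM : ∀ s, |(c s).2| < M := fun s => hZ.bdd _ (hc.mem s)
  have hδ := hZ.hδ
  have hball : Metric.ball w δ ⊆ (range c)ᶜ := by
    intro x hx hx'
    obtain ⟨s, rfl⟩ := hx'
    rw [Metric.mem_ball, dist_comm, dist_eq_norm] at hx
    obtain ⟨s', _, h⟩ := hc.sep s w hw hx
    exact hne _ h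
  have hsub : Zᶜ ⊆ (range c)ᶜ := by
    intro x hx hx'
    obtain ⟨s, rfl⟩ := hx'
    exact hx (hc.mem s)
  obtain ⟨c₁, φ₁, hc₁, hw₁⟩ := hZ.leaf w hw
  have hside : ∀ ε : ℝ, |ε| < δ → side c₁ φ₁ 0 ε ∈ Metric.ball w δ := by
    intro ε hε
    rw [Metric.mem_ball, dist_eq_norm]
    refine lt_of_le_of_lt ?_ hε
    rw [Prod.norm_def]
    refine max_le ?_ ?_
    · have : (side c₁ φ₁ 0 ε - w).1 = -(ε * Real.sin (φ₁ 0)) := by
        simp [side, hw₁]
      rw [this, norm_neg, Real.norm_eq_abs, abs_mul]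
      exact mul_le_of_le_one_right (abs_nonneg _) (Real.abs_sin_le_one _)
    · have : (side c₁ φ₁ 0 ε - w).2 = ε * Real.cos (φ₁ 0) := by
        simp [side, hw₁]
      rw [this, Real.norm_eq_abs, abs_mul]
      exact mul_le_of_le_one_right (abs_nonneg _) (Real.abs_cos_le_one _)
  have hpair : JoinedIn (range c)ᶜ (0, M) (0, -M) := by
    rcases leaf_sides hZ hc₁ with ⟨_, _, h⟩ | ⟨_, _, h⟩
    · obtain ⟨e₀, he₀, h'⟩ := h 0
      have hε : 0 < min (e₀ / 2) (δ / 2) := by positivity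
      have hε1 : min (e₀ / 2) (δ / 2) < e₀ := lt_of_le_of_lt (min_le_left _ _) (by linarith)
      have hε2 : min (e₀ / 2) (δ / 2) < δ := lt_of_le_of_lt (min_le_right _ _) (by linarith)
      obtain ⟨a1, a2⟩ := h' _ hε hε1
      have a3 : JoinedIn (Metric.ball w δ) (side c₁ φ₁ 0 (min (e₀ / 2) (δ / 2)))
          (side c₁ φ₁ 0 (-(min (e₀ / 2) (δ / 2)))) :=
        JoinedIn.of_segment_subset ((convex_ball w δ).segment_subset
          (hside _ (by rwa [abs_of_pos hε])) (hside _ (by rwa [abs_neg, abs_of_pos hε])))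
      exact ((a1.mono hsub).symm.trans (a3.mono hball)).trans (a2.mono hsub)
    · obtain ⟨e₀, he₀, h'⟩ := h 0
      have hε : 0 < min (e₀ / 2) (δ / 2) := by positivity
      have hε1 : min (e₀ / 2) (δ / 2) < e₀ := lt_of_le_of_lt (min_le_left _ _) (by linarith)
      have hε2 : min (e₀ / 2) (δ / 2) < δ := lt_of_le_of_lt (min_le_right _ _) (by linarith)
      obtain ⟨a1, a2⟩ := h' _ hε hε1
      have a3 : JoinedIn (Metric.ball w δ) (side c₁ φ₁ 0 (min (e₀ / 2) (δ / 2)))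
          (side c₁ φ₁ 0 (-(min (e₀ / 2) (δ / 2)))) :=
        JoinedIn.of_segment_subset ((convex_ball w δ).segment_subset
          (hside _ (by rwa [abs_of_pos hε])) (hside _ (by rwa [abs_neg, abs_of_pos hε])))
      exact ((a2.mono hsub).symm.trans (a3.mono hball).symm).trans (a1.mono hsub)
  have hpi := Real.pi_gt_three
  have main : ∀ e e' : ℝ, (e = 1 ∨ e = -1) → (e' = 1 ∨ e' = -1) → EndR c e → EndL c e' →
      |Real.pi * (e - e')| ≤ 4 / 5 := by
    intro e e' he he' hR hL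
    obtain ⟨Sh, hSh, hhigh⟩ := wn_high hc.pc hM he he' hR hL
    obtain ⟨Sl, hSl, hlow⟩ := wn_low hc.pc hM he he' hR hL
    obtain ⟨Sp, hSp, hjp⟩ := wn_join hc.pc hM he he' hR hL hpair
    obtain ⟨S, hSh', hSl', hSp'⟩ : ∃ S, Sh ≤ S ∧ Sl ≤ S ∧ Sp ≤ S :=
      ⟨max (max Sh Sl) Sp, by simp, by simp, by simp⟩
    have q4 := abs_le.mp (hhigh S hSh')
    have q5 := abs_le.mp (hlow S hSl')
    have q6 := abs_le.mp (hjp S hSp')
    rw [abs_le]
    constructor <;> linarith [q4.1, q4.2, q5.1, q5.2, q6.1, q6.2]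
  rcases leaf_sides hZ hc with ⟨hR, hL, _⟩ | ⟨hR, hL, _⟩
  · have := (abs_le.mp (main 1 (-1) (Or.inl rfl) (Or.inr rfl) hR hL)).2
    linarith
  · have := (abs_le.mp (main (-1) 1 (Or.inr rfl) (Or.inl rfl) hR hL)).1
    linarith

/-- The leaf meets every vertical line. -/
theorem leaf_line (hZ : PSet Z M K δ F) (hc : PLeaf Z δ c φ) (t : ℝ) : ∃ s, (c s).1 = t := by
  have hcont : Continuous c :=
    continuous_iff_continuousAt.mpr fun s => (hc.pc.deriv s).continuousAt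
  have hcont1 : Continuous fun s => (c s).1 := continuous_fst.comp hcont
  rcases leaf_sides hZ hc with ⟨hR, hL, _⟩ | ⟨hR, hL, _⟩
  · have h1 : Filter.Tendsto (fun s => (c s).1) Filter.atTop Filter.atTop := by
      simpa [EndR] using hR
    have h2 : Filter.Tendsto (fun s => (c s).1) Filter.atBot Filter.atBot := by
      have := Filter.tendsto_neg_atTop_atBot.comp hL
      refine this.congr fun s => ?_
      simp
    exact hcont1.surjective h1 h2 t
  · have h1 : Filter.Tendsto (fun s => (c s).1) Filter.atTop Filter.atBot := by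
      have := Filter.tendsto_neg_atTop_atBot.comp hR
      refine this.congr fun s => ?_
      simp
    have h2 : Filter.Tendsto (fun s => (c s).1) Filter.atBot Filter.atTop := by
      simpa [EndL] using hL
    exact hcont1.surjective' h2 h1 t

theorem PLeaf.rev (hc : PLeaf Z δ c φ) :
    PLeaf Z δ (fun s => c (-s)) (fun s => φ (-s) + Real.pi) where
  mem s := hc.mem (-s)
  pc :=
    { deriv := by
        intro s
        have h := (hc.pc.deriv (-s)).scomp s (hasDerivAt_neg s)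
        have h2 : (-1 : ℝ) • (Real.cos (φ (-s)), Real.sin (φ (-s))) =
            (Real.cos (φ (-s) + Real.pi), Real.sin (φ (-s) + Real.pi)) := by
          rw [Real.cos_add_pi, Real.sin_add_pi]
          ext <;> simp
        rw [h2] at h
        exact h
      cont := (hc.pc.cont.comp continuous_neg).add continuous_const }
  sep := by
    intro s w hw h
    obtain ⟨s', h1, h2⟩ := hc.sep (-s) w hw h
    refine ⟨-s', by rwa [abs_neg], ?_⟩
    have : -(s + -s') = -s + s' := by ring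
    simp only [this, h2]
  dich := by
    rcases hc.dich with h | ⟨P, hP, h1, h2⟩
    · exact Or.inl fun s t hst => neg_injective (h hst)
    · refine Or.inr ⟨P, hP, fun s => ?_, fun s t hst htP h => ?_⟩
      · have := h1 (-(s + P))
        show c (-(s + P)) = c (-s)
        rw [← this]
        congr 1
        ring
      · exact h2 (-t) (-s) (by linarith) (by linarith) h.symm

end Pool.Agent.H2.TI
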