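import Pool.Agent.H2.TI.NPSet
import Pool.Agent.H2.TI.OneLeaf

/-!
# All planar sections are leaves (module NAll)

PROOFS.
* `leafN_inj`, `leafN_all`, `leafN_ends`: `exists_pset` with `q = x.1.1`, `t₀ = 0`, and `leaf_inj`, `one_leaf`,
  `leaf_sides`, `leaf_far`-type facts from the planar part. (`EndR (pc Λ x 0) e` is
  `Tendsto (fun s => e * (0 + tl Λ x s)) atTop atTop`.)
* `line_all`: let `T = {q ∈ N | ∃ r, (q, r) ∈ C}`, the projection of the compact set `C`: closed. If `q ∈ N` and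
  `Cq R C q` is not empty, then by `leaf_line` (with `t = 0`) there is `r` with `(0, r) ∈ Cq R C q`, i.e.
  `(q, r) ∈ C`: so `q ∈ T`. `T` is open in `N`: let `(q₀, r₀) ∈ C`, local equation `u` on `W`; the planar function
  `g (t, r) = u (R t q₀, r)` vanishes at `(0, r₀)` and has nonzero derivative there, so there are planar points `w₊, w₋`
  arbitrarily near with `g w₊ > 0 > g w₋`, such that the segment between them is mapped into `W`. For `q ∈ N` near
  `q₀` the same holds for `u (R t q, r)` (continuity of `R`, compactness of the segment), so it has a zero on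
  the segment: `Cq R C q ≠ ∅`, so `q ∈ T`. `N` is connected and `T` is not empty: `T = N`.
-/

set_option autoImplicit false

open scoped ContDiff Topology RealInnerProductSpace
open Set Filter

namespace Pool.Agent.H2.TI

open Pool.Agent.H57.NL Pool.Agent.H2.TG

variable {m n : ℕ} {N : Set (E m)} {V : E m → E m} {R : ℝ → E m → E m} {C : Set (E m × ℝ)}
  {M : ℝ} {κ : (E m × ℝ) × ℝ → ℝ} {Λ : ℝ → (E m × ℝ) × ℝ → (E m × ℝ) × ℝ} {F : E m × ℝ → ℝ}

/-- The planar data at the point `x`. -/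
private theorem nAll_leaf (h : LeafN n N V R C M κ Λ F) {x : (E m × ℝ) × ℝ}
    (hx : x ∈ PSN N V C) : ∃ K δ : ℝ, PSet (Cq R C x.1.1) M K δ (onP R F x.1.1) ∧
      PLeaf (Cq R C x.1.1) δ (pc Λ x 0) (fun s => (Λ s x).2) := by
  obtain ⟨K, δ, hq⟩ := exists_pset h
  obtain ⟨hZ, hl⟩ := hq x.1.1 (h.red.sub _ hx.1)
  exact ⟨K, δ, hZ, hl x 0 hx (h.base.flow.zero _).symm⟩

theorem leafN_inj (h : LeafN n N V R C M κ Λ F) {x : (E m × ℝ) × ℝ} (hx : x ∈ PSN N V C) :
    Function.Injective (pc Λ x 0) := by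
  obtain ⟨K, δ, hZ, hc⟩ := nAll_leaf h hx
  exact leaf_inj hZ hc

theorem leafN_all (h : LeafN n N V R C M κ Λ F) {x : (E m × ℝ) × ℝ} (hx : x ∈ PSN N V C)
    {w : ℝ × ℝ} (hw : w ∈ Cq R C x.1.1) : ∃ s, pc Λ x 0 s = w := by
  obtain ⟨K, δ, hZ, hc⟩ := nAll_leaf h hx
  exact one_leaf hZ hc hw

theorem leafN_ends (h : LeafN n N V R C M κ Λ F) {x : (E m × ℝ) × ℝ} (hx : x ∈ PSN N V C) :
    (Tendsto (tl Λ x) atTop atTop ∧ Tendsto (tl Λ x) atBot atBot) ∨
      (Tendsto (tl Λ x) atTop atBot ∧ Tendsto (tl Λ x) atBot atTop) := by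
  obtain ⟨K, δ, hZ, hc⟩ := nAll_leaf h hx
  rcases leaf_sides hZ hc with ⟨h1, h2, -⟩ | ⟨h1, h2, -⟩
  · left
    simp only [EndR, EndL, pc, zero_add, one_mul, neg_mul] at h1 h2
    exact ⟨h1, tendsto_neg_atTop_iff.mp h2⟩
  · right
    simp only [EndR, EndL, pc, zero_add, one_mul, neg_mul] at h1 h2
    exact ⟨tendsto_neg_atTop_iff.mp h1, h2⟩

/-- A point of `N` whose planar section is not empty is in the projection of `C`. -/
private theorem nAll_proj (h : LeafN n N V R C M κ Λ F) {q : E m} (hq : q ∈ N)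
    (hne : (Cq R C q).Nonempty) : ∃ r : ℝ, (q, r) ∈ C := by
  obtain ⟨K, δ, hp⟩ := exists_pset h
  obtain ⟨hZ, -⟩ := hp q hq
  obtain ⟨w, hw⟩ := hne
  obtain ⟨c, φ, hc, -⟩ := hZ.leaf w hw
  obtain ⟨s, hs⟩ := leaf_line hZ hc 0
  have h1 : (R (c s).1 q, (c s).2) ∈ C := hc.mem s
  rw [hs, h.base.flow.zero] at h1
  exact ⟨_, h1⟩

private theorem nAll_dpl_lin (V : E m → E m) (u : E m × ℝ → ℝ) (y : E m × ℝ) (a b : ℝ) :
    dpl V u y a b = a * dpl V u y 1 0 + b * dpl V u y 0 1 := by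
  unfold dpl
  have : ((a • V y.1, b) : E m × ℝ) = a • ((1 : ℝ) • V y.1, (0 : ℝ)) + b • ((0 : ℝ) • V y.1, (1 : ℝ)) := by
    ext1 <;> simp
  rw [this, map_add, map_smul, map_smul, smul_eq_mul, smul_eq_mul]

private theorem nAll_dir {V : E m → E m} {W : Set (E m × ℝ)} {u : E m × ℝ → ℝ}
    (hu : LocN N V C W u) {y : E m × ℝ} (hy : y ∈ W) : ∃ a b : ℝ, 0 < dpl V u y a b := by
  by_cases h1 : dpl V u y 1 0 = 0
  · have h2 : dpl V u y 0 1 ≠ 0 := fun h2 => hu.reg y hy ⟨h1, h2⟩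
    refine ⟨0, dpl V u y 0 1, ?_⟩
    rw [nAll_dpl_lin, zero_mul, zero_add]
    exact mul_self_pos.mpr h2
  · refine ⟨dpl V u y 1 0, 0, ?_⟩
    rw [nAll_dpl_lin, zero_mul, add_zero]
    exact mul_self_pos.mpr h1

private theorem nAll_Rcont (h : LeafN n N V R C M κ Λ F) : Continuous fun y : ℝ × E m => R y.1 y.2 :=
  h.base.flow.smooth.continuous

/-- The projection of `C` is open in `N`. -/
private theorem nAll_open (h : LeafN n N V R C M κ Λ F) {q₀ : E m} {r₀ : ℝ} (hqr : (q₀, r₀) ∈ C) :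
    ∀ᶠ q in 𝓝 q₀, q ∈ N → ∃ r : ℝ, (q, r) ∈ C := by
  obtain ⟨W, u, hW, hu⟩ := h.red.loc _ hqr
  obtain ⟨a, b, hab⟩ := nAll_dir hu hW
  have hRc := nAll_Rcont h
  have hud : ∀ y ∈ W, DifferentiableAt ℝ u y := fun y hy =>
    ((hu.smooth.contDiffAt (hu.isOpen.mem_nhds hy)).differentiableAt (by simp))
  have huc : ContinuousOn u W := hu.smooth.continuousOn
  set γ : E m → ℝ → E m × ℝ := fun q s => (R (s * a) q, r₀ + s * b) with hγ
  have hγc : Continuous fun z : E m × ℝ => γ z.1 z.2 := by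
    refine Continuous.prodMk ?_ (by fun_prop)
    exact hRc.comp (by fun_prop : Continuous fun z : E m × ℝ => (z.2 * a, z.1))
  have hγ0 : γ q₀ 0 = (q₀, r₀) := by
    simp only [hγ, zero_mul, add_zero, h.base.flow.zero]
  have hder : HasDerivAt (fun s => u (γ q₀ s)) (dpl V u (q₀, r₀) a b) 0 := by
    have h1 : HasDerivAt (fun s : ℝ => s * a) a 0 := by
      simpa using (hasDerivAt_id (0 : ℝ)).mul_const a
    have h2 : HasDerivAt (fun s : ℝ => R (s * a) q₀) (a • V q₀) 0 := by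
      have h3 := h.base.flow.deriv q₀ ((0 : ℝ) * a)
      have h4 := HasDerivAt.scomp (0 : ℝ) h3 h1
      rw [zero_mul, h.base.flow.zero] at h4
      exact h4
    have h5 : HasDerivAt (fun s : ℝ => r₀ + s * b) b 0 := by
      simpa using ((hasDerivAt_id (0 : ℝ)).mul_const b).const_add r₀
    have h6 : HasDerivAt (γ q₀) (a • V q₀, b) 0 := h2.prodMk h5
    have h7 : HasFDerivAt u (fderiv ℝ u (q₀, r₀)) (γ q₀ 0) := by
      rw [hγ0]
      exact (hud _ hW).hasFDerivAt
    exact h7.comp_hasDerivAt (0 : ℝ) h6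
  have hsgn := eventually_nhdsWithin_sign_eq_of_deriv_pos (f := fun s => u (γ q₀ s)) (x₀ := 0)
    (by rw [hder.deriv]; exact hab) (by
      change u (γ q₀ 0) = 0
      rw [hγ0]
      exact (hu.eqn _ hW (h.red.sub _ hqr)).mp hqr)
  have hin : ∀ᶠ s in 𝓝 (0 : ℝ), γ q₀ s ∈ W := by
    have hc : Continuous fun s : ℝ => γ q₀ s := hγc.comp (by fun_prop : Continuous fun s : ℝ => (q₀, s))
    refine hc.continuousAt.eventually_mem ?_
    rw [hγ0]
    exact hu.isOpen.mem_nhds hW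
  obtain ⟨ε, hε, hball⟩ := Metric.eventually_nhds_iff.mp (hsgn.and hin)
  set s := ε / 2 with hs
  have hs0 : 0 < s := by positivity
  have hsmall : ∀ s' ∈ Icc (-s) s, dist s' 0 < ε := by
    intro s' hs'
    rw [Real.dist_eq, sub_zero]
    have : |s'| ≤ s := abs_le.mpr hs'
    linarith
  have hp : 0 < u (γ q₀ s) := by
    have h1 := (hball (hsmall s ⟨by linarith, le_refl _⟩)).1
    rw [sub_zero, sign_pos hs0] at h1
    exact sign_eq_one_iff.mp h1
  have hm : u (γ q₀ (-s)) < 0 := by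
    have h1 := (hball (hsmall (-s) ⟨le_refl _, by linarith⟩)).1
    rw [sub_zero, sign_neg (neg_neg_of_pos hs0)] at h1
    exact sign_eq_neg_one_iff.mp h1
  have hWin : ∀ s' ∈ Icc (-s) s, γ q₀ s' ∈ W := fun s' hs' => (hball (hsmall s' hs')).2
  -- nearby points
  have e1 : ∀ᶠ q in 𝓝 q₀, ∀ s' ∈ Icc (-s) s, γ q s' ∈ W := by
    refine isCompact_Icc.eventually_forall_of_forall_eventually fun s' hs' => ?_
    exact hγc.continuousAt.eventually_mem (hu.isOpen.mem_nhds (hWin s' hs'))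
  have hqc : ∀ s', Continuous fun q : E m => γ q s' := fun s' =>
    hγc.comp (by fun_prop : Continuous fun q : E m => (q, s'))
  have huq : ∀ s' ∈ Icc (-s) s, ContinuousAt (fun q : E m => u (γ q s')) q₀ := fun s' hs' =>
    ContinuousAt.comp (f := fun q : E m => γ q s') (g := u)
      (huc.continuousAt (hu.isOpen.mem_nhds (hWin s' hs'))) (hqc s').continuousAt
  have e2 : ∀ᶠ q in 𝓝 q₀, 0 < u (γ q s) :=
    (huq s ⟨by linarith, le_refl _⟩).eventually (lt_mem_nhds hp)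
  have e3 : ∀ᶠ q in 𝓝 q₀, u (γ q (-s)) < 0 :=
    (huq (-s) ⟨le_refl _, by linarith⟩).eventually (gt_mem_nhds hm)
  filter_upwards [e1, e2, e3] with q h1 h2 h3 hqN
  have hcon : ContinuousOn (fun s' => u (γ q s')) (Icc (-s) s) := by
    refine huc.comp (f := fun s' => γ q s') ?_ h1
    exact (hγc.comp (by fun_prop : Continuous fun s' : ℝ => (q, s'))).continuousOn
  obtain ⟨s', hs', hz⟩ := intermediate_value_Icc (by linarith) hcon ⟨h3.le, h2.le⟩
  have hmem : γ q s' ∈ C := (hu.eqn _ (h1 s' hs') (h.base.maps q hqN _)).mpr hz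
  exact nAll_proj h hqN ⟨(s' * a, r₀ + s' * b), hmem⟩

theorem line_all (h : LeafN n N V R C M κ Λ F) {q : E m} (hq : q ∈ N) :
    ∃ r : ℝ, (q, r) ∈ C := by
  haveI : PreconnectedSpace N := isPreconnected_iff_preconnectedSpace.mp h.base.conn.isPreconnected
  have hCc : IsCompact C := by
    refine (h.base.cpt.prod (isCompact_Icc (a := -M) (b := M))).of_isClosed_subset h.red.closed ?_
    intro x hx
    have := abs_lt.mp (h.red.bdd x hx)
    exact ⟨h.red.sub x hx, this.1.le, this.2.le⟩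
  have hPc : IsClosed (Prod.fst '' C) := (hCc.image continuous_fst).isClosed
  have hclopen : IsClopen {q : N | ∃ r : ℝ, ((q : E m), r) ∈ C} := by
    constructor
    · have : {q : N | ∃ r : ℝ, ((q : E m), r) ∈ C} = Subtype.val ⁻¹' (Prod.fst '' C) := by
        ext q
        simp
      rw [this]
      exact hPc.preimage continuous_subtype_val
    · rw [isOpen_iff_eventually]
      rintro q₀ ⟨r₀, h0⟩
      have h1 := nAll_open h h0
      have h2 : ∀ᶠ q : N in 𝓝 q₀, (q : E m) ∈ N → ∃ r : ℝ, ((q : E m), r) ∈ C :=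
        continuous_subtype_val.continuousAt.eventually h1
      filter_upwards [h2] with q h3 using h3 q.2
  obtain ⟨y, hy⟩ := h.red.ne
  have huniv := hclopen.eq_univ ⟨⟨y.1, h.red.sub y hy⟩, y.2, hy⟩
  have hmem : (⟨q, hq⟩ : N) ∈ {q : N | ∃ r : ℝ, ((q : E m), r) ∈ C} := by
    rw [huniv]
    exact mem_univ _
  exact hmem

end Pool.Agent.H2.TI
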