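import Pool.Agent.H2.TI.NPS

/-!
# Comparison of two local phases (module NCurvA)

PROOFS: copy the proved file `H2/TG/Curv1.lean` (`phase_compare`, `cval_of`, `exists_cval`, `cval_unique`,
`cval_pi`), `v` replaced by `V y.1`.
-/

set_option autoImplicit false

open scoped ContDiff Topology RealInnerProductSpace
open Set

namespace Pool.Agent.H2.TI

open Pool.Agent.H57.NL Pool.Agent.H2.TG

variable {m n : ℕ} {N : Set (E m)} {V : E m → E m} {R : ℝ → E m → E m} {C W W' : Set (E m × ℝ)}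
  {M : ℝ} {u u' ϑ ϑ' : E m × ℝ → ℝ}

/-- The value `k` is the curvature of the leaf at `x`. -/
def cvN (N : Set (E m)) (V : E m → E m) (C : Set (E m × ℝ)) (x : (E m × ℝ) × ℝ) (k : ℝ) : Prop :=
  ∀ W u ϑ, x.1 ∈ W → LocN N V C W u → PhaseN V W u ϑ → ∀ j : ℤ, x.2 = ϑ x.1 + j * Real.pi →
    k = fderiv ℝ ϑ x.1 (Real.cos x.2 • V x.1.1, Real.sin x.2)

private theorem ncurva_tangent (hB : Base n N V R) (hR : RedN N V C M) (hC : LocN N V C W u)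
    (hC' : LocN N V C W' u') (hϑ : PhaseN V W u ϑ) (hϑ' : PhaseN V W' u' ϑ') {y : E m × ℝ}
    (hy : y ∈ C) (hyW : y ∈ W) (hyW' : y ∈ W') : ∃ k : ℤ, ϑ y = ϑ' y + k * Real.pi := by
  have h1 : dpl V u y (Real.cos (ϑ y)) (Real.sin (ϑ y)) = 0 := hϑ.tang y hyW
  have h2 : dpl V u y (Real.cos (ϑ' y)) (Real.sin (ϑ' y)) = 0 :=
    dpl_zero hB hR.sub hC' hC hy hyW' hyW (hϑ'.tang y hyW')
  rw [dpl_lin] at h1 h2
  refine angle_unique (hC.reg y hyW) ?_ ?_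
  · linarith
  · linarith

theorem phase_cmpN (hB : Base n N V R) (hR : RedN N V C M) (hC : LocN N V C W u)
    (hϑ : PhaseN V W u ϑ) (hC' : LocN N V C W' u')
    (hϑ' : PhaseN V W' u' ϑ') {x : E m × ℝ} (hx : x ∈ C) (hxW : x ∈ W) (hxW' : x ∈ W') {j : ℤ}
    (h : ϑ x = ϑ' x + j * Real.pi) :
    fderiv ℝ ϑ x (Real.cos (ϑ x) • V x.1, Real.sin (ϑ x)) =
      fderiv ℝ ϑ' x (Real.cos (ϑ x) • V x.1, Real.sin (ϑ x)) := by
  obtain ⟨ε, y, hε, hy0, hy⟩ := exists_curveN hB hR.sub hC hϑ hx hxW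
  have hy00 := (hy 0 (by simpa using hε)).2.2
  rw [hy0] at hy00
  have hd : DifferentiableAt ℝ ϑ x :=
    (hϑ.smooth.contDiffAt (hC.isOpen.mem_nhds hxW)).differentiableAt (by simp)
  have hd' : DifferentiableAt ℝ ϑ' x :=
    (hϑ'.smooth.contDiffAt (hC'.isOpen.mem_nhds hxW')).differentiableAt (by simp)
  have e1 : HasDerivAt (ϑ ∘ y) (fderiv ℝ ϑ x (Real.cos (ϑ x) • V x.1, Real.sin (ϑ x))) 0 := by
    have e2 : HasFDerivAt ϑ (fderiv ℝ ϑ x) (y 0) := by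
      rw [hy0]; exact hd.hasFDerivAt
    exact e2.comp_hasDerivAt 0 hy00
  have e1' : HasDerivAt (ϑ' ∘ y) (fderiv ℝ ϑ' x (Real.cos (ϑ x) • V x.1, Real.sin (ϑ x))) 0 := by
    have e2 : HasFDerivAt ϑ' (fderiv ℝ ϑ' x) (y 0) := by
      rw [hy0]; exact hd'.hasFDerivAt
    exact e2.comp_hasDerivAt 0 hy00
  have hev : ∀ᶠ t in 𝓝 (0 : ℝ), y t ∈ W' :=
    hy00.continuousAt.eventually_mem (by rw [hy0]; exact hC'.isOpen.mem_nhds hxW')
  have hev2 : ∀ᶠ t in 𝓝 (0 : ℝ), |t| < ε := by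
    refine Metric.eventually_nhds_iff.mpr ⟨ε, hε, fun t ht => ?_⟩
    simpa [Real.dist_eq] using ht
  have hcont : ContinuousAt (fun t => ϑ (y t) - ϑ' (y t) - j * Real.pi) 0 :=
    (e1.continuousAt.sub e1'.continuousAt).sub continuousAt_const
  have hval : ϑ (y 0) - ϑ' (y 0) - j * Real.pi = 0 := by
    rw [hy0]
    linarith
  have hev3 : ∀ᶠ t in 𝓝 (0 : ℝ), |ϑ (y t) - ϑ' (y t) - j * Real.pi| < Real.pi := by
    have h1 : (fun t => ϑ (y t) - ϑ' (y t) - j * Real.pi) 0 ∈ Metric.ball (0 : ℝ) Real.pi := by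
      change ϑ (y 0) - ϑ' (y 0) - j * Real.pi ∈ Metric.ball (0 : ℝ) Real.pi
      rw [hval]
      exact Metric.mem_ball_self Real.pi_pos
    filter_upwards [hcont.eventually_mem (Metric.isOpen_ball.mem_nhds h1)] with t ht
    rwa [Metric.mem_ball, Real.dist_eq, sub_zero] at ht
  have hev4 : (ϑ ∘ y) =ᶠ[𝓝 0] fun t => (ϑ' ∘ y) t + j * Real.pi := by
    filter_upwards [hev, hev2, hev3] with t h1 h2 h3
    obtain ⟨k, hk⟩ := ncurva_tangent hB hR hC hC' hϑ hϑ' (hy t h2).1 (hy t h2).2.1 h1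
    rw [hk] at h3
    have h4 : ϑ' (y t) + k * Real.pi - ϑ' (y t) - j * Real.pi = ((k - j : ℤ) : ℝ) * Real.pi := by
      push_cast
      ring
    rw [h4, abs_mul, abs_of_pos Real.pi_pos] at h3
    have h5 : |((k - j : ℤ) : ℝ)| < 1 := by
      by_contra hcon
      push Not at hcon
      nlinarith [Real.pi_pos]
    have h6 : k - j = 0 := by
      have : |k - j| < 1 := by exact_mod_cast h5
      exact Int.abs_lt_one_iff.1 this
    have h7 : k = j := by linarith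
    change ϑ (y t) = ϑ' (y t) + j * Real.pi
    rw [hk, h7]
  have e3 : HasDerivAt (ϑ ∘ y) (fderiv ℝ ϑ' x (Real.cos (ϑ x) • V x.1, Real.sin (ϑ x))) 0 :=
    (e1'.add_const (j * Real.pi)).congr_of_eventuallyEq hev4
  exact e1.unique e3

private theorem ncurva_vec (w : E m) (φ : ℝ) (j : ℤ) :
    ((Real.cos (φ + j * Real.pi) • w, Real.sin (φ + j * Real.pi)) : E m × ℝ) =
      ((-1 : ℝ) ^ j) • ((Real.cos φ • w, Real.sin φ) : E m × ℝ) := by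
  rw [Real.cos_add_int_mul_pi, Real.sin_add_int_mul_pi, Prod.smul_mk, smul_smul, smul_eq_mul]

theorem cvN_of (hB : Base n N V R) (hR : RedN N V C M) (hC : LocN N V C W u)
    (hϑ : PhaseN V W u ϑ) {x : (E m × ℝ) × ℝ} (hx : x.1 ∈ C)
    (hxW : x.1 ∈ W) {j : ℤ} (h : x.2 = ϑ x.1 + j * Real.pi) :
    cvN N V C x (fderiv ℝ ϑ x.1 (Real.cos x.2 • V x.1.1, Real.sin x.2)) := by
  intro W' u' ϑ' hxW' hC' hϑ' j' h'
  have h1 : ϑ x.1 = ϑ' x.1 + ((j' - j : ℤ) : ℝ) * Real.pi := by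
    push_cast
    linarith
  have h2 := phase_cmpN hB hR hC hϑ hC' hϑ' hx hxW hxW' h1
  rw [h, ncurva_vec, map_smul, map_smul, h2]

private theorem ncurva_phase (hB : Base n N V R) (hR : RedN N V C M) {x : (E m × ℝ) × ℝ}
    (hx : x ∈ PSN N V C) :
    ∃ (W : Set (E m × ℝ)) (u ϑ : E m × ℝ → ℝ), x.1 ∈ W ∧ LocN N V C W u ∧ PhaseN V W u ϑ ∧
      ϑ x.1 = x.2 := by
  obtain ⟨W, u, hxW, hC⟩ := hR.loc x.1 hx.1
  obtain ⟨W₁, ϑ, _, hxm, hC1, hP, he⟩ :=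
    exists_phaseN hB.smooth hC hxW ((mem_PSN hB hR.sub hC hx.1 hxW).1 hx)
  exact ⟨W₁, u, ϑ, hxm, hC1, hP, he⟩

theorem exists_cvN (hB : Base n N V R) (hR : RedN N V C M) {x : (E m × ℝ) × ℝ}
    (hx : x ∈ PSN N V C) : ∃ k, cvN N V C x k := by
  obtain ⟨W, u, ϑ, hxW, hC, hP, he⟩ := ncurva_phase hB hR hx
  exact ⟨_, cvN_of hB hR hC hP hx.1 hxW (j := 0) (by rw [he]; simp)⟩

theorem cvN_unique (hB : Base n N V R) (hR : RedN N V C M) {x : (E m × ℝ) × ℝ}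
    (hx : x ∈ PSN N V C) {k k' : ℝ} (h : cvN N V C x k) (h' : cvN N V C x k') : k = k' := by
  obtain ⟨W, u, ϑ, hxW, hC, hP, he⟩ := ncurva_phase hB hR hx
  rw [h W u ϑ hxW hC hP 0 (by rw [he]; simp), h' W u ϑ hxW hC hP 0 (by rw [he]; simp)]

theorem cvN_pi (hB : Base n N V R) (hR : RedN N V C M) {x : (E m × ℝ) × ℝ} (hx : x ∈ PSN N V C)
    {k : ℝ} (h : cvN N V C x k) (j : ℤ) :
    cvN N V C (x.1, x.2 + j * Real.pi) ((-1) ^ j * k) := by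
  obtain ⟨W, u, ϑ, hxW, hC, hP, he⟩ := ncurva_phase hB hR hx
  have h1 := h W u ϑ hxW hC hP 0 (by rw [he]; simp)
  have h2 := cvN_of hB hR hC hP (x := (x.1, x.2 + j * Real.pi)) hx.1 hxW (j := j) (by
    change x.2 + j * Real.pi = ϑ x.1 + j * Real.pi
    rw [he])
  have h3 : fderiv ℝ ϑ (x.1, x.2 + j * Real.pi).1
      (Real.cos (x.1, x.2 + j * Real.pi).2 • V (x.1, x.2 + j * Real.pi).1.1,
        Real.sin (x.1, x.2 + j * Real.pi).2) = (-1 : ℝ) ^ j * k := by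
    change fderiv ℝ ϑ x.1 (Real.cos (x.2 + j * Real.pi) • V x.1.1, Real.sin (x.2 + j * Real.pi))
      = _
    rw [ncurva_vec, map_smul, smul_eq_mul, h1]
  rw [h3] at h2
  exact h2

end Pool.Agent.H2.TI
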