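import Pool.Agent.H2.TI.PDefs
import Pool.Agent.H2.TG.Flow

/-!
# Basic facts on planar flows (module PFlow)

The proofs are those of the (proved) file `H2/TG/XFlow.lean` with `E n × ℝ` replaced by `ℝ × ℝ` and `v` by
`1`: copy them.

* `PX_contDiff`, `exists_PFlow` (joint flow in `s`: the field `(s, x) ↦ (0, PX θ s x)` is bounded by `1`),
  `p_fst`, `p_snd` (components of `hF.deriv`), `p_norm`, `p_down`, `p_up`.
* `p_down`, `p_up`: as `x_down`, `x_up` there (use `IsFlow.unique_on` at the midpoint).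
* `p_lat`: for `D ≤ |x.1|` the whole vertical line is an orbit.
* `p_conf`: if `|x.1| ≤ D`: the orbit cannot cross the lines `t = ± D` (if it meets one of them it is
  contained in it by `p_lat`, so `|x.1| = D` and the first coordinate is constant); intermediate value
  theorem.
* `p_agree`: if `θ' = θ` at all the points `Ψ u x`, `u` between `0` and `t`, then `Ψ' t x = Ψ t x`: the curve
  `u ↦ Ψ u x` has derivative `PX θ s (Ψ u x) = PX θ' s (Ψ u x)` for these `u`; use `IsFlow.unique_on` for `Ψ'` at the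
  midpoint `Ψ (t/2) x` with `ε = |t|/2`: `Ψ (t/2 + w) x = Ψ' w (Ψ (t/2) x)` for `|w| ≤ |t|/2`; `w = -t/2` gives
  `x = Ψ' (-t/2) (Ψ (t/2) x)`, so `Ψ' t x = Ψ' (t/2) (Ψ (t/2) x) = Ψ t x` (`IsFlow.add`).
-/

set_option autoImplicit false

open scoped ContDiff Topology
open Set

namespace Pool.Agent.H2.TI

open Pool.Agent.H2.TG

variable {θ θ' : ℝ × ℝ → ℝ} {M K D s : ℝ} {Ψ Ψ' : ℝ → ℝ × ℝ → ℝ × ℝ}

private theorem pflow_fst {A B : Type} [NormedAddCommGroup A] [NormedSpace ℝ A]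
    [NormedAddCommGroup B] [NormedSpace ℝ B] {f : ℝ → A × B} {f' : A × B} {t : ℝ}
    (h : HasDerivAt f f' t) : HasDerivAt (fun t => (f t).1) f'.1 t :=
  (ContinuousLinearMap.fst ℝ A B).hasFDerivAt.comp_hasDerivAt t h

private theorem pflow_snd {A B : Type} [NormedAddCommGroup A] [NormedSpace ℝ A]
    [NormedAddCommGroup B] [NormedSpace ℝ B] {f : ℝ → A × B} {f' : A × B} {t : ℝ}
    (h : HasDerivAt f f' t) : HasDerivAt (fun t => (f t).2) f'.2 t :=
  (ContinuousLinearMap.snd ℝ A B).hasFDerivAt.comp_hasDerivAt t h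

private theorem pflow_const {A : Type} [NormedAddCommGroup A] [NormedSpace ℝ A] {f : ℝ → A}
    (h : ∀ t, HasDerivAt f 0 t) (s t : ℝ) : f s = f t :=
  is_const_of_deriv_eq_zero (fun t => (h t).differentiableAt) (fun t => (h t).deriv) s t

private theorem pflow_lip {A : Type} [NormedAddCommGroup A] [NormedSpace ℝ A] {f f' : ℝ → A}
    (h : ∀ t, HasDerivAt f (f' t) t) (hb : ∀ t, ‖f' t‖ ≤ 1) (t : ℝ) : ‖f t - f 0‖ ≤ |t| := by
  have := Convex.norm_image_sub_le_of_norm_hasDerivWithin_le (s := Set.univ) (C := 1)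
    (fun x _ => (h x).hasDerivWithinAt) (fun x _ => hb x) convex_univ (Set.mem_univ 0)
    (Set.mem_univ t)
  simpa using this

private theorem pflow_bd (θ : ℝ × ℝ → ℝ) (s : ℝ) (x : ℝ × ℝ) : ‖PX θ s x‖ ≤ 1 := by
  rw [Prod.norm_def]
  apply max_le
  · show ‖-Real.sin (s * θ x)‖ ≤ 1
    rw [Real.norm_eq_abs, abs_neg]
    exact Real.abs_sin_le_one _
  · show ‖Real.cos (s * θ x)‖ ≤ 1
    rw [Real.norm_eq_abs]
    exact Real.abs_cos_le_one _

theorem PX_contDiff (hP : PPhase θ M K) (s : ℝ) : ContDiff ℝ ∞ (PX θ s) := by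
  have h1 : ContDiff ℝ ∞ fun x => s * θ x := contDiff_const.mul hP.smooth
  exact (h1.sin.neg).prodMk h1.cos

theorem exists_PFlow (hP : PPhase θ M K) : ∃ Ψ : ℝ → ℝ → ℝ × ℝ → ℝ × ℝ,
    (∀ s, IsFlow (PX θ s) (Ψ s)) ∧ Continuous fun y : ℝ × ℝ × (ℝ × ℝ) => Ψ y.1 y.2.1 y.2.2 := by
  let Y : ℝ × (ℝ × ℝ) → ℝ × (ℝ × ℝ) := fun y => (0, PX θ y.1 y.2)
  have hY : ContDiff ℝ ∞ Y := by
    have h1 : ContDiff ℝ ∞ fun y : ℝ × (ℝ × ℝ) => y.1 * θ y.2 :=
      contDiff_fst.mul (hP.smooth.comp contDiff_snd)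
    exact contDiff_const.prodMk ((h1.sin.neg).prodMk h1.cos)
  have hb : ∀ y, ‖Y y‖ ≤ 1 := by
    intro y
    rw [Prod.norm_def]
    apply max_le
    · show ‖(0 : ℝ)‖ ≤ 1
      simp
    · exact pflow_bd θ y.1 y.2
  obtain ⟨Φ, hΦ⟩ := exists_isFlow hY hb
  have hfst : ∀ t y, (Φ t y).1 = y.1 := by
    intro t y
    have h1 : ∀ t, HasDerivAt (fun t => (Φ t y).1) 0 t := fun t => pflow_fst (hΦ.deriv y t)
    have h2 := pflow_const h1 t 0
    simp only [hΦ.zero] at h2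
    exact h2
  refine ⟨fun s t x => (Φ t (s, x)).2, fun s => ⟨fun x => ?_, fun x t => ?_, ?_⟩, ?_⟩
  · show (Φ 0 (s, x)).2 = x
    rw [hΦ.zero]
  · have h1 := pflow_snd (hΦ.deriv (s, x) t)
    have h2 : (Y (Φ t (s, x))).2 = PX θ s (Φ t (s, x)).2 := by
      show PX θ (Φ t (s, x)).1 (Φ t (s, x)).2 = _
      rw [hfst]
    rw [h2] at h1
    exact h1
  · have h1 : ContDiff ℝ ∞ fun y : ℝ × (ℝ × ℝ) => (y.1, ((s : ℝ), y.2)) :=
      contDiff_fst.prodMk (contDiff_const.prodMk contDiff_snd)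
    exact contDiff_snd.comp (hΦ.smooth.comp h1)
  · have h1 : Continuous fun y : ℝ × ℝ × (ℝ × ℝ) => (y.2.1, (y.1, y.2.2)) := by fun_prop
    exact continuous_snd.comp (hΦ.smooth.continuous.comp h1)

theorem p_fst (hF : IsFlow (PX θ s) Ψ) (x : ℝ × ℝ) (t : ℝ) :
    HasDerivAt (fun t => (Ψ t x).1) (-Real.sin (s * θ (Ψ t x))) t := by
  exact pflow_fst (hF.deriv x t)

theorem p_snd (hF : IsFlow (PX θ s) Ψ) (x : ℝ × ℝ) (t : ℝ) :
    HasDerivAt (fun t => (Ψ t x).2) (Real.cos (s * θ (Ψ t x))) t := by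
  exact pflow_snd (hF.deriv x t)

theorem p_norm (hF : IsFlow (PX θ s) Ψ) (x : ℝ × ℝ) (t : ℝ) : ‖Ψ t x - x‖ ≤ |t| := by
  have h := pflow_lip (fun t => hF.deriv x t) (fun t => pflow_bd θ s _) t
  simpa [hF.zero] using h

private theorem pflow_vert {x : ℝ × ℝ} {t : ℝ} (h : θ (x.1, x.2 + t) = 0) :
    HasDerivAt (fun t => (x.1, x.2 + t)) (PX θ s (x.1, x.2 + t)) t := by
  have h1 : PX θ s (x.1, x.2 + t) = (0, 1) := by
    unfold PX
    rw [h]
    simp
  rw [h1]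
  exact (hasDerivAt_const t x.1).prodMk ((hasDerivAt_id t).const_add x.2)

private theorem pflow_half (hP : PPhase θ M K) (hF : IsFlow (PX θ s) Ψ) {x : ℝ × ℝ}
    {t : ℝ} (h : ∀ τ, |τ| ≤ |t| / 2 → θ (x.1, x.2 + t / 2 + τ) = 0) : Ψ t x = (x.1, x.2 + t) := by
  have h1 : ∀ τ, |τ| ≤ |t| / 2 → Ψ τ (x.1, x.2 + t / 2) = (x.1, x.2 + t / 2 + τ) := by
    intro τ hτ
    have h2 := hF.unique_on (PX_contDiff hP s) (γ := fun τ => (x.1, x.2 + t / 2 + τ))
      (fun τ hτ => pflow_vert (x := (x.1, x.2 + t / 2)) (h τ hτ)) τ hτ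
    simp only [add_zero] at h2
    exact h2.symm
  have h3 := h1 (t / 2) (by rw [abs_div, abs_two])
  have h4 := h1 (-(t / 2)) (by rw [abs_neg, abs_div, abs_two])
  have h5 : x.2 + t / 2 + -(t / 2) = x.2 := by ring
  rw [h5] at h4
  have h6 := hF.add (PX_contDiff hP s) t (-(t / 2)) (x.1, x.2 + t / 2)
  rw [h4] at h6
  have h7 : t + -(t / 2) = t / 2 := by ring
  rw [h7, h3] at h6
  have h8 : x.2 + t / 2 + t / 2 = x.2 + t := by ring
  rw [h8] at h6
  exact h6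

theorem p_down (hP : PPhase θ M K) (hF : IsFlow (PX θ s) Ψ) {x : ℝ × ℝ} (hx : x.2 ≤ -M)
    {t : ℝ} (ht : t ≤ 0) : Ψ t x = (x.1, x.2 + t) := by
  refine pflow_half hP hF fun τ hτ => hP.supp _ ?_
  rw [abs_of_nonpos ht] at hτ
  have h1 := (abs_le.1 hτ).2
  show M ≤ |x.2 + t / 2 + τ|
  rw [le_abs]
  right
  linarith

theorem p_up (hP : PPhase θ M K) (hF : IsFlow (PX θ s) Ψ) {x : ℝ × ℝ} (hx : M ≤ x.2)
    {t : ℝ} (ht : 0 ≤ t) : Ψ t x = (x.1, x.2 + t) := by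
  refine pflow_half hP hF fun τ hτ => hP.supp _ ?_
  rw [abs_of_nonneg ht] at hτ
  have h1 := (abs_le.1 hτ).1
  show M ≤ |x.2 + t / 2 + τ|
  rw [le_abs]
  left
  linarith

theorem p_lat (hP : PPhase θ M K) (hD : Lat θ D) (hF : IsFlow (PX θ s) Ψ) {x : ℝ × ℝ}
    (hx : D ≤ |x.1|) (t : ℝ) : Ψ t x = (x.1, x.2 + t) := by
  exact pflow_half hP hF fun τ _ => hD.2 _ hx

theorem p_conf (hP : PPhase θ M K) (hD : Lat θ D) (hF : IsFlow (PX θ s) Ψ) {x : ℝ × ℝ}
    (hx : |x.1| ≤ D) (t : ℝ) : |(Ψ t x).1| ≤ D := by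
  have hcont : Continuous fun t => (Ψ t x).1 :=
    continuous_iff_continuousAt.2 fun t => (p_fst hF x t).continuousAt
  have h0 : (Ψ 0 x).1 = x.1 := by rw [hF.zero]
  -- if the orbit meets `|t| = D` then the first coordinate is constant
  have key : ∀ t0, |(Ψ t0 x).1| = D → |(Ψ t x).1| ≤ D := by
    intro t0 ht0
    have h3 : ∀ τ, (Ψ τ x).1 = (Ψ t0 x).1 := by
      intro τ
      have h4 := p_lat hP hD hF (x := Ψ t0 x) ht0.ge (τ - t0)
      rw [hF.add (PX_contDiff hP s), sub_add_cancel] at h4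
      rw [h4]
    rw [h3 t, ht0]
  by_contra hcon
  rw [not_le] at hcon
  rcases lt_abs.1 hcon with h | h
  · obtain ⟨t0, ht0⟩ := mem_range_of_exists_le_of_exists_ge hcont (c := D)
      ⟨0, by rw [h0]; exact (abs_le.1 hx).2⟩ ⟨t, h.le⟩
    have h5 : |(Ψ t0 x).1| = D := by
      simp only at ht0
      rw [ht0, abs_of_pos hD.1]
    exact absurd (key t0 h5) (not_le.2 hcon)
  · obtain ⟨t0, ht0⟩ := mem_range_of_exists_le_of_exists_ge hcont (c := -D)
      ⟨t, by linarith⟩ ⟨0, by rw [h0]; exact (abs_le.1 hx).1⟩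
    have h5 : |(Ψ t0 x).1| = D := by
      simp only at ht0
      rw [ht0, abs_neg, abs_of_pos hD.1]
    exact absurd (key t0 h5) (not_le.2 hcon)

theorem p_agree (hP : PPhase θ M K) {K' : ℝ} (hP' : PPhase θ' M K') (hF : IsFlow (PX θ s) Ψ)
    (hF' : IsFlow (PX θ' s) Ψ') {x : ℝ × ℝ} {t : ℝ}
    (h : ∀ u ∈ uIcc 0 t, θ' (Ψ u x) = θ (Ψ u x)) : Ψ' t x = Ψ t x := by
  have hX := PX_contDiff hP s
  have hX' := PX_contDiff hP' s
  have hmid : ∀ w, |w| ≤ |t| / 2 → Ψ (t / 2 + w) x = Ψ' w (Ψ (t / 2) x) := by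
    intro w hw
    have h2 := hF'.unique_on hX' (γ := fun w => Ψ (t / 2 + w) x) (ε := |t| / 2)
      (fun w hw => by
        have h3 : HasDerivAt (fun w => Ψ (t / 2 + w) x) (PX θ s (Ψ (t / 2 + w) x)) w := by
          have h4 := (hF.deriv x (t / 2 + w)).scomp w ((hasDerivAt_id w).const_add (t / 2))
          rw [one_smul] at h4
          exact h4
        have h5 : PX θ' s (Ψ (t / 2 + w) x) = PX θ s (Ψ (t / 2 + w) x) := by
          unfold PX
          rw [h]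
          rw [mem_uIcc]
          rcases le_total 0 t with h6 | h6
          · left
            rw [abs_of_nonneg h6] at hw
            have := abs_le.1 hw
            constructor <;> linarith [this.1, this.2]
          · right
            rw [abs_of_nonpos h6] at hw
            have := abs_le.1 hw
            constructor <;> linarith [this.1, this.2]
        rw [h5]
        exact h3) w hw
    simp only [add_zero] at h2
    exact h2
  have h3 := hmid (t / 2) (by rw [abs_div, abs_two])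
  have h4 := hmid (-(t / 2)) (by rw [abs_neg, abs_div, abs_two])
  rw [add_neg_cancel, hF.zero] at h4
  rw [add_halves] at h3
  have h7 : t + -(t / 2) = t / 2 := by ring
  calc Ψ' t x = Ψ' t (Ψ' (-(t / 2)) (Ψ (t / 2) x)) := congrArg (Ψ' t) h4
    _ = Ψ' (t + -(t / 2)) (Ψ (t / 2) x) := hF'.add hX' _ _ _
    _ = Ψ' (t / 2) (Ψ (t / 2) x) := by rw [h7]
    _ = Ψ t x := h3.symm

end Pool.Agent.H2.TI
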