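import Pool.Agent.H2.TI.NBase
import Pool.Agent.H2.TI.PFlow

/-!
# The flow with phase `Θ + π/2` over `N` (module NXFlow)

PROOFS.
* `XFN_contDiff`: direct. `exists_XFlowN`: the field is bounded (`Base.bdd`), `exists_isFlow`.
* `pphaseN`: `onP R Θ q w = Θ (R w.1 q, w.2)`. Smooth; zero for `|w.2| ≥ M'`. Lipschitz: its derivative at `w` in the
  direction `(a, b)` is `DΘ(R w.1 q, w.2)(a • V (R w.1 q), b)`; for `q ∈ N` the points are in the compact set
  `N × [-M', M']` when `|w.2| ≤ M'`, otherwise the derivative is zero (`Θ = 0` near, or by continuity at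
  `|w.2| = M'`): bounded by some `K > 0` independent of `q`; mean value inequality on `ℝ × ℝ`.
* `plane_flow`: the curve `t ↦ (R (Ψq t w).1 q, (Ψq t w).2)` is an integral curve of `XFN V Θ 1`
  (`d/dt R (w t).1 q = (w.1)' • V (R (w t).1 q)`), starting at `(R w.1 q, w.2)`: uniqueness (`IsFlow.unique`).
* `XN_mem`: by `plane_flow` (with `q = x.1`, `w = (0, x.2)` and any planar flow), or `reparam`.
-/

set_option autoImplicit false

open scoped ContDiff Topology RealInnerProductSpace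
open Set Filter

namespace Pool.Agent.H2.TI

open Pool.Agent.H57.NL Pool.Agent.H2.TG

variable {m n : ℕ} {N : Set (E m)} {V : E m → E m} {R : ℝ → E m → E m} {Θ : E m × ℝ → ℝ}
  {M' : ℝ} {Ψ : ℝ → E m × ℝ → E m × ℝ}

theorem XFN_contDiff (hB : Base n N V R) (hΘ : PhaseI Θ M') (s : ℝ) :
    ContDiff ℝ ∞ (XFN V Θ s) := by
  have h1 : ContDiff ℝ ∞ fun x => s * Θ x := contDiff_const.mul hΘ.smooth
  exact ((h1.sin.neg).smul (hB.smooth.comp contDiff_fst)).prodMk h1.cos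

theorem exists_XFlowN (hB : Base n N V R) (hΘ : PhaseI Θ M') : ∃ Ψ, IsFlow (XFN V Θ 1) Ψ := by
  obtain ⟨K, hK⟩ := hB.bdd
  refine exists_isFlow (XFN_contDiff hB hΘ 1) (K := max K 1) fun x => ?_
  rw [Prod.norm_def]
  refine max_le_max ?_ ?_
  · show ‖(-Real.sin (1 * Θ x)) • V x.1‖ ≤ K
    rw [norm_smul, Real.norm_eq_abs, abs_neg]
    exact (mul_le_of_le_one_left (norm_nonneg _) (Real.abs_sin_le_one _)).trans (hK _)
  · show ‖Real.cos (1 * Θ x)‖ ≤ 1
    rw [Real.norm_eq_abs]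
    exact Real.abs_cos_le_one _

private theorem nxf_g (hB : Base n N V R) (q : E m) (w : ℝ × ℝ) :
    HasFDerivAt (fun w : ℝ × ℝ => (R w.1 q, w.2))
      (((ContinuousLinearMap.fst ℝ ℝ ℝ).smulRight (V (R w.1 q))).prod
        (ContinuousLinearMap.snd ℝ ℝ ℝ)) w := by
  have h1 : HasFDerivAt (fun w : ℝ × ℝ => R w.1 q)
      ((ContinuousLinearMap.fst ℝ ℝ ℝ).smulRight (V (R w.1 q))) w := by
    have h2 := HasFDerivAt.comp w (f := fun w : ℝ × ℝ => w.1)
      (hB.flow.deriv q w.1).hasFDerivAt hasFDerivAt_fst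
    refine h2.congr_fderiv (ContinuousLinearMap.ext fun x => ?_)
    simp
  exact h1.prodMk hasFDerivAt_snd

theorem pphaseN (hB : Base n N V R) (hΘ : PhaseI Θ M') :
    ∃ K : ℝ, 0 < K ∧ ∀ q ∈ N, PPhase (onP R Θ q) M' K := by
  obtain ⟨L, hL⟩ := hB.bdd
  have hL0 : 0 ≤ L := (norm_nonneg _).trans (hL 0)
  have hcF : Continuous (fderiv ℝ Θ) := hΘ.smooth.continuous_fderiv (by simp)
  obtain ⟨C, hC⟩ := (hB.cpt.prod (isCompact_Icc (a := -M') (b := M'))).exists_bound_of_continuousOn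
    hcF.continuousOn
  have hC0 : 0 ≤ |C| := abs_nonneg C
  have hm0 : 0 ≤ max L 1 := hL0.trans (le_max_left _ _)
  refine ⟨|C| * max L 1 + 1, by positivity, fun q hq => ?_⟩
  have hfd : ∀ y : E m × ℝ, y.1 ∈ N → ‖fderiv ℝ Θ y‖ ≤ |C| := by
    intro y hy
    rcases le_or_gt |y.2| M' with h | h
    · exact (hC y ⟨hy, abs_le.1 h⟩).trans (le_abs_self C)
    · have hev : Θ =ᶠ[𝓝 y] fun _ => 0 := by
        have ho : IsOpen {z : E m × ℝ | M' < |z.2|} :=
          isOpen_lt continuous_const (continuous_snd.abs)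
        exact Filter.mem_of_superset (ho.mem_nhds h) fun z hz => hΘ.supp z (le_of_lt hz)
      rw [hev.fderiv_eq, fderiv_fun_const, Pi.zero_apply, norm_zero]
      exact hC0
  have hsm : ContDiff ℝ ∞ (onP R Θ q) :=
    hΘ.smooth.comp ((hB.flow.smooth.comp (contDiff_fst.prodMk contDiff_const)).prodMk
      contDiff_snd)
  refine ⟨hsm, fun x hx => hΘ.supp _ hx, ?_, hΘ.hM, by positivity⟩
  have hbd : ∀ w : ℝ × ℝ, ‖fderiv ℝ (onP R Θ q) w‖ ≤ |C| * max L 1 + 1 := by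
    intro w
    have h1 : HasFDerivAt (onP R Θ q) ((fderiv ℝ Θ (R w.1 q, w.2)).comp
        (((ContinuousLinearMap.fst ℝ ℝ ℝ).smulRight (V (R w.1 q))).prod
          (ContinuousLinearMap.snd ℝ ℝ ℝ))) w :=
      HasFDerivAt.comp w (f := fun w : ℝ × ℝ => (R w.1 q, w.2))
        ((hΘ.smooth.differentiable (by simp)) _).hasFDerivAt (nxf_g hB q w)
    rw [h1.fderiv]
    refine ContinuousLinearMap.opNorm_le_bound _ (by positivity) fun v => ?_
    have h2 : ‖((v.1 • V (R w.1 q), v.2) : E m × ℝ)‖ ≤ max L 1 * ‖v‖ := by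
      rw [Prod.norm_def]
      refine max_le ?_ ?_
      · show ‖v.1 • V (R w.1 q)‖ ≤ _
        rw [norm_smul, mul_comm]
        exact mul_le_mul ((hL _).trans (le_max_left _ _)) (norm_fst_le v) (norm_nonneg _) hm0
      · show ‖v.2‖ ≤ _
        calc ‖v.2‖ = 1 * ‖v.2‖ := (one_mul _).symm
          _ ≤ max L 1 * ‖v‖ := mul_le_mul (le_max_right _ _) (norm_snd_le v) (norm_nonneg _) hm0
    have h3 : ((fderiv ℝ Θ (R w.1 q, w.2)).comp
        (((ContinuousLinearMap.fst ℝ ℝ ℝ).smulRight (V (R w.1 q))).prod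
          (ContinuousLinearMap.snd ℝ ℝ ℝ))) v =
        fderiv ℝ Θ (R w.1 q, w.2) (v.1 • V (R w.1 q), v.2) := rfl
    rw [h3]
    calc ‖fderiv ℝ Θ (R w.1 q, w.2) (v.1 • V (R w.1 q), v.2)‖
        ≤ ‖fderiv ℝ Θ (R w.1 q, w.2)‖ * ‖((v.1 • V (R w.1 q), v.2) : E m × ℝ)‖ :=
          ContinuousLinearMap.le_opNorm _ _
      _ ≤ |C| * (max L 1 * ‖v‖) :=
          mul_le_mul (hfd _ (hB.maps q hq _)) h2 (norm_nonneg _) hC0
      _ ≤ (|C| * max L 1 + 1) * ‖v‖ := by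
          nlinarith [norm_nonneg v]
  intro x y
  have h := Convex.norm_image_sub_le_of_norm_fderiv_le (𝕜 := ℝ) (s := Set.univ)
    (fun w _ => (hsm.differentiable (by simp)) w) (fun w _ => hbd w) convex_univ (mem_univ y)
    (mem_univ x)
  rwa [Real.norm_eq_abs] at h

theorem plane_flow (hB : Base n N V R) (hΘ : PhaseI Θ M') (hΨ : IsFlow (XFN V Θ 1) Ψ) {q : E m}
    {Ψq : ℝ → ℝ × ℝ → ℝ × ℝ} (hq : IsFlow (PX (onP R Θ q) 1) Ψq) (t : ℝ) (w : ℝ × ℝ) :
    Ψ t (R w.1 q, w.2) = (R (Ψq t w).1 q, (Ψq t w).2) := by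
  have h := hΨ.unique (XFN_contDiff hB hΘ 1) (γ := fun t => (R (Ψq t w).1 q, (Ψq t w).2))
    (fun t => by
      have h1 := (hB.flow.deriv q (Ψq t w).1).scomp t (p_fst hq w t)
      exact h1.prodMk (p_snd hq w t)) t
  simp only [hq.zero] at h
  exact h.symm

theorem XN_mem (hB : Base n N V R) (hΘ : PhaseI Θ M') (hΨ : IsFlow (XFN V Θ 1) Ψ)
    {x : E m × ℝ} (hx : x.1 ∈ N) (t : ℝ) : (Ψ t x).1 ∈ N := by
  obtain ⟨K, hK, hP⟩ := pphaseN hB hΘ
  obtain ⟨Φ, hΦ, -⟩ := exists_PFlow (hP x.1 hx)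
  have h := plane_flow hB hΘ hΨ (hΦ 1) t (0, x.2)
  simp only [R_zero hB] at h
  have hx' : ((x.1, x.2) : E m × ℝ) = x := rfl
  rw [hx'] at h
  rw [h]
  exact hB.maps _ hx _

end Pool.Agent.H2.TI
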