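import Pool.Agent.H2.TI.PFlow

/-!
# Gates (module PGate)

PROOF of `gate_up`. Let `x t = Ψ t a`, `h± t = (x t).2 - a.2 ∓ ((x t).1 - a.1)`, `h± 0 = 0`, derivative
`cos θ ± sin θ` with `θ = θ (x t)` (`p_fst`, `p_snd`, `s = 1`), which is `≥ 1/2` when `|θ| ≤ 1/5` (`cos ≥ 0.98`, `|sin| ≤ 0.2`).
Claim: `h± t ≥ 0` for all `t ≥ 0`, i.e. `x t` is in the cone `|x.1 - a.1| ≤ x.2 - a.2`. Let
`T = {t ≥ 0 | h± ≥ 0 on [0, t]}`, an interval containing `0`, closed. If `t ∈ T` then `|θ| ≤ 1/5` on `[0, t]`, so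
`h± t ≥ t / 2`; if `t > 0` then `h± > 0` near `t`, so `T` contains a neighbourhood of `t`; at `t = 0` the derivatives of
`h±` are positive, so `h± > 0` on some `(0, t']` (`|θ a| ≤ 1/5`, and the derivative is continuous). So `T = [0, ∞)`.
If `(x t).2 ≤ M` then `|(x t).1 - a.1| ≤ (x t).2 - a.2 ≤ 2 M`. Otherwise there is `t' ∈ [0, t]` with `(x t').2 = M`
(intermediate value theorem, `a.2 ≤ M`), `x t = Ψ (t - t') (x t')` has the same first coordinate as `x t'` (`p_up`).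
`gate_down`: the same backward, or apply `gate_up` to the reflected phase `θ' (t, r) = θ (t, -r)`... (the
reflection `(t, r) ↦ (t, -r)` with time reversal maps orbits of `PX θ` to orbits of `PX (-θ')`; it is simpler to
repeat the proof with `t ≤ 0`).
-/

set_option autoImplicit false

open scoped ContDiff Topology
open Set

namespace Pool.Agent.H2.TI

open Pool.Agent.H2.TG

variable {θ : ℝ × ℝ → ℝ} {M K : ℝ} {Ψ : ℝ → ℝ × ℝ → ℝ × ℝ}

private theorem pgate_trig {φ : ℝ} (h : |φ| < 1 / 4) {e : ℝ} (he : |e| ≤ 1) :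
    0 ≤ Real.cos φ + e * Real.sin φ := by
  have h1 := Real.one_sub_sq_div_two_le_cos (x := φ)
  have h2 : |Real.sin φ| ≤ |φ| := Real.abs_sin_le_abs
  have h3 : φ ^ 2 ≤ 1 / 16 := by
    rw [← sq_abs]
    nlinarith [abs_nonneg φ]
  have h4 : |e * Real.sin φ| ≤ 1 / 4 := by
    rw [abs_mul]
    nlinarith [abs_nonneg e, abs_nonneg (Real.sin φ)]
  have h5 := (abs_le.1 h4).1
  linarith

private theorem pgate_mono {h h' : ℝ → ℝ} (hd : ∀ t, HasDerivAt h (h' t) t) {x y : ℝ} (hxy : x < y)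
    (h0 : ∀ z ∈ Ioo x y, 0 ≤ h' z) : h x ≤ h y := by
  obtain ⟨c, hc, he⟩ := exists_hasDerivAt_eq_slope h h' hxy
    (fun t _ => (hd t).continuousAt.continuousWithinAt) fun t _ => hd t
  have h1 := h0 c hc
  have h2 : (0 : ℝ) < y - x := by linarith
  rw [he] at h1
  have h3 := mul_nonneg h1 h2.le
  rw [div_mul_cancel₀ _ h2.ne'] at h3
  linarith

private theorem pgate_cone {u w φ : ℝ → ℝ} {e : ℝ} (he : |e| ≤ 1)
    (hu : ∀ t, HasDerivAt u (e * Real.sin (φ t)) t) (hw : ∀ t, HasDerivAt w (Real.cos (φ t)) t)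
    (hφ : Continuous φ) (u0 : u 0 = 0) (w0 : w 0 = 0) (hc : ∀ t, |u t| ≤ w t → |φ t| ≤ 1 / 5)
    {t : ℝ} (ht : 0 ≤ t) : |u t| ≤ w t := by
  have cu : Continuous u := continuous_iff_continuousAt.2 fun t => (hu t).continuousAt
  have cw : Continuous w := continuous_iff_continuousAt.2 fun t => (hw t).continuousAt
  have hcl : IsClosed {t : ℝ | |u t| ≤ w t} := isClosed_le cu.abs cw
  have key : Icc 0 t ⊆ {t : ℝ | |u t| ≤ w t} := by
    refine (hcl.inter isClosed_Icc).Icc_subset_of_forall_mem_nhdsWithin ?_ ?_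
    · change |u 0| ≤ w 0
      rw [u0, w0, abs_zero]
    · rintro x ⟨hx, -⟩
      have hx' : |u x| ≤ w x := hx
      have h1 : |φ x| < 1 / 4 := lt_of_le_of_lt (hc x hx') (by norm_num)
      have h2 : ∀ᶠ y in 𝓝 x, |φ y| < 1 / 4 :=
        (hφ.abs.continuousAt).eventually_lt continuousAt_const h1
      obtain ⟨ε, hε, h3⟩ := Metric.eventually_nhds_iff.1 h2
      refine Filter.mem_of_superset (Ioo_mem_nhdsGT (show x < x + ε by linarith)) fun y hy => ?_
      have h4 : ∀ z ∈ Ioo x y, |φ z| < 1 / 4 := fun z hz => h3 (by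
        rw [Real.dist_eq, abs_lt]
        constructor <;> linarith [hz.1, hz.2, hy.2])
      have h5 : w x + u x ≤ w y + u y :=
        pgate_mono (fun t => (hw t).add (hu t)) hy.1 fun z hz => pgate_trig (h4 z hz) he
      have h6 : w x - u x ≤ w y - u y := by
        refine pgate_mono (fun t => (hw t).sub (hu t)) hy.1 fun z hz => ?_
        have h7 := pgate_trig (h4 z hz) (e := -e) (by rw [abs_neg]; exact he)
        linarith
      have h8 := abs_le.1 hx'
      change |u y| ≤ w y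
      rw [abs_le]
      constructor <;> linarith [h8.1, h8.2]
  exact key ⟨ht, le_rfl⟩

private theorem pgate_hit (hP : PPhase θ M K) (hF : IsFlow (PX θ 1) Ψ) {a : ℝ × ℝ}
    (ha : |a.2| ≤ M) {t : ℝ} (ht : 0 ≤ t) (h : M < (Ψ t a).2) :
    ∃ t', 0 ≤ t' ∧ (Ψ t' a).2 = M ∧ (Ψ t a).1 = (Ψ t' a).1 := by
  have hc : Continuous fun t => (Ψ t a).2 :=
    continuous_iff_continuousAt.2 fun t => (p_snd hF a t).continuousAt
  have h0 : (Ψ 0 a).2 ≤ M := by
    rw [hF.zero]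
    exact (abs_le.1 ha).2
  obtain ⟨t', ht', he⟩ := intermediate_value_Icc ht hc.continuousOn ⟨h0, h.le⟩
  have he' : (Ψ t' a).2 = M := he
  refine ⟨t', ht'.1, he', ?_⟩
  have h1 := p_up hP hF (x := Ψ t' a) he'.ge (t := t - t') (by linarith [ht'.2])
  rw [hF.add (PX_contDiff hP 1), sub_add_cancel] at h1
  rw [h1]

private theorem pgate_hit' (hP : PPhase θ M K) (hF : IsFlow (PX θ 1) Ψ) {a : ℝ × ℝ}
    (ha : |a.2| ≤ M) {t : ℝ} (ht : t ≤ 0) (h : (Ψ t a).2 < -M) :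
    ∃ t', t' ≤ 0 ∧ (Ψ t' a).2 = -M ∧ (Ψ t a).1 = (Ψ t' a).1 := by
  have hc : Continuous fun t => (Ψ t a).2 :=
    continuous_iff_continuousAt.2 fun t => (p_snd hF a t).continuousAt
  have h0 : -M ≤ (Ψ 0 a).2 := by
    rw [hF.zero]
    exact (abs_le.1 ha).1
  obtain ⟨t', ht', he⟩ := intermediate_value_Icc ht hc.continuousOn ⟨h.le, h0⟩
  have he' : (Ψ t' a).2 = -M := he
  refine ⟨t', ht'.2, he', ?_⟩
  have h1 := p_down hP hF (x := Ψ t' a) he'.le (t := t - t') (by linarith [ht'.1])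
  rw [hF.add (PX_contDiff hP 1), sub_add_cancel] at h1
  rw [h1]

private theorem pgate_cont (hP : PPhase θ M K) (hF : IsFlow (PX θ 1) Ψ) (a : ℝ × ℝ) :
    Continuous fun t => θ (Ψ t a) :=
  hP.smooth.continuous.comp
    (continuous_iff_continuousAt.2 fun t => (hF.deriv a t).continuousAt)

theorem gate_up (hP : PPhase θ M K) (hF : IsFlow (PX θ 1) Ψ) {a : ℝ × ℝ} (ha : |a.2| ≤ M)
    (hcone : ∀ x : ℝ × ℝ, |x.1 - a.1| ≤ x.2 - a.2 → |θ x| ≤ 1 / 5) {t : ℝ} (ht : 0 ≤ t) :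
    |(Ψ t a).1 - a.1| ≤ 2 * M := by
  have key : ∀ t, 0 ≤ t → |(Ψ t a).1 - a.1| ≤ (Ψ t a).2 - a.2 := by
    intro t ht
    refine pgate_cone (u := fun t => (Ψ t a).1 - a.1) (w := fun t => (Ψ t a).2 - a.2)
      (φ := fun t => θ (Ψ t a)) (e := -1) (by simp) (fun t => ?_) (fun t => ?_)
      (pgate_cont hP hF a) ?_ ?_ (fun t h => hcone _ h) ht
    · have h := (p_fst hF a t).sub_const a.1
      rw [one_mul] at h
      rw [neg_one_mul]
      exact h
    · have h := (p_snd hF a t).sub_const a.2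
      rw [one_mul] at h
      exact h
    · rw [hF.zero, sub_self]
    · rw [hF.zero, sub_self]
  have ha' := abs_le.1 ha
  by_cases h : (Ψ t a).2 ≤ M
  · exact (key t ht).trans (by linarith [ha'.1])
  · obtain ⟨t', h1, h2, h3⟩ := pgate_hit hP hF ha ht (not_le.1 h)
    rw [h3]
    exact (key t' h1).trans (by linarith [ha'.1])

theorem gate_down (hP : PPhase θ M K) (hF : IsFlow (PX θ 1) Ψ) {a : ℝ × ℝ} (ha : |a.2| ≤ M)
    (hcone : ∀ x : ℝ × ℝ, |x.1 - a.1| ≤ a.2 - x.2 → |θ x| ≤ 1 / 5) {t : ℝ} (ht : t ≤ 0) :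
    |(Ψ t a).1 - a.1| ≤ 2 * M := by
  have key0 : ∀ t, 0 ≤ t → |(Ψ (-t) a).1 - a.1| ≤ a.2 - (Ψ (-t) a).2 := by
    intro t ht
    refine pgate_cone (u := fun t => (Ψ (-t) a).1 - a.1) (w := fun t => a.2 - (Ψ (-t) a).2)
      (φ := fun t => θ (Ψ (-t) a)) (e := 1) (by simp) (fun t => ?_) (fun t => ?_)
      ((pgate_cont hP hF a).comp continuous_neg) ?_ ?_ (fun t h => hcone _ h) ht
    · have h := ((p_fst hF a (-t)).scomp t (hasDerivAt_neg t)).sub_const a.1
      rw [one_mul] at h ⊢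
      have e : (-1 : ℝ) • -Real.sin (θ (Ψ (-t) a)) = Real.sin (θ (Ψ (-t) a)) := by
        rw [smul_eq_mul]
        ring
      rw [e] at h
      exact h
    · have h := ((p_snd hF a (-t)).scomp t (hasDerivAt_neg t)).const_sub a.2
      rw [one_mul] at h
      have e : -((-1 : ℝ) • Real.cos (θ (Ψ (-t) a))) = Real.cos (θ (Ψ (-t) a)) := by
        rw [smul_eq_mul]
        ring
      rw [e] at h
      exact h
    · rw [neg_zero, hF.zero, sub_self]
    · rw [neg_zero, hF.zero, sub_self]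
  have key : ∀ t, t ≤ 0 → |(Ψ t a).1 - a.1| ≤ a.2 - (Ψ t a).2 := by
    intro t ht
    have h := key0 (-t) (by linarith)
    rwa [neg_neg] at h
  have ha' := abs_le.1 ha
  by_cases h : -M ≤ (Ψ t a).2
  · exact (key t ht).trans (by linarith [ha'.2])
  · obtain ⟨t', h1, h2, h3⟩ := pgate_hit' hP hF ha ht (not_le.1 h)
    rw [h3]
    exact (key t' h1).trans (by linarith [ha'.2])

end Pool.Agent.H2.TI
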