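import Pool.Agent.H2.TI.PDefs

/-!
# Existence of almost highest and almost lowest points (module PTopE, Mathlib only)

PROOF of `exists_top`. `k = ε² / (8 M)`, `ℓ = 4 M / ε` (so `k ℓ² = 2 M`, `2 k ℓ = ε`). The function
`f w = w.2 - k (w.1 - t₀)²` has a maximum on `Z`: the set `Z ∩ {|w.1 - t₀| ≤ ℓ}` is compact, not empty; let `a` be a maximum
point of `f` on it. `f a ≥ f (t₀, r) = r > -M`. Outside, `f w < M - k ℓ² = -M`, so `a` is a maximum on `Z`. For `w ∈ Z`: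
`w.2 ≤ a.2 + k ((w.1 - t₀)² - (a.1 - t₀)²) = a.2 + k (w.1 - a.1)² + 2 k (a.1 - t₀)(w.1 - a.1)
≤ a.2 + k (w.1 - a.1)² + 2 k ℓ |w.1 - a.1|`. `exists_bot`: apply it to the reflected set.
-/

set_option autoImplicit false

open scoped Topology
open Set

namespace Pool.Agent.H2.TI

theorem exists_top {Z : Set (ℝ × ℝ)} (hZ : IsClosed Z) {M ε t₀ r : ℝ} (hM : 0 < M) (hε : 0 < ε)
    (hb : ∀ w ∈ Z, |w.2| < M) (h0 : (t₀, r) ∈ Z) :
    ∃ a ∈ Z, |a.1 - t₀| ≤ 4 * M / ε ∧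
      ∀ w ∈ Z, w.2 ≤ a.2 + ε * |w.1 - a.1| + ε ^ 2 / (8 * M) * (w.1 - a.1) ^ 2 := by
  obtain ⟨k, hk⟩ : ∃ k, k = ε ^ 2 / (8 * M) := ⟨_, rfl⟩
  obtain ⟨l, hl⟩ : ∃ l, l = 4 * M / ε := ⟨_, rfl⟩
  have k0 : 0 < k := by rw [hk]; positivity
  have l0 : 0 < l := by rw [hl]; positivity
  have e1 : k * l ^ 2 = 2 * M := by rw [hk, hl]; field_simp; norm_num
  have e2 : 2 * k * l = ε := by rw [hk, hl]; field_simp; norm_num
  have hf : Continuous fun w : ℝ × ℝ => w.2 - k * (w.1 - t₀) ^ 2 := by fun_prop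
  have hK : IsCompact (Z ∩ (Icc (t₀ - l) (t₀ + l) ×ˢ Icc (-M) M)) :=
    (isCompact_Icc.prod isCompact_Icc).inter_left hZ
  have hr := abs_lt.1 (hb _ h0)
  have hne : (Z ∩ (Icc (t₀ - l) (t₀ + l) ×ˢ Icc (-M) M)).Nonempty :=
    ⟨(t₀, r), h0, ⟨by constructor <;> simp only <;> linarith, ⟨hr.1.le, hr.2.le⟩⟩⟩
  obtain ⟨a, ⟨haZ, ha1, ha2⟩, hmax⟩ := hK.exists_isMaxOn hne hf.continuousOn
  have hmax' : ∀ w ∈ Z, w.2 - k * (w.1 - t₀) ^ 2 ≤ a.2 - k * (a.1 - t₀) ^ 2 := by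
    intro w hw
    have hw2 := abs_lt.1 (hb w hw)
    by_cases h : w.1 ∈ Icc (t₀ - l) (t₀ + l)
    · exact hmax ⟨hw, h, hw2.1.le, hw2.2.le⟩
    · have h3 : r - k * (t₀ - t₀) ^ 2 ≤ a.2 - k * (a.1 - t₀) ^ 2 :=
        hmax (show (t₀, r) ∈ _ from
          ⟨h0, ⟨by constructor <;> simp only <;> linarith, ⟨hr.1.le, hr.2.le⟩⟩⟩)
      have h4 : l ^ 2 ≤ (w.1 - t₀) ^ 2 := by
        rw [← sq_abs (w.1 - t₀)]
        refine pow_le_pow_left₀ l0.le ?_ 2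
        by_contra hcon
        push Not at hcon
        obtain ⟨h5, h6⟩ := abs_lt.1 hcon
        exact h ⟨by linarith, by linarith⟩
      have h5 := mul_le_mul_of_nonneg_left h4 k0.le
      rw [sub_self] at h3
      have h6 : r ≤ a.2 - k * (a.1 - t₀) ^ 2 := by linarith
      linarith [hr.1, hw2.2]
  have ha3 : |a.1 - t₀| ≤ l := abs_le.2 ⟨by linarith [ha1.1], by linarith [ha1.2]⟩
  rw [← hk, ← hl]
  refine ⟨a, haZ, ha3, fun w hw => ?_⟩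
  have h3 := hmax' w hw
  have h4 : (a.1 - t₀) * (w.1 - a.1) ≤ l * |w.1 - a.1| := by
    refine (le_abs_self _).trans ?_
    rw [abs_mul]
    exact mul_le_mul_of_nonneg_right ha3 (abs_nonneg _)
  have h5 := mul_le_mul_of_nonneg_left h4 (mul_pos two_pos k0).le
  have h6 : 2 * k * (l * |w.1 - a.1|) = ε * |w.1 - a.1| := by
    rw [← mul_assoc, e2]
  have h7 : (w.1 - t₀) ^ 2 = (a.1 - t₀) ^ 2 + (w.1 - a.1) ^ 2 +
      2 * ((a.1 - t₀) * (w.1 - a.1)) := by ring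
  rw [h7] at h3
  linarith

theorem exists_bot {Z : Set (ℝ × ℝ)} (hZ : IsClosed Z) {M ε t₀ r : ℝ} (hM : 0 < M) (hε : 0 < ε)
    (hb : ∀ w ∈ Z, |w.2| < M) (h0 : (t₀, r) ∈ Z) :
    ∃ a ∈ Z, |a.1 - t₀| ≤ 4 * M / ε ∧
      ∀ w ∈ Z, a.2 - ε * |w.1 - a.1| - ε ^ 2 / (8 * M) * (w.1 - a.1) ^ 2 ≤ w.2 := by
  obtain ⟨a, ha, ha1, ha2⟩ := exists_top
    (Z := (fun w : ℝ × ℝ => (w.1, -w.2)) ⁻¹' Z) (t₀ := t₀) (r := -r)
    (hZ.preimage (by fun_prop)) hM hε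
    (fun w hw => by
      have := hb _ hw
      simpa using this)
    (by simpa using h0)
  refine ⟨(a.1, -a.2), ha, ha1, fun w hw => ?_⟩
  have h := ha2 (w.1, -w.2) (by simpa using hw)
  simp only at h ⊢
  linarith

end Pool.Agent.H2.TI
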