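import Pool.Agent.H2.TI.PDefs
import Pool.Agent.H57.NL.Defs

/-!
# Theorem I for general `N`: definitions (helper2, MP_3dbb84)

`N ⊂ ℝ^m` is a compact connected submanifold, `V` a smooth vector field on `ℝ^m`, tangent to `N` along
`N`, bounded, with flow `R`. Framework of helper57 (`H57/NL/Defs.lean`) with `Γ = ⊥`.
-/

set_option autoImplicit false

open scoped ContDiff Topology RealInnerProductSpace
open Set Filter

namespace Pool.Agent.H2.TI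

open Pool.Agent.H57.NL Pool.Agent.H2.TG

variable {m : ℕ}

/-- The reduction map `(q, p) ↦ (q, ⟨p, V q⟩)`. -/
noncomputable def sigN (V : E m → E m) (z : E m × E m) : E m × ℝ := (z.1, ⟪z.2, V z.1⟫)

/-- `sigN V` is an injective immersion of `S`. -/
structure EmbN (V : E m → E m) (S : Set (E m × E m)) : Prop where
  inj : ∀ z ∈ S, ∀ z' ∈ S, z.1 = z'.1 → ⟪z.2, V z.1⟫ = ⟪z'.2, V z'.1⟫ → z = z'
  imm : ∀ z ∈ S, ∀ b : E m, (0, b) ∈ Tan S z → ⟪b, V z.1⟫ = 0 → b = 0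

/-- The base: compact connected submanifold, bounded smooth vector field tangent to it, flow. -/
structure Base (n : ℕ) (N : Set (E m)) (V : E m → E m) (R : ℝ → E m → E m) : Prop where
  sub : IsSubmfd n N
  cpt : IsCompact N
  conn : IsConnected N
  smooth : ContDiff ℝ ∞ V
  bdd : ∃ K : ℝ, ∀ x, ‖V x‖ ≤ K
  tan : ∀ q ∈ N, V q ∈ Tan N q
  flow : IsFlow V R
  maps : ∀ q ∈ N, ∀ t, R t q ∈ N

/-- The derivative of `u` at `y` in the directions of the plane. -/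
noncomputable def dpl (V : E m → E m) (u : E m × ℝ → ℝ) (y : E m × ℝ) (a b : ℝ) : ℝ :=
  fderiv ℝ u y (a • V y.1, b)

/-- `u` is a local equation of `C` in `N × ℝ` on the open set `W`, regular in the planes. -/
structure LocN (N : Set (E m)) (V : E m → E m) (C W : Set (E m × ℝ)) (u : E m × ℝ → ℝ) :
    Prop where
  isOpen : IsOpen W
  smooth : ContDiffOn ℝ ∞ u W
  eqn : ∀ y ∈ W, y.1 ∈ N → (y ∈ C ↔ u y = 0)
  reg : ∀ y ∈ W, ¬ (dpl V u y 1 0 = 0 ∧ dpl V u y 0 1 = 0)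

/-- The reduced hypersurface in `N × (-M, M)`. -/
structure RedN (N : Set (E m)) (V : E m → E m) (C : Set (E m × ℝ)) (M : ℝ) : Prop where
  ne : C.Nonempty
  closed : IsClosed C
  sub : ∀ x ∈ C, x.1 ∈ N
  hM : 0 < M
  bdd : ∀ x ∈ C, |x.2| < M
  loc : ∀ x ∈ C, ∃ W u, x ∈ W ∧ LocN N V C W u

/-- The phase set: `(q, r, φ)` with `(q, r)` in `C` and `(cos φ V, sin φ)` tangent to `C`. -/
def PSN (N : Set (E m)) (V : E m → E m) (C : Set (E m × ℝ)) : Set ((E m × ℝ) × ℝ) :=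
  {x | x.1 ∈ C ∧ ∀ W u, x.1 ∈ W → LocN N V C W u →
    dpl V u x.1 (Real.cos x.2) (Real.sin x.2) = 0}

/-- `ϑ` is a smooth phase of `u` on `W`. -/
structure PhaseN (V : E m → E m) (W : Set (E m × ℝ)) (u ϑ : E m × ℝ → ℝ) : Prop where
  smooth : ContDiffOn ℝ ∞ ϑ W
  tang : ∀ y ∈ W, dpl V u y (Real.cos (ϑ y)) (Real.sin (ϑ y)) = 0

/-- The function `κ` is the curvature of the leaves on the phase set. -/
structure CurvN (N : Set (E m)) (V : E m → E m) (C : Set (E m × ℝ))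
    (κ : (E m × ℝ) × ℝ → ℝ) : Prop where
  smooth : ContDiff ℝ ∞ κ
  bdd : ∃ K : ℝ, ∀ x, |κ x| ≤ K
  curv : ∀ x ∈ PSN N V C, ∀ W u ϑ, x.1 ∈ W → LocN N V C W u → PhaseN V W u ϑ →
    ∀ k : ℤ, x.2 = ϑ x.1 + k * Real.pi →
      κ x = fderiv ℝ ϑ x.1 (Real.cos x.2 • V x.1.1, Real.sin x.2)

/-- The vector field of the leaves on `(ℝ^m × ℝ) × ℝ`. -/
noncomputable def LFN (V : E m → E m) (κ : (E m × ℝ) × ℝ → ℝ) (x : (E m × ℝ) × ℝ) :
    (E m × ℝ) × ℝ :=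
  ((Real.cos x.2 • V x.1.1, Real.sin x.2), κ x)

/-- The vector field with phase `s Θ + π / 2` in the planes. -/
noncomputable def XFN (V : E m → E m) (Θ : E m × ℝ → ℝ) (s : ℝ) (x : E m × ℝ) : E m × ℝ :=
  ((-Real.sin (s * Θ x)) • V x.1, Real.cos (s * Θ x))

/-- `F` is a smooth function whose restriction to `C` is a primitive of `r dt` in the planes. -/
structure PrimN (N : Set (E m)) (V : E m → E m) (C : Set (E m × ℝ)) (F : E m × ℝ → ℝ) :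
    Prop where
  smooth : ContDiff ℝ ∞ F
  prim : ∀ x ∈ PSN N V C,
    fderiv ℝ F x.1 (Real.cos x.2 • V x.1.1, Real.sin x.2) = x.1.2 * Real.cos x.2

/-- All data of the leaf analysis. -/
structure LeafN (n : ℕ) (N : Set (E m)) (V : E m → E m) (R : ℝ → E m → E m)
    (C : Set (E m × ℝ)) (M : ℝ) (κ : (E m × ℝ) × ℝ → ℝ)
    (Λ : ℝ → (E m × ℝ) × ℝ → (E m × ℝ) × ℝ) (F : E m × ℝ → ℝ) : Prop where
  base : Base n N V R
  red : RedN N V C M
  curv : CurvN N V C κ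
  flow : IsFlow (LFN V κ) Λ
  prim : PrimN N V C F

/-- The coordinate along `V` of the leaf. -/
noncomputable def tl (Λ : ℝ → (E m × ℝ) × ℝ → (E m × ℝ) × ℝ) (x : (E m × ℝ) × ℝ) (s : ℝ) : ℝ :=
  ∫ u in (0 : ℝ)..s, Real.cos (Λ u x).2

/-- The leaf of `x` as a curve in the plane, starting at the coordinate `t₀`. -/
noncomputable def pc (Λ : ℝ → (E m × ℝ) × ℝ → (E m × ℝ) × ℝ) (x : (E m × ℝ) × ℝ) (t₀ s : ℝ) :
    ℝ × ℝ := (t₀ + tl Λ x s, (Λ s x).1.2)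

/-- The part of `C` in the plane of `q`. -/
def Cq (R : ℝ → E m → E m) (C : Set (E m × ℝ)) (q : E m) : Set (ℝ × ℝ) :=
  {w | (R w.1 q, w.2) ∈ C}

/-- A function on the plane of `q`. -/
def onP (R : ℝ → E m → E m) (F : E m × ℝ → ℝ) (q : E m) (w : ℝ × ℝ) : ℝ := F (R w.1 q, w.2)

/-- The good phases: the leaf goes from `-∞` to `+∞`, and the direction of the secants starting at the
point, lifted continuously from the phase, is finally in `(-π/2, π/2)`. -/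
def RPN (N : Set (E m)) (V : E m → E m) (C : Set (E m × ℝ))
    (Λ : ℝ → (E m × ℝ) × ℝ → (E m × ℝ) × ℝ) : Set ((E m × ℝ) × ℝ) :=
  {x | x ∈ PSN N V C ∧ Tendsto (tl Λ x) atTop atTop ∧
    ∃ η, PLift (pc Λ x 0) (fun s => (Λ s x).2) η ∧ ∀ᶠ s in atTop, |η (0, s)| < Real.pi / 2}

/-- The almost highest points (slope `ε = 1/20`). -/
def TopN (R : ℝ → E m → E m) (C : Set (E m × ℝ)) (M : ℝ) : Set (E m × ℝ) :=
  {y | y ∈ C ∧ ∀ w ∈ Cq R C y.1,
    w.2 ≤ y.2 + 1 / 20 * |w.1| + (1 / 20) ^ 2 / (8 * M) * w.1 ^ 2}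

/-- The almost lowest points. -/
def BotN (R : ℝ → E m → E m) (C : Set (E m × ℝ)) (M : ℝ) : Set (E m × ℝ) :=
  {y | y ∈ C ∧ ∀ w ∈ Cq R C y.1,
    y.2 - 1 / 20 * |w.1| - (1 / 20) ^ 2 / (8 * M) * w.1 ^ 2 ≤ w.2}

/-- The cones above the almost highest points. -/
def ZUp (R : ℝ → E m → E m) (C : Set (E m × ℝ)) (M : ℝ) : Set (E m × ℝ) :=
  {y | ∃ t r : ℝ, (R t y.1, r) ∈ TopN R C M ∧ r + |t| ≤ y.2}

/-- The cones below the almost lowest points. -/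
def ZDn (R : ℝ → E m → E m) (C : Set (E m × ℝ)) (M : ℝ) : Set (E m × ℝ) :=
  {y | ∃ t r : ℝ, (R t y.1, r) ∈ BotN R C M ∧ y.2 ≤ r - |t|}

/-- The phase function on `N × ℝ`: smooth, zero for `|r| ≥ M + 1`. -/
structure PhaseI (Θ : E m × ℝ → ℝ) (M' : ℝ) : Prop where
  smooth : ContDiff ℝ ∞ Θ
  supp : ∀ x : E m × ℝ, M' ≤ |x.2| → Θ x = 0
  hM : 0 < M'

/-- Every orbit over `N` passes from the bottom through the strip `|r| ≤ M` to the top, in time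
`τ`. -/
def GoodN (N : Set (E m)) (M τ : ℝ) (Ψ : ℝ → E m × ℝ → E m × ℝ) : Prop :=
  ∀ x : E m × ℝ, x.1 ∈ N → |x.2| ≤ M → M + 1 ≤ (Ψ τ x).2 ∧ (Ψ (-τ) x).2 ≤ -M - 1

end Pool.Agent.H2.TI
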