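import Pool.Agent.H2.TI.NHyp

/-!
# Smooth local left inverse of the reduction map (module NLeft)

PROOF. `σ = sigN V`, slice chart `e, A` of `S` at `z0`, `c a = e.symm (e z0 + a)`, `a ∈ A`, smooth near `0`, `c 0 = z0`,
`c a ∈ S`. `D = D(σ ∘ c)(0) : A → E m × ℝ` is injective (`Dc(0) a ∈ Tan S z0`, `sigN_fderiv`, `hE.imm`). Let
`P : E m × ℝ → A` be a linear left inverse of `D` (finite dimension). `P ∘ σ ∘ c : A → A` is smooth near `0` with derivative
`id` at `0`: local inverse `θ`, smooth near `P (σ z0)` (`smooth_inverse` in `H57/NL/Loc.lean`). Put `π y = c (θ (P y))`: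
smooth near `σ z0`, values in `S`, and `π (σ (c a)) = c a` for `a` near `0`, i.e. `π (σ z) = z` for `z ∈ S` near `z0`.
`f ∘ c` is smooth near `0` on `A`: by `ExactLag.exact` (`HasFDerivWithinAt f (liou z) S z`) and the chain rule
`D(f ∘ c)(a) w = ⟪(c a).2, (Dc(a) w).1⟫`, a smooth function of `a` (with values in linear maps), so `f ∘ c` is `C^∞`
(`contDiffOn_infty_iff_fderiv_of_isOpen` or the `succ` version by induction). So `f ∘ π = (f ∘ c) ∘ (θ ∘ P)` is smooth.
-/

set_option autoImplicit false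

open scoped ContDiff Topology RealInnerProductSpace
open Set Filter

namespace Pool.Agent.H2.TI

open Pool.Agent.H57.NL Pool.Agent.H2.TG

variable {m n : ℕ} {N : Set (E m)} {V : E m → E m}
  {S : Set (E m × E m)} {f : E m × E m → ℝ}

theorem exists_leftN (hV : ContDiff ℝ ∞ V) (hL : ExactLag n N ⊥ S f) (hE : EmbN V S)
    {z0 : E m × E m} (hz : z0 ∈ S) :
    ∃ (O : Set (E m × E m)) (W : Set (E m × ℝ)) (π : E m × ℝ → E m × E m),
      IsOpen O ∧ IsOpen W ∧ z0 ∈ O ∧ sigN V z0 ∈ W ∧ ContDiffOn ℝ ∞ π W ∧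
      ContDiffOn ℝ ∞ (fun y => f (π y)) W ∧ (∀ y ∈ W, π y ∈ S) ∧
      ∀ z ∈ S ∩ O, sigN V z ∈ W → π (sigN V z) = z := by
  obtain ⟨e, A, hze, hs⟩ := hL.sub.slice hz
  have ha0m : e z0 ∈ A := (hs.iff _ hze).1 hz
  set a0 : A := ⟨e z0, ha0m⟩ with ha0
  have hsymm0 : e.symm (a0 : E m × E m) = z0 := e.left_inv hze
  set c : A → E m × E m := fun a => e.symm (a : E m × E m) with hc
  set U : Set A := {a | (a : E m × E m) ∈ e.target} with hU
  have hUo : IsOpen U := e.open_target.preimage continuous_subtype_val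
  have ha0U : a0 ∈ U := e.map_source hze
  have hca0 : c a0 = z0 := hsymm0
  have hcS : ∀ a ∈ U, c a ∈ S := by
    intro a ha
    have ha' : (a : E m × E m) ∈ e.target := ha
    change e.symm (a : E m × E m) ∈ S
    rw [hs.iff _ (e.map_target ha'), e.right_inv ha']
    exact a.2
  have hcd : ContDiffOn ℝ ∞ c U :=
    hs.s2.comp A.subtypeL.contDiff.contDiffOn (fun a ha => ha)
  have hcD : ∀ a ∈ U, HasFDerivAt c (fderiv ℝ c a) a := fun a ha =>
    ((hcd.contDiffAt (hUo.mem_nhds ha)).differentiableAt (by simp)).hasFDerivAt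
  -- the primitive in the chart
  have hfc : ContDiffOn ℝ ∞ (fun a => f (c a)) U := by
    have hder : ∀ a ∈ U,
        HasFDerivAt (fun a => f (c a)) ((liou (c a)).comp (fderiv ℝ c a)) a := by
      intro a ha
      have h1 := hL.exact (c a) (hcS a ha)
      have h2 : HasFDerivWithinAt c (fderiv ℝ c a) U a := (hcD a ha).hasFDerivWithinAt
      have h3 := h1.comp a h2 (fun x hx => hcS x hx)
      exact h3.hasFDerivAt (hUo.mem_nhds ha)
    rw [contDiffOn_infty_iff_fderiv_of_isOpen hUo]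
    refine ⟨fun a ha => (hder a ha).differentiableAt.differentiableWithinAt, ?_⟩
    have h4 : ContDiffOn ℝ ∞ (fun a => (liou (c a)).comp (fderiv ℝ c a)) U := by
      rw [contDiffOn_clm_apply]
      intro w
      have h5 : ContDiffOn ℝ ∞ (fun a => fderiv ℝ c a w) U :=
        (hcd.fderiv_of_isOpen hUo (m := ∞) (by simp)).clm_apply contDiffOn_const
      exact ContDiffOn.inner ℝ hcd.snd h5.fst
    exact h4.congr fun a ha => (hder a ha).fderiv
  -- the reduction map in the chart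
  have hσ : ContDiff ℝ ∞ (sigN V) := sigN_contDiff hV
  have hg : ContDiffOn ℝ ∞ (fun a => sigN V (c a)) U := hσ.comp_contDiffOn hcd
  set D : A →L[ℝ] E m × ℝ := (fderiv ℝ (sigN V) z0).comp (fderiv ℝ c a0) with hD
  have hgD : HasFDerivAt (fun a => sigN V (c a)) D a0 := by
    have h1 : HasFDerivAt (sigN V) (fderiv ℝ (sigN V) z0) (c a0) := by
      rw [hca0]
      exact (hσ.differentiable (by simp) z0).hasFDerivAt
    exact h1.comp a0 (hcD a0 ha0U)
  have hc' : ∀ w : A, fderiv ℝ c a0 w = fderiv ℝ e.symm (e z0) (w : E m × E m) := by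
    intro w
    have h1 : HasFDerivAt c ((fderiv ℝ e.symm (e z0)).comp A.subtypeL) a0 := by
      have h2 : HasFDerivAt e.symm (fderiv ℝ e.symm (e z0)) ((a0 : A) : E m × E m) :=
        hs.hd' (e.map_source hze)
      exact h2.comp a0 A.subtypeL.hasFDerivAt
    rw [h1.fderiv]
    rfl
  have hDinj : Function.Injective D := by
    rw [injective_iff_map_eq_zero]
    intro w hw
    set ζ : E m × E m := fderiv ℝ c a0 w with hζ
    have h1 : fderiv ℝ (sigN V) z0 ζ = 0 := hw
    rw [sigN_fderiv hV, Prod.mk_eq_zero] at h1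
    obtain ⟨h2, h3⟩ := h1
    rw [h2, map_zero, inner_zero_right, add_zero] at h3
    have h4 : ζ ∈ Tan S z0 := by
      rw [hs.mem_tan hze hz, hζ, hc', hs.right hze]
      exact w.2
    have h5 : ζ = (0, ζ.2) := by rw [← h2]
    rw [h5] at h4
    have h6 := hE.imm z0 hz ζ.2 h4 h3
    have h7 : ζ = 0 := by rw [h5, h6]; rfl
    have h8 : (w : E m × E m) = 0 := by
      rw [← hs.right hze (w : E m × E m), ← hc', ← hζ, h7, map_zero]
    exact Subtype.ext h8
  obtain ⟨P, hP⟩ := ContinuousLinearMap.HasLeftInverse.of_injective_of_finiteDimensional hDinj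
  have hGs : ∀ᶠ a in 𝓝 a0, ContDiffAt ℝ ∞ (fun a => P (sigN V (c a))) a := by
    filter_upwards [hUo.mem_nhds ha0U] with a ha
    exact P.contDiff.contDiffAt.comp a (hg.contDiffAt (hUo.mem_nhds ha))
  have hGinj : Function.Injective (fderiv ℝ (fun a => P (sigN V (c a))) a0) := by
    have h1 : HasFDerivAt (fun a => P (sigN V (c a))) (P.comp D) a0 :=
      P.hasFDerivAt.comp a0 hgD
    rw [h1.fderiv]
    intro x y hxy
    have h2 : P (D x) = P (D y) := hxy
    rwa [hP x, hP y] at h2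
  obtain ⟨Φ, hΦc, hΦs, hΦd⟩ := smooth_inverse rfl hGs hGinj
  have hΦe : ∀ a, Φ a = P (sigN V (c a)) := fun a => congrFun hΦc a
  have hP0 : P (sigN V z0) = Φ a0 := by rw [hΦe, hca0]
  have hΦ0 : Φ.symm (P (sigN V z0)) = a0 := by rw [hP0]; exact Φ.left_inv hΦs
  have hPT : P (sigN V z0) ∈ Φ.target := by rw [hP0]; exact Φ.map_source hΦs
  have hPt : Tendsto (fun y => P y) (𝓝 (sigN V z0)) (𝓝 (P (sigN V z0))) :=
    P.continuous.tendsto _
  have hPΦ : Tendsto (fun y => Φ.symm (P y)) (𝓝 (sigN V z0)) (𝓝 a0) := by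
    have h1 := (Φ.continuousAt_symm hPT).tendsto
    rw [hΦ0] at h1
    exact h1.comp hPt
  have ev2 : ∀ᶠ y in 𝓝 (sigN V z0), ContDiffAt ℝ ∞ Φ.symm (P y) := by
    refine hPt.eventually ?_
    rw [hP0, hΦe]
    exact hΦd
  have ev3 : ∀ᶠ y in 𝓝 (sigN V z0), Φ.symm (P y) ∈ U := hPΦ.eventually (hUo.mem_nhds ha0U)
  -- the open sets
  obtain ⟨W0, hW0, hW0'⟩ := isOpen_induced_iff.1 Φ.open_source
  have hW : e z0 ∈ W0 := by
    have : a0 ∈ (Subtype.val ⁻¹' W0 : Set A) := by
      rw [hW0']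
      exact hΦs
    exact this
  have ev6 : ∀ᶠ z in 𝓝 z0, e z ∈ W0 := (e.continuousAt hze).tendsto.eventually (hW0.mem_nhds hW)
  refine ⟨interior {z | z ∈ e.source ∧ e z ∈ W0},
    interior {y | ContDiffAt ℝ ∞ Φ.symm (P y) ∧ Φ.symm (P y) ∈ U},
    fun y => c (Φ.symm (P y)), isOpen_interior, isOpen_interior, ?_, ?_, ?_, ?_, ?_, ?_⟩
  · rw [mem_interior_iff_mem_nhds]
    filter_upwards [e.open_source.mem_nhds hze, ev6] with z h1 h2 using ⟨h1, h2⟩
  · rw [mem_interior_iff_mem_nhds]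
    filter_upwards [ev2, ev3] with y h1 h2 using ⟨h1, h2⟩
  · intro y hy
    obtain ⟨h1, h2⟩ := interior_subset hy
    have h3 : ContDiffAt ℝ ∞ (fun y => Φ.symm (P y)) y := h1.comp y P.contDiff.contDiffAt
    exact ((hcd.contDiffAt (hUo.mem_nhds h2)).comp y h3).contDiffWithinAt
  · intro y hy
    obtain ⟨h1, h2⟩ := interior_subset hy
    have h3 : ContDiffAt ℝ ∞ (fun y => Φ.symm (P y)) y := h1.comp y P.contDiff.contDiffAt
    exact (ContDiffAt.comp y (g := fun a => f (c a)) (hfc.contDiffAt (hUo.mem_nhds h2))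
      h3).contDiffWithinAt
  · intro y hy
    exact hcS _ (interior_subset hy).2
  · rintro z ⟨hzS, hzO⟩ -
    obtain ⟨h1, h2⟩ := interior_subset hzO
    have h3 : e z ∈ A := (hs.iff _ h1).1 hzS
    have h4 : (⟨e z, h3⟩ : A) ∈ Φ.source := by
      rw [← hW0']
      exact h2
    have h5 : Φ ⟨e z, h3⟩ = P (sigN V z) := by
      rw [hΦe]
      change P (sigN V (e.symm (e z))) = P (sigN V z)
      rw [e.left_inv h1]
    have h6 : Φ.symm (P (sigN V z)) = ⟨e z, h3⟩ := by
      rw [← h5]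
      exact Φ.left_inv h4
    change e.symm ((Φ.symm (P (sigN V z)) : A) : E m × E m) = z
    rw [h6]
    exact e.left_inv h1

end Pool.Agent.H2.TI
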