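import Pool.Agent.H2.TI.NSep
import Pool.Agent.H2.TI.NCurvB

/-!
# The planar sections (module NPSet)

PROOF of `exists_pset`. `δ` from `sepN`; `K ≥ 1` a bound of `|DF(y)(0, 1)|` on the compact set `N × [-M, M]`.
PSet (`Z = Cq R C q`, function `onP R F q`). `closed`: preimage of `C` under the continuous `w ↦ (R w.1 q, w.2)`. `bdd`:
`RedN.bdd`. `loc`: for a local equation `u` on `W` at `(R w.1 q, w.2)` take `g w = u (R w.1 q, w.2)` on the preimage of
`W` (`(R w.1 q) ∈ N`); `Dg(w)(a, b) = dpl V u (R w.1 q, w.2) a b` (`d/dt R t q = V (R t q)`). `smooth`: composition with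
the smooth flow. `lip`: `D(onP R F q)(w)(0, 1) = DF(R w.1 q, w.2)(0, 1)`. `prim`: let `Dg(w)(a, b) = 0`; choose `φ` with
`x = ((R w.1 q, w.2), φ) ∈ PSN` (`PSN_exists`); the planar leaf `pc Λ x w.1` is in `Cq R C q` (`pc_mem`), starts at `w`
with velocity `(cos φ, sin φ)` (`pcN`), so `g` vanishes along it and `Dg(w)(cos φ, sin φ) = 0`; `Dg(w) ≠ 0` (`PEq.reg`), so
`(a, b) = ρ (cos φ, sin φ)`; `D(onP R F q)(w)(cos φ, sin φ) = DF(x.1)(cos φ • V, sin φ) = w.2 cos φ` (`PrimN.prim`).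
`leaf`: the planar leaf above.
PLeaf (second claim; `c = pc Λ x t₀`, `c s = (t₀ + tl Λ x s, (Λ s x).1.2)`). `mem`: as `pc_mem`. `pc`: `pcN`. `sep`: let
`w ∈ Cq R C q`, `‖w - c s‖ < δ`; apply `sepN` to `Λ s x` (`leafN_mem`) with `t = w.1 - (c s).1`, `h = w.2 - (c s).2`:
`R t (Λ s x).1.1 = R w.1 q` (`leafN_q`, `R_add`); the resulting `s'` satisfies `c (s + s') = w` (`tl_add`, `IsFlow.add`).
`dich`: CLAIM: if `c s₁ = c s₂`, `s₁ < s₂`, then `c (s + (s₂ - s₁)) = c s` for all `s`. Then `(Λ s₁ x).1 = (Λ s₂ x).1`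
(`leafN_q`), so by `PSN_unique` `(Λ s₂ x).2 = (Λ s₁ x).2 + j π`. If `j` is odd, `leafN_odd` (at `Λ s₁ x`, and `IsFlow.add`)
gives `(Λ (s₂ + u) x) = ((Λ (s₁ - u) x).1, (Λ (s₁ - u) x).2 + j π)` for all `u`; at `u = (s₁ - s₂)/2` the same parameter
on both sides, so `j π = 0`: contradiction. So `j` is even, `leafN_even`: `(Λ (s₂ + u) x).1 = (Λ (s₁ + u) x).1`, and
`tl Λ x (s₂ + u) = tl Λ x (s₁ + u)` (equal at `u = 0`, same derivative): claim. If `c` is not injective, the set of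
periods `{P | ∀ s, c (s + P) = c s}` is a closed additive subgroup of `ℝ`, contains a positive number and is not
`ℝ` (`c` is not constant: its derivative is not zero), so it is `ℤ P₀`, `P₀ > 0` (`AddSubgroup.dense_or_cyclic`); if
`s < t < s + P₀` and `c s = c t`, then `t - s` would be a period by the claim.
-/

set_option autoImplicit false

open scoped ContDiff Topology RealInnerProductSpace
open Set

namespace Pool.Agent.H2.TI

open Pool.Agent.H57.NL Pool.Agent.H2.TG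

variable {m n : ℕ} {N : Set (E m)} {V : E m → E m} {R : ℝ → E m → E m} {C : Set (E m × ℝ)}
  {M : ℝ} {κ : (E m × ℝ) × ℝ → ℝ} {Λ : ℝ → (E m × ℝ) × ℝ → (E m × ℝ) × ℝ} {F : E m × ℝ → ℝ}

private theorem npset_claim (h : LeafN n N V R C M κ Λ F) {x : (E m × ℝ) × ℝ}
    (hx : x ∈ PSN N V C) (t₀ : ℝ) {s₁ s₂ : ℝ} (_hlt : s₁ < s₂)
    (he : pc Λ x t₀ s₁ = pc Λ x t₀ s₂) (s : ℝ) :
    pc Λ x t₀ (s + (s₂ - s₁)) = pc Λ x t₀ s := by
  have hB := h.base
  have hR := h.red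
  have hκ := h.curv
  have hΛ := h.flow
  have hadd : ∀ s t, Λ s (Λ t x) = Λ (s + t) x := fun s t => hΛ.add (LFN_contDiff hB hκ) s t x
  have e1 : tl Λ x s₁ = tl Λ x s₂ := by
    have := congrArg Prod.fst he
    change t₀ + tl Λ x s₁ = t₀ + tl Λ x s₂ at this
    linarith
  have e2 : (Λ s₁ x).1.2 = (Λ s₂ x).1.2 := by
    have := congrArg Prod.snd he
    exact this
  have e3 : (Λ s₂ x).1 = (Λ s₁ x).1 := by
    refine Prod.ext ?_ e2.symm
    rw [leafN_q hB hΛ, leafN_q hB hΛ, e1]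
  have hm1 := leafN_mem hB hR hκ hΛ hx s₁
  have hm2 := leafN_mem hB hR hκ hΛ hx s₂
  obtain ⟨k, hk⟩ := PSN_unique hB hR (y := (Λ s₁ x).1) (φ := (Λ s₂ x).2) (ψ := (Λ s₁ x).2)
    (by rw [← e3]; exact hm2) hm1
  have e4 : Λ s₂ x = ((Λ s₁ x).1, (Λ s₁ x).2 + k * Real.pi) := Prod.ext e3 hk
  rcases Int.even_or_odd k with hev | hod
  · have h1 := leafN_even hB hR hκ hΛ hm1 hev (s - s₁)
    have h2 := tl_even hB hR hκ hΛ hm1 hev (s - s₁)
    rw [← e4] at h1 h2
    have h3 := tl_add hB hκ hΛ x s₂ (s - s₁)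
    have h4 := tl_add hB hκ hΛ x s₁ (s - s₁)
    rw [hadd, hadd] at h1
    have a1 : s - s₁ + s₂ = s + (s₂ - s₁) := by ring
    have a2 : s - s₁ + s₁ = s := by ring
    have a3 : s₂ + (s - s₁) = s + (s₂ - s₁) := by ring
    have a4 : s₁ + (s - s₁) = s := by ring
    rw [a1, a2] at h1
    rw [a3, h2] at h3
    rw [a4] at h4
    have h5 : tl Λ x (s + (s₂ - s₁)) = tl Λ x s := by rw [h3, h4, e1]
    unfold pc
    rw [h5, h1]
  · exfalso
    have h1 := leafN_odd hB hR hκ hΛ hm1 hod ((s₁ - s₂) / 2)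
    rw [← e4, hadd, hadd] at h1
    have a1 : (s₁ - s₂) / 2 + s₂ = (s₁ + s₂) / 2 := by ring
    have a2 : -((s₁ - s₂) / 2) + s₁ = (s₁ + s₂) / 2 := by ring
    rw [a1, a2] at h1
    have h2 : (Λ ((s₁ + s₂) / 2) x).2 = (Λ ((s₁ + s₂) / 2) x).2 + k * Real.pi :=
      congrArg Prod.snd h1
    have h3 : (k : ℝ) * Real.pi = 0 := by linarith
    rcases mul_eq_zero.1 h3 with h4 | h4
    · have h5 : k = 0 := by exact_mod_cast h4
      rw [h5] at hod
      exact absurd hod (by decide)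
    · exact Real.pi_ne_zero h4

theorem pc_dich (h : LeafN n N V R C M κ Λ F) {x : (E m × ℝ) × ℝ} (hx : x ∈ PSN N V C) (t₀ : ℝ) :
    Function.Injective (pc Λ x t₀) ∨ ∃ P, 0 < P ∧ (∀ s, pc Λ x t₀ (s + P) = pc Λ x t₀ s) ∧
      ∀ s t, s < t → t < s + P → pc Λ x t₀ s ≠ pc Λ x t₀ t := by
  by_cases hinj : Function.Injective (pc Λ x t₀)
  · exact Or.inl hinj
  right
  have hpc := pcN h.flow x t₀
  have hcont : Continuous (pc Λ x t₀) :=
    continuous_iff_continuousAt.2 fun s => (hpc.deriv s).continuousAt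
  obtain ⟨s₁, s₂, he, hne⟩ : ∃ s₁ s₂, pc Λ x t₀ s₁ = pc Λ x t₀ s₂ ∧ s₁ ≠ s₂ := by
    unfold Function.Injective at hinj
    push Not at hinj
    exact hinj
  obtain ⟨s₁, s₂, he, hlt⟩ : ∃ s₁ s₂, pc Λ x t₀ s₁ = pc Λ x t₀ s₂ ∧ s₁ < s₂ := by
    rcases lt_or_gt_of_ne hne with h1 | h1
    · exact ⟨s₁, s₂, he, h1⟩
    · exact ⟨s₂, s₁, he.symm, h1⟩
  let G : AddSubgroup ℝ :=
    { carrier := {P | ∀ s, pc Λ x t₀ (s + P) = pc Λ x t₀ s}
      zero_mem' := fun s => by rw [add_zero]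
      add_mem' := fun {a b} ha hb s => by
        rw [← add_assoc, hb, ha]
      neg_mem' := fun {a} ha s => by
        have := ha (s + -a)
        rw [neg_add_cancel_right] at this
        exact this.symm }
  have hGm : ∀ P, P ∈ G ↔ ∀ s, pc Λ x t₀ (s + P) = pc Λ x t₀ s := fun P => Iff.rfl
  have hcl : IsClosed (G : Set ℝ) := by
    have e : (G : Set ℝ) = ⋂ s, {P | pc Λ x t₀ (s + P) = pc Λ x t₀ s} := by
      ext P
      simp only [SetLike.mem_coe, hGm, mem_iInter, mem_ofPred_eq]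
    rw [e]
    exact isClosed_iInter fun s => isClosed_eq (hcont.comp (by fun_prop)) continuous_const
  have hmem : s₂ - s₁ ∈ G := fun s => npset_claim h hx t₀ hlt he s
  rcases AddSubgroup.dense_or_cyclic G with hd | ⟨a, ha⟩
  · exfalso
    have hall : ∀ P, P ∈ G := by
      intro P
      have h1 : closure (G : Set ℝ) = univ := hd.closure_eq
      rw [hcl.closure_eq] at h1
      have h2 : P ∈ (G : Set ℝ) := by rw [h1]; exact mem_univ P
      exact h2
    have hc : pc Λ x t₀ = fun _ => pc Λ x t₀ 0 := by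
      funext P
      have := hall P 0
      rwa [zero_add] at this
    have h1 := hpc.deriv 0
    rw [hc] at h1
    have h2 := h1.unique (hasDerivAt_const (0 : ℝ) (pc Λ x t₀ 0))
    have h3 : Real.cos (Λ 0 x).2 = 0 := congrArg Prod.fst h2
    have h4 : Real.sin (Λ 0 x).2 = 0 := congrArg Prod.snd h2
    have h5 := Real.sin_sq_add_cos_sq (Λ 0 x).2
    rw [h3, h4] at h5
    norm_num at h5
  · have ha0 : a ≠ 0 := by
      rintro rfl
      rw [AddSubgroup.closure_singleton_zero] at ha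
      rw [ha, AddSubgroup.mem_bot] at hmem
      linarith
    have hmz : ∀ P, P ∈ G ↔ ∃ k : ℤ, k • a = P := fun P => by
      rw [ha, AddSubgroup.mem_closure_singleton]
    have habs : |a| ∈ G := by
      rw [hmz]
      rcases abs_choice a with h1 | h1
      · exact ⟨1, by rw [h1, one_smul]⟩
      · exact ⟨-1, by rw [h1, neg_smul, one_smul]⟩
    refine ⟨|a|, abs_pos.2 ha0, habs, fun s t hst hts hc => ?_⟩
    have h1 : t - s ∈ G := fun u => npset_claim h hx t₀ hst hc u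
    obtain ⟨k, hk⟩ := (hmz _).1 h1
    rw [zsmul_eq_mul] at hk
    have h2 : |(k : ℝ)| * |a| < 1 * |a| := by
      rw [← abs_mul, hk, abs_of_pos (by linarith : 0 < t - s), one_mul]
      linarith
    have h3 : |(k : ℝ)| < 1 := lt_of_mul_lt_mul_right h2 (abs_nonneg a)
    have h4 : |k| < 1 := by exact_mod_cast h3
    have h5 : k = 0 := Int.abs_lt_one_iff.1 h4
    rw [h5, Int.cast_zero, zero_mul] at hk
    linarith

private theorem npset_j (hB : Base n N V R) (q : E m) (w : ℝ × ℝ) :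
    HasFDerivAt (fun w : ℝ × ℝ => ((R w.1 q, w.2) : E m × ℝ))
      (((ContinuousLinearMap.fst ℝ ℝ ℝ).smulRight (V (R w.1 q))).prod
        (ContinuousLinearMap.snd ℝ ℝ ℝ)) w := by
  have h1 : HasFDerivAt (fun w : ℝ × ℝ => R w.1 q)
      ((ContinuousLinearMap.fst ℝ ℝ ℝ).smulRight (V (R w.1 q))) w := by
    have h2 := (hB.flow.deriv q w.1).hasFDerivAt.comp w
      (hasFDerivAt_fst (𝕜 := ℝ) (E := ℝ) (F := ℝ) (p := w))
    refine h2.congr_fderiv ?_
    ext <;> simp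
  exact h1.prodMk hasFDerivAt_snd

private theorem npset_fd (hB : Base n N V R) (q : E m) (w : ℝ × ℝ) {u : E m × ℝ → ℝ}
    (hu : DifferentiableAt ℝ u (R w.1 q, w.2)) (a b : ℝ) :
    fderiv ℝ (fun w : ℝ × ℝ => u (R w.1 q, w.2)) w (a, b) = dpl V u (R w.1 q, w.2) a b := by
  have h1 : HasFDerivAt (fun w : ℝ × ℝ => u (R w.1 q, w.2)) _ w :=
    hu.hasFDerivAt.comp w (npset_j hB q w)
  rw [h1.fderiv]
  rfl

private theorem npset_smooth (hB : Base n N V R) (q : E m) :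
    ContDiff ℝ ∞ fun w : ℝ × ℝ => ((R w.1 q, w.2) : E m × ℝ) := by
  have h1 : ContDiff ℝ ∞ fun w : ℝ × ℝ => R w.1 q :=
    hB.flow.smooth.comp (contDiff_fst.prodMk contDiff_const)
  exact h1.prodMk contDiff_snd

theorem exists_pset (h : LeafN n N V R C M κ Λ F) : ∃ K δ : ℝ, ∀ q ∈ N,
    PSet (Cq R C q) M K δ (onP R F q) ∧
      ∀ (x : (E m × ℝ) × ℝ) (t₀ : ℝ), x ∈ PSN N V C → x.1.1 = R t₀ q →
        PLeaf (Cq R C q) δ (pc Λ x t₀) (fun s => (Λ s x).2) := by
  have hB := h.base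
  have hR := h.red
  have hκ := h.curv
  have hΛ := h.flow
  obtain ⟨δ, hδ, hsep⟩ := sepN hB hR hκ hΛ
  have hFd : Differentiable ℝ F := h.prim.smooth.differentiable (by simp)
  have hcF : Continuous fun y : E m × ℝ => fderiv ℝ F y (0, 1) :=
    (h.prim.smooth.continuous_fderiv (by simp)).clm_apply continuous_const
  obtain ⟨B, hBd⟩ := (hB.cpt.prod (isCompact_Icc (a := -M) (b := M))).exists_bound_of_continuousOn
    hcF.continuousOn
  have hleaf : ∀ q ∈ N, ∀ (x : (E m × ℝ) × ℝ) (t₀ : ℝ), x ∈ PSN N V C → x.1.1 = R t₀ q →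
      PLeaf (Cq R C q) δ (pc Λ x t₀) (fun s => (Λ s x).2) := by
    intro q hq x t₀ hx hxq
    have hqs : ∀ s, (Λ s x).1.1 = R (t₀ + tl Λ x s) q := fun s => by
      rw [leafN_q hB hΛ, hxq, R_add hB, add_comm]
    refine ⟨fun s => ?_, pcN hΛ x t₀, fun s w hw hd => ?_, pc_dich h hx t₀⟩
    · change (R (t₀ + tl Λ x s) q, (Λ s x).1.2) ∈ C
      rw [← hqs]
      exact (leafN_mem hB hR hκ hΛ hx s).1
    · have h1 : |w.1 - (pc Λ x t₀ s).1| < δ := lt_of_le_of_lt (norm_fst_le (w - pc Λ x t₀ s)) hd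
      have h2 : |w.2 - (pc Λ x t₀ s).2| < δ := lt_of_le_of_lt (norm_snd_le (w - pc Λ x t₀ s)) hd
      have c1 : (pc Λ x t₀ s).1 = t₀ + tl Λ x s := rfl
      have c2 : (pc Λ x t₀ s).2 = (Λ s x).1.2 := rfl
      obtain ⟨s', hs', h3, h4⟩ := hsep (Λ s x) (leafN_mem hB hR hκ hΛ hx s) _ _ h1 h2 (by
        rw [hqs, R_add hB, c1, c2, sub_add_cancel, add_sub_cancel]
        exact hw)
      refine ⟨s', hs', ?_⟩
      have h5 : Λ s' (Λ s x) = Λ (s + s') x := by
        rw [hΛ.add (LFN_contDiff hB hκ), add_comm]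
      have h6 := tl_add hB hκ hΛ x s s'
      rw [h5, c2, add_sub_cancel] at h4
      refine Prod.ext ?_ h4
      change t₀ + tl Λ x (s + s') = w.1
      rw [h6, h3, c1]
      ring
  refine ⟨|B| + 1, δ, fun q hq => ⟨?_, hleaf q hq⟩⟩
  have hj := npset_smooth hB q
  have hjc : Continuous fun w : ℝ × ℝ => ((R w.1 q, w.2) : E m × ℝ) := hj.continuous
  refine ⟨hR.closed.preimage hjc, hR.hM, by positivity, hδ, fun w hw => hR.bdd _ hw, ?_,
    h.prim.smooth.comp hj, ?_, ?_, ?_⟩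
  · intro w hw
    obtain ⟨W, u, hwW, hC⟩ := hR.loc (R w.1 q, w.2) hw
    have hud : ∀ y ∈ W, DifferentiableAt ℝ u y := fun y hy =>
      (hC.smooth.contDiffAt (hC.isOpen.mem_nhds hy)).differentiableAt (by simp)
    refine ⟨{w | ((R w.1 q, w.2) : E m × ℝ) ∈ W}, fun w => u (R w.1 q, w.2), hwW,
      hC.isOpen.preimage hjc, hC.smooth.comp hj.contDiffOn fun y hy => hy, fun y hy => ?_,
      fun y hy => ?_⟩
    · exact hC.eqn _ hy (hB.maps q hq y.1)
    · rw [npset_fd hB q y (hud _ hy), npset_fd hB q y (hud _ hy)]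
      exact hC.reg _ hy
  · intro y hy
    have e : fderiv ℝ (onP R F q) y (0, 1) = dpl V F (R y.1 q, y.2) 0 1 :=
      npset_fd hB q y (hFd _) 0 1
    rw [e]
    unfold dpl
    rw [zero_smul]
    have h1 := hBd (R y.1 q, y.2) ⟨hB.maps q hq y.1, abs_le.1 hy⟩
    rw [Real.norm_eq_abs] at h1
    linarith [le_abs_self B]
  · intro w hw W g hwW hg a b hab
    obtain ⟨φ, hφ⟩ := PSN_exists hB hR (y := (R w.1 q, w.2)) hw
    have hPC := pcN hΛ ((R w.1 q, w.2), φ) w.1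
    have hmem := pc_mem hB hR hκ hΛ hφ
    have hz : Λ 0 ((R w.1 q, w.2), φ) = ((R w.1 q, w.2), φ) := hΛ.zero _
    have hc0 : pc Λ ((R w.1 q, w.2), φ) w.1 0 = w := by
      unfold pc
      rw [tl_zero, add_zero, hz]
    have hd0 := hPC.deriv 0
    rw [hz] at hd0
    have hgd : DifferentiableAt ℝ g w :=
      (hg.smooth.contDiffAt (hg.isOpen.mem_nhds hwW)).differentiableAt (by simp)
    have h1 : HasDerivAt (fun s => g (pc Λ ((R w.1 q, w.2), φ) w.1 s))
        (fderiv ℝ g w (Real.cos φ, Real.sin φ)) 0 := by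
      have hgd' : HasFDerivAt g (fderiv ℝ g w) (pc Λ ((R w.1 q, w.2), φ) w.1 0) := by
        rw [hc0]; exact hgd.hasFDerivAt
      exact hgd'.comp_hasDerivAt 0 hd0
    have h2 : (fun s => g (pc Λ ((R w.1 q, w.2), φ) w.1 s)) =ᶠ[𝓝 0] fun _ => (0 : ℝ) := by
      have h3 : pc Λ ((R w.1 q, w.2), φ) w.1 ⁻¹' W ∈ 𝓝 (0 : ℝ) := by
        refine hd0.continuousAt.preimage_mem_nhds ?_
        rw [hc0]
        exact hg.isOpen.mem_nhds hwW
      filter_upwards [h3] with s hs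
      exact (hg.eqn _ hs).1 (hmem s)
    have h3 : fderiv ℝ g w (Real.cos φ, Real.sin φ) = 0 :=
      h1.unique ((hasDerivAt_const (0 : ℝ) (0 : ℝ)).congr_of_eventuallyEq h2)
    have hlin : ∀ (L : ℝ × ℝ →L[ℝ] ℝ) (a b : ℝ), L (a, b) = a * L (1, 0) + b * L (0, 1) := by
      intro L a b
      have e : ((a, b) : ℝ × ℝ) = a • ((1 : ℝ), (0 : ℝ)) + b • ((0 : ℝ), (1 : ℝ)) := by
        ext <;> simp
      conv_lhs => rw [e, map_add, map_smul, map_smul, smul_eq_mul, smul_eq_mul]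
    rw [hlin] at h3 hab
    have hsc := Real.sin_sq_add_cos_sq φ
    have hdet : a * Real.sin φ - b * Real.cos φ = 0 := by
      by_contra hne
      refine hg.reg w hwW ⟨?_, ?_⟩
      · have : (a * Real.sin φ - b * Real.cos φ) * fderiv ℝ g w (1, 0) = 0 := by
          linear_combination Real.sin φ * hab - b * h3
        exact (mul_eq_zero.1 this).resolve_left hne
      · have : (a * Real.sin φ - b * Real.cos φ) * fderiv ℝ g w (0, 1) = 0 := by
          linear_combination a * h3 - Real.cos φ * hab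
        exact (mul_eq_zero.1 this).resolve_left hne
    have hρa : a = (a * Real.cos φ + b * Real.sin φ) * Real.cos φ := by
      linear_combination (-a) * hsc + Real.sin φ * hdet
    have hρb : b = (a * Real.cos φ + b * Real.sin φ) * Real.sin φ := by
      linear_combination (-b) * hsc - Real.cos φ * hdet
    have h4 := h.prim.prim _ hφ
    have h5 : fderiv ℝ (onP R F q) w (a, b) = dpl V F (R w.1 q, w.2) a b :=
      npset_fd hB q w (hFd _) a b
    have h6 : dpl V F (R w.1 q, w.2) (Real.cos φ) (Real.sin φ) = w.2 * Real.cos φ := h4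
    rw [h5]
    rw [dpl_lin] at h6 ⊢
    linear_combination (a * Real.cos φ + b * Real.sin φ) * h6 +
      (dpl V F (R w.1 q, w.2) 1 0 - w.2) * hρa + dpl V F (R w.1 q, w.2) 0 1 * hρb
  · intro w hw
    obtain ⟨φ, hφ⟩ := PSN_exists hB hR (y := (R w.1 q, w.2)) hw
    refine ⟨_, _, hleaf q hq ((R w.1 q, w.2), φ) w.1 hφ rfl, ?_⟩
    unfold pc
    rw [tl_zero, add_zero, hΛ.zero]

end Pool.Agent.H2.TI
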