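import Pool.Agent.H2.TI.NPSet

/-!
# Points of the planar sections persist (module NPersist)

PROOF of `persist`. `x₀ = (R w₀.1 q₀, w₀.2) ∈ C`; local equation `u` on `W ∋ x₀` (`RedN.loc`). The planar function
`g (t, r) = u (R t q₀, r)` vanishes at `w₀` and its derivative at `w₀` is not zero (`LocN.reg`;
`Dg(w)(a, b) = dpl V u (R w.1 q₀, w.2) a b`, as `d/dt R t q = V (R t q)`). So there is a planar vector `ξ` with
`Dg(w₀) ξ > 0`, and for small `l > 0`: `g (w₀ + l ξ) > 0 > g (w₀ - l ξ)`, `‖l ξ‖ < ε`, and the whole segment from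
`w₀ - l ξ` to `w₀ + l ξ` is mapped into `W` by `w ↦ (R w.1 q₀, w.2)`. Fix such an `l`. For `q` near `q₀` the segment is
mapped into `W` by `w ↦ (R w.1 q, w.2)` (compact segment, `W` open, `R` jointly continuous) and the two signs are
the same. For `q ∈ N` near `q₀` the intermediate value theorem gives `w` on the segment with `u (R w.1 q, w.2) = 0`,
i.e. `(R w.1 q, w.2) ∈ C` (`R w.1 q ∈ N`), and `‖w - w₀‖ < ε`.
-/

set_option autoImplicit false

open scoped ContDiff Topology RealInnerProductSpace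
open Set Filter

namespace Pool.Agent.H2.TI

open Pool.Agent.H57.NL Pool.Agent.H2.TG

variable {m n : ℕ} {N : Set (E m)} {V : E m → E m} {R : ℝ → E m → E m} {C : Set (E m × ℝ)}
  {M : ℝ}

private lemma npersist_cont (hB : Base n N V R) (w₀ : ℝ × ℝ) (a b : ℝ) :
    Continuous fun z : E m × ℝ => ((R (w₀.1 + z.2 * a) z.1, w₀.2 + z.2 * b) : E m × ℝ) := by
  have h1 : Continuous fun y : ℝ × E m => R y.1 y.2 := hB.flow.smooth.continuous
  have h2 : Continuous fun z : E m × ℝ => ((w₀.1 + z.2 * a, z.1) : ℝ × E m) := by fun_prop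
  exact (h1.comp h2).prodMk (by fun_prop)

private lemma npersist_aux (hB : Base n N V R) {q₀ : E m} {w₀ : ℝ × ℝ} {W : Set (E m × ℝ)}
    {u : E m × ℝ → ℝ} (hW : (R w₀.1 q₀, w₀.2) ∈ W) (hu : LocN N V C W u)
    (h0 : u (R w₀.1 q₀, w₀.2) = 0) {a b : ℝ} (hab : ‖((a, b) : ℝ × ℝ)‖ ≤ 1)
    (hc : dpl V u (R w₀.1 q₀, w₀.2) a b ≠ 0) {ε : ℝ} (hε : 0 < ε) :
    ∀ᶠ q in 𝓝 q₀, q ∈ N → ∃ w ∈ Cq R C q, ‖w - w₀‖ < ε := by
  set c : ℝ := dpl V u (R w₀.1 q₀, w₀.2) a b with hcdef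
  set G : E m × ℝ → E m × ℝ := fun z => (R (w₀.1 + z.2 * a) z.1, w₀.2 + z.2 * b) with hG
  have hGc : Continuous G := npersist_cont hB w₀ a b
  have hG0 : G (q₀, 0) = (R w₀.1 q₀, w₀.2) := by
    simp [hG]
  have hcont : ∀ y ∈ W, ContinuousAt u y := fun y hy =>
    (hu.smooth.contDiffAt (hu.isOpen.mem_nhds hy)).continuousAt
  -- the derivative along the segment
  have hd : HasDerivAt (fun t : ℝ => u (G (q₀, t))) c 0 := by
    have h1 : HasDerivAt (fun t : ℝ => w₀.1 + t * a) a 0 := by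
      simpa using ((hasDerivAt_id (0 : ℝ)).mul_const a).const_add w₀.1
    have h2 : HasDerivAt (fun t : ℝ => w₀.2 + t * b) b 0 := by
      simpa using ((hasDerivAt_id (0 : ℝ)).mul_const b).const_add w₀.2
    have h3 : HasDerivAt (fun t : ℝ => R (w₀.1 + t * a) q₀)
        (a • V (R (w₀.1 + 0 * a) q₀)) 0 :=
      HasDerivAt.scomp (h := fun t : ℝ => w₀.1 + t * a) (g₁ := fun t => R t q₀) 0
        (hB.flow.deriv q₀ (w₀.1 + 0 * a)) h1
    have h4 : HasDerivAt (fun t : ℝ => G (q₀, t)) (a • V (R (w₀.1 + 0 * a) q₀), b) 0 :=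
      h3.prodMk h2
    have h5 : DifferentiableAt ℝ u (G (q₀, 0)) := by
      rw [hG0]
      exact (hu.smooth.contDiffAt (hu.isOpen.mem_nhds hW)).differentiableAt (by simp)
    have h6 := h5.hasFDerivAt.comp_hasDerivAt (0 : ℝ) h4
    have h7 : fderiv ℝ u (G (q₀, 0)) (a • V (R (w₀.1 + 0 * a) q₀), b) = c := by
      rw [hcdef, hG0, zero_mul, add_zero]
      rfl
    rw [h7] at h6
    exact h6
  have hz : u (G (q₀, 0)) = 0 := by rw [hG0, h0]
  have hcc : 0 < c * c := mul_self_pos.2 hc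
  have hs := hd.tendsto_slope
  have hev : ∀ᶠ t in 𝓝[≠] (0 : ℝ), 0 < c * slope (fun t : ℝ => u (G (q₀, t))) 0 t :=
    (hs.const_mul c).eventually (lt_mem_nhds hcc)
  rw [eventually_nhdsWithin_iff] at hev
  have hWev : ∀ᶠ t in 𝓝 (0 : ℝ), G (q₀, t) ∈ W := by
    have h1 : Continuous fun t : ℝ => G (q₀, t) := hGc.comp (by fun_prop)
    exact h1.continuousAt.eventually_mem (hu.isOpen.mem_nhds (by rw [hG0]; exact hW))
  obtain ⟨r, hr, hball⟩ := Metric.eventually_nhds_iff.1 (hev.and hWev)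
  obtain ⟨l, hl0, hlr⟩ : ∃ l : ℝ, 0 < l ∧ l < min r ε := by
    obtain ⟨l, h1, h2⟩ := exists_between (lt_min hr hε)
    exact ⟨l, h1, h2⟩
  have hlr' : l < r := hlr.trans_le (min_le_left _ _)
  have hlε : l < ε := hlr.trans_le (min_le_right _ _)
  have hin : ∀ t ∈ Icc (-l) l, G (q₀, t) ∈ W := fun t ht => by
    refine (hball (y := t) ?_).2
    rw [Real.dist_eq, sub_zero]
    exact (abs_le.2 ht).trans_lt hlr'
  have hslope : ∀ t : ℝ, |t| < r → t ≠ 0 → 0 < c * (t⁻¹ * u (G (q₀, t))) := fun t ht ht0 => by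
    have h1 := (hball (y := t) (by rwa [Real.dist_eq, sub_zero])).1 ht0
    rw [slope_def_field, hz, sub_zero, sub_zero, div_eq_inv_mul] at h1
    exact h1
  have hpos : 0 < c * u (G (q₀, l)) := by
    have h1 := hslope l (by rwa [abs_of_pos hl0]) hl0.ne'
    have h2 : c * u (G (q₀, l)) = l * (c * (l⁻¹ * u (G (q₀, l)))) := by
      field_simp
    rw [h2]
    exact mul_pos hl0 h1
  have hneg : c * u (G (q₀, -l)) < 0 := by
    have h1 := hslope (-l) (by rwa [abs_neg, abs_of_pos hl0]) (neg_ne_zero.2 hl0.ne')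
    have h2 : c * u (G (q₀, -l)) = -(l * (c * ((-l)⁻¹ * u (G (q₀, -l))))) := by
      rw [inv_neg]
      field_simp
    rw [h2]
    exact neg_neg_of_pos (mul_pos hl0 h1)
  -- the same near `q₀`
  have e1 : ∀ᶠ q in 𝓝 q₀, ∀ t ∈ Icc (-l) l, G (q, t) ∈ W := by
    refine isCompact_Icc.eventually_forall_of_forall_eventually fun t ht => ?_
    exact hGc.continuousAt.eventually_mem (hu.isOpen.mem_nhds (hin t ht))
  have hcq : ∀ t ∈ Icc (-l) l, ContinuousAt (fun q => c * u (G (q, t))) q₀ := fun t ht => by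
    have h1 : Continuous fun q : E m => G (q, t) := hGc.comp (by fun_prop)
    have h2 : ContinuousAt (fun q : E m => u (G (q, t))) q₀ :=
      ContinuousAt.comp (f := fun q : E m => G (q, t)) (g := u) (hcont _ (hin t ht))
        h1.continuousAt
    exact h2.const_mul c
  have hl1 : l ∈ Icc (-l) l := ⟨by linarith, le_rfl⟩
  have hl2 : -l ∈ Icc (-l) l := ⟨le_rfl, by linarith⟩
  have e2 : ∀ᶠ q in 𝓝 q₀, 0 < c * u (G (q, l)) := (hcq l hl1).eventually (lt_mem_nhds hpos)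
  have e3 : ∀ᶠ q in 𝓝 q₀, c * u (G (q, -l)) < 0 := (hcq (-l) hl2).eventually (gt_mem_nhds hneg)
  filter_upwards [e1, e2, e3] with q h1 h2 h3 hq
  have hct : ContinuousOn (fun t => c * u (G (q, t))) (Icc (-l) l) := fun t ht => by
    have h4 : Continuous fun t : ℝ => G (q, t) := hGc.comp (by fun_prop)
    have h5 : ContinuousAt (fun t : ℝ => u (G (q, t))) t :=
      ContinuousAt.comp (f := fun t : ℝ => G (q, t)) (g := u) (hcont _ (h1 t ht))
        h4.continuousAt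
    exact (h5.const_mul c).continuousWithinAt
  obtain ⟨t, ht, h4⟩ := intermediate_value_Icc (by linarith : -l ≤ l) hct
    (show (0 : ℝ) ∈ Icc (c * u (G (q, -l))) (c * u (G (q, l))) from ⟨h3.le, h2.le⟩)
  have h5 : u (G (q, t)) = 0 := (mul_eq_zero.1 h4).resolve_left hc
  refine ⟨(w₀.1 + t * a, w₀.2 + t * b), ?_, ?_⟩
  · exact (hu.eqn (G (q, t)) (h1 t ht) (hB.maps q hq _)).2 h5
  · have h6 : ((w₀.1 + t * a, w₀.2 + t * b) : ℝ × ℝ) - w₀ = t • ((a, b) : ℝ × ℝ) := by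
      ext <;> simp
    rw [h6, norm_smul, Real.norm_eq_abs]
    calc |t| * ‖((a, b) : ℝ × ℝ)‖ ≤ l * 1 :=
          mul_le_mul (abs_le.2 ht) hab (norm_nonneg _) hl0.le
      _ < ε := by rwa [mul_one]

theorem persist (hB : Base n N V R) (hR : RedN N V C M) {q₀ : E m} (hq₀ : q₀ ∈ N) {w₀ : ℝ × ℝ}
    (hw : w₀ ∈ Cq R C q₀) {ε : ℝ} (hε : 0 < ε) :
    ∀ᶠ q in 𝓝 q₀, q ∈ N → ∃ w ∈ Cq R C q, ‖w - w₀‖ < ε := by
  have hw' : (R w₀.1 q₀, w₀.2) ∈ C := hw
  obtain ⟨W, u, hW, hu⟩ := hR.loc _ hw'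
  have h0 : u (R w₀.1 q₀, w₀.2) = 0 := (hu.eqn _ hW (hB.maps q₀ hq₀ _)).1 hw'
  by_cases h1 : dpl V u (R w₀.1 q₀, w₀.2) 1 0 = 0
  · have h2 : dpl V u (R w₀.1 q₀, w₀.2) 0 1 ≠ 0 := fun h2 => hu.reg _ hW ⟨h1, h2⟩
    exact npersist_aux hB hW hu h0 (by simp [Prod.norm_def]) h2 hε
  · exact npersist_aux hB hW hu h0 (by simp [Prod.norm_def]) h1 hε

end Pool.Agent.H2.TI
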