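import Pool.Agent.H2.TI.PDefs
import Pool.Agent.H2.TG.Secant

/-!
# Lifts of the directions of secants (module PLiftE)

PROOFS.
* `exists_lift`: as in the proved file `H2/TG/Secant.lean` (proof of `secant`): `e s = exp (i φ s)`,
  `Q (s, t) = ∫_0^1 e (s + τ (t - s)) dτ`, continuous on `ℝ²`, `(t - s) Q (s, t) = γ t - γ s`, `Q (s, s) = e s`; `Q ≠ 0` for
  `s ≤ t` (`c` is injective). Retraction of `ℝ²` to `{s ≤ t}`: `R (s, t) = (min s t, t)`. `exists_arg` for `Q ∘ R` with
  `z₀ = (0, 0)`, `ω₀ = φ 0` gives `η`. Then `η (s, s) - φ s ∈ 2 π ℤ`, continuous in `s`, zero at `s = 0`: so it is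
  zero for all `s` (connectedness of `ℝ`). For `s < t`: `ρ = (t - s) ‖Q (s, t)‖`.
* `lift_unique`: for `s ≤ t` consider `u ↦ η (s, u) - η' (s, u)` on `[s, t]`: continuous, values in `2 π ℤ`
  (`sec` for both, at `u = s` both are `φ s`), zero at `u = s`.
* `lift_add`: immediate (`cos`, `sin` are `2 π` periodic).
* `lift_far`: if `(c s).1 < (c t).1` whenever `s + P ≤ t` then `cos (η (s, t)) > 0` there. The set
  `{(s, t) | s + P ≤ t}` is convex, so preconnected, `η` is continuous on it and `cos η > 0`: so `η - 2 π j` stays in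
  `(-π/2, π/2)` for one integer `j`.
-/

set_option autoImplicit false

open scoped Topology
open Set Real

namespace Pool.Agent.H2.TI

variable {c : ℝ → ℝ × ℝ} {φ : ℝ → ℝ} {η η' : ℝ × ℝ → ℝ}

private theorem plifte_abs {X : Type} [TopologicalSpace X] {S : Set X} (hS : IsPreconnected S)
    {h : X → ℝ} (hh : ContinuousOn h S) {r : ℝ} (hr : ∀ s ∈ S, |h s| ≠ r) {a b : X} (ha : a ∈ S)
    (hb : b ∈ S) (h0 : |h a| < r) : |h b| < r := by
  by_contra hcon
  push Not at hcon
  obtain ⟨u, hu, hu'⟩ := hS.intermediate_value ha hb hh.abs ⟨h0.le, hcon⟩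
  exact hr u hu hu'

private theorem plifte_zero {X : Type} [TopologicalSpace X] {S : Set X} (hS : IsPreconnected S)
    {h : X → ℝ} (hh : ContinuousOn h S) (hc : ∀ s ∈ S, cos (h s) = 1) {a b : X} (ha : a ∈ S)
    (hb : b ∈ S) (h0 : h a = 0) : h b = 0 := by
  have h1 : |h b| < π := by
    refine plifte_abs hS hh (fun s hs hs' => ?_) ha hb (by rw [h0, abs_zero]; exact pi_pos)
    have h2 := hc s hs
    rw [← Real.cos_abs, hs', Real.cos_pi] at h2
    norm_num at h2
  have h2 := abs_lt.1 h1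
  exact (Real.cos_eq_one_iff_of_lt_of_lt (by linarith [h2.1, pi_pos]) (by linarith [h2.2, pi_pos])).1
    (hc b hb)

private theorem plifte_lt {X : Type} [TopologicalSpace X] {S : Set X} (hS : IsPreconnected S)
    {h : X → ℝ} (hh : ContinuousOn h S) (hc : ∀ s ∈ S, 0 < cos (h s)) {a b : X} (ha : a ∈ S)
    (hb : b ∈ S) (h0 : |h a| < π / 2) : |h b| < π / 2 := by
  refine plifte_abs hS hh (fun s hs hs' => ?_) ha hb h0
  have h2 := hc s hs
  rw [← Real.cos_abs, hs', Real.cos_pi_div_two] at h2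
  exact lt_irrefl _ h2

private theorem plifte_cos {r r' a b : ℝ} (hr : 0 < r) (hr' : 0 < r')
    (h1 : r * cos a = r' * cos b) (h2 : r * sin a = r' * sin b) : cos (a - b) = 1 := by
  have e1 := Real.sin_sq_add_cos_sq a
  have e2 := Real.sin_sq_add_cos_sq b
  have h3 : r ^ 2 = r' ^ 2 := by
    calc r ^ 2 = (r * cos a) ^ 2 + (r * sin a) ^ 2 := by
          rw [mul_pow, mul_pow, ← mul_add, add_comm, e1, mul_one]
      _ = (r' * cos b) ^ 2 + (r' * sin b) ^ 2 := by rw [h1, h2]
      _ = r' ^ 2 := by rw [mul_pow, mul_pow, ← mul_add, add_comm, e2, mul_one]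
  have h4 : r = r' := by
    have h5 : (r - r') * (r + r') = 0 := by ring_nf; linarith
    rcases mul_eq_zero.1 h5 with h6 | h6
    · linarith
    · linarith
  subst h4
  have h5 : cos a = cos b := mul_left_cancel₀ hr.ne' h1
  have h6 : sin a = sin b := mul_left_cancel₀ hr.ne' h2
  rw [Real.cos_sub, h5, h6]
  nlinarith

theorem exists_lift (hc : PC c φ) (hi : Function.Injective c) : ∃ η, PLift c φ η := by
  have hφ : Continuous φ := hc.cont
  let e : ℝ → ℂ := fun s => Complex.exp (φ s * Complex.I)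
  let γ : ℝ → ℂ := fun s => ((c s).1 : ℂ) + (c s).2 * Complex.I
  have hec : Continuous e := by fun_prop
  have hα : ∀ s, HasDerivAt (fun s => (c s).1) (cos (φ s)) s := fun s =>
    (ContinuousLinearMap.fst ℝ ℝ ℝ).hasFDerivAt.comp_hasDerivAt s (hc.deriv s)
  have hρ : ∀ s, HasDerivAt (fun s => (c s).2) (sin (φ s)) s := fun s =>
    (ContinuousLinearMap.snd ℝ ℝ ℝ).hasFDerivAt.comp_hasDerivAt s (hc.deriv s)
  have hγ : ∀ s, HasDerivAt γ (e s) s := by
    intro s
    have h3 := (hα s).ofReal_comp.add ((hρ s).ofReal_comp.mul_const Complex.I)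
    refine h3.congr_deriv ?_
    show _ = Complex.exp (φ s * Complex.I)
    rw [Complex.exp_mul_I, Complex.ofReal_cos, Complex.ofReal_sin]
  let Q : ℝ × ℝ → ℂ := fun z => ∫ τ in (0 : ℝ)..1, e (z.1 + τ * (z.2 - z.1))
  have hQc : Continuous Q := by
    refine intervalIntegral.continuous_parametric_intervalIntegral_of_continuous'
      (f := fun (z : ℝ × ℝ) τ => e (z.1 + τ * (z.2 - z.1))) ?_ 0 1
    show Continuous fun w : (ℝ × ℝ) × ℝ => e (w.1.1 + w.2 * (w.1.2 - w.1.1))
    fun_prop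
  have hQd : ∀ s, Q (s, s) = e s := by
    intro s
    show (∫ τ in (0 : ℝ)..1, e (s + τ * (s - s))) = e s
    simp
  have hQm : ∀ s t : ℝ, ((t - s : ℝ) : ℂ) * Q (s, t) = γ t - γ s := by
    intro s t
    have h3 : ∀ τ : ℝ, HasDerivAt (fun τ : ℝ => γ (s + τ * (t - s)))
        (((t - s : ℝ) : ℂ) * e (s + τ * (t - s))) τ := by
      intro τ
      have h4 : HasDerivAt (fun τ : ℝ => s + τ * (t - s)) (t - s) τ := by
        simpa using ((hasDerivAt_id τ).mul_const (t - s)).const_add s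
      have h5 := (hγ (s + τ * (t - s))).scomp τ h4
      refine h5.congr_deriv ?_
      rw [Complex.real_smul]
    have h6 := intervalIntegral.integral_eq_sub_of_hasDerivAt (a := (0 : ℝ)) (b := 1)
      (fun τ _ => h3 τ) (Continuous.intervalIntegrable (by fun_prop) _ _)
    rw [intervalIntegral.integral_const_mul] at h6
    show ((t - s : ℝ) : ℂ) * (∫ τ in (0 : ℝ)..1, e (s + τ * (t - s))) = _
    rw [h6]
    congr 2 <;> ring
  have hre : ∀ s t : ℝ, (t - s) * (Q (s, t)).re = (c t).1 - (c s).1 := by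
    intro s t
    have h3 := congrArg Complex.re (hQm s t)
    rw [Complex.re_ofReal_mul] at h3
    rw [h3]
    simp [γ]
  have him : ∀ s t : ℝ, (t - s) * (Q (s, t)).im = (c t).2 - (c s).2 := by
    intro s t
    have h3 := congrArg Complex.im (hQm s t)
    rw [Complex.im_ofReal_mul] at h3
    rw [h3]
    simp [γ]
  have hQ0 : ∀ s t : ℝ, s ≤ t → Q (s, t) ≠ 0 := by
    intro s t hst hQ
    rcases hst.eq_or_lt with rfl | hlt
    · rw [hQd] at hQ
      exact Complex.exp_ne_zero _ hQ
    · have h5 := hre s t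
      have h6 := him s t
      rw [hQ, Complex.zero_re, mul_zero] at h5
      rw [hQ, Complex.zero_im, mul_zero] at h6
      have h7 : c s = c t := Prod.ext (by linarith) (by linarith)
      exact hlt.ne (hi h7)
  let R : ℝ × ℝ → ℝ × ℝ := fun z => (min z.1 z.2, z.2)
  have hRc : Continuous R := by fun_prop
  have hR : ∀ s t : ℝ, s ≤ t → R (s, t) = (s, t) := by
    intro s t hst
    show (min s t, t) = (s, t)
    rw [min_eq_left hst]
  have hQR0 : ∀ z, Q (R z) ≠ 0 := fun z => hQ0 _ _ (min_le_right _ _)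
  have he1 : ∀ s, ‖e s‖ = 1 := fun s => Complex.norm_exp_ofReal_mul_I _
  obtain ⟨η, hηc, hη0, hη⟩ := TG.exists_arg (Q := fun z => Q (R z)) (hQc.comp hRc) hQR0
    (ω₀ := φ 0) (z₀ := (0, 0)) (by
      show Q (R (0, 0)) = ‖Q (R (0, 0))‖ * Complex.exp ((φ 0 : ℂ) * Complex.I)
      rw [hR 0 0 le_rfl, hQd, he1, Complex.ofReal_one, one_mul])
  have hη' : ∀ s t : ℝ, s ≤ t → Q (s, t) = ‖Q (s, t)‖ * Complex.exp (η (s, t) * Complex.I) := by
    intro s t hst
    have h3 : Q (R (s, t)) = ‖Q (R (s, t))‖ * Complex.exp (η (s, t) * Complex.I) := hη (s, t)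
    rwa [hR s t hst] at h3
  refine ⟨η, hηc, fun s => ?_, fun s t hst => ?_⟩
  · have hd : ∀ s ∈ (univ : Set ℝ), cos (η (s, s) - φ s) = 1 := by
      intro s _
      have h3 := hη' s s le_rfl
      rw [hQd, he1, Complex.ofReal_one, one_mul] at h3
      have h5 : Complex.exp (((η (s, s) - φ s : ℝ) : ℂ) * Complex.I) = 1 := by
        rw [Complex.ofReal_sub, sub_mul, Complex.exp_sub, ← h3]
        exact div_self (Complex.exp_ne_zero _)
      have h6 := congrArg Complex.re h5
      rwa [Complex.exp_ofReal_mul_I_re, Complex.one_re] at h6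
    have hcont : Continuous fun s => η (s, s) - φ s := by fun_prop
    have h3 := plifte_zero isPreconnected_univ hcont.continuousOn hd (mem_univ 0) (mem_univ s)
      (by rw [hη0, sub_self])
    linarith
  · have hQ1 := hQ0 s t hst.le
    refine ⟨(t - s) * ‖Q (s, t)‖, mul_pos (sub_pos.2 hst) (norm_pos_iff.2 hQ1), ?_⟩
    have h3 := hη' s t hst.le
    have h4 := hre s t
    have h5 := him s t
    have h6 : (Q (s, t)).re = ‖Q (s, t)‖ * cos (η (s, t)) := by
      conv_lhs => rw [h3]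
      rw [Complex.re_ofReal_mul, Complex.exp_ofReal_mul_I_re]
    have h7 : (Q (s, t)).im = ‖Q (s, t)‖ * sin (η (s, t)) := by
      conv_lhs => rw [h3]
      rw [Complex.im_ofReal_mul, Complex.exp_ofReal_mul_I_im]
    rw [h6] at h4
    rw [h7] at h5
    refine Prod.ext ?_ ?_
    · show (c t).1 - (c s).1 = (t - s) * ‖Q (s, t)‖ * cos (η (s, t))
      rw [← h4]
      ring
    · show (c t).2 - (c s).2 = (t - s) * ‖Q (s, t)‖ * sin (η (s, t))
      rw [← h5]
      ring

theorem lift_unique (h : PLift c φ η) (h' : PLift c φ η') {s t : ℝ} (hst : s ≤ t) :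
    η (s, t) = η' (s, t) := by
  have h1 : Continuous fun u : ℝ => η (s, u) - η' (s, u) := by
    have h2 := h.cont
    have h3 := h'.cont
    fun_prop
  have h2 : ∀ u ∈ Icc s t, cos (η (s, u) - η' (s, u)) = 1 := by
    intro u hu
    rcases hu.1.eq_or_lt with rfl | hlt
    · rw [h.diag, h'.diag, sub_self, Real.cos_zero]
    · obtain ⟨r, hr, hr'⟩ := h.sec s u hlt
      obtain ⟨q, hq, hq'⟩ := h'.sec s u hlt
      rw [hr'] at hq'
      have h3 := congrArg Prod.fst hq'
      have h4 := congrArg Prod.snd hq'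
      exact plifte_cos hr hq h3 h4
  have h3 : η (s, t) - η' (s, t) = 0 :=
    plifte_zero isPreconnected_Icc h1.continuousOn h2 (a := s) (b := t) ⟨le_rfl, hst⟩
    ⟨hst, le_rfl⟩ (by
      show η (s, s) - η' (s, s) = 0
      rw [h.diag, h'.diag, sub_self])
  linarith

theorem lift_add (h : PLift c φ η) (k : ℤ) :
    PLift c (fun s => φ s + 2 * k * π) (fun z => η z + 2 * k * π) := by
  refine ⟨h.cont.add continuous_const, fun s => ?_, fun s t hst => ?_⟩
  · show η (s, s) + 2 * k * π = φ s + 2 * k * π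
    rw [h.diag]
  · obtain ⟨r, hr, hr'⟩ := h.sec s t hst
    refine ⟨r, hr, ?_⟩
    have h1 : η (s, t) + 2 * k * π = η (s, t) + k * (2 * π) := by ring
    show c t - c s = (r * cos (η (s, t) + 2 * k * π), r * sin (η (s, t) + 2 * k * π))
    rw [h1, Real.cos_add_int_mul_two_pi, Real.sin_add_int_mul_two_pi]
    exact hr'

theorem lift_far (h : PLift c φ η) {P : ℝ} (hP : 0 < P)
    (hfar : ∀ s t, s + P ≤ t → (c s).1 < (c t).1) :
    ∃ j : ℤ, ∀ s t, s + P ≤ t → |η (s, t) - 2 * j * π| < π / 2 := by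
  have hpi := pi_pos
  set S : Set (ℝ × ℝ) := {z | z.1 + P ≤ z.2} with hS
  have hSc : Convex ℝ S := by
    intro x hx y hy a b ha hb hab
    have h1 : x.1 + P ≤ x.2 := hx
    have h2 : y.1 + P ≤ y.2 := hy
    show a * x.1 + b * y.1 + P ≤ a * x.2 + b * y.2
    have h3 := mul_le_mul_of_nonneg_left h1 ha
    have h4 := mul_le_mul_of_nonneg_left h2 hb
    have h5 : P = a * P + b * P := by rw [← add_mul, hab, one_mul]
    rw [h5]
    linarith
  have hcos : ∀ z ∈ S, 0 < cos (η z) := by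
    intro z hz
    have h1 : z.1 + P ≤ z.2 := hz
    obtain ⟨r, hr, hr'⟩ := h.sec z.1 z.2 (by linarith)
    have h2 : (c z.2).1 - (c z.1).1 = r * cos (η z) := congrArg Prod.fst hr'
    have h3 := hfar z.1 z.2 h1
    have h4 : 0 < r * cos (η z) := by linarith
    exact (mul_pos_iff_of_pos_left hr).1 h4
  have hz0 : ((0 : ℝ), P) ∈ S := by
    show (0 : ℝ) + P ≤ P
    rw [zero_add]
  set j : ℤ := round (η (0, P) / (2 * π)) with hj
  have hj1 : |η (0, P) - 2 * j * π| ≤ π := by
    have h1 := abs_sub_round (η (0, P) / (2 * π))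
    have h2 : η (0, P) - 2 * j * π = (η (0, P) / (2 * π) - j) * (2 * π) := by
      field_simp
    rw [h2, abs_mul, abs_of_pos (by positivity : (0 : ℝ) < 2 * π)]
    calc |η (0, P) / (2 * π) - j| * (2 * π) ≤ 1 / 2 * (2 * π) :=
          mul_le_mul_of_nonneg_right h1 (by positivity)
      _ = π := by ring
  have hcos' : ∀ z ∈ S, 0 < cos (η z - 2 * j * π) := by
    intro z hz
    have h1 : η z - 2 * j * π = η z - j * (2 * π) := by ring
    rw [h1, Real.cos_sub_int_mul_two_pi]
    exact hcos z hz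
  have hj2 : |η (0, P) - 2 * j * π| < π / 2 := by
    by_contra hcon
    push Not at hcon
    have h1 := hcos' _ hz0
    rw [← Real.cos_abs] at h1
    have h2 := Real.cos_nonpos_of_pi_div_two_le_of_le hcon (by linarith)
    linarith
  have hcont : Continuous fun z => η z - 2 * j * π := h.cont.sub continuous_const
  refine ⟨j, fun s t hst => ?_⟩
  exact plifte_lt hSc.isPreconnected hcont.continuousOn hcos' hz0 (show (s, t) ∈ S from hst) hj2

end Pool.Agent.H2.TI
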