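import Pool.Agent.H2.TI.PLiftE

/-!
# The phase at almost highest and almost lowest points (module PTopL)

PROOF of `top_small`. Let `a = c s₀`, `ψ = φ s₀`.
(1) Slope: `|sin ψ| ≤ ε |cos ψ|`: the function `s ↦ ε |(c s).1 - a.1| + k ((c s).1 - a.1)² - ((c s).2 - a.2)` is `≥ 0`, zero
at `s₀`; `(c (s₀ + h)).1 - a.1 = h cos ψ + o(h)`, `(c (s₀ + h)).2 - a.2 = h sin ψ + o(h)`; divide by `|h|`, `h → 0` from
both sides. So `cos ψ ≠ 0` (otherwise `sin ψ = 0` too).
(2) For `t > s₀`: the direction of `c t - a` is not `(0, 1)`: if `(c t).1 = a.1` then `(c t).2 ≤ a.2` by the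
hypothesis. So `η (s₀, t) ∉ π/2 + 2 π ℤ` (`PLift.sec`), and also for `t = s₀` (`cos ψ ≠ 0`). Since
`|η (s₀, s₀ + P)| < π/2` and `t ↦ η (s₀, t)` is continuous on `[s₀, s₀ + P]` and avoids `π/2` and `-3π/2`:
`ψ = η (s₀, s₀) ∈ (-3π/2, π/2)`.
(3) For `s < s₀`: the direction of `a - c s` is not `(0, -1)`: if `(c s).1 = a.1` then `(c s).2 ≤ a.2`, so
`a.2 - (c s).2 ≥ 0`. So `η (s, s₀)` avoids `-π/2` and `3π/2`, and `|η (s₀ - P, s₀)| < π/2`: `ψ ∈ (-π/2, 3π/2)`.
(4) So `|ψ| < π/2`, `cos ψ > 0`, `|tan ψ| ≤ ε`, so `|ψ| ≤ ε` (`|ψ| ≤ |tan ψ|` for `|ψ| < π/2`).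
`bot_small`: apply `top_small` to the reflected curve `s ↦ ((c s).1, -(c s).2)`, phase `-φ`, lift `-η`.
-/

set_option autoImplicit false

open scoped Topology
open Set Real

namespace Pool.Agent.H2.TI

variable {c : ℝ → ℝ × ℝ} {φ : ℝ → ℝ} {η : ℝ × ℝ → ℝ} {ε k P s₀ : ℝ}

private theorem ptopl_fst (hc : PC c φ) (s : ℝ) : HasDerivAt (fun s => (c s).1) (cos (φ s)) s :=
  (ContinuousLinearMap.fst ℝ ℝ ℝ).hasFDerivAt.comp_hasDerivAt s (hc.deriv s)

private theorem ptopl_snd (hc : PC c φ) (s : ℝ) : HasDerivAt (fun s => (c s).2) (sin (φ s)) s :=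
  (ContinuousLinearMap.snd ℝ ℝ ℝ).hasFDerivAt.comp_hasDerivAt s (hc.deriv s)

/-- The slope at an almost highest point. -/
private theorem ptopl_slope (hc : PC c φ)
    (htop : ∀ s, (c s).2 ≤ (c s₀).2 + ε * |(c s).1 - (c s₀).1| + k * ((c s).1 - (c s₀).1) ^ 2) :
    |sin (φ s₀)| ≤ ε * |cos (φ s₀)| := by
  have hx := (ptopl_fst hc s₀).tendsto_slope
  have hy := (ptopl_snd hc s₀).tendsto_slope
  have hxc : Filter.Tendsto (fun s => (c s).1 - (c s₀).1) (𝓝[≠] s₀) (𝓝 0) := by
    have h1 : Filter.Tendsto (fun s => (c s).1) (𝓝[≠] s₀) (𝓝 (c s₀).1) :=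
      ((ptopl_fst hc s₀).continuousAt.tendsto).mono_left nhdsWithin_le_nhds
    have h2 := h1.sub_const (c s₀).1
    rwa [sub_self] at h2
  have hsl : ∀ f : ℝ → ℝ, ∀ s, slope f s₀ s = (f s - f s₀) / (s - s₀) := fun f s => by
    rw [slope_def_field]
  rw [abs_le]
  constructor
  · -- from the left
    have h1 : Filter.Tendsto (fun s => -slope (fun s => (c s).2) s₀ s) (𝓝[<] s₀)
        (𝓝 (-sin (φ s₀))) := (hy.mono_left (nhdsWithin_mono _ fun s hs => ne_of_lt hs)).neg
    have h2 : Filter.Tendsto (fun s => ε * |slope (fun s => (c s).1) s₀ s|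
        - k * (slope (fun s => (c s).1) s₀ s * ((c s).1 - (c s₀).1))) (𝓝[<] s₀)
        (𝓝 (ε * |cos (φ s₀)| - k * (cos (φ s₀) * 0))) := by
      have h3 := (hx.abs.const_mul ε).sub ((hx.mul hxc).const_mul k)
      exact h3.mono_left (nhdsWithin_mono _ fun s hs => ne_of_lt hs)
    have h3 := le_of_tendsto_of_tendsto h1 h2 (by
      filter_upwards [self_mem_nhdsWithin] with s hs
      have hs' : s < s₀ := hs
      have hd : 0 < s₀ - s := sub_pos.2 hs'
      have e1 : s - s₀ = -(s₀ - s) := by ring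
      have h4 := htop s
      rw [hsl, hsl, abs_div, e1, abs_neg, abs_of_pos hd, div_neg, neg_neg, div_neg]
      have h5 : ((c s).2 - (c s₀).2) / (s₀ - s)
          ≤ (ε * |(c s).1 - (c s₀).1| + k * ((c s).1 - (c s₀).1) ^ 2) / (s₀ - s) :=
        div_le_div_of_nonneg_right (by linarith) hd.le
      refine h5.trans (le_of_eq ?_)
      field_simp
      ring)
    rw [mul_zero, mul_zero, sub_zero] at h3
    linarith
  · have h1 : Filter.Tendsto (fun s => slope (fun s => (c s).2) s₀ s) (𝓝[>] s₀)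
        (𝓝 (sin (φ s₀))) := hy.mono_left (nhdsWithin_mono _ fun s hs => ne_of_gt hs)
    have h2 : Filter.Tendsto (fun s => ε * |slope (fun s => (c s).1) s₀ s|
        + k * (slope (fun s => (c s).1) s₀ s * ((c s).1 - (c s₀).1))) (𝓝[>] s₀)
        (𝓝 (ε * |cos (φ s₀)| + k * (cos (φ s₀) * 0))) := by
      have h3 := (hx.abs.const_mul ε).add ((hx.mul hxc).const_mul k)
      exact h3.mono_left (nhdsWithin_mono _ fun s hs => ne_of_gt hs)
    have h3 := le_of_tendsto_of_tendsto h1 h2 (by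
      filter_upwards [self_mem_nhdsWithin] with s hs
      have hs' : s₀ < s := hs
      have hd : 0 < s - s₀ := sub_pos.2 hs'
      have h4 := htop s
      rw [hsl, hsl, abs_div, abs_of_pos hd]
      have h5 : ((c s).2 - (c s₀).2) / (s - s₀)
          ≤ (ε * |(c s).1 - (c s₀).1| + k * ((c s).1 - (c s₀).1) ^ 2) / (s - s₀) :=
        div_le_div_of_nonneg_right (by linarith) hd.le
      refine h5.trans (le_of_eq ?_)
      field_simp)
    rw [mul_zero, mul_zero, add_zero] at h3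
    exact h3

private theorem ptopl_abs_le {x ε : ℝ} (h1 : |x| < π / 2) (h2 : |sin x| ≤ ε * |cos x|) :
    |x| ≤ ε := by
  have h3 := abs_lt.1 h1
  have hc : 0 < cos x := Real.cos_pos_of_mem_Ioo ⟨by linarith [h3.1], h3.2⟩
  rw [abs_of_pos hc] at h2
  have h4 : |sin x| / cos x ≤ ε := by rwa [div_le_iff₀ hc]
  rcases eq_or_ne x 0 with rfl | hx
  · rw [abs_zero]
    rw [Real.sin_zero, abs_zero, zero_div] at h4
    exact h4
  · have h5 := Real.lt_tan (abs_pos.2 hx) h1
    rw [Real.tan_eq_sin_div_cos, Real.cos_abs] at h5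
    have h6 : sin |x| ≤ |sin x| := by
      rcases abs_choice x with h7 | h7
      · rw [h7]
        exact le_abs_self _
      · rw [h7, Real.sin_neg]
        exact neg_le_abs _
    have h7 : sin |x| / cos x ≤ |sin x| / cos x := div_le_div_of_nonneg_right h6 hc.le
    linarith

theorem top_small (hc : PC c φ) (hi : Function.Injective c) (h : PLift c φ η) (hP : 0 < P)
    (hfar : ∀ s t, s + P ≤ t → |η (s, t)| < π / 2) (hε : 0 < ε) (hk : 0 ≤ k)
    (htop : ∀ s, (c s).2 ≤ (c s₀).2 + ε * |(c s).1 - (c s₀).1| + k * ((c s).1 - (c s₀).1) ^ 2) :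
    |φ s₀| ≤ ε := by
  have hsl := ptopl_slope hc htop
  have hcz : cos (φ s₀) ≠ 0 := by
    intro h0
    rw [h0, abs_zero, mul_zero] at hsl
    have h1 : sin (φ s₀) = 0 := abs_eq_zero.1 (le_antisymm hsl (abs_nonneg _))
    have h2 := Real.sin_sq_add_cos_sq (φ s₀)
    rw [h0, h1] at h2
    norm_num at h2
  have hηc := h.cont
  have hup : φ s₀ < π / 2 := by
    by_contra hcon
    push Not at hcon
    have hcont : Continuous fun t : ℝ => η (s₀, t) := by fun_prop
    have h1 := hfar s₀ (s₀ + P) le_rfl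
    obtain ⟨t, ht, ht'⟩ := intermediate_value_Icc' (by linarith : s₀ ≤ s₀ + P)
      hcont.continuousOn (show π / 2 ∈ Icc (η (s₀, s₀ + P)) (η (s₀, s₀)) from
        ⟨(abs_lt.1 h1).2.le, by rw [h.diag]; exact hcon⟩)
    have ht'' : η (s₀, t) = π / 2 := ht'
    rcases ht.1.eq_or_lt with rfl | hlt
    · rw [h.diag] at ht''
      rw [ht'', Real.cos_pi_div_two] at hcz
      exact hcz rfl
    · obtain ⟨r, hr, hr'⟩ := h.sec s₀ t hlt
      rw [ht'', Real.cos_pi_div_two, Real.sin_pi_div_two, mul_zero, mul_one] at hr'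
      have e1 : (c t).1 - (c s₀).1 = 0 := congrArg Prod.fst hr'
      have e2 : (c t).2 - (c s₀).2 = r := congrArg Prod.snd hr'
      have h2 := htop t
      rw [e1, abs_zero, mul_zero] at h2
      norm_num at h2
      linarith
  have hdn : -(π / 2) < φ s₀ := by
    by_contra hcon
    push Not at hcon
    have hcont : Continuous fun s : ℝ => η (s, s₀) := by fun_prop
    have h1 := hfar (s₀ - P) s₀ (by linarith)
    obtain ⟨t, ht, ht'⟩ := intermediate_value_Icc' (by linarith : s₀ - P ≤ s₀)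
      hcont.continuousOn (show -(π / 2) ∈ Icc (η (s₀, s₀)) (η (s₀ - P, s₀)) from
        ⟨by rw [h.diag]; exact hcon, (abs_lt.1 h1).1.le⟩)
    have ht'' : η (t, s₀) = -(π / 2) := ht'
    rcases ht.2.eq_or_lt with rfl | hlt
    · rw [h.diag] at ht''
      rw [ht'', Real.cos_neg, Real.cos_pi_div_two] at hcz
      exact hcz rfl
    · obtain ⟨r, hr, hr'⟩ := h.sec t s₀ hlt
      rw [ht'', Real.cos_neg, Real.sin_neg, Real.cos_pi_div_two, Real.sin_pi_div_two, mul_zero,
        mul_neg, mul_one] at hr'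
      have e1 : (c s₀).1 - (c t).1 = 0 := congrArg Prod.fst hr'
      have e2 : (c s₀).2 - (c t).2 = -r := congrArg Prod.snd hr'
      have e3 : (c t).1 - (c s₀).1 = 0 := by linarith
      have h2 := htop t
      rw [e3, abs_zero, mul_zero] at h2
      norm_num at h2
      linarith
  exact ptopl_abs_le (abs_lt.2 ⟨hdn, hup⟩) hsl

theorem bot_small (hc : PC c φ) (hi : Function.Injective c) (h : PLift c φ η) (hP : 0 < P)
    (hfar : ∀ s t, s + P ≤ t → |η (s, t)| < π / 2) (hε : 0 < ε) (hk : 0 ≤ k)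
    (hbot : ∀ s, (c s₀).2 - ε * |(c s).1 - (c s₀).1| - k * ((c s).1 - (c s₀).1) ^ 2 ≤ (c s).2) :
    |φ s₀| ≤ ε := by
  have hc' : PC (fun s => ((c s).1, -(c s).2)) (fun s => -φ s) := by
    refine ⟨fun s => ?_, hc.cont.neg⟩
    rw [Real.cos_neg, Real.sin_neg]
    exact (ptopl_fst hc s).prodMk (ptopl_snd hc s).neg
  have hi' : Function.Injective fun s => ((c s).1, -(c s).2) := by
    intro s t hst
    have h1 : ((c s).1, -(c s).2) = ((c t).1, -(c t).2) := hst
    rw [Prod.mk.injEq] at h1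
    exact hi (Prod.ext h1.1 (neg_injective h1.2))
  have h' : PLift (fun s => ((c s).1, -(c s).2)) (fun s => -φ s) (fun z => -η z) := by
    refine ⟨h.cont.neg, fun s => ?_, fun s t hst => ?_⟩
    · show -η (s, s) = -φ s
      rw [h.diag]
    · obtain ⟨r, hr, hr'⟩ := h.sec s t hst
      refine ⟨r, hr, ?_⟩
      have e1 : (c t).1 - (c s).1 = r * cos (η (s, t)) := congrArg Prod.fst hr'
      have e2 : (c t).2 - (c s).2 = r * sin (η (s, t)) := congrArg Prod.snd hr'
      show ((c t).1, -(c t).2) - ((c s).1, -(c s).2)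
        = (r * cos (-η (s, t)), r * sin (-η (s, t)))
      rw [Real.cos_neg, Real.sin_neg]
      refine Prod.ext ?_ ?_
      · show (c t).1 - (c s).1 = r * cos (η (s, t))
        exact e1
      · show -(c t).2 - -(c s).2 = r * -sin (η (s, t))
        linarith
  have h1 := top_small (s₀ := s₀) (k := k) hc' hi' h' hP (fun s t hst => by
    show |-η (s, t)| < π / 2
    rw [abs_neg]
    exact hfar s t hst) hε hk (fun s => by
    show -(c s).2 ≤ -(c s₀).2 + ε * |(c s).1 - (c s₀).1| + k * ((c s).1 - (c s₀).1) ^ 2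
    have h2 := hbot s
    linarith)
  have h2 : |-φ s₀| ≤ ε := h1
  rwa [abs_neg] at h2

end Pool.Agent.H2.TI
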