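import Pool.Agent.H2.TI.NRPa
import Pool.Agent.H2.TI.NPersist
import Pool.Agent.H2.TI.PTopL

/-!
# Almost highest and almost lowest points (module NTop)

PROOFS. `ε = 1/20`, `k = ε² / (8 M)`.
* `top_phase`: `top_small` with `c = pc Λ (y, φ) 0`, `s₀ = 0`, `c 0 = (0, y.2)`, the lift and `P` of `RP_lift`; the
  hypothesis `htop` is `TopN` for the points `c s ∈ Cq R C y.1` (`pc_mem` with `w = (0, y.2)`; `R 0 y.1 = y.1`).
  `bot_phase`: `bot_small`.
* `TopN_closed`: `y_k → y`, `y_k ∈ TopN`: `y ∈ C`. Let `w ∈ Cq R C y.1`. By `persist` there are `w_k ∈ Cq R C y_k.1` with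
  `w_k → w` (for `k` large; `y_k.1 ∈ N`); pass to the limit in the inequality for `w_k`. (Formulate with
  neighbourhoods: if the inequality fails at `w`, it fails for all `(y', w')` near `(y, w)`, so all `y' ∈ C` near `y`
  are not in `TopN`.) `BotN_closed`: the same.
* `ZUp_closed`: `ZUp` is the projection of the closed set
  `{(y, t, r) | (R t y.1, r) ∈ TopN, r + |t| ≤ y.2}`; over a bounded set of `y` the parameters `t, r` are bounded
  (`|r| < M`, `|t| ≤ y.2 + M`): sequences and compactness, or `IsCompact` projections.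
* `ZUp_C`: let `y ∈ C`, `(R t y.1, r) ∈ TopN`, `r + |t| ≤ y.2`. The point `(-t, y.2)` is in `Cq R C (R t y.1)`
  (`R (-t) (R t y.1) = y.1`), so `y.2 ≤ r + ε |t| + k t²`. So `|t| ≤ ε |t| + k t²`: `t = 0` or `|t| ≥ (1 - ε) / k`. In the
  second case `y.2 ≥ r + |t| > -M + (1 - ε) 8 M / ε² > M`: contradiction. So `t = 0`, `y.2 = r`, `(y.1, y.2) ∈ TopN`.
-/

set_option autoImplicit false

open scoped ContDiff Topology RealInnerProductSpace
open Set Filter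

namespace Pool.Agent.H2.TI

open Pool.Agent.H57.NL Pool.Agent.H2.TG

variable {m n : ℕ} {N : Set (E m)} {V : E m → E m} {R : ℝ → E m → E m} {C : Set (E m × ℝ)}
  {M : ℝ} {κ : (E m × ℝ) × ℝ → ℝ} {Λ : ℝ → (E m × ℝ) × ℝ → (E m × ℝ) × ℝ} {F : E m × ℝ → ℝ}

/-- Data of the leaf through a good phase. -/
private theorem ntop_data (h : LeafN n N V R C M κ Λ F) {y : E m × ℝ} {φ : ℝ}
    (hx : (y, φ) ∈ RPN N V C Λ) :
    (∀ s, pc Λ (y, φ) 0 s ∈ Cq R C y.1) ∧ pc Λ (y, φ) 0 0 = (0, y.2) ∧ (Λ 0 (y, φ)).2 = φ := by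
  have h0 : Λ 0 (y, φ) = (y, φ) := h.flow.zero _
  refine ⟨fun s => ?_, ?_, by rw [h0]⟩
  · have h1 : ((R ((0 : ℝ), y.2).1 y.1, ((0 : ℝ), y.2).2), φ) = (y, φ) := by
      show ((R 0 y.1, y.2), φ) = (y, φ)
      rw [R_zero h.base]
    have h2 := pc_mem h.base h.red h.curv h.flow (q := y.1) (w := ((0 : ℝ), y.2)) (φ := φ)
      (by rw [h1]; exact hx.1) s
    rw [h1] at h2
    exact h2
  · show ((0 : ℝ) + tl Λ (y, φ) 0, (Λ 0 (y, φ)).1.2) = (0, y.2)
    rw [tl_zero, h0, add_zero]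

theorem top_phase (h : LeafN n N V R C M κ Λ F) {y : E m × ℝ} {φ : ℝ}
    (hx : (y, φ) ∈ RPN N V C Λ) (hy : y ∈ TopN R C M) : |φ| ≤ 1 / 20 := by
  obtain ⟨hmem, h00, hφ⟩ := ntop_data h hx
  obtain ⟨P, hP, hP2⟩ := RP_lift h
  obtain ⟨⟨η, hη, hfar⟩, -⟩ := hP2 _ hx
  have hM := h.red.hM
  have h1 := top_small (s₀ := 0) (ε := 1 / 20) (k := (1 / 20) ^ 2 / (8 * M)) (pcN h.flow (y, φ) 0)
    (leafN_inj h hx.1) hη hP hfar (by norm_num) (by positivity) (fun s => by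
      have h2 := hy.2 _ (hmem s)
      rw [h00]
      simpa using h2)
  rwa [hφ] at h1

theorem bot_phase (h : LeafN n N V R C M κ Λ F) {y : E m × ℝ} {φ : ℝ}
    (hx : (y, φ) ∈ RPN N V C Λ) (hy : y ∈ BotN R C M) : |φ| ≤ 1 / 20 := by
  obtain ⟨hmem, h00, hφ⟩ := ntop_data h hx
  obtain ⟨P, hP, hP2⟩ := RP_lift h
  obtain ⟨⟨η, hη, hfar⟩, -⟩ := hP2 _ hx
  have hM := h.red.hM
  have h1 := bot_small (s₀ := 0) (ε := 1 / 20) (k := (1 / 20) ^ 2 / (8 * M)) (pcN h.flow (y, φ) 0)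
    (leafN_inj h hx.1) hη hP hfar (by norm_num) (by positivity) (fun s => by
      have h2 := hy.2 _ (hmem s)
      rw [h00]
      simpa using h2)
  rwa [hφ] at h1

/-- A closed condition on all points of the planar sections. -/
private theorem ntop_closed (hB : Base n N V R) (hR : RedN N V C M)
    {f : (E m × ℝ) × (ℝ × ℝ) → ℝ} (hf : Continuous f) :
    IsClosed {y | y ∈ C ∧ ∀ w ∈ Cq R C y.1, f (y, w) ≤ 0} := by
  rw [← isOpen_compl_iff, isOpen_iff_mem_nhds]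
  intro y hy
  by_cases hC : y ∈ C
  · have hy2 : ∃ w ∈ Cq R C y.1, 0 < f (y, w) := by
      by_contra hcon
      push Not at hcon
      exact hy ⟨hC, hcon⟩
    obtain ⟨w, hw, hfw⟩ := hy2
    have h1 : ∀ᶠ z in 𝓝 (y, w), 0 < f z := hf.continuousAt.eventually_const_lt hfw
    rw [nhds_prod_eq, Filter.eventually_prod_iff] at h1
    obtain ⟨pa, hpa, pb, hpb, hab⟩ := h1
    obtain ⟨ε, hε, hball⟩ := Metric.eventually_nhds_iff.1 hpb
    have h2 := persist hB hR (hR.sub y hC) hw hε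
    have h3 : ∀ᶠ y' : E m × ℝ in 𝓝 y, y'.1 ∈ N → ∃ w' ∈ Cq R C y'.1, ‖w' - w‖ < ε :=
      (continuous_fst.tendsto y).eventually h2
    filter_upwards [hpa, h3] with y' h4 h5 h6
    obtain ⟨w', hw', hww⟩ := h5 (hR.sub _ h6.1)
    have h7 := hab h4 (hball (by rw [dist_eq_norm]; exact hww))
    exact absurd (h6.2 w' hw') (not_le.2 h7)
  · filter_upwards [hR.closed.isOpen_compl.mem_nhds hC] with y' h4 h5
    exact h4 h5.1

/-- The cones over a closed set. -/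
private theorem ntop_cone (hB : Base n N V R) {T : Set (E m × ℝ)}
    (hT : IsClosed T) (hM : ∀ y ∈ T, |y.2| ≤ M) (e : ℝ) (he : |e| = 1) :
    IsClosed {y : E m × ℝ | ∃ t r : ℝ, (R t y.1, r) ∈ T ∧ e * r + |t| ≤ e * y.2} := by
  rw [← isOpen_compl_iff, isOpen_iff_mem_nhds]
  intro y₀ hy₀
  obtain ⟨B, hB0⟩ : ∃ B : ℝ, B = |y₀.2| + 1 := ⟨_, rfl⟩
  have hRc : Continuous fun z : ℝ × E m => R z.1 z.2 := hB.flow.smooth.continuous
  have hcont : Continuous fun z : (E m × ℝ) × (ℝ × ℝ) => (R z.2.1 z.1.1, z.2.2) := by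
    have h1 : Continuous fun z : (E m × ℝ) × (ℝ × ℝ) => (z.2.1, z.1.1) := by fun_prop
    have h2 : Continuous fun z : (E m × ℝ) × (ℝ × ℝ) => R z.2.1 z.1.1 := hRc.comp h1
    have h3 : Continuous fun z : (E m × ℝ) × (ℝ × ℝ) => z.2.2 := by fun_prop
    exact h2.prodMk h3
  have hS : IsClosed {z : (E m × ℝ) × (ℝ × ℝ) | (R z.2.1 z.1.1, z.2.2) ∈ T ∧
      e * z.2.2 + |z.2.1| ≤ e * z.1.2} := by
    have h1 : Continuous fun z : (E m × ℝ) × (ℝ × ℝ) => e * z.2.2 + |z.2.1| := by fun_prop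
    have h2 : Continuous fun z : (E m × ℝ) × (ℝ × ℝ) => e * z.1.2 := by fun_prop
    exact (hT.preimage hcont).inter (isClosed_le h1 h2)
  have hK : IsCompact (Icc (-(B + M)) (B + M) ×ˢ Icc (-M) M) := isCompact_Icc.prod isCompact_Icc
  have h1 : ∀ᶠ y in 𝓝 y₀, ∀ z ∈ Icc (-(B + M)) (B + M) ×ˢ Icc (-M) M,
      ¬ ((R z.1 y.1, z.2) ∈ T ∧ e * z.2 + |z.1| ≤ e * y.2) := by
    refine hK.eventually_forall_of_forall_eventually ?_
    intro z _
    exact hS.isOpen_compl.mem_nhds fun hz => hy₀ ⟨z.1, z.2, hz.1, hz.2⟩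
  have h2 : ∀ᶠ y : E m × ℝ in 𝓝 y₀, |y.2| < B := by
    have h3 : Continuous fun y : E m × ℝ => |y.2| := by fun_prop
    exact h3.continuousAt.eventually_lt_const (by rw [hB0]; linarith)
  filter_upwards [h1, h2] with y h3 h4 h5
  obtain ⟨t, r, h6, h7⟩ := h5
  have h8 : |r| ≤ M := hM _ h6
  have h9 : |e * r| = |r| := by rw [abs_mul, he, one_mul]
  have h10 : |e * y.2| = |y.2| := by rw [abs_mul, he, one_mul]
  have h11 : |t| ≤ B + M := by
    have := neg_abs_le (e * r)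
    have := le_abs_self (e * y.2)
    rw [h9] at *
    rw [h10] at *
    linarith
  exact h3 (t, r) ⟨abs_le.1 h11, abs_le.1 h8⟩ ⟨h6, h7⟩

/-- A point of `C` in the cone over an almost extremal point is this point. -/
private theorem ntop_apex (hM : 0 < M) {t r b : ℝ} (hr : |r| < M) (hb : |b| < M)
    (h1 : r + |t| ≤ b) (h2 : b ≤ r + 1 / 20 * |t| + (1 / 20) ^ 2 / (8 * M) * t ^ 2) :
    t = 0 ∧ b = r := by
  have h3 := abs_lt.1 hr
  have h4 := abs_lt.1 hb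
  obtain ⟨a, ha⟩ : ∃ a : ℝ, a = |t| := ⟨_, rfl⟩
  have ha0 : 0 ≤ a := by rw [ha]; exact abs_nonneg t
  rw [← ha] at h1 h2
  have ht2 : t ^ 2 = a ^ 2 := by rw [ha, sq_abs]
  rw [ht2] at h2
  have ha1 : a < 2 * M := by linarith [h3.1, h4.2]
  have h5 : (1 / 20 : ℝ) ^ 2 / (8 * M) * a ^ 2 ≤ 1 / 1600 * a := by
    rw [div_mul_eq_mul_div, div_le_iff₀ (by positivity)]
    nlinarith
  have h6 : a = 0 := by
    have : a ≤ 1 / 20 * a + 1 / 1600 * a := by linarith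
    linarith
  refine ⟨?_, ?_⟩
  · rw [h6] at ha
    exact abs_eq_zero.1 ha.symm
  · rw [h6] at h2 h1
    norm_num at h2
    linarith

theorem TopN_closed (hB : Base n N V R) (hR : RedN N V C M) : IsClosed (TopN R C M) := by
  have h1 := ntop_closed hB hR (f := fun z : (E m × ℝ) × (ℝ × ℝ) =>
    z.2.2 - (z.1.2 + 1 / 20 * |z.2.1| + (1 / 20) ^ 2 / (8 * M) * z.2.1 ^ 2)) (by fun_prop)
  have h2 : TopN R C M = {y | y ∈ C ∧ ∀ w ∈ Cq R C y.1,
      w.2 - (y.2 + 1 / 20 * |w.1| + (1 / 20) ^ 2 / (8 * M) * w.1 ^ 2) ≤ 0} := by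
    unfold TopN
    simp only [sub_nonpos]
  rw [h2]
  exact h1

theorem BotN_closed (hB : Base n N V R) (hR : RedN N V C M) : IsClosed (BotN R C M) := by
  have h1 := ntop_closed hB hR (f := fun z : (E m × ℝ) × (ℝ × ℝ) =>
    (z.1.2 - 1 / 20 * |z.2.1| - (1 / 20) ^ 2 / (8 * M) * z.2.1 ^ 2) - z.2.2) (by fun_prop)
  have h2 : BotN R C M = {y | y ∈ C ∧ ∀ w ∈ Cq R C y.1,
      (y.2 - 1 / 20 * |w.1| - (1 / 20) ^ 2 / (8 * M) * w.1 ^ 2) - w.2 ≤ 0} := by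
    unfold BotN
    simp only [sub_nonpos]
  rw [h2]
  exact h1

theorem ZUp_closed (hB : Base n N V R) (hR : RedN N V C M) : IsClosed (ZUp R C M) := by
  have h1 := ntop_cone (M := M) hB (TopN_closed hB hR) (fun y hy => (hR.bdd y hy.1).le) 1 abs_one
  unfold ZUp
  simp only [one_mul] at h1
  exact h1

theorem ZDn_closed (hB : Base n N V R) (hR : RedN N V C M) : IsClosed (ZDn R C M) := by
  have h1 := ntop_cone (M := M) hB (BotN_closed hB hR) (fun y hy => (hR.bdd y hy.1).le) (-1)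
    (by rw [abs_neg, abs_one])
  have h2 : ZDn R C M = {y : E m × ℝ | ∃ t r : ℝ, (R t y.1, r) ∈ BotN R C M ∧
      -1 * r + |t| ≤ -1 * y.2} := by
    unfold ZDn
    ext y
    constructor
    · rintro ⟨t, r, h3, h4⟩
      exact ⟨t, r, h3, by linarith⟩
    · rintro ⟨t, r, h3, h4⟩
      exact ⟨t, r, h3, by linarith⟩
  rw [h2]
  exact h1

theorem ZUp_C (hB : Base n N V R) (hR : RedN N V C M) {y : E m × ℝ} (hy : y ∈ C)
    (hz : y ∈ ZUp R C M) : y ∈ TopN R C M := by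
  obtain ⟨t, r, h1, h2⟩ := hz
  have h3 : ((-t, y.2) : ℝ × ℝ) ∈ Cq R C (R t y.1, r).1 := by
    show (R (-t) (R t y.1), y.2) ∈ C
    rw [R_add hB, neg_add_cancel, R_zero hB]
    exact hy
  have h4 := h1.2 _ h3
  have h5 : y.2 ≤ r + 1 / 20 * |t| + (1 / 20) ^ 2 / (8 * M) * t ^ 2 := by
    simpa using h4
  have hr : |r| < M := hR.bdd _ h1.1
  obtain ⟨h6, h7⟩ := ntop_apex hR.hM hr (hR.bdd _ hy) h2 h5
  rw [h6, R_zero hB, ← h7] at h1
  exact h1

theorem ZDn_C (hB : Base n N V R) (hR : RedN N V C M) {y : E m × ℝ} (hy : y ∈ C)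
    (hz : y ∈ ZDn R C M) : y ∈ BotN R C M := by
  obtain ⟨t, r, h1, h2⟩ := hz
  have h3 : ((-t, y.2) : ℝ × ℝ) ∈ Cq R C (R t y.1, r).1 := by
    show (R (-t) (R t y.1), y.2) ∈ C
    rw [R_add hB, neg_add_cancel, R_zero hB]
    exact hy
  have h4 := h1.2 _ h3
  have h5 : r - 1 / 20 * |t| - (1 / 20) ^ 2 / (8 * M) * t ^ 2 ≤ y.2 := by
    simpa using h4
  have hr : |-r| < M := by
    rw [abs_neg]
    exact hR.bdd _ h1.1
  have hb : |-y.2| < M := by
    rw [abs_neg]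
    exact hR.bdd _ hy
  obtain ⟨h6, h7⟩ := ntop_apex hR.hM hr hb (t := t) (by linarith) (by linarith)
  rw [h6, R_zero hB, ← neg_injective h7] at h1
  exact h1

end Pool.Agent.H2.TI
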