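import Pool.Agent.H2.TI.PFlow

/-!
# The bottom coordinate and the bottom time of a planar flow (module PBotE)

Compare the proved file `H2/TG/Bot.lean` (`low`, `same_q`, `exists_bot`): the proofs carry over with
`E n × ℝ` replaced by `ℝ × ℝ`.

PROOF of `exists_pbot`. `low`: for every `R` there is `τ₁` with `(Ψ (-t) x).2 ≤ -M` for all `x.2 ≤ R`,
`t ≥ τ₁`. At such a time `t` put `b x = (Ψ (-t) x).1`, `T x = (Ψ (-t) x).2 + M + t` (so
`Ψ (-t) x = (b x, -M + T x - t)` and `T x ≤ t`): both do not depend on `t` (`p_down`: going further down changes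
neither). `eq`: by `p_down` at `(b x, -M)` with time `T x - t ≤ 0`: `Ψ (T x - t) (b x, -M) = (b x, -M + T x - t) =
Ψ (-t) x`, apply `Ψ t`. `b`, `T` are smooth: near a point a common `t` works (`IsFlow.contDiff_t`; patching as
in `exists_patch`, or `contDiff_iff_contDiffAt` and `congr_of_eventuallyEq`). `invT`, `inv`:
`Ψ (-(t + h)) (Ψ h x) = Ψ (-t) x`. `bot`: time `0`. `lat`: `p_lat`. `ker`: as in `exists_bot`: if `Db(x) w = 0`,
`z = D(Ψ (-t))(x) w` has `z.1 = 0`, so `z = z.2 • (0, 1) = z.2 • PX θ s (Ψ (-t) x)` (`θ = 0` at the bottom), apply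
`D(Ψ t)` (`IsFlow.fderiv_inv`, `IsFlow.fderiv_X`).
-/

set_option autoImplicit false

open scoped ContDiff Topology
open Set

namespace Pool.Agent.H2.TI

open Pool.Agent.H2.TG

variable {θ : ℝ × ℝ → ℝ} {M K D s τ : ℝ} {Ψ : ℝ → ℝ × ℝ → ℝ × ℝ}

private theorem pb_patch {Z : Type*} [NormedAddCommGroup Z] [NormedSpace ℝ Z]
    (F : ℝ → ℝ × ℝ → Z) (hF : ∀ R, ContDiff ℝ ∞ (F R))
    (h : ∀ (R R' : ℝ) (x : ℝ × ℝ), x.2 < R → x.2 < R' → F R x = F R' x) :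
    ∃ G : ℝ × ℝ → Z, ContDiff ℝ ∞ G ∧ ∀ (R : ℝ) (x : ℝ × ℝ), x.2 < R → G x = F R x := by
  refine ⟨fun x => F (x.2 + 1) x, ?_, fun R x hx => h _ _ x (by linarith) hx⟩
  rw [contDiff_iff_contDiffAt]
  intro x₀
  have hev : (fun x : ℝ × ℝ => F (x.2 + 1) x) =ᶠ[𝓝 x₀] F (x₀.2 + 1) := by
    have ho : IsOpen {x : ℝ × ℝ | x.2 < x₀.2 + 1} := isOpen_lt continuous_snd continuous_const
    filter_upwards [ho.mem_nhds (show x₀.2 < x₀.2 + 1 by linarith)] with x hx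
    exact h _ _ x (by linarith) hx
  exact ((hF _).contDiffAt).congr_of_eventuallyEq hev

private theorem pb_down (hP : PPhase θ M K) (hF : IsFlow (PX θ s) Ψ) {y : ℝ × ℝ}
    (hy : y.2 ≤ -M) {t : ℝ} (ht : 0 ≤ t) : (Ψ (-t) y).2 ≤ -M := by
  rw [p_down hP hF hy (by linarith : -t ≤ 0)]
  show y.2 + -t ≤ -M
  linarith

private theorem pb_up (hP : PPhase θ M K) (hF : IsFlow (PX θ s) Ψ) {y : ℝ × ℝ}
    (hy : M ≤ y.2) {t : ℝ} (ht : 0 ≤ t) : M ≤ (Ψ t y).2 := by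
  rw [p_up hP hF hy ht]
  show M ≤ y.2 + t
  linarith

private theorem pb_mid (hP : PPhase θ M K) (hF : IsFlow (PX θ s) Ψ)
    (hG : GoodP M τ Ψ) {y : ℝ × ℝ} (hy : y.2 ≤ M) {t : ℝ} (ht0 : 0 ≤ t) (ht : τ ≤ t) :
    (Ψ (-t) y).2 ≤ -M := by
  have hX := PX_contDiff hP s
  by_cases h1 : y.2 ≤ -M
  · exact pb_down hP hF h1 ht0
  · have h2 := (hG y (abs_le.2 ⟨by linarith, hy⟩)).2
    have h3 : Ψ (-t) y = Ψ (-(t - τ)) (Ψ (-τ) y) := by
      rw [hF.add hX]; congr 1; ring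
    rw [h3]
    exact pb_down hP hF (by linarith) (by linarith)

private theorem pb_mid' (hP : PPhase θ M K) (hF : IsFlow (PX θ s) Ψ)
    (hG : GoodP M τ Ψ) {y : ℝ × ℝ} (hy : -M ≤ y.2) {t : ℝ} (ht0 : 0 ≤ t) (ht : τ ≤ t) :
    M ≤ (Ψ t y).2 := by
  have hX := PX_contDiff hP s
  by_cases h1 : M ≤ y.2
  · exact pb_up hP hF h1 ht0
  · have h2 := (hG y (abs_le.2 ⟨hy, by linarith⟩)).1
    have h3 : Ψ t y = Ψ (t - τ) (Ψ τ y) := by
      rw [hF.add hX]; congr 1; ring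
    rw [h3]
    exact pb_up hP hF (by linarith) (by linarith)

private theorem pb_low (hP : PPhase θ M K) (hF : IsFlow (PX θ s) Ψ) (hτ : 0 < τ)
    (hG : GoodP M τ Ψ) (R : ℝ) :
    ∃ τ₁ : ℝ, 0 < τ₁ ∧ ∀ x : ℝ × ℝ, x.2 ≤ R → ∀ t, τ₁ ≤ t → (Ψ (-t) x).2 ≤ -M := by
  have hX := PX_contDiff hP s
  have hM := hP.hM
  have hR0 := abs_nonneg R
  have hR1 := le_abs_self R
  refine ⟨τ + |R| + M + 1, by linarith, fun x hx t ht => ?_⟩
  by_cases h1 : x.2 ≤ M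
  · exact pb_mid hP hF hG h1 (by linarith) (by linarith)
  · push Not at h1
    have h2 : (Ψ (-(x.2 - M)) x).2 ≤ M := by
      by_contra h3
      push Not at h3
      have h4 := p_up hP hF h3.le (t := x.2 - M) (by linarith)
      rw [hF.add hX] at h4
      have h5 : x.2 - M + -(x.2 - M) = 0 := by ring
      rw [h5, hF.zero] at h4
      have h6 := congrArg Prod.snd h4
      simp only at h6
      linarith
    have h3 : Ψ (-t) x = Ψ (-(t - (x.2 - M))) (Ψ (-(x.2 - M)) x) := by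
      rw [hF.add hX]; congr 1; ring
    rw [h3]
    exact pb_mid hP hF hG h2 (by linarith) (by linarith)

private theorem pb_same (hP : PPhase θ M K) (hF : IsFlow (PX θ s) Ψ) {b : ℝ × ℝ} (hb : b.2 ≤ -M)
    {t : ℝ} (ht : (Ψ t b).2 ≤ -M) : Ψ t b = (b.1, b.2 + t) := by
  have hX := PX_contDiff hP s
  rcases le_total t 0 with h | h
  · exact p_down hP hF hb h
  · have h1 := p_down hP hF ht (t := -t) (by linarith)
    rw [hF.add hX] at h1
    have h5 : -t + t = 0 := by ring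
    rw [h5, hF.zero] at h1
    have h6 := congrArg Prod.fst h1
    have h7 := congrArg Prod.snd h1
    simp only at h6 h7
    refine Prod.ext ?_ ?_
    · exact h6.symm
    · show (Ψ t b).2 = b.2 + t
      linarith

/-- Every orbit is above `M` after some time. -/
theorem p_high (hP : PPhase θ M K) (hF : IsFlow (PX θ s) Ψ) (hτ : 0 < τ) (hG : GoodP M τ Ψ)
    (x : ℝ × ℝ) : ∃ t₀ : ℝ, ∀ t, t₀ ≤ t → M ≤ (Ψ t x).2 := by
  have hX := PX_contDiff hP s
  have hM := hP.hM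
  have hR0 := abs_nonneg x.2
  have hR1 := neg_abs_le x.2
  refine ⟨τ + |x.2| + M + 1, fun t ht => ?_⟩
  by_cases h1 : -M ≤ x.2
  · exact pb_mid' hP hF hG h1 (by linarith) (by linarith)
  · push Not at h1
    have h2 : -M ≤ (Ψ (-M - x.2) x).2 := by
      by_contra h3
      push Not at h3
      have h4 := p_down hP hF h3.le (t := -(-M - x.2)) (by linarith)
      rw [hF.add hX] at h4
      have h5 : -(-M - x.2) + (-M - x.2) = 0 := by ring
      rw [h5, hF.zero] at h4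
      have h6 := congrArg Prod.snd h4
      simp only at h6
      linarith
    have h3 : Ψ t x = Ψ (t - (-M - x.2)) (Ψ (-M - x.2) x) := by
      rw [hF.add hX]; congr 1; ring
    rw [h3]
    exact pb_mid' hP hF hG h2 (by linarith) (by linarith)

/-- Every orbit is below `-M` before some time. -/
theorem p_low (hP : PPhase θ M K) (hF : IsFlow (PX θ s) Ψ) (hτ : 0 < τ) (hG : GoodP M τ Ψ)
    (x : ℝ × ℝ) : ∃ t₀ : ℝ, ∀ t, t₀ ≤ t → (Ψ (-t) x).2 ≤ -M := by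
  obtain ⟨τ₁, -, h⟩ := pb_low hP hF hτ hG x.2
  exact ⟨τ₁, h x le_rfl⟩

theorem exists_pbot (hP : PPhase θ M K) (hD : Lat θ D) (hF : IsFlow (PX θ s) Ψ) (hτ : 0 < τ)
    (hG : GoodP M τ Ψ) : ∃ b T, PBot θ s M D Ψ b T := by
  have hX := PX_contDiff hP s
  have hM := hP.hM
  choose τ₁ hτ₁ hlow using pb_low hP hF hτ hG
  obtain ⟨G, hGs, hGF⟩ := pb_patch
    (fun R x => ((Ψ (-(τ₁ R)) x).1, (Ψ (-(τ₁ R)) x).2 + (M + τ₁ R)))
    (fun R => (contDiff_fst.comp (hF.contDiff_t (-(τ₁ R)))).prodMk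
      ((contDiff_snd.comp (hF.contDiff_t (-(τ₁ R)))).add contDiff_const))
    (by
      intro R R' x hR hR'
      have h1 := hlow R x hR.le (τ₁ R) le_rfl
      have h2 := hlow R' x hR'.le (τ₁ R') le_rfl
      have h3 : Ψ (τ₁ R - τ₁ R') (Ψ (-(τ₁ R)) x) = Ψ (-(τ₁ R')) x := by
        rw [hF.add hX]; congr 1; ring
      have h4 := pb_same hP hF h1 (t := τ₁ R - τ₁ R') (by rw [h3]; exact h2)
      rw [h3] at h4
      simp only [h4]
      refine Prod.ext rfl ?_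
      show (Ψ (-(τ₁ R)) x).2 + (M + τ₁ R) =
        (Ψ (-(τ₁ R)) x).2 + (τ₁ R - τ₁ R') + (M + τ₁ R')
      ring)
  -- the main property
  have hB : ∀ x t, (Ψ t x).2 ≤ -M → G x = ((Ψ t x).1, (Ψ t x).2 + (M - t)) := by
    intro x t ht
    rw [hGF (x.2 + 1) x (by linarith)]
    have h1 := hlow (x.2 + 1) x (by linarith) (τ₁ (x.2 + 1)) le_rfl
    have h3 : Ψ (-(τ₁ (x.2 + 1)) - t) (Ψ t x) = Ψ (-(τ₁ (x.2 + 1))) x := by
      rw [hF.add hX]; congr 1; ring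
    have h4 := pb_same hP hF ht (t := -(τ₁ (x.2 + 1)) - t) (by rw [h3]; exact h1)
    rw [h3] at h4
    simp only [h4]
    refine Prod.ext rfl ?_
    show (Ψ t x).2 + (-(τ₁ (x.2 + 1)) - t) + (M + τ₁ (x.2 + 1)) = (Ψ t x).2 + (M - t)
    ring
  refine ⟨fun x => (G x).1, fun x => (G x).2, ?_, ?_, ?_, ?_, ?_, ?_, ?_, ?_⟩
  · exact contDiff_fst.comp hGs
  · exact continuous_snd.comp hGs.continuous
  · -- eq
    intro x
    have h1 := hlow x.2 x le_rfl (τ₁ x.2) le_rfl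
    have h2 := hB x _ h1
    obtain ⟨p, hp⟩ : ∃ p, p = Ψ (-(τ₁ x.2)) x := ⟨_, rfl⟩
    rw [← hp] at h1 h2
    simp only [h2]
    have h3 := p_down hP hF (x := (p.1, -M)) (le_refl (-M)) (t := p.2 + M) (by linarith)
    have h4 : ((p.1, -M).1, (p.1, -M).2 + (p.2 + M)) = p := by
      refine Prod.ext rfl ?_
      show -M + (p.2 + M) = p.2
      ring
    rw [h4] at h3
    have h5 : p.2 + (M - -(τ₁ x.2)) = τ₁ x.2 + (p.2 + M) := by ring
    rw [h5, ← hF.add hX, h3, hp, hF.add hX, add_neg_cancel, hF.zero]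
  · -- inv
    intro t x
    have h1 := hlow x.2 x le_rfl (τ₁ x.2) le_rfl
    have h3 : Ψ (-(τ₁ x.2) - t) (Ψ t x) = Ψ (-(τ₁ x.2)) x := by
      rw [hF.add hX]; congr 1; ring
    show (G (Ψ t x)).1 = (G x).1
    rw [hB x _ h1, hB (Ψ t x) (-(τ₁ x.2) - t) (by rw [h3]; exact h1), h3]
  · -- invT
    intro t x
    have h1 := hlow x.2 x le_rfl (τ₁ x.2) le_rfl
    have h3 : Ψ (-(τ₁ x.2) - t) (Ψ t x) = Ψ (-(τ₁ x.2)) x := by
      rw [hF.add hX]; congr 1; ring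
    show (G (Ψ t x)).2 = (G x).2 + t
    rw [hB x _ h1, hB (Ψ t x) (-(τ₁ x.2) - t) (by rw [h3]; exact h1), h3]
    show (Ψ (-(τ₁ x.2)) x).2 + (M - (-(τ₁ x.2) - t)) =
      (Ψ (-(τ₁ x.2)) x).2 + (M - -(τ₁ x.2)) + t
    ring
  · -- bot
    intro x hx
    show (G x).1 = x.1
    rw [hB x 0 (by rw [hF.zero]; exact hx), hF.zero]
  · -- lat
    intro x hx
    have h1 := hlow x.2 x le_rfl (τ₁ x.2) le_rfl
    show (G x).1 = x.1
    rw [hB x _ h1, p_lat hP hD hF hx]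
  · -- ker
    intro x w hw
    obtain ⟨t', ht'⟩ : ∃ t', t' = τ₁ (x.2 + 1) := ⟨_, rfl⟩
    have hev : (fun y => (G y).1) =ᶠ[𝓝 x] fun y => (Ψ (-t') y).1 := by
      have ho : IsOpen {y : ℝ × ℝ | y.2 < x.2 + 1} := isOpen_lt continuous_snd continuous_const
      filter_upwards [ho.mem_nhds (show x.2 < x.2 + 1 by linarith)] with y hy
      rw [hGF _ _ hy, ht']
    have h0 := hlow (x.2 + 1) x (by linarith) t' ht'.ge
    have hd : HasFDerivAt (Ψ (-t')) (fderiv ℝ (Ψ (-t')) x) x :=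
      (hF.differentiable (-t') x).hasFDerivAt
    have h1 : fderiv ℝ (fun y => (G y).1) x =
        (ContinuousLinearMap.fst ℝ ℝ ℝ).comp (fderiv ℝ (Ψ (-t')) x) := by
      rw [hev.fderiv_eq]
      exact (hd.fst).fderiv
    have h2 : (fderiv ℝ (Ψ (-t')) x w).1 = 0 := by
      rw [h1] at hw
      exact hw
    obtain ⟨c, hc⟩ : ∃ c, c = (fderiv ℝ (Ψ (-t')) x w).2 := ⟨_, rfl⟩
    have h3 : PX θ s (Ψ (-t') x) = (0, 1) := by
      have h4 : θ (Ψ (-t') x) = 0 := hP.supp _ (by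
        rw [le_abs]; right; linarith)
      simp [PX, h4]
    have h4 : fderiv ℝ (Ψ (-t')) x w = c • PX θ s (Ψ (-t') x) := by
      rw [h3]
      refine Prod.ext ?_ ?_
      · rw [h2]; simp
      · simp [hc]
    have h5 : fderiv ℝ (Ψ (-t')) x (w - c • PX θ s x) = 0 := by
      rw [map_sub, map_smul, hF.fderiv_X hX, h4, sub_self]
    have h6 := hF.fderiv_inv hX (-t') x (w - c • PX θ s x)
    rw [h5, map_zero] at h6
    exact ⟨c, (sub_eq_zero.1 h6.symm)⟩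

end Pool.Agent.H2.TI
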