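import Pool.Agent.H2.TI.PMono

/-!
# Orbits from the curve are laterally confined (module PConf)

PROOF of `conf_fwd`. Let `x = c s`, top gates `u₁ ∈ [s - P, s]` (`PCurve.top` at `s - P`) and `u₂ ∈ [s, s + P]`.
For `s' ∈ [u₁, u₂]`: `|(c s').1 - x.1| ≤ P` (`c_speed`). Suppose `t₁ ≥ 0` and, for `y = Ψ t₁ x`,
`y.1 > x.1 + P + w` (the case `y.1 < x.1 - P - w` is symmetric: move to the left instead of to the right).
Put `D₀ = |x.1| + t₁ + P + w`, cut off (`exists_pcut`): `θ'`, `D`, flow `Ψ'` (`exists_PFlow` for `θ'`, its member with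
`s = 1`), `b, T` (`pbot`). `Ψ' t₁ x = y` by `p_agree` (the orbit piece is in `|t| ≤ |x.1| + t₁`, `p_norm`). For the gates
`c u`, `u = u₁, u₂`: `Ψ' t (c u) = Ψ t (c u)` for `t ≥ 0` (`p_agree`: the forward orbit is in
`|t| ≤ |(c u).1| + w ≤ D₀`). `g s' = b (c s')` is strictly increasing on `[u₁, u₂]` (`bc_mono`).
Let `y_λ = (y.1 + λ, y.2)`, `β λ = b y_λ`, `λ ≥ 0`, continuous; `β 0 = b x = g s ∈ [g u₁, g u₂]` (`PBot.inv`); for
`λ` large, `β λ = y.1 + λ` (`PBot.lat`) is larger than `g u₂`. Let `λ₁ ≥ 0` be the smallest `λ ≥ 0` with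
`β λ ∈ {g u₁, g u₂}` (closed set, not empty by the intermediate value theorem; `λ₁ = 0` is possible). On
`[0, λ₁]`, `β λ ∈ [g u₁, g u₂]` (intermediate value theorem again); let `σ λ ∈ [u₁, u₂]` be the unique parameter with
`g (σ λ) = β λ` (continuous in `λ`: inverse of a strictly increasing continuous function on a compact
interval), and `δ λ = T y_λ - T (c (σ λ))`, continuous. `δ λ ≠ 0`: if `δ λ = 0` then `y_λ` and `c (σ λ)` have the same `b`
and the same `T`, so by `PBot.eq` they are equal, but `(c (σ λ)).1 ≤ x.1 + P < y.1 ≤ y_λ.1`. `σ 0 = s`,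
`δ 0 = T y - T x = t₁ ≥ 0` (`invT`), so `δ 0 > 0` and `δ λ₁ > 0`. At `λ₁`: `σ λ₁ ∈ {u₁, u₂}` is a gate `u`, and
`y_λ₁ = Ψ' (δ λ₁) (c u) = Ψ (δ λ₁) (c u)` (`PBot.eq` for both points and `IsFlow.add`), so
`y_λ₁.1 ≤ (c u).1 + w ≤ x.1 + P + w < y.1 ≤ y_λ₁.1`: contradiction.
`conf_bwd`: the same with bottom gates, `t₁ ≤ 0`, `δ < 0`.
`conf_agree`: if `|(c s).1| + P + w ≤ D₀` then the orbit of `c s` under `Ψ` is in `|t| ≤ D₀` where `θ' = θ`, so
`Ψ' t (c s) = Ψ t (c s)` (`p_agree`).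
-/

set_option autoImplicit false

open scoped ContDiff Topology
open Set

namespace Pool.Agent.H2.TI

open Pool.Agent.H2.TG

variable {θ θ' : ℝ × ℝ → ℝ} {M K K' w P D₀ : ℝ} {c : ℝ → ℝ × ℝ}
  {Ψ Ψ' : ℝ → ℝ × ℝ → ℝ × ℝ}

private theorem conf_lift {g : ℝ → ℝ} {u₁ u₂ : ℝ} (hu : u₁ ≤ u₂) (hg : Continuous g)
    (hm : StrictMonoOn g (Icc u₁ u₂)) : ∃ σ : ℝ → ℝ, Continuous σ ∧
      (∀ s ∈ Icc u₁ u₂, σ (g s) = s) ∧ ∀ v, σ v ∈ Icc u₁ u₂ → g (σ v) = v := by
  obtain ⟨k, hk⟩ : ∃ k : ℝ → ℝ, k = fun s => max u₁ (min u₂ s) := ⟨_, rfl⟩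
  have hkc : Continuous k := by rw [hk]; fun_prop
  have hkI : ∀ s, k s ∈ Icc u₁ u₂ := by
    intro s
    rw [hk]
    exact ⟨le_max_left _ _, max_le hu (min_le_left _ _)⟩
  have hkid : ∀ s ∈ Icc u₁ u₂, k s = s := by
    intro s hs
    rw [hk]
    simp only
    rw [min_eq_right hs.2, max_eq_right hs.1]
  have hkm : ∀ s s', s ≤ s' → k s ≤ k s' ∧ k s' - k s ≤ s' - s := by
    intro s s' hs
    rw [hk]
    simp only
    constructor
    · exact max_le_max le_rfl (min_le_min le_rfl hs)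
    · rcases le_total u₂ s' with h1 | h1 <;> rcases le_total u₂ s with h2 | h2 <;>
      rcases le_total u₁ s' with h3 | h3 <;> rcases le_total u₁ s with h4 | h4 <;>
      simp only [min_eq_left, min_eq_right, max_eq_left, max_eq_right, h1, h2, h3, h4, hu] <;>
      linarith
  obtain ⟨G, hG⟩ : ∃ G : ℝ → ℝ, G = fun s => g (k s) + (s - k s) := ⟨_, rfl⟩
  have hGc : Continuous G := by
    rw [hG]
    exact (hg.comp hkc).add (continuous_id.sub hkc)
  have hGm : StrictMono G := by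
    intro s s' hs
    rw [hG]
    simp only
    obtain ⟨h1, h2⟩ := hkm s s' hs.le
    rcases h1.eq_or_lt with h | h
    · rw [h]
      linarith
    · have h3 := hm (hkI s) (hkI s') h
      linarith
  have hbot : ∀ s, g u₁ + (s - u₂) ≤ G s := by
    intro s
    rw [hG]
    simp only
    have h1 := hm.monotoneOn (left_mem_Icc.2 hu) (hkI s) (hkI s).1
    have h2 := (hkI s).2
    linarith
  have htop : ∀ s, G s ≤ g u₂ + (s - u₁) := by
    intro s
    rw [hG]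
    simp only
    have h1 := hm.monotoneOn (hkI s) (right_mem_Icc.2 hu) (hkI s).2
    have h2 := (hkI s).1
    linarith
  have hsurj : Function.Surjective G := by
    intro v
    obtain ⟨s, hs⟩ := mem_range_of_exists_le_of_exists_ge hGc (c := v)
      ⟨v - g u₂ + u₁, by
        have := htop (v - g u₂ + u₁)
        linarith⟩
      ⟨v - g u₁ + u₂, by
        have := hbot (v - g u₁ + u₂)
        linarith⟩
    exact ⟨s, hs⟩
  have hGid : ∀ s ∈ Icc u₁ u₂, G s = g s := by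
    intro s hs
    rw [hG]
    simp only
    rw [hkid s hs, sub_self, add_zero]
  let E : ℝ ≃o ℝ := StrictMono.orderIsoOfSurjective G hGm hsurj
  have hE : ∀ s, E s = G s := fun s => rfl
  refine ⟨fun v => E.symm v, E.symm.continuous, ?_, ?_⟩
  · intro s hs
    show E.symm (g s) = s
    rw [← hGid s hs, ← hE, E.symm_apply_apply]
  · intro v hv
    show g (E.symm v) = v
    have h1 : E.symm v ∈ Icc u₁ u₂ := hv
    rw [← hGid _ h1, ← hE, E.apply_symm_apply]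

private theorem conf_abs {e a b : ℝ} (he : e = 1 ∨ e = -1) (h : |a| ≤ b) : e * a ≤ b := by
  rw [abs_le] at h
  rcases he with rfl | rfl <;> linarith [h.1, h.2]

private theorem conf_aux (hP : PPhase θ M K) (hF : IsFlow (PX θ 1) Ψ) (hc : PCurve θ M w P c Ψ)
    {s u₁ u₂ κ e t₁ : ℝ} (hκ : κ = 1 ∨ κ = -1) (he : e = 1 ∨ e = -1) (h1 : s - P ≤ u₁)
    (h2 : u₁ ≤ s) (h3 : s ≤ u₂) (h4 : u₂ ≤ s + P)
    (hg1 : ∀ t, 0 ≤ κ * t → |(Ψ t (c u₁)).1 - (c u₁).1| ≤ w)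
    (hg2 : ∀ t, 0 ≤ κ * t → |(Ψ t (c u₂)).1 - (c u₂).1| ≤ w)
    (ht : 0 ≤ κ * t₁) : e * ((Ψ t₁ (c s)).1 - (c s).1) ≤ P + w := by
  by_contra hcon
  rw [not_le] at hcon
  have hw := hc.hw
  have hPP := hc.hP
  obtain ⟨x, hx⟩ : ∃ x, x = c s := ⟨_, rfl⟩
  obtain ⟨y, hy⟩ : ∃ y, y = Ψ t₁ x := ⟨_, rfl⟩
  obtain ⟨D₀, hD₀⟩ : ∃ D₀, D₀ = |x.1| + |t₁| + P + w := ⟨_, rfl⟩
  have ht0 := abs_nonneg t₁
  rw [← hx, ← hy] at hcon
  obtain ⟨θ', D, hP', hD, heq, -⟩ := exists_pcut hP D₀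
  obtain ⟨Φ, hΦ, -⟩ := exists_PFlow hP'
  obtain ⟨Ψ', hΨ'⟩ : ∃ Ψ', Ψ' = Φ 1 := ⟨_, rfl⟩
  have hF' : IsFlow (PX θ' 1) Ψ' := by rw [hΨ']; exact hΦ 1
  obtain ⟨b, T, hB⟩ := pbot hP' hD hF'
  have hX' := PX_contDiff hP' 1
  -- points of the curve
  have hcu : ∀ u ∈ Icc u₁ u₂, |(c u).1 - x.1| ≤ P := by
    intro u hu
    rw [hx]
    refine (c_speed hc s u).trans ?_
    rw [abs_le]
    constructor <;> linarith [hu.1, hu.2]
  have hu12 : u₁ ≤ u₂ := h2.trans h3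
  have habs : ∀ (z : ℝ) (r : ℝ), |z - x.1| ≤ r → |z| ≤ |x.1| + r := by
    intro z r hz
    have h5 := abs_add_le (z - x.1) x.1
    rw [sub_add_cancel] at h5
    linarith
  -- agreement on the orbit of x
  have hyΨ : Ψ' t₁ x = y := by
    rw [hy]
    refine p_agree hP hP' hF hF' fun v hv => heq _ ?_
    have h5 : |(Ψ v x).1 - x.1| ≤ |v| := by
      have h6 := p_norm hF x v
      have h7 := norm_fst_le (Ψ v x - x)
      rw [Real.norm_eq_abs] at h7
      exact h7.trans h6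
    have h6 : |v| ≤ |t₁| := by
      rw [mem_uIcc] at hv
      rcases hv with hv | hv
      · rw [abs_of_nonneg hv.1, abs_of_nonneg (hv.1.trans hv.2)]
        exact hv.2
      · rw [abs_of_nonpos hv.2, abs_of_nonpos (hv.1.trans hv.2)]
        linarith [hv.1]
    have h7 := habs _ _ (h5.trans h6)
    rw [hD₀]
    linarith
  -- agreement at gates
  have hgate : ∀ u ∈ Icc u₁ u₂, (∀ t, 0 ≤ κ * t → |(Ψ t (c u)).1 - (c u).1| ≤ w) →
      ∀ t, 0 ≤ κ * t → Ψ' t (c u) = Ψ t (c u) := by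
    intro u hu hg t htt
    refine p_agree hP hP' hF hF' fun v hv => heq _ ?_
    have h5 : 0 ≤ κ * v := by
      rw [mem_uIcc] at hv
      rcases hκ with rfl | rfl
      · rcases hv with hv | hv
        · linarith [hv.1]
        · linarith [hv.1]
      · rcases hv with hv | hv
        · linarith [hv.2]
        · linarith [hv.2]
    have h6 := hg v h5
    have h7 := hcu u hu
    have h8 := abs_add_le ((Ψ v (c u)).1 - (c u).1) ((c u).1 - x.1)
    rw [sub_add_sub_cancel] at h8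
    have h9 := habs _ _ (h8.trans (add_le_add h6 h7))
    rw [hD₀]
    linarith
  have hmono : StrictMonoOn (fun s => b (c s)) (Icc u₁ u₂) := by
    refine bc_mono hc hP' hB heq fun u hu => ?_
    have h5 := habs _ _ (hcu u hu)
    rw [hD₀]
    linarith
  have hcc : Continuous c := continuous_iff_continuousAt.2 fun t => (hc.deriv t).continuousAt
  have hbc : Continuous b := hB.smooth.continuous
  obtain ⟨σ, hσc, hσ1, hσ2⟩ := conf_lift hu12 (hbc.comp hcc) hmono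
  simp only [Function.comp_apply] at hσ1 hσ2
  -- the moving point
  obtain ⟨Y, hY⟩ : ∃ Y : ℝ → ℝ × ℝ, Y = fun l => (y.1 + e * l, y.2) := ⟨_, rfl⟩
  have hYc : Continuous Y := by rw [hY]; fun_prop
  have hY0 : Y 0 = y := by rw [hY]; simp
  have hYsep : ∀ l, 0 ≤ l → ∀ u ∈ Icc u₁ u₂, w < e * ((Y l).1 - (c u).1) := by
    intro l hl u hu
    have h5 := hcu u hu
    have h6 : e * ((c u).1 - x.1) ≤ P := conf_abs he h5
    have h7 : e * e = 1 := by rcases he with rfl | rfl <;> norm_num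
    have h8 : e * ((Y l).1 - (c u).1) = e * (y.1 - x.1) - e * ((c u).1 - x.1) + e * e * l := by
      rw [hY]
      simp only
      ring
    rw [h8, h7]
    linarith
  have hsame : ∀ l, σ (b (Y l)) ∈ Icc u₁ u₂ →
      Ψ' (T (Y l) - T (c (σ (b (Y l))))) (c (σ (b (Y l)))) = Y l := by
    intro l hl
    have h5 := hσ2 _ hl
    have h6 := hB.eq (Y l)
    have h7 := hB.eq (c (σ (b (Y l))))
    rw [h5] at h7
    conv_lhs => rw [← h7]
    rw [hB.invT]
    have h8 : T (b (Y l), -M) = 0 := by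
      have h9 := hB.invT (T (Y l)) (b (Y l), -M)
      rw [h6] at h9
      linarith
    rw [hF'.add hX', h8]
    have h9 : T (Y l) - (0 + T (c (σ (b (Y l))))) + T (c (σ (b (Y l)))) = T (Y l) := by ring
    rw [h9, h6]
  obtain ⟨S, hS⟩ : ∃ S : Set ℝ, S = {l | σ (b (Y l)) ∈ Icc u₁ u₂ ∧
      0 ≤ κ * (T (Y l) - T (c (σ (b (Y l)))))} := ⟨_, rfl⟩
  have hσY : Continuous fun l => σ (b (Y l)) := hσc.comp (hbc.comp hYc)
  have hδ : Continuous fun l => κ * (T (Y l) - T (c (σ (b (Y l))))) :=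
    continuous_const.mul ((hB.cont.comp hYc).sub (hB.cont.comp (hcc.comp hσY)))
  have hScl : IsClosed S := by
    rw [hS]
    exact (isClosed_Icc.preimage hσY).inter (isClosed_le continuous_const hδ)
  have h0S : (0 : ℝ) ∈ S := by
    have h5 : b y = b (c s) := by
      rw [← hx, ← hyΨ, hB.inv]
    have h6 : σ (b (Y 0)) = s := by rw [hY0, h5, hσ1 s ⟨h2, h3⟩]
    rw [hS]
    refine ⟨by rw [h6]; exact ⟨h2, h3⟩, ?_⟩
    rw [h6, hY0, ← hyΨ, hB.invT, ← hx]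
    have h7 : T x + t₁ - T x = t₁ := by ring
    rw [h7]
    exact ht
  have hgt : ∀ l, 0 ≤ l → l ∈ S → σ (b (Y l)) ∈ Ioo u₁ u₂ ∧
      0 < κ * (T (Y l) - T (c (σ (b (Y l))))) := by
    intro l hl hlS
    rw [hS] at hlS
    obtain ⟨h5, h6⟩ := hlS
    have h7 := hsame l h5
    have h8 := hYsep l hl _ h5
    have hne : ¬ (∀ t, 0 ≤ κ * t → |(Ψ t (c (σ (b (Y l))))).1 - (c (σ (b (Y l)))).1| ≤ w) := by
      intro hg
      have h9 := hgate _ h5 hg _ h6
      rw [h7] at h9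
      have h10 := hg _ h6
      rw [← h9] at h10
      exact absurd (conf_abs he h10) (not_le.2 h8)
    refine ⟨⟨lt_of_le_of_ne h5.1 ?_, lt_of_le_of_ne h5.2 ?_⟩, lt_of_le_of_ne h6 ?_⟩
    · intro h
      exact hne (by rw [← h]; exact hg1)
    · intro h
      exact hne (by rw [h]; exact hg2)
    · intro h
      have h9 : T (Y l) - T (c (σ (b (Y l)))) = 0 := by
        rcases hκ with rfl | rfl <;> linarith
      rw [h9, hF'.zero] at h7
      have h10 := hYsep l hl _ h5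
      rw [h7, sub_self, mul_zero] at h10
      linarith
  obtain ⟨L, hL⟩ : ∃ L, L = |y.1| + D + |b (c u₁)| + |b (c u₂)| + 1 := ⟨_, rfl⟩
  have hD0 := hD.1
  have a1 := abs_nonneg y.1
  have a2 := abs_nonneg (b (c u₁))
  have a3 := abs_nonneg (b (c u₂))
  have hL0 : 0 ≤ L := by rw [hL]; linarith
  have hall : Icc 0 L ⊆ S := by
    refine IsClosed.Icc_subset_of_forall_mem_nhdsWithin (hScl.inter isClosed_Icc) h0S ?_
    intro l hl
    obtain ⟨h5, h6⟩ := hgt l hl.2.1 hl.1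
    have h7 : ∀ᶠ l' in 𝓝 l, l' ∈ S := by
      have h8 : ∀ᶠ l' in 𝓝 l, σ (b (Y l')) ∈ Ioo u₁ u₂ :=
        hσY.continuousAt.eventually (isOpen_Ioo.mem_nhds h5)
      have h9 : ∀ᶠ l' in 𝓝 l, κ * (T (Y l') - T (c (σ (b (Y l'))))) ∈ Ioi (0 : ℝ) :=
        hδ.continuousAt.eventually (isOpen_Ioi.mem_nhds h6)
      filter_upwards [h8, h9] with l' h8 h9
      rw [hS]
      exact ⟨Ioo_subset_Icc_self h8, le_of_lt h9⟩
    exact nhdsWithin_le_nhds h7
  have hLS := hall (right_mem_Icc.2 hL0)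
  rw [hS] at hLS
  have h5 := hσ2 _ hLS.1
  have h6 : b (Y L) = y.1 + e * L := by
    have h7 : b (Y L) = (Y L).1 := by
      refine hB.lat _ ?_
      rw [hY]
      simp only
      rw [hL]
      have a4 := neg_abs_le y.1
      have a5 := le_abs_self y.1
      rcases he with rfl | rfl
      · rw [le_abs]; left; linarith
      · rw [le_abs]; right; linarith
    rw [h7, hY]
  have h7 : b (c u₁) ≤ b (Y L) := by
    rw [← h5]
    exact hmono.monotoneOn (left_mem_Icc.2 hu12) hLS.1 hLS.1.1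
  have h8 : b (Y L) ≤ b (c u₂) := by
    rw [← h5]
    exact hmono.monotoneOn hLS.1 (right_mem_Icc.2 hu12) hLS.1.2
  rw [h6, hL] at h7 h8
  have a4 := neg_abs_le y.1
  have a5 := le_abs_self y.1
  have a6 := neg_abs_le (b (c u₁))
  have a7 := le_abs_self (b (c u₂))
  rcases he with rfl | rfl
  · linarith
  · linarith

theorem conf_fwd (hP : PPhase θ M K) (hF : IsFlow (PX θ 1) Ψ) (hc : PCurve θ M w P c Ψ) (s : ℝ)
    {t : ℝ} (ht : 0 ≤ t) : |(Ψ t (c s)).1 - (c s).1| ≤ P + w := by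
  obtain ⟨u₁, h1, h2, h3⟩ := hc.top (s - P)
  obtain ⟨u₂, h4, h5, h6⟩ := hc.top s
  have hg1 : ∀ t, 0 ≤ (1 : ℝ) * t → |(Ψ t (c u₁)).1 - (c u₁).1| ≤ w := fun t ht =>
    h3 t (by linarith)
  have hg2 : ∀ t, 0 ≤ (1 : ℝ) * t → |(Ψ t (c u₂)).1 - (c u₂).1| ≤ w := fun t ht =>
    h6 t (by linarith)
  have hp := conf_aux hP hF hc (s := s) (t₁ := t) (e := 1) (Or.inl rfl) (Or.inl rfl) h1
    (by linarith) h4 h5 hg1 hg2 (by linarith)
  have hm := conf_aux hP hF hc (s := s) (t₁ := t) (e := -1) (Or.inl rfl) (Or.inr rfl) h1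
    (by linarith) h4 h5 hg1 hg2 (by linarith)
  rw [abs_le]
  constructor <;> linarith

theorem conf_bwd (hP : PPhase θ M K) (hF : IsFlow (PX θ 1) Ψ) (hc : PCurve θ M w P c Ψ) (s : ℝ)
    {t : ℝ} (ht : t ≤ 0) : |(Ψ t (c s)).1 - (c s).1| ≤ P + w := by
  obtain ⟨u₁, h1, h2, h3⟩ := hc.bottom (s - P)
  obtain ⟨u₂, h4, h5, h6⟩ := hc.bottom s
  have hg1 : ∀ t, 0 ≤ (-1 : ℝ) * t → |(Ψ t (c u₁)).1 - (c u₁).1| ≤ w := fun t ht =>
    h3 t (by linarith)
  have hg2 : ∀ t, 0 ≤ (-1 : ℝ) * t → |(Ψ t (c u₂)).1 - (c u₂).1| ≤ w := fun t ht =>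
    h6 t (by linarith)
  have hp := conf_aux hP hF hc (s := s) (t₁ := t) (e := 1) (Or.inr rfl) (Or.inl rfl) h1
    (by linarith) h4 h5 hg1 hg2 (by linarith)
  have hm := conf_aux hP hF hc (s := s) (t₁ := t) (e := -1) (Or.inr rfl) (Or.inr rfl) h1
    (by linarith) h4 h5 hg1 hg2 (by linarith)
  rw [abs_le]
  constructor <;> linarith

theorem conf_agree (hP : PPhase θ M K) (hF : IsFlow (PX θ 1) Ψ) (hc : PCurve θ M w P c Ψ)
    (hP' : PPhase θ' M K') (hF' : IsFlow (PX θ' 1) Ψ')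
    (heq : ∀ x : ℝ × ℝ, |x.1| ≤ D₀ → θ' x = θ x) {s : ℝ} (hs : |(c s).1| + P + w ≤ D₀) (t : ℝ) :
    Ψ' t (c s) = Ψ t (c s) := by
  refine p_agree hP hP' hF hF' fun v _ => heq _ ?_
  have h1 : |(Ψ v (c s)).1 - (c s).1| ≤ P + w := by
    rcases le_total 0 v with hv | hv
    · exact conf_fwd hP hF hc s hv
    · exact conf_bwd hP hF hc s hv
  have h2 := abs_add_le ((Ψ v (c s)).1 - (c s).1) (c s).1
  rw [sub_add_cancel] at h2
  linarith

end Pool.Agent.H2.TI
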