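import Pool.Agent.H2.TI.PGood

/-!
# Cutting off a planar phase (module PCut)

PROOFS.
* `p_bound`: `|θ x| ≤ K M`: compare with the point `(x.1, ± M)` (nearest), where `θ = 0`, distance `≤ M`
  (if `|x.2| ≤ M`; otherwise `θ x = 0`).
* `exists_pcut`: let `C = K M + 1`. Take a smooth function `χ : ℝ → [0, 1]`, `χ = 1` on `[-D₀, D₀]`, compact
  support, Lipschitz with constant `1 / C`: for instance `χ t = h ((t / R)^2)`... simplest: a smooth
  `η : ℝ → [0, 1]` with `η = 1` for `t ≤ 1`, `η = 0` for `t ≥ 2` (from `Real.smoothTransition`: `η t = smoothTransition (2 - t)`),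
  Lipschitz with some constant `c₀` (its derivative is continuous with compact support), and
  `χ t = η (t² / R²)`-like or `χ t = η (t / R) η (-t / R)` with `R ≥ max D₀ (2 c₀ C + 1)`: `χ = 1` for `|t| ≤ R`, `χ = 0` for
  `|t| ≥ 2 R`, Lipschitz with constant `2 c₀ / R ≤ 1 / C`. Put `θ' x = χ x.1 * θ x`, `D = 2 R`:
  `|θ' x - θ' y| ≤ |χ x.1| |θ x - θ y| + |χ x.1 - χ y.1| |θ y| ≤ K ‖x - y‖ + (1/C) (K M) ‖x - y‖ ≤ (K + 1) ‖x - y‖`.
* `pnoret_all`: given `x`, `t` with `|t| ≥ 1`: the orbit piece between times `0` and `t` is in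
  `|t-coordinate| ≤ |x.1| + |t| =: D₀` (`p_norm`). Cut off with this `D₀`: `θ'`, flow `Ψ'` (`exists_PFlow`). By `p_agree`
  `Ψ' t x = Ψ t x`; `pgood` for `θ'` and `pnoret` with the Lipschitz constant `K + 1`.
-/

set_option autoImplicit false

open scoped ContDiff Topology
open Set

namespace Pool.Agent.H2.TI

open Pool.Agent.H2.TG

variable {θ : ℝ × ℝ → ℝ} {M K : ℝ} {Ψ : ℝ → ℝ × ℝ → ℝ × ℝ}

private theorem pcut_bound (hP : PPhase θ M K) (x : ℝ × ℝ) : |θ x| ≤ K * (2 * M) := by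
  have hM := hP.hM
  have hK := hP.hK
  by_cases hx : M ≤ |x.2|
  · rw [hP.supp x hx, abs_zero]
    positivity
  · push Not at hx
    have h1 := hP.lip x (x.1, M)
    have h2 : θ (x.1, M) = 0 := hP.supp (x.1, M) (le_abs_self M)
    rw [h2, sub_zero] at h1
    have h3 : ‖x - (x.1, M)‖ ≤ 2 * M := by
      rw [Prod.norm_def]
      apply max_le
      · show ‖x.1 - x.1‖ ≤ 2 * M
        rw [sub_self, norm_zero]
        positivity
      · show ‖x.2 - M‖ ≤ 2 * M
        rw [Real.norm_eq_abs, abs_le]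
        have h4 := abs_lt.1 hx
        constructor <;> linarith [h4.1, h4.2]
    exact h1.trans (mul_le_mul_of_nonneg_left h3 hK.le)

theorem exists_pcut (hP : PPhase θ M K) (D₀ : ℝ) : ∃ (θ' : ℝ × ℝ → ℝ) (D : ℝ),
    PPhase θ' M (K + 1) ∧ Lat θ' D ∧ (∀ x : ℝ × ℝ, |x.1| ≤ D₀ → θ' x = θ x) ∧
      ∀ x, θ x = 0 → θ' x = 0 := by
  have hM := hP.hM
  have hK := hP.hK
  let f : ContDiffBump (0 : ℝ) := ⟨1, 2, one_pos, one_lt_two⟩
  obtain ⟨C₀, hC₀⟩ := ContDiff.lipschitzWith_of_hasCompactSupport f.hasCompactSupport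
    (f.contDiff (n := 1)) one_ne_zero
  have hC : (0 : ℝ) ≤ C₀ := C₀.2
  set R : ℝ := |D₀| + 1 + C₀ * (K * (2 * M)) with hR
  have hKM : 0 ≤ K * (2 * M) := by positivity
  have hR1 : 1 ≤ R := by
    have h1 := abs_nonneg D₀
    have h2 := mul_nonneg hC hKM
    linarith
  have hR0 : 0 < R := by linarith
  have hχl : ∀ t u : ℝ, |f (t / R) - f (u / R)| ≤ C₀ / R * |t - u| := by
    intro t u
    have h1 := hC₀.dist_le_mul (t / R) (u / R)
    rw [Real.dist_eq, Real.dist_eq, ← sub_div, abs_div, abs_of_pos hR0] at h1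
    calc |f (t / R) - f (u / R)| ≤ C₀ * (|t - u| / R) := h1
      _ = C₀ / R * |t - u| := by ring
  have hχ0 : ∀ t, 0 ≤ f (t / R) := fun t => f.nonneg
  have hχ1 : ∀ t, f (t / R) ≤ 1 := fun t => f.le_one
  refine ⟨fun x => f (x.1 / R) * θ x, 2 * R, ⟨?_, ?_, ?_, hM, by linarith⟩,
    ⟨by linarith, ?_⟩, ?_, ?_⟩
  · have h1 : ContDiff ℝ ∞ fun x : ℝ × ℝ => x.1 / R := contDiff_fst.div_const R
    exact (f.contDiff.comp h1).mul hP.smooth
  · intro x hx
    show f (x.1 / R) * θ x = 0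
    rw [hP.supp x hx, mul_zero]
  · intro x y
    show |f (x.1 / R) * θ x - f (y.1 / R) * θ y| ≤ (K + 1) * ‖x - y‖
    have h1 : f (x.1 / R) * θ x - f (y.1 / R) * θ y
        = f (x.1 / R) * (θ x - θ y) + (f (x.1 / R) - f (y.1 / R)) * θ y := by ring
    rw [h1]
    refine (abs_add_le _ _).trans ?_
    rw [abs_mul, abs_mul, abs_of_nonneg (hχ0 x.1)]
    have h2 : f (x.1 / R) * |θ x - θ y| ≤ 1 * (K * ‖x - y‖) :=
      mul_le_mul (hχ1 x.1) (hP.lip x y) (abs_nonneg _) zero_le_one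
    have h3 : |x.1 - y.1| ≤ ‖x - y‖ := by
      have h4 : ‖x.1 - y.1‖ ≤ ‖x - y‖ := norm_fst_le (x - y)
      rwa [Real.norm_eq_abs] at h4
    have h5 : |f (x.1 / R) - f (y.1 / R)| ≤ C₀ / R * ‖x - y‖ :=
      (hχl x.1 y.1).trans (mul_le_mul_of_nonneg_left h3 (by positivity))
    have h6 : |f (x.1 / R) - f (y.1 / R)| * |θ y| ≤ C₀ / R * ‖x - y‖ * (K * (2 * M)) :=
      mul_le_mul h5 (pcut_bound hP y) (abs_nonneg _) (by positivity)
    have h7 : C₀ / R * (K * (2 * M)) ≤ 1 := by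
      rw [div_mul_eq_mul_div, div_le_one hR0]
      have h8 := abs_nonneg D₀
      linarith
    have h9 : C₀ / R * ‖x - y‖ * (K * (2 * M)) ≤ 1 * ‖x - y‖ := by
      have h10 : C₀ / R * ‖x - y‖ * (K * (2 * M)) = C₀ / R * (K * (2 * M)) * ‖x - y‖ := by ring
      rw [h10]
      exact mul_le_mul_of_nonneg_right h7 (norm_nonneg _)
    linarith
  · intro x hx
    show f (x.1 / R) * θ x = 0
    have h1 : f (x.1 / R) = 0 := by
      refine f.zero_of_le_dist ?_
      show (2 : ℝ) ≤ dist (x.1 / R) 0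
      rw [Real.dist_eq, sub_zero, abs_div, abs_of_pos hR0, le_div_iff₀ hR0]
      exact hx
    rw [h1, zero_mul]
  · intro x hx
    show f (x.1 / R) * θ x = θ x
    have h1 : f (x.1 / R) = 1 := by
      refine f.one_of_mem_closedBall ?_
      show x.1 / R ∈ Metric.closedBall (0 : ℝ) 1
      rw [Metric.mem_closedBall, Real.dist_eq, sub_zero, abs_div, abs_of_pos hR0, div_le_one hR0]
      have h2 := le_abs_self D₀
      have h3 := mul_nonneg hC hKM
      linarith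
    rw [h1, one_mul]
  · intro x hx
    show f (x.1 / R) * θ x = 0
    rw [hx, mul_zero]

theorem pnoret_all (hP : PPhase θ M K) (hF : IsFlow (PX θ 1) Ψ) (x : ℝ × ℝ) (t : ℝ)
    (ht : 1 ≤ |t|) : 1 / (100 * (K + 2)) ≤ ‖Ψ t x - x‖ := by
  obtain ⟨θ', D, hP', hD', heq, -⟩ := exists_pcut hP (|x.1| + |t|)
  obtain ⟨Ψ', hΨ', -⟩ := exists_PFlow hP'
  have hF' := hΨ' 1
  have h1 : Ψ' 1 t x = Ψ t x := by
    refine p_agree hP hP' hF hF' fun u hu => heq _ ?_
    have h2 : ‖(Ψ u x).1 - x.1‖ ≤ ‖Ψ u x - x‖ := norm_fst_le (Ψ u x - x)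
    have h3 := p_norm hF x u
    have h4 : |u| ≤ |t| := by
      have h5 := Set.abs_sub_left_of_mem_uIcc hu
      rwa [sub_zero, sub_zero] at h5
    have h6 : |(Ψ u x).1| ≤ |x.1| + |(Ψ u x).1 - x.1| := by
      have h7 := abs_add_le x.1 ((Ψ u x).1 - x.1)
      rwa [add_sub_cancel] at h7
    rw [Real.norm_eq_abs] at h2
    linarith
  have h2 := pnoret hP' hD' zero_le_one le_rfl hF' (pgood hP' hD' hF') x t ht
  rw [h1] at h2
  have h3 : K + 1 + 1 = K + 2 := by ring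
  rwa [h3] at h2

end Pool.Agent.H2.TI
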