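import Pool.Agent.H2.TG.Defs

/-!
# Planar definitions (helper2, MP_3dbb84, Theorem I)

Paper: `/team-store/h2_rankone_paper.md`.
-/

set_option autoImplicit false

open scoped ContDiff Topology
open Set Filter

namespace Pool.Agent.H2.TI

open Pool.Agent.H2.TG

/-! ## Planar flows -/

/-- The planar vector field with phase `s θ + π / 2`. -/
noncomputable def PX (θ : ℝ × ℝ → ℝ) (s : ℝ) (x : ℝ × ℝ) : ℝ × ℝ :=
  (-Real.sin (s * θ x), Real.cos (s * θ x))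

/-- Smooth Lipschitz phases, zero for `|r| ≥ M`. -/
structure PPhase (θ : ℝ × ℝ → ℝ) (M K : ℝ) : Prop where
  smooth : ContDiff ℝ ∞ θ
  supp : ∀ x : ℝ × ℝ, M ≤ |x.2| → θ x = 0
  lip : ∀ x y, |θ x - θ y| ≤ K * ‖x - y‖
  hM : 0 < M
  hK : 0 < K

/-- The phase vanishes for `|t| ≥ D`. -/
def Lat (θ : ℝ × ℝ → ℝ) (D : ℝ) : Prop := 0 < D ∧ ∀ x : ℝ × ℝ, D ≤ |x.1| → θ x = 0

/-- Every orbit passes from the bottom through the strip `|r| ≤ M` to the top, in time `τ`. -/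
def GoodP (M τ : ℝ) (Ψ : ℝ → ℝ × ℝ → ℝ × ℝ) : Prop :=
  ∀ x : ℝ × ℝ, |x.2| ≤ M → M + 1 ≤ (Ψ τ x).2 ∧ (Ψ (-τ) x).2 ≤ -M - 1

/-- Bottom coordinate `b` and bottom time `T` of a planar flow: the point `x` is reached from
`(b x, -M)` in time `T x`. -/
structure PBot (θ : ℝ × ℝ → ℝ) (s M D : ℝ) (Ψ : ℝ → ℝ × ℝ → ℝ × ℝ) (b T : ℝ × ℝ → ℝ) :
    Prop where
  smooth : ContDiff ℝ ∞ b
  cont : Continuous T
  eq : ∀ x, Ψ (T x) (b x, -M) = x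
  inv : ∀ t x, b (Ψ t x) = b x
  invT : ∀ t x, T (Ψ t x) = T x + t
  bot : ∀ x : ℝ × ℝ, x.2 ≤ -M → b x = x.1
  lat : ∀ x : ℝ × ℝ, D ≤ |x.1| → b x = x.1
  ker : ∀ x w, fderiv ℝ b x w = 0 → ∃ c : ℝ, w = c • PX θ s x

/-- A curve tangent to the phase `θ`, from `t = -∞` to `t = +∞`, with top gates (the forward orbit of
the point is laterally bounded by `w`) and bottom gates in every parameter interval of length `P`. -/
structure PCurve (θ : ℝ × ℝ → ℝ) (M w P : ℝ) (c : ℝ → ℝ × ℝ) (Ψ : ℝ → ℝ × ℝ → ℝ × ℝ) : Prop where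
  deriv : ∀ s, HasDerivAt c (Real.cos (θ (c s)), Real.sin (θ (c s))) s
  bd : ∀ s, |(c s).2| ≤ M
  right : Tendsto (fun s => (c s).1) atTop atTop
  left : Tendsto (fun s => (c s).1) atBot atBot
  hP : 0 < P
  hw : 0 ≤ w
  top : ∀ s, ∃ u, s ≤ u ∧ u ≤ s + P ∧ ∀ t, 0 ≤ t → |(Ψ t (c u)).1 - (c u).1| ≤ w
  bottom : ∀ s, ∃ u, s ≤ u ∧ u ≤ s + P ∧ ∀ t, t ≤ 0 → |(Ψ t (c u)).1 - (c u).1| ≤ w

/-! ## Planar one dimensional submanifolds -/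

/-- `g` is a regular local equation of `Z` on the open set `W`. -/
structure PEq (Z W : Set (ℝ × ℝ)) (g : ℝ × ℝ → ℝ) : Prop where
  isOpen : IsOpen W
  smooth : ContDiffOn ℝ ∞ g W
  eqn : ∀ y ∈ W, (y ∈ Z ↔ g y = 0)
  reg : ∀ y ∈ W, ¬ (fderiv ℝ g y (1, 0) = 0 ∧ fderiv ℝ g y (0, 1) = 0)

/-- A curve in the plane with unit speed and phase `φ`. -/
structure PC (c : ℝ → ℝ × ℝ) (φ : ℝ → ℝ) : Prop where
  deriv : ∀ s, HasDerivAt c (Real.cos (φ s), Real.sin (φ s)) s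
  cont : Continuous φ

/-- A leaf of `Z`: a curve with unit speed in `Z`; points of `Z` closer than `δ` to `c s` are on the
leaf, at parameter distance less than `1`; the leaf is injective or an embedded closed curve. -/
structure PLeaf (Z : Set (ℝ × ℝ)) (δ : ℝ) (c : ℝ → ℝ × ℝ) (φ : ℝ → ℝ) : Prop where
  mem : ∀ s, c s ∈ Z
  pc : PC c φ
  sep : ∀ s, ∀ w ∈ Z, ‖w - c s‖ < δ → ∃ s', |s'| < 1 ∧ c (s + s') = w
  dich : Function.Injective c ∨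
    ∃ P, 0 < P ∧ (∀ s, c (s + P) = c s) ∧ ∀ s t, s < t → t < s + P → c s ≠ c t

/-- A closed one dimensional submanifold of `ℝ × (-M, M)` with leaves and a primitive `F` of
`r dt`. -/
structure PSet (Z : Set (ℝ × ℝ)) (M K δ : ℝ) (F : ℝ × ℝ → ℝ) : Prop where
  closed : IsClosed Z
  hM : 0 < M
  hK : 0 < K
  hδ : 0 < δ
  bdd : ∀ w ∈ Z, |w.2| < M
  loc : ∀ w ∈ Z, ∃ W g, w ∈ W ∧ PEq Z W g
  smooth : ContDiff ℝ ∞ F
  lip : ∀ y : ℝ × ℝ, |y.2| ≤ M → |fderiv ℝ F y (0, 1)| ≤ K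
  prim : ∀ w ∈ Z, ∀ W g, w ∈ W → PEq Z W g → ∀ a b : ℝ, fderiv ℝ g w (a, b) = 0 →
    fderiv ℝ F w (a, b) = w.2 * a
  leaf : ∀ w ∈ Z, ∃ c φ, PLeaf Z δ c φ ∧ c 0 = w

/-- The point of `ℂ`. -/
noncomputable def cx (w : ℝ × ℝ) : ℂ := (w.1 : ℂ) + (w.2 : ℂ) * Complex.I

/-- The logarithmic integral; its imaginary part is the total angle of `c s - z`. -/
noncomputable def Wn (c : ℝ → ℝ × ℝ) (φ : ℝ → ℝ) (a b : ℝ) (z : ℝ × ℝ) : ℂ :=
  ∫ s in a..b, Complex.exp (φ s * Complex.I) / (cx (c s) - cx z)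

/-- The end `+∞` of the curve is on the side `e` (`e = 1`: `t → +∞`, `e = -1`: `t → -∞`). -/
def EndR (c : ℝ → ℝ × ℝ) (e : ℝ) : Prop := Tendsto (fun s => e * (c s).1) atTop atTop

/-- The end `-∞` of the curve is on the side `e`. -/
def EndL (c : ℝ → ℝ × ℝ) (e : ℝ) : Prop := Tendsto (fun s => e * (c s).1) atBot atTop

/-- A continuous lift of the directions of the secants of a curve. -/
structure PLift (c : ℝ → ℝ × ℝ) (φ : ℝ → ℝ) (η : ℝ × ℝ → ℝ) : Prop where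
  cont : Continuous η
  diag : ∀ s, η (s, s) = φ s
  sec : ∀ s t, s < t → ∃ ρ, 0 < ρ ∧ c t - c s = (ρ * Real.cos (η (s, t)), ρ * Real.sin (η (s, t)))

end Pool.Agent.H2.TI
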