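import Pool.Agent.H2.TI.PFlow
import Pool.Agent.H2.TG.Pigeon

/-!
# Uniform passage time for laterally confined planar orbits (module PUTime)

PROOF (compare `H2/TG/UTime.lean`). `N` from `pigeon` with the rectangle `|a| ≤ A`, `|b| ≤ M` and
`δ = ε`. Let `|x.2| ≤ M` and suppose the forward orbit is confined. Claim: `|(Ψ k x).2| ≤ M` fails for some
integer `0 ≤ k ≤ N`. Otherwise the points `p k = ((Ψ k x).1 - x.1, (Ψ k x).2)` are in the rectangle, so there are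
`j < k ≤ N` with `‖Ψ k x - Ψ j x‖ < ε` (sup norm), i.e. `‖Ψ (k - j) y - y‖ < ε`, `y = Ψ j x`, `k - j ≥ 1`:
contradiction. `(Ψ k x).2 < -M` is impossible (`p_down` at this point with time `-k`), so it is `> M` and
`p_up` gives `(Ψ (N + 1) x).2 = (Ψ k x).2 + (N + 1 - k) ≥ M + 1`. Backward: the same with `Ψ (-k)`, `p_up` and
`p_down` exchanged.
-/

set_option autoImplicit false

open scoped ContDiff Topology
open Set

namespace Pool.Agent.H2.TI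

open Pool.Agent.H2.TG

private theorem putime_leave {M A ε : ℝ} {N : ℕ}
    (hN : ∀ p : ℕ → ℝ × ℝ,
      (∀ k ≤ N, |(p k).1| ≤ A ∧ |(p k).2| ≤ M) → ∃ j k, j < k ∧ k ≤ N ∧
        |(p k).1 - (p j).1| < ε ∧ |(p k).2 - (p j).2| < ε)
    {θ : ℝ × ℝ → ℝ} {K s : ℝ} {Ψ : ℝ → ℝ × ℝ → ℝ × ℝ} (hP : PPhase θ M K)
    (hF : IsFlow (PX θ s) Ψ) (hret : ∀ x t, 1 ≤ |t| → ε ≤ ‖Ψ t x - x‖) (x : ℝ × ℝ) {σ : ℝ}
    (hσ : |σ| = 1) (hc : ∀ k : ℕ, |(Ψ (σ * k) x).1 - x.1| ≤ A) :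
    ∃ k : ℕ, k ≤ N ∧ M < |(Ψ (σ * k) x).2| := by
  by_contra hcon
  push Not at hcon
  obtain ⟨j, k, hjk, hkN, h1, h2⟩ := hN
    (fun k => ((Ψ (σ * k) x).1 - x.1, (Ψ (σ * k) x).2))
    (fun k hk => ⟨hc k, hcon k hk⟩)
  simp only at h1 h2
  have hadd : Ψ (σ * ((k : ℝ) - j)) (Ψ (σ * j) x) = Ψ (σ * k) x := by
    rw [hF.add (PX_contDiff hP s)]
    congr 1
    ring
  have habs : 1 ≤ |σ * ((k : ℝ) - j)| := by
    rw [abs_mul, hσ, one_mul]
    have h3 : (j : ℝ) + 1 ≤ k := by exact_mod_cast hjk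
    rw [abs_of_nonneg (by linarith)]
    linarith
  have h4 := hret (Ψ (σ * j) x) _ habs
  rw [hadd, Prod.norm_def] at h4
  have h5 : ‖(Ψ (σ * k) x - Ψ (σ * j) x).1‖ < ε := by
    rw [Prod.fst_sub, Real.norm_eq_abs]
    have e : (Ψ (σ * k) x).1 - (Ψ (σ * j) x).1 =
        (Ψ (σ * k) x).1 - x.1 - ((Ψ (σ * j) x).1 - x.1) := by ring
    rw [e]
    exact h1
  have h7 : ‖(Ψ (σ * k) x - Ψ (σ * j) x).2‖ < ε := by
    rw [Prod.snd_sub, Real.norm_eq_abs]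
    exact h2
  exact absurd h4 (not_le.2 (max_lt h5 h7))

theorem putime (M A : ℝ) {ε : ℝ} (hε : 0 < ε) : ∃ N : ℕ, 0 < N ∧
    ∀ (θ : ℝ × ℝ → ℝ) (K s : ℝ) (Ψ : ℝ → ℝ × ℝ → ℝ × ℝ), PPhase θ M K → IsFlow (PX θ s) Ψ →
      (∀ x t, 1 ≤ |t| → ε ≤ ‖Ψ t x - x‖) → ∀ x : ℝ × ℝ, |x.2| ≤ M →
        ((∀ t, 0 ≤ t → |(Ψ t x).1 - x.1| ≤ A) → M + 1 ≤ (Ψ ((N : ℝ) + 1) x).2) ∧
        ((∀ t, t ≤ 0 → |(Ψ t x).1 - x.1| ≤ A) → (Ψ (-((N : ℝ) + 1)) x).2 ≤ -M - 1) := by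
  obtain ⟨N, hN0, hN⟩ := pigeon A M hε
  refine ⟨N, hN0, fun θ K s Ψ hP hF hret x hx => ?_⟩
  have hX := PX_contDiff hP s
  rw [abs_le] at hx
  constructor
  · intro hc
    obtain ⟨k, hk, h1⟩ := putime_leave hN hP hF hret x (σ := 1) (by simp)
      (fun k => hc _ (by positivity))
    rw [one_mul] at h1
    have hkN : (k : ℝ) ≤ N := by exact_mod_cast hk
    have hk0 : (0 : ℝ) ≤ k := Nat.cast_nonneg k
    rcases lt_abs.1 h1 with h2 | h2
    · have h3 := p_up hP hF h2.le (t := (N : ℝ) + 1 - k) (by linarith)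
      rw [hF.add hX] at h3
      have h4 : (N : ℝ) + 1 - k + k = N + 1 := by ring
      rw [h4] at h3
      rw [h3]
      show M + 1 ≤ (Ψ k x).2 + ((N : ℝ) + 1 - k)
      linarith
    · exfalso
      have h3 := p_down hP hF (x := Ψ k x) (by linarith) (t := -k) (by linarith)
      rw [hF.add hX] at h3
      have h4 : -(k : ℝ) + k = 0 := by ring
      rw [h4, hF.zero] at h3
      have h5 : x.2 = (Ψ k x).2 + -k := congrArg Prod.snd h3
      linarith [hx.1]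
  · intro hc
    obtain ⟨k, hk, h1⟩ := putime_leave hN hP hF hret x (σ := -1) (by simp)
      (fun k => hc _ (by
        have : (0 : ℝ) ≤ k := Nat.cast_nonneg k
        linarith))
    have hm : (-1 : ℝ) * k = -k := by ring
    rw [hm] at h1
    have hkN : (k : ℝ) ≤ N := by exact_mod_cast hk
    have hk0 : (0 : ℝ) ≤ k := Nat.cast_nonneg k
    rcases lt_abs.1 h1 with h2 | h2
    · exfalso
      have h3 := p_up hP hF h2.le (t := k) hk0
      rw [hF.add hX] at h3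
      have h4 : (k : ℝ) + -k = 0 := by ring
      rw [h4, hF.zero] at h3
      have h5 : x.2 = (Ψ (-k) x).2 + k := congrArg Prod.snd h3
      linarith [hx.2]
    · have h3 := p_down hP hF (x := Ψ (-k) x) (by linarith) (t := -((N : ℝ) + 1 - k))
        (by linarith)
      rw [hF.add hX] at h3
      have h4 : -((N : ℝ) + 1 - k) + -k = -((N : ℝ) + 1) := by ring
      rw [h4] at h3
      rw [h3]
      show (Ψ (-k) x).2 + -((N : ℝ) + 1 - k) ≤ -M - 1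
      linarith

end Pool.Agent.H2.TI
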