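import Pool.Agent.H2.TI.PNoRet
import Pool.Agent.H2.TI.PUTime

/-!
# Planar flows of compactly supported phases have no trapped orbits (module PGood)

PROOF (compare `H2/TG/GoodOne.lean`). Joint flow `Ψ s` from `exists_PFlow`. `ε = 1 / (100 (K + 1))`, `N` from
`putime M (2 D) ε` (orbits of points with `|x.1| ≤ D` satisfy `|(Ψ t x).1 - x.1| ≤ 2 D` by `p_conf`; orbits of points
with `|x.1| ≥ D` are vertical, `p_lat`), `τ = N + 1 + (2 M + 2)` (adding time is harmless: `p_up`, `p_down`). So: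
(*) if `0 ≤ s ≤ 1` and `Ψ s` satisfies `GoodP M τ' (Ψ s)` for some `τ' > 0`, then `pnoret` and `putime` give
`GoodP M τ (Ψ s)`.
Let `A = {s ∈ [0, 1] | GoodP M τ (Ψ s)}`. `0 ∈ A` (vertical flow, `τ ≥ 2 M + 1`). `A` is closed (continuity in
`s`). `A` is open in `[0, 1]`: the set `K₀ = {|x.1| ≤ D, |x.2| ≤ M}` is compact, so for `s` near `s₀ ∈ A`,
`(Ψ s τ x).2 > M` and `(Ψ s (-τ) x).2 < -M` for all `x ∈ K₀` (tube lemma), and for `|x.1| ≥ D` by `p_lat`; so
`GoodP M (τ + 1) (Ψ s)` by `p_up`, `p_down`, and (*) applies. So `1 ∈ A`; the flow `Ψ` of the statement is `Ψ 1`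
(`IsFlow.unique`).
-/

set_option autoImplicit false

open scoped ContDiff Topology
open Set

namespace Pool.Agent.H2.TI

open Pool.Agent.H2.TG

variable {θ : ℝ × ℝ → ℝ} {M K D : ℝ} {Ψ : ℝ → ℝ × ℝ → ℝ × ℝ}

private theorem PGood_zero {Ψ : ℝ → ℝ × ℝ → ℝ × ℝ} (hP : PPhase θ M K)
    (hF : IsFlow (PX θ 0) Ψ) (x : ℝ × ℝ) (t : ℝ) : Ψ t x = (x.1, x.2 + t) := by
  have h1 : ∀ t : ℝ, HasDerivAt (fun t : ℝ => ((x.1, x.2 + t) : ℝ × ℝ))
      (PX θ 0 (x.1, x.2 + t)) t := by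
    intro t
    have e : PX θ 0 (x.1, x.2 + t) = ((0 : ℝ), (1 : ℝ)) := by
      unfold PX
      simp
    rw [e]
    exact (hasDerivAt_const t x.1).prodMk ((hasDerivAt_id t).const_add x.2)
  have h2 := hF.unique (PX_contDiff hP 0) h1 t
  simp only [add_zero] at h2
  exact h2.symm

/-- it is enough to pass `M` -/
private theorem PGood_succ {Ψ : ℝ → ℝ × ℝ → ℝ × ℝ} {s τ : ℝ} (hP : PPhase θ M K)
    (hF : IsFlow (PX θ s) Ψ)
    (h : ∀ x : ℝ × ℝ, |x.2| ≤ M → M < (Ψ τ x).2 ∧ (Ψ (-τ) x).2 < -M) :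
    GoodP M (τ + 1) Ψ := by
  intro x hx
  obtain ⟨h1, h2⟩ := h x hx
  constructor
  · rw [add_comm τ 1, ← hF.add (PX_contDiff hP s), p_up hP hF h1.le zero_le_one]
    simp only
    linarith
  · have e : -(τ + 1) = -1 + -τ := by ring
    rw [e, ← hF.add (PX_contDiff hP s), p_down hP hF h2.le (by norm_num)]
    simp only
    linarith

theorem pgood (hP : PPhase θ M K) (hD : Lat θ D) (hF : IsFlow (PX θ 1) Ψ) :
    ∃ τ, 0 < τ ∧ GoodP M τ Ψ := by
  obtain ⟨Φ, hΦ, hcont⟩ := exists_PFlow hP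
  have hM := hP.hM
  have hK := hP.hK
  have hε : (0 : ℝ) < 1 / (100 * (K + 1)) := by positivity
  obtain ⟨N, hN, hut⟩ := putime M (2 * D) hε
  have hN0 : (0 : ℝ) < N := by exact_mod_cast hN
  set τ : ℝ := 2 * M + 2 + ((N : ℝ) + 1) with hτ
  have hτ0 : 0 < τ := by positivity
  -- the improvement
  have hstar : ∀ s : ℝ, 0 ≤ s → s ≤ 1 → (∃ τ', 0 < τ' ∧ GoodP M τ' (Φ s)) →
      GoodP M τ (Φ s) := by
    intro s hs0 hs1 hG x hx
    have hret : ∀ y t, 1 ≤ |t| → 1 / (100 * (K + 1)) ≤ ‖Φ s t y - y‖ := fun y t ht =>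
      pnoret hP hD hs0 hs1 (hΦ s) hG y t ht
    obtain ⟨h1, h2⟩ := hut θ K s (Φ s) hP (hΦ s) hret x hx
    by_cases hx1 : |x.1| ≤ D
    · have hc : ∀ t, |(Φ s t x).1 - x.1| ≤ 2 * D := by
        intro t
        have e1 := p_conf hP hD (hΦ s) hx1 t
        rw [abs_le] at e1 hx1 ⊢
        constructor
        · linarith [e1.1, hx1.2]
        · linarith [e1.2, hx1.1]
      have h3 := h1 fun t _ => hc t
      have h4 := h2 fun t _ => hc t
      constructor
      · rw [hτ, ← (hΦ s).add (PX_contDiff hP s), p_up hP (hΦ s) (by linarith) (by positivity)]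
        simp only
        linarith
      · have e : -τ = -(2 * M + 2) + -((N : ℝ) + 1) := by rw [hτ]; ring
        rw [e, ← (hΦ s).add (PX_contDiff hP s), p_down hP (hΦ s) (by linarith) (by linarith)]
        simp only
        linarith
    · have hx2 : D ≤ |x.1| := (not_le.1 hx1).le
      rw [abs_le] at hx
      constructor
      · rw [p_lat hP hD (hΦ s) hx2]
        simp only
        linarith [hx.1]
      · rw [p_lat hP hD (hΦ s) hx2]
        simp only
        linarith [hx.2]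
  set A : Set ℝ := {s | GoodP M τ (Φ s)} with hA
  have hc : ∀ (t : ℝ), Continuous fun y : ℝ × (ℝ × ℝ) => (Φ y.1 t y.2).2 := fun t =>
    continuous_snd.comp (hcont.comp (continuous_fst.prodMk (continuous_const.prodMk continuous_snd)))
  have hc' : ∀ (t : ℝ) (x : ℝ × ℝ), Continuous fun s : ℝ => (Φ s t x).2 := fun t x =>
    (hc t).comp (continuous_id.prodMk continuous_const)
  have hclosed : IsClosed A := by
    have e : A = ⋂ (x : ℝ × ℝ) (_ : |x.2| ≤ M),
        ({s | M + 1 ≤ (Φ s τ x).2} ∩ {s | (Φ s (-τ) x).2 ≤ -M - 1}) := by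
      ext s
      simp only [hA, GoodP, mem_ofPred_eq, mem_iInter, mem_inter_iff]
    rw [e]
    refine isClosed_iInter fun x => isClosed_iInter fun _ => IsClosed.inter ?_ ?_
    · exact isClosed_le continuous_const (hc' τ x)
    · exact isClosed_le (hc' (-τ) x) continuous_const
  have h0 : (0 : ℝ) ∈ A := by
    intro x hx
    rw [abs_le] at hx
    rw [PGood_zero hP (hΦ 0), PGood_zero hP (hΦ 0)]
    constructor
    · simp only
      linarith [hx.1]
    · simp only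
      linarith [hx.2]
  have hopen : ∀ s₀ ∈ A, ∀ᶠ s in 𝓝 s₀, s ∈ Icc (0 : ℝ) 1 → s ∈ A := by
    intro s₀ hs₀
    set C : Set (ℝ × ℝ) := Icc (-D) D ×ˢ Icc (-M) M with hC
    have hCc : IsCompact C := isCompact_Icc.prod isCompact_Icc
    have hC2 : ∀ x ∈ C, |x.2| ≤ M := fun x hx => abs_le.2 hx.2
    have h1 : ∀ᶠ s in 𝓝 s₀, ∀ x ∈ C, M < (Φ s τ x).2 := by
      refine hCc.eventually_forall_of_forall_eventually fun x hx => ?_
      have h2 : M < (Φ s₀ τ x).2 := by linarith [(hs₀ x (hC2 x hx)).1]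
      exact (hc τ).continuousAt.eventually (Ioi_mem_nhds h2)
    have h2 : ∀ᶠ s in 𝓝 s₀, ∀ x ∈ C, (Φ s (-τ) x).2 < -M := by
      refine hCc.eventually_forall_of_forall_eventually fun x hx => ?_
      have h2 : (Φ s₀ (-τ) x).2 < -M := by linarith [(hs₀ x (hC2 x hx)).2]
      exact (hc (-τ)).continuousAt.eventually (Iio_mem_nhds h2)
    filter_upwards [h1, h2] with s h1 h2 hs
    have h3 : GoodP M (τ + 1) (Φ s) := by
      refine PGood_succ hP (hΦ s) fun x hx => ?_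
      by_cases hx1 : |x.1| ≤ D
      · have hy : x ∈ C := ⟨abs_le.1 hx1, abs_le.1 hx⟩
        exact ⟨h1 x hy, h2 x hy⟩
      · have hx2 : D ≤ |x.1| := (not_le.1 hx1).le
        rw [abs_le] at hx
        rw [p_lat hP hD (hΦ s) hx2, p_lat hP hD (hΦ s) hx2]
        simp only
        constructor
        · linarith [hx.1]
        · linarith [hx.2]
    exact hstar s hs.1 hs.2 ⟨τ + 1, by linarith, h3⟩
  have hall : Icc (0 : ℝ) 1 ⊆ A := by
    refine IsClosed.Icc_subset_of_forall_exists_gt (hclosed.inter isClosed_Icc) h0 ?_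
    intro s hs y hy
    have h1 := hopen s hs.1
    have h2 : ∀ᶠ z in 𝓝[>] s, z ∈ Ioc s (min y 1) :=
      Ioc_mem_nhdsGT (lt_min hy hs.2.2)
    obtain ⟨z, hz1, hz2⟩ := ((h1.filter_mono nhdsWithin_le_nhds).and h2).exists
    refine ⟨z, hz1 ⟨hs.2.1.trans hz2.1.le, hz2.2.trans (min_le_right _ _)⟩, hz2.1,
      hz2.2.trans (min_le_left _ _)⟩
  have h1A : GoodP M τ (Φ 1) := hall ⟨zero_le_one, le_rfl⟩
  have huniq : ∀ t x, Φ 1 t x = Ψ t x := by
    intro t x
    have h2 := hF.unique (PX_contDiff hP 1) (γ := fun t => Φ 1 t x) (fun t => (hΦ 1).deriv x t) t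
    simp only [(hΦ 1).zero] at h2
    exact h2
  refine ⟨τ, hτ0, fun x hx => ?_⟩
  rw [← huniq, ← huniq]
  exact h1A x hx

/-- Flow, bottom coordinate and bottom time for compactly supported phases. -/
theorem pbot (hP : PPhase θ M K) (hD : Lat θ D) (hF : IsFlow (PX θ 1) Ψ) :
    ∃ b T, PBot θ 1 M D Ψ b T := by
  obtain ⟨τ, hτ, hG⟩ := pgood hP hD hF
  exact exists_pbot hP hD hF hτ hG

end Pool.Agent.H2.TI
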