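import Pool.Agent.H2.TI.PCut

/-!
# The bottom coordinate is strictly increasing along the curve (module PMono)

Setting: `c` is a `PCurve` for `θ`; `θ'` is a phase which vanishes for `|t| ≥ D` and agrees with `θ` for
`|t| ≤ D₀`; `b, T` bottom coordinate and time of its flow.

PROOFS.
* `c_speed`: the derivative of the first coordinate of `c` is a cosine (mean value inequality).
* `b_pos`: the function `h x = Db(x)(cos θ' x, sin θ' x)` is continuous (`b` is smooth, `θ'` is smooth). It has no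
  zero: if `h x = 0`, `PBot.ker` gives `(cos θ', sin θ') = k • (-sin θ', cos θ')` (`s = 1`), so `cos² + sin² = 0`.
  At `x = (0, -M - 1)`: `θ' = 0` (`supp`) and `b y = y.1` for all `y` near `x` (`PBot.bot`), so `h x = 1`. The plane is
  connected (`isPreconnected_univ`, intermediate value theorem), so `h > 0` everywhere.
* `bc_mono`: on `I = [s₁, s₂]` the derivative of `b (c s)` is `Db(c s)(cos θ (c s), sin θ (c s)) = h (c s) > 0`
  (`θ' = θ` at `c s`); `strictMonoOn_of_deriv_pos` on the convex set `I`.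
-/

set_option autoImplicit false

open scoped ContDiff Topology
open Set

namespace Pool.Agent.H2.TI

open Pool.Agent.H2.TG

variable {θ θ' : ℝ × ℝ → ℝ} {M K K' w P D D₀ s₁ s₂ : ℝ} {c : ℝ → ℝ × ℝ}
  {Ψ Ψ' : ℝ → ℝ × ℝ → ℝ × ℝ} {b T : ℝ × ℝ → ℝ}

theorem c_speed (hc : PCurve θ M w P c Ψ) (s s' : ℝ) : |(c s').1 - (c s).1| ≤ |s' - s| := by
  have h1 : ∀ s, HasDerivAt (fun s => (c s).1) (Real.cos (θ (c s))) s := fun s => by
    exact (hasFDerivAt_fst (𝕜 := ℝ) (E := ℝ) (F := ℝ) (p := c s)).comp_hasDerivAt s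
      (hc.deriv s)
  have h2 := convex_univ.norm_image_sub_le_of_norm_hasDerivWithin_le (x := s) (y := s')
    (f := fun s => (c s).1) (C := 1) (fun s _ => (h1 s).hasDerivWithinAt)
    (fun s _ => by rw [Real.norm_eq_abs]; exact Real.abs_cos_le_one _) (mem_univ s) (mem_univ s')
  rw [one_mul] at h2
  exact h2

private lemma pm_ne (hB : PBot θ' 1 M D Ψ' b T) (x : ℝ × ℝ) :
    fderiv ℝ b x (Real.cos (θ' x), Real.sin (θ' x)) ≠ 0 := by
  intro h0
  obtain ⟨k, hk⟩ := hB.ker x _ h0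
  unfold PX at hk
  rw [one_mul, Prod.smul_mk, Prod.mk.injEq, smul_eq_mul, smul_eq_mul] at hk
  have h1 := Real.cos_sq_add_sin_sq (θ' x)
  have h2 : Real.cos (θ' x) ^ 2 + Real.sin (θ' x) ^ 2 = 0 := by
    have e1 : Real.cos (θ' x) * Real.cos (θ' x) =
        k * -Real.sin (θ' x) * Real.cos (θ' x) := by rw [← hk.1]
    have e2 : Real.sin (θ' x) * Real.sin (θ' x) =
        k * Real.cos (θ' x) * Real.sin (θ' x) := by rw [← hk.2]
    nlinarith
  rw [h1] at h2
  exact one_ne_zero h2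

private lemma pm_base (hP' : PPhase θ' M K') (hB : PBot θ' 1 M D Ψ' b T) :
    fderiv ℝ b (0, -M - 1) (Real.cos (θ' (0, -M - 1)), Real.sin (θ' (0, -M - 1))) = 1 := by
  have hM := hP'.hM
  have h1 : θ' (0, -M - 1) = 0 := by
    apply hP'.supp
    rw [abs_of_neg (by linarith : (-M - 1 : ℝ) < 0)]
    linarith
  have h2 : b =ᶠ[𝓝 ((0 : ℝ), -M - 1)] fun y : ℝ × ℝ => y.1 := by
    have h3 : ∀ᶠ y : ℝ × ℝ in 𝓝 ((0 : ℝ), -M - 1), y.2 < -M :=
      continuous_snd.continuousAt.eventually_lt continuousAt_const (by linarith)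
    filter_upwards [h3] with y hy
    exact hB.bot y hy.le
  rw [h2.fderiv_eq, fderiv_fst, h1, Real.cos_zero]
  rfl

theorem b_pos (hP' : PPhase θ' M K') (hB : PBot θ' 1 M D Ψ' b T) (x : ℝ × ℝ) :
    0 < fderiv ℝ b x (Real.cos (θ' x), Real.sin (θ' x)) := by
  have hcont : Continuous fun x => fderiv ℝ b x (Real.cos (θ' x), Real.sin (θ' x)) := by
    have hθ := hP'.smooth.continuous
    have h1 : Continuous (fderiv ℝ b) := hB.smooth.continuous_fderiv (by simp)
    exact h1.clm_apply ((Real.continuous_cos.comp hθ).prodMk (Real.continuous_sin.comp hθ))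
  by_contra hn
  obtain ⟨y, hy⟩ := mem_range_of_exists_le_of_exists_ge hcont ⟨x, not_lt.1 hn⟩
    ⟨(0, -M - 1), by rw [pm_base hP' hB]; exact zero_le_one⟩
  exact pm_ne hB y hy

theorem bc_mono (hc : PCurve θ M w P c Ψ) (hP' : PPhase θ' M K')
    (hB : PBot θ' 1 M D Ψ' b T) (heq : ∀ x : ℝ × ℝ, |x.1| ≤ D₀ → θ' x = θ x)
    (hI : ∀ s ∈ Icc s₁ s₂, |(c s).1| ≤ D₀) : StrictMonoOn (fun s => b (c s)) (Icc s₁ s₂) := by
  have h1 : ∀ s, HasDerivAt (fun s => b (c s))
      (fderiv ℝ b (c s) (Real.cos (θ (c s)), Real.sin (θ (c s)))) s := fun s =>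
    ((hB.smooth.differentiable (by simp) (c s)).hasFDerivAt).comp_hasDerivAt s (hc.deriv s)
  refine strictMonoOn_of_deriv_pos (convex_Icc _ _)
    (fun s _ => (h1 s).continuousAt.continuousWithinAt) fun s hs => ?_
  rw [(h1 s).deriv, ← heq (c s) (hI s (interior_subset hs))]
  exact b_pos hP' hB (c s)

end Pool.Agent.H2.TI
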