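import Pool.Agent.H2.TI.PBotE

/-!
# Explicit no return constant for planar flows (module PNoRet)

PROOF: literally the proof of `noret` in the proved file `H2/TG/NoRet.lean`, with the explicit Lipschitz
constant `K` of the phase: `ε = 1 / (100 (K + 1))`, so that `‖y - x‖ ≤ 20 ε` implies
`|s θ y - s θ x| ≤ 20 ε K ≤ 1/5`. (The bottom map there is `b`; its kernel is spanned by the field: `PBot.ker`.)
In short: if `‖Ψ t x - x‖ < ε`, `t ≥ 1`, then some `z = Ψ (t + σ) x`, `|σ| ≤ 4 ε`, lies on the line through `x` in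
the direction `e = (cos φ, sin φ)`, `φ = s θ x`, `‖z - x‖ ≤ 5 ε`; `z = x` contradicts `p_low` and `p_high`;
otherwise Rolle for `b` on the segment from `x` to `z` gives `w` with `Db(w) e = 0`, so `e` is a multiple of
`PX θ s w`, impossible since the phases at `w` and `x` differ by at most `1/5`.
-/

set_option autoImplicit false

open scoped ContDiff Topology
open Set

namespace Pool.Agent.H2.TI

open Pool.Agent.H2.TG

variable {θ : ℝ × ℝ → ℝ} {M K D s τ : ℝ} {Ψ : ℝ → ℝ × ℝ → ℝ × ℝ}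

private theorem pnoret_cos {a : ℝ} (ha : |a| ≤ 1 / 5) : (1 : ℝ) / 2 ≤ Real.cos a := by
  have h1 := Real.one_sub_sq_div_two_le_cos (x := a)
  have h2 : a ^ 2 ≤ 1 := by
    rw [← sq_abs]
    have := abs_nonneg a
    nlinarith
  linarith

private theorem pnoret_iter {V : Type} [NormedAddCommGroup V] [NormedSpace ℝ V]
    [FiniteDimensional ℝ V] {X : V → V} {Ψ : ℝ → V → V} (hΨ : IsFlow X Ψ) (hX : ContDiff ℝ ∞ X)
    {t : ℝ} {x : V} (h : Ψ t x = x) (k : ℕ) : Ψ (k * t) x = x := by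
  induction k with
  | zero => simp [hΨ.zero]
  | succ k ih =>
    have h1 : ((k + 1 : ℕ) : ℝ) * t = t + k * t := by push_cast; ring
    rw [h1, ← hΨ.add hX, ih, h]

private theorem pnoret_per (hP : PPhase θ M K) (hF : IsFlow (PX θ s) Ψ) (hτ : 0 < τ)
    (hG : GoodP M τ Ψ) {t : ℝ} (ht : 0 < t) {x : ℝ × ℝ} (h : Ψ t x = x) : False := by
  have hX := PX_contDiff hP s
  have hM := hP.hM
  obtain ⟨τ₁, h1⟩ := p_low hP hF hτ hG x
  obtain ⟨t₀, h2⟩ := p_high hP hF hτ hG x
  have hneg : Ψ (-t) x = x := by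
    have h3 : Ψ (-t) (Ψ t x) = x := by
      rw [hF.add hX, neg_add_cancel, hF.zero]
    rw [h] at h3
    exact h3
  obtain ⟨k, hk⟩ := exists_nat_ge (max τ₁ t₀ / t)
  have hk' : max τ₁ t₀ ≤ k * t := (div_le_iff₀ ht).1 hk
  have h4 := h1 (k * t) (le_trans (le_max_left _ _) hk')
  have h5 := h2 (k * t) (le_trans (le_max_right _ _) hk')
  rw [pnoret_iter hF hX h k] at h5
  have h6 : -(k * t) = k * (-t) := by ring
  rw [h6, pnoret_iter hF hX hneg k] at h4
  linarith

private theorem pnoret_core (hP : PPhase θ M K) (hD : Lat θ D) {ε : ℝ} (hε0 : 0 < ε)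
    (hε1 : ε ≤ 1 / 100) (hεL : K * ε ≤ 1 / 100) (hs0 : 0 ≤ s) (hs1 : s ≤ 1)
    (hF : IsFlow (PX θ s) Ψ) (hτ : 0 < τ) (hG : GoodP M τ Ψ) (x : ℝ × ℝ) (t : ℝ)
    (ht : 1 ≤ t) : ε ≤ ‖Ψ t x - x‖ := by
  have hX := PX_contDiff hP s
  have hM := hP.hM
  have hK := hP.hK
  by_contra hlt
  push Not at hlt
  set y := Ψ t x with hy
  set φ := s * θ x with hφ
  -- the phase is nearly constant near x
  have hph : ∀ w : ℝ × ℝ, ‖w - x‖ ≤ 20 * ε → |s * θ w - φ| ≤ 1 / 5 := by
    intro w hw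
    have h1 := hP.lip w x
    rw [hφ, ← mul_sub, abs_mul, abs_of_nonneg hs0]
    have h2 : K * ‖w - x‖ ≤ K * (20 * ε) := mul_le_mul_of_nonneg_left hw hK.le
    have h3 : |θ w - θ x| ≤ 1 / 5 := by nlinarith
    have h4 := abs_nonneg (θ w - θ x)
    nlinarith
  -- the function ℓ along the orbit
  set f : ℝ → ℝ := fun σ => -Real.sin φ * ((Ψ σ y).1 - x.1) + Real.cos φ * ((Ψ σ y).2 - x.2)
    with hf
  have hfd : ∀ σ, HasDerivAt f (Real.cos (s * θ (Ψ σ y) - φ)) σ := by
    intro σ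
    have h1 := ((p_fst hF y σ).sub_const x.1).const_mul (-Real.sin φ)
    have h2 := ((p_snd hF y σ).sub_const x.2).const_mul (Real.cos φ)
    have h3 := h1.add h2
    have h4 : -Real.sin φ * -Real.sin (s * θ (Ψ σ y)) + Real.cos φ * Real.cos (s * θ (Ψ σ y))
        = Real.cos (s * θ (Ψ σ y) - φ) := by
      rw [Real.cos_sub]; ring
    rw [← h4]
    exact h3
  have hnear : ∀ σ, |σ| ≤ 4 * ε → ‖Ψ σ y - x‖ ≤ 5 * ε := by
    intro σ hσ
    have h1 := p_norm hF y σ
    have h2 : Ψ σ y - x = (Ψ σ y - y) + (y - x) := by abel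
    rw [h2]
    refine (norm_add_le _ _).trans ?_
    linarith
  have hfd2 : ∀ σ, |σ| ≤ 4 * ε → (1 : ℝ) / 2 ≤ Real.cos (s * θ (Ψ σ y) - φ) := by
    intro σ hσ
    exact pnoret_cos (hph _ ((hnear σ hσ).trans (by linarith)))
  have hf0 : |f 0| ≤ 2 * ε := by
    have h1 : |y.1 - x.1| ≤ ε := by
      have : ‖y.1 - x.1‖ ≤ ‖y - x‖ := norm_fst_le (y - x)
      rw [Real.norm_eq_abs] at this
      linarith
    have h2 : |y.2 - x.2| ≤ ε := by
      have : ‖y.2 - x.2‖ ≤ ‖y - x‖ := norm_snd_le (y - x)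
      rw [Real.norm_eq_abs] at this
      linarith
    have h3 : f 0 = -Real.sin φ * (y.1 - x.1) + Real.cos φ * (y.2 - x.2) := by
      simp only [hf, hF.zero]
    rw [h3]
    refine (abs_add_le _ _).trans ?_
    rw [abs_mul, abs_mul, abs_neg]
    have h4 := Real.abs_sin_le_one φ
    have h5 := Real.abs_cos_le_one φ
    have h6 : |Real.sin φ| * |y.1 - x.1| ≤ 1 * ε :=
      mul_le_mul h4 h1 (abs_nonneg _) zero_le_one
    have h7 : |Real.cos φ| * |y.2 - x.2| ≤ 1 * ε :=
      mul_le_mul h5 h2 (abs_nonneg _) zero_le_one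
    linarith
  -- intermediate value
  have hmono : MonotoneOn (fun σ => f σ - σ / 2) (Icc (-(4 * ε)) (4 * ε)) := by
    have hder : ∀ σ, HasDerivAt (fun σ => f σ - σ / 2)
        (Real.cos (s * θ (Ψ σ y) - φ) - 1 / 2) σ :=
      fun σ => (hfd σ).sub ((hasDerivAt_id σ).div_const 2)
    refine monotoneOn_of_deriv_nonneg (convex_Icc _ _)
      (fun σ _ => (hder σ).continuousAt.continuousWithinAt)
      (fun σ _ => (hder σ).differentiableAt.differentiableWithinAt) ?_
    intro σ hσ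
    rw [interior_Icc] at hσ
    rw [(hder σ).deriv]
    have := hfd2 σ (abs_le.2 ⟨hσ.1.le, hσ.2.le⟩)
    linarith
  have hup : 0 ≤ f (4 * ε) := by
    have h1 := hmono (show (0 : ℝ) ∈ Icc (-(4 * ε)) (4 * ε) from ⟨by linarith, by linarith⟩)
      (show (4 * ε) ∈ Icc (-(4 * ε)) (4 * ε) from ⟨by linarith, le_rfl⟩) (by linarith)
    simp only at h1
    have := (abs_le.1 hf0).1
    linarith
  have hdn : f (-(4 * ε)) ≤ 0 := by
    have h1 := hmono (show -(4 * ε) ∈ Icc (-(4 * ε)) (4 * ε) from ⟨le_rfl, by linarith⟩)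
      (show (0 : ℝ) ∈ Icc (-(4 * ε)) (4 * ε) from ⟨by linarith, by linarith⟩) (by linarith)
    simp only at h1
    have := (abs_le.1 hf0).2
    linarith
  have hfc : ContinuousOn f (Icc (-(4 * ε)) (4 * ε)) :=
    fun σ _ => (hfd σ).continuousAt.continuousWithinAt
  obtain ⟨σ, hσ, hσ0⟩ := intermediate_value_Icc (by linarith : -(4 * ε) ≤ 4 * ε) hfc
    (show (0 : ℝ) ∈ Icc (f (-(4 * ε))) (f (4 * ε)) from ⟨hdn, hup⟩)
  have hσa : |σ| ≤ 4 * ε := abs_le.2 ⟨hσ.1, hσ.2⟩
  -- the point z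
  have hz : Ψ σ y = Ψ (σ + t) x := by rw [hy, hF.add hX]
  set z := Ψ σ y with hzdef
  have hzx := hnear σ hσa
  set a := z.1 - x.1 with ha
  set b := z.2 - x.2 with hb
  have hab : -Real.sin φ * a + Real.cos φ * b = 0 := hσ0
  have hsc := Real.sin_sq_add_cos_sq φ
  set lam := a * Real.cos φ + b * Real.sin φ with hlam
  have hla : lam * Real.cos φ = a := by
    have : b * Real.cos φ = a * Real.sin φ := by linarith
    calc lam * Real.cos φ = a * Real.cos φ ^ 2 + (b * Real.cos φ) * Real.sin φ := by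
          rw [hlam]; ring
      _ = a * (Real.sin φ ^ 2 + Real.cos φ ^ 2) := by rw [this]; ring
      _ = a := by rw [hsc, mul_one]
  have hlb : lam * Real.sin φ = b := by
    have : b * Real.cos φ = a * Real.sin φ := by linarith
    calc lam * Real.sin φ = (a * Real.sin φ) * Real.cos φ + b * Real.sin φ ^ 2 := by
          rw [hlam]; ring
      _ = b * (Real.sin φ ^ 2 + Real.cos φ ^ 2) := by rw [← this]; ring
      _ = b := by rw [hsc, mul_one]
  set d : ℝ × ℝ := (a, b) with hd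
  have hzxd : z - x = d := rfl
  have htσ : 0 < σ + t := by
    have := hσ.1
    linarith
  by_cases hl0 : lam = 0
  · -- periodic orbit
    have ha0 : a = 0 := by rw [← hla, hl0, zero_mul]
    have hb0 : b = 0 := by rw [← hlb, hl0, zero_mul]
    have hzx0 : z = x := by
      have : z - x = 0 := by
        rw [hzxd, hd, ha0, hb0]; rfl
      exact sub_eq_zero.1 this
    exact pnoret_per hP hF hτ hG htσ (by rw [← hz]; exact hzx0)
  · -- Rolle
    obtain ⟨B, T, hB⟩ := exists_pbot hP hD hF hτ hG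
    have hBz : B z = B x := by rw [hz, hB.inv]
    have hBd : Differentiable ℝ B := hB.smooth.differentiable (by simp)
    set h : ℝ → ℝ := fun μ => B (x + μ • d) with hh
    have hcurve : ∀ μ : ℝ, HasDerivAt (fun μ : ℝ => x + μ • d) d μ := by
      intro μ
      have := ((hasDerivAt_id μ).smul_const d).const_add x
      simpa using this
    have hhd : ∀ μ : ℝ, HasDerivAt h (fderiv ℝ B (x + μ • d) d) μ := by
      intro μ
      exact (hBd _).hasFDerivAt.comp_hasDerivAt μ (hcurve μ)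
    have h01 : h 0 = h 1 := by
      simp only [hh]
      have h1 : x + (1 : ℝ) • d = z := by rw [one_smul, ← hzxd]; abel
      have h2 : x + (0 : ℝ) • d = x := by rw [zero_smul, add_zero]
      rw [h1, h2, hBz]
    obtain ⟨μ, hμ, hμ0⟩ := exists_hasDerivAt_eq_zero (zero_lt_one' ℝ)
      (fun μ _ => (hhd μ).continuousAt.continuousWithinAt) h01 (fun μ _ => hhd μ)
    set w := x + μ • d with hw
    obtain ⟨c, hc⟩ := hB.ker w d hμ0
    set ψ := s * θ w with hψ
    have h1 : a = -(c * Real.sin ψ) := by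
      have h2 := congrArg Prod.fst hc
      have h3 : a = c • (-Real.sin ψ) := h2
      rw [h3, smul_eq_mul]; ring
    have h2 : b = c * Real.cos ψ := by
      have h2 := congrArg Prod.snd hc
      have h3 : b = c • Real.cos ψ := h2
      simpa using h3
    have h3 : lam * Real.cos (φ - ψ) = 0 := by
      rw [Real.cos_sub]
      have h4 : lam * (Real.cos φ * Real.cos ψ + Real.sin φ * Real.sin ψ)
          = (lam * Real.cos φ) * Real.cos ψ + (lam * Real.sin φ) * Real.sin ψ := by ring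
      rw [h4, hla, hlb, h1, h2]; ring
    have h4 : Real.cos (φ - ψ) = 0 := by
      rcases mul_eq_zero.1 h3 with h | h
      · exact absurd h hl0
      · exact h
    have h5 : ‖w - x‖ ≤ 20 * ε := by
      have h6 : w - x = μ • d := by rw [hw]; abel
      rw [h6, norm_smul, Real.norm_eq_abs, abs_of_pos hμ.1, ← hzxd]
      have h7 := norm_nonneg (z - x)
      nlinarith [hμ.2, hμ.1]
    have h6 := pnoret_cos (hph w h5)
    rw [← hψ, ← neg_sub, Real.cos_neg, h4] at h6
    norm_num at h6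

theorem pnoret (hP : PPhase θ M K) (hD : Lat θ D) (hs0 : 0 ≤ s) (hs1 : s ≤ 1)
    (hF : IsFlow (PX θ s) Ψ) (hG : ∃ τ, 0 < τ ∧ GoodP M τ Ψ) (x : ℝ × ℝ) (t : ℝ)
    (ht : 1 ≤ |t|) : 1 / (100 * (K + 1)) ≤ ‖Ψ t x - x‖ := by
  obtain ⟨τ, hτ, hG⟩ := hG
  have hK := hP.hK
  have h100 : (0 : ℝ) < 100 * (K + 1) := by positivity
  have hε0 : 0 < 1 / (100 * (K + 1)) := by positivity
  have hε1 : 1 / (100 * (K + 1)) ≤ 1 / 100 :=
    one_div_le_one_div_of_le (by norm_num) (by linarith)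
  have hεL : K * (1 / (100 * (K + 1))) ≤ 1 / 100 := by
    rw [mul_one_div, div_le_div_iff₀ h100 (by norm_num)]
    linarith
  rcases le_total 0 t with h | h
  · rw [abs_of_nonneg h] at ht
    exact pnoret_core hP hD hε0 hε1 hεL hs0 hs1 hF hτ hG x t ht
  · rw [abs_of_nonpos h] at ht
    have hX := PX_contDiff hP s
    have h1 := pnoret_core hP hD hε0 hε1 hεL hs0 hs1 hF hτ hG (Ψ t x) (-t) ht
    have h2 : Ψ (-t) (Ψ t x) = x := by rw [hF.add hX, neg_add_cancel, hF.zero]
    rw [h2, norm_sub_rev] at h1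
    exact h1

end Pool.Agent.H2.TI
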