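import Pool.Agent.H2.TI.SDefs
import Pool.Agent.H2.TI.NXFlow

/-!
# Displacement and action (module SAct)

PROOF of `exists_act`. Extended field on `(E m × ℝ) × (ℝ × ℝ)`: `Y (x, _) = (XFN V Θ 1 x, (-sin (Θ x), x.2 sin (Θ x)))`, smooth
and bounded (`x.2 sin (Θ x) = 0` for `|x.2| ≥ M'`, so `≤ M'`). Flow `Φ` (`exists_isFlow`); its first component is
`Ψ t x` (uniqueness), `Φ t (x, (0, 0)) = (Ψ t x, (a_t x, c_t x))`, `a_t x = ∫_0^t -sin (Θ (Ψ u x)) du`,
`c_t x = ∫_0^t (Ψ u x).2 sin (Θ (Ψ u x)) du`, smooth in `(t, x)`. Let `S r = τ + 1 + M' + r²` and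
`b x = a_t x`, `A x = - c_t x` at `t = - S x.2`: smooth on `E m × ℝ`.
For `x.1 ∈ N` and `t ≥ S x.2`: `(Ψ (-t) x).2 ≤ -M'` (facts `XN_low` below), so the integrands vanish below `-t`:
`b x = ∫_{-t}^0 sin (Θ (Ψ u x)) du` and `A x = ∫_{-t}^0 (Ψ u x).2 sin (…) du` for all large `t`. `db`, `dA`: for `t` near
`t₀` and a large `S₀`, `b (Ψ t x) = ∫_{-S₀}^{t} sin (Θ (Ψ u x)) du` (substitution, `IsFlow.add`): derivative. `bot`: the
integrands are zero (`XN_down`).
* `XN_down`: for `x.2 ≤ -M'`, `t ≤ 0`: `Ψ t x = (x.1, x.2 + t)`; `XN_up`: for `M' ≤ x.2`, `t ≥ 0` (as `p_down`, `p_up`: the vertical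
  line is an integral curve there; `IsFlow.unique_on`, or `plane_flow` and `p_down`).
* `XN_low`: for `x.1 ∈ N`, `t ≥ τ + 1 + M' + x.2²`: `(Ψ (-t) x).2 ≤ -M'`. If `|x.2| ≤ M'`: `GoodN` at time `τ`, then `XN_down`. If
  `x.2 > M'`: the orbit backward from `x`... the speed of the second coordinate: `(Ψ (-u) x).2 = x.2 - u` while
  `≥ M'` (inverse of `XN_up` at the point `(x.1, M')`: `Ψ (x.2 - M') (x.1, M') = x`), then the first case. If `x.2 < -M'`:
  `XN_down`.
* `flow_base`: by `reparam`, `(Ψ t x).1 = R (∫_0^t -sin (Θ (Ψ u x)) du) x.1`, and the integral is `b x - b (Ψ t x)` (`db`).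
-/

set_option autoImplicit false

open scoped ContDiff Topology RealInnerProductSpace
open Set Filter

namespace Pool.Agent.H2.TI

open Pool.Agent.H57.NL Pool.Agent.H2.TG

variable {m n : ℕ} {N : Set (E m)} {V : E m → E m} {R : ℝ → E m → E m} {Θ : E m × ℝ → ℝ}
  {M' τ : ℝ} {Ψ : ℝ → E m × ℝ → E m × ℝ} {b A : E m × ℝ → ℝ}

private theorem sact_half (hB : Base n N V R) (hΘ : PhaseI Θ M') (hΨ : IsFlow (XFN V Θ 1) Ψ)
    {x : E m × ℝ} {t : ℝ} (h : ∀ s, |s| ≤ |t| / 2 → Θ (x.1, x.2 + t / 2 + s) = 0) :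
    Ψ t x = (x.1, x.2 + t) := by
  have hv : ∀ (y : E m × ℝ) (s : ℝ), Θ (y.1, y.2 + s) = 0 →
      HasDerivAt (fun s => ((y.1, y.2 + s) : E m × ℝ)) (XFN V Θ 1 (y.1, y.2 + s)) s := by
    intro y s hs
    have h1 : XFN V Θ 1 (y.1, y.2 + s) = (0, 1) := by
      unfold XFN
      rw [hs]
      simp
    rw [h1]
    exact (hasDerivAt_const s y.1).prodMk ((hasDerivAt_id s).const_add y.2)
  have h1 : ∀ s, |s| ≤ |t| / 2 → Ψ s (x.1, x.2 + t / 2) = (x.1, x.2 + t / 2 + s) := by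
    intro s hs
    have h2 := hΨ.unique_on (XFN_contDiff hB hΘ 1)
      (γ := fun s => ((x.1, x.2 + t / 2 + s) : E m × ℝ))
      (fun s hs => hv (x.1, x.2 + t / 2) s (h s hs)) s hs
    simp only [add_zero] at h2
    exact h2.symm
  have h3 := h1 (t / 2) (by rw [abs_div, abs_two])
  have h4 := h1 (-(t / 2)) (by rw [abs_neg, abs_div, abs_two])
  have h5 : x.2 + t / 2 + -(t / 2) = x.2 := by ring
  rw [h5] at h4
  have h6 := hΨ.add (XFN_contDiff hB hΘ 1) t (-(t / 2)) (x.1, x.2 + t / 2)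
  rw [h4] at h6
  have h7 : t + -(t / 2) = t / 2 := by ring
  rw [h7, h3] at h6
  have h8 : x.2 + t / 2 + t / 2 = x.2 + t := by ring
  rw [h8] at h6
  exact h6

theorem XN_down (hB : Base n N V R) (hΘ : PhaseI Θ M') (hΨ : IsFlow (XFN V Θ 1) Ψ)
    {x : E m × ℝ} (hx : x.2 ≤ -M') {t : ℝ} (ht : t ≤ 0) : Ψ t x = (x.1, x.2 + t) := by
  refine sact_half hB hΘ hΨ fun s hs => hΘ.supp _ ?_
  rw [abs_of_nonpos ht] at hs
  have h1 := (abs_le.1 hs).2
  show M' ≤ |x.2 + t / 2 + s|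
  rw [le_abs]
  right
  linarith

theorem XN_up (hB : Base n N V R) (hΘ : PhaseI Θ M') (hΨ : IsFlow (XFN V Θ 1) Ψ)
    {x : E m × ℝ} (hx : M' ≤ x.2) {t : ℝ} (ht : 0 ≤ t) : Ψ t x = (x.1, x.2 + t) := by
  refine sact_half hB hΘ hΨ fun s hs => hΘ.supp _ ?_
  rw [abs_of_nonneg ht] at hs
  have h1 := (abs_le.1 hs).1
  show M' ≤ |x.2 + t / 2 + s|
  rw [le_abs]
  left
  linarith

theorem XN_low (hB : Base n N V R) (hΘ : PhaseI Θ M') (hΨ : IsFlow (XFN V Θ 1) Ψ) (hτ : 0 < τ)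
    (hG : GoodN N M' τ Ψ) {x : E m × ℝ} (hx : x.1 ∈ N) {t : ℝ} (ht : τ + 1 + M' + x.2 ^ 2 ≤ t) :
    (Ψ (-t) x).2 ≤ -M' := by
  have hM := hΘ.hM
  have hX := XFN_contDiff hB hΘ 1
  have key : ∀ y : E m × ℝ, y.1 ∈ N → |y.2| ≤ M' → ∀ s, τ ≤ s → (Ψ (-s) y).2 ≤ -M' := by
    intro y hy hy2 s hs
    have h1 := (hG y hy hy2).2
    have h2 := hΨ.add hX (-(s - τ)) (-τ) y
    have h3 : -(s - τ) + -τ = -s := by ring
    rw [h3] at h2
    rw [← h2, XN_down hB hΘ hΨ (by linarith) (by linarith)]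
    show (Ψ (-τ) y).2 + -(s - τ) ≤ -M'
    linarith
  rcases le_or_gt |x.2| M' with h | h
  · exact key x hx h t (by nlinarith [sq_nonneg x.2])
  · rcases lt_abs.mp h with h' | h'
    · have h1 := XN_up hB hΘ hΨ (x := (x.1, M')) (le_refl M') (t := x.2 - M') (by linarith)
      have h2 : M' + (x.2 - M') = x.2 := by ring
      simp only [h2] at h1
      have h3 : Ψ (-(x.2 - M')) x = (x.1, M') := by
        have h4 := hΨ.add hX (-(x.2 - M')) (x.2 - M') (x.1, M')
        rw [h1, neg_add_cancel, hΨ.zero] at h4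
        exact h4
      have h5 := hΨ.add hX (-(t - (x.2 - M'))) (-(x.2 - M')) x
      have h6 : -(t - (x.2 - M')) + -(x.2 - M') = -t := by ring
      rw [h6, h3] at h5
      rw [← h5]
      refine key (x.1, M') hx ?_ _ ?_
      · exact le_of_eq (abs_of_pos hM)
      · nlinarith [sq_nonneg (x.2 - 1)]
    · rw [XN_down hB hΘ hΨ (by linarith) (by nlinarith [sq_nonneg x.2])]
      show x.2 + -t ≤ -M'
      nlinarith [sq_nonneg x.2]

theorem XN_high (hB : Base n N V R) (hΘ : PhaseI Θ M') (hΨ : IsFlow (XFN V Θ 1) Ψ) (hτ : 0 < τ)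
    (hG : GoodN N M' τ Ψ) {x : E m × ℝ} (hx : x.1 ∈ N) {t : ℝ} (ht : τ + 1 + M' + x.2 ^ 2 ≤ t) :
    M' ≤ (Ψ t x).2 := by
  have hM := hΘ.hM
  have hX := XFN_contDiff hB hΘ 1
  have key : ∀ y : E m × ℝ, y.1 ∈ N → |y.2| ≤ M' → ∀ s, τ ≤ s → M' ≤ (Ψ s y).2 := by
    intro y hy hy2 s hs
    have h1 := (hG y hy hy2).1
    have h2 := hΨ.add hX (s - τ) τ y
    have h3 : s - τ + τ = s := by ring
    rw [h3] at h2
    rw [← h2, XN_up hB hΘ hΨ (by linarith) (by linarith)]
    show M' ≤ (Ψ τ y).2 + (s - τ)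
    linarith
  rcases le_or_gt |x.2| M' with h | h
  · exact key x hx h t (by nlinarith [sq_nonneg x.2])
  · rcases lt_abs.mp h with h' | h'
    · rw [XN_up hB hΘ hΨ (by linarith) (by nlinarith [sq_nonneg x.2])]
      show M' ≤ x.2 + t
      nlinarith [sq_nonneg x.2]
    · have h1 := XN_down hB hΘ hΨ (x := (x.1, -M')) (le_refl (-M')) (t := x.2 + M') (by linarith)
      have h2 : -M' + (x.2 + M') = x.2 := by ring
      simp only [h2] at h1
      have h3 : Ψ (-(x.2 + M')) x = (x.1, -M') := by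
        have h4 := hΨ.add hX (-(x.2 + M')) (x.2 + M') (x.1, -M')
        rw [h1, neg_add_cancel, hΨ.zero] at h4
        exact h4
      have h5 := hΨ.add hX (t + (x.2 + M')) (-(x.2 + M')) x
      have h6 : t + (x.2 + M') + -(x.2 + M') = t := by ring
      rw [h6, h3] at h5
      rw [← h5]
      refine key (x.1, -M') hx ?_ _ ?_
      · show |(-M')| ≤ M'
        rw [abs_neg]
        exact le_of_eq (abs_of_pos hM)
      · nlinarith [sq_nonneg (x.2 + 1)]

private theorem sact_fst {A B : Type} [NormedAddCommGroup A] [NormedSpace ℝ A]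
    [NormedAddCommGroup B] [NormedSpace ℝ B] {f : ℝ → A × B} {f' : A × B} {t : ℝ}
    (h : HasDerivAt f f' t) : HasDerivAt (fun t => (f t).1) f'.1 t :=
  (ContinuousLinearMap.fst ℝ A B).hasFDerivAt.comp_hasDerivAt t h

private theorem sact_snd {A B : Type} [NormedAddCommGroup A] [NormedSpace ℝ A]
    [NormedAddCommGroup B] [NormedSpace ℝ B] {f : ℝ → A × B} {f' : A × B} {t : ℝ}
    (h : HasDerivAt f f' t) : HasDerivAt (fun t => (f t).2) f'.2 t :=
  (ContinuousLinearMap.snd ℝ A B).hasFDerivAt.comp_hasDerivAt t h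

private theorem sact_const {f : ℝ → ℝ} {s : Set ℝ} (hs : Convex ℝ s)
    (h : ∀ t ∈ s, HasDerivAt f 0 t) {a c : ℝ} (ha : a ∈ s) (hc : c ∈ s) : f a = f c := by
  have h1 := Convex.norm_image_sub_le_of_norm_hasDerivWithin_le (f := f) (f' := fun _ => 0)
    (s := s) (C := 0) (fun x hx => (h x hx).hasDerivWithinAt) (fun x _ => by simp) hs ha hc
  rw [zero_mul] at h1
  exact (sub_eq_zero.mp (norm_le_zero_iff.mp h1)).symm

/-- an integral along the flow as a smooth function of time and starting point -/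
private theorem sact_int (hB : Base n N V R) (hΘ : PhaseI Θ M') (hΨ : IsFlow (XFN V Θ 1) Ψ)
    {g : E m × ℝ → ℝ} (hg : ContDiff ℝ ∞ g) {C : ℝ} (hC : ∀ x, |g x| ≤ C) :
    ∃ a : ℝ → E m × ℝ → ℝ, (ContDiff ℝ ∞ fun y : ℝ × (E m × ℝ) => a y.1 y.2) ∧
      (∀ x, a 0 x = 0) ∧ ∀ x t, HasDerivAt (fun t => a t x) (g (Ψ t x)) t := by
  obtain ⟨K, hK⟩ := hB.bdd
  have hX := XFN_contDiff hB hΘ 1
  set Y : (E m × ℝ) × ℝ → (E m × ℝ) × ℝ := fun y => (XFN V Θ 1 y.1, g y.1) with hY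
  have hYs : ContDiff ℝ ∞ Y := (hX.comp contDiff_fst).prodMk (hg.comp contDiff_fst)
  have hXb : ∀ x, ‖XFN V Θ 1 x‖ ≤ max K 1 := by
    intro x
    rw [Prod.norm_def]
    refine max_le_max ?_ ?_
    · show ‖(-Real.sin (1 * Θ x)) • V x.1‖ ≤ K
      rw [norm_smul, Real.norm_eq_abs, abs_neg]
      exact (mul_le_of_le_one_left (norm_nonneg _) (Real.abs_sin_le_one _)).trans (hK _)
    · show ‖Real.cos (1 * Θ x)‖ ≤ 1
      rw [Real.norm_eq_abs]
      exact Real.abs_cos_le_one _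
  obtain ⟨Φ, hΦ⟩ := exists_isFlow hYs (K := max (max K 1) C) (by
    intro y
    rw [Prod.norm_def]
    exact max_le_max (hXb _) (hC _))
  have hfst : ∀ x t, (Φ t (x, 0)).1 = Ψ t x := by
    intro x t
    have h1 := hΨ.unique hX (γ := fun t => (Φ t (x, 0)).1)
      (fun t => sact_fst (hΦ.deriv (x, 0) t)) t
    simp only [hΦ.zero] at h1
    exact h1
  refine ⟨fun t x => (Φ t (x, 0)).2, ?_, ?_, ?_⟩
  · exact contDiff_snd.comp (hΦ.smooth.comp
      (contDiff_fst.prodMk (contDiff_snd.prodMk contDiff_const)))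
  · intro x
    simp only [hΦ.zero]
  · intro x t
    have h1 := sact_snd (hΦ.deriv (x, 0) t)
    have h2 : (Y (Φ t (x, 0))).2 = g (Ψ t x) := by
      rw [hY]
      simp only
      rw [hfst]
    rw [h2] at h1
    exact h1

theorem exists_act (hB : Base n N V R) (hΘ : PhaseI Θ M') (hΨ : IsFlow (XFN V Θ 1) Ψ)
    (hτ : 0 < τ) (hG : GoodN N M' τ Ψ) : ∃ b A, ActN N Θ M' Ψ b A := by
  have hM := hΘ.hM
  have hX := XFN_contDiff hB hΘ 1
  -- the general construction
  have main : ∀ g : E m × ℝ → ℝ, ContDiff ℝ ∞ g → (∃ C, ∀ x, |g x| ≤ C) →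
      (∀ x, M' ≤ |x.2| → g x = 0) → ∃ b : E m × ℝ → ℝ, ContDiff ℝ ∞ b ∧
        (∀ x : E m × ℝ, x.1 ∈ N → ∀ t, HasDerivAt (fun t => b (Ψ t x)) (-g (Ψ t x)) t) ∧
        ∀ x : E m × ℝ, x.1 ∈ N → x.2 ≤ -M' → b x = 0 := by
    rintro g hg ⟨C, hC⟩ hg0
    obtain ⟨a, ha, ha0, had⟩ := sact_int hB hΘ hΨ hg hC
    set S : E m × ℝ → ℝ := fun x => τ + 1 + M' + x.2 ^ 2 with hS
    have hSs : ContDiff ℝ ∞ S := contDiff_const.add (contDiff_snd.pow 2)
    have hcoc : ∀ x s t, a (s + t) x = a t x + a s (Ψ t x) := by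
      intro x s t
      have h1 : ∀ s, HasDerivAt (fun s => a (s + t) x - a s (Ψ t x)) 0 s := by
        intro s
        have h2 : HasDerivAt (fun s => a (s + t) x) (g (Ψ (s + t) x)) s := by
          have h3 := (had x (s + t)).scomp s ((hasDerivAt_id s).add_const t)
          rw [one_smul] at h3
          exact h3
        have h4 := h2.sub (had (Ψ t x) s)
        rw [hΨ.add hX, sub_self] at h4
        exact h4
      have h5 := sact_const convex_univ (fun s _ => h1 s) (mem_univ s) (mem_univ 0)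
      simp only [zero_add] at h5
      rw [ha0, sub_zero] at h5
      linarith
    have hlow : ∀ x : E m × ℝ, x.1 ∈ N → ∀ t, S x ≤ t → a (-t) x = a (-(S x)) x := by
      intro x hx t ht
      refine sact_const (convex_Iic (-(S x))) (fun u hu => ?_) (f := fun t => a t x) ?_ ?_
      · have h1 := had x u
        have h2 : (Ψ u x).2 ≤ -M' := by
          have h3 := XN_low hB hΘ hΨ hτ hG hx (t := -u) (by
            have := mem_Iic.mp hu
            simp only [hS] at this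
            linarith)
          rwa [neg_neg] at h3
        rw [hg0 _ (by rw [le_abs]; right; linarith)] at h1
        exact h1
      · exact mem_Iic.mpr (by linarith)
      · exact mem_Iic.mpr (le_refl _)
    refine ⟨fun x => a (-(S x)) x, ha.comp (hSs.neg.prodMk contDiff_id), ?_, ?_⟩
    · intro x hx t
      have h1 : ∀ t, a (-(S (Ψ t x))) (Ψ t x) = a (-(S x)) x - a t x := by
        intro t
        have hx' := XN_mem hB hΘ hΨ hx t
        set u : ℝ := max (S (Ψ t x)) (S x + t) with hu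
        rw [← hlow (Ψ t x) hx' u (le_max_left _ _)]
        have h2 := hcoc x (-u) t
        have h3 : -u + t = -(u - t) := by ring
        rw [h3, hlow x hx (u - t) (by have := le_max_right (S (Ψ t x)) (S x + t); linarith)] at h2
        linarith
      have h2 : (fun t => a (-(S (Ψ t x))) (Ψ t x)) = fun t => a (-(S x)) x - a t x := by
        funext t
        exact h1 t
      simp only [h2]
      exact (had x t).const_sub _
    · intro x hx hx2
      show a (-(S x)) x = 0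
      have hSpos : 0 ≤ S x := by
        simp only [hS]
        nlinarith [sq_nonneg x.2]
      rw [← ha0 x]
      refine sact_const (convex_Iic (0 : ℝ)) (fun u hu => ?_) (f := fun t => a t x) ?_ ?_
      · have h1 := had x u
        rw [XN_down hB hΘ hΨ hx2 (mem_Iic.mp hu)] at h1
        rw [hg0 _ (by
          show M' ≤ |x.2 + u|
          rw [le_abs]
          right
          have := mem_Iic.mp hu
          linarith)] at h1
        exact h1
      · exact mem_Iic.mpr (by linarith)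
      · exact mem_Iic.mpr (le_refl _)
  obtain ⟨b, hb1, hb2, hb3⟩ := main (fun x => -Real.sin (Θ x)) (hΘ.smooth.sin.neg)
    ⟨1, fun x => by rw [abs_neg]; exact Real.abs_sin_le_one _⟩
    (fun x hx => by rw [hΘ.supp x hx]; simp)
  obtain ⟨A, hA1, hA2, hA3⟩ := main (fun x => -(x.2 * Real.sin (Θ x)))
    ((contDiff_snd.mul hΘ.smooth.sin).neg)
    ⟨M', fun x => by
      rw [abs_neg, abs_mul]
      rcases le_or_gt M' |x.2| with h | h
      · rw [hΘ.supp x h]
        simp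
        exact hM.le
      · calc |x.2| * |Real.sin (Θ x)| ≤ M' * 1 :=
            mul_le_mul h.le (Real.abs_sin_le_one _) (abs_nonneg _) hM.le
          _ = M' := mul_one _⟩
    (fun x hx => by rw [hΘ.supp x hx]; simp)
  refine ⟨b, A, hb1, hA1, ?_, ?_, fun x hx hx2 => ⟨hb3 x hx hx2, hA3 x hx hx2⟩⟩
  · intro x hx t
    have h := hb2 x hx t
    rw [neg_neg] at h
    exact h
  · intro x hx t
    have h := hA2 x hx t
    rw [neg_neg] at h
    exact h

theorem flow_base (hB : Base n N V R) (hΘ : PhaseI Θ M') (hΨ : IsFlow (XFN V Θ 1) Ψ)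
    (hA : ActN N Θ M' Ψ b A) {x : E m × ℝ} (hx : x.1 ∈ N) (t : ℝ) :
    (Ψ t x).1 = R (b x - b (Ψ t x)) x.1 := by
  have hc : Continuous fun t => Ψ t x :=
    continuous_iff_continuousAt.2 fun t => (hΨ.deriv x t).continuousAt
  have hk : Continuous fun u => -Real.sin (Θ (Ψ u x)) :=
    (Real.continuous_sin.comp (hΘ.smooth.continuous.comp hc)).neg
  have h1 := reparam hB (γ := fun t => (Ψ t x).1) (k := fun u => -Real.sin (Θ (Ψ u x)))
    (ε := |t| + 1) hk.continuousOn (fun s _ => by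
      have h2 := sact_fst (hΨ.deriv x s)
      have h3 : (XFN V Θ 1 (Ψ s x)).1 = (-Real.sin (Θ (Ψ s x))) • V (Ψ s x).1 := by
        unfold XFN
        rw [one_mul]
      rw [h3] at h2
      exact h2) (t := t) (by linarith)
  simp only [hΨ.zero] at h1
  have h4 : ∫ u in (0 : ℝ)..t, -Real.sin (Θ (Ψ u x)) = b x - b (Ψ t x) := by
    rw [intervalIntegral.integral_eq_sub_of_hasDerivAt (f := fun t => -b (Ψ t x))
      (fun s _ => (hA.db x hx s).neg) (hk.intervalIntegrable _ _)]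
    rw [hΨ.zero]
    ring
  rw [h4] at h1
  exact h1

end Pool.Agent.H2.TI
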