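import Pool.Agent.H2.TG.Glue

/-!
# Extension of smooth functions from closed sets (module SExt)

PROOF. `exists_glue` with `t x = {k | x ∈ T → k = f x}` (convex). Local solutions: at `x ∈ O` the function `f` on `O`; at
`x ∉ O`, so `x ∉ T`: the zero function on the open set `Tᶜ`.
-/

set_option autoImplicit false

open scoped ContDiff Topology
open Set

namespace Pool.Agent.H2.TI

open Pool.Agent.H2.TG

theorem exists_ext {X : Type} [NormedAddCommGroup X] [NormedSpace ℝ X] [FiniteDimensional ℝ X]
    {T O : Set X} (hT : IsClosed T) (hO : IsOpen O) (hTO : T ⊆ O) {f : X → ℝ}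
    (hf : ContDiffOn ℝ ∞ f O) : ∃ g : X → ℝ, ContDiff ℝ ∞ g ∧ ∀ x ∈ T, g x = f x := by
  obtain ⟨g, hg, h⟩ := exists_glue (V := X) (fun x => {k | x ∈ T → k = f x})
    (by
      intro x k hk k' hk' a b ha hb hab hx
      have h1 : k = f x := hk hx
      have h2 : k' = f x := hk' hx
      show a • k + b • k' = f x
      rw [h1, h2, ← add_smul, hab, one_smul])
    (by
      intro x
      by_cases hx : x ∈ O
      · exact ⟨O, hO, hx, f, hf, fun y _ _ => rfl⟩
      · exact ⟨Tᶜ, hT.isOpen_compl, fun h => hx (hTO h), fun _ => 0, contDiffOn_const,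
          fun y hy hy' => absurd hy' hy⟩)
  exact ⟨g, hg, fun x hx => h x hx⟩

end Pool.Agent.H2.TI
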