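import Pool.Agent.H57.NL.Slice
import Pool.Agent.H57.NL.Loc
import Pool.Agent.H2.TG.Transl

/-!
# The image of a submanifold under a smooth map with a smooth left inverse (module SImg)

PROOFS.
* `tan_imageN`: `⇐`: a curve `γ` in `S` with velocity `ζ` at `z`: `F ∘ γ`. `⇒`: a curve `δ` in `F '' S`, `δ 0 = F z`, velocity
  `w`: `γ = F' ∘ δ` is (for small `s`) in `S` and `γ 0 = z` (`left`), velocity `ζ = DF'(F z) w`; `F ∘ γ = δ` near `0` (if
  `δ s = F z_s` then `F (F' (F z_s)) = F z_s`; at `s = 0` also), so `DF(z) ζ = w` (unique derivative).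
* `image_submfd`: at `z₀ ∈ S` let `e, A` be a slice chart of `S`, `c a = e.symm (e z₀ + a)` for `a ∈ A` (near `0`), smooth,
  `c a ∈ S`, `c` is a homeomorphism of a neighbourhood of `0` in `A` onto a neighbourhood of `z₀` in `S`. `g = F ∘ c`,
  `L = Dg(0) : A → X` is injective: `F' ∘ g = c` and `Dc(0)` is injective. `A' = L(A)`, `finrank A' = k`, `B` a complement of
  `A'`. `Φ (a, b) = F (c a) + b` on `A × B`, smooth near `0` with invertible derivative `(a, b) ↦ L a + b` (bijective):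
  inverse function theorem (`ContDiffAt.toOpenPartialHomeomorph`, smooth inverse near the point). Chart at
  `F z₀`: `e' = T ∘ Φ⁻¹`, `T (a, b) = L a + b` a linear isomorphism `A × B → X`, so that `e' (F (c a)) = L a ∈ A'`, and `e' y ∈ A'` iff
  the `b` of `Φ⁻¹ y` is `0` iff `y = F (c a)`. Restrict the chart to an open `O' ∋ F z₀` such that `F' (O')` lies in the
  neighbourhood of `z₀` on which `S` is parametrised by `c` with `a` in the domain of `Φ`: if `y = F z ∈ O'`, `z ∈ S`, then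
  `z = F' y = c a` and `e' y = L a ∈ A'`. Conversely `e' y ∈ A'` gives `y = F (c a) ∈ F '' S`.
-/

set_option autoImplicit false
set_option linter.unusedSectionVars false

open scoped ContDiff Topology
open Set Filter

namespace Pool.Agent.H2.TI

open Pool.Agent.H57.NL

variable {X : Type} [NormedAddCommGroup X] [NormedSpace ℝ X] [FiniteDimensional ℝ X] {k : ℕ}
  {S : Set X} {F F' : X → X}

theorem image_submfd (hS : IsSubmfd k S) (hF : ContDiff ℝ ∞ F) (hF' : ContDiff ℝ ∞ F')
    (left : ∀ z ∈ S, F' (F z) = z) : IsSubmfd k (F '' S) := by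
  rintro _ ⟨z₀, hz₀, rfl⟩
  obtain ⟨e, A, hze, hs⟩ := hS.slice hz₀
  have ha0m : e z₀ ∈ A := (hs.iff _ hze).1 hz₀
  have ht0 : e z₀ ∈ e.target := e.map_source hze
  -- the parametrisation
  set c : A → X := fun a => e.symm (e z₀ + (a : X)) with hc
  have hadd : ContDiff ℝ ∞ fun a : A => e z₀ + (a : X) := contDiff_const.add A.subtypeL.contDiff
  have hc0 : c 0 = z₀ := by
    change e.symm (e z₀ + ((0 : A) : X)) = z₀
    rw [Submodule.coe_zero, add_zero, e.left_inv hze]
  have hcT : ∀ a : A, e z₀ + (a : X) ∈ e.target → c a ∈ S := fun a ha => by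
    refine (hs.iff _ (e.map_target ha)).2 ?_
    rw [e.right_inv ha]
    exact A.add_mem ha0m a.2
  have hcd : ∀ a : A, e z₀ + (a : X) ∈ e.target → ContDiffAt ℝ ∞ c a := fun a ha =>
    (hs.cd' ha).comp a hadd.contDiffAt
  set g : A → X := fun a => F (c a) with hg
  have hgd : ∀ a : A, e z₀ + (a : X) ∈ e.target → ContDiffAt ℝ ∞ g a := fun a ha =>
    hF.contDiffAt.comp a (hcd a ha)
  have hg0 : g 0 = F z₀ := by
    change F (c 0) = F z₀
    rw [hc0]
  have h0T : e z₀ + ((0 : A) : X) ∈ e.target := by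
    rw [Submodule.coe_zero, add_zero]
    exact ht0
  set L : A →L[ℝ] X := fderiv ℝ g 0 with hL
  have hgL : HasFDerivAt g L 0 := ((hgd 0 h0T).differentiableAt (by simp)).hasFDerivAt
  have hnear : ∀ᶠ a : A in 𝓝 0, e z₀ + (a : X) ∈ e.target :=
    hadd.continuous.continuousAt.eventually_mem (e.open_target.mem_nhds h0T)
  have hLinj : Function.Injective L := by
    rw [injective_iff_map_eq_zero]
    intro v hv
    have h1 : HasFDerivAt c ((fderiv ℝ e.symm (e z₀)).comp A.subtypeL) 0 := by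
      have h2 : HasFDerivAt (fun a : A => e z₀ + (a : X)) A.subtypeL 0 :=
        A.subtypeL.hasFDerivAt.const_add _
      have h3 : HasFDerivAt e.symm (fderiv ℝ e.symm (e z₀)) (e z₀ + ((0 : A) : X)) := by
        rw [Submodule.coe_zero, add_zero]
        exact hs.hd' ht0
      exact HasFDerivAt.comp (f := fun a : A => e z₀ + (a : X)) 0 h3 h2
    have h2 : HasFDerivAt c ((fderiv ℝ F' (g 0)).comp L) 0 := by
      have h3 : HasFDerivAt (F' ∘ g) ((fderiv ℝ F' (g 0)).comp L) 0 :=
        ((hF'.differentiable (by simp)) (g 0)).hasFDerivAt.comp 0 hgL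
      refine h3.congr_of_eventuallyEq ?_
      filter_upwards [hnear] with a ha
      exact (left _ (hcT a ha)).symm
    have h3 := h1.unique h2
    have h4 := congrArg (fun T : A →L[ℝ] X => T v) h3
    have h5 : fderiv ℝ e.symm (e z₀) (v : X) = 0 := by
      have h6 : fderiv ℝ e.symm (e z₀) (v : X) = fderiv ℝ F' (g 0) (L v) := h4
      rw [h6, hv, map_zero]
    have h6 := hs.right hze (v : X)
    rw [h5, map_zero] at h6
    exact Subtype.ext h6.symm
  -- linear algebra
  obtain ⟨α₀, hα₀⟩ := LinearMap.exists_leftInverse_of_injective (L : A →ₗ[ℝ] X)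
    (LinearMap.ker_eq_bot.2 hLinj)
  set α : X →L[ℝ] A := LinearMap.toContinuousLinearMap α₀ with hα
  have hαL : ∀ a : A, α (L a) = a := fun a => LinearMap.congr_fun hα₀ a
  obtain ⟨p₀, hp₀⟩ := LinearMap.exists_leftInverse_of_injective A.subtype
    (LinearMap.ker_eq_bot.2 A.injective_subtype)
  set p : X →L[ℝ] A := LinearMap.toContinuousLinearMap p₀ with hp
  have hpA : ∀ a : A, p (a : X) = a := fun a => LinearMap.congr_fun hp₀ a
  -- the local diffeomorphism
  set Ψ : X → X := fun x => g (α x) + (x - L (α x)) with hΨ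
  have hΨ0 : Ψ 0 = F z₀ := by
    change g (α 0) + (0 - L (α 0)) = F z₀
    rw [map_zero, map_zero, sub_zero, add_zero, hg0]
  have hΨL : ∀ a : A, Ψ (L a) = g a := fun a => by
    change g (α (L a)) + (L a - L (α (L a))) = g a
    rw [hαL, sub_self, add_zero]
  have hΨd : ∀ᶠ x in 𝓝 (0 : X), ContDiffAt ℝ ∞ Ψ x := by
    have h1 : Tendsto α (𝓝 0) (𝓝 0) := by
      have := α.continuous.tendsto 0
      rwa [map_zero] at this
    filter_upwards [h1.eventually hnear] with x hx
    exact ((hgd _ hx).comp x α.contDiff.contDiffAt).add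
      (contDiffAt_id.sub ((L.comp α).contDiff.contDiffAt))
  have hΨf : HasFDerivAt Ψ (ContinuousLinearMap.id ℝ X) 0 := by
    have h1 : HasFDerivAt g L (α 0) := by
      rw [map_zero]
      exact hgL
    have h2 : HasFDerivAt Ψ (L.comp α + (ContinuousLinearMap.id ℝ X - L.comp α)) 0 :=
      (h1.comp 0 α.hasFDerivAt).add ((hasFDerivAt_id 0).sub (L.comp α).hasFDerivAt)
    have h3 : L.comp α + (ContinuousLinearMap.id ℝ X - L.comp α) = ContinuousLinearMap.id ℝ X := by
      abel
    rwa [h3] at h2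
  obtain ⟨Φ, hΦ, h0Φ, hsymm⟩ := smooth_inverse rfl hΨd (by
    rw [hΨf.fderiv]
    exact Function.injective_id)
  rw [hΨ0] at hsymm
  have hΦ0 : Φ 0 = F z₀ := by rw [hΦ, hΨ0]
  have hx0 : F z₀ ∈ Φ.target := by
    rw [← hΦ0]
    exact Φ.map_source h0Φ
  have hs0 : Φ.symm (F z₀) = 0 := by
    rw [← hΦ0]
    exact Φ.left_inv h0Φ
  have hst : Tendsto Φ.symm (𝓝 (F z₀)) (𝓝 0) := by
    have := (Φ.continuousAt_symm hx0).tendsto
    rwa [hs0] at this
  -- the conditions on the domain of the chart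
  have c1 : ∀ᶠ y in 𝓝 (F z₀), ContDiffAt ℝ ∞ Φ (Φ.symm y) := by
    rw [hΦ]
    exact hst.eventually hΨd
  have hF'0 : Tendsto F' (𝓝 (F z₀)) (𝓝 z₀) := by
    have := hF'.continuous.tendsto (F z₀)
    rwa [left z₀ hz₀] at this
  have c2 : ∀ᶠ y in 𝓝 (F z₀), F' y ∈ e.source :=
    hF'0.eventually (e.open_source.mem_nhds hze)
  have c3 : ∀ᶠ y in 𝓝 (F z₀), L (p (e (F' y) - e z₀)) ∈ Φ.source := by
    have h1 : Tendsto (fun y => e (F' y)) (𝓝 (F z₀)) (𝓝 (e z₀)) :=
      (e.continuousAt hze).tendsto.comp hF'0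
    have h2 : Tendsto (fun y => L (p (e (F' y) - e z₀))) (𝓝 (F z₀)) (𝓝 (L (p (e z₀ - e z₀)))) :=
      ((L.comp p).continuous.tendsto _).comp (h1.sub_const (e z₀))
    rw [sub_self, map_zero, map_zero] at h2
    exact h2.eventually (Φ.open_source.mem_nhds h0Φ)
  have c4 : ∀ᶠ y in 𝓝 (F z₀), e z₀ + ((α (Φ.symm y) : A) : X) ∈ e.target := by
    have h1 : Tendsto (fun y => α (Φ.symm y)) (𝓝 (F z₀)) (𝓝 0) := by
      have := (α.continuous.tendsto 0).comp hst
      rwa [map_zero] at this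
    exact h1.eventually hnear
  obtain ⟨O, hO, hOo, hOx⟩ := eventually_nhds_iff.1 (hsymm.and (c1.and (c2.and (c3.and c4))))
  refine ⟨Φ.symm.restrOpen O hOo, LinearMap.range (L : A →ₗ[ℝ] X), ?_, ?_, ?_, ?_, ?_⟩
  · rw [OpenPartialHomeomorph.restrOpen_source]
    exact ⟨hx0, hOx⟩
  · intro y hy
    rw [OpenPartialHomeomorph.restrOpen_source] at hy
    exact (hO y hy.2).1.contDiffWithinAt
  · intro x hx
    have h1 : x ∈ Φ.source := hx.1
    have h2 : Φ x ∈ O := hx.2
    have h3 := (hO _ h2).2.1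
    rw [Φ.left_inv h1] at h3
    exact h3.contDiffWithinAt
  · rw [LinearMap.finrank_range_of_inj hLinj]
    exact hs.fr
  · intro y hy
    rw [OpenPartialHomeomorph.restrOpen_source] at hy
    obtain ⟨hyt, hyO⟩ := hy
    obtain ⟨-, -, d2, d3, d4⟩ := hO y hyO
    change y ∈ F '' S ↔ Φ.symm y ∈ LinearMap.range (L : A →ₗ[ℝ] X)
    constructor
    · rintro ⟨z, hz, rfl⟩
      rw [left z hz] at d2 d3
      have hezA : e z ∈ A := (hs.iff _ d2).1 hz
      set a : A := ⟨e z - e z₀, A.sub_mem hezA ha0m⟩ with ha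
      have ha1 : (a : X) = e z - e z₀ := rfl
      rw [← ha1, hpA] at d3
      have h1 : c a = z := by
        change e.symm (e z₀ + (a : X)) = z
        rw [ha1, add_sub_cancel, e.left_inv d2]
      have h2 : Φ (L a) = F z := by
        rw [hΦ, hΨL]
        change F (c a) = F z
        rw [h1]
      have h3 := Φ.left_inv d3
      rw [h2] at h3
      exact ⟨a, h3.symm⟩
    · rintro ⟨a, ha⟩
      have ha' : L a = Φ.symm y := ha
      rw [← ha', hαL] at d4
      refine ⟨c a, hcT a d4, ?_⟩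
      have h1 := Φ.right_inv hyt
      rw [← ha', hΦ, hΨL] at h1
      exact h1

theorem tan_imageN (hF : ContDiff ℝ ∞ F) (hF' : ContDiff ℝ ∞ F')
    (left : ∀ z ∈ S, F' (F z) = z) {z : X} (hz : z ∈ S) {w : X} :
    w ∈ Tan (F '' S) (F z) ↔ ∃ ζ ∈ Tan S z, fderiv ℝ F z ζ = w := by
  have hFz : HasFDerivAt F (fderiv ℝ F z) z := ((hF.differentiable (by simp)) z).hasFDerivAt
  have hFz' : HasFDerivAt F' (fderiv ℝ F' (F z)) (F z) :=
    ((hF'.differentiable (by simp)) (F z)).hasFDerivAt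
  constructor
  · intro hw
    refine ⟨fderiv ℝ F' (F z) w, ?_, ?_⟩
    · have h1 := Tan.map (T := S) hw hFz' (Eventually.of_forall fun y hy => by
        obtain ⟨z', hz', rfl⟩ := hy
        rw [left z' hz']
        exact hz')
      rwa [left z hz] at h1
    · obtain ⟨δ, h0, hS, hd⟩ := hw
      have h1 : HasDerivAt (F' ∘ δ) (fderiv ℝ F' (F z) w) 0 := by
        rw [← h0] at hFz' ⊢
        exact hFz'.comp_hasDerivAt (0 : ℝ) hd
      have h2 : HasDerivAt (F ∘ (F' ∘ δ)) (fderiv ℝ F z (fderiv ℝ F' (F z) w)) 0 := by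
        have h3 : (F' ∘ δ) 0 = z := by
          change F' (δ 0) = z
          rw [h0, left z hz]
        have h4 : HasFDerivAt F (fderiv ℝ F z) ((F' ∘ δ) 0) := by
          rw [h3]
          exact hFz
        exact h4.comp_hasDerivAt (0 : ℝ) h1
      have h3 : HasDerivAt (F ∘ (F' ∘ δ)) w 0 := by
        refine hd.congr_of_eventuallyEq ?_
        filter_upwards [hS] with s hs
        obtain ⟨z', hz', hs'⟩ := hs
        change F (F' (δ s)) = δ s
        rw [← hs', left z' hz']
      exact h2.unique h3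
  · rintro ⟨ζ, hζ, rfl⟩
    exact Tan.map hζ hFz (Eventually.of_forall fun y hy => ⟨y, hy, rfl⟩)

end Pool.Agent.H2.TI
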