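import Pool.Agent.H2.TI.PBotE

/-!
# The bottom coordinate of a planar flow without trapped orbits (module SPos)

PROOFS.
* `beta_ker`: let `Dβ(w) ξ = 0`. Choose `t` with `(Ψ (-t) w).2 < -M` (`p_low` with a slightly larger time: below `-M` the
  flow is vertical, `p_down`). `w' = Ψ (-t) w`, `ζ = D(Ψ (-t))(w) ξ`. `β ∘ Ψ (-t) = β`, and `β = (·).1` near `w'`, so
  `0 = Dβ(w) ξ = Dβ(w') ζ = ζ.1`. So `ζ = ζ.2 • (0, 1) = ζ.2 • PX θ 1 w'` (`θ w' = 0`), and applying `D(Ψ t)(w')`: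
  `ξ = ζ.2 • PX θ 1 w` (`IsFlow.fderiv_inv`, `IsFlow.fderiv_X`).
* `beta_pos`: `h w = Dβ(w)(cos θ, sin θ)` is continuous, has no zero (`beta_ker`: `(cos θ, sin θ)` is not a multiple of
  `(-sin θ, cos θ)`), and is `1` at `(0, -M - 1)`; the plane is connected.
* `wedge`: differentiate the identity `w.2 a + DA(w)(a, r) = ρ(w) Dβ(w)(a, r)` for fixed `(a, r) = ζ` in the direction
  `ξ`: `ξ.2 ζ.1 + D²A(ξ, ζ) = Dρ ξ Dβ ζ + ρ D²β(ξ, ζ)`; exchange `ξ, ζ` and subtract (symmetric second derivatives).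
-/

set_option autoImplicit false

open scoped ContDiff Topology
open Set

namespace Pool.Agent.H2.TI

open Pool.Agent.H2.TG

variable {θ β : ℝ × ℝ → ℝ} {M K τ : ℝ} {Ψ : ℝ → ℝ × ℝ → ℝ × ℝ}

private theorem SPos_low (hP : PPhase θ M K) (hF : IsFlow (PX θ 1) Ψ) (hτ : 0 < τ)
    (hG : GoodP M τ Ψ) (w : ℝ × ℝ) : ∃ t : ℝ, (Ψ (-t) w).2 < -M := by
  obtain ⟨t₀, ht₀⟩ := p_low hP hF hτ hG w
  refine ⟨1 + t₀, ?_⟩
  have h1 := ht₀ t₀ le_rfl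
  have h2 := p_down hP hF h1 (t := -1) (by norm_num)
  rw [hF.add (PX_contDiff hP 1)] at h2
  have h3 : -(1 + t₀) = -1 + -t₀ := by ring
  rw [h3, h2]
  show (Ψ (-t₀) w).2 + -1 < -M
  linarith

private theorem SPos_fd (hbot : ∀ w : ℝ × ℝ, w.2 ≤ -M → β w = w.1) {w : ℝ × ℝ}
    (hw : w.2 < -M) : fderiv ℝ β w = ContinuousLinearMap.fst ℝ ℝ ℝ := by
  have hev : β =ᶠ[𝓝 w] Prod.fst := by
    have ho : IsOpen {y : ℝ × ℝ | y.2 < -M} := isOpen_lt continuous_snd continuous_const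
    filter_upwards [ho.mem_nhds hw] with y hy
    exact hbot y (le_of_lt hy)
  rw [hev.fderiv_eq]
  exact fderiv_fst

theorem beta_ker (hP : PPhase θ M K) (hF : IsFlow (PX θ 1) Ψ) (hτ : 0 < τ) (hG : GoodP M τ Ψ)
    (hβ : ContDiff ℝ ∞ β) (hinv : ∀ t w, β (Ψ t w) = β w)
    (hbot : ∀ w : ℝ × ℝ, w.2 ≤ -M → β w = w.1) {w ξ : ℝ × ℝ} (h : fderiv ℝ β w ξ = 0) :
    ∃ k : ℝ, ξ = k • PX θ 1 w := by
  have hX := PX_contDiff hP 1
  obtain ⟨t, ht⟩ := SPos_low hP hF hτ hG w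
  have hd : HasFDerivAt (Ψ (-t)) (fderiv ℝ (Ψ (-t)) w) w :=
    (hF.differentiable (-t) w).hasFDerivAt
  have hβd : HasFDerivAt β (fderiv ℝ β (Ψ (-t) w)) (Ψ (-t) w) :=
    (hβ.differentiable (by simp) _).hasFDerivAt
  have he : β ∘ Ψ (-t) = β := funext fun y => hinv (-t) y
  have h1 : fderiv ℝ β w = (fderiv ℝ β (Ψ (-t) w)).comp (fderiv ℝ (Ψ (-t)) w) := by
    have h2 := (hβd.comp w hd).fderiv
    rw [he] at h2
    exact h2
  have h2 : (fderiv ℝ (Ψ (-t)) w ξ).1 = 0 := by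
    rw [h1, SPos_fd hbot ht] at h
    exact h
  obtain ⟨c, hc⟩ : ∃ c, c = (fderiv ℝ (Ψ (-t)) w ξ).2 := ⟨_, rfl⟩
  have h3 : PX θ 1 (Ψ (-t) w) = (0, 1) := by
    have h4 : θ (Ψ (-t) w) = 0 := hP.supp _ (by
      rw [le_abs]; right; linarith)
    simp [PX, h4]
  have h4 : fderiv ℝ (Ψ (-t)) w ξ = c • PX θ 1 (Ψ (-t) w) := by
    rw [h3]
    refine Prod.ext ?_ ?_
    · rw [h2]; simp
    · simp [hc]
  have h5 : fderiv ℝ (Ψ (-t)) w (ξ - c • PX θ 1 w) = 0 := by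
    rw [map_sub, map_smul, hF.fderiv_X hX, h4, sub_self]
  have h6 := hF.fderiv_inv hX (-t) w (ξ - c • PX θ 1 w)
  rw [h5, map_zero] at h6
  exact ⟨c, sub_eq_zero.1 h6.symm⟩

theorem beta_pos (hP : PPhase θ M K) (hF : IsFlow (PX θ 1) Ψ) (hτ : 0 < τ) (hG : GoodP M τ Ψ)
    (hβ : ContDiff ℝ ∞ β) (hinv : ∀ t w, β (Ψ t w) = β w)
    (hbot : ∀ w : ℝ × ℝ, w.2 ≤ -M → β w = w.1) (w : ℝ × ℝ) :
    0 < fderiv ℝ β w (Real.cos (θ w), Real.sin (θ w)) := by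
  have hc : Continuous fun w : ℝ × ℝ => fderiv ℝ β w (Real.cos (θ w), Real.sin (θ w)) := by
    have h1 : Continuous (fderiv ℝ β) := hβ.continuous_fderiv (by simp)
    have h2 := hP.smooth.continuous
    exact h1.clm_apply ((Real.continuous_cos.comp h2).prodMk (Real.continuous_sin.comp h2))
  have hne : ∀ w : ℝ × ℝ, fderiv ℝ β w (Real.cos (θ w), Real.sin (θ w)) ≠ 0 := by
    intro w h
    obtain ⟨k, hk⟩ := beta_ker hP hF hτ hG hβ hinv hbot h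
    have h1 := congrArg Prod.fst hk
    have h2 := congrArg Prod.snd hk
    simp only [PX, one_mul, Prod.smul_mk, smul_eq_mul] at h1 h2
    have h3 := Real.sin_sq_add_cos_sq (θ w)
    have h4 : Real.sin (θ w) ^ 2 + Real.cos (θ w) ^ 2 = 0 := by
      have h5 : Real.sin (θ w) ^ 2 = Real.sin (θ w) * (k * Real.cos (θ w)) := by
        rw [← h2, sq]
      have h6 : Real.cos (θ w) ^ 2 = Real.cos (θ w) * (k * -Real.sin (θ w)) := by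
        rw [← h1, sq]
      rw [h5, h6]
      ring
    linarith
  have h0 : fderiv ℝ β (0, -M - 1) (Real.cos (θ (0, -M - 1)), Real.sin (θ (0, -M - 1))) = 1 := by
    have hM := hP.hM
    have h1 : θ (0, -M - 1) = 0 := hP.supp _ (by
      rw [le_abs]; right
      show M ≤ -(-M - 1)
      linarith)
    rw [SPos_fd hbot (show ((0 : ℝ), -M - 1).2 < -M by show -M - 1 < -M; linarith), h1]
    simp
  by_contra hneg
  push Not at hneg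
  obtain ⟨z, hz⟩ := mem_range_of_exists_le_of_exists_ge (c := (0 : ℝ)) hc ⟨w, hneg⟩
    ⟨(0, -M - 1), by rw [h0]; exact zero_le_one⟩
  exact hne z hz

theorem wedge {A β ρ : ℝ × ℝ → ℝ} (hA : ContDiff ℝ ∞ A) (hβ : ContDiff ℝ ∞ β)
    (hρ : ContDiff ℝ ∞ ρ)
    (h : ∀ (w : ℝ × ℝ) (a r : ℝ), w.2 * a + fderiv ℝ A w (a, r) = ρ w * fderiv ℝ β w (a, r))
    (w ξ ζ : ℝ × ℝ) : fderiv ℝ ρ w ξ * fderiv ℝ β w ζ - fderiv ℝ ρ w ζ * fderiv ℝ β w ξ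
      = ξ.2 * ζ.1 - ζ.2 * ξ.1 := by
  have d2 : ∀ {f : ℝ × ℝ → ℝ}, ContDiff ℝ ∞ f →
      HasFDerivAt (fderiv ℝ f) (fderiv ℝ (fderiv ℝ f) w) w := fun {f} hf =>
    ((hf.fderiv_right (m := ∞) (by simp)).differentiable (by simp) w).hasFDerivAt
  have sy : ∀ {f : ℝ × ℝ → ℝ}, ContDiff ℝ ∞ f → ∀ ξ ζ : ℝ × ℝ,
      fderiv ℝ (fderiv ℝ f) w ξ ζ = fderiv ℝ (fderiv ℝ f) w ζ ξ := fun {f} hf ξ ζ =>
    (hf.contDiffAt.isSymmSndFDerivAt (by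
      rw [minSmoothness_of_isRCLikeNormedField]
      exact WithTop.coe_le_coe.2 le_top)).eq ξ ζ
  have ap : ∀ {f : ℝ × ℝ → ℝ}, ContDiff ℝ ∞ f → ∀ ζ : ℝ × ℝ,
      HasFDerivAt (fun y => fderiv ℝ f y ζ) ((fderiv ℝ (fderiv ℝ f) w).flip ζ) w := by
    intro f hf ζ
    have h1 := (d2 hf).clm_apply (hasFDerivAt_const ζ w)
    refine h1.congr_fderiv ?_
    ext <;> simp
  have key : ∀ ξ ζ : ℝ × ℝ, ξ.2 * ζ.1 + fderiv ℝ (fderiv ℝ A) w ξ ζ =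
      ρ w * fderiv ℝ (fderiv ℝ β) w ξ ζ + fderiv ℝ β w ζ * fderiv ℝ ρ w ξ := by
    intro ξ ζ
    have e : (fun y : ℝ × ℝ => y.2 * ζ.1 + fderiv ℝ A y ζ) = fun y => ρ y * fderiv ℝ β y ζ :=
      funext fun y => h y ζ.1 ζ.2
    have h1 : HasFDerivAt (fun y : ℝ × ℝ => y.2 * ζ.1 + fderiv ℝ A y ζ)
        (ζ.1 • (ContinuousLinearMap.snd ℝ ℝ ℝ) + (fderiv ℝ (fderiv ℝ A) w).flip ζ) w :=
      (hasFDerivAt_snd.mul_const ζ.1).add (ap hA ζ)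
    have h2 : HasFDerivAt (fun y => ρ y * fderiv ℝ β y ζ)
        (ρ w • (fderiv ℝ (fderiv ℝ β) w).flip ζ + fderiv ℝ β w ζ • fderiv ℝ ρ w) w :=
      (hρ.differentiable (by simp) w).hasFDerivAt.mul (ap hβ ζ)
    rw [e] at h1
    have h3 := congrArg (fun L : ℝ × ℝ →L[ℝ] ℝ => L ξ) (h1.unique h2)
    simp only [_root_.add_apply, _root_.smul_apply,
      ContinuousLinearMap.flip_apply, smul_eq_mul, ContinuousLinearMap.coe_snd'] at h3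
    linarith
  have k1 := key ξ ζ
  have k2 := key ζ ξ
  rw [sy hA ζ ξ, sy hβ ζ ξ] at k2
  linarith

end Pool.Agent.H2.TI
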