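import Pool.Agent.H2.TI.SAct
import Pool.Agent.H2.TI.SPos
import Pool.Agent.H2.TI.SExt

/-!
# The second coordinate (module SRho)

Let `x.1 ∈ N`, `φ = Θ x`, `e' = (cos φ • V x.1, sin φ)`. Planar functions for `q ∈ N`:
`β (t, r) = t + b (R t q, r)`, `A_q (t, r) = A (R t q, r)`, phase `θ = onP R Θ q`, flow `Ψq` (`exists_PFlow`, `pphaseN`,
`plane_flow`; `GoodP` for `Ψq` from `GoodN`: `(Ψq t w).2 = (Ψ t (R w.1 q, w.2)).2`). Chain rule:
`Dβ(w)(a, r) = a + Db(x)(a • V x.1, r)` with `x = (R w.1 q, w.2)`, and `DA_q(w)(a, r) = DA(x)(a • V x.1, r)`.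
`β (Ψq t w) = β w`: the derivative in `t` of `(Ψq t w).1 + b (Ψ t x)` is `-sin θ + sin θ = 0` (`p_fst`, `ActN.db`). `β w = w.1` for
`w.2 ≤ -M'`.
PROOF of `exists_rho`. `c x = cos φ + Db(x) e'` is smooth on `E m × ℝ` and `c x > 0` for `x.1 ∈ N` (`beta_pos` at `w = (0, x.2)`,
`q = x.1`). `ρ` = extension (`exists_ext`, `T = {x.1 ∈ N}` closed, `O = {c ≠ 0}`) of `(x.2 cos φ + DA(x) e') / c x`.
* `id`: both sides are linear in `(a, r)`. For `(a, r) = (-sin φ, cos φ)`: left `-x.2 sin φ + DA(x)(XFN V Θ 1 x) = 0` (`dA` at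
  `t = 0`), right `ρ (-sin φ + Db(x)(XFN V Θ 1 x)) = 0` (`db` at `t = 0`). For `(cos φ, sin φ)`: definition of `ρ`. These two
  vectors span `ℝ²`.
* `ker`: `beta_ker` for `w = (0, x.2)`.
* `pos`: planar `ρ_q w = ρ (R w.1 q, w.2)`; `wedge` with `ξ = (-sin φ, cos φ)`, `ζ = (cos φ, sin φ)`, `w = (0, x.2)`: `Dβ ξ = 0`, so
  `Dρ_q ξ * c = cos² φ + sin² φ = 1`, and `Dρ_q ξ = Dρ(x)(XFN V Θ 1 x)`.
* `bot`: for `x.2 ≤ -M'`, `b = A = 0` on `N × (-∞, -M']`, so the derivatives of `b`, `A` in the direction `e' = (V, 0)`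
  (`φ = 0`) vanish (along `(R t x.1, x.2)`): `c = 1`, `ρ = x.2`.
* `top`: let `t₀` be such that `y = Ψ t₀ x` has `y.2 ≥ M'` (`XN_high`). For `t ≥ 0`: `Ψ t y = (y.1, y.2 + t)` (`XN_up`), `Θ = 0`
  there, `d/dt ρ (Ψ t y) = Dρ(XFN) = 1 / c (Ψ t y)` and `c (Ψ t y) = 1 + Db(Ψ t y)(V, 0)` does not depend on `t`: for all
  `q' ∈ N`, `r ≥ M'`: `b (q', r) = b (q', M')` (`ActN.db` with `Θ = 0`). So `ρ (Ψ t y) = ρ y + t / c y → ∞`.
-/

set_option autoImplicit false

open scoped ContDiff Topology RealInnerProductSpace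
open Set Filter

namespace Pool.Agent.H2.TI

open Pool.Agent.H57.NL Pool.Agent.H2.TG

variable {m n : ℕ} {N : Set (E m)} {V : E m → E m} {R : ℝ → E m → E m} {Θ : E m × ℝ → ℝ}
  {M' τ : ℝ} {Ψ : ℝ → E m × ℝ → E m × ℝ} {b A : E m × ℝ → ℝ}

private theorem srho_comp (hB : Base n N V R) {G : E m × ℝ → ℝ} (hG : ContDiff ℝ ∞ G) (q : E m)
    (w : ℝ × ℝ) (a r : ℝ) : fderiv ℝ (fun w : ℝ × ℝ => G (R w.1 q, w.2)) w (a, r) =
      fderiv ℝ G (R w.1 q, w.2) (a • V (R w.1 q), r) := by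
  have h1 : HasFDerivAt (fun w : ℝ × ℝ => R w.1 q)
      ((ContinuousLinearMap.fst ℝ ℝ ℝ).smulRight (V (R w.1 q))) w := by
    have h2 := HasFDerivAt.comp w (f := fun w : ℝ × ℝ => w.1)
      (hB.flow.deriv q w.1).hasFDerivAt hasFDerivAt_fst
    refine h2.congr_fderiv (ContinuousLinearMap.ext fun x => ?_)
    simp
  have h2 : HasFDerivAt (fun w : ℝ × ℝ => ((R w.1 q, w.2) : E m × ℝ))
      (((ContinuousLinearMap.fst ℝ ℝ ℝ).smulRight (V (R w.1 q))).prod
        (ContinuousLinearMap.snd ℝ ℝ ℝ)) w := h1.prodMk hasFDerivAt_snd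
  have h3 := HasFDerivAt.comp w (f := fun w : ℝ × ℝ => ((R w.1 q, w.2) : E m × ℝ))
    ((hG.differentiable (by simp)) (R w.1 q, w.2)).hasFDerivAt h2
  have h4 : HasFDerivAt (fun w : ℝ × ℝ => G (R w.1 q, w.2)) _ w := h3
  rw [h4.fderiv]
  rfl

private theorem srho_dt (hΨ : IsFlow (XFN V Θ 1) Ψ) {G : E m × ℝ → ℝ} (hG : ContDiff ℝ ∞ G)
    (x : E m × ℝ) (t : ℝ) :
    HasDerivAt (fun t => G (Ψ t x)) (fderiv ℝ G (Ψ t x) (XFN V Θ 1 (Ψ t x))) t :=
  HasFDerivAt.comp_hasDerivAt t (f := fun t => Ψ t x) (l := G)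
    ((hG.differentiable (by simp)) (Ψ t x)).hasFDerivAt (hΨ.deriv x t)

/-- the derivative along `V` in the first variable -/
private theorem srho_ds (hB : Base n N V R) {G : E m × ℝ → ℝ} (hG : ContDiff ℝ ∞ G)
    (x : E m × ℝ) :
    HasDerivAt (fun s => G (R s x.1, x.2)) (fderiv ℝ G x (V x.1, 0)) 0 := by
  have h1 : HasDerivAt (fun s => ((R s x.1, x.2) : E m × ℝ)) (V (R 0 x.1), 0) 0 :=
    (hB.flow.deriv x.1 0).prodMk (hasDerivAt_const 0 x.2)
  have h2 : ((R 0 x.1, x.2) : E m × ℝ) = x := by rw [R_zero hB]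
  have h3 := HasFDerivAt.comp_hasDerivAt 0 (f := fun s => ((R s x.1, x.2) : E m × ℝ)) (l := G)
    ((hG.differentiable (by simp)) (R 0 x.1, x.2)).hasFDerivAt h1
  rw [R_zero hB] at h3
  exact h3

private noncomputable def srhoC (V : E m → E m) (Θ b : E m × ℝ → ℝ) (x : E m × ℝ) : ℝ :=
  Real.cos (Θ x) + fderiv ℝ b x (Real.cos (Θ x) • V x.1, Real.sin (Θ x))

private theorem srho_smooth (hB : Base n N V R) (hΘ : PhaseI Θ M') {G : E m × ℝ → ℝ}
    (hG : ContDiff ℝ ∞ G) : ContDiff ℝ ∞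
      (fun x : E m × ℝ => fderiv ℝ G x (Real.cos (Θ x) • V x.1, Real.sin (Θ x))) := by
  have h1 : ContDiff ℝ ∞ (fderiv ℝ G) := hG.fderiv_right (by simp)
  exact h1.clm_apply (((hΘ.smooth.cos).smul (hB.smooth.comp contDiff_fst)).prodMk hΘ.smooth.sin)

private theorem srho_pos (hB : Base n N V R) (hΘ : PhaseI Θ M') (hΨ : IsFlow (XFN V Θ 1) Ψ)
    (hτ : 0 < τ) (hG : GoodN N M' τ Ψ) (hA : ActN N Θ M' Ψ b A) {x : E m × ℝ} (hx : x.1 ∈ N) :
    0 < srhoC V Θ b x := by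
  obtain ⟨K, hK, hP⟩ := pphaseN hB hΘ
  obtain ⟨Φ, hΦ, -⟩ := exists_PFlow (hP x.1 hx)
  have hflow := hΦ 1
  have hpl : ∀ t w, Ψ t (R w.1 x.1, w.2) = (R (Φ 1 t w).1 x.1, (Φ 1 t w).2) :=
    fun t w => plane_flow hB hΘ hΨ hflow t w
  set β : ℝ × ℝ → ℝ := fun w => w.1 + b (R w.1 x.1, w.2) with hβ
  have hcomp : ContDiff ℝ ∞ (fun w : ℝ × ℝ => b (R w.1 x.1, w.2)) :=
    hA.smoothb.comp ((hB.flow.smooth.comp (contDiff_fst.prodMk contDiff_const)).prodMk
      contDiff_snd)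
  have hβs : ContDiff ℝ ∞ β := contDiff_fst.add hcomp
  have hgood : GoodP M' τ (Φ 1) := by
    intro w hw
    have h1 := hG (R w.1 x.1, w.2) (hB.maps _ hx _) hw
    rw [hpl, hpl] at h1
    exact h1
  have hinv : ∀ t w, β (Φ 1 t w) = β w := by
    intro t w
    have h1 : ∀ t, HasDerivAt (fun t => β (Φ 1 t w)) 0 t := by
      intro t
      have h2 := (p_fst hflow w t).add (hA.db (R w.1 x.1, w.2) (hB.maps _ hx _) t)
      have h3 : -Real.sin (1 * onP R Θ x.1 (Φ 1 t w)) +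
          Real.sin (Θ (Ψ t (R w.1 x.1, w.2))) = 0 := by
        rw [hpl, one_mul]
        unfold onP
        ring
      rw [h3] at h2
      refine h2.congr_of_eventuallyEq (Filter.Eventually.of_forall fun t => ?_)
      show (Φ 1 t w).1 + b (R (Φ 1 t w).1 x.1, (Φ 1 t w).2) =
        (Φ 1 t w).1 + b (Ψ t (R w.1 x.1, w.2))
      rw [hpl]
    have h4 := is_const_of_deriv_eq_zero (fun t => (h1 t).differentiableAt)
      (fun t => (h1 t).deriv) t 0
    simp only [hflow.zero] at h4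
    exact h4
  have hbot : ∀ w : ℝ × ℝ, w.2 ≤ -M' → β w = w.1 := by
    intro w hw
    show w.1 + b (R w.1 x.1, w.2) = w.1
    rw [(hA.bot (R w.1 x.1, w.2) (hB.maps _ hx _) hw).1, add_zero]
  have h := beta_pos (hP x.1 hx) hflow hτ hgood hβs hinv hbot (0, x.2)
  have h1 : onP R Θ x.1 (0, x.2) = Θ x := by
    show Θ (R 0 x.1, x.2) = Θ x
    rw [R_zero hB]
  rw [h1] at h
  have h2 : fderiv ℝ β (0, x.2) (Real.cos (Θ x), Real.sin (Θ x)) = srhoC V Θ b x := by
    have h3 : HasFDerivAt β (ContinuousLinearMap.fst ℝ ℝ ℝ +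
        fderiv ℝ (fun w : ℝ × ℝ => b (R w.1 x.1, w.2)) (0, x.2)) (0, x.2) :=
      hasFDerivAt_fst.add ((hcomp.differentiable (by simp)) _).hasFDerivAt
    rw [h3.fderiv]
    show Real.cos (Θ x) + fderiv ℝ (fun w : ℝ × ℝ => b (R w.1 x.1, w.2)) (0, x.2)
      (Real.cos (Θ x), Real.sin (Θ x)) = srhoC V Θ b x
    rw [srho_comp hB hA.smoothb]
    simp only [R_zero hB]
    rfl
  rwa [h2] at h

theorem exists_rho (hB : Base n N V R) (hΘ : PhaseI Θ M') (hΨ : IsFlow (XFN V Θ 1) Ψ)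
    (hτ : 0 < τ) (hG : GoodN N M' τ Ψ) (hA : ActN N Θ M' Ψ b A) :
    ∃ ρ, RhoN N V Θ M' Ψ b A ρ := by
  have hM := hΘ.hM
  have hcs : ContDiff ℝ ∞ (srhoC V Θ b) := hΘ.smooth.cos.add (srho_smooth hB hΘ hA.smoothb)
  have hcpos : ∀ x : E m × ℝ, x.1 ∈ N → 0 < srhoC V Θ b x := fun x hx =>
    srho_pos hB hΘ hΨ hτ hG hA hx
  have hTcl : IsClosed {x : E m × ℝ | x.1 ∈ N} := hB.cpt.isClosed.preimage continuous_fst
  have hOop : IsOpen {x : E m × ℝ | srhoC V Θ b x ≠ 0} :=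
    isOpen_ne.preimage hcs.continuous
  obtain ⟨ρ, hρs, hρ⟩ := exists_ext hTcl hOop (fun x hx => (hcpos x hx).ne')
    (f := fun x => (x.2 * Real.cos (Θ x) +
      fderiv ℝ A x (Real.cos (Θ x) • V x.1, Real.sin (Θ x))) / srhoC V Θ b x)
    (ContDiffOn.div ((contDiff_snd.mul hΘ.smooth.cos).add
      (srho_smooth hB hΘ hA.smoothA)).contDiffOn hcs.contDiffOn (fun x hx => hx))
  have hρc : ∀ x : E m × ℝ, x.1 ∈ N → ρ x * srhoC V Θ b x = x.2 * Real.cos (Θ x) +
      fderiv ℝ A x (Real.cos (Θ x) • V x.1, Real.sin (Θ x)) := by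
    intro x hx
    rw [hρ x hx, div_mul_cancel₀ _ (hcpos x hx).ne']
  -- the two linear forms on the orbit direction
  have hXb : ∀ x : E m × ℝ, x.1 ∈ N →
      fderiv ℝ b x ((-Real.sin (Θ x)) • V x.1, Real.cos (Θ x)) = Real.sin (Θ x) := by
    intro x hx
    have h1 := srho_dt hΨ hA.smoothb x 0
    have h2 := hA.db x hx 0
    rw [hΨ.zero] at h1 h2
    have h3 := h1.unique h2
    unfold XFN at h3
    rw [one_mul] at h3
    exact h3
  have hXA : ∀ x : E m × ℝ, x.1 ∈ N →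
      fderiv ℝ A x ((-Real.sin (Θ x)) • V x.1, Real.cos (Θ x)) = x.2 * Real.sin (Θ x) := by
    intro x hx
    have h1 := srho_dt hΨ hA.smoothA x 0
    have h2 := hA.dA x hx 0
    rw [hΨ.zero] at h1 h2
    have h3 := h1.unique h2
    unfold XFN at h3
    rw [one_mul] at h3
    exact h3
  have hdec : ∀ (x : E m × ℝ) (a r : ℝ), ((a • V x.1, r) : E m × ℝ) =
      (-(a * Real.sin (Θ x)) + r * Real.cos (Θ x)) •
        (((-Real.sin (Θ x)) • V x.1, Real.cos (Θ x)) : E m × ℝ) +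
      (a * Real.cos (Θ x) + r * Real.sin (Θ x)) •
        ((Real.cos (Θ x) • V x.1, Real.sin (Θ x)) : E m × ℝ) := by
    intro x a r
    have h1 := Real.sin_sq_add_cos_sq (Θ x)
    refine Prod.ext ?_ ?_
    · show a • V x.1 = (-(a * Real.sin (Θ x)) + r * Real.cos (Θ x)) •
        ((-Real.sin (Θ x)) • V x.1) +
        (a * Real.cos (Θ x) + r * Real.sin (Θ x)) • (Real.cos (Θ x) • V x.1)
      rw [smul_smul, smul_smul, ← add_smul]
      congr 1
      calc a = a * (Real.sin (Θ x) ^ 2 + Real.cos (Θ x) ^ 2) := by rw [h1, mul_one]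
        _ = _ := by ring
    · show r = (-(a * Real.sin (Θ x)) + r * Real.cos (Θ x)) * Real.cos (Θ x) +
        (a * Real.cos (Θ x) + r * Real.sin (Θ x)) * Real.sin (Θ x)
      calc r = r * (Real.sin (Θ x) ^ 2 + Real.cos (Θ x) ^ 2) := by rw [h1, mul_one]
        _ = _ := by ring
  have hmb : ∀ x : E m × ℝ, x.1 ∈ N → ∀ a r : ℝ, a + fderiv ℝ b x (a • V x.1, r) =
      (a * Real.cos (Θ x) + r * Real.sin (Θ x)) * srhoC V Θ b x := by
    intro x hx a r
    have h1 := Real.sin_sq_add_cos_sq (Θ x)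
    rw [hdec x a r, map_add, map_smul, map_smul, hXb x hx, smul_eq_mul, smul_eq_mul]
    have h2 : fderiv ℝ b x (Real.cos (Θ x) • V x.1, Real.sin (Θ x)) =
        srhoC V Θ b x - Real.cos (Θ x) := by
      unfold srhoC
      ring
    rw [h2]
    linear_combination (-a) * h1
  have hmA : ∀ x : E m × ℝ, x.1 ∈ N → ∀ a r : ℝ, x.2 * a + fderiv ℝ A x (a • V x.1, r) =
      (a * Real.cos (Θ x) + r * Real.sin (Θ x)) * (x.2 * Real.cos (Θ x) +
      fderiv ℝ A x (Real.cos (Θ x) • V x.1, Real.sin (Θ x))) := by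
    intro x hx a r
    have h1 := Real.sin_sq_add_cos_sq (Θ x)
    rw [hdec x a r, map_add, map_smul, map_smul, hXA x hx, smul_eq_mul, smul_eq_mul]
    linear_combination (-x.2 * a) * h1
  have hid : ∀ x : E m × ℝ, x.1 ∈ N → ∀ a r : ℝ,
      x.2 * a + fderiv ℝ A x (a • V x.1, r) = ρ x * (a + fderiv ℝ b x (a • V x.1, r)) := by
    intro x hx a r
    rw [hmA x hx, hmb x hx, ← hρc x hx]
    ring
  -- derivative of rho along the orbits
  have hone : ∀ x : E m × ℝ, x.1 ∈ N →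
      fderiv ℝ ρ x (XFN V Θ 1 x) * srhoC V Θ b x = 1 := by
    intro x hx
    have hcb : ContDiff ℝ ∞ (fun w : ℝ × ℝ => b (R w.1 x.1, w.2)) :=
      hA.smoothb.comp ((hB.flow.smooth.comp (contDiff_fst.prodMk contDiff_const)).prodMk
        contDiff_snd)
    have hcA : ContDiff ℝ ∞ (fun w : ℝ × ℝ => A (R w.1 x.1, w.2)) :=
      hA.smoothA.comp ((hB.flow.smooth.comp (contDiff_fst.prodMk contDiff_const)).prodMk
        contDiff_snd)
    have hcρ : ContDiff ℝ ∞ (fun w : ℝ × ℝ => ρ (R w.1 x.1, w.2)) :=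
      hρs.comp ((hB.flow.smooth.comp (contDiff_fst.prodMk contDiff_const)).prodMk
        contDiff_snd)
    have hfb : ∀ (w : ℝ × ℝ) (a r : ℝ),
        fderiv ℝ (fun w : ℝ × ℝ => w.1 + b (R w.1 x.1, w.2)) w (a, r) =
          a + fderiv ℝ b (R w.1 x.1, w.2) (a • V (R w.1 x.1), r) := by
      intro w a r
      have h3 : HasFDerivAt (fun w : ℝ × ℝ => w.1 + b (R w.1 x.1, w.2))
          (ContinuousLinearMap.fst ℝ ℝ ℝ +
          fderiv ℝ (fun w : ℝ × ℝ => b (R w.1 x.1, w.2)) w) w :=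
        hasFDerivAt_fst.add ((hcb.differentiable (by simp)) _).hasFDerivAt
      rw [h3.fderiv]
      show a + fderiv ℝ (fun w : ℝ × ℝ => b (R w.1 x.1, w.2)) w (a, r) = _
      rw [srho_comp hB hA.smoothb]
    have hw := wedge (A := fun w : ℝ × ℝ => A (R w.1 x.1, w.2))
      (β := fun w : ℝ × ℝ => w.1 + b (R w.1 x.1, w.2)) (ρ := fun w : ℝ × ℝ => ρ (R w.1 x.1, w.2))
      hcA (contDiff_fst.add hcb) hcρ (fun w a r => by
        rw [srho_comp hB hA.smoothA, hfb]
        exact hid (R w.1 x.1, w.2) (hB.maps _ hx _) a r) (0, x.2)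
      (-Real.sin (Θ x), Real.cos (Θ x)) (Real.cos (Θ x), Real.sin (Θ x))
    rw [srho_comp hB hρs, srho_comp hB hρs, hfb, hfb] at hw
    simp only [R_zero hB] at hw
    have hx' : ((x.1, x.2) : E m × ℝ) = x := rfl
    rw [hx', hXb x hx] at hw
    have h1 := Real.sin_sq_add_cos_sq (Θ x)
    have h2 : XFN V Θ 1 x = ((-Real.sin (Θ x)) • V x.1, Real.cos (Θ x)) := by
      unfold XFN
      rw [one_mul]
    rw [h2]
    unfold srhoC
    linear_combination hw + h1
  refine ⟨ρ, hA, hρs, hid, ?_, ?_, ?_, ?_⟩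
  · intro x hx a r h
    rw [hmb x hx] at h
    have h1 : a * Real.cos (Θ x) + r * Real.sin (Θ x) = 0 :=
      (mul_eq_zero.mp h).resolve_right (hcpos x hx).ne'
    have h2 := Real.sin_sq_add_cos_sq (Θ x)
    refine ⟨-(a * Real.sin (Θ x)) + r * Real.cos (Θ x), ?_, ?_⟩
    · linear_combination (Real.cos (Θ x)) * h1 - a * h2
    · linear_combination (Real.sin (Θ x)) * h1 - r * h2
  · intro x hx
    have h1 := hone x hx
    have h2 := hcpos x hx
    by_contra h3
    rw [not_lt] at h3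
    have := mul_nonpos_of_nonpos_of_nonneg h3 h2.le
    linarith
  · intro x hx hx2
    have hΘ0 : Θ x = 0 := hΘ.supp x (by rw [le_abs]; right; linarith)
    have hz : ∀ G : E m × ℝ → ℝ, ContDiff ℝ ∞ G →
        (∀ y : E m × ℝ, y.1 ∈ N → y.2 ≤ -M' → G y = 0) → fderiv ℝ G x (V x.1, 0) = 0 := by
      intro G hGs hG0
      have h1 := srho_ds hB hGs x
      have h2 : (fun s => G (R s x.1, x.2)) = fun _ => 0 := by
        funext s
        exact hG0 _ (hB.maps _ hx _) hx2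
      rw [h2] at h1
      exact h1.unique (hasDerivAt_const 0 0)
    have h1 := hρc x hx
    unfold srhoC at h1
    rw [hΘ0, Real.cos_zero, Real.sin_zero, one_smul, hz b hA.smoothb (fun y hy hy2 =>
      (hA.bot y hy hy2).1), hz A hA.smoothA (fun y hy hy2 => (hA.bot y hy hy2).2)] at h1
    linarith
  · intro x hx
    set t₀ : ℝ := τ + 1 + M' + x.2 ^ 2 with ht₀
    set y := Ψ t₀ x with hy
    have hyN : y.1 ∈ N := XN_mem hB hΘ hΨ hx t₀
    have hy2 : M' ≤ y.2 := XN_high hB hΘ hΨ hτ hG hx (le_refl _)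
    have hbM : ∀ q' ∈ N, ∀ r, M' ≤ r → b (q', r) = b (q', M') := by
      intro q' hq' r hr
      have h1 : ∀ t ∈ Set.Ici (0 : ℝ), HasDerivWithinAt (fun t => b (Ψ t (q', M'))) 0
          (Set.Ici (0 : ℝ)) t := by
        intro t ht
        have h2 := hA.db (q', M') hq' t
        rw [XN_up hB hΘ hΨ (x := (q', M')) (le_refl M') ht] at h2
        rw [hΘ.supp (q', M' + t) (by
          show M' ≤ |M' + t|
          rw [le_abs]
          left
          have := mem_Ici.mp ht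
          linarith), Real.sin_zero] at h2
        exact h2.hasDerivWithinAt
      have h3 := Convex.norm_image_sub_le_of_norm_hasDerivWithin_le
        (f := fun t => b (Ψ t (q', M'))) (f' := fun _ => 0) (s := Set.Ici (0 : ℝ)) (C := 0)
        h1 (fun t _ => by simp) (convex_Ici 0) (mem_Ici.mpr (le_refl 0))
        (mem_Ici.mpr (by linarith : (0 : ℝ) ≤ r - M'))
      rw [zero_mul] at h3
      have h4 := sub_eq_zero.mp (norm_le_zero_iff.mp h3)
      simp only [hΨ.zero] at h4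
      rw [XN_up hB hΘ hΨ (x := (q', M')) (le_refl M') (by linarith : (0 : ℝ) ≤ r - M')] at h4
      have h5 : M' + (r - M') = r := by ring
      simp only [h5] at h4
      exact h4
    have hcM : ∀ r, M' ≤ r → srhoC V Θ b (y.1, r) = srhoC V Θ b (y.1, M') := by
      intro r hr
      have e : ∀ r, M' ≤ r → srhoC V Θ b (y.1, r) = 1 + fderiv ℝ b (y.1, r) (V y.1, 0) := by
        intro r hr
        unfold srhoC
        rw [hΘ.supp (y.1, r) (by
          show M' ≤ |r|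
          rw [le_abs]
          left
          exact hr), Real.cos_zero, Real.sin_zero, one_smul]
      rw [e r hr, e M' (le_refl _)]
      congr 1
      have h1 := srho_ds hB hA.smoothb (y.1, r)
      have h2 := srho_ds hB hA.smoothb (y.1, M')
      have h3 : (fun s => b (R s (y.1, r).1, (y.1, r).2)) =
          fun s => b (R s (y.1, M').1, (y.1, M').2) := by
        funext s
        exact hbM _ (hB.maps _ hyN _) r hr
      rw [h3] at h1
      exact h1.unique h2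
    set κ : ℝ := fderiv ℝ ρ y (XFN V Θ 1 y) with hκ
    have hcy := hcpos y hyN
    have hκpos : 0 < κ := by
      have h1 := hone y hyN
      by_contra h3
      rw [not_lt] at h3
      have := mul_nonpos_of_nonpos_of_nonneg h3 hcy.le
      linarith
    have hlin : ∀ t, 0 ≤ t → ρ (Ψ t y) = ρ y + κ * t := by
      intro t ht
      have h1 : ∀ u ∈ Set.Ici (0 : ℝ), HasDerivWithinAt (fun u => ρ (Ψ u y) - κ * u) 0
          (Set.Ici (0 : ℝ)) u := by
        intro u hu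
        have h2 := srho_dt hΨ hρs y u
        have h3 : fderiv ℝ ρ (Ψ u y) (XFN V Θ 1 (Ψ u y)) = κ := by
          have h4 := hone (Ψ u y) (XN_mem hB hΘ hΨ hyN u)
          have h5 := hone y hyN
          have h6 : srhoC V Θ b (Ψ u y) = srhoC V Θ b y := by
            have hu' := mem_Ici.mp hu
            rw [XN_up hB hΘ hΨ hy2 hu', hcM (y.2 + u) (by linarith)]
            exact (hcM y.2 hy2).symm
          rw [h6] at h4
          exact mul_right_cancel₀ hcy.ne' (h4.trans h5.symm)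
        rw [h3] at h2
        have h7 := h2.sub ((hasDerivAt_id u).const_mul κ)
        rw [mul_one, sub_self] at h7
        exact h7.hasDerivWithinAt
      have h8 := Convex.norm_image_sub_le_of_norm_hasDerivWithin_le
        (f := fun u => ρ (Ψ u y) - κ * u) (f' := fun _ => 0) (s := Set.Ici (0 : ℝ)) (C := 0)
        h1 (fun t _ => by simp) (convex_Ici 0) (mem_Ici.mpr (le_refl 0)) (mem_Ici.mpr ht)
      rw [zero_mul] at h8
      have h9 := sub_eq_zero.mp (norm_le_zero_iff.mp h8)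
      simp only [hΨ.zero, mul_zero, sub_zero] at h9
      linarith
    have hshift : ∀ t, ρ (Ψ (t + t₀) x) = ρ (Ψ t y) := by
      intro t
      rw [hy, hΨ.add (XFN_contDiff hB hΘ 1)]
    have h1 : Tendsto (fun t => ρ y + κ * t) atTop atTop :=
      tendsto_atTop_add_const_left _ _ (tendsto_id.const_mul_atTop hκpos)
    have h2 : Tendsto (fun t => ρ (Ψ (t + t₀) x)) atTop atTop := by
      refine h1.congr' ?_
      filter_upwards [eventually_ge_atTop (0 : ℝ)] with t ht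
      rw [hshift, hlin t ht]
    have h3 : Tendsto (fun t : ℝ => t - t₀) atTop atTop :=
      tendsto_atTop_add_const_right _ (-t₀) tendsto_id
    have h4 := h2.comp h3
    refine h4.congr fun t => ?_
    show ρ (Ψ (t - t₀ + t₀) x) = ρ (Ψ t x)
    rw [sub_add_cancel]

end Pool.Agent.H2.TI
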