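import Pool.Agent.H2.TI.AngB

/-!
# The points beside a leaf are off `Z` (module SideOff)

PROOF of `side_off`. Local equation `g` on `W` at `c s₀` (`PSet.loc`). `g (c s) = 0` for `s` near `s₀`, so
  `Dg (c s₀)(cos φ, sin φ) = 0` (`φ = φ s₀`); `Dg ≠ 0` (`PEq.reg`), so `d = Dg (c s₀)(-sin φ, cos φ) ≠ 0`. The function
  `e ↦ g (side c φ s₀ e)` is differentiable at `0` with derivative `d` and vanishes at `0`: so it is not zero for
  small `e ≠ 0`, and `side c φ s₀ e ∈ W \ Z`.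
-/

set_option autoImplicit false

open scoped ContDiff Topology
open Set

namespace Pool.Agent.H2.TI

variable {Z : Set (ℝ × ℝ)} {M K δ : ℝ} {F : ℝ × ℝ → ℝ} {c : ℝ → ℝ × ℝ} {φ : ℝ → ℝ}

theorem side_off (hZ : PSet Z M K δ F) (hc : PLeaf Z δ c φ) (s₀ : ℝ) :
    ∃ e₀ : ℝ, 0 < e₀ ∧ ∀ e, e ≠ 0 → |e| < e₀ → side c φ s₀ e ∉ Z := by
  obtain ⟨W, g, hw, hg⟩ := hZ.loc (c s₀) (hc.mem s₀)
  have hWn : W ∈ 𝓝 (c s₀) := hg.isOpen.mem_nhds hw
  have hdiff : DifferentiableAt ℝ g (c s₀) :=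
    ((hg.smooth.contDiffAt hWn).differentiableAt (by simp))
  obtain ⟨L, hL⟩ : ∃ L, L = fderiv ℝ g (c s₀) := ⟨_, rfl⟩
  have hgd : HasFDerivAt g L (c s₀) := by rw [hL]; exact hdiff.hasFDerivAt
  have hcd := hc.pc.deriv s₀
  have hcc : ContinuousAt c s₀ := hcd.continuousAt
  have h1 : L (Real.cos (φ s₀), Real.sin (φ s₀)) = 0 := by
    have h2 : HasDerivAt (fun s => g (c s)) (L (Real.cos (φ s₀), Real.sin (φ s₀))) s₀ :=
      hgd.comp_hasDerivAt s₀ hcd
    have h3 : (fun s => g (c s)) =ᶠ[𝓝 s₀] fun _ => (0 : ℝ) := by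
      filter_upwards [hcc.preimage_mem_nhds hWn] with s hs
      exact (hg.eqn (c s) hs).mp (hc.mem s)
    have h4 : HasDerivAt (fun s => g (c s)) 0 s₀ :=
      (hasDerivAt_const s₀ (0 : ℝ)).congr_of_eventuallyEq h3
    exact h2.unique h4
  have h2 : L (-Real.sin (φ s₀), Real.cos (φ s₀)) ≠ 0 := by
    intro h0
    have hsc := Real.sin_sq_add_cos_sq (φ s₀)
    refine hg.reg (c s₀) hw ⟨?_, ?_⟩
    · rw [← hL]
      have e : ((1 : ℝ), (0 : ℝ)) = Real.cos (φ s₀) • (Real.cos (φ s₀), Real.sin (φ s₀)) +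
          (-Real.sin (φ s₀)) • (-Real.sin (φ s₀), Real.cos (φ s₀)) := by
        ext
        · simp only [Prod.smul_mk, Prod.mk_add_mk, smul_eq_mul]
          linarith
        · simp only [Prod.smul_mk, Prod.mk_add_mk, smul_eq_mul]
          ring
      rw [e, map_add, map_smul, map_smul, h1, h0, smul_zero, smul_zero, add_zero]
    · rw [← hL]
      have e : ((0 : ℝ), (1 : ℝ)) = Real.sin (φ s₀) • (Real.cos (φ s₀), Real.sin (φ s₀)) +
          Real.cos (φ s₀) • (-Real.sin (φ s₀), Real.cos (φ s₀)) := by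
        ext
        · simp only [Prod.smul_mk, Prod.mk_add_mk, smul_eq_mul]
          ring
        · simp only [Prod.smul_mk, Prod.mk_add_mk, smul_eq_mul]
          linarith
      rw [e, map_add, map_smul, map_smul, h1, h0, smul_zero, smul_zero, add_zero]
  have hside0 : side c φ s₀ 0 = c s₀ := by
    simp [side]
  have hsd : HasDerivAt (fun e : ℝ => side c φ s₀ e) (-Real.sin (φ s₀), Real.cos (φ s₀)) 0 := by
    have a1 : HasDerivAt (fun e : ℝ => (c s₀).1 - e * Real.sin (φ s₀)) (-Real.sin (φ s₀)) 0 := by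
      have := ((hasDerivAt_id (0 : ℝ)).mul_const (Real.sin (φ s₀))).const_sub (c s₀).1
      rw [one_mul] at this
      exact this
    have a2 : HasDerivAt (fun e : ℝ => (c s₀).2 + e * Real.cos (φ s₀)) (Real.cos (φ s₀)) 0 := by
      have := ((hasDerivAt_id (0 : ℝ)).mul_const (Real.cos (φ s₀))).const_add (c s₀).2
      rw [one_mul] at this
      exact this
    exact a1.prodMk a2
  have hgd' : HasFDerivAt g L (side c φ s₀ 0) := by rw [hside0]; exact hgd
  have h3 : HasDerivAt (fun e : ℝ => g (side c φ s₀ e)) (L (-Real.sin (φ s₀), Real.cos (φ s₀))) 0 :=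
    hgd'.comp_hasDerivAt 0 hsd
  have h4 : ∀ᶠ e in 𝓝[≠] (0 : ℝ), g (side c φ s₀ e) ≠ 0 := h3.eventually_ne h2
  have h5 : ∀ᶠ e in 𝓝[≠] (0 : ℝ), side c φ s₀ e ∈ W := by
    refine eventually_nhdsWithin_of_eventually_nhds ?_
    refine hsd.continuousAt.preimage_mem_nhds ?_
    rw [hside0]
    exact hWn
  have h6 := h4.and h5
  rw [eventually_nhdsWithin_iff, Metric.eventually_nhds_iff] at h6
  obtain ⟨e₀, he₀, h7⟩ := h6
  refine ⟨e₀, he₀, fun e he1 he2 hmem => ?_⟩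
  obtain ⟨h8, h9⟩ := h7 (by rw [Real.dist_eq, sub_zero]; exact he2) he1
  exact h8 ((hg.eqn _ h9).mp hmem)

end Pool.Agent.H2.TI
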