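import Pool.Agent.H2.TI.PDefs

/-!
# Stokes above a graph (module StkA, Mathlib only)

`P dt + Q dr` is a form of class `C^1` with compact support in the box `(a, b) × (c, d)`, which vanishes on the
tangent vectors of the graph `r = h t`, `c < h < d`. Then the integral of its differential over
the part of the box above the graph is zero, and below the graph as well.

PROOF of `stk_above`. Change of variables `r = h t + ρ` for fixed `t` (translation), and Fubini:
the integral is `∫_{t ∈ (a,b)} ∫_{ρ > 0} (Q_t - P_r)(t, h t + ρ) dρ dt` (outside the box `P`, `Q` and their derivatives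
vanish, so the inner integral may be extended to all `ρ > 0`). Put `Q̂ (t, ρ) = Q (t, h t + ρ)`, `P̂` similarly (zero
for `t ∉ (a, b)`). Then `(Q_t - P_r)(t, h t + ρ) = ∂_t Q̂ - h' t ∂_ρ Q̂ - ∂_ρ P̂`. For fixed `ρ > 0`, `∫ ∂_t Q̂ dt = 0` (compact
support in `(a, b)`: the support of `Q` has compact projection to `(a, b)`); for fixed `t`,
`∫_{ρ > 0} ∂_ρ (h' Q̂ + P̂) dρ = -(h' t Q (t, h t) + P (t, h t)) = 0`. All functions are continuous with compact support,
so Fubini is harmless (`MeasureTheory.integral_prod`, `integral_integral_swap`).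
A way to avoid extending `h`: replace `h` by `χ h + (1 - χ) m` with a smooth `χ` with compact support in `(a, b)`, `χ = 1` on a
neighbourhood of the projection of the supports, `m = (c + d) / 2`: of class `C^1` on `ℝ`, values in `(c, d)`, the
integral is unchanged. `stk_below`: reflect `r ↦ -r` (form `P(t,-r) dt - Q(t,-r) dr`), or
subtract from the integral over the whole box, which is zero (`stk_whole`; the graph is a null set).
-/

set_option autoImplicit false

open scoped ContDiff Topology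
open Set MeasureTheory

namespace Pool.Agent.H2.TI

private theorem stkA_line {u : ℝ → ℝ} (hu : ContDiff ℝ 1 u) (su : HasCompactSupport u) :
    ∫ x, deriv u x = 0 := by
  have hi : Integrable (deriv u) :=
    (hu.continuous_deriv le_rfl).integrable_of_hasCompactSupport su.deriv
  rw [← integral_add_compl (s := Iic (0 : ℝ)) measurableSet_Iic hi, compl_Iic,
    su.integral_Iic_deriv_eq hu, su.integral_Ioi_deriv_eq hu]
  ring

private theorem stkA_snd {Q : ℝ × ℝ → ℝ} (sQ : HasCompactSupport Q) (t : ℝ) :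
    HasCompactSupport (fun r => Q (t, r)) := by
  refine HasCompactSupport.intro (K := Prod.snd '' tsupport Q) (sQ.isCompact.image continuous_snd) ?_
  intro r hr
  by_contra hne
  exact hr ⟨(t, r), subset_tsupport Q hne, rfl⟩

private theorem stkA_fst {Q : ℝ × ℝ → ℝ} (sQ : HasCompactSupport Q) (r : ℝ) :
    HasCompactSupport (fun t => Q (t, r)) := by
  refine HasCompactSupport.intro (K := Prod.fst '' tsupport Q) (sQ.isCompact.image continuous_fst) ?_
  intro t ht
  by_contra hne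
  exact ht ⟨(t, r), subset_tsupport Q hne, rfl⟩

private theorem stkA_dt {Q : ℝ × ℝ → ℝ} (hQ : ContDiff ℝ 1 Q) (t r : ℝ) :
    HasDerivAt (fun t => Q (t, r)) (fderiv ℝ Q (t, r) (1, 0)) t := by
  have h1 : HasFDerivAt Q (fderiv ℝ Q (t, r)) (t, r) :=
    (hQ.differentiable one_ne_zero (t, r)).hasFDerivAt
  have h2 : HasDerivAt (fun t : ℝ => (t, r)) ((1 : ℝ), (0 : ℝ)) t :=
    (hasDerivAt_id t).prodMk (hasDerivAt_const t r)
  exact h1.comp_hasDerivAt t h2

private theorem stkA_dr {Q : ℝ × ℝ → ℝ} (hQ : ContDiff ℝ 1 Q) (t r : ℝ) :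
    HasDerivAt (fun r => Q (t, r)) (fderiv ℝ Q (t, r) (0, 1)) r := by
  have h1 : HasFDerivAt Q (fderiv ℝ Q (t, r)) (t, r) :=
    (hQ.differentiable one_ne_zero (t, r)).hasFDerivAt
  have h2 : HasDerivAt (fun r : ℝ => (t, r)) ((0 : ℝ), (1 : ℝ)) r :=
    (hasDerivAt_const r t).prodMk (hasDerivAt_id r)
  exact h1.comp_hasDerivAt r h2

private theorem stkA_int {Q : ℝ × ℝ → ℝ} (hQ : ContDiff ℝ 1 Q) (sQ : HasCompactSupport Q)
    (v : ℝ × ℝ) : Continuous (fun w => fderiv ℝ Q w v) ∧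
      HasCompactSupport (fun w => fderiv ℝ Q w v) := by
  refine ⟨(hQ.continuous_fderiv one_ne_zero).clm_apply continuous_const, ?_⟩
  exact (sQ.fderiv (𝕜 := ℝ)).comp_left (g := fun L : ℝ × ℝ →L[ℝ] ℝ => L v) (by simp)

/-- The integral over a horizontal strip set of the horizontal derivative vanishes. -/
private theorem stkA_hor {Q : ℝ × ℝ → ℝ} (hQ : ContDiff ℝ 1 Q) (sQ : HasCompactSupport Q)
    {S : Set ℝ} (hS : MeasurableSet S) :
    ∫ w in univ ×ˢ S, fderiv ℝ Q w (1, 0) = 0 := by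
  obtain ⟨hc, hs⟩ := stkA_int hQ sQ (1, 0)
  have hi : Integrable (fun w => fderiv ℝ Q w (1, 0)) (volume : Measure (ℝ × ℝ)) :=
    hc.integrable_of_hasCompactSupport hs
  have hi2 : Integrable (fun w : ℝ × ℝ => fderiv ℝ Q w (1, 0))
      ((volume : Measure ℝ).prod (volume.restrict S)) := by
    have := hi.restrict (s := univ ×ˢ S)
    rw [Measure.volume_eq_prod, ← Measure.prod_restrict, Measure.restrict_univ] at this
    exact this
  rw [Measure.volume_eq_prod, ← Measure.prod_restrict, Measure.restrict_univ,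
    integral_prod_symm _ hi2]
  have : ∀ r : ℝ, ∫ t : ℝ, fderiv ℝ Q (t, r) (1, 0) = 0 := by
    intro r
    have h1 : (fun t : ℝ => fderiv ℝ Q (t, r) (1, 0)) = deriv (fun t => Q (t, r)) := by
      funext t
      exact (stkA_dt hQ t r).deriv.symm
    rw [h1]
    exact stkA_line (hQ.comp (contDiff_id.prodMk contDiff_const)) (stkA_fst sQ r)
  simp [this]

theorem stk_whole {P Q : ℝ × ℝ → ℝ} (hP : ContDiff ℝ 1 P) (hQ : ContDiff ℝ 1 Q)
    (sP : HasCompactSupport P) (sQ : HasCompactSupport Q) :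
    ∫ w : ℝ × ℝ, (fderiv ℝ Q w (1, 0) - fderiv ℝ P w (0, 1)) = 0 := by
  obtain ⟨hc, hs⟩ := stkA_int hQ sQ (1, 0)
  obtain ⟨hc', hs'⟩ := stkA_int hP sP (0, 1)
  have hi : Integrable (fun w => fderiv ℝ Q w (1, 0)) (volume : Measure (ℝ × ℝ)) :=
    hc.integrable_of_hasCompactSupport hs
  have hi' : Integrable (fun w => fderiv ℝ P w (0, 1)) (volume : Measure (ℝ × ℝ)) :=
    hc'.integrable_of_hasCompactSupport hs'
  rw [integral_sub hi hi']
  have h1 := stkA_hor hQ sQ (S := univ) MeasurableSet.univ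
  rw [univ_prod_univ, Measure.restrict_univ] at h1
  rw [h1, Measure.volume_eq_prod, integral_prod _ (by rw [← Measure.volume_eq_prod]; exact hi')]
  have : ∀ t : ℝ, ∫ r : ℝ, fderiv ℝ P (t, r) (0, 1) = 0 := by
    intro t
    have h1 : (fun r : ℝ => fderiv ℝ P (t, r) (0, 1)) = deriv (fun r => P (t, r)) := by
      funext r
      exact (stkA_dr hP t r).deriv.symm
    rw [h1]
    exact stkA_line (hP.comp (contDiff_const.prodMk contDiff_id)) (stkA_snd sP t)
  simp [this]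

/-- The shear along a graph. -/
private noncomputable def stkA_shear (h : ℝ → ℝ) (hh : Continuous h) : (ℝ × ℝ) ≃ₜ (ℝ × ℝ) where
  toFun p := (p.1, h p.1 + p.2)
  invFun p := (p.1, p.2 - h p.1)
  left_inv p := by simp
  right_inv p := by simp
  continuous_toFun := by fun_prop
  continuous_invFun := by fun_prop

private theorem stkA_mp (h : ℝ → ℝ) (hh : Continuous h) :
    MeasurePreserving (stkA_shear h hh) (volume : Measure (ℝ × ℝ)) volume := by
  have h1 : MeasurePreserving (fun p : ℝ × ℝ => (id p.1, (fun t r => h t + r) p.1 p.2))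
      ((volume : Measure ℝ).prod volume) ((volume : Measure ℝ).prod volume) := by
    refine (MeasurePreserving.id (volume : Measure ℝ)).skew_product (μc := volume) (μd := volume)
      (g := fun t r => h t + r) ?_ ?_
    · exact (by fun_prop : Continuous (Function.uncurry fun t r => h t + r)).measurable
    · exact Filter.Eventually.of_forall fun t => map_add_left_eq_self _ _
  exact h1

private theorem stkA_core {P Q : ℝ × ℝ → ℝ} (hP : ContDiff ℝ 1 P) (hQ : ContDiff ℝ 1 Q)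
    (sP : HasCompactSupport P) (sQ : HasCompactSupport Q) {h : ℝ → ℝ} (hh : ContDiff ℝ 1 h)
    {S : Set ℝ} (hSm : MeasurableSet S)
    (hS : ∀ u : ℝ → ℝ, ContDiff ℝ 1 u → HasCompactSupport u → u 0 = 0 → ∫ x in S, deriv u x = 0)
    (h0 : ∀ t, P (t, h t) + Q (t, h t) * deriv h t = 0) :
    ∫ w in {w : ℝ × ℝ | w.2 - h w.1 ∈ S}, (fderiv ℝ Q w (1, 0) - fderiv ℝ P w (0, 1)) = 0 := by
  set Φ := stkA_shear h hh.continuous with hΦ
  have hΦe : ∀ p, Φ p = (p.1, h p.1 + p.2) := fun p => rfl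
  have hmp := stkA_mp h hh.continuous
  have hpre : Φ ⁻¹' {w : ℝ × ℝ | w.2 - h w.1 ∈ S} = univ ×ˢ S := by
    ext p
    simp [hΦe]
  have hΦc : ContDiff ℝ 1 (fun p : ℝ × ℝ => Φ p) := by
    have : (fun p : ℝ × ℝ => Φ p) = fun p => (p.1, h p.1 + p.2) := rfl
    rw [this]
    exact contDiff_fst.prodMk ((hh.comp contDiff_fst).add contDiff_snd)
  rw [← hmp.setIntegral_preimage_emb Φ.measurableEmbedding, hpre]
  have hQ' : ContDiff ℝ 1 (Q ∘ Φ) := hQ.comp hΦc
  have hP' : ContDiff ℝ 1 (P ∘ Φ) := hP.comp hΦc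
  have sQ' : HasCompactSupport (Q ∘ Φ) := sQ.comp_homeomorph Φ
  have sP' : HasCompactSupport (P ∘ Φ) := sP.comp_homeomorph Φ
  have hd : ∀ (R : ℝ × ℝ → ℝ), ContDiff ℝ 1 R → ∀ p : ℝ × ℝ,
      fderiv ℝ (R ∘ Φ) p (1, 0) = fderiv ℝ R (Φ p) (1, 0) + deriv h p.1 * fderiv ℝ R (Φ p) (0, 1)
      ∧ fderiv ℝ (R ∘ Φ) p (0, 1) = fderiv ℝ R (Φ p) (0, 1) := by
    intro R hR p
    have hRd : HasFDerivAt R (fderiv ℝ R (Φ p)) (Φ p) :=
      (hR.differentiable one_ne_zero _).hasFDerivAt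
    have hhd : HasDerivAt h (deriv h p.1) p.1 :=
      (hh.differentiable one_ne_zero _).hasDerivAt
    constructor
    · have h1 : HasDerivAt (fun t : ℝ => Φ (t, p.2)) (1, deriv h p.1) p.1 := by
        have : (fun t : ℝ => Φ (t, p.2)) = fun t => (t, h t + p.2) := rfl
        rw [this]
        exact (hasDerivAt_id p.1).prodMk (hhd.add_const p.2)
      have h2 : HasDerivAt (fun t : ℝ => R (Φ (t, p.2))) (fderiv ℝ R (Φ p) (1, deriv h p.1)) p.1 :=
        HasFDerivAt.comp_hasDerivAt p.1 (f := fun t : ℝ => Φ (t, p.2)) hRd h1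
      have h3 := stkA_dt (hR.comp hΦc) p.1 p.2
      have h4 := h3.unique h2
      have h5 : ((1 : ℝ), deriv h p.1) = (1, 0) + deriv h p.1 • ((0 : ℝ), (1 : ℝ)) := by
        ext <;> simp
      rw [h5, map_add, map_smul, smul_eq_mul] at h4
      exact h4
    · have h1 : HasDerivAt (fun r : ℝ => Φ (p.1, r)) (0, 1) p.2 := by
        have : (fun r : ℝ => Φ (p.1, r)) = fun r => (p.1, h p.1 + r) := rfl
        rw [this]
        exact (hasDerivAt_const p.2 p.1).prodMk ((hasDerivAt_id p.2).const_add (h p.1))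
      have h2 : HasDerivAt (fun r : ℝ => R (Φ (p.1, r))) (fderiv ℝ R (Φ p) (0, 1)) p.2 :=
        HasFDerivAt.comp_hasDerivAt p.2 (f := fun r : ℝ => Φ (p.1, r)) hRd h1
      have h3 := stkA_dr (hR.comp hΦc) p.1 p.2
      exact h3.unique h2
  have hdh : Continuous (deriv h) := hh.continuous_deriv le_rfl
  set B : ℝ × ℝ → ℝ := fun p => deriv h p.1 * fderiv ℝ (Q ∘ Φ) p (0, 1)
    + fderiv ℝ (P ∘ Φ) p (0, 1) with hB
  have hfe : ∀ p, fderiv ℝ Q (Φ p) (1, 0) - fderiv ℝ P (Φ p) (0, 1)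
      = fderiv ℝ (Q ∘ Φ) p (1, 0) - B p := by
    intro p
    rw [hB]
    simp only
    rw [(hd Q hQ p).1, (hd Q hQ p).2, (hd P hP p).2]
    ring
  obtain ⟨hc, hs⟩ := stkA_int hQ' sQ' (1, 0)
  obtain ⟨hc1, hs1⟩ := stkA_int hQ' sQ' (0, 1)
  obtain ⟨hc2, hs2⟩ := stkA_int hP' sP' (0, 1)
  have hiA : Integrable (fun w => fderiv ℝ (Q ∘ Φ) w (1, 0)) (volume : Measure (ℝ × ℝ)) :=
    hc.integrable_of_hasCompactSupport hs
  have hiB : Integrable B (volume : Measure (ℝ × ℝ)) := by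
    refine Integrable.add ?_ (hc2.integrable_of_hasCompactSupport hs2)
    refine Continuous.integrable_of_hasCompactSupport
      ((hdh.comp continuous_fst).mul hc1) ?_
    exact hs1.mul_left
  refine (integral_congr_ae (Filter.Eventually.of_forall fun p => hfe p)).trans ?_
  rw [integral_sub hiA.restrict hiB.restrict, stkA_hor hQ' sQ' hSm, zero_sub, neg_eq_zero,
    Measure.volume_eq_prod, setIntegral_prod _ (by rw [← Measure.volume_eq_prod]; exact hiB.integrableOn),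
    Measure.restrict_univ]
  have : ∀ t : ℝ, ∫ r in S, B (t, r) = 0 := by
    intro t
    have h1 : (fun r : ℝ => B (t, r)) = deriv (fun r => deriv h t * (Q ∘ Φ) (t, r)
        + (P ∘ Φ) (t, r)) := by
      funext r
      exact (((stkA_dr hQ' t r).const_mul (deriv h t)).add (stkA_dr hP' t r)).deriv.symm
    rw [h1]
    refine hS _ ?_ ?_ ?_
    · exact (contDiff_const.mul (hQ'.comp (contDiff_const.prodMk contDiff_id))).add
        (hP'.comp (contDiff_const.prodMk contDiff_id))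
    · exact ((stkA_snd sQ' t).mul_left).add (stkA_snd sP' t)
    · have := h0 t
      simp only [Function.comp, hΦe, add_zero]
      linarith
  simp [this]

private theorem stkA_main {P Q : ℝ × ℝ → ℝ} (hP : ContDiff ℝ 1 P) (hQ : ContDiff ℝ 1 Q)
    (sP : HasCompactSupport P) (sQ : HasCompactSupport Q) {a b c d : ℝ} {h : ℝ → ℝ}
    (hh : ContDiffOn ℝ 1 h (Ioo a b))
    (tP : tsupport P ⊆ Ioo a b ×ˢ Ioo c d) (tQ : tsupport Q ⊆ Ioo a b ×ˢ Ioo c d)
    (h0 : ∀ t ∈ Ioo a b, P (t, h t) + Q (t, h t) * deriv h t = 0)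
    {S : Set ℝ} (hSo : IsOpen S)
    (hS : ∀ u : ℝ → ℝ, ContDiff ℝ 1 u → HasCompactSupport u → u 0 = 0 →
      ∫ x in S, deriv u x = 0) :
    ∫ w in (Ioo a b ×ˢ Ioo c d) ∩ {w : ℝ × ℝ | w.2 - h w.1 ∈ S},
      (fderiv ℝ Q w (1, 0) - fderiv ℝ P w (0, 1)) = 0 := by
  rcases le_or_gt b a with hab | hab
  · rw [Ioo_eq_empty (not_lt.mpr hab)]
    simp
  set m := (a + b) / 2 with hm
  set L := (b - a) / 2 with hL
  have hL0 : 0 < L := by rw [hL]; linarith
  have hball : Metric.ball m L = Ioo a b := by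
    rw [Real.ball_eq_Ioo]
    congr 1 <;> rw [hm, hL] <;> ring
  have hK : IsClosed (Prod.fst '' (tsupport P ∪ tsupport Q)) :=
    ((sP.isCompact.union sQ.isCompact).image continuous_fst).isClosed
  have hKs : Prod.fst '' (tsupport P ∪ tsupport Q) ⊆ Metric.ball m L := by
    rw [hball]
    rintro _ ⟨w, hw | hw, rfl⟩
    · exact (tP hw).1
    · exact (tQ hw).1
  obtain ⟨ρ, hρ, hKρ⟩ := exists_pos_lt_subset_ball hL0 hK hKs
  let χ : ContDiffBump m := ⟨ρ, (ρ + L) / 2, hρ.1, by linarith [hρ.2]⟩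
  have hχ1 : ∀ x ∈ Metric.ball m ρ, χ x = 1 := fun x hx =>
    χ.one_of_mem_closedBall (Metric.ball_subset_closedBall hx)
  have hχ0 : ∀ x, (ρ + L) / 2 ≤ dist x m → χ x = 0 := fun x hx =>
    χ.zero_of_le_dist hx
  set h' : ℝ → ℝ := fun t => χ t * h t with hh'
  have hh'c : ContDiff ℝ 1 h' := by
    rw [contDiff_iff_contDiffAt]
    intro t
    by_cases ht : t ∈ Ioo a b
    · exact (χ.contDiff.contDiffAt).mul (hh.contDiffAt (isOpen_Ioo.mem_nhds ht))
    · have hd : (ρ + L) / 2 < dist t m := by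
        rw [← hball, Metric.mem_ball, not_lt] at ht
        linarith [hρ.2]
      have hev : h' =ᶠ[𝓝 t] fun _ => 0 := by
        have : {x : ℝ | (ρ + L) / 2 < dist x m} ∈ 𝓝 t :=
          (isOpen_lt continuous_const (continuous_id.dist continuous_const)).mem_nhds hd
        filter_upwards [this] with x hx
        rw [hh']
        simp only
        rw [hχ0 x (le_of_lt hx), zero_mul]
      exact contDiffAt_const.congr_of_eventuallyEq hev
  have heq : ∀ t ∈ Metric.ball m ρ, h' t = h t := fun t ht => by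
    rw [hh']; simp only; rw [hχ1 t ht, one_mul]
  have hz : ∀ R : ℝ × ℝ → ℝ, tsupport R ⊆ tsupport P ∪ tsupport Q →
      ∀ w : ℝ × ℝ, w.1 ∉ Metric.ball m ρ → R w = 0 := by
    intro R hR w hw
    by_contra hne
    exact hw (hKρ ⟨w, hR (subset_tsupport R hne), rfl⟩)
  have h0' : ∀ t, P (t, h' t) + Q (t, h' t) * deriv h' t = 0 := by
    intro t
    by_cases ht : t ∈ Metric.ball m ρ
    · have hev : h' =ᶠ[𝓝 t] h := by
        filter_upwards [Metric.isOpen_ball.mem_nhds ht] with x hx using heq x hx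
      rw [hev.deriv_eq, heq t ht]
      refine h0 t ?_
      rw [← hball]
      exact Metric.ball_subset_ball (le_of_lt hρ.2) ht
    · rw [hz P subset_union_left (t, h' t) ht, hz Q subset_union_right (t, h' t) ht]
      ring
  have key := stkA_core hP hQ sP sQ hh'c hSo.measurableSet hS h0'
  have hm1 : MeasurableSet ((Ioo a b ×ˢ Ioo c d) ∩ {w : ℝ × ℝ | w.2 - h w.1 ∈ S}) := by
    refine IsOpen.measurableSet ?_
    have hc : ContinuousOn (fun w : ℝ × ℝ => w.2 - h w.1) (Ioo a b ×ˢ Ioo c d) := by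
      refine continuousOn_snd.sub (hh.continuousOn.comp continuousOn_fst ?_)
      intro w hw
      exact hw.1
    exact hc.isOpen_inter_preimage (isOpen_Ioo.prod isOpen_Ioo) hSo
  have hm2 : MeasurableSet {w : ℝ × ℝ | w.2 - h' w.1 ∈ S} := by
    refine IsOpen.measurableSet ?_
    exact hSo.preimage (continuous_snd.sub (hh'c.continuous.comp continuous_fst))
  rw [← integral_indicator hm2] at key
  rw [← integral_indicator hm1]
  refine Eq.trans ?_ key
  congr 1
  funext w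
  by_cases hw : w ∈ tsupport P ∪ tsupport Q
  · have hwb : w ∈ Ioo a b ×ˢ Ioo c d := by
      rcases hw with hw | hw
      · exact tP hw
      · exact tQ hw
    have hw1 : w.1 ∈ Metric.ball m ρ := hKρ ⟨w, hw, rfl⟩
    have hiff : w ∈ (Ioo a b ×ˢ Ioo c d) ∩ {w : ℝ × ℝ | w.2 - h w.1 ∈ S} ↔
        w ∈ {w : ℝ × ℝ | w.2 - h' w.1 ∈ S} := by
      simp only [mem_inter_iff, mem_ofPred_eq, heq w.1 hw1]
      exact ⟨fun h => h.2, fun h => ⟨hwb, h⟩⟩
    by_cases hin : w ∈ {w : ℝ × ℝ | w.2 - h' w.1 ∈ S}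
    · rw [indicator_of_mem hin, indicator_of_mem (hiff.mpr hin)]
    · rw [indicator_of_notMem hin, indicator_of_notMem (fun h => hin (hiff.mp h))]
  · have hf : fderiv ℝ Q w (1, 0) - fderiv ℝ P w (0, 1) = 0 := by
      have h1 : fderiv ℝ Q w = 0 := by
        by_contra hne
        exact hw (Or.inr (support_fderiv_subset ℝ hne))
      have h2 : fderiv ℝ P w = 0 := by
        by_contra hne
        exact hw (Or.inl (support_fderiv_subset ℝ hne))
      rw [h1, h2]
      simp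
    simp only [indicator, hf, ite_self]

theorem stk_above {P Q : ℝ × ℝ → ℝ} (hP : ContDiff ℝ 1 P) (hQ : ContDiff ℝ 1 Q)
    (sP : HasCompactSupport P) (sQ : HasCompactSupport Q) {a b c d : ℝ} {h : ℝ → ℝ}
    (hh : ContDiffOn ℝ 1 h (Ioo a b)) (hm : ∀ t ∈ Ioo a b, h t ∈ Ioo c d)
    (tP : tsupport P ⊆ Ioo a b ×ˢ Ioo c d) (tQ : tsupport Q ⊆ Ioo a b ×ˢ Ioo c d)
    (h0 : ∀ t ∈ Ioo a b, P (t, h t) + Q (t, h t) * deriv h t = 0) :
    ∫ w in {w : ℝ × ℝ | w ∈ Ioo a b ×ˢ Ioo c d ∧ h w.1 < w.2},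
      (fderiv ℝ Q w (1, 0) - fderiv ℝ P w (0, 1)) = 0 := by
  have h1 := stkA_main hP hQ sP sQ hh tP tQ h0 (S := Ioi 0) isOpen_Ioi
    (fun u hu su h0 => by rw [su.integral_Ioi_deriv_eq hu, h0, neg_zero])
  have h2 : {w : ℝ × ℝ | w ∈ Ioo a b ×ˢ Ioo c d ∧ h w.1 < w.2}
      = (Ioo a b ×ˢ Ioo c d) ∩ {w : ℝ × ℝ | w.2 - h w.1 ∈ Ioi 0} := by
    ext w
    simp only [mem_ofPred_eq, mem_inter_iff, mem_Ioi, sub_pos]
  rw [h2]
  exact h1

theorem stk_below {P Q : ℝ × ℝ → ℝ} (hP : ContDiff ℝ 1 P) (hQ : ContDiff ℝ 1 Q)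
    (sP : HasCompactSupport P) (sQ : HasCompactSupport Q) {a b c d : ℝ} {h : ℝ → ℝ}
    (hh : ContDiffOn ℝ 1 h (Ioo a b)) (hm : ∀ t ∈ Ioo a b, h t ∈ Ioo c d)
    (tP : tsupport P ⊆ Ioo a b ×ˢ Ioo c d) (tQ : tsupport Q ⊆ Ioo a b ×ˢ Ioo c d)
    (h0 : ∀ t ∈ Ioo a b, P (t, h t) + Q (t, h t) * deriv h t = 0) :
    ∫ w in {w : ℝ × ℝ | w ∈ Ioo a b ×ˢ Ioo c d ∧ w.2 < h w.1},
      (fderiv ℝ Q w (1, 0) - fderiv ℝ P w (0, 1)) = 0 := by
  have h1 := stkA_main hP hQ sP sQ hh tP tQ h0 (S := Iio 0) isOpen_Iio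
    (fun u hu su h0 => by
      rw [← integral_Iic_eq_integral_Iio, su.integral_Iic_deriv_eq hu, h0])
  have h2 : {w : ℝ × ℝ | w ∈ Ioo a b ×ˢ Ioo c d ∧ w.2 < h w.1}
      = (Ioo a b ×ˢ Ioo c d) ∩ {w : ℝ × ℝ | w.2 - h w.1 ∈ Iio 0} := by
    ext w
    simp only [mem_ofPred_eq, mem_inter_iff, mem_Iio, sub_neg]
  rw [h2]
  exact h1

end Pool.Agent.H2.TI
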