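import Pool.Agent.H2.TI.PDefs

/-!
# Local graphs (module StkG)

PROOF. Case `g_r (w) ≠ 0` (derivative in the direction `(0, 1)`; by continuity `g_r ≠ 0` near `w`, say `> 0`).
Choose `c < w.2 < d` with `{w.1} × [c, d] ⊆ W` and `g_r > 0` on it, so `g (w.1, c) < 0 < g (w.1, d)`; then `a < w.1 < b`
with `[a, b] × [c, d] ⊆ W`, `g_r > 0` on it, `g (t, c) < 0 < g (t, d)` for `t ∈ [a, b]`. For `t ∈ (a, b)` there is exactly one
`h t ∈ (c, d)` with `g (t, h t) = 0` (strictly increasing in `r`, intermediate value theorem). `h` is `C^∞` on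
`(a, b)` by the implicit function theorem (or: continuous by monotonicity, then
`HasStrictFDerivAt.implicitFunction`; in Mathlib also `ContDiffAt` versions of the inverse function
theorem: apply it to `(t, r) ↦ (t, g (t, r))`). Differentiate `g (t, h t) = 0`.
Case `g_r (w) = 0`, so `g_t (w) ≠ 0`: apply the first case to `Z' = Prod.swap ⁻¹' Z`, `g ∘ Prod.swap`.
-/

set_option autoImplicit false

open scoped ContDiff Topology
open Set

namespace Pool.Agent.H2.TI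

/-- In the box `(a, b) × (c, d)` the set `Z` is the graph of `h`. -/
structure GraphIn (Z : Set (ℝ × ℝ)) (a b c d : ℝ) (h : ℝ → ℝ) : Prop where
  smooth : ContDiffOn ℝ ∞ h (Ioo a b)
  maps : ∀ t ∈ Ioo a b, h t ∈ Ioo c d
  iff : ∀ w ∈ Ioo a b ×ˢ Ioo c d, w ∈ Z ↔ w.2 = h w.1

private lemma StkG_neg {Z W : Set (ℝ × ℝ)} {g : ℝ × ℝ → ℝ} (hg : PEq Z W g) :
    PEq Z W (fun y => -g y) := by
  refine ⟨hg.isOpen, hg.smooth.neg, fun y hy => ?_, fun y hy => ?_⟩
  · rw [hg.eqn y hy, neg_eq_zero]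
  · have h := hg.reg y hy
    have e : fderiv ℝ (fun y => -g y) y = -fderiv ℝ g y := fderiv_fun_neg
    rw [e]
    simpa using h

private lemma StkG_swap {Z W : Set (ℝ × ℝ)} {g : ℝ × ℝ → ℝ} (hg : PEq Z W g) :
    PEq (Prod.swap ⁻¹' Z) (Prod.swap ⁻¹' W) (fun y => g y.swap) := by
  refine ⟨hg.isOpen.preimage continuous_swap, ?_, fun y hy => hg.eqn y.swap hy, fun y hy => ?_⟩
  · exact hg.smooth.comp (contDiff_snd.prodMk contDiff_fst).contDiffOn fun y hy => hy
  · have h := hg.reg y.swap hy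
    have e := (ContinuousLinearEquiv.prodComm ℝ ℝ ℝ).comp_right_fderiv (f := g) (x := y)
    have e' : fderiv ℝ (fun y => g y.swap) y =
        (fderiv ℝ g y.swap).comp (ContinuousLinearEquiv.prodComm ℝ ℝ ℝ : (ℝ × ℝ) →L[ℝ] ℝ × ℝ) := e
    rw [e']
    intro h'
    exact h ⟨h'.2, h'.1⟩

private lemma StkG_inv {A : ℝ × ℝ →L[ℝ] ℝ} (hA : A (0, 1) ≠ 0) :
    (A ∘L ContinuousLinearMap.inr ℝ ℝ ℝ).IsInvertible := by
  have h1 : (A ∘L ContinuousLinearMap.inr ℝ ℝ ℝ) =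
      (ContinuousLinearEquiv.unitsEquivAut ℝ (Units.mk0 _ hA) : ℝ →L[ℝ] ℝ) := by
    ext
    simp
  rw [h1]
  exact ContinuousLinearMap.isInvertible_equiv

private lemma StkG_main {Z W : Set (ℝ × ℝ)} {g : ℝ × ℝ → ℝ} (hg : PEq Z W g) {w : ℝ × ℝ}
    (hw : w ∈ W) (hZ : w ∈ Z) (hpos : 0 < fderiv ℝ g w (0, 1)) :
    ∃ a b c d h, w ∈ Ioo a b ×ˢ Ioo c d ∧ Ioo a b ×ˢ Ioo c d ⊆ W ∧ GraphIn Z a b c d h ∧
      ∀ t ∈ Ioo a b, fderiv ℝ g (t, h t) (1, deriv h t) = 0 := by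
  have hcd : ContinuousOn (fun y => fderiv ℝ g y (0, 1)) W :=
    (hg.smooth.continuousOn_fderiv_of_isOpen hg.isOpen (by simp)).clm_apply continuousOn_const
  have hopen : IsOpen (W ∩ (fun y => fderiv ℝ g y (0, 1)) ⁻¹' Ioi 0) :=
    hcd.isOpen_inter_preimage hg.isOpen isOpen_Ioi
  obtain ⟨ε, hε, hball⟩ := Metric.isOpen_iff.1 hopen w ⟨hw, hpos⟩
  have hbox : ∀ t r : ℝ, |t - w.1| < ε → |r - w.2| < ε →
      (t, r) ∈ W ∧ 0 < fderiv ℝ g (t, r) (0, 1) := by
    intro t r ht hr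
    have hm : (t, r) ∈ Metric.ball w ε := by
      rw [Metric.mem_ball, Prod.dist_eq, Real.dist_eq, Real.dist_eq]
      exact max_lt ht hr
    exact hball hm
  have hdiff : ∀ y ∈ W, DifferentiableAt ℝ g y := fun y hy =>
    (hg.smooth.contDiffAt (hg.isOpen.mem_nhds hy)).differentiableAt (by simp)
  have hcont : ContinuousOn g W := hg.smooth.continuousOn
  have hmono : ∀ t, |t - w.1| < ε → StrictMonoOn (fun r => g (t, r))
      (Icc (w.2 - ε / 2) (w.2 + ε / 2)) := by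
    intro t ht
    have hmem : ∀ r ∈ Icc (w.2 - ε / 2) (w.2 + ε / 2), |r - w.2| < ε := by
      intro r hr
      rw [abs_lt]
      constructor <;> linarith [hr.1, hr.2]
    apply strictMonoOn_of_deriv_pos (convex_Icc _ _)
    · intro r hr
      exact ((hcont.continuousAt (hg.isOpen.mem_nhds (hbox t r ht (hmem r hr)).1)).comp
        (continuous_const.prodMk continuous_id).continuousAt).continuousWithinAt
    · intro r hr
      have hr' := interior_subset hr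
      have h1 : HasDerivAt (fun r => g (t, r)) (fderiv ℝ g (t, r) (0, 1)) r :=
        (hdiff _ (hbox t r ht (hmem r hr')).1).hasFDerivAt.comp_hasDerivAt r
          ((hasDerivAt_const r t).prodMk (hasDerivAt_id r))
      rw [h1.deriv]
      exact (hbox t r ht (hmem r hr')).2
  have h0 : g w = 0 := (hg.eqn w hw).1 hZ
  have hw0 : |w.1 - w.1| < ε := by rw [sub_self, abs_zero]; exact hε
  have hlo : g (w.1, w.2 - ε / 2) < 0 := by
    rw [← h0]
    exact hmono w.1 hw0 (left_mem_Icc.2 (by linarith)) ⟨by linarith, by linarith⟩ (by linarith)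
  have hhi : 0 < g (w.1, w.2 + ε / 2) := by
    rw [← h0]
    exact hmono w.1 hw0 ⟨by linarith, by linarith⟩ (right_mem_Icc.2 (by linarith)) (by linarith)
  have hc1 : ContinuousAt (fun t => g (t, w.2 - ε / 2)) w.1 :=
    (hcont.continuousAt (hg.isOpen.mem_nhds (hbox w.1 (w.2 - ε / 2) hw0
      (by rw [abs_lt]; constructor <;> linarith)).1)).comp
      (f := fun t => (t, w.2 - ε / 2)) (continuous_id.prodMk continuous_const).continuousAt
  have hc2 : ContinuousAt (fun t => g (t, w.2 + ε / 2)) w.1 :=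
    (hcont.continuousAt (hg.isOpen.mem_nhds (hbox w.1 (w.2 + ε / 2) hw0
      (by rw [abs_lt]; constructor <;> linarith)).1)).comp
      (f := fun t => (t, w.2 + ε / 2)) (continuous_id.prodMk continuous_const).continuousAt
  obtain ⟨δ₁, hδ₁, hb1⟩ := Metric.eventually_nhds_iff.1 (hc1.eventually (gt_mem_nhds hlo))
  obtain ⟨δ₂, hδ₂, hb2⟩ := Metric.eventually_nhds_iff.1 (hc2.eventually (lt_mem_nhds hhi))
  set δ := min ε (min δ₁ δ₂) with hδ
  have hδ0 : 0 < δ := lt_min hε (lt_min hδ₁ hδ₂)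
  set a := w.1 - δ with ha
  set b := w.1 + δ with hb
  set c := w.2 - ε / 2 with hc
  set d := w.2 + ε / 2 with hd
  have habs : ∀ t ∈ Ioo a b, |t - w.1| < δ := by
    intro t ht
    rw [abs_lt]
    constructor <;> linarith [ht.1, ht.2]
  have hδε : δ ≤ ε := min_le_left _ _
  have hmem : ∀ t ∈ Ioo a b, ∀ r ∈ Icc c d, (t, r) ∈ W ∧ 0 < fderiv ℝ g (t, r) (0, 1) := by
    intro t ht r hr
    refine hbox t r ((habs t ht).trans_le hδε) ?_
    rw [abs_lt]
    constructor <;> linarith [hr.1, hr.2]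
  have hex : ∀ t ∈ Ioo a b, ∃ r ∈ Ioo c d, g (t, r) = 0 := by
    intro t ht
    have h1 : g (t, c) < 0 := hb1 (by
      rw [Real.dist_eq]
      exact (habs t ht).trans_le ((min_le_right _ _).trans (min_le_left _ _)))
    have h2 : 0 < g (t, d) := hb2 (by
      rw [Real.dist_eq]
      exact (habs t ht).trans_le ((min_le_right _ _).trans (min_le_right _ _)))
    have h3 : ContinuousOn (fun r => g (t, r)) (Icc c d) := by
      intro r hr
      exact ((hcont.continuousAt (hg.isOpen.mem_nhds (hmem t ht r hr).1)).comp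
        (continuous_const.prodMk continuous_id).continuousAt).continuousWithinAt
    obtain ⟨r, hr, hr0⟩ := intermediate_value_Ioo (by linarith) h3 ⟨h1, h2⟩
    exact ⟨r, hr, hr0⟩
  have huniq : ∀ t ∈ Ioo a b, ∀ r ∈ Ioo c d, ∀ r' ∈ Ioo c d, g (t, r) = 0 → g (t, r') = 0 →
      r = r' := by
    intro t ht r hr r' hr' h1 h2
    exact (hmono t ((habs t ht).trans_le hδε)).injOn (Ioo_subset_Icc_self hr)
      (Ioo_subset_Icc_self hr') (h1.trans h2.symm)
  classical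
  let h : ℝ → ℝ := fun t => if ht : t ∈ Ioo a b then (hex t ht).choose else 0
  have hh : ∀ t ∈ Ioo a b, h t ∈ Ioo c d ∧ g (t, h t) = 0 := by
    intro t ht
    have e : h t = (hex t ht).choose := dif_pos ht
    rw [e]
    exact (hex t ht).choose_spec
  have hsm : ∀ t ∈ Ioo a b, ContDiffAt ℝ ∞ h t := by
    intro t ht
    obtain ⟨hm, hz⟩ := hh t ht
    obtain ⟨hW, hD⟩ := hmem t ht (h t) (Ioo_subset_Icc_self hm)
    have hcg : ContDiffAt ℝ ∞ g (t, h t) := hg.smooth.contDiffAt (hg.isOpen.mem_nhds hW)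
    have hinv := StkG_inv hD.ne'
    have hn : (∞ : WithTop ℕ∞) ≠ 0 := by simp
    have h1 := hcg.contDiffAt_implicitFunction hn hinv
    have h2 := hcg.eventually_apply_implicitFunction hn hinv
    have h3 := hcg.implicitFunction_apply_self hn hinv
    simp only at h1 h2 h3
    refine h1.congr_of_eventuallyEq ?_
    have h4 : ∀ᶠ x in 𝓝 t, hcg.implicitFunction hn hinv x ∈ Ioo c d := by
      refine h1.continuousAt.eventually (IsOpen.mem_nhds isOpen_Ioo ?_)
      rw [h3]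
      exact hm
    filter_upwards [h2, h4, Ioo_mem_nhds ht.1 ht.2] with x hx1 hx2 hx3
    obtain ⟨hm', hz'⟩ := hh x hx3
    exact huniq x hx3 _ hm' _ hx2 hz' (hx1.trans hz)
  refine ⟨a, b, c, d, h, ⟨⟨by linarith, by linarith⟩, ⟨by linarith, by linarith⟩⟩, ?_, ⟨?_, ?_, ?_⟩, ?_⟩
  · intro y hy
    exact (hmem y.1 hy.1 y.2 (Ioo_subset_Icc_self hy.2)).1
  · intro t ht
    exact (hsm t ht).contDiffWithinAt
  · intro t ht
    exact (hh t ht).1
  · intro y hy
    have hyW := (hmem y.1 hy.1 y.2 (Ioo_subset_Icc_self hy.2)).1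
    rw [hg.eqn y hyW]
    obtain ⟨hm, hz⟩ := hh y.1 hy.1
    constructor
    · intro h5
      exact huniq y.1 hy.1 _ hy.2 _ hm h5 hz
    · intro h5
      have : y = (y.1, h y.1) := Prod.ext rfl h5
      rw [this]
      exact hz
  · intro t ht
    obtain ⟨hm, hz⟩ := hh t ht
    have hW := (hmem t ht (h t) (Ioo_subset_Icc_self hm)).1
    have h1 : HasDerivAt h (deriv h t) t := ((hsm t ht).differentiableAt (by simp)).hasDerivAt
    have h2 : HasDerivAt (fun x => g (x, h x)) (fderiv ℝ g (t, h t) (1, deriv h t)) t :=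
      (hdiff _ hW).hasFDerivAt.comp_hasDerivAt t ((hasDerivAt_id t).prodMk h1)
    have h3 : (fun x => g (x, h x)) =ᶠ[𝓝 t] fun _ => 0 := by
      filter_upwards [Ioo_mem_nhds ht.1 ht.2] with x hx
      exact (hh x hx).2
    have h4 : HasDerivAt (fun x => g (x, h x)) 0 t := (hasDerivAt_const t (0 : ℝ)).congr_of_eventuallyEq h3
    exact h2.unique h4

private lemma StkG_ne {Z W : Set (ℝ × ℝ)} {g : ℝ × ℝ → ℝ} (hg : PEq Z W g) {w : ℝ × ℝ}
    (hw : w ∈ W) (hZ : w ∈ Z) (hne : fderiv ℝ g w (0, 1) ≠ 0) :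
    ∃ a b c d h, w ∈ Ioo a b ×ˢ Ioo c d ∧ Ioo a b ×ˢ Ioo c d ⊆ W ∧ GraphIn Z a b c d h ∧
      ∀ t ∈ Ioo a b, fderiv ℝ g (t, h t) (1, deriv h t) = 0 := by
  rcases lt_or_gt_of_ne hne with h | h
  · have e : ∀ y, fderiv ℝ (fun y => -g y) y = -fderiv ℝ g y := fun y => fderiv_fun_neg
    obtain ⟨a, b, c, d, k, h1, h2, h3, h4⟩ := StkG_main (StkG_neg hg) hw hZ (by
      rw [e, _root_.neg_apply]; linarith)
    refine ⟨a, b, c, d, k, h1, h2, h3, fun t ht => ?_⟩
    have := h4 t ht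
    rw [e, _root_.neg_apply, neg_eq_zero] at this
    exact this
  · exact StkG_main hg hw hZ h

theorem exists_graph {Z W : Set (ℝ × ℝ)} {g : ℝ × ℝ → ℝ} (hg : PEq Z W g) {w : ℝ × ℝ}
    (hw : w ∈ W) (hZ : w ∈ Z) :
    (∃ a b c d h, w ∈ Ioo a b ×ˢ Ioo c d ∧ Ioo a b ×ˢ Ioo c d ⊆ W ∧ GraphIn Z a b c d h ∧
      ∀ t ∈ Ioo a b, fderiv ℝ g (t, h t) (1, deriv h t) = 0) ∨
    (∃ a b c d h, w.swap ∈ Ioo a b ×ˢ Ioo c d ∧ Ioo a b ×ˢ Ioo c d ⊆ Prod.swap ⁻¹' W ∧
      GraphIn (Prod.swap ⁻¹' Z) a b c d h ∧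
      ∀ t ∈ Ioo a b, fderiv ℝ g (h t, t) (deriv h t, 1) = 0) := by
  by_cases h0 : fderiv ℝ g w (0, 1) = 0
  · right
    have hne : fderiv ℝ g w (1, 0) ≠ 0 := fun h => hg.reg w hw ⟨h, h0⟩
    have e : ∀ y : ℝ × ℝ, fderiv ℝ (fun y => g y.swap) y =
        (fderiv ℝ g y.swap).comp (ContinuousLinearEquiv.prodComm ℝ ℝ ℝ : (ℝ × ℝ) →L[ℝ] ℝ × ℝ) :=
      fun y => (ContinuousLinearEquiv.prodComm ℝ ℝ ℝ).comp_right_fderiv (f := g) (x := y)
    obtain ⟨a, b, c, d, k, h1, h2, h3, h4⟩ := StkG_ne (w := w.swap) (StkG_swap hg) hw hZ (by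
      rw [e]; exact hne)
    refine ⟨a, b, c, d, k, h1, h2, h3, fun t ht => ?_⟩
    have := h4 t ht
    rw [e] at this
    exact this
  · left
    exact StkG_ne hg hw hZ h0

end Pool.Agent.H2.TI
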