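import Pool.Agent.H2.TI.StkA
import Pool.Agent.H2.TI.StkG

/-!
# Local Stokes (module StkB)

`Ω` is open with frontier in `Z`. Notation: `F_t = DF(1, 0)`, `F_r = DF(0, 1)`; for a smooth `ψ` with compact support
put `P = ψ (r - F_t)`, `Q = - ψ F_r` (the coefficients of `ψ (r dt - dF)`). Then
`Q_t - P_r = - (ψ + ψ_t F_r + ψ_r (r - F_t))` (symmetry of second derivatives of `F`): `stk_integrand`.

PROOF of `stk_local`. Three cases.
(a) `w₀ ∈ Ω`: `W = Ω`; for `ψ` with support in `Ω` the integrand vanishes outside `Ω`, so the integral is the one over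
the plane: zero by `stk_whole`.
(b) `w₀ ∉ closure Ω`: `W = (closure Ω)ᶜ`, the integrand vanishes on `Ω`.
(c) `w₀ ∈ frontier Ω ⊆ Z`: local equation (`PSet.loc`) and `exists_graph`; `W` is the box (resp. its swap). In the
box the sets above and below the graph are preconnected (they are images of a product of
intervals, or: starlike in the vertical direction over an interval), disjoint from `Z ⊇ frontier Ω`, so each
of them is contained in `Ω` or disjoint from `Ω` (`IsPreconnected.subset_or_disjoint`-like: `Ω` is relatively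
open and closed in the complement of its frontier). So up to the graph (a null set) `Ω ∩ box` is a union of
sides, and for `ψ` supported in the box the integral over `Ω` is a sum of integrals over sides: zero by
`stk_above`, `stk_below`. The hypothesis `P + Q h' = 0` on the graph: `ψ (r - F_t - F_r h') = ψ (r - DF(1, h')) = 0` by
`PSet.prim` with `(a, b) = (1, h')`. In the swapped case apply them to the swapped functions: the form
`P dt + Q dr` becomes `Q∘swap dt' + P∘swap dr'`; `DF(h', 1) = r h'` by `prim` with `(a, b) = (h', 1)`; the sign of the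
differential changes. (The integral is invariant under `Prod.swap`: `MeasureTheory.Measure.prod_swap`.)
-/

set_option autoImplicit false

open scoped ContDiff Topology
open Set MeasureTheory

namespace Pool.Agent.H2.TI

variable {Z : Set (ℝ × ℝ)} {M K δ : ℝ} {F : ℝ × ℝ → ℝ}

/-- The integrand of the area identity. -/
noncomputable def aI (F ψ : ℝ × ℝ → ℝ) (w : ℝ × ℝ) : ℝ :=
  ψ w + fderiv ℝ ψ w (1, 0) * fderiv ℝ F w (0, 1)
    + fderiv ℝ ψ w (0, 1) * (w.2 - fderiv ℝ F w (1, 0))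

private theorem stkB_smooth {F : ℝ × ℝ → ℝ} (hF : ContDiff ℝ ∞ F) (v : ℝ × ℝ) :
    ContDiff ℝ ∞ (fun w => fderiv ℝ F w v) :=
  (hF.fderiv_right (m := ∞) (by norm_cast)).clm_apply contDiff_const

private theorem stkB_second {F : ℝ × ℝ → ℝ} (hF : ContDiff ℝ ∞ F) (v u w : ℝ × ℝ) :
    fderiv ℝ (fun w => fderiv ℝ F w v) w u = fderiv ℝ (fderiv ℝ F) w u v := by
  have hd : DifferentiableAt ℝ (fderiv ℝ F) w :=
    (hF.fderiv_right (m := ∞) (by norm_cast)).differentiable (by simp) w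
  have h := hd.hasFDerivAt.clm_apply (hasFDerivAt_const v w)
  rw [h.fderiv]
  simp

theorem stk_integrand {F ψ : ℝ × ℝ → ℝ} (hF : ContDiff ℝ ∞ F) (hψ : ContDiff ℝ ∞ ψ) (w : ℝ × ℝ) :
    fderiv ℝ (fun w => -(ψ w * fderiv ℝ F w (0, 1))) w (1, 0)
      - fderiv ℝ (fun w : ℝ × ℝ => ψ w * (w.2 - fderiv ℝ F w (1, 0))) w (0, 1) = - aI F ψ w := by
  have hsym : IsSymmSndFDerivAt ℝ F w :=
    (hF.of_le (by norm_cast) : ContDiff ℝ 2 F).contDiffAt.isSymmSndFDerivAt (by simp)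
  have hψd : DifferentiableAt ℝ ψ w := hψ.differentiable (by simp) w
  have d1 : DifferentiableAt ℝ (fun w => fderiv ℝ F w (0, 1)) w :=
    (stkB_smooth hF (0, 1)).differentiable (by simp) w
  have d2 : DifferentiableAt ℝ (fun w => fderiv ℝ F w (1, 0)) w :=
    (stkB_smooth hF (1, 0)).differentiable (by simp) w
  have e1 := (hψd.hasFDerivAt.mul d1.hasFDerivAt).neg
  have e2 := hψd.hasFDerivAt.mul ((hasFDerivAt_snd (𝕜 := ℝ) (p := w)).sub d2.hasFDerivAt)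
  have f1 : fderiv ℝ (fun w => -(ψ w * fderiv ℝ F w (0, 1))) w = _ := e1.fderiv
  have f2 : fderiv ℝ (fun w : ℝ × ℝ => ψ w * (w.2 - fderiv ℝ F w (1, 0))) w = _ := e2.fderiv
  rw [f1, f2]
  simp only [neg_apply, add_apply, smul_apply, sub_apply, smul_eq_mul,
    ContinuousLinearMap.coe_snd', stkB_second hF, aI]
  rw [hsym.eq (1, 0) (0, 1)]
  simp only [Pi.sub_apply]
  ring

private theorem stkB_pre {Ω S : Set (ℝ × ℝ)} (hΩ : IsOpen Ω) (hS : IsPreconnected S)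
    (hd : ∀ w ∈ S, w ∉ frontier Ω) : Ω ∩ S = S ∨ Ω ∩ S = ∅ := by
  have h1 : S ⊆ Ω ∪ (closure Ω)ᶜ := by
    intro w hw
    by_cases h : w ∈ Ω
    · exact Or.inl h
    · right
      intro hc
      exact hd w hw ⟨hc, by rwa [hΩ.interior_eq]⟩
  have h2 : S ∩ (Ω ∩ (closure Ω)ᶜ) = ∅ := by
    ext w
    simp only [mem_inter_iff, mem_compl_iff, mem_empty_iff_false, iff_false, not_and, not_not]
    exact fun _ h => subset_closure h
  rcases isPreconnected_iff_subset_of_disjoint.1 hS Ω (closure Ω)ᶜ hΩ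
    isClosed_closure.isOpen_compl h1 h2 with h | h
  · left
    exact inter_eq_right.2 h
  · right
    ext w
    simp only [mem_inter_iff, mem_empty_iff_false, iff_false, not_and]
    exact fun hw hS' => h hS' (subset_closure hw)

private theorem stkB_up {a b c d : ℝ} {h : ℝ → ℝ} (hh : ContinuousOn h (Ioo a b))
    (hm : ∀ t ∈ Ioo a b, h t ∈ Ioo c d) :
    IsPreconnected {w : ℝ × ℝ | w ∈ Ioo a b ×ˢ Ioo c d ∧ h w.1 < w.2} := by
  have h1 : IsPreconnected (Ioo a b ×ˢ Ioo (0 : ℝ) 1) := isPreconnected_Ioo.prod isPreconnected_Ioo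
  have h2 : ContinuousOn (fun x : ℝ × ℝ => (x.1, h x.1 + x.2 * (d - h x.1)))
      (Ioo a b ×ˢ Ioo (0 : ℝ) 1) := by
    have h3 : ContinuousOn (fun x : ℝ × ℝ => h x.1) (Ioo a b ×ˢ Ioo (0 : ℝ) 1) :=
      hh.comp continuousOn_fst (fun x hx => hx.1)
    exact continuousOn_fst.prodMk (h3.add (continuousOn_snd.mul (continuousOn_const.sub h3)))
  have h4 := h1.image _ h2
  convert h4 using 1
  ext ⟨t, r⟩
  constructor
  · rintro ⟨⟨ht, hr⟩, hl⟩
    simp only at ht hr hl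
    have hd : 0 < d - h t := by linarith [(hm t ht).2]
    refine ⟨(t, (r - h t) / (d - h t)), ⟨ht, ⟨div_pos (by linarith) hd, ?_⟩⟩, ?_⟩
    · rw [div_lt_one hd]
      linarith [hr.2]
    · simp only [Prod.mk.injEq, true_and]
      rw [div_mul_cancel₀ _ hd.ne']
      ring
  · rintro ⟨⟨t', s⟩, ⟨ht, hs⟩, he⟩
    simp only [Prod.mk.injEq] at he ht hs
    obtain ⟨rfl, rfl⟩ := he
    have hd : 0 < d - h t' := by linarith [(hm t' ht).2]
    have hc := (hm t' ht).1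
    have hs0 := hs.1
    have hs1 := hs.2
    refine ⟨⟨ht, ⟨?_, ?_⟩⟩, ?_⟩
    · show c < h t' + s * (d - h t')
      nlinarith [mul_pos hs0 hd]
    · show h t' + s * (d - h t') < d
      nlinarith [mul_pos (sub_pos.2 hs1) hd]
    · show h t' < h t' + s * (d - h t')
      nlinarith [mul_pos hs0 hd]

private theorem stkB_low {a b c d : ℝ} {h : ℝ → ℝ} (hh : ContinuousOn h (Ioo a b))
    (hm : ∀ t ∈ Ioo a b, h t ∈ Ioo c d) :
    IsPreconnected {w : ℝ × ℝ | w ∈ Ioo a b ×ˢ Ioo c d ∧ w.2 < h w.1} := by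
  have h1 : IsPreconnected (Ioo a b ×ˢ Ioo (0 : ℝ) 1) := isPreconnected_Ioo.prod isPreconnected_Ioo
  have h2 : ContinuousOn (fun x : ℝ × ℝ => (x.1, h x.1 - x.2 * (h x.1 - c)))
      (Ioo a b ×ˢ Ioo (0 : ℝ) 1) := by
    have h3 : ContinuousOn (fun x : ℝ × ℝ => h x.1) (Ioo a b ×ˢ Ioo (0 : ℝ) 1) :=
      hh.comp continuousOn_fst (fun x hx => hx.1)
    exact continuousOn_fst.prodMk (h3.sub (continuousOn_snd.mul (h3.sub continuousOn_const)))
  have h4 := h1.image _ h2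
  convert h4 using 1
  ext ⟨t, r⟩
  constructor
  · rintro ⟨⟨ht, hr⟩, hl⟩
    simp only at ht hr hl
    have hd : 0 < h t - c := by linarith [(hm t ht).1]
    refine ⟨(t, (h t - r) / (h t - c)), ⟨ht, ⟨div_pos (by linarith) hd, ?_⟩⟩, ?_⟩
    · rw [div_lt_one hd]
      linarith [hr.1]
    · simp only [Prod.mk.injEq, true_and]
      rw [div_mul_cancel₀ _ hd.ne']
      ring
  · rintro ⟨⟨t', s⟩, ⟨ht, hs⟩, he⟩
    simp only [Prod.mk.injEq] at he ht hs
    obtain ⟨rfl, rfl⟩ := he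
    have hd : 0 < h t' - c := by linarith [(hm t' ht).1]
    have hc := (hm t' ht).2
    have hs0 := hs.1
    have hs1 := hs.2
    refine ⟨⟨ht, ⟨?_, ?_⟩⟩, ?_⟩
    · show c < h t' - s * (h t' - c)
      nlinarith [mul_pos (sub_pos.2 hs1) hd]
    · show h t' - s * (h t' - c) < d
      nlinarith [mul_pos hs0 hd]
    · show h t' - s * (h t' - c) < h t'
      nlinarith [mul_pos hs0 hd]

private theorem stkB_null {Z : Set (ℝ × ℝ)} (hZc : IsClosed Z) {a b c d : ℝ} {h : ℝ → ℝ}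
    (hg : GraphIn Z a b c d h) :
    (volume : Measure (ℝ × ℝ)) (Z ∩ Ioo a b ×ˢ Ioo c d) = 0 := by
  have hmeas : MeasurableSet (Z ∩ Ioo a b ×ˢ Ioo c d) :=
    hZc.measurableSet.inter (measurableSet_Ioo.prod measurableSet_Ioo)
  rw [Measure.volume_eq_prod, Measure.measure_prod_null hmeas]
  refine Filter.Eventually.of_forall fun t => ?_
  have hsub : Prod.mk t ⁻¹' (Z ∩ Ioo a b ×ˢ Ioo c d) ⊆ {h t} := by
    intro r hr
    exact (hg.iff (t, r) hr.2).1 hr.1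
  exact measure_mono_null hsub (by simp)

private theorem stkB_core {Z Ω : Set (ℝ × ℝ)} {P Q : ℝ × ℝ → ℝ} (hP : ContDiff ℝ 1 P)
    (hQ : ContDiff ℝ 1 Q) (sP : HasCompactSupport P) (sQ : HasCompactSupport Q)
    {a b c d : ℝ} {h : ℝ → ℝ} (hZc : IsClosed Z) (hΩ : IsOpen Ω) (hf : frontier Ω ⊆ Z)
    (hg : GraphIn Z a b c d h)
    (tP : tsupport P ⊆ Ioo a b ×ˢ Ioo c d) (tQ : tsupport Q ⊆ Ioo a b ×ˢ Ioo c d)
    (h0 : ∀ t ∈ Ioo a b, P (t, h t) + Q (t, h t) * deriv h t = 0) :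
    ∫ w in Ω, (fderiv ℝ Q w (1, 0) - fderiv ℝ P w (0, 1)) = 0 := by
  set f : ℝ × ℝ → ℝ := fun w => fderiv ℝ Q w (1, 0) - fderiv ℝ P w (0, 1) with hfdef
  set B : Set (ℝ × ℝ) := Ioo a b ×ˢ Ioo c d with hB
  set U : Set (ℝ × ℝ) := {w : ℝ × ℝ | w ∈ B ∧ h w.1 < w.2} with hU
  set L : Set (ℝ × ℝ) := {w : ℝ × ℝ | w ∈ B ∧ w.2 < h w.1} with hL
  have hBo : IsOpen B := isOpen_Ioo.prod isOpen_Ioo
  have hh1 : ContDiffOn ℝ 1 h (Ioo a b) := hg.smooth.of_le (by norm_cast)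
  have hhc : ContinuousOn h (Ioo a b) := hh1.continuousOn
  have hhB : ContinuousOn (fun w : ℝ × ℝ => h w.1) B :=
    hhc.comp continuousOn_fst (fun x hx => hx.1)
  have hUo : IsOpen U := by
    have : U = B ∩ (fun w : ℝ × ℝ => w.2 - h w.1) ⁻¹' Ioi 0 := by
      ext w
      simp [hU]
    rw [this]
    exact (continuousOn_snd.sub hhB).isOpen_inter_preimage hBo isOpen_Ioi
  have hLo : IsOpen L := by
    have : L = B ∩ (fun w : ℝ × ℝ => h w.1 - w.2) ⁻¹' Ioi 0 := by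
      ext w
      simp [hL]
    rw [this]
    exact (hhB.sub continuousOn_snd).isOpen_inter_preimage hBo isOpen_Ioi
  have hfc : Continuous f := by
    have c1 : Continuous (fun w => fderiv ℝ Q w (1, 0)) :=
      (hQ.continuous_fderiv (by simp)).clm_apply continuous_const
    have c2 : Continuous (fun w => fderiv ℝ P w (0, 1)) :=
      (hP.continuous_fderiv (by simp)).clm_apply continuous_const
    exact c1.sub c2
  have hfz : ∀ w, w ∉ B → f w = 0 := by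
    intro w hw
    have q1 : fderiv ℝ Q w = 0 := by
      by_contra hne
      exact hw (tQ (support_fderiv_subset ℝ hne))
    have q2 : fderiv ℝ P w = 0 := by
      by_contra hne
      exact hw (tP (support_fderiv_subset ℝ hne))
    simp [hfdef, q1, q2]
  have hfs : HasCompactSupport f := by
    have c1 : HasCompactSupport (fun w => fderiv ℝ Q w (1, 0)) := sQ.fderiv_apply ℝ (1, 0)
    have c2 : HasCompactSupport (fun w => fderiv ℝ P w (0, 1)) := sP.fderiv_apply ℝ (0, 1)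
    exact c1.sub c2
  have hfi : Integrable f := hfc.integrable_of_hasCompactSupport hfs
  have hUd : ∀ w ∈ U, w ∉ frontier Ω := by
    intro w hw hfr
    have := (hg.iff w hw.1).1 (hf hfr)
    exact absurd hw.2 (by rw [this]; exact lt_irrefl _)
  have hLd : ∀ w ∈ L, w ∉ frontier Ω := by
    intro w hw hfr
    have := (hg.iff w hw.1).1 (hf hfr)
    exact absurd hw.2 (by rw [this]; exact lt_irrefl _)
  have iU : ∫ w in Ω ∩ U, f w = 0 := by
    rcases stkB_pre hΩ (stkB_up hhc hg.maps) hUd with e | e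
    · rw [e]
      exact stk_above hP hQ sP sQ hh1 hg.maps tP tQ h0
    · rw [e]
      simp
  have iL : ∫ w in Ω ∩ L, f w = 0 := by
    rcases stkB_pre hΩ (stkB_low hhc hg.maps) hLd with e | e
    · rw [e]
      exact stk_below hP hQ sP sQ hh1 hg.maps tP tQ h0
    · rw [e]
      simp
  have hdis : Disjoint (Ω ∩ U) (Ω ∩ L) := by
    rw [Set.disjoint_left]
    rintro w ⟨_, h1⟩ ⟨_, h2⟩
    exact lt_asymm h1.2 h2.2
  have hsum : ∫ w in (Ω ∩ U) ∪ (Ω ∩ L), f w = 0 := by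
    rw [setIntegral_union hdis (hΩ.inter hLo).measurableSet hfi.integrableOn hfi.integrableOn,
      iU, iL, add_zero]
  have hcut : ∫ w in Ω, f w = ∫ w in Ω ∩ B, f w := by
    apply setIntegral_eq_of_subset_of_forall_sdiff_eq_zero hΩ.measurableSet inter_subset_left
    intro w hw
    exact hfz w (fun hwB => hw.2 ⟨hw.1, hwB⟩)
  rw [hcut, ← hsum]
  apply setIntegral_congr_set
  have hn := stkB_null hZc hg
  have hle : (Ω ∩ U) ∪ (Ω ∩ L) ⊆ Ω ∩ B := by
    rintro w (⟨h1, h2⟩ | ⟨h1, h2⟩)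
    · exact ⟨h1, h2.1⟩
    · exact ⟨h1, h2.1⟩
  have hdiff : (Ω ∩ B) \ ((Ω ∩ U) ∪ (Ω ∩ L)) ⊆ Z ∩ B := by
    rintro w ⟨⟨h1, h2⟩, h3⟩
    refine ⟨(hg.iff w h2).2 ?_, h2⟩
    by_contra hne
    rcases lt_or_gt_of_ne hne with hlt | hlt
    · exact h3 (Or.inr ⟨h1, h2, hlt⟩)
    · exact h3 (Or.inl ⟨h1, h2, hlt⟩)
  have hz : volume ((Ω ∩ B) \ ((Ω ∩ U) ∪ (Ω ∩ L))) = 0 := measure_mono_null hdiff hn
  symm
  exact (ae_eq_set.2 ⟨by rw [sdiff_eq_empty.2 hle]; simp, hz⟩)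

theorem stk_local (hZ : PSet Z M K δ F) {Ω : Set (ℝ × ℝ)} (hΩ : IsOpen Ω)
    (hf : frontier Ω ⊆ Z) (w₀ : ℝ × ℝ) : ∃ W : Set (ℝ × ℝ), IsOpen W ∧ w₀ ∈ W ∧
      ∀ ψ : ℝ × ℝ → ℝ, ContDiff ℝ ∞ ψ → HasCompactSupport ψ → tsupport ψ ⊆ W →
        ∫ w in Ω, aI F ψ w = 0 := by
  have hzero : ∀ ψ : ℝ × ℝ → ℝ, ∀ w, w ∉ tsupport ψ → aI F ψ w = 0 := by
    intro ψ w hw
    have q1 : fderiv ℝ ψ w = 0 := by
      by_contra hne
      exact hw (support_fderiv_subset ℝ hne)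
    have q2 : ψ w = 0 := image_eq_zero_of_notMem_tsupport hw
    simp [aI, q1, q2]
  -- coefficients
  have hP : ∀ ψ : ℝ × ℝ → ℝ, ContDiff ℝ ∞ ψ →
      ContDiff ℝ 1 (fun w : ℝ × ℝ => ψ w * (w.2 - fderiv ℝ F w (1, 0))) := by
    intro ψ hψ
    exact (hψ.mul (contDiff_snd.sub (stkB_smooth hZ.smooth (1, 0)))).of_le (by norm_cast)
  have hQ : ∀ ψ : ℝ × ℝ → ℝ, ContDiff ℝ ∞ ψ →
      ContDiff ℝ 1 (fun w : ℝ × ℝ => -(ψ w * fderiv ℝ F w (0, 1))) := by
    intro ψ hψ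
    exact (hψ.mul (stkB_smooth hZ.smooth (0, 1))).neg.of_le (by norm_cast)
  have tP : ∀ ψ : ℝ × ℝ → ℝ,
      tsupport (fun w : ℝ × ℝ => ψ w * (w.2 - fderiv ℝ F w (1, 0))) ⊆ tsupport ψ := by
    intro ψ
    refine closure_mono fun w hw => ?_
    intro h
    apply hw
    simp [h]
  have tQ : ∀ ψ : ℝ × ℝ → ℝ,
      tsupport (fun w : ℝ × ℝ => -(ψ w * fderiv ℝ F w (0, 1))) ⊆ tsupport ψ := by
    intro ψ
    refine closure_mono fun w hw => ?_
    intro h
    apply hw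
    simp [h]
  have sP : ∀ ψ : ℝ × ℝ → ℝ, HasCompactSupport ψ →
      HasCompactSupport (fun w : ℝ × ℝ => ψ w * (w.2 - fderiv ℝ F w (1, 0))) :=
    fun ψ hs => hs.of_isClosed_subset (isClosed_tsupport _) (tP ψ)
  have sQ : ∀ ψ : ℝ × ℝ → ℝ, HasCompactSupport ψ →
      HasCompactSupport (fun w : ℝ × ℝ => -(ψ w * fderiv ℝ F w (0, 1))) :=
    fun ψ hs => hs.of_isClosed_subset (isClosed_tsupport _) (tQ ψ)
  have hrel : ∀ ψ : ℝ × ℝ → ℝ, ContDiff ℝ ∞ ψ → ∀ A : Set (ℝ × ℝ),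
      ∫ w in A, aI F ψ w = - ∫ w in A, (fderiv ℝ (fun w => -(ψ w * fderiv ℝ F w (0, 1))) w (1, 0)
      - fderiv ℝ (fun w : ℝ × ℝ => ψ w * (w.2 - fderiv ℝ F w (1, 0))) w (0, 1)) := by
    intro ψ hψ A
    rw [← integral_neg]
    congr 1
    funext w
    rw [stk_integrand hZ.smooth hψ w, neg_neg]
  by_cases hw : w₀ ∈ Ω
  · refine ⟨Ω, hΩ, hw, fun ψ hψ hs ht => ?_⟩
    rw [setIntegral_eq_integral_of_forall_compl_eq_zero
      (fun w hw => hzero ψ w (fun h => hw (ht h)))]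
    have h1 := hrel ψ hψ univ
    rw [Measure.restrict_univ] at h1
    rw [h1, stk_whole (hP ψ hψ) (hQ ψ hψ) (sP ψ hs) (sQ ψ hs), neg_zero]
  by_cases hc : w₀ ∈ closure Ω
  swap
  · refine ⟨(closure Ω)ᶜ, isClosed_closure.isOpen_compl, hc, fun ψ hψ hs ht => ?_⟩
    exact setIntegral_eq_zero_of_forall_eq_zero
      (fun w hw => hzero ψ w (fun h => ht h (subset_closure hw)))
  have hfr : w₀ ∈ frontier Ω := ⟨hc, by rwa [hΩ.interior_eq]⟩
  have hwZ : w₀ ∈ Z := hf hfr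
  obtain ⟨W, g, hwW, hg⟩ := hZ.loc w₀ hwZ
  rcases exists_graph hg hwW hwZ with ⟨a, b, c, d, h, hbox, hsub, hG, htan⟩ |
    ⟨a, b, c, d, h, hbox, hsub, hG, htan⟩
  · refine ⟨Ioo a b ×ˢ Ioo c d, isOpen_Ioo.prod isOpen_Ioo, hbox, fun ψ hψ hs ht => ?_⟩
    rw [hrel ψ hψ Ω, stkB_core (hP ψ hψ) (hQ ψ hψ) (sP ψ hs) (sQ ψ hs) hZ.closed hΩ hf hG
      ((tP ψ).trans ht) ((tQ ψ).trans ht), neg_zero]
    intro t htt
    have hin : (t, h t) ∈ Ioo a b ×ˢ Ioo c d := ⟨htt, hG.maps t htt⟩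
    have hinZ : (t, h t) ∈ Z := (hG.iff _ hin).2 rfl
    have hp := hZ.prim _ hinZ W g (hsub hin) hg 1 (deriv h t) (htan t htt)
    have hlin : fderiv ℝ F (t, h t) (1, deriv h t) =
        fderiv ℝ F (t, h t) (1, 0) + deriv h t * fderiv ℝ F (t, h t) (0, 1) := by
      have : ((1, deriv h t) : ℝ × ℝ) = (1, 0) + deriv h t • ((0, 1) : ℝ × ℝ) := by
        ext <;> simp
      rw [this, map_add, map_smul, smul_eq_mul]
    rw [hlin] at hp
    simp only at hp ⊢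
    linear_combination (-ψ (t, h t)) * hp
  · refine ⟨Prod.swap ⁻¹' (Ioo a b ×ˢ Ioo c d),
      (isOpen_Ioo.prod isOpen_Ioo).preimage continuous_swap, hbox, fun ψ hψ hs ht => ?_⟩
    set P : ℝ × ℝ → ℝ := fun w : ℝ × ℝ => ψ w * (w.2 - fderiv ℝ F w (1, 0)) with hPdef
    set Q : ℝ × ℝ → ℝ := fun w : ℝ × ℝ => -(ψ w * fderiv ℝ F w (0, 1)) with hQdef
    have hsw : ContDiff ℝ 1 (Prod.swap : ℝ × ℝ → ℝ × ℝ) := contDiff_snd.prodMk contDiff_fst
    have hfd : ∀ G : ℝ × ℝ → ℝ, ContDiff ℝ 1 G → ∀ w v : ℝ × ℝ,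
        fderiv ℝ (fun x : ℝ × ℝ => G x.swap) w v = fderiv ℝ G w.swap v.swap := by
      intro G hG' w v
      have e1 : HasFDerivAt (Prod.swap : ℝ × ℝ → ℝ × ℝ)
          ((ContinuousLinearEquiv.prodComm ℝ ℝ ℝ : (ℝ × ℝ) ≃L[ℝ] (ℝ × ℝ)) : (ℝ × ℝ) →L[ℝ] (ℝ × ℝ)) w :=
        (ContinuousLinearEquiv.prodComm ℝ ℝ ℝ : (ℝ × ℝ) ≃L[ℝ] (ℝ × ℝ)).hasFDerivAt
      have e2 := ((hG'.differentiable (by simp) w.swap).hasFDerivAt).comp w e1
      have e3 : fderiv ℝ (fun x : ℝ × ℝ => G x.swap) w = _ := e2.fderiv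
      rw [e3]
      rfl
    have hΩ' : IsOpen (Prod.swap ⁻¹' Ω) := hΩ.preimage continuous_swap
    have hf' : frontier (Prod.swap ⁻¹' Ω) ⊆ Prod.swap ⁻¹' Z := by
      have : frontier (Prod.swap ⁻¹' Ω) = Prod.swap ⁻¹' (frontier Ω) :=
        ((Homeomorph.prodComm ℝ ℝ).preimage_frontier Ω).symm
      rw [this]
      exact preimage_mono hf
    have tswap : ∀ G : ℝ × ℝ → ℝ, tsupport G ⊆ Prod.swap ⁻¹' (Ioo a b ×ˢ Ioo c d) →
        tsupport (fun x : ℝ × ℝ => G x.swap) ⊆ Ioo a b ×ˢ Ioo c d := by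
      intro G hG' x hx
      have h1 : tsupport (fun x : ℝ × ℝ => G x.swap) = Prod.swap ⁻¹' tsupport G :=
        (tsupport_comp_eq_preimage G (Homeomorph.prodComm ℝ ℝ))
      rw [h1] at hx
      have h2 : (Prod.swap x).swap ∈ Ioo a b ×ˢ Ioo c d := hG' hx
      rwa [Prod.swap_swap] at h2
    have sswap : ∀ G : ℝ × ℝ → ℝ, HasCompactSupport G →
        HasCompactSupport (fun x : ℝ × ℝ => G x.swap) := fun G hG' =>
      hG'.comp_homeomorph (Homeomorph.prodComm ℝ ℝ)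
    have key := stkB_core (Z := Prod.swap ⁻¹' Z) (Ω := Prod.swap ⁻¹' Ω)
      (P := fun x : ℝ × ℝ => Q x.swap) (Q := fun x : ℝ × ℝ => P x.swap)
      ((hQ ψ hψ).comp hsw) ((hP ψ hψ).comp hsw) (sswap Q (sQ ψ hs)) (sswap P (sP ψ hs))
      (hZ.closed.preimage continuous_swap) hΩ' hf' hG
      (tswap Q ((tQ ψ).trans ht)) (tswap P ((tP ψ).trans ht)) (by
        intro t htt
        have hin : (t, h t) ∈ Ioo a b ×ˢ Ioo c d := ⟨htt, hG.maps t htt⟩
        have hinZ : (h t, t) ∈ Z := (hG.iff _ hin).2 rfl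
        have hp := hZ.prim _ hinZ W g (hsub hin) hg (deriv h t) 1 (htan t htt)
        have hlin : fderiv ℝ F (h t, t) (deriv h t, 1) =
            deriv h t * fderiv ℝ F (h t, t) (1, 0) + fderiv ℝ F (h t, t) (0, 1) := by
          have : ((deriv h t, 1) : ℝ × ℝ) = deriv h t • ((1, 0) : ℝ × ℝ) + (0, 1) := by
            ext <;> simp
          rw [this, map_add, map_smul, smul_eq_mul]
        rw [hlin] at hp
        simp only [hPdef, hQdef, Prod.swap_prod_mk] at hp ⊢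
        linear_combination (-ψ (h t, t)) * hp)
    rw [hrel ψ hψ Ω]
    have hmp : MeasurePreserving (Prod.swap : ℝ × ℝ → ℝ × ℝ) volume volume :=
      Measure.measurePreserving_swap
    have hemb : MeasurableEmbedding (Prod.swap : ℝ × ℝ → ℝ × ℝ) :=
      (MeasurableEquiv.prodComm : ℝ × ℝ ≃ᵐ ℝ × ℝ).measurableEmbedding
    have hch := hmp.setIntegral_preimage_emb hemb
      (fun w => fderiv ℝ Q w (1, 0) - fderiv ℝ P w (0, 1)) Ω
    rw [← hch]
    have hneg : ∀ w : ℝ × ℝ, fderiv ℝ Q w.swap (1, 0) - fderiv ℝ P w.swap (0, 1) =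
        -(fderiv ℝ (fun x : ℝ × ℝ => P x.swap) w (1, 0)
          - fderiv ℝ (fun x : ℝ × ℝ => Q x.swap) w (0, 1)) := by
      intro w
      rw [hfd P (hP ψ hψ), hfd Q (hQ ψ hψ)]
      simp only [Prod.swap_prod_mk]
      ring
    simp only [hneg]
    rw [integral_neg, key]
    simp

end Pool.Agent.H2.TI
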