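import Pool.Agent.H2.TI.StkB

/-!
# The area identity (module StkC)

PROOF. Partition of unity. `W w₀` from `stk_local`. The compact set `tsupport ψ` is covered by finitely many
`W w_i`; there are smooth functions `ρ_i ≥ 0` on the plane with `tsupport ρ_i ⊆ W w_i` and `∑ ρ_i = 1` on
`tsupport ψ` (`SmoothPartitionOfUnity.exists_isSubordinate` on the manifold `ℝ × ℝ`, for the closed set
`tsupport ψ`; the sum is locally finite, and only finitely many `i` meet the compact set `tsupport ψ`; compare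
the use in `H2/TG/Glue.lean`). Then `ψ = ∑ ρ_i ψ` (finite sum), `aI F` is linear in `ψ`
(derivatives of finite sums of smooth functions), each `aI F (ρ_i ψ)` is continuous with compact support, so
integrable; the integral of each is zero.
-/

set_option autoImplicit false

open scoped ContDiff Topology
open Set MeasureTheory

namespace Pool.Agent.H2.TI

variable {Z : Set (ℝ × ℝ)} {M K δ : ℝ} {F : ℝ × ℝ → ℝ}

private theorem aI_cont {F ψ : ℝ × ℝ → ℝ} (hF : ContDiff ℝ ∞ F) (hψ : ContDiff ℝ ∞ ψ) :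
    Continuous (aI F ψ) := by
  have h1 : Continuous (fderiv ℝ ψ) := hψ.continuous_fderiv (by simp)
  have h2 : Continuous (fderiv ℝ F) := hF.continuous_fderiv (by simp)
  unfold aI
  exact (hψ.continuous.add ((h1.clm_apply continuous_const).mul
    (h2.clm_apply continuous_const))).add ((h1.clm_apply continuous_const).mul
    (continuous_snd.sub (h2.clm_apply continuous_const)))

private theorem aI_integrable {F ψ : ℝ × ℝ → ℝ} (hF : ContDiff ℝ ∞ F) (hψ : ContDiff ℝ ∞ ψ)
    (hc : HasCompactSupport ψ) : Integrable (aI F ψ) := by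
  refine (aI_cont hF hψ).integrable_of_hasCompactSupport ?_
  refine HasCompactSupport.intro hc (fun w hw => ?_)
  have h0 : ψ w = 0 := image_eq_zero_of_notMem_tsupport hw
  have h1 : fderiv ℝ ψ w = 0 := by
    have : ψ =ᶠ[𝓝 w] fun _ => 0 := notMem_tsupport_iff_eventuallyEq.1 hw
    rw [this.fderiv_eq]
    exact fderiv_const_apply 0
  simp [aI, h0, h1]

theorem stokes (hZ : PSet Z M K δ F) {Ω : Set (ℝ × ℝ)} (hΩ : IsOpen Ω)
    (hf : frontier Ω ⊆ Z) {ψ : ℝ × ℝ → ℝ} (hψ : ContDiff ℝ ∞ ψ) (hc : HasCompactSupport ψ) :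
    ∫ w in Ω, aI F ψ w = 0 := by
  classical
  choose W hWo hWm hW using fun w₀ : ℝ × ℝ => stk_local hZ hΩ hf w₀
  obtain ⟨t, ht⟩ := hc.elim_finite_subcover W hWo
    (fun w _ => mem_iUnion.2 ⟨w, hWm w⟩)
  obtain ⟨f, hfs⟩ := SmoothPartitionOfUnity.exists_isSubordinate
    (modelWithCornersSelf ℝ (ℝ × ℝ)) (isClosed_tsupport ψ)
    (fun i : {x // x ∈ t} => W i.1) (fun i => hWo i.1) (fun w hw => by
      have := ht hw
      simp only [mem_iUnion] at this ⊢
      obtain ⟨i, hi, hwi⟩ := this
      exact ⟨⟨i, hi⟩, hwi⟩)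
  have hsm : ∀ i : {x // x ∈ t}, ContDiff ℝ ∞ fun w => f i w * ψ w := fun i =>
    (contMDiff_iff_contDiff.1 (f i).contMDiff).mul hψ
  have hcs : ∀ i : {x // x ∈ t}, HasCompactSupport fun w => f i w * ψ w := fun i =>
    hc.mul_left
  have hts : ∀ i : {x // x ∈ t}, tsupport (fun w => f i w * ψ w) ⊆ W i.1 := fun i =>
    (tsupport_mul_subset_left (f := fun w => f i w) (g := ψ)).trans (hfs i)
  have hsum : ψ = fun w => ∑ i : {x // x ∈ t}, f i w * ψ w := by
    funext w
    by_cases hw : w ∈ tsupport ψ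
    · have h1 := f.sum_eq_one hw
      rw [finsum_eq_sum_of_fintype] at h1
      rw [← Finset.sum_mul, h1, one_mul]
    · have h0 : ψ w = 0 := image_eq_zero_of_notMem_tsupport hw
      simp [h0]
  have hlin : ∀ w, aI F ψ w = ∑ i : {x // x ∈ t}, aI F (fun w => f i w * ψ w) w := by
    intro w
    have hd : fderiv ℝ ψ w = ∑ i : {x // x ∈ t}, fderiv ℝ (fun w => f i w * ψ w) w := by
      conv_lhs => rw [hsum]
      exact fderiv_fun_sum fun i _ => ((hsm i).differentiable (by simp)).differentiableAt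
    unfold aI
    rw [hd]
    conv_lhs => rw [show ψ w = ∑ i : {x // x ∈ t}, f i w * ψ w from congrFun hsum w]
    simp only [sum_apply, Finset.sum_mul, Finset.sum_add_distrib]
  simp only [hlin]
  rw [integral_finsetSum _ fun i _ => (aI_integrable hZ.smooth (hsm i) (hcs i)).integrableOn]
  exact Finset.sum_eq_zero fun i _ => hW i.1 _ (hsm i) (hcs i) (hts i)

end Pool.Agent.H2.TI
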